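import Mathlib
import Pool.Agent.Work.MP_59f3ad_nt.Defs

/-!
Definitions for the block Q3 (captain helper46): Schneider's conjecture at `p = 3` for all `r` for
the fields `Q(ω, m^(1/3))`, `m` a product of primary primes of `ℤ[ω]` (note 4644).
-/

open NumberField IsDedekindDomain

namespace Pool.Agent.Work.MP_59f3ad_nt.Q3

universe u

/-- The ring `ℤ[ω]`, `ω² = -1 - ω`; the element `⟨a, b⟩` is `a + b ω`. -/
abbrev E : Type := QuadraticAlgebra ℤ (-1) (-1)

/-- The element `a + b w` of a ring, for `z = a + b ω`. -/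
def ev {R : Type*} [CommRing R] (w : R) (z : E) : R := (z.re : R) + (z.im : R) * w

/-- Evaluation at a primitive cube root of unity is a ring homomorphism. -/
def evH {R : Type*} [CommRing R] (w : R) (h : w ^ 2 + w + 1 = 0) : E →+* R where
  toFun := ev w
  map_one' := by simp [ev, QuadraticAlgebra.re_one, QuadraticAlgebra.im_one]
  map_mul' a b := by
    simp only [ev, QuadraticAlgebra.re_mul, QuadraticAlgebra.im_mul]
    push_cast
    linear_combination (-(a.im : R) * b.im) * h
  map_zero' := by simp [ev]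
  map_add' a b := by
    simp only [ev, QuadraticAlgebra.re_add, QuadraticAlgebra.im_add]
    push_cast
    ring

theorem evH_apply {R : Type*} [CommRing R] (w : R) (h : w ^ 2 + w + 1 = 0) (z : E) :
    evH w h z = ev w z := rfl

/-- `ω`. -/
def oE : E := ⟨0, 1⟩

/-- `λ = 1 - ω`, the prime above `3`. -/
def lE : E := ⟨1, -1⟩

/-- The norm `a² - a b + b²` of `a + b ω`. -/
def nm (z : E) : ℕ := (z.re ^ 2 - z.re * z.im + z.im ^ 2).natAbs

/-- Primary primes of degree one: the norm is a prime number and `z ≡ 1 mod 3`. -/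
structure PP (z : E) : Prop where
  pr : (nm z).Prime
  re : (3 : ℤ) ∣ z.re - 1
  im : (3 : ℤ) ∣ z.im

/-- The image of `ω` in the residue field `ℤ/p` of a prime `π = a + b ω` of norm `p`. -/
noncomputable def rho (π : E) : ZMod (nm π) := -(π.re : ZMod (nm π)) * (π.im : ZMod (nm π))⁻¹

open Classical in
/-- The index of `z` modulo `π`: `z^((p-1)/3) ≡ ω^(ind π z)` modulo `π`, `p = nm π`. So the cubic
residue symbol `(z/π)` is `ω^(ind π z)`. -/
noncomputable def ind (π z : E) : ZMod 3 :=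
  if (ev (rho π) z) ^ ((nm π - 1) / 3) = 1 then 0
  else if (ev (rho π) z) ^ ((nm π - 1) / 3) = rho π then 1
  else if (ev (rho π) z) ^ ((nm π - 1) / 3) = rho π ^ 2 then 2
  else 0

/-- `κ(1 + 3 u) = u mod 3` for `z = 1 + 3 u`. -/
def kap (z : E) : ZMod 3 × ZMod 3 := ((((z.re - 1) / 3 : ℤ) : ZMod 3), ((z.im / 3 : ℤ) : ZMod 3))

/-- The additive character `j ↦ e(j/3)` of `ℤ/3`. -/
noncomputable def e3 (j : ZMod 3) : ℂ :=
  Complex.exp (2 * (Real.pi : ℂ) * Complex.I * ((j.val : ℂ) / 3))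

open Classical in
/-- The cubic character modulo `π`. -/
noncomputable def chi (π z : E) : ℂ := if π ∣ z then 0 else e3 (ind π z)

/-- The box of all `a + b ω` with `|a|, |b| ≤ B`. -/
noncomputable def bx (B : ℕ) : Finset E :=
  (Finset.Icc (-(B : ℤ)) B ×ˢ Finset.Icc (-(B : ℤ)) B).image fun p => ⟨p.1, p.2⟩

/-- The symmetrised symbol of the components `i` and `k` of a tuple of primes. -/
noncomputable def sy {t : ℕ} (π : Fin t → E) (i k : Fin t) : ZMod 3 :=
  if i < k then ind (π i) (π k) else ind (π k) (π i)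

/-- The places above `3`. -/
def S3 (L : Type u) [Field L] [NumberField L] : Set (HeightOneSpectrum (𝓞 L)) :=
  {v | (3 : 𝓞 L) ∈ v.asIdeal}

/-- The configuration: `F = ℚ(w)`, `w` a primitive cube root of unity, `L = F(x)` cyclic of degree
`3` over `F`, `x³ = M ∈ ℤ[ω]`, `M ≠ 0`, `σ x = w x`. -/
structure Cfg (F L : Type u) [Field F] [NumberField F] [Field L] [NumberField L] [Algebra F L]
    (w : 𝓞 F) (x : 𝓞 L) (σ : L ≃ₐ[F] L) (M : E) : Prop where
  hF : Module.finrank ℚ F = 2
  hw : w ^ 2 + w + 1 = 0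
  hL : Module.finrank F L = 3
  hx : (x : L) ^ 3 = algebraMap F L (ev (w : F) M)
  hσ : σ (x : L) = algebraMap F L (w : F) * (x : L)
  hfix : ∀ y : L, σ y = y → ∃ z : F, y = algebraMap F L z
  hM : M ≠ 0

/-- `M = ∏ π_i^{c_i}` with primary primes `π_i` of degree one of distinct norms, `c_i = 1, 2`. -/
structure Prd (t : ℕ) (π : Fin t → E) (c : Fin t → ℕ) (M : E) : Prop where
  ht : 1 ≤ t
  pp : ∀ i, PP (π i)
  inj : ∀ i k, nm (π i) = nm (π k) → i = k
  hc : ∀ i, c i = 1 ∨ c i = 2
  hM : M = ∏ i, π i ^ c i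

/-- The valuation at `v` of `a` is divisible by `3`. -/
def Cub {K : Type u} [Field K] [NumberField K] (v : HeightOneSpectrum (𝓞 K)) (a : K) : Prop :=
  ∃ y : K, v.valuation K a = v.valuation K y ^ 3

/-- `a` is approximated by cubes at `v` (relative precision `exp(-n)` for every `n`). -/
def LCub {K : Type u} [Field K] [NumberField K] (v : HeightOneSpectrum (𝓞 K)) (a : K) : Prop :=
  ∀ n : ℕ, ∃ l : K, l ≠ 0 ∧ v.valuation K (a / l ^ 3 - 1) ≤ WithZero.exp (-(n : ℤ))

/-- `a` is approximated at `v` by cubes of elements which are close to their conjugates. -/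
def LCubS {K : Type u} [Field K] [NumberField K] (v : HeightOneSpectrum (𝓞 K)) (σ : K ≃+* K)
    (a : K) : Prop :=
  ∀ n : ℕ, ∃ l : K, l ≠ 0 ∧ v.valuation K (a / l ^ 3 - 1) ≤ WithZero.exp (-(n : ℤ)) ∧
    v.valuation K (σ l / l - 1) ≤ WithZero.exp (-(n : ℤ))

/-- `σ` acts trivially on the residue field of `v` (`σ` is in the inertia group of `v`). -/
def Inert {L : Type u} [Field L] [NumberField L] (σ : L ≃+* L) (v : HeightOneSpectrum (𝓞 L)) :
    Prop :=
  ∀ y y' : 𝓞 L, (y' : L) = σ (y : L) → y' - y ∈ v.asIdeal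

/-- The totally ramified prime `v` of `L` above the prime `ev w π` of `F`. -/
structure Ram (F L : Type u) [Field F] [NumberField F] [Field L] [NumberField L] [Algebra F L]
    (w : 𝓞 F) (x : 𝓞 L) (σ : L ≃ₐ[F] L) (π : E) (c : ℕ) (q : HeightOneSpectrum (𝓞 F))
    (v : HeightOneSpectrum (𝓞 L)) : Prop where
  qs : q.asIdeal = Ideal.span {ev w π}
  n3 : (3 : 𝓞 L) ∉ v.asIdeal
  inr : Inert (σ : L ≃+* L) v
  res : ∀ y : 𝓞 L, ∃ z : 𝓞 F, y - algebraMap (𝓞 F) (𝓞 L) z ∈ v.asIdeal
  ram : ∀ a : F, v.valuation L (algebraMap F L a) = q.valuation F a ^ 3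
  vx : v.valuation L (x : L) = WithZero.exp (-(c : ℤ))

/-- `s` is an automorphism of the algebraic closure of `L` which extends `σ`. -/
def Ext {L : Type u} [Field L] (σ : L ≃+* L) (s : AlgebraicClosure L ≃+* AlgebraicClosure L) :
    Prop :=
  ∀ y : L, s (algebraMap L (AlgebraicClosure L) y) = algebraMap L (AlgebraicClosure L) (σ y)

/-- The conjugate `s⁻¹ h s`. -/
noncomputable def cj {L : Type u} [Field L] {σ : L ≃+* L}
    {s : AlgebraicClosure L ≃+* AlgebraicClosure L} (hs : Ext σ s) (h : GK L) : GK L :=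
  AlgEquiv.ofRingEquiv (f := (s.trans (h : AlgebraicClosure L ≃+* AlgebraicClosure L)).trans s.symm)
    (by
      intro y
      simp only [RingEquiv.trans_apply]
      rw [hs y]
      erw [h.commutes]
      rw [← hs y, RingEquiv.symm_apply_apply])

theorem cj_apply {L : Type u} [Field L] {σ : L ≃+* L}
    {s : AlgebraicClosure L ≃+* AlgebraicClosure L} (hs : Ext σ s) (h : GK L)
    (y : AlgebraicClosure L) : cj hs h y = s.symm (h (s y)) := rfl

/-- `τ` extends `σ` and lies in the inertia group of the prime `Q` of the ring of all algebraic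
integers, which lies over `v`. -/
structure InrQ {L : Type u} [Field L] [NumberField L] (σ : L ≃+* L)
    (v : HeightOneSpectrum (𝓞 L)) (τ : AlgebraicClosure L ≃+* AlgebraicClosure L)
    (Q : Ideal (𝓞 (AlgebraicClosure L))) : Prop where
  ext : Ext σ τ
  pr : Q.IsPrime
  co : Q.comap (algebraMap (𝓞 L) (𝓞 (AlgebraicClosure L))) = v.asIdeal
  inr : ∀ y y' : 𝓞 (AlgebraicClosure L),
    (y' : AlgebraicClosure L) = τ (y : AlgebraicClosure L) → y' - y ∈ Q

/-- The `3`-adic integer `a` is divisible by `3`. -/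
def D3 (a : ℤ_[3]) : Prop := (3 : ℤ_[3]) ∣ a

end Pool.Agent.Work.MP_59f3ad_nt.Q3
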