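import Mathlib
import Pool.Agent.Work.MP_59f3ad_nt.Q3.Defs

/-!
Statements of block Q3, part R: cubic residues, cubic reciprocity, the bilinear estimate and the
count (note 4644, Steps 10 to 12). Every docstring is the complete proof.
-/

open NumberField IsDedekindDomain

namespace Pool.Agent.Work.MP_59f3ad_nt.Q3

universe u

/-- RHO (EASY-MEDIUM). Put `p = nm π = a² - ab + b²`, `π = a + bω`. `b` is prime to `p` (if `p ∣ b`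
then `p ∣ a²`, so `p² ∣ p`), `ρ = -a/b`, so `a + bρ = 0` and
`b²(ρ² + ρ + 1) = a² - ab + b² = p = 0`. `ev ρ` is a ring homomorphism `E → ℤ/p` (`evH`), it
vanishes at `π`, so at the multiples of `π`. Conversely if `ev ρ z = 0` then
`z * star π = (u + vω)` has `p ∣ u, v`: with `z = c + dω`: `c - da/b = 0` so `bc = ad mod p`;
`star π = (a - b) - bω`; `z * star π = (c(a-b) + db) + (d(a-b) - bc + bd) ω`,
`d(a-b) - bc + bd = ad - bc = 0 mod p` and `b(ca - cb + db) = a(bc) - b(bc) + b²d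
= (a² - ab + b²) d = 0 mod p`. So `p = π * star π ∣ z * star π`, cancel `star π` (`E` has no zero
divisors: the norm is multiplicative and positive). `nm π = 1 mod 3` since `a = 1, b = 0 mod 3`, so
`3 ∣ nm π - 1`, and a prime `= 1 mod 3` is at least `7`. If `ρ = 1` then `3 = 0` in `ℤ/p`, `p = 3`. -/
def StRho : Prop := ∀ π : E, PP π → (rho π) ^ 2 + rho π + 1 = 0 ∧
  (∀ z : E, ev (rho π) z = 0 ↔ π ∣ z) ∧ 3 ∣ nm π - 1 ∧ 7 ≤ nm π ∧ rho π ≠ 1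

/-- IND (MEDIUM). `p = nm π`, `k = (p-1)/3`, `ℤ/p` is a field, `ρ` a primitive cube root of unity.
`u := ev ρ z ≠ 0` for `π ∤ z` (StRho), `(u^k)³ = 1`, so `u^k ∈ {1, ρ, ρ²}` and the definition of
`ind` gives the first claim; the second follows by `ρ^i ρ^j = ρ^(i+j)` (order `3`); the third
because `ev ρ z = ev ρ z'`. Fourth: if `π ∣ y³ - z` then `u = (ev ρ y)³`, `u^k = (ev ρ y)^(p-1) = 1`;
if `u^k = 1` then `u` is a cube in the cyclic group `(ℤ/p)ˣ` of order `3k`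
(`IsCyclic`, or `ZMod.exists...`), `u = n³`, and `y = n` (an integer) has `π ∣ y³ - z` by StRho.
`(-1)^k = 1` as `k` is even (`p` odd). `Prime π`: `π ∣ zz'` iff `ev ρ z * ev ρ z' = 0`; `π` is not a
unit (`nm π ≠ 1`), `π ≠ 0`. -/
def StInd : Prop := ∀ π : E, PP π →
  (∀ z : E, ¬ π ∣ z → (ev (rho π) z) ^ ((nm π - 1) / 3) = rho π ^ (ind π z).val) ∧
  (∀ z z' : E, ¬ π ∣ z → ¬ π ∣ z' → ind π (z * z') = ind π z + ind π z') ∧
  (∀ z z' : E, π ∣ z - z' → ind π z = ind π z') ∧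
  (∀ z : E, ¬ π ∣ z → (ind π z = 0 ↔ ∃ y : E, π ∣ y ^ 3 - z)) ∧ ind π (-1) = 0 ∧ Prime π

/-- STR (EASY-MEDIUM). `star π = (a - b) - bω` is again primary of the same norm,
`rho (star π) = (rho π)²` (both are the cube roots of unity: `ev (rho π) (star π) ≠ 0`, or compute
`(a-b)/b = a/b - 1 = -ρ - 1 = ρ²`; note `ZMod (nm (star π)) = ZMod (nm π)`), and for an integer `n`
prime to `p`: `n^k = ρ^(ind π n) = (ρ²)^(ind (star π) n)`, so `ind (star π) n = - ind π n`.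
`π * star π = nm π`. -/
def StStr : Prop := ∀ π : E, PP π → PP (star π) ∧ nm (star π) = nm π ∧
  π * star π = ((nm π : ℕ) : E) ∧
  ∀ n : ℕ, ¬ nm π ∣ n → ind (star π) ((n : ℕ) : E) = - ind π ((n : ℕ) : E)

/-- CHR (EASY-MEDIUM). The cubic character with values in `E`. `ω = ⟨0, 1⟩` has `ω³ = 1`. Define
`χ(u) = ω^j` where `u^k = ρ^j`, `u ≠ 0` (by StInd with `z = ` the integer `u.val`: `χ(u) =
ω^(ind π u.val)`), `χ(0) = 0`: multiplicative by StInd. For general `z` with `π ∤ z`, `z` is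
congruent modulo `π` to the integer `(ev ρ z).val` (StRho), so the formula holds. -/
def StChr : Prop := ∀ π : E, PP π → ∃ χ : MulChar (ZMod (nm π)) E,
  ∀ z : E, ¬ π ∣ z → χ (ev (rho π) z) = (⟨0, 1⟩ : E) ^ (ind π z).val

/-- JAC (MEDIUM-HARD). `J = J(χ, χ) = -π`. (1) `J = -1 mod 3`: Mathlib's
`exists_jacobiSum_eq_neg_one_add` (`n = 3`, `μ = ω`): `J = -1 + z (ω-1)²`, `(ω-1)² = -3ω`.
(2) `π ∣ J`: apply `ev ρ : E → ℤ/p`: `χ(u) ↦ u^k` (`k = (p-1)/3`, also for `u = 0`), so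
`J ↦ ∑_u u^k (1-u)^k = 0` because the degree `2k < p - 1` (`FiniteField.sum_pow_lt_card_sub_one` for
every monomial). (3) `nm J = p`: `J * star J = p`: `star` maps `χ` to `χ⁻¹`, and
`J(χ,χ) J(χ⁻¹,χ⁻¹) = p` (Mathlib `jacobiSum_mul_jacobiSum_inv`, in a field of characteristic `0`
containing `E`, for instance `ℂ`). (`χ`, `χ²` are non-trivial: there is a non-cube.) So `J = π u`,
`nm u = 1` (norm multiplicative), `u` is one of the six units, `u = J/π = -1 mod 3` (as `π = 1`,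
`J = -1 mod 3`), so `u = -1`. -/
def StJac : Prop := ∀ π : E, PP π → ∀ [Fact (nm π).Prime] (χ : MulChar (ZMod (nm π)) E),
  (∀ z : E, ¬ π ∣ z → χ (ev (rho π) z) = (⟨0, 1⟩ : E) ^ (ind π z).val) →
  jacobiSum χ χ = -π

/-- RCA (MEDIUM-HARD). Put `p = nm π`, `p' = nm π'`, `ρ' = rho π'`. Let `K` be an algebraically
closed field of characteristic `p'` (`AlgebraicClosure (ZMod p')`), `f : E → K` the composite of
`ev ρ'` (StRho) and `ZMod p' → K`, `φ = χ` composed with `f` (`MulChar.ringHomComp`, `χ` from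
StChr), `ψ` a primitive additive character `ZMod p → K` (exists as `p ≠ p'`,
`AddChar.zmodChar`, `AddChar.primitiveZModChar`). `g = gaussSum φ ψ`. `φ ≠ 1`, `φ² ≠ 1`,
`φ³ = 1`, `φ(-1) = 1`. `g³ = p J(φ,φ)` (`g² = J(φ,φ) gaussSum (φ²) ψ`, `gaussSum φ ψ *
gaussSum φ⁻¹ ψ⁻¹ = p`; Mathlib: `jacobiSum_mul_nontrivial`, `gaussSum_mul_gaussSum_eq_card`, or
`gaussSum_pow_eq_prod_jacobiSum`), and `J(φ,φ) = f(J(χ,χ)) = -f(π)` (StJac,
`jacobiSum_ringHomComp`). So `g³ = -p f(π) ≠ 0` (`π' ∤ π` as the norms are different primes and `π`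
is prime; use StRho). Frobenius: `g^{p'} = gaussSum (φ^{p'}) (ψ^{p'}) = gaussSum φ (ψ(p' ·))
= φ(p')⁻¹ g` (`gaussSum_frob`, `gaussSum_mulShift`, `p' = 1 mod 3`), so `g^{p'-1} = φ(p')⁻¹
= ρ'^(- ind π p')`. Also `g^{p'-1} = (g³)^{(p'-1)/3} = (-p f(π))^{(p'-1)/3} =
ρ'^(ind π' (-1) + ind π' p + ind π' π)` (StInd). Compare the exponents of `ρ'` (order `3`). -/
def StRcA : Prop := ∀ π π' : E, PP π → PP π' → nm π ≠ nm π' →
  ind π' π + ind π' ((nm π : ℕ) : E) = - ind π ((nm π' : ℕ) : E)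

/-- REC (EASY). Cubic reciprocity. StRcA for `(π, π')`, `(π', π)` and `(star π, π')`, with StStr:
`ind π' π + ind π' p = - ind π p'` (1), `ind π π' + ind π p' = - ind π' p` (2),
`ind π' (star π) + ind π' p = - ind (star π) p' = ind π p'` (3), and
`ind π' p = ind π' π + ind π' (star π)` (4, StInd, StStr). So
`ind π π' = - ind π' p - ind π p' = - ind π' p - ind π' (star π) - ind π' p
= ind π' p - ind π' (star π) = ind π' π` (`-2 = 1` in `ℤ/3`). -/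
def StRec : Prop := ∀ π π' : E, PP π → PP π' → nm π ≠ nm π' → ind π π' = ind π' π

/-- PER (MEDIUM). `q = nm π * nm π1`. `chi π` is periodic modulo `π`, so modulo `nm π = π * star π`
and modulo `q`. Sum over a period. If `nm π = p ≠ p1 = nm π1`: the map
`(a, b) ↦ (a + b ρ, a + b ρ1)` from `(ℤ/q)²` to `ℤ/p × ℤ/p1` is additive and surjective (CRT on
`a`, `b`), so all fibres have the same number of elements and the sum is a multiple of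
`(∑_u φ(u)^e)(∑_v conj φ1(v)^e)`, where `chi π z = φ(ev ρ z)`, `φ(u) = e3(ind π u)` for `u ≠ 0`,
`0` at `0`; the sum of the non-trivial character `φ^e` over `ℤ/p` vanishes (there is a non-cube).
If `nm π = nm π1 = p`, `π ≠ π1`: then `rho π1 ≠ rho π` (if they are equal then `π ∣ π1` by StRho, so
`π1 = π ε` with a unit `ε`, both are `1 mod 3`, so `ε = 1`), and `(a, b) ↦ (a + bρ, a + bρ1)` from
`(ℤ/q)²` to `(ℤ/p)²` is again surjective. -/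
def StPer : Prop := ∀ π π1 : E, PP π → PP π1 → π ≠ π1 → ∀ e : ℕ, e = 1 ∨ e = 2 →
  (∑ a ∈ Finset.range (nm π * nm π1), ∑ b ∈ Finset.range (nm π * nm π1),
    chi π ⟨a, b⟩ ^ e * (starRingEnd ℂ) (chi π1 ⟨a, b⟩ ^ e)) = 0 ∧
  ∀ z z' : E, chi π (z + ((nm π * nm π1 : ℕ) : E) * z') = chi π z ∧
    chi π1 (z + ((nm π * nm π1 : ℕ) : E) * z') = chi π1 z

/-- BOX (MEDIUM). Incomplete sums. `f(a,b) = chi π ⟨a,b⟩^e conj (chi π1 ⟨a,b⟩^e)` has period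
`q = nm π * nm π1` in `a` and in `b` and sum `0` over every `q × q` square of consecutive integers
(StPer). Let `N = 2B + 1 = q s + r`, `r < q`. The box `[-B, B]²` contains `s²` disjoint such squares
(a corner of side `q s`), the remaining `N² - (q s)² = r (N + q s) ≤ q * 2N` points contribute at
most `1` each (`‖f‖ ≤ 1`). -/
def StBox : Prop := ∀ π π1 : E, PP π → PP π1 → π ≠ π1 → ∀ e : ℕ, e = 1 ∨ e = 2 → ∀ B : ℕ,
  ‖∑ z ∈ bx B, chi π z ^ e * (starRingEnd ℂ) (chi π1 z ^ e)‖ ≤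
    2 * (2 * (B : ℝ) + 1) * (nm π * nm π1)

/-- DUA (MEDIUM). Large sieve by duality. Put `S_π = ∑_z c(z) χ_π(z)`, `χ_π = chi π ^ e`, and
`W = ∑_π ‖S_π‖²`. `W = ∑_π conj(S_π) S_π = ∑_z c(z) T(z)`, `T(z) = ∑_π conj(S_π) χ_π(z)`. Cauchy:
`W² ≤ (∑‖c‖²) ∑_z ‖T(z)‖²`, and `∑_{z ∈ bx B} ‖T(z)‖² = ∑_{π,π1} conj(S_π) S_π1
∑_z χ_π(z) conj χ_π1(z) ≤ ∑_{π,π1} ‖S_π‖ ‖S_π1‖ G(π,π1) ≤ ∑_π ‖S_π‖² ∑_π1 G(π,π1)` (by
`xy ≤ (x²+y²)/2` and symmetry), where `G(π,π) ≤ #bx B = (2B+1)²` and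
`G(π,π1) ≤ 2(2B+1)(2X)²` for `π ≠ π1` (StBox). So `∑‖T‖² ≤ Δ W` with
`Δ = (2B+1)² + |P| 2(2B+1)(2X)²`, `W² ≤ Δ W ∑‖c‖²`, divide by `W` (or `W = 0`). -/
def StDua : Prop := ∀ (X B : ℕ) (P : Finset E), (∀ π ∈ P, PP π ∧ nm π ≤ 2 * X) →
  ∀ e : ℕ, e = 1 ∨ e = 2 → ∀ c : E → ℂ,
  ∑ π ∈ P, ‖∑ z ∈ bx B, c z * chi π z ^ e‖ ^ 2 ≤
    ((2 * (B : ℝ) + 1) ^ 2 + P.card * (2 * (2 * (B : ℝ) + 1) * (2 * (X : ℝ)) ^ 2)) *
      ∑ z ∈ bx B, ‖c z‖ ^ 2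

/-- UF (EASY-MEDIUM). The `v i`, `v' i` are prime elements of the domain `E` (StInd). By
`prime_factors_unique` the multisets are equal up to associated elements; associated primary
elements are equal: `v' = v ε`, `nm ε = 1`, `ε` one of the six units `±1, ±ω, ±ω²` (solve
`a² - ab + b² = 1`), and `ε = 1 mod 3`. So the multisets are equal and there is a permutation. -/
def StUF : Prop := ∀ (n : ℕ) (v v' : Fin n → E), (∀ i, PP (v i)) → (∀ i, PP (v' i)) →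
  ∏ i, v i = ∏ i, v' i → ∃ ρ : Equiv.Perm (Fin n), ∀ i, v' i = v (ρ i)

/-- REP (MEDIUM). `v ∈ P^6`: `nm (∏ v i) = ∏ nm (v i) ≤ (2X)^6 = 64 X^6`; for `z = a + bω`:
`nm z ≥ (3/4) a²` and `(3/4) b²`, so `|a|, |b| ≤ (10 X³)`. The inner sum has absolute value at most
the number `n(z)` of `v ∈ P^6` with product `z`, and `∑_z n(z)² ≤ #{(v,v') : ∏ v = ∏ v'} ≤
|P|^6 * 720` (StUF: for given `v` at most `6! = 720` tuples `v'`). -/
def StRep : Prop := ∀ (X : ℕ) (P : Finset E), (∀ π ∈ P, PP π ∧ nm π ≤ 2 * X) →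
  ∀ β : E → ℂ, (∀ z, ‖β z‖ ≤ 1) →
  (∀ v ∈ Fintype.piFinset (fun _ : Fin 6 => P), ∏ i, v i ∈ bx (10 * X ^ 3)) ∧
  ∑ z ∈ bx (10 * X ^ 3), ‖∑ v ∈ (Fintype.piFinset (fun _ : Fin 6 => P)).filter
    (fun v => ∏ i, v i = z), ∏ i, β (v i)‖ ^ 2 ≤ 720 * (P.card : ℝ) ^ 6

/-- BIL (MEDIUM). Hoelder. `S = ∑_π α_π A_π`, `A_π = ∑_{π'} β_π' χ_π(π')`, `χ_π = chi π ^ e`.
`‖S‖ ≤ ∑_π ‖A_π‖`, `(∑_π ‖A_π‖)^12 ≤ |P|^11 ∑_π ‖A_π‖^12` (`inner_le_nnorm_mul_nnorm` or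
`inner...`: Mathlib `inner_mul_le`, `Real.inner_le_Lp_mul_Lq`, simplest: `pow_sum_le`-type lemma
`inner`/`Finset.inner`: `pow_arith_mean_le_arith_mean_pow` / `inner_le`), and `A_π^6 =
∑_{v ∈ P'^6} ∏ β(v i) χ_π(v i) = ∑_{z ∈ bx(10X³)} c(z) χ_π(z)`, `c(z) = ∑_{∏ v = z} ∏ β(v i)`
(`chi π` is multiplicative: StInd, `Prime π`; `Finset.prod_univ_sum`, StRep). So
`∑_π ‖A_π‖^12 = ∑_π ‖A_π^6‖² ≤ Δ ∑‖c‖²` (StDua with `B = 10X³`) `≤ Δ 720 |P'|^6` (StRep). -/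
def StBil : Prop := ∀ (X : ℕ) (P P' : Finset E), (∀ π ∈ P, PP π ∧ nm π ≤ 2 * X) →
  (∀ π ∈ P', PP π ∧ nm π ≤ 2 * X) → ∀ e : ℕ, e = 1 ∨ e = 2 →
  ∀ α β : E → ℂ, (∀ z, ‖α z‖ ≤ 1) → (∀ z, ‖β z‖ ≤ 1) →
  ‖∑ π ∈ P, ∑ π' ∈ P', α π * β π' * chi π π' ^ e‖ ^ 12 ≤
    (P.card : ℝ) ^ 11 * (((2 * ((10 * X ^ 3 : ℕ) : ℝ) + 1) ^ 2 +
      P.card * (2 * (2 * ((10 * X ^ 3 : ℕ) : ℝ) + 1) * (2 * (X : ℝ)) ^ 2)) *
      (720 * (P'.card : ℝ) ^ 6))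

/-- BLT (MEDIUM). For `π ∤ π'`: `e3 (e * ind π π') = chi π π' ^ e.val`. For `π ∣ π'`: `π' = π`
(both primary primes, StUF with `n = 1` or directly), at most `|P|` pairs. So the sum differs from
the sum of StBil by at most `|P|`, and StBil gives, for `|P|, |P'| ≥ X^(19/20)`, `X ≥ 1`:
`(‖S‖/(|P||P'|))^12 ≤ (441 X^6/|P| + 168 X^5) 720/|P'|^6 ≤ 720 * 609 * X^(5.05 - 5.7)`, which tends
to `0`; `|P|/(|P||P'|) = 1/|P'|` tends to `0` too. -/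
def StBlt : Prop := ∀ δ : ℝ, 0 < δ → ∃ X0 : ℕ, ∀ X : ℕ, X0 ≤ X → ∀ P P' : Finset E,
  (∀ π ∈ P, PP π ∧ nm π ≤ 2 * X) → (∀ π ∈ P', PP π ∧ nm π ≤ 2 * X) →
  (X : ℝ) ^ (19 / 20 : ℝ) ≤ P.card → (X : ℝ) ^ (19 / 20 : ℝ) ≤ P'.card →
  ∀ e : ZMod 3, e ≠ 0 → ∀ α β : E → ℂ, (∀ z, ‖α z‖ ≤ 1) → (∀ z, ‖β z‖ ≤ 1) →
  ‖∑ π ∈ P, ∑ π' ∈ P', α π * β π' * e3 (e * ind π π')‖ ≤ δ * (P.card * P'.card)

/-- FMO (MEDIUM-HARD). First moment for a fixed non-constant `h`. With the orthogonality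
`1[v = 0] = 3^{-t} ∑_{y ∈ (ℤ/3)^t} e3(∑_k y_k v_k)` for `v_k = ∑_i c_i c_k (h_i - h_k) sy π i k`:
the number is `3^{-t} ∑_y ∑_π e3(∑_k y_k v_k)`, and `∑_k y_k v_k =
∑_{i<k} c_i c_k (h_i - h_k)(y_k - y_i) ind (π i) (π k)` (`sy` is symmetric, the terms `i = k`
vanish, pair `(i,k)` with `(k,i)`). For the three constant `y` the inner sum is `∏ |P i|`. For
non-constant `y` there are `i0 < k0` with `(y_k0 - y_i0)(h_i0 - h_k0) ≠ 0` (choose `h_i ≠ h_k`; if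
all products vanish then `y_i = y_k`, and every `l` has `h_l ≠ h_i` or `h_l ≠ h_k`, so `y_l` is equal
to it: `y` constant). Fix all components except `i0, k0`: the function
`e3(∑...)` is `α(π_i0) β(π_k0) e3(e ind π_i0 π_k0)`, `e = c_i0 c_k0 (h_i0 - h_k0)(y_k0 - y_i0) ≠ 0`,
`|α| = |β| = 1` (collect the pairs containing `i0` but not `k0` in `α`, all other pairs in `β`), so
StBlt bounds the sum by `δ ∏ |P i|`. Total `≤ 3^{-t}(3 + (3^t - 3) δ) ∏|P i|`. -/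
def StFmo : Prop := ∀ (t : ℕ) (c : Fin t → ℕ), (∀ i, c i = 1 ∨ c i = 2) → ∀ δ : ℝ, 0 < δ →
  ∃ X0 : ℕ, ∀ X : ℕ, X0 ≤ X → ∀ P : Fin t → Finset E, (∀ i, ∀ z ∈ P i, PP z ∧ nm z ≤ 2 * X) →
  (∀ i, (X : ℝ) ^ (19 / 20 : ℝ) ≤ (P i).card) → ∀ h : Fin t → ZMod 3, (∃ i k, h i ≠ h k) →
  (((Fintype.piFinset P).filter (fun π => ∀ k,
    ∑ i, (c i : ZMod 3) * (c k : ZMod 3) * (h i - h k) * sy π i k = 0)).card : ℝ) ≤
    (3 / 3 ^ t + δ) * ∏ i, ((P i).card : ℝ)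

/-- CNH (EASY-MEDIUM). Counting `h`. `h ↦ ∑ (h_i c_i) κ_i` is a linear map `(ℤ/3)^t → (ℤ/3)²` whose
rank `r` is at least `1` (the vector `h = 1` is mapped to `∑ c_i κ_i ≠ 0`) and equal to `2` if two
of the `κ_i` are independent (`c_i ≠ 0` in `ℤ/3`); the kernel has `3^(t-r)` elements, and one of
them, `h = 0`, is constant. -/
def StCnh : Prop := ∀ (t : ℕ) (c : Fin t → ℕ) (κ : Fin t → ZMod 3 × ZMod 3),
  (∀ i, c i = 1 ∨ c i = 2) → ∑ i, (c i : ZMod 3) • κ i ≠ 0 →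
  ((Finset.univ.filter (fun h : Fin t → ZMod 3 => (∃ i k, h i ≠ h k) ∧
    ∑ i, (h i * (c i : ZMod 3)) • κ i = 0)).card + 1) * 3 ≤ 3 ^ t ∧
  ((∃ i j, (κ i).1 * (κ j).2 - (κ i).2 * (κ j).1 ≠ 0) →
    ((Finset.univ.filter (fun h : Fin t → ZMod 3 => (∃ i k, h i ≠ h k) ∧
      ∑ i, (h i * (c i : ZMod 3)) • κ i = 0)).card + 1) * 9 ≤ 3 ^ t)

/-- EQN (MEDIUM). Tuples with two equal norms are rare. For `i ≠ k` and given `π_i` there are at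
most two `z ∈ P k` with `nm z = nm (π_i)`: `z` primary of norm `p` divides `p = π * star π`, `z` is
prime (StInd), so `z ∣ π` or `z ∣ star π`, and associated primary primes are equal (StUF, `n = 1`).
So the number of tuples is at most `∑_{i≠k} 2 ∏_{j≠k} |P j| ≤ 2t² X^(-19/20) ∏ |P j|`. -/
def StEqn : Prop := ∀ (t : ℕ) (δ : ℝ), 0 < δ →
  ∃ X0 : ℕ, ∀ X : ℕ, X0 ≤ X → ∀ P : Fin t → Finset E, (∀ i, ∀ z ∈ P i, PP z) →
  (∀ i, (X : ℝ) ^ (19 / 20 : ℝ) ≤ (P i).card) →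
  (((Fintype.piFinset P).filter (fun π => ∃ i k, i ≠ k ∧ nm (π i) = nm (π k))).card : ℝ) ≤
    δ * ∏ i, ((P i).card : ℝ)

/-- KAP (EASY-MEDIUM). For `z = 1 + 3u`, `z' = 1 + 3u'` in `E`: `z z' = 1 + 3(u + u') mod 9`, so
`kap (z z') = kap z + kap z'` and `9 ∣ z - 1` iff `kap z = 0`; induction over the product. The last
claim: `9 ∣ z - A` gives `(z.re - 1)/3 = (A.re - 1)/3 mod 3` etc. -/
def StKap : Prop := (∀ (t : ℕ) (z : Fin t → E) (e : Fin t → ℕ),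
    (∀ i, (3 : ℤ) ∣ (z i).re - 1 ∧ (3 : ℤ) ∣ (z i).im) →
    ((9 : E) ∣ ∏ i, z i ^ e i - 1 ↔ ∑ i, (e i : ZMod 3) • kap (z i) = 0)) ∧
  ∀ z A : E, (3 : ℤ) ∣ z.re - 1 → (3 : ℤ) ∣ z.im → (9 : E) ∣ z - A → kap z = kap A

end Pool.Agent.Work.MP_59f3ad_nt.Q3
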