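import Mathlib
import Pool.Agent.Work.MP_59f3ad_nt.Q3.StmtsR

/-!
Item Dua of the block Q3: the large sieve by duality.
-/

namespace Pool.Agent.Work.MP_59f3ad_nt.Q3

namespace IDua

open Finset

/-- The duality principle. -/
theorem dual {ι κ : Type*} (I : Finset ι) (Z : Finset κ) (a : ι → κ → ℂ) (c : κ → ℂ) (Δ : ℝ)
    (hΔ : 0 ≤ Δ)
    (h : ∀ i ∈ I, ∑ j ∈ I, ‖∑ z ∈ Z, a i z * (starRingEnd ℂ) (a j z)‖ ≤ Δ) :
    ∑ i ∈ I, ‖∑ z ∈ Z, c z * a i z‖ ^ 2 ≤ Δ * ∑ z ∈ Z, ‖c z‖ ^ 2 := by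
  set S : ι → ℂ := fun i => ∑ z ∈ Z, c z * a i z with hS
  set T : κ → ℂ := fun z => ∑ i ∈ I, (starRingEnd ℂ) (S i) * a i z with hT
  set G : ι → ι → ℂ := fun i j => ∑ z ∈ Z, a i z * (starRingEnd ℂ) (a j z) with hG
  set W : ℝ := ∑ i ∈ I, ‖S i‖ ^ 2 with hW
  have hW0 : 0 ≤ W := sum_nonneg fun i _ => by positivity
  -- the first identity
  have e1 : (W : ℂ) = ∑ z ∈ Z, c z * T z := by
    have h1 : ∀ i ∈ I, ((‖S i‖ ^ 2 : ℝ) : ℂ) = ∑ z ∈ Z, c z * ((starRingEnd ℂ) (S i) * a i z) := by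
      intro i _
      have h2 : ((‖S i‖ ^ 2 : ℝ) : ℂ) = S i * (starRingEnd ℂ) (S i) := by
        rw [Complex.mul_conj, Complex.normSq_eq_norm_sq]
      rw [h2]
      conv_lhs => rw [hS]
      simp only
      rw [sum_mul]
      refine sum_congr rfl fun z _ => ?_
      ring
    rw [hW, Complex.ofReal_sum, sum_congr rfl h1, sum_comm]
    refine sum_congr rfl fun z _ => ?_
    rw [hT]
    simp only
    rw [mul_sum]
  have e2 : W ≤ ∑ z ∈ Z, ‖c z‖ * ‖T z‖ := by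
    have h1 : W = ‖(W : ℂ)‖ := by
      rw [Complex.norm_real, Real.norm_of_nonneg hW0]
    rw [h1, e1]
    refine (norm_sum_le _ _).trans (le_of_eq ?_)
    exact sum_congr rfl fun z _ => norm_mul _ _
  have e3 : W ^ 2 ≤ (∑ z ∈ Z, ‖c z‖ ^ 2) * ∑ z ∈ Z, ‖T z‖ ^ 2 := by
    refine (pow_le_pow_left₀ hW0 e2 2).trans ?_
    exact sum_mul_sq_le_sq_mul_sq Z (fun z => ‖c z‖) (fun z => ‖T z‖)
  -- the second identity
  have e4 : ((∑ z ∈ Z, ‖T z‖ ^ 2 : ℝ) : ℂ) =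
      ∑ i ∈ I, ∑ j ∈ I, (starRingEnd ℂ) (S i) * S j * G i j := by
    have h1 : ∀ z ∈ Z, ((‖T z‖ ^ 2 : ℝ) : ℂ) =
        ∑ i ∈ I, ∑ j ∈ I, (starRingEnd ℂ) (S i) * S j * (a i z * (starRingEnd ℂ) (a j z)) := by
      intro z _
      have h2 : ((‖T z‖ ^ 2 : ℝ) : ℂ) = T z * (starRingEnd ℂ) (T z) := by
        rw [Complex.mul_conj, Complex.normSq_eq_norm_sq]
      rw [h2]
      conv_lhs => rw [hT]
      simp only
      rw [map_sum, sum_mul_sum]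
      refine sum_congr rfl fun i _ => sum_congr rfl fun j _ => ?_
      rw [map_mul, Complex.conj_conj]
      ring
    rw [Complex.ofReal_sum, sum_congr rfl h1, sum_comm]
    refine sum_congr rfl fun i _ => ?_
    rw [sum_comm]
    refine sum_congr rfl fun j _ => ?_
    exact (mul_sum Z _ _).symm
  have hGs : ∀ i j, ‖G i j‖ = ‖G j i‖ := by
    intro i j
    have : G j i = (starRingEnd ℂ) (G i j) := by
      rw [hG]
      simp only
      rw [map_sum]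
      refine sum_congr rfl fun z _ => ?_
      rw [map_mul, Complex.conj_conj]
      ring
    rw [this, RCLike.norm_conj]
  have e5 : ∑ z ∈ Z, ‖T z‖ ^ 2 ≤ Δ * W := by
    have h0 : 0 ≤ ∑ z ∈ Z, ‖T z‖ ^ 2 := sum_nonneg fun z _ => by positivity
    have h1 : ∑ z ∈ Z, ‖T z‖ ^ 2 = ‖((∑ z ∈ Z, ‖T z‖ ^ 2 : ℝ) : ℂ)‖ := by
      rw [Complex.norm_real, Real.norm_of_nonneg h0]
    rw [h1, e4]
    have h2 : ‖∑ i ∈ I, ∑ j ∈ I, (starRingEnd ℂ) (S i) * S j * G i j‖ ≤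
        ∑ i ∈ I, ∑ j ∈ I, (‖S i‖ ^ 2 / 2 * ‖G i j‖ + ‖S j‖ ^ 2 / 2 * ‖G i j‖) := by
      refine (norm_sum_le _ _).trans (sum_le_sum fun i _ => ?_)
      refine (norm_sum_le _ _).trans (sum_le_sum fun j _ => ?_)
      rw [norm_mul, norm_mul, RCLike.norm_conj]
      have h3 : ‖S i‖ * ‖S j‖ ≤ ‖S i‖ ^ 2 / 2 + ‖S j‖ ^ 2 / 2 := by
        nlinarith [sq_nonneg (‖S i‖ - ‖S j‖)]
      calc ‖S i‖ * ‖S j‖ * ‖G i j‖ ≤ (‖S i‖ ^ 2 / 2 + ‖S j‖ ^ 2 / 2) * ‖G i j‖ :=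
            mul_le_mul_of_nonneg_right h3 (norm_nonneg _)
        _ = _ := by ring
    refine h2.trans ?_
    simp only [sum_add_distrib]
    have h4 : ∑ i ∈ I, ∑ j ∈ I, ‖S j‖ ^ 2 / 2 * ‖G i j‖ =
        ∑ i ∈ I, ∑ j ∈ I, ‖S i‖ ^ 2 / 2 * ‖G i j‖ := by
      rw [sum_comm]
      refine sum_congr rfl fun i _ => sum_congr rfl fun j _ => ?_
      rw [hGs]
    rw [h4, ← two_mul, mul_sum]
    rw [hW, mul_sum]
    refine sum_le_sum fun i hi => ?_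
    rw [← mul_sum]
    have h5 := h i hi
    have h6 : 0 ≤ ‖S i‖ ^ 2 := by positivity
    calc 2 * (‖S i‖ ^ 2 / 2 * ∑ j ∈ I, ‖G i j‖) = ‖S i‖ ^ 2 * ∑ j ∈ I, ‖G i j‖ := by ring
      _ ≤ ‖S i‖ ^ 2 * Δ := mul_le_mul_of_nonneg_left h5 h6
      _ = Δ * ‖S i‖ ^ 2 := by ring
  have hC : 0 ≤ ∑ z ∈ Z, ‖c z‖ ^ 2 := sum_nonneg fun z _ => by positivity
  rcases hW0.eq_or_lt with h0 | h0
  · rw [← h0]
    exact mul_nonneg hΔ hC
  · have h7 : W * W ≤ (Δ * ∑ z ∈ Z, ‖c z‖ ^ 2) * W := by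
      calc W * W = W ^ 2 := by ring
        _ ≤ (∑ z ∈ Z, ‖c z‖ ^ 2) * ∑ z ∈ Z, ‖T z‖ ^ 2 := e3
        _ ≤ (∑ z ∈ Z, ‖c z‖ ^ 2) * (Δ * W) := mul_le_mul_of_nonneg_left e5 hC
        _ = _ := by ring
    exact le_of_mul_le_mul_right h7 h0

lemma norm_e3 (j : ZMod 3) : ‖e3 j‖ = 1 := by
  unfold e3
  rw [show 2 * (Real.pi : ℂ) * Complex.I * ((j.val : ℂ) / 3) =
    ((2 * Real.pi * ((j.val : ℝ) / 3) : ℝ) : ℂ) * Complex.I by push_cast; ring]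
  exact Complex.norm_exp_ofReal_mul_I _

lemma norm_chi_le (π z : E) : ‖chi π z‖ ≤ 1 := by
  unfold chi
  split_ifs
  · rw [norm_zero]; exact zero_le_one
  · rw [norm_e3]

lemma card_bx (B : ℕ) : ((bx B).card : ℝ) ≤ (2 * (B : ℝ) + 1) ^ 2 := by
  have h1 : (bx B).card ≤ (2 * B + 1) * (2 * B + 1) := by
    unfold bx
    refine card_image_le.trans (le_of_eq ?_)
    rw [card_product, Int.card_Icc]
    have : ((B : ℤ) + 1 - -(B : ℤ)).toNat = 2 * B + 1 := by omega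
    rw [this]
  calc ((bx B).card : ℝ) ≤ (((2 * B + 1) * (2 * B + 1) : ℕ) : ℝ) := by exact_mod_cast h1
    _ = _ := by push_cast; ring

end IDua

open Finset in
/-- Item Dua. -/
theorem pr_Dua (h1 : StBox) : StDua := by
  classical
  intro X B P hP e he c
  refine IDua.dual P (bx B) (fun π z => chi π z ^ e) c _ (by positivity) ?_
  intro π hπ
  obtain ⟨hπ1, hπ2⟩ := hP π hπ
  have h2 : ∀ π1 ∈ P, ‖∑ z ∈ bx B, chi π z ^ e * (starRingEnd ℂ) (chi π1 z ^ e)‖ ≤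
      (if π1 = π then (2 * (B : ℝ) + 1) ^ 2 else 0) +
        2 * (2 * (B : ℝ) + 1) * (2 * (X : ℝ)) ^ 2 := by
    intro π1 hπ1'
    obtain ⟨hπ3, hπ4⟩ := hP π1 hπ1'
    by_cases h3 : π1 = π
    · rw [if_pos h3]
      have h4 : ‖∑ z ∈ bx B, chi π z ^ e * (starRingEnd ℂ) (chi π1 z ^ e)‖ ≤
          (bx B).card := by
        refine (norm_sum_le _ _).trans ?_
        have h5 : ∀ z ∈ bx B, ‖chi π z ^ e * (starRingEnd ℂ) (chi π1 z ^ e)‖ ≤ 1 := by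
          intro z _
          rw [norm_mul, RCLike.norm_conj, norm_pow, norm_pow]
          exact mul_le_one₀ (pow_le_one₀ (norm_nonneg _) (IDua.norm_chi_le _ _))
            (by positivity) (pow_le_one₀ (norm_nonneg _) (IDua.norm_chi_le _ _))
        refine (sum_le_sum h5).trans (le_of_eq ?_)
        rw [sum_const, nsmul_eq_mul, mul_one]
      have h6 : (0 : ℝ) ≤ 2 * (2 * (B : ℝ) + 1) * (2 * (X : ℝ)) ^ 2 := by positivity
      linarith [IDua.card_bx B]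
    · rw [if_neg h3, zero_add]
      refine (h1 π π1 hπ1 hπ3 (fun h => h3 h.symm) e he B).trans ?_
      have h7 : (nm π : ℝ) ≤ 2 * X := by exact_mod_cast hπ2
      have h8 : (nm π1 : ℝ) ≤ 2 * X := by exact_mod_cast hπ4
      have h9 : (nm π : ℝ) * nm π1 ≤ (2 * (X : ℝ)) ^ 2 := by
        rw [sq]
        exact mul_le_mul h7 h8 (by positivity) (by positivity)
      exact mul_le_mul_of_nonneg_left h9 (by positivity)
  refine (sum_le_sum h2).trans (le_of_eq ?_)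
  rw [sum_add_distrib, sum_ite_eq' P π, if_pos hπ, sum_const, nsmul_eq_mul]

end Pool.Agent.Work.MP_59f3ad_nt.Q3
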