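import Mathlib
import Pool.Agent.Work.MP_59f3ad_nt.Q3.Defs

/-!
Statements of block Q3, part C: inertia elements, the action of `σ` on the Tate-Shafarevich group,
Kummer theory (note 4644, Steps 2 to 7). Every docstring is the complete proof.
`GK L` is the absolute Galois group, `cj hs h = s⁻¹ h s`.
-/

open NumberField IsDedekindDomain

namespace Pool.Agent.Work.MP_59f3ad_nt.Q3

universe u

/-- TAU (MEDIUM-HARD). `Ω = AlgebraicClosure L`, `𝓞 Ω` the ring of all algebraic integers of `Ω`.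
Choose any automorphism `g` of `Ω` extending `σ` (`IsAlgClosure.equivOfEquiv`) and a prime `Q` of
`𝓞 Ω` over `v` (integrality, lying over). `σ` maps `v` to itself (inertia), so `g Q` lies over `v`;
the group `GK L` acts transitively on the primes of `𝓞 Ω` over `v` (Mathlib
`RingTheory/Invariant/Profinite`: `Algebra.IsInvariant.exists_smul_of_under_eq_of_profinite`, for
`A = 𝓞 L`, `B = 𝓞 Ω`, `G = GK L`: invariant elements of `𝓞 Ω` lie in `𝓞 L`), so after composing with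
an element of `GK L`: `g Q = Q`. `g` acts on the residue field `𝓞 Ω/Q`, trivially on `𝓞 L / v`, and
`{h ∈ GK L : h Q = Q}` maps onto the automorphism group of `𝓞 Ω/Q` over `𝓞 L/v`
(`Ideal.Quotient.stabilizerHom_surjective_of_profinite`; or
`IsFractionRing.stabilizerHom_surjective`...). Compose with the inverse of such an `h`: the result
`τ` acts trivially on `𝓞 Ω / Q`. -/
def StTau : Prop := ∀ (L : Type u) [Field L] [NumberField L] (σ : L ≃+* L)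
  (v : HeightOneSpectrum (𝓞 L)), Inert σ v →
  ∃ (τ : AlgebraicClosure L ≃+* AlgebraicClosure L) (Q : Ideal (𝓞 (AlgebraicClosure L))),
    InrQ σ v τ Q

/-- MUR (EASY-MEDIUM). Inertia fixes `p`-power roots of unity, `p ∉ v`. `ζ` and `τ ζ` are integral,
`τ ζ = ξ ζ`, `ξ^(p^n) = 1`, `(ξ - 1) ζ ∈ Q`, `ζ` a unit, so `ξ - 1 ∈ Q`; if `ξ ≠ 1`, a power `ξ1` of
`ξ` is a primitive `p`-th root of unity, `ξ1 - 1 ∈ Q`, and `p = ∏_{0<i<p} (1 - ξ1^i) ∈ Q`, so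
`p ∈ v`, contradiction. Hence the `3`-adic cyclotomic character of `τ` is `1` if `3 ∉ v` (its values
are determined by the action on the roots of unity of order `3^n`, `cyclotomicCharacter.spec`,
or `cyclotomicCharacter.toZModPow`). -/
def StMur : Prop := ∀ (L : Type u) [Field L] [NumberField L] (σ : L ≃+* L)
  (v : HeightOneSpectrum (𝓞 L)) (τ : AlgebraicClosure L ≃+* AlgebraicClosure L)
  (Q : Ideal (𝓞 (AlgebraicClosure L))), InrQ σ v τ Q → (3 : 𝓞 L) ∉ v.asIdeal →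
  (∀ (n : ℕ) (ζ : AlgebraicClosure L), ζ ^ 3 ^ n = 1 → τ ζ = ζ) ∧
  cyclotomicCharacter (AlgebraicClosure L) 3 τ = 1

/-- RTT (EASY-MEDIUM). `b = b1/b2`, `b1, b2 ∈ 𝓞 L` outside `v` (value `1`; the local ring of `v`),
`u1 = u b2` is integral (`u1³ = b1 b2²`) and not in `Q` (`b1 b2² ∉ v`). `τ u1 - u1 ∈ Q` and
`τ u1 = w^j u σ(b2)`, so `b2 τ u1 = w^j u1 σ(b2)`, `σ(b2) - b2 ∈ Q`: modulo `Q`:
`b2 u1 = w^j u1 b2`, so `w^j - 1 ∈ Q`. If `w^j ≠ 1` then `w^j - 1` divides `3` (`(1-w)(1-w²) = 3`),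
so `3 ∈ Q`, `3 ∈ v`, contradiction. -/
def StRtt : Prop := ∀ (L : Type u) [Field L] [NumberField L] (σ : L ≃+* L)
  (v : HeightOneSpectrum (𝓞 L)) (τ : AlgebraicClosure L ≃+* AlgebraicClosure L)
  (Q : Ideal (𝓞 (AlgebraicClosure L))), InrQ σ v τ Q → (3 : 𝓞 L) ∉ v.asIdeal →
  ∀ w : L, w ^ 2 + w + 1 = 0 → ∀ (u : AlgebraicClosure L) (b : L) (j : ℕ),
  u ^ 3 = algebraMap L (AlgebraicClosure L) b → v.valuation L b = 1 →
  τ u = algebraMap L (AlgebraicClosure L) (w ^ j) * u → w ^ j = 1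

/-- FIX (HARD). Inertia acts trivially on extensions unramified at `v`. It suffices: `g` fixes every
finite `K/L` inside `Ω` with `K` unramified over `v` (`maxUnram` is the compositum of such `K`).
Proof 1: let `N` be the Galois closure of `K` over `L` (`normalClosure`): the compositum of the
conjugates of `K`, all unramified over `v`; the inertia group `I` of `Q ∩ 𝓞 N` in `Gal(N/L)`
contains `g|N`. The fixed field `N^I` ... simpler: Proof 2: `K` unramified over `v` at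
`P = Q ∩ 𝓞 K`: the different of `𝓞 K/𝓞 L` is not divisible by `P`; the different is generated by
the elements `f'(y)`, `y ∈ 𝓞 K` integral generators with minimal polynomial `f` over `L`
(or: `P` does not divide the different; choose by the primitive element theorem for the unramified
extension of complete local rings; Mathlib: `differentIdeal`, `dvd_differentIdeal_iff`,
`not_dvd_differentIdeal_iff`, `conductor_mul_differentIdeal`,
`exists_notMem_conductor...`). For such `y` with `f'(y) ∉ P`: if `g y ≠ y` then `g y` is another root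
of `f` and `f'(y) = ∏_{y' ≠ y} (y - y') ∈ Q`, contradiction. Proof 3 (finite Galois theory): for a
finite Galois `N/L` containing `K`, `#I = e(Q ∩ N | v)` (Mathlib `Ideal.card_inertia_eq_ramificationIdxIn`),
the same for `N/K`: `#(I ∩ Gal(N/K)) = e(Q ∩ N | Q ∩ K)`, and `e(Q ∩ K | v) = 1`, so both groups
have the same order, `I ⊆ Gal(N/K)`. -/
def StFix : Prop := ∀ (L : Type u) [Field L] [NumberField L] (S : Set (HeightOneSpectrum (𝓞 L)))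
  (v : HeightOneSpectrum (𝓞 L)), v ∉ S → ∀ (g : GK L) (Q : Ideal (𝓞 (AlgebraicClosure L))),
  InrQ (RingEquiv.refl L) v (g : AlgebraicClosure L ≃+* AlgebraicClosure L) Q →
  g ∈ (maxUnram L S).fixingSubgroup

/-- CUB (EASY). `k = τ³` is in the inertia group of `Q` (`τ³ y - y = (τ³ y - τ² y) + (τ² y - τ y) +
(τ y - y)`), so StFix applies and `φ(k) = 0` by the definition of `Z1S`. -/
def StCub : Prop := ∀ (L : Type u) [Field L] [NumberField L] (σ : L ≃+* L)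
  (v : HeightOneSpectrum (𝓞 L)) (τ : AlgebraicClosure L ≃+* AlgebraicClosure L)
  (Q : Ideal (𝓞 (AlgebraicClosure L))), InrQ σ v τ Q → ∀ k : GK L,
  (∀ y, k y = τ (τ (τ y))) → ∀ (r : ℤ) (S : Set (HeightOneSpectrum (𝓞 L))), v ∉ S →
  ∀ φ ∈ Z1S L 3 r S, φ k = 0

/-- SMU (MEDIUM). `L_S` is stable under `s` if `S` is stable under `σ`. For a finite `K/L` in `Ω`
unramified outside `S` the field `s K` contains `s L = L`, is finite over `L`, and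
`s : 𝓞 K ≅ 𝓞 (sK)` is a ring isomorphism over `σ : 𝓞 L ≅ 𝓞 L`; a prime `P'` of `𝓞 (sK)` over
`v' ∉ S` corresponds to the prime `s⁻¹ P'` over `v = σ⁻¹ v' ∉ S`, and being unramified is preserved
by the pair of isomorphisms (`Algebra.IsUnramifiedIn`/`IsUnramifiedAt`: transport of
`FormallyUnramified` along ring isomorphisms, or the ramification index criterion
`Algebra.isUnramifiedAt_iff_of_isDedekindDomain`). `s` of a compositum is the compositum. The same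
for `s⁻¹`, which extends `σ⁻¹`. -/
def StSmu : Prop := ∀ (L : Type u) [Field L] [NumberField L] (σ : L ≃+* L)
  (s : AlgebraicClosure L ≃+* AlgebraicClosure L), Ext σ s →
  ∀ S : Set (HeightOneSpectrum (𝓞 L)),
  (∀ v v' : HeightOneSpectrum (𝓞 L), (∀ y y' : 𝓞 L, (y' : L) = σ (y : L) →
    (y ∈ v.asIdeal ↔ y' ∈ v'.asIdeal)) → (v ∈ S ↔ v' ∈ S)) →
  ∀ y : AlgebraicClosure L, y ∈ maxUnram L S ↔ s y ∈ maxUnram L S

/-- SLO (MEDIUM-HARD). Local triviality is stable. `C = AlgebraicClosure (v.adicCompletion L)`.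
`σ` is continuous for `v` (`v(σ y) = v(y)`), so it extends to an automorphism `σ_v` of the field
`L_v = v.adicCompletion L` (`UniformSpace.Completion.mapRingEquiv`-type; or by extending
`L → L_v`, `y ↦ σ y` to the completion, twice), and `σ_v` extends to an automorphism `θ` of `C`
(`IsAlgClosure.equivOfEquiv`). Given an `L`-embedding `ι : Ω → C`, the map `ι' = θ⁻¹ ∘ ι ∘ s` is
`L`-linear: for `y ∈ L`: `θ⁻¹(ι(σ y)) = θ⁻¹(σ_v y) = y`. By hypothesis there is `c` for `ι'`. Let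
`ι ∘ h = g ∘ ι`, `g ∈ GK L_v`. Then `ι' ∘ (s⁻¹ h s) = θ⁻¹ ι h s = θ⁻¹ g ι s = (θ⁻¹ g θ) ∘ ι'` and
`θ⁻¹ g θ ∈ GK L_v`. So `φ(s⁻¹ h s) = (twist (s⁻¹ h s) - 1) c = (twist h - 1) c` (the cyclotomic
character of `s⁻¹ h s` is that of `h`: the target is commutative). -/
def StSlo : Prop := ∀ (L : Type u) [Field L] [NumberField L] (σ : L ≃+* L)
  (s : AlgebraicClosure L ≃+* AlgebraicClosure L) (hs : Ext σ s) (v : HeightOneSpectrum (𝓞 L)),
  (∀ y y' : 𝓞 L, (y' : L) = σ (y : L) → (y ∈ v.asIdeal ↔ y' ∈ v.asIdeal)) →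
  ∀ (r : ℤ) (φ : GK L → ℤ_[3]), LocTriv L 3 r (v.adicCompletion L) φ →
  LocTriv L 3 r (v.adicCompletion L) (fun h => φ (cj hs h))

/-- INF (MEDIUM). `L` contains a primitive cube root of unity, so every infinite place `v` is complex
and `v.Completion ≅ ℂ` (`InfinitePlace.Completion.ringEquivComplexOfIsComplex` or similar) is
algebraically closed. So `GK v.Completion` is trivial: for `ι ∘ h = g ∘ ι`, `g = 1`, `h = 1`
(`ι` injective), `φ h = 0`. -/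
def StInf : Prop := ∀ (L : Type u) [Field L] [NumberField L] (w : L), w ^ 2 + w + 1 = 0 →
  ∀ (r : ℤ) (φ : GK L → ℤ_[3]), φ 1 = 0 → ∀ v : InfinitePlace L, LocTriv L 3 r v.Completion φ

/-- CYL (EASY). `twist L 3 r h = 1 mod 3` for all `h` because `h` fixes the primitive cube roots of
unity, so `χ(h) = 1 mod 3` (landed: `cyc` and roots of unity, `Tw` folder; Mathlib
`cyclotomicCharacter.spec`). Landed `exists_cyc_ne_one L 3 v hv ι` gives `g, h` with `ι h = g ι` and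
`cyc L 3 h ≠ 1`; then `χ(h)^r ≠ 1` for `r ≠ 0`, as `1 + 3ℤ_3` is torsion-free (landed
`Tw.StTf`, `pr_Tf`). -/
def StCyl : Prop := ∀ (L : Type u) [Field L] [NumberField L] (w : L), w ^ 2 + w + 1 = 0 →
  ∀ r : ℤ, (∀ h : GK L, D3 (twist L 3 r h - 1)) ∧ (r ≠ 0 → ∀ v ∈ S3 L,
    ∀ ι : AlgebraicClosure L →ₐ[L] AlgebraicClosure (v.adicCompletion L),
    ∃ (g : GK (v.adicCompletion L)) (h : GK L), (∀ x, ι (h x) = g (ι x)) ∧ twist L 3 r h ≠ 1)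

/-- TST (EASY-MEDIUM, from StSmu, StSlo, StInf). `T φ = φ ∘ cj` is continuous (conjugation by `s` is
continuous on `GK L`), a cocycle (`twist (cj h) = twist h`), zero on `Gal(Ω/L_S)` by StSmu (`S3 L` is
stable under `σ`: `σ 3 = 3`), locally trivial at the unique place `v` above `3` (`σ v` lies above
`3`, so it is `v`; StSlo) and at the infinite places (StInf). -/
def StTst : Prop := ∀ (L : Type u) [Field L] [NumberField L] (w : L), w ^ 2 + w + 1 = 0 →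
  (∀ v v' : HeightOneSpectrum (𝓞 L), v ∈ S3 L → v' ∈ S3 L → v = v') →
  ∀ (σ : L ≃+* L) (s : AlgebraicClosure L ≃+* AlgebraicClosure L) (hs : Ext σ s) (r : ℤ),
  (∀ h : GK L, twist L 3 r (cj hs h) = twist L 3 r h) ∧
  ∀ φ ∈ ShaZ L 3 r (S3 L), (fun h => φ (cj hs h)) ∈ ShaZ L 3 r (S3 L)

/-- DIV (MEDIUM, from StCyl, StInf). Step 4(b). If `φ = 0` take `ψ = 0`, `y = 0`. Let `φ ≠ 0`, `v` the
place above `3` (`exists_prime_above`), `ι` an embedding; `φ(h) = (twist h - 1) y` for `h` in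
`D_ι = {h : ∃ g ∈ GK L_v, ι h = g ι}`. `ψ(g) := (φ(g) - (twist g - 1) y)/3 ∈ ℤ_3` (StCyl). It is a
continuous cocycle. For `g ∈ N = Gal(Ω/L_S)`: `φ(g h) = φ(g) + twist g φ(h) = twist g φ(h)` and
`g h = h (h⁻¹ g h)`, `h⁻¹ g h ∈ N` (landed `Tw.StNrm`, `pr_Nrm`), `φ(g h) = φ(h) + twist h * 0`, so
`(twist g - 1) φ(h) = 0` for all `h`, `twist g = 1`; so `ψ = 0` on `N`. `ψ = 0` on `D_ι`. Another
embedding `ι'` of `Ω` (place `v`): the images of `ι`, `ι'` are both the algebraic closure of `L` in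
`C`, so `ι' = ι ∘ a`, `a ∈ GK L`; for `ι' h = g ι'`: `ι (a h a⁻¹) = g ι`, so `ψ(a h a⁻¹) = 0`, and
`ψ(a h a⁻¹) = ψ(a) + twist a ψ(h) - twist h ψ(a)` (cocycle), so
`ψ(h) = (twist h - 1) (twist a)⁻¹ ψ(a)`. Infinite places: StInf. -/
def StDiv : Prop := ∀ (L : Type u) [Field L] [NumberField L] (w : L), w ^ 2 + w + 1 = 0 →
  (∀ v v' : HeightOneSpectrum (𝓞 L), v ∈ S3 L → v' ∈ S3 L → v = v') →
  ∀ r : ℤ, ∀ φ ∈ ShaZ L 3 r (S3 L), (∀ g, D3 (φ g)) →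
  ∃ ψ ∈ ShaZ L 3 r (S3 L), ∃ y : ℤ_[3], ∀ g, φ g = 3 * ψ g + (twist L 3 r g - 1) * y

/-- TOR (EASY, from StCyl). Step 4(a). At the place `v` above `3` and an embedding `ι`:
`φ(h) = (twist h - 1) c` on `D_ι`, so `(twist h - 1)(3 c - y) = 0`, and some `h ∈ D_ι` has
`twist h ≠ 1` (StCyl), so `y = 3 c`. -/
def StTor : Prop := ∀ (L : Type u) [Field L] [NumberField L] (w : L), w ^ 2 + w + 1 = 0 →
  ∀ r : ℤ, r ≠ 0 → ∀ φ ∈ ShaZ L 3 r (S3 L), ∀ y : ℤ_[3],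
  (∀ g, 3 * φ g = (twist L 3 r g - 1) * y) → D3 y

/-- KUM (MEDIUM, from the landed `Tw.StKum`, `pr_Kum` with `m = 1`, `p = 3`, `ζ` the image of `w`).
`φ` satisfies `KF L 3 1 (S3 L)`: `twist g = cyc g = 1 mod 3` (StCyl), `φ = (twist h - 1) c = 0 mod 3`
on decomposition groups. `zpw 3 1 ζ a` is `ζ` to the power `a mod 3`. The local cube root `η` of
`α` in `L_v` is approximated by elements `l ∈ L` (density of `L` in `v.adicCompletion L`), and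
`α/l³ - 1 = (η/l)³ - 1` is small: this is `LCub`. -/
def StKmm : Prop := ∀ (L : Type u) [Field L] [NumberField L] (w : L), w ^ 2 + w + 1 = 0 →
  ∀ r : ℤ, ∀ φ ∈ ShaZ L 3 r (S3 L), ∃ (β : AlgebraicClosure L) (α : L), β ≠ 0 ∧ α ≠ 0 ∧
    (∀ g : GK L, g β = algebraMap L (AlgebraicClosure L) (w ^ (PadicInt.toZMod (φ g)).val) * β) ∧
    algebraMap L (AlgebraicClosure L) α = β ^ 3 ∧ (∀ v, Cub v α) ∧ ∀ v ∈ S3 L, LCub v α

/-- GKK (MEDIUM). Pure group theory, Step 6. `u = twist L 3 r`, `χ(g) = 1` because `g = s⁻¹ τ` as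
automorphisms of `Ω`. For all `h ∈ GK L`: `ψ(g⁻¹ h g) = ψ(g⁻¹) + ψ(h) + u(h) ψ(g)` (as `u(g) = 1`)
`= ψ(h) - (1 - u(h)) ψ(g)`, `ψ(g⁻¹) = -ψ(g)`. `cj hτ h = τ⁻¹ h τ = g⁻¹ (cj hs h) g`, so
`ψ(cj hτ h) = ψ(cj hs h) - (1 - u(h)) ψ(g) = ψ(h) - (1 - u(h)) ψ(g)` (`u(cj hs h) = u(h)`). Three
times: `ψ(cj cj cj h) = ψ(h) - 3 (1 - u(h)) ψ(g)`, while `cj cj cj h = k⁻¹ h k`,
`ψ(k⁻¹ h k) = ψ(h) - (1 - u(h)) ψ(k) = ψ(h)` (`χ(k) = χ(τ)³ = 1`). So `3 (1 - u(h)) ψ(g) = 0`;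
take `h` with `u(h) ≠ 1`. -/
def StGkk : Prop := ∀ (L : Type u) [Field L] [NumberField L] (σ : L ≃+* L)
  (s τ : AlgebraicClosure L ≃+* AlgebraicClosure L) (hs : Ext σ s), Ext σ τ →
  cyclotomicCharacter (AlgebraicClosure L) 3 s = 1 →
  cyclotomicCharacter (AlgebraicClosure L) 3 τ = 1 →
  ∀ g k : GK L, (∀ y, τ y = s (g y)) → (∀ y, k y = τ (τ (τ y))) →
  ∀ (r : ℤ) (ψ : GK L → ℤ_[3]), ψ ∈ Z1 L 3 r → (∀ h, ψ (cj hs h) = ψ h) → ψ k = 0 →
  (∃ h : GK L, twist L 3 r h ≠ 1) → ψ g = 0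

/-- VSG (EASY-MEDIUM). `v' = σ⁻¹(v)`: the prime `{y : σ y ∈ v}`; `v(σ y) = v'(y)` for all `y ∈ L`
(transport of the valuation by an automorphism of `𝓞 L`). If `3 ∈ v` then `3 ∈ v'`. -/
def StVsg : Prop := ∀ (L : Type u) [Field L] [NumberField L] (σ : L ≃+* L)
  (v : HeightOneSpectrum (𝓞 L)), ∃ v' : HeightOneSpectrum (𝓞 L),
  (∀ y : L, v.valuation L (σ y) = v'.valuation L y) ∧ (v ∈ S3 L → v' ∈ S3 L)

/-- CHN (MEDIUM). Step 7, abstract. Write `∂y (g) = (tw g - 1) y`, `N φ = φ + Tφ + T²φ`.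
(i) If `ψ ∈ A`, `Tψ = ψ`, then `ψ` is a coboundary: `ψ = 0 mod 3` (hinv), `ψ = 3ψ1 + ∂y1`, `ψ1 ∈ A`
(hdiv), `3(Tψ1 - ψ1) = 0`, so `Tψ1 = ψ1`; iterate: `ψ = 3^n ψ_n + ∂(y1 + 3 y2 + ...)`, and by
compactness (landed `exists_coboundary_of_forall_mod`) `ψ = ∂y`.
(ii) If every `φ ∈ A` is `0 mod 3` then in the same way every `φ ∈ A` is a coboundary, against the
hypothesis. So there is `φ ∈ A`, `φ ≠ 0 mod 3`. `N φ ∈ A` is `T`-invariant (`T³ = 1`), so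
`N φ = ∂y` by (i).
(iii) If `Tφ - φ ≠ 0 mod 3`: `θ = φ`: `T²φ - 2Tφ + φ = Nφ - 3Tφ = ∂y - 3Tφ = 0 mod 3` (`tw = 1 mod 3`).
(iv) Otherwise `Tφ - φ = 3ψ + ∂z`, `ψ ∈ A` (hdiv for `Tφ - φ ∈ A`). `(T-1)²φ = 3(T-1)ψ` (`T∂z = ∂z`) and
`= ∂y - 3Tφ`, so `3((T-1)ψ + Tφ) = ∂y`; by htor `y = 3y'`, `(T-1)ψ + Tφ = ∂y' = 0 mod 3`. Let
`θ = -T²ψ`. `(T-1)θ = -ψ + T²ψ = T²((ψ - Tψ)) = T²(Tφ - ∂y') = φ - ∂y' = φ mod 3`, not `0 mod 3`, and
`(T-1)²θ = (T-1)φ = 0 mod 3` (`T` preserves `0 mod 3`). -/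
def StChn : Prop := ∀ (G : Type u) (tw : G → ℤ_[3]) (κ : G → G)
  (A : AddSubgroup (G → ℤ_[3])), (∀ g, D3 (tw g - 1)) → (∀ g, tw (κ g) = tw g) →
  (∀ φ ∈ A, (fun g => φ (κ g)) ∈ A) → (∀ φ ∈ A, ∀ g, φ (κ (κ (κ g))) = φ g) →
  (∀ φ ∈ A, (∀ g, D3 (φ g)) → ∃ ψ ∈ A, ∃ y : ℤ_[3], ∀ g, φ g = 3 * ψ g + (tw g - 1) * y) →
  (∀ φ ∈ A, ∀ y : ℤ_[3], (∀ g, 3 * φ g = (tw g - 1) * y) → D3 y) →
  (∀ φ ∈ A, (∀ g, φ (κ g) = φ g) → ∀ g, D3 (φ g)) →
  (∃ φ ∈ A, ¬ ∃ y : ℤ_[3], ∀ g, φ g = (tw g - 1) * y) →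
  ∃ θ ∈ A, (∃ g, ¬ D3 (θ (κ g) - θ g)) ∧ ∀ g, D3 (θ (κ (κ g)) - 2 * θ (κ g) + θ g)

/-- INV (MEDIUM-HARD, from StKmm, StH90, StGkk, StCub, StMur, StRtt, StUnr, StFac, StThr, StCyl, all
below as hypotheses of your theorem). Step 6. `s = τ i0`. StKmm for `ψ`: `β, α`. For `h ∈ GK L`:
`h (s β) = s ((cj h) β) = s (w^(ψ h) β) = w^(ψ h) s β` (`s w = w`, exponents modulo `3`), so
`c := s β/β` is fixed by `GK L`, `c ∈ L`. `c (σ c)(σ² c) = s³β/β = w^(ψ k) = 1` (`k = s³`, StCub,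
`v i0 ∉ S3 L` by `Ram.n3`). StH90: `d ≠ 0`, `σ d = c d`. `A = β/d`, `s A = A`, `A³ = α/d³` is fixed by
`σ`, so `A³ = a ∈ F^*`. For every `i`: `g_i := s⁻¹ τ_i ∈ GK L`, `ψ(g_i) = 0` (StGkk with StMur,
StCub, StCyl), so `g_i β = β`, `g_i A = A`, `τ_i A = s A = A`. `Cub v a` for all `v`
(`v(a) = v(α)/v(d)³`). So by StUnr `Cub q a` for all `q` not containing `3`, `ev w M`, and StFac
gives `a = w^i (1-w)^j ev (∏ π^e) g³`. For every `k`: `n = q_k(a)` (integer) `= e_k + 3 q_k(g)`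
(`q_k` the prime of `Ram`; the other factors are `q_k`-units), `u = A^{c_k} x^{-n}` has
`u³ = a^{c_k} M^{-n} =: b`, `v_k(b) = 1` (value: `3 c_k n - 3 n c_k = 0`, Ram), and
`τ_k u = w^{-n} u`, so `w^{-n} = 1` by StRtt, `3 ∣ n`, `3 ∣ e_k`, `e_k = 0`. So
`a = w^i (1-w)^j g³`, `LCub v a` at the place `v` above `3` (from `α`), and StThr with `N = 1` gives
`i = j = 0`: `a = g³`, `β³ = (d g)³`, `β = w^l d g ∈ L`, so every `h ∈ GK L` fixes `β`: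
`w^(ψ h) = 1`, `D3 (ψ h)`. -/
def StInv : Prop := ∀ (F L : Type u) [Field F] [NumberField F] [Field L] [NumberField L]
  [Algebra F L] (w : 𝓞 F) (x : 𝓞 L) (σ : L ≃ₐ[F] L) (M : E), Cfg F L w x σ M →
  (3 : E) ∣ M - 1 → ¬ (9 : E) ∣ M - 1 →
  ∀ (t : ℕ) (π : Fin t → E) (c : Fin t → ℕ), Prd t π c M →
  ∀ (q : Fin t → HeightOneSpectrum (𝓞 F)) (v : Fin t → HeightOneSpectrum (𝓞 L)),
  (∀ i, Ram F L w x σ (π i) (c i) (q i) (v i)) →
  ∀ (τ : Fin t → (AlgebraicClosure L ≃+* AlgebraicClosure L))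
    (Q : Fin t → Ideal (𝓞 (AlgebraicClosure L))),
  (∀ i, InrQ (σ : L ≃+* L) (v i) (τ i) (Q i)) → ∀ (i0 : Fin t) (hs : Ext (σ : L ≃+* L) (τ i0))
    (r : ℤ), r ≠ 0 → ∀ ψ ∈ ShaZ L 3 r (S3 L), (∀ h, ψ (cj hs h) = ψ h) → ∀ h, D3 (ψ h)

/-- NRM (MEDIUM-HARD, from StKmm, StH90, StVsg). Step 7, field theory. StKmm for `θ`: `β, α`,
`h β = w^(θ h) β`; `h (s β) = w^(θ(cj h)) s β` (as in StInv). `b = s β/β`: `h b = w^(θ(cj h) - θ h) b`,
not in `L` because some exponent is not `0 mod 3`. `c = s b/b`: exponent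
`θ(cj cj h) - 2θ(cj h) + θ h = 0 mod 3`, so `c ∈ L`. `s³ β = k β = w^(θ k) β = β`, so
`b (s b)(s² b) = 1` and `c (σ c)(σ² c) = s³ b/b = 1`. StH90: `σ d = c d`, `d ≠ 0`. `A = b/d`,
`s A = A`, `A ∉ L`. `A³ = b³/d³ = σ(α)/(α d³) ∈ L` is fixed by `σ`: `= a ∈ F^*`. `a` is not a cube in
`L` (else `A = w^j l ∈ L`). `a = A³ = A (sA)(s²A) = b (sb)(s²b)/(d σd σ²d) = δ (σ δ)(σ² δ)` with
`δ = d⁻¹`. `Cub v a`: `v(a) = v(σ α)/(v(α) v(d)³)` and `Cub v (σ α)` by StVsg. `LCub v a` for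
`v ∈ S3 L`: `α = l³(1+small)` at `v` and, by StVsg and the uniqueness of the place above `3`
(hypothesis), `σ α = (σ l)³ (1 + small)` at `v`; quotient (`v(y-1), v(z-1)` small give `v(y/z - 1)`
small). -/
def StNrr : Prop := ∀ (F L : Type u) [Field F] [NumberField F] [Field L] [NumberField L]
  [Algebra F L] (w : 𝓞 F) (x : 𝓞 L) (σ : L ≃ₐ[F] L) (M : E), Cfg F L w x σ M →
  (∀ v v' : HeightOneSpectrum (𝓞 L), v ∈ S3 L → v' ∈ S3 L → v = v') →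
  ∀ (s : AlgebraicClosure L ≃+* AlgebraicClosure L) (hs : Ext (σ : L ≃+* L) s) (k : GK L),
  (∀ y, k y = s (s (s y))) → ∀ r : ℤ, ∀ θ ∈ ShaZ L 3 r (S3 L), θ k = 0 →
  (∃ g, ¬ D3 (θ (cj hs g) - θ g)) → (∀ g, D3 (θ (cj hs (cj hs g)) - 2 * θ (cj hs g) + θ g)) →
  ∃ (a : F) (δ : L), a ≠ 0 ∧ δ ≠ 0 ∧ δ * σ δ * σ (σ δ) = algebraMap F L a ∧
    (∀ l : L, l ^ 3 ≠ algebraMap F L a) ∧ (∀ v, Cub v (algebraMap F L a)) ∧
    ∀ v ∈ S3 L, LCub v (algebraMap F L a)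

end Pool.Agent.Work.MP_59f3ad_nt.Q3
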