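import Mathlib
import Pool.Agent.Work.MP_59f3ad_nt.Q3.StmtsC

/-!
Block Q3, item Tau: an automorphism of the algebraic closure in the inertia group of a prime.
-/

set_option autoImplicit false

open NumberField IsDedekindDomain
open scoped Pointwise

namespace Pool.Agent.Work.MP_59f3ad_nt.Q3

universe u

namespace ITau

variable (L : Type u) [Field L] [NumberField L]

theorem inv : Algebra.IsInvariant (𝓞 L) (𝓞 (AlgebraicClosure L)) (GK L) := by
  refine ⟨fun b hb => ?_⟩
  have h1 : ∀ g : GK L, g (b : AlgebraicClosure L) = b := by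
    intro g
    exact congrArg (fun z : 𝓞 (AlgebraicClosure L) => (z : AlgebraicClosure L)) (hb g)
  obtain ⟨y, hy⟩ := (InfiniteGalois.mem_range_algebraMap_iff_fixed (b : AlgebraicClosure L)).2 h1
  have hy2 : IsIntegral ℤ y := by
    have h2 : IsIntegral ℤ (algebraMap L (AlgebraicClosure L) y) := by
      rw [hy]
      exact b.isIntegral_coe
    exact (isIntegral_algebraMap_iff (algebraMap L (AlgebraicClosure L)).injective).1 h2
  refine ⟨⟨y, hy2⟩, ?_⟩
  apply RingOfIntegers.ext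
  exact hy

omit [NumberField L] in
theorem comm : SMulCommClass (GK L) (𝓞 L) (𝓞 (AlgebraicClosure L)) := by
  refine ⟨fun g a b => ?_⟩
  rw [Algebra.smul_def, Algebra.smul_def, smul_mul']
  congr 1
  apply RingOfIntegers.ext
  exact g.commutes (a : L)

omit [NumberField L] in
theorem cont [TopologicalSpace (𝓞 (AlgebraicClosure L))]
    [DiscreteTopology (𝓞 (AlgebraicClosure L))] :
    ContinuousSMul (GK L) (𝓞 (AlgebraicClosure L)) := by
  rw [continuousSMul_iff_stabilizer_isOpen]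
  intro x
  have h := stabilizer_isOpen_of_isIntegral (K := L) (x : AlgebraicClosure L)
  convert h using 1
  ext g
  constructor
  · intro hg
    exact congrArg (fun z : 𝓞 (AlgebraicClosure L) => (z : AlgebraicClosure L)) hg
  · intro hg
    exact RingOfIntegers.ext hg

omit [NumberField L] in
theorem exists_over (v : HeightOneSpectrum (𝓞 L)) : ∃ Q : Ideal (𝓞 (AlgebraicClosure L)),
    Q.IsPrime ∧ Q.comap (algebraMap (𝓞 L) (𝓞 (AlgebraicClosure L))) = v.asIdeal := by
  have hi : Algebra.IsIntegral (𝓞 L) (𝓞 (AlgebraicClosure L)) := by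
    have : Algebra.IsIntegral ℤ (𝓞 (AlgebraicClosure L)) := ⟨fun b => RingOfIntegers.isIntegral b⟩
    exact Algebra.IsIntegral.tower_top ℤ
  have := v.isPrime
  obtain ⟨Q, -, h1, h2⟩ := Ideal.exists_ideal_over_prime_of_isIntegral v.asIdeal
    (⊥ : Ideal (𝓞 (AlgebraicClosure L))) (by
      intro x hx
      rw [Ideal.mem_comap, Ideal.mem_bot] at hx
      have h3 : (algebraMap L (AlgebraicClosure L)) (x : L) = 0 :=
        congrArg (fun z : 𝓞 (AlgebraicClosure L) => (z : AlgebraicClosure L)) hx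
      rw [map_eq_zero] at h3
      have h4 : x = 0 := RingOfIntegers.ext h3
      rw [h4]
      exact Ideal.zero_mem _)
  exact ⟨Q, h1, h2⟩

end ITau

theorem pr_Tau : StTau.{u} := by
  intro L _ _ σ v hin
  have := ITau.inv L
  have := ITau.comm L
  let _ : TopologicalSpace (𝓞 (AlgebraicClosure L)) := ⊥
  have : DiscreteTopology (𝓞 (AlgebraicClosure L)) := ⟨rfl⟩
  have := ITau.cont L
  obtain ⟨Q, hQ, hco⟩ := ITau.exists_over L v
  have := hQ
  have hlies : Q.LiesOver v.asIdeal := ⟨hco.symm⟩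
  let g : AlgebraicClosure L ≃+* AlgebraicClosure L :=
    IsAlgClosure.equivOfEquiv (AlgebraicClosure L) (AlgebraicClosure L) σ
  have hg : ∀ y : L, g (algebraMap L _ y) = algebraMap L _ (σ y) :=
    fun y => IsAlgClosure.equivOfEquiv_algebraMap _ _ σ y
  let gO : 𝓞 (AlgebraicClosure L) ≃+* 𝓞 (AlgebraicClosure L) := RingOfIntegers.mapRingEquiv g
  let σO : 𝓞 L ≃+* 𝓞 L := RingOfIntegers.mapRingEquiv σ
  have hσ : ∀ a : 𝓞 L, σO a - a ∈ v.asIdeal := fun a => hin a (σO a) rfl
  have hgσ : ∀ a : 𝓞 L, gO (algebraMap (𝓞 L) (𝓞 (AlgebraicClosure L)) a) =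
      algebraMap (𝓞 L) (𝓞 (AlgebraicClosure L)) (σO a) :=
    fun a => RingOfIntegers.ext (hg (a : L))
  have hmem : ∀ a : 𝓞 L, algebraMap (𝓞 L) (𝓞 (AlgebraicClosure L)) a ∈ Q ↔ a ∈ v.asIdeal := by
    intro a
    rw [← hco, Ideal.mem_comap]
  have hQ1 : (Q.comap gO).IsPrime := Ideal.comap_isPrime gO Q
  obtain ⟨h, hh⟩ := Algebra.IsInvariant.exists_smul_of_under_eq_of_profinite (A := 𝓞 L)
    (G := GK L) (Q.comap gO) Q (by
      ext a
      show gO (algebraMap (𝓞 L) (𝓞 (AlgebraicClosure L)) a) ∈ Q ↔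
        algebraMap (𝓞 L) (𝓞 (AlgebraicClosure L)) a ∈ Q
      rw [hgσ, hmem, hmem]
      constructor
      · intro h3
        have := v.asIdeal.sub_mem h3 (hσ a)
        rwa [sub_sub_cancel] at this
      · intro h3
        have := v.asIdeal.add_mem (hσ a) h3
        rwa [sub_add_cancel] at this)
  -- the automorphism which maps `Q` to itself
  let g' : AlgebraicClosure L ≃+* AlgebraicClosure L :=
    (h⁻¹ : GK L).toRingEquiv.trans g
  have hg' : ∀ y : L, g' (algebraMap L _ y) = algebraMap L _ (σ y) := by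
    intro y
    show g ((h⁻¹ : GK L) (algebraMap L _ y)) = _
    rw [AlgEquiv.commutes, hg]
  let gO' : 𝓞 (AlgebraicClosure L) ≃+* 𝓞 (AlgebraicClosure L) := RingOfIntegers.mapRingEquiv g'
  have hgσ' : ∀ a : 𝓞 L, gO' (algebraMap (𝓞 L) (𝓞 (AlgebraicClosure L)) a) =
      algebraMap (𝓞 L) (𝓞 (AlgebraicClosure L)) (σO a) :=
    fun a => RingOfIntegers.ext (hg' (a : L))
  have hst : ∀ y : 𝓞 (AlgebraicClosure L), y ∈ Q ↔ gO' y ∈ Q := by
    intro y
    have h1 : y ∈ Q ↔ y ∈ h • (Q.comap gO) := by rw [← hh]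
    rw [h1, Ideal.mem_pointwise_smul_iff_inv_smul_mem]
    exact Iff.rfl
  have hmap : Q = Q.map gO' := by
    rw [← Ideal.comap_symm]
    ext y
    rw [Ideal.mem_comap]
    have h1 := hst (gO'.symm y)
    rw [RingEquiv.apply_symm_apply] at h1
    exact h1.symm
  let ρ : (𝓞 (AlgebraicClosure L) ⧸ Q) ≃ₐ[𝓞 L ⧸ v.asIdeal] (𝓞 (AlgebraicClosure L) ⧸ Q) :=
    { Ideal.quotientEquiv Q Q gO' hmap with
      commutes' := by
        intro x
        obtain ⟨a, rfl⟩ := Ideal.Quotient.mk_surjective x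
        show Ideal.Quotient.mk Q (gO' (algebraMap (𝓞 L) (𝓞 (AlgebraicClosure L)) a)) =
          Ideal.Quotient.mk Q (algebraMap (𝓞 L) (𝓞 (AlgebraicClosure L)) a)
        rw [hgσ', Ideal.Quotient.eq, ← map_sub, hmem]
        exact hσ a }
  obtain ⟨k, hk⟩ := Ideal.Quotient.stabilizerHom_surjective_of_profinite (G := GK L)
    v.asIdeal Q ρ
  have hk2 : ∀ y : 𝓞 (AlgebraicClosure L), gO' y - (k : GK L) • y ∈ Q := by
    intro y
    have h1 := congrArg (fun f => f (Ideal.Quotient.mk Q y)) hk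
    exact Ideal.Quotient.eq.1 h1.symm
  refine ⟨((k : GK L)⁻¹).toRingEquiv.trans g', Q, ?_, hQ, hco, ?_⟩
  · intro y
    show g' (((k : GK L)⁻¹ : GK L) (algebraMap L _ y)) = _
    rw [AlgEquiv.commutes, hg']
  · intro y y' hy
    have h1 := hk2 (((k : GK L)⁻¹ : GK L) • y)
    rw [smul_inv_smul] at h1
    have h2 : y' = gO' (((k : GK L)⁻¹ : GK L) • y) := RingOfIntegers.ext hy
    rw [h2]
    exact h1

end Pool.Agent.Work.MP_59f3ad_nt.Q3
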