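import Mathlib
import Pool.Agent.Work.MP_59f3ad_nt.Q3.StmtsC

/-!
Block Q3, item Fix: inertia acts trivially on extensions unramified at `v`.
-/

set_option autoImplicit false

open NumberField IsDedekindDomain

namespace Pool.Agent.Work.MP_59f3ad_nt.Q3

universe u

namespace IFix

theorem core {A B C : Type*} [CommRing A] [CommRing B] [CommRing C] [IsDomain C] [Algebra A B]
    [Algebra A C] [Module.Finite A B] (f1 f2 : B →ₐ[A] C) (Q : Ideal C) [hQ : Q.IsPrime]
    (P : Ideal B) [hP : P.IsPrime] (hcomap : ∀ y, y ∈ P ↔ f1 y ∈ Q)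
    (hdiff : ∀ y, f1 y - f2 y ∈ Q) [Algebra.FormallyUnramified A (Localization.AtPrime P)] :
    ∀ y, f1 y = f2 y := by
  let D := Localization.AtPrime Q
  let i : C →ₐ[A] D := IsScalarTower.toAlgHom A C D
  have hi : Function.Injective i := by
    have h := IsLocalization.injective D (Q.primeCompl_le_nonZeroDivisors)
    exact h
  let g1 : B →ₐ[A] D := i.comp f1
  let g2 : B →ₐ[A] D := i.comp f2
  have hu1 : ∀ s : P.primeCompl, IsUnit (g1 s) := by
    intro s
    have hs : f1 s ∈ Q.primeCompl := fun h => s.2 ((hcomap s).2 h)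
    exact IsLocalization.map_units D (⟨f1 s, hs⟩ : Q.primeCompl)
  have hu2 : ∀ s : P.primeCompl, IsUnit (g2 s) := by
    intro s
    have hs : f2 s ∈ Q.primeCompl := by
      intro h
      refine s.2 ((hcomap s).2 ?_)
      have := Q.add_mem (hdiff s) h
      rwa [sub_add_cancel] at this
    exact IsLocalization.map_units D (⟨f2 s, hs⟩ : Q.primeCompl)
  let F1 : Localization.AtPrime P →ₐ[A] D := IsLocalization.liftAlgHom (M := P.primeCompl) hu1
  let F2 : Localization.AtPrime P →ₐ[A] D := IsLocalization.liftAlgHom (M := P.primeCompl) hu2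
  have hF1 : ∀ y, F1 (algebraMap B _ y) = g1 y := fun y => IsLocalization.lift_eq hu1 y
  have hF2 : ∀ y, F2 (algebraMap B _ y) = g2 y := fun y => IsLocalization.lift_eq hu2 y
  obtain ⟨s, hs⟩ := Module.Finite.fg_top (R := A) (M := B)
  let J : Ideal D := Ideal.span ((fun y => g1 y - g2 y) '' (s : Set B))
  have hJ : ∀ y, g1 y - g2 y ∈ J := by
    intro y
    have hy : y ∈ Submodule.span A (s : Set B) := by rw [hs]; trivial
    induction hy using Submodule.span_induction with
    | mem x hx => exact Ideal.subset_span ⟨x, hx, rfl⟩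
    | zero => simp
    | add x y _ _ hx hy =>
      have := J.add_mem hx hy
      rw [map_add, map_add]
      convert this using 1
      ring
    | smul a x _ hx =>
      rw [map_smul, map_smul, ← smul_sub]
      rw [Algebra.smul_def]
      exact J.mul_mem_left _ hx
  have hJfg : J.FG := (Submodule.fg_def.2 ⟨_, s.finite_toSet.image _, rfl⟩)
  have hJm : J ≤ IsLocalRing.maximalIdeal D := by
    refine Ideal.span_le.2 ?_
    rintro _ ⟨y, _, rfl⟩
    show g1 y - g2 y ∈ IsLocalRing.maximalIdeal D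
    have : g1 y - g2 y = algebraMap C D (f1 y - f2 y) := by
      rw [map_sub]
      rfl
    rw [this]
    exact (IsLocalization.AtPrime.to_map_mem_maximal_iff D Q (f1 y - f2 y)).2 (hdiff y)
  have hJ2 : ∀ x, F1 x - F2 x ∈ J := by
    have e : (Ideal.Quotient.mkₐ A J).comp F1 = (Ideal.Quotient.mkₐ A J).comp F2 := by
      apply AlgHom.coe_ringHom_injective
      apply IsLocalization.ringHom_ext P.primeCompl
      ext y
      simp only [RingHom.comp_apply]
      show Ideal.Quotient.mk J (F1 (algebraMap B _ y)) = Ideal.Quotient.mk J (F2 (algebraMap B _ y))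
      rw [hF1, hF2]
      exact Ideal.Quotient.eq.2 (hJ y)
    intro x
    exact Ideal.Quotient.eq.1 (congrArg (fun f => f x) e)
  have key : (Ideal.Quotient.mkₐ A (J ^ 2)).comp F1 = (Ideal.Quotient.mkₐ A (J ^ 2)).comp F2 := by
    refine Algebra.FormallyUnramified.ext (R := A) (I := J.map (Ideal.Quotient.mk (J ^ 2))) ⟨2, ?_⟩ ?_
    · rw [← Ideal.map_pow, Ideal.map_quotient_self]
      rfl
    · intro x
      refine Ideal.Quotient.eq.2 ?_
      show Ideal.Quotient.mk (J ^ 2) (F1 x) - Ideal.Quotient.mk (J ^ 2) (F2 x) ∈ _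
      rw [← map_sub]
      exact Ideal.mem_map_of_mem _ (hJ2 x)
  have hJJ : J ≤ J • J := by
    rw [smul_eq_mul, ← pow_two]
    refine Ideal.span_le.2 ?_
    rintro _ ⟨y, _, rfl⟩
    show g1 y - g2 y ∈ J ^ 2
    rw [← hF1, ← hF2]
    exact Ideal.Quotient.eq.1 (congrArg (fun f => f (algebraMap B _ y)) key)
  have hbot := Submodule.eq_bot_of_le_smul_of_le_jacobson_bot J J hJfg hJJ
    (hJm.trans (IsLocalRing.maximalIdeal_le_jacobson _))
  intro y
  have h3 := hJ y
  rw [hbot, Submodule.mem_bot, sub_eq_zero] at h3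
  exact hi h3

end IFix

theorem pr_Fix : StFix.{u} := by
  intro L _ _ S v hv g Q hQ
  rw [← Subgroup.zpowers_le, ← IntermediateField.le_iff_le]
  refine iSup_le ?_
  rintro ⟨K, hK, hun⟩
  rw [IntermediateField.le_iff_le, Subgroup.zpowers_le]
  have : FiniteDimensional L K := hK
  have : NumberField K := NumberField.of_module_finite L K
  have : Q.IsPrime := hQ.pr
  have : Module.Finite (𝓞 L) (𝓞 K) := Module.Finite.of_restrictScalars_finite ℤ (𝓞 L) (𝓞 K)
  let f1 : 𝓞 K →ₐ[𝓞 L] 𝓞 (AlgebraicClosure L) :=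
    RingOfIntegers.mapAlgHom (K.val : K →ₐ[L] AlgebraicClosure L)
  let f2 : 𝓞 K →ₐ[𝓞 L] 𝓞 (AlgebraicClosure L) :=
    RingOfIntegers.mapAlgHom ((g : AlgebraicClosure L →ₐ[L] AlgebraicClosure L).comp K.val)
  let P : Ideal (𝓞 K) := Q.comap f1
  have hP : P.IsPrime := Ideal.comap_isPrime f1 Q
  have hlies : P.LiesOver v.asIdeal := by
    constructor
    rw [← hQ.co]
    ext a
    show algebraMap (𝓞 L) (𝓞 (AlgebraicClosure L)) a ∈ Q ↔ f1 (algebraMap (𝓞 L) (𝓞 K) a) ∈ Q
    rw [AlgHom.commutes]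
  have hPu := hun v hv P hP hlies
  have key := IFix.core f1 f2 Q P (fun y => Iff.rfl) (by
    intro y
    have h := hQ.inr (f1 y) (f2 y) rfl
    have h2 := Q.neg_mem h
    rwa [neg_sub] at h2)
  rw [IntermediateField.mem_fixingSubgroup_iff]
  intro x hx
  obtain ⟨a, b, hb, hab⟩ := IsFractionRing.div_surjective (A := 𝓞 K) (⟨x, hx⟩ : K)
  have e : ∀ y : 𝓞 K, g (y : K) = (y : K) := by
    intro y
    have := congrArg (fun z : 𝓞 (AlgebraicClosure L) => (z : AlgebraicClosure L)) (key y)
    exact this.symm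
  have hx2 : x = ((a : K) : AlgebraicClosure L) / ((b : K) : AlgebraicClosure L) := by
    have := congrArg (fun z : K => (z : AlgebraicClosure L)) hab
    simpa using this.symm
  rw [hx2]
  show g _ = _
  rw [map_div₀, e, e]

end Pool.Agent.Work.MP_59f3ad_nt.Q3
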