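import Mathlib
import Pool.Agent.Work.MP_59f3ad_nt.Q3.StmtsC
import Pool.Agent.Work.MP_59f3ad_nt.Bdx.B04

set_option autoImplicit false

/-!
# MP_59f3ad_nt, block Q3, item Kmm (helper24): Kummer theory for locally trivial cocycles modulo 3
-/

open NumberField IsDedekindDomain

namespace Pool.Agent.Work.MP_59f3ad_nt.Q3

universe u

namespace IKmm

section approx

variable (K : Type u) [Field K] [NumberField K] (v : HeightOneSpectrum (𝓞 K))

/-- `K` is dense in its completion -/
theorem approx (η x₀ : v.adicCompletion K) (hx : x₀ ≠ 0) :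
    ∃ y : K, Valued.v (algebraMap K (v.adicCompletion K) y - η) < Valued.v x₀ := by
  have hopen : IsOpen {y : v.adicCompletion K | Valued.v (y - η) < Valued.v x₀} := by
    have h1 := Valued.isOpen_ball (v.adicCompletion K) (Valued.v.restrict x₀)
    have h2 : {y : v.adicCompletion K | Valued.v (y - η) < Valued.v x₀} =
        (fun y => y - η) ⁻¹' {x | Valued.v.restrict x < Valued.v.restrict x₀} := by
      ext y
      simp [Valuation.restrict_lt_iff]
    rw [h2]
    exact h1.preimage (continuous_id.sub continuous_const)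
  have hne : Valued.v (η - η) < Valued.v x₀ := by
    rw [sub_self, map_zero]
    exact zero_lt_iff.mpr ((Valuation.ne_zero_iff _).2 hx)
  obtain ⟨y, hy⟩ := (HeightOneSpectrum.denseRange_algebraMap (R := 𝓞 K) K v).exists_mem_open
    hopen ⟨η, hne⟩
  exact ⟨y, hy⟩

/-- a local cube is approximated by cubes -/
theorem lcub (α : K) (hα : α ≠ 0)
    (h : ∃ η : v.adicCompletion K, η ^ 3 = algebraMap K (v.adicCompletion K) α) : LCub v α := by
  obtain ⟨η, hη⟩ := h
  intro n
  have hv1 : ∀ k : K, Valued.v (algebraMap K (v.adicCompletion K) k) = v.valuation K k :=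
    fun k => HeightOneSpectrum.valuedAdicCompletion_eq_valuation' v k
  have hη0 : η ≠ 0 := by
    rintro rfl
    rw [zero_pow (by norm_num)] at hη
    exact hα ((map_eq_zero _).1 hη.symm)
  obtain ⟨ϖ, hϖ⟩ := v.valuation_exists_uniformizer K
  have hϖ0 : ϖ ≠ 0 := by
    rintro rfl
    rw [map_zero] at hϖ
    exact WithZero.exp_ne_zero hϖ.symm
  have hx0 : η * algebraMap K (v.adicCompletion K) (ϖ ^ n) ≠ 0 :=
    mul_ne_zero hη0 (by
      rw [Ne, map_eq_zero]
      exact pow_ne_zero _ hϖ0)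
  obtain ⟨y, hy⟩ := approx K v η _ hx0
  have he : v.valuation K (ϖ ^ n) = WithZero.exp (-(n : ℤ)) := by
    rw [map_pow, hϖ, ← WithZero.exp_nsmul]
    simp
  have he1 : WithZero.exp (-(n : ℤ)) ≤ 1 := by
    rw [← WithZero.exp_zero, WithZero.exp_le_exp]
    omega
  rw [map_mul, hv1, he] at hy
  have hvη : Valued.v η ≠ 0 := (Valuation.ne_zero_iff _).2 hη0
  have hlt : Valued.v (algebraMap K (v.adicCompletion K) y - η) < Valued.v η :=
    hy.trans_le (mul_le_of_le_one_right' he1)
  have hyη : Valued.v (algebraMap K (v.adicCompletion K) y) = Valued.v η := by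
    have h1 : algebraMap K (v.adicCompletion K) y =
        (algebraMap K (v.adicCompletion K) y - η) + η := by ring
    rw [h1, Valuation.map_add_eq_of_lt_right _ hlt]
  have hy0 : algebraMap K (v.adicCompletion K) y ≠ 0 := by
    intro h0
    rw [h0, map_zero] at hyη
    exact hvη hyη.symm
  have hyK : y ≠ 0 := by
    rintro rfl
    exact hy0 (map_zero _)
  refine ⟨y, hyK, ?_⟩
  set l : v.adicCompletion K := algebraMap K (v.adicCompletion K) y with hl
  have h2 : algebraMap K (v.adicCompletion K) (α / y ^ 3 - 1) =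
      (η / l - 1) * ((η / l) ^ 2 + η / l + 1) := by
    rw [map_sub, map_div₀, map_pow, map_one, ← hη, ← hl]
    field_simp
    ring
  have h3 : Valued.v (η / l) = 1 := by
    rw [map_div₀, hyη, div_self hvη]
  have h4 : Valued.v ((η / l) ^ 2 + η / l + 1) ≤ 1 := by
    refine (Valued.v.map_add _ _).trans (max_le ((Valued.v.map_add _ _).trans (max_le ?_ ?_)) ?_)
    · rw [map_pow, h3, one_pow]
    · rw [h3]
    · rw [map_one]
  have h5 : Valued.v (η / l - 1) ≤ WithZero.exp (-(n : ℤ)) := by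
    have h6 : η / l - 1 = -(l - η) / l := by
      field_simp
      ring
    rw [h6, map_div₀, Valuation.map_neg, hyη]
    rw [div_le_iff₀ (zero_lt_iff.2 hvη), mul_comm]
    exact hy.le
  rw [← hv1, h2, map_mul]
  exact (mul_le_mul' h5 h4).trans (mul_one _).le

end approx

/-- a primitive cube root of unity -/
theorem prim {F : Type u} [Field F] [CharZero F] (t : F) (ht1 : t ^ 2 + t + 1 = 0) :
    IsPrimitiveRoot t 3 := by
  have ht3 : t ^ 3 = 1 := by linear_combination (t - 1) * ht1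
  have hne : t ≠ 1 := by
    intro h1
    rw [h1] at ht1
    norm_num at ht1
  have h0 := IsPrimitiveRoot.orderOf t
  rwa [orderOf_eq_prime ht3 hne] at h0

/-- the power of a cube root of unity -/
theorem zpw_eq {F : Type u} [Field F] (ζ : F) (hζ : IsPrimitiveRoot ζ (3 ^ 1)) (a : ℤ_[3]) :
    zpw 3 1 ζ a = ζ ^ (PadicInt.toZMod a).val := by
  have h1 : ((3 : ℕ) : ℤ_[3]) ^ 1 ∣ a - (((PadicInt.toZMod a).val : ℕ) : ℤ_[3]) := by
    have h2 := PadicInt.toZMod_spec a
    rw [PadicInt.maximalIdeal_eq_span_p, Ideal.mem_span_singleton] at h2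
    rw [pow_one]
    rwa [ZMod.cast_eq_val] at h2
  rw [Tw.KumX.zpw_congr hζ h1, zpw_natCast hζ.pow_eq_one]

end IKmm

open IKmm in
theorem pr_Kmm (h1 : StCyl.{u}) : StKmm.{u} := by
  intro L _ _ w hw r φ hφ
  have hw' : (algebraMap L (AlgebraicClosure L) w) ^ 2 + algebraMap L (AlgebraicClosure L) w + 1 =
      0 := by
    rw [← map_pow, ← map_add, ← map_one (algebraMap L (AlgebraicClosure L)), ← map_add, hw,
      map_zero]
  have hζ : IsPrimitiveRoot (algebraMap L (AlgebraicClosure L) w) (3 ^ 1) := by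
    rw [pow_one]
    exact prim _ hw'
  have hKF : Tw.KF L 3 1 (S3 L) φ := by
    refine ⟨hφ.1.1.1, fun g h => ?_, fun g hg => ?_, fun v hv ι => ?_⟩
    · have h2 := (h1 L w hw r).1 g
      have h3 := (h1 L w hw 1).1 g
      have h4 : twist L 3 1 g = ((cyc L 3 g : ℤ_[3]ˣ) : ℤ_[3]) := by
        unfold twist
        rw [zpow_one]
      rw [h4] at h3
      have h5 := dvd_mul_of_dvd_left (dvd_sub h2 h3) (φ h)
      rw [hφ.1.1.2 g h, pow_one]
      have h6 : (twist L 3 r g - 1 - (((cyc L 3 g : ℤ_[3]ˣ) : ℤ_[3]) - 1)) * φ h =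
          φ g + twist L 3 r g * φ h - (φ g + ((cyc L 3 g : ℤ_[3]ˣ) : ℤ_[3]) * φ h) := by ring
      rw [h6] at h5
      exact_mod_cast h5
    · rw [hφ.1.2 g hg]
      exact dvd_zero _
    · obtain ⟨c, hc⟩ := hφ.2.1 v hv ι
      refine ⟨0, fun g h hgh => ?_⟩
      rw [hc g h hgh, mul_zero, sub_zero, pow_one]
      exact_mod_cast dvd_mul_of_dvd_left ((h1 L w hw r).1 h) c
  obtain ⟨β, α, hβ, hα, hg, hαβ, hloc, hval⟩ := Tw.pr_Kum L 3 1 (S3 L) φ _ hζ hKF
  refine ⟨β, α, hβ, hα, fun g => ?_, ?_, fun v => ?_, fun v hv => ?_⟩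
  · rw [hg g, zpw_eq _ hζ, map_pow]
  · rw [hαβ, pow_one]
  · obtain ⟨y, hy⟩ := hval v
    exact ⟨y, by rw [hy, pow_one]⟩
  · obtain ⟨η, hη⟩ := hloc v hv
    exact lcub L v α hα ⟨η, by rw [← hη, pow_one]⟩

end Pool.Agent.Work.MP_59f3ad_nt.Q3
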