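import Mathlib
import Pool.Agent.Work.MP_59f3ad_nt.Q3.Defs

/-!
Statements of block Q3, part T: all cyclic cubic extensions `F(m^(1/3))`,
`m = ω^a (1 - ω)^b ∏ π_i^{c_i}`, of `F = ℚ(ω)` with one prime above `3`. Every docstring is the
complete proof. The structure `Cfg` has changed: the fields `h3`, `h9` are replaced by `hM : M ≠ 0`.
-/

open NumberField IsDedekindDomain

namespace Pool.Agent.Work.MP_59f3ad_nt.Q3

universe u

/-- RCQ (MEDIUM; copy of I_RcA with `K1 = AlgebraicClosure K` of characteristic `q`). `p = nm π`,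
`f = ev W : E → K1` (`evH`), `φ = χ` composed with `f` (`MulChar.ringHomComp`, `χ` from StChr, which
you may assume, with StRho, StInd, StJac), `ψ` a primitive additive character `ZMod p → K1`
(`p ≠ q`), `g = gaussSum φ ψ`, `g³ = p J(φ,φ) = -p f(π) ≠ 0` (as in I_RcA; `f(π) ≠ 0` because
`f(π) f(star π) = p ≠ 0` in `K`). (1) `q = 2 mod 3`: Frobenius twice:
`g^(q²) = gaussSum (φ^(q²)) (ψ(q² ·)) = φ(q²)⁻¹ g` (`q² = 1 mod 3`), so
`g^(q²-1) = φ(q)⁻² = φ(q) = W^(ind π q)` (`φ(q)³ = 1`). And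
`g^(q²-1) = (-p f(π))^((q²-1)/3) = f(π)^((q²-1)/3)`, because `-p` is a non-zero element of the prime
field: `(-p)^((q²-1)/3) = ((-p)^(q-1))^((q+1)/3) = 1`. (2) `q = 1 mod 3`:
`g^q = gaussSum (φ^q) (ψ(q ·)) = φ(q)⁻¹ g`, `g^(q-1) = W^(- ind π q)`, and
`g^(q-1) = (-p f(π))^((q-1)/3)`, `(-1)^((q-1)/3) = 1` (`q` is odd, `(q-1)/3` is even). -/
def StRcQ : Prop := ∀ π : E, PP π → ∀ (q : ℕ) [Fact q.Prime], q ≠ nm π →
  ∀ (K : Type) [Field K] [CharP K q] (W : K), W ^ 2 + W + 1 = 0 →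
  (q % 3 = 2 → (ev W π) ^ ((q ^ 2 - 1) / 3) = W ^ (ind π ((q : ℕ) : E)).val) ∧
  (q % 3 = 1 → ((nm π : ℕ) : K) ^ ((q - 1) / 3) * (ev W π) ^ ((q - 1) / 3) *
    W ^ (ind π ((q : ℕ) : E)).val = 1)

/-- SPA (MEDIUM, from StRcQ, StInd). `π = a + bω`, `p = a² - ab + b²`. `n` is prime to `3`
(`a = 1 mod 3`) and to `p` (`p ∣ n ∣ a` gives `p ∣ b²`, `p² ∣ p`), `n ≥ 1` (`a ≠ 0`).
`f(n) = (n² - 1)/3` is additive modulo `3`: `m²n² - 1 = (m² - 1) n² + (n² - 1)`. So by StInd and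
induction it suffices to treat a prime `n = q ∣ a`, `q ∤ b`, `q ≠ p`. `K = AlgebraicClosure (ZMod q)`,
`W` a root of `X² + X + 1` (`W³ = 1`, `W ≠ 1` as `q ≠ 3`), `ev W π = b W`.
`q = 2 mod 3`: `(bW)^((q²-1)/3) = W^((q²-1)/3)` (`b^((q²-1)/3) = (b^(q-1))^((q+1)/3) = 1`), so
`ind π q = (q²-1)/3` (exponents of `W` modulo `3`).
`q = 1 mod 3`, `k = (q-1)/3`: apply StRcQ to `W` and to `W²`; or: `p = ev W π * ev W² π = b² W³ = b²`
in `K`, so `1 = b^(2k) (bW)^k W^ind = b^(3k) W^(k + ind) = W^(k+ind)`, `ind = -k = 2k`, and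
`(q² - 1)/3 = k(q+1) = 2k mod 3`. -/
def StSpa : Prop := ∀ π : E, PP π → ∀ n : ℕ, (n : ℤ) ∣ π.re →
  ind π ((n : ℕ) : E) = (((n ^ 2 - 1) / 3 : ℕ) : ZMod 3)

/-- SPB (MEDIUM, from StRcQ, StInd). As StSpa with `n ∣ a + b`, `a + b = 1 mod 3`; `n` is prime to `p`
(`p ∣ a + b` gives `p = a² - ab + b² = 3a² mod (a+b)`, `p ∣ 3a²`, `p ∣ a`, `p ∣ b`). For a prime
`q ∣ a + b`: `q ∤ b`, `ev W π = b (W - 1)`. `q = 2 mod 3`: `y = (W-1)^((q²-1)/3)` has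
`y² = (-3W)^((q²-1)/3) = W^((q²-1)/3)` (`(W-1)² = -3W`, `-3` in the prime field, not `0`) and
`y³ = (W-1)^(q²-1) = 1` (`(W-1)^(q²) = W^(q²) - 1 = W - 1`), so `y = y⁴ = W^(2(q²-1)/3)`.
`q = 1 mod 3`, `k = (q-1)/3` even: `p = b²(W-1)(W²-1) = 3b²`; `(W-1)(W²-1) = (W-1)²(W+1)
= -(W-1)² W²`, so `p · ev W π = -b³ (W-1)³ W²`, and
`1 = (-b³(W-1)³W²)^k W^ind = W^(2k + ind)` (`b^(3k) = 1`, `(W-1)^(3k) = (W-1)^(q-1) = 1` because
`W^q = W`), so `ind = -2k = k`; `2 (q²-1)/3 = 2k(q+1) = 4k = k mod 3`. -/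
def StSpb : Prop := ∀ π : E, PP π → ∀ n : ℕ, (n : ℤ) ∣ π.re + π.im →
  ind π ((n : ℕ) : E) = 2 * (((n ^ 2 - 1) / 3 : ℕ) : ZMod 3)

/-- SUP (EASY-MEDIUM, from StSpa, StSpb, StInd, StRho). Supplementary laws. `π = a + bω`,
`a = 1 + 3m`, `b = 3n`. `ev ρ ω = ρ`, `ρ^((p-1)/3) = ρ^ind`, so `ind π ω = (p-1)/3 =
(a² - ab + b² - 1)/3 = 2m - n = -m - n mod 3`. In `E`:
`(a + b) + a λ ω² = π ω²` (`λω² = ω² - 1 = -ω - 2`), so modulo `π`: `a + b = -a λ ω²` and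
`ind (a+b) = ind a + ind λ + 2 ind ω` (`ind (-1) = 0`; also to replace `a`, `a + b` by `|a|`,
`|a + b|`). By StSpa, StSpb: `ind a = (a²-1)/3 = 2m`, `ind (a+b) = 2((a+b)²-1)/3 = 4(m+n) = m + n`.
So `ind λ = m + n - 2m + 2(m + n) = m + 3n = m`. (Checked numerically.) -/
def StSup : Prop := ∀ π : E, PP π →
  ind π oE = -(kap π).1 - (kap π).2 ∧ ind π lE = (kap π).1

/-- FMT (EASY-MEDIUM; copy of I_Fmo). StFmo with arbitrary functions `f k : E → ℤ/3` on the right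
side, uniformly in `f`. In the Fourier expansion every term gets the extra factor
`e3 (-∑_k y_k f_k(π_k))`, a product of functions of one component: for constant `y` the trivial
bound, for non-constant `y` it goes into the coefficients `α`, `β` of StBlt. -/
def StFmT : Prop := ∀ (t : ℕ) (c : Fin t → ℕ), (∀ i, c i = 1 ∨ c i = 2) → ∀ δ : ℝ, 0 < δ →
  ∃ X0 : ℕ, ∀ X : ℕ, X0 ≤ X → ∀ P : Fin t → Finset E, (∀ i, ∀ z ∈ P i, PP z ∧ nm z ≤ 2 * X) →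
  (∀ i, (X : ℝ) ^ (19 / 20 : ℝ) ≤ (P i).card) → ∀ h : Fin t → ZMod 3, (∃ i k, h i ≠ h k) →
  ∀ f : Fin t → E → ZMod 3,
  (((Fintype.piFinset P).filter (fun π => ∀ k,
    ∑ i, (c i : ZMod 3) * (c k : ZMod 3) * (h i - h k) * sy π i k = f k (π k))).card : ℝ) ≤
    (3 / 3 ^ t + δ) * ∏ i, ((P i).card : ℝ)

/-- CNT (EASY; copy of I_Cnh). The linear map `h ↦ ∑ (h_i c_i) κ_i` has rank at least `1` (the
vector `h = 1` at `i`, `0` elsewhere, `κ i ≠ 0`), and rank `2` if two of the `κ_i` are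
independent. -/
def StCnT : Prop := ∀ (t : ℕ) (c : Fin t → ℕ) (κ : Fin t → ZMod 3 × ZMod 3),
  (∀ i, c i = 1 ∨ c i = 2) → (∃ i, κ i ≠ 0) →
  ((Finset.univ.filter (fun h : Fin t → ZMod 3 => (∃ i k, h i ≠ h k) ∧
    ∑ i, (h i * (c i : ZMod 3)) • κ i = 0)).card + 1) * 3 ≤ 3 ^ t ∧
  ((∃ i j, (κ i).1 * (κ j).2 - (κ i).2 * (κ j).1 ≠ 0) →
    ((Finset.univ.filter (fun h : Fin t → ZMod 3 => (∃ i k, h i ≠ h k) ∧
      ∑ i, (h i * (c i : ZMod 3)) • κ i = 0)).card + 1) * 9 ≤ 3 ^ t)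

/-- NCT (EASY-MEDIUM; from StInd; copy of I_Ncu). The multiplicity of `π_0` in `oE^a lE^b M0 d³` is
`c_0 + 3 mult(d)`: `π_0` divides neither the unit `oE` nor `lE` (norm `3`). -/
def StNcT : Prop := ∀ (t : ℕ) (π : Fin t → E) (c : Fin t → ℕ) (M : E), Prd t π c M →
  ∀ (a b : ℕ) (z d : E), d ≠ 0 → oE ^ a * lE ^ b * M * d ^ 3 ≠ z ^ 3

/-- UNT (MEDIUM-HARD; from StUn3 in the file StmtsG, or copy of I_Un3). One place above `3`. If
`3 ∤ b`: for every `v` above `3`: `3 v(x) = v(λ) b` (`v(w) = 1`, `v(M0) = 0` because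
`M0 = 1 mod 3`), so `3 ∣ v(λ)`, `v(3) = 2 v(λ) ≥ 6`, and `∑ e_v f_v = 6` leaves one place.
If `3 ∣ b`, `b = 3b'`: replace `x` by `x' = x/λ^{b'}`, which is integral because
`x'³ = ev w (oE^a M0)`; `σ x' = w x'`. If moreover `3 ∣ a`, divide by `w^{a/3}`: `x''³ = ev w M0`,
`M0 = 1 mod 3`, not mod `9`, and StUn3 applies (`Cfg F L w x'' σ M0`). If `3 ∤ a`: as in I_Un3 a
second place gives `z ∈ E` with `oE^a M0 = z³ mod 9`, `λ ∤ z`, and `z³ = ±1 mod 9`; modulo `3`: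
`oE^a = ±1`, impossible for `3 ∤ a`. -/
def StUnT : Prop := ∀ (F L : Type u) [Field F] [NumberField F] [Field L] [NumberField L]
  [Algebra F L] (w : 𝓞 F) (x : 𝓞 L) (σ : L ≃ₐ[F] L) (a b : ℕ) (M0 : E),
  Cfg F L w x σ (oE ^ a * lE ^ b * M0) →
  (3 : E) ∣ M0 - 1 → ¬ (3 ∣ a ∧ 3 ∣ b ∧ (9 : E) ∣ M0 - 1) →
  ∀ v v' : HeightOneSpectrum (𝓞 L), v ∈ S3 L → v' ∈ S3 L → v = v'

/-- THG (MEDIUM-HARD; from StIso, StH90; rearrangement of I_Thr, whose proof applies word for word).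
`v` is the only place above `3`, so `v(σ y) = v(y)`. `n` large. `A ~ l³` at `v`; `ρ = σ l/l` has
`v(ρ³ - 1) ≥ n`, so `ρ` is close to `w^k`, `k < 3`; in the second part `ρ` is close to `1`, so take
`k = 0`. `l' = l x^{-k}` (`x ≠ 0` as `M ≠ 0`), `f = (l' + σ l' + σ² l')/3 ∈ F` is close to `l'`,
`A/(f³ M^k) = 1 + 9 e` with `e ∈ F` integral at `v`, so `e = ev z/ev d` with `z, d ∈ E`, `λ ∤ d`
(`int_rep` in I_Thr). -/
def StThG : Prop := ∀ (F L : Type u) [Field F] [NumberField F] [Field L] [NumberField L]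
  [Algebra F L] (w : 𝓞 F) (x : 𝓞 L) (σ : L ≃ₐ[F] L) (M : E), Cfg F L w x σ M →
  (∀ v v' : HeightOneSpectrum (𝓞 L), v ∈ S3 L → v' ∈ S3 L → v = v') →
  ∀ v ∈ S3 L, ∀ A : F, A ≠ 0 →
  (LCub v (algebraMap F L A) → ∃ (k : ℕ) (f : F) (z d : E), k < 3 ∧ f ≠ 0 ∧ ¬ lE ∣ d ∧
    A * ev (w : F) d = f ^ 3 * ev (w : F) M ^ k * ev (w : F) (d + 9 * z)) ∧
  (LCubS v (σ : L ≃+* L) (algebraMap F L A) → ∃ (f : F) (z d : E), f ≠ 0 ∧ ¬ lE ∣ d ∧
    A * ev (w : F) d = f ^ 3 * ev (w : F) (d + 9 * z))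

/-- ALG (MEDIUM). Pure algebra in `E`. `λ = lE` is a prime element (`E/λ = ℤ/3`:
`λ ∣ z` iff `3 ∣ z.re + z.im`), every non-zero `z` is `λ^n z0` with `λ ∤ z0`, `9 = unit * λ⁴`. With
`N, M0, d, d + 9z` prime to `λ` compare the powers of `λ`: `j + 3 v(d2) = 3 v(z2) + k b`, so
`j = k b mod 3`. Cancel the powers of `λ`: `oE^i N d2'³ d = z2'³ oE^(ak) M0^k (d + 9z)`. The cube of
an element prime to `λ` is `±1 mod 9` (`final`, `check` in I_Thr, I_Un3). So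
`(oE^i N ∓ oE^(ak) M0^k) d = 0 mod 9`, and `d` is prime to `9` (`d * star d = nm d` prime to `3`), so
`oE^i N = ± oE^(ak) M0^k mod 9`. Modulo `3`: `oE^i = ± oE^(ak)`, which forces the sign `+` and
`i = ak mod 3`; `oE^i = oE^(ak)` is a unit, so `N = M0^k mod 9`. -/
def StAlg : Prop := ∀ (a b i j k : ℕ) (N M0 z d z2 d2 : E), z2 ≠ 0 → d2 ≠ 0 →
  (3 : E) ∣ N - 1 → (3 : E) ∣ M0 - 1 → ¬ lE ∣ d →
  oE ^ i * lE ^ j * N * d2 ^ 3 * d = z2 ^ 3 * (oE ^ a * lE ^ b * M0) ^ k * (d + 9 * z) →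
  (i : ZMod 3) = k * a ∧ (j : ZMod 3) = k * b ∧ (9 : E) ∣ N - M0 ^ k

/-- LOC (MEDIUM-HARD; parts of I_Slo, I_Kmm). `C = AlgebraicClosure L_v`, `L_v = v.adicCompletion L`.
`σ` is isometric for `v`, so it extends to an automorphism `σ_v` of `L_v` (I_Slo), and `σ_v` extends
to an automorphism `θ` of the field `C`. The image of `ι` is the algebraic closure of `L` in `C`, so
it is stable under `θ`; let `s' = ι⁻¹ θ ι`, an automorphism of `AlgebraicClosure L` extending `σ`,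
`ι s' = θ ι`. `g := s⁻¹ s' ∈ GK L`, `k' := s'³` (`σ³ = 1`), so `k' y = s (g (s (g (s (g y)))))`, and
`γ := θ³` is trivial on `L` and, by continuity (density), on `L_v`: `γ ∈ GK L_v`, `ι k' = γ ι`.
Let `A` be as in the last claim. Every `γ' ∈ GK L_v` induces some `h ∈ GK L` with `ι h = γ' ι`
(normality), so `γ'(ι A) = ι A` and `ι A ∈ L_v`. `θ(ι A) = ι(s' A) = ι(s (g A)) = ι A`, so
`σ_v(ι A) = ι A`. Choose `l ∈ L` with `v(l/ιA - 1) ≥ n` (density of `L` in `L_v`). Then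
`v(σ l/ιA - 1) = v(σ_v(l/ιA - 1)) ≥ n`, so `v(σ l/l - 1) ≥ n`, and `a = (ιA)³` gives
`v(a/l³ - 1) ≥ n`. -/
def StLoc : Prop := ∀ (L : Type u) [Field L] [NumberField L] (σ : L ≃+* L)
  (s : AlgebraicClosure L ≃+* AlgebraicClosure L), Ext σ s → (∀ y, σ (σ (σ y)) = y) →
  ∀ (v : HeightOneSpectrum (𝓞 L)), (∀ y : L, v.valuation L (σ y) = v.valuation L y) →
  ∀ ι : AlgebraicClosure L →ₐ[L] AlgebraicClosure (v.adicCompletion L),
  ∃ g k' : GK L, (∀ y, k' y = s (g (s (g (s (g y)))))) ∧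
    (∃ γ : GK (v.adicCompletion L), ∀ y, ι (k' y) = γ (ι y)) ∧
    ∀ (A : AlgebraicClosure L) (a : L), A ≠ 0 → A ^ 3 = algebraMap L (AlgebraicClosure L) a →
      s (g A) = A →
      (∀ (γ : GK (v.adicCompletion L)) (h : GK L), (∀ y, ι (h y) = γ (ι y)) → h A = A) →
      LCubS v σ a

/-- DEC (MEDIUM, from StLoc, StCyl). Choose an embedding `ι` (`IsAlgClosed.lift`), `g, k'` from StLoc
and `y` with `ψ(h) = (u(h) - 1) y` for the `h` which come from `GK L_v`; `u = twist L 3 r`. Put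
`ψ' = ψ - (u - 1) y`, again a cocycle with `ψ'(cj h) = ψ'(h)` (`u(cj h) = u(h)`), `ψ'(k) = 0`
(`u(k) = 1` because `χ(k) = χ(s)³ = 1`), `ψ'(k') = 0`. Since `s g s g s g = s³ (s⁻² g s²)(s⁻¹ g s) g`,
`k' = k (cj cj g)(cj g) g` and
`0 = ψ'(k') = ψ'(k) + u(k)(ψ'(cj cj g) + u(cj cj g)(ψ'(cj g) + u(cj g) ψ'(g)))
= (1 + y1 + y1²) ψ'(g)`, `y1 = u(g) = 1 mod 3` (StCyl), `1 + y1 + y1² ≠ 0` in `ℤ_3`
(`= 3 mod 9`). So `ψ'(g) = 0`, `ψ(g) = (u(g) - 1) y = 0 mod 3`, `g A = w^0 A = A`,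
`s (g A) = s A = A`. For `h` coming from `GK L_v`: `ψ(h) = (u(h) - 1) y = 0 mod 3`, so `h A = A`.
StLoc gives the claim. -/
def StDec : Prop := ∀ (L : Type u) [Field L] [NumberField L] (w : L), w ^ 2 + w + 1 = 0 →
  ∀ (σ : L ≃+* L) (s : AlgebraicClosure L ≃+* AlgebraicClosure L) (hs : Ext σ s),
  (∀ y, σ (σ (σ y)) = y) → cyclotomicCharacter (AlgebraicClosure L) 3 s = 1 →
  ∀ v ∈ S3 L, (∀ y : L, v.valuation L (σ y) = v.valuation L y) →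
  ∀ k : GK L, (∀ y, k y = s (s (s y))) →
  ∀ r : ℤ, ∀ ψ ∈ ShaZ L 3 r (S3 L), (∀ h, ψ (cj hs h) = ψ h) → ψ k = 0 →
  ∀ (A : AlgebraicClosure L) (a : L), A ≠ 0 → A ^ 3 = algebraMap L (AlgebraicClosure L) a →
  s A = A →
  (∀ h : GK L, h A = algebraMap L (AlgebraicClosure L) (w ^ (PadicInt.toZMod (ψ h)).val) * A) →
  LCubS v σ a

/-- IVT (MEDIUM; modification of I_Inv, from StKmm, StH90, StGkk, StCub, StMur, StRtt, StUnr, StFac,
StIso, StThG, StAlg, StCyl, StDec, StVsg). As I_Inv up to `A³ = a ∈ F^*`, `τ_i A = A` for all `i`,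
`Cub v a`, and `a = w^i (1-w)^j g³` (the prime `q_k` has value `c_k` at `M = oE^a lE^b M0`;
`3, ev w M ∉ q` follows from `3 ∉ q` and `ev w (π k) ∉ q` for all `k`, as `lE` divides `3`). Then
StDec for `A` (`h A = w^(ψ h) A` because `A = β/d`, `d ∈ L`) gives `LCubS v a` at the place `v` above
`3` (`v(σ y) = v(y)` by StVsg and uniqueness), StThG (second part)
`a ev d = f³ ev (d + 9z)`; with `f/g = ev z2/ev d2` (StIso: `F` is the fraction field of `E`) StAlg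
for `k = 0`, `N = 1` gives `3 ∣ i`, `3 ∣ j`, so `i = j = 0`, `a = g³` and the end of I_Inv
applies. -/
def StIvT : Prop := ∀ (F L : Type u) [Field F] [NumberField F] [Field L] [NumberField L]
  [Algebra F L] (w : 𝓞 F) (x : 𝓞 L) (σ : L ≃ₐ[F] L) (a b : ℕ) (M0 : E),
  Cfg F L w x σ (oE ^ a * lE ^ b * M0) →
  (∀ v v' : HeightOneSpectrum (𝓞 L), v ∈ S3 L → v' ∈ S3 L → v = v') →
  ∀ (t : ℕ) (π : Fin t → E) (c : Fin t → ℕ), Prd t π c M0 →
  ∀ (q : Fin t → HeightOneSpectrum (𝓞 F)) (v : Fin t → HeightOneSpectrum (𝓞 L)),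
  (∀ i, Ram F L w x σ (π i) (c i) (q i) (v i)) →
  ∀ (τ : Fin t → (AlgebraicClosure L ≃+* AlgebraicClosure L))
    (Q : Fin t → Ideal (𝓞 (AlgebraicClosure L))),
  (∀ i, InrQ (σ : L ≃+* L) (v i) (τ i) (Q i)) → ∀ (i0 : Fin t) (hs : Ext (σ : L ≃+* L) (τ i0))
    (r : ℤ), r ≠ 0 → ∀ ψ ∈ ShaZ L 3 r (S3 L), (∀ h, ψ (cj hs h) = ψ h) → ∀ h, D3 (ψ h)

/-- MON (MEDIUM-HARD). The Tate-Shafarevich group does not grow with `S`. `Sp` = the places above `p`.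
Only `φ g = 0` for `g ∈ (maxUnram L Sp).fixingSubgroup` has to be shown. Fix `n`. `U = {h ∈ GK L :
cyc h = 1 mod p^n, φ h = 0 mod p^n}` is an open normal subgroup (cocycle identity; `φ` continuous),
`K` its fixed field, finite over `L`. Claim: `K/L` is unramified at all finite places `q` with
`p ∉ q`; then `K ≤ maxUnram L Sp`, so `g ∈ U` (`U` is closed) and `p^n ∣ φ g` for all `n`.
Case `q ∉ S`: `φ` and `cyc` vanish (`cyc = 1`) on the inertia groups over `q` (landed: I_Fix, pr_Fix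
for `p = 3`: inertia elements lie in `(maxUnram L S).fixingSubgroup`, where `φ = 0`; inertia fixes
`p`-power roots of unity as in I_Mur). Case `q ∈ S`: let `P` be a prime of `𝓞 (AlgebraicClosure L)`
over `q` and `g` in its inertia group; it suffices that `φ g = 0`, `cyc g = 1`. Direct argument
without inertia groups: for every embedding `ι` into `C = AlgebraicClosure (q.adicCompletion L)`
the hypothesis `LocTriv` gives `φ h = (twist h - 1) c` for `h` induced by `g ∈ GK L_q`; if `g` fixes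
the `p^m`-th roots of unity, `m` large, then `φ h = 0 mod p^n`, so `h ∈ U`; hence
`ι K ⊆ L_q(ζ)`, `ζ` a root of unity of order `p^m`, an unramified extension of `L_q` (`p ∉ q`):
`X^(p^m) - 1` is separable modulo `q`. So `K/L` is unramified at the prime of `K` induced by `ι`,
and all primes of `K` over `q` are obtained. Any other proof is welcome. -/
def StMon : Prop := ∀ (L : Type u) [Field L] [NumberField L] (p : ℕ) [Fact p.Prime] (r : ℤ)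
  (S : Set (HeightOneSpectrum (𝓞 L))),
  (∀ v : HeightOneSpectrum (𝓞 L), (p : 𝓞 L) ∈ v.asIdeal → v ∈ S) →
  ShaZ L p r S ≤ ShaZ L p r {v : HeightOneSpectrum (𝓞 L) | (p : 𝓞 L) ∈ v.asIdeal}

end Pool.Agent.Work.MP_59f3ad_nt.Q3
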