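import Mathlib
import Pool.Agent.Work.MP_59f3ad_nt.Q3.StmtsT
import Pool.Agent.Work.MP_59f3ad_nt.Q3.StmtsC
import Pool.Agent.Work.MP_59f3ad_nt.Q3.I_Fix
import Pool.Agent.Work.MP_59f3ad_nt.Q3.I_Tau
import Pool.Agent.Work.MP_59f3ad_nt.Bd.B01
import Pool.Agent.Work.MP_59f3ad_nt.Q3.I_Kmm

/-!
Block Q3, item Mon: the Tate-Shafarevich group does not grow with `S`.
-/

set_option autoImplicit false

open NumberField IsDedekindDomain
open scoped Pointwise

namespace Pool.Agent.Work.MP_59f3ad_nt.Q3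

universe u

namespace IMon

theorem eq_one {R : Type*} [CommRing R] [IsDomain R] (p : ℕ) (Q : Ideal R) (hp : (p : R) ∉ Q) :
    ∀ (n : ℕ) (x : R), x ^ p ^ n = 1 → x - 1 ∈ Q → x = 1 := by
  intro n
  induction n with
  | zero =>
    intro x hx _
    rwa [pow_zero, pow_one] at hx
  | succ n ih =>
    intro x hx hQ
    have h1 : x ^ p = 1 := by
      refine ih (x ^ p) ?_ ?_
      · rw [← pow_mul, ← hx]
        congr 1
        rw [pow_succ]
        ring
      · rw [← geom_sum_mul]
        exact Q.mul_mem_left _ hQ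
    have h2 : (∑ i ∈ Finset.range p, x ^ i) * (x - 1) = 0 := by
      rw [geom_sum_mul, h1, sub_self]
    rcases mul_eq_zero.1 h2 with h | h
    · exfalso
      apply hp
      have e : (p : R) = -∑ i ∈ Finset.range p, (x ^ i - 1) := by
        rw [Finset.sum_sub_distrib, h]
        simp
      rw [e]
      refine Q.neg_mem (Q.sum_mem fun i _ => ?_)
      rw [← geom_sum_mul]
      exact Q.mul_mem_left _ hQ
    · exact sub_eq_zero.1 h

theorem eq_of_mem {R : Type*} [CommRing R] [IsDomain R] (p : ℕ) [Fact p.Prime] (Q : Ideal R)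
    (hp : (p : R) ∉ Q) (n : ℕ) (z z' : R) (ez : z ^ p ^ n = 1) (ez' : z' ^ p ^ n = 1)
    (hQ : z' - z ∈ Q) : z' = z := by
  have hpos : 0 < p ^ n := pow_pos (Fact.out : p.Prime).pos n
  have e1 : z * z ^ (p ^ n - 1) = 1 := by
    rw [← pow_succ', Nat.sub_add_cancel hpos, ez]
  have h5 := eq_one p Q hp n (z' * z ^ (p ^ n - 1)) (by
    rw [mul_pow, ez', one_mul, ← pow_mul, mul_comm, pow_mul, ez, one_pow]) (by
    have e : z' * z ^ (p ^ n - 1) - 1 = z ^ (p ^ n - 1) * (z' - z) := by
      linear_combination e1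
    rw [e]
    exact Q.mul_mem_left _ hQ)
  calc z' = z' * (z * z ^ (p ^ n - 1)) := by rw [e1, mul_one]
    _ = z' * z ^ (p ^ n - 1) * z := by ring
    _ = z := by rw [h5, one_mul]

theorem fix {L : Type u} [Field L] [NumberField L] (p : ℕ) [Fact p.Prime] {σ : L ≃+* L}
    {v : HeightOneSpectrum (𝓞 L)} {τ : AlgebraicClosure L ≃+* AlgebraicClosure L}
    {Q : Ideal (𝓞 (AlgebraicClosure L))} (h : InrQ σ v τ Q) (h3 : (p : 𝓞 L) ∉ v.asIdeal)
    (n : ℕ) (ζ : AlgebraicClosure L) (hζ : ζ ^ p ^ n = 1) : τ ζ = ζ := by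
  have h3Q : (p : 𝓞 (AlgebraicClosure L)) ∉ Q := by
    intro h4
    apply h3
    rw [← h.co, Ideal.mem_comap, map_natCast]
    exact h4
  have hpos : 0 < p ^ n := pow_pos (Fact.out : p.Prime).pos n
  have hζ' : (τ ζ) ^ p ^ n = 1 := by rw [← map_pow, hζ, map_one]
  have hi : ∀ y : AlgebraicClosure L, y ^ p ^ n = 1 → IsIntegral ℤ y := fun y hy =>
    IsIntegral.of_pow hpos (by rw [hy]; exact isIntegral_one)
  set z : 𝓞 (AlgebraicClosure L) := ⟨ζ, hi ζ hζ⟩ with hz
  set z' : 𝓞 (AlgebraicClosure L) := ⟨τ ζ, hi _ hζ'⟩ with hz'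
  have ez : z ^ p ^ n = 1 := by
    apply RingOfIntegers.ext
    change algebraMap (𝓞 (AlgebraicClosure L)) (AlgebraicClosure L) (z ^ p ^ n) =
      algebraMap (𝓞 (AlgebraicClosure L)) (AlgebraicClosure L) 1
    rw [map_pow, map_one]
    exact hζ
  have ez' : z' ^ p ^ n = 1 := by
    apply RingOfIntegers.ext
    change algebraMap (𝓞 (AlgebraicClosure L)) (AlgebraicClosure L) (z' ^ p ^ n) =
      algebraMap (𝓞 (AlgebraicClosure L)) (AlgebraicClosure L) 1
    rw [map_pow, map_one]
    exact hζ'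
  have hQ : z' - z ∈ Q := h.inr z z' rfl
  have h6 : z' = z := eq_of_mem p Q h3Q n z z' ez ez' hQ
  have h7 := congrArg (fun y : 𝓞 (AlgebraicClosure L) => (y : AlgebraicClosure L)) h6
  exact h7

section cycl

variable (L : Type u) [Field L] [NumberField L] (p : ℕ) [Fact p.Prime]

theorem dvd_cyc (n : ℕ) (h : GK L) (hfix : ∀ ζ : AlgebraicClosure L, ζ ^ p ^ n = 1 → h ζ = ζ) :
    (p : ℤ_[p]) ^ n ∣ (cyc L p h : ℤ_[p]) - 1 := by
  rcases Nat.eq_zero_or_pos n with rfl | hn
  · rw [pow_zero]
    exact one_dvd _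
  · have h1 : PadicInt.toZModPow (p := p) n ((cyc L p h : ℤ_[p]ˣ) : ℤ_[p]) = 1 := by
      change PadicInt.toZModPow (p := p) n ((cyclotomicCharacter (AlgebraicClosure L) p
        (MulSemiringAction.toRingAut (GK L) (AlgebraicClosure L) h) : ℤ_[p]ˣ) : ℤ_[p]) = 1
      rw [cyclotomicCharacter.toZModPow, eq_comm]
      apply modularCyclotomicCharacter.unique
      intro t ht
      rw [ZMod.val_one'' (one_lt_pow₀ (Fact.out : p.Prime).one_lt hn.ne').ne', pow_one]
      refine hfix _ ?_
      rw [mem_rootsOfUnity] at ht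
      have := congrArg (fun y : (AlgebraicClosure L)ˣ => (y : AlgebraicClosure L)) ht
      simpa using this
    have h2 : (cyc L p h : ℤ_[p]) - 1 ∈ RingHom.ker (PadicInt.toZModPow (p := p) n) := by
      rw [RingHom.mem_ker, map_sub, h1, map_one, sub_self]
    rwa [PadicInt.ker_toZModPow, Ideal.mem_span_singleton] at h2

theorem fix_of_dvd (n : ℕ) (h : GK L) (hd : (p : ℤ_[p]) ^ n ∣ (cyc L p h : ℤ_[p]) - 1)
    (ζ : AlgebraicClosure L) (hζ : ζ ^ p ^ n = 1) : h ζ = ζ := by
  have hs := cyclotomicCharacter.spec (L := AlgebraicClosure L) p (n := n)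
    (MulSemiringAction.toRingAut (GK L) (AlgebraicClosure L) h) ζ hζ
  have h2 : (cyclotomicCharacter (AlgebraicClosure L) p
      (MulSemiringAction.toRingAut (GK L) (AlgebraicClosure L) h)) = cyc L p h := rfl
  rw [h2] at hs
  have h3 : PadicInt.toZModPow (p := p) n ((cyc L p h : ℤ_[p]ˣ) : ℤ_[p]) = 1 := by
    have h4 : (cyc L p h : ℤ_[p]) - 1 ∈ RingHom.ker (PadicInt.toZModPow (p := p) n) := by
      rw [PadicInt.ker_toZModPow, Ideal.mem_span_singleton]
      exact hd
    rw [RingHom.mem_ker, map_sub, map_one] at h4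
    exact sub_eq_zero.1 h4
  rw [h3] at hs
  rcases Nat.eq_zero_or_pos n with rfl | hn
  · rw [pow_zero, pow_one] at hζ
    rw [hζ, map_one]
  · rw [ZMod.val_one'' (one_lt_pow₀ (Fact.out : p.Prime).one_lt hn.ne').ne', pow_one] at hs
    exact hs

omit [NumberField L] in
theorem dvd_twist (n : ℕ) (r : ℤ) (h : GK L) (hd : (p : ℤ_[p]) ^ n ∣ (cyc L p h : ℤ_[p]) - 1) :
    (p : ℤ_[p]) ^ n ∣ twist L p r h - 1 := by
  set f := PadicInt.toZModPow (p := p) n with hf
  have h1 : Units.map (f : ℤ_[p] →* ZMod (p ^ n)) (cyc L p h) = 1 := by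
    apply Units.ext
    have h4 : (cyc L p h : ℤ_[p]) - 1 ∈ RingHom.ker f := by
      rw [hf, PadicInt.ker_toZModPow, Ideal.mem_span_singleton]
      exact hd
    rw [RingHom.mem_ker, map_sub, map_one] at h4
    exact sub_eq_zero.1 h4
  have h2 : Units.map (f : ℤ_[p] →* ZMod (p ^ n)) (cyc L p h ^ r) = 1 := by
    rw [map_zpow, h1, one_zpow]
  have h3 : f (twist L p r h) = 1 := congrArg Units.val h2
  have h4 : twist L p r h - 1 ∈ RingHom.ker f := by
    rw [RingHom.mem_ker, map_sub, h3, map_one, sub_self]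
  rwa [hf, PadicInt.ker_toZModPow, Ideal.mem_span_singleton] at h4

/-- The open normal subgroup of the `h` with `cyc h = 1` and `φ h = 0` modulo `p^n`. -/
noncomputable def U (r : ℤ) (φ : GK L → ℤ_[p]) (hφ : φ ∈ Z1 L p r) (n : ℕ) : Subgroup (GK L) where
  carrier := {h | (p : ℤ_[p]) ^ n ∣ (cyc L p h : ℤ_[p]) - 1 ∧ (p : ℤ_[p]) ^ n ∣ φ h}
  one_mem' := by
    refine ⟨by simp, ?_⟩
    have h1 := hφ.2 1 1
    rw [mul_one, twist_one, one_mul] at h1
    rw [left_eq_add.mp h1]
    exact dvd_zero _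
  mul_mem' := by
    rintro a b ⟨ha1, ha2⟩ ⟨hb1, hb2⟩
    refine ⟨?_, ?_⟩
    · rw [map_mul, Units.val_mul]
      have e : (cyc L p a : ℤ_[p]) * (cyc L p b : ℤ_[p]) - 1 =
          (cyc L p a : ℤ_[p]) * ((cyc L p b : ℤ_[p]) - 1) + ((cyc L p a : ℤ_[p]) - 1) := by ring
      rw [e]
      exact dvd_add (hb1.mul_left _) ha1
    · rw [hφ.2]
      exact dvd_add ha2 (hb2.mul_left _)
  inv_mem' := by
    rintro a ⟨ha1, ha2⟩
    have h1 : φ 1 = 0 := by
      have h1 := hφ.2 1 1
      rw [mul_one, twist_one, one_mul] at h1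
      exact left_eq_add.mp h1
    refine ⟨?_, ?_⟩
    · rw [map_inv]
      have e : (((cyc L p a)⁻¹ : ℤ_[p]ˣ) : ℤ_[p]) - 1 =
          -(((cyc L p a)⁻¹ : ℤ_[p]ˣ) : ℤ_[p]) * ((cyc L p a : ℤ_[p]) - 1) := by
        have := Units.inv_mul (cyc L p a)
        linear_combination this
      rw [e]
      exact ha1.mul_left _
    · have h2 := hφ.2 a⁻¹ a
      rw [inv_mul_cancel, h1] at h2
      have e : φ a⁻¹ = -(twist L p r a⁻¹ * φ a) := by linear_combination -h2
      rw [e, dvd_neg]
      exact ha2.mul_left _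

omit [NumberField L] in
theorem U_normal (r : ℤ) (φ : GK L → ℤ_[p]) (hφ : φ ∈ Z1 L p r) (n : ℕ) :
    (U L p r φ hφ n).Normal := by
  constructor
  rintro a ⟨ha1, ha2⟩ g
  have h1 : φ 1 = 0 := by
    have h1 := hφ.2 1 1
    rw [mul_one, twist_one, one_mul] at h1
    exact left_eq_add.mp h1
  refine ⟨?_, ?_⟩
  · have e : cyc L p (g * a * g⁻¹) = cyc L p a := by
      rw [map_mul, map_mul, map_inv, mul_comm (cyc L p g), mul_assoc, mul_inv_cancel, mul_one]
    rw [e]
    exact ha1
  · have h2 := hφ.2 g g⁻¹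
    rw [mul_inv_cancel, h1] at h2
    have h3 : φ (g * a * g⁻¹) = φ g + twist L p r g * φ a + twist L p r g * twist L p r a * φ g⁻¹ := by
      rw [hφ.2, hφ.2, twist_mul]
    have h4 : φ (g * a * g⁻¹) = twist L p r g * φ a - (twist L p r a - 1) * φ g := by
      rw [h3]
      linear_combination -(twist L p r a) * h2
    rw [h4]
    exact dvd_sub (ha2.mul_left _) ((dvd_twist L p n r a ha1).mul_right _)

omit [NumberField L] in
theorem U_open (r : ℤ) (φ : GK L → ℤ_[p]) (hφ : φ ∈ Z1 L p r) (n : ℕ) :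
    IsOpen ((U L p r φ hφ n : Subgroup (GK L)) : Set (GK L)) := by
  have hop : IsOpen {a : ℤ_[p] | (p : ℤ_[p]) ^ n ∣ a} := by
    have hpos : (0 : ℝ) < (p : ℝ) ^ (-n : ℤ) := by
      have : (0 : ℝ) < p := by exact_mod_cast (Fact.out : p.Prime).pos
      positivity
    rw [Metric.isOpen_iff]
    intro x hx
    refine ⟨(p : ℝ) ^ (-n : ℤ), hpos, ?_⟩
    intro a ha
    rw [Metric.mem_ball, dist_eq_norm] at ha
    have h3 : (p : ℤ_[p]) ^ n ∣ a - x :=
      (PadicInt.norm_le_pow_iff_mem_span_pow _ n).mp ha.le |> Ideal.mem_span_singleton.mp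
    have h4 := dvd_add h3 hx
    rwa [sub_add_cancel] at h4
  have h1 : Continuous fun g : GK L => ((cyc L p g : ℤ_[p]ˣ) : ℤ_[p]) - 1 := by
    have h1 : Continuous fun g : GK L => cyc L p g :=
      cyclotomicCharacter.continuous p L (AlgebraicClosure L)
    exact (Units.continuous_val.comp h1).sub continuous_const
  exact (hop.preimage h1).inter (hop.preimage hφ.1)

end cycl

variable (L : Type u) [Field L] [NumberField L]

/-- A Galois extension with one trivial inertia group above `q` is unramified above `q`. -/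
theorem unram (K : IntermediateField L (AlgebraicClosure L)) [NumberField K]
    [FiniteDimensional L K] [IsGalois L K]
    (q : HeightOneSpectrum (𝓞 L)) (P : Ideal (𝓞 K)) [P.IsPrime] [P.LiesOver q.asIdeal]
    (h : ∀ σ ∈ P.inertia Gal(K/L), σ = 1) : Algebra.IsUnramifiedIn (𝓞 K) q.asIdeal := by
  have gal1 : IsGaloisGroup Gal(K/L) (𝓞 L) (𝓞 K) := .of_isFractionRing _ _ _ L K
  have hm : q.asIdeal.IsMaximal := q.isMaximal
  have fin1 : Finite ((𝓞 L) ⧸ q.asIdeal) := Ring.HasFiniteQuotients.finiteQuotient q.ne_bot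
  have c1 := Ideal.card_inertia_eq_ramificationIdxIn (G := Gal(K/L)) q.asIdeal P
  have c2 : Nat.card (P.inertia Gal(K/L)) = 1 := by
    have h1 : P.inertia Gal(K/L) = ⊥ := by
      rw [eq_bot_iff]
      intro σ hσ
      exact Subgroup.mem_bot.2 (h σ hσ)
    rw [h1]
    simp
  rw [Algebra.isUnramifiedIn_iff_forall_ramificationIdx_eq_one]
  intro P' _ hP'
  rw [← Ideal.ramificationIdxIn_eq_ramificationIdx q.asIdeal P' Gal(K/L), ← c1, c2]

theorem lift_inertia (K : IntermediateField L (AlgebraicClosure L)) [NumberField K]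
    [FiniteDimensional L K] [IsGalois L K]
    (q : HeightOneSpectrum (𝓞 L)) (P : Ideal (𝓞 K)) [hP : P.IsPrime] [hl : P.LiesOver q.asIdeal]
    (σ : Gal(K/L)) (hσ : σ ∈ P.inertia Gal(K/L)) :
    ∃ (g : GK L) (Q : Ideal (𝓞 (AlgebraicClosure L))),
      InrQ (RingEquiv.refl L) q (g : AlgebraicClosure L ≃+* AlgebraicClosure L) Q ∧
      ∀ y : K, g (y : AlgebraicClosure L) = (σ y : K) := by
  let PP : HeightOneSpectrum (𝓞 K) := ⟨P, hP, Ideal.ne_bot_of_liesOver_of_ne_bot q.ne_bot P⟩
  obtain ⟨τ, Q0, hτ⟩ := pr_Tau K (σ : K ≃+* K) PP (by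
    intro y y' hy
    have h1 := hσ y
    have h2 : y' = σ • y := RingOfIntegers.ext hy
    rw [h2]
    exact h1)
  have hac : IsAlgClosure K (AlgebraicClosure L) :=
    ⟨inferInstance, Algebra.IsAlgebraic.tower_top (K := L) K⟩
  let e : AlgebraicClosure K ≃ₐ[K] AlgebraicClosure L :=
    IsAlgClosure.equiv K (AlgebraicClosure K) (AlgebraicClosure L)
  let g0 : AlgebraicClosure L ≃+* AlgebraicClosure L :=
    ((e.symm : AlgebraicClosure L ≃+* AlgebraicClosure K).trans τ).trans
      (e : AlgebraicClosure K ≃+* AlgebraicClosure L)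
  have hg0 : ∀ y : AlgebraicClosure L, g0 y = e (τ (e.symm y)) := fun y => rfl
  have hgK : ∀ y : K, g0 (y : AlgebraicClosure L) = ((σ y : K) : AlgebraicClosure L) := by
    intro y
    have h1 : e.symm (y : AlgebraicClosure L) = algebraMap K (AlgebraicClosure K) y :=
      e.symm.commutes y
    rw [hg0, h1, hτ.ext y]
    exact e.commutes (σ y)
  have hgL : ∀ y : L, g0 (algebraMap L (AlgebraicClosure L) y) = algebraMap L (AlgebraicClosure L) y := by
    intro y
    have h1 := hgK (algebraMap L K y)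
    rw [σ.commutes] at h1
    exact h1
  let g : GK L := AlgEquiv.ofRingEquiv (f := g0) hgL
  let eO : 𝓞 (AlgebraicClosure L) ≃+* 𝓞 (AlgebraicClosure K) :=
    RingOfIntegers.mapRingEquiv (e.symm : AlgebraicClosure L ≃+* AlgebraicClosure K)
  have hQ0 := hτ.pr
  refine ⟨g, Q0.comap eO, ⟨fun y => hgL y, Ideal.comap_isPrime eO Q0, ?_, ?_⟩, hgK⟩
  · ext a
    have h1 : eO (algebraMap (𝓞 L) (𝓞 (AlgebraicClosure L)) a) =
        algebraMap (𝓞 K) (𝓞 (AlgebraicClosure K)) (algebraMap (𝓞 L) (𝓞 K) a) := by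
      apply RingOfIntegers.ext
      exact e.symm.commutes (algebraMap L K (a : L))
    rw [Ideal.mem_comap, Ideal.mem_comap, h1, ← Ideal.mem_comap, hτ.co, hl.over]
    exact Iff.rfl
  · intro y y' hy
    rw [Ideal.mem_comap, map_sub]
    apply hτ.inr
    have h1 : (y' : AlgebraicClosure L) = e (τ (e.symm y)) := hy
    have h2 : ((eO y' : 𝓞 (AlgebraicClosure K)) : AlgebraicClosure K) = e.symm (y' : AlgebraicClosure L) := rfl
    rw [h2, h1, AlgEquiv.symm_apply_apply]
    rfl


theorem mem_max (q : HeightOneSpectrum (𝓞 L)) (x : q.adicCompletionIntegers L) :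
    x ∈ IsLocalRing.maximalIdeal (q.adicCompletionIntegers L) ↔
      Valued.v (x : q.adicCompletion L) < 1 := by
  rw [IsLocalRing.mem_maximalIdeal, mem_nonunits_iff]
  have h1 : IsUnit x ↔ Valued.v (x : q.adicCompletion L) = 1 :=
    (Valuation.valuationSubring.integers (Valued.v (R := q.adicCompletion L))).isUnit_iff_valuation_eq_one
  have h2 : Valued.v (x : q.adicCompletion L) ≤ 1 := x.2
  rw [h1]
  exact ⟨fun h => lt_of_le_of_ne h2 h, fun h => h.ne⟩

theorem mem_iff (q : HeightOneSpectrum (𝓞 L)) (a : 𝓞 L) (x : q.adicCompletionIntegers L)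
    (hx : (x : q.adicCompletion L) = algebraMap L (q.adicCompletion L) (a : L)) :
    x ∈ IsLocalRing.maximalIdeal (q.adicCompletionIntegers L) ↔ a ∈ q.asIdeal := by
  rw [mem_max, hx]
  have h3 := HeightOneSpectrum.valuedAdicCompletion_eq_valuation' (K := L) q (a : L)
  rw [← HeightOneSpectrum.valuation_lt_one_iff_mem (K := L) q a]
  exact iff_of_eq (congrArg (fun t => t < 1) h3)

theorem approx_poly (q : HeightOneSpectrum (𝓞 L)) (c : q.adicCompletion L) (hc : c ≠ 0)
    (f : Polynomial (q.adicCompletion L)) : ∃ (m : ℕ) (b : ℕ → L) (d : ℕ → q.adicCompletionIntegers L),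
    ∀ z : AlgebraicClosure (q.adicCompletion L), Polynomial.aeval z f =
      ∑ i ∈ Finset.range m, algebraMap (q.adicCompletion L) (AlgebraicClosure (q.adicCompletion L))
        (algebraMap L (q.adicCompletion L) (b i)) * z ^ i +
      algebraMap (q.adicCompletion L) (AlgebraicClosure (q.adicCompletion L)) c *
      ∑ i ∈ Finset.range m, algebraMap (q.adicCompletion L) (AlgebraicClosure (q.adicCompletion L))
        (d i : q.adicCompletion L) * z ^ i := by
  have h1 : ∀ i, ∃ (b : L) (d : q.adicCompletionIntegers L),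
      f.coeff i = algebraMap L (q.adicCompletion L) b + c * (d : q.adicCompletion L) := by
    intro i
    obtain ⟨b, hb⟩ := IKmm.approx L q (f.coeff i) c hc
    have hc' : Valued.v c ≠ 0 := (Valuation.ne_zero_iff _).2 hc
    refine ⟨b, ⟨(f.coeff i - algebraMap L (q.adicCompletion L) b) / c, ?_⟩, ?_⟩
    · rw [HeightOneSpectrum.mem_adicCompletionIntegers, map_div₀, Valuation.map_sub_swap]
      exact div_le_one_of_le₀ hb.le zero_le
    · show f.coeff i = _ + c * ((f.coeff i - algebraMap L (q.adicCompletion L) b) / c)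
      rw [mul_div_cancel₀ _ hc]
      ring
  choose b d hbd using h1
  refine ⟨f.natDegree + 1, b, d, fun z => ?_⟩
  rw [Polynomial.aeval_eq_sum_range, Finset.mul_sum, ← Finset.sum_add_distrib]
  refine Finset.sum_congr rfl fun i _ => ?_
  rw [hbd i, Algebra.smul_def, map_add, map_mul]
  ring

section loc

variable (K : IntermediateField L (AlgebraicClosure L)) [NumberField K]

omit [NumberField L] in
/-- inertia preserves the valuation ring -/
theorem val_sigma (PP : HeightOneSpectrum (𝓞 K))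
    (σ : Gal(K/L)) (hσ : σ ∈ PP.asIdeal.inertia Gal(K/L)) (t : K) (ht : PP.valuation K t ≤ 1) :
    PP.valuation K (σ t) ≤ 1 := by
  obtain ⟨u, ⟨d, hd⟩, hud⟩ := PP.exists_primeCompl_mul_eq_of_integer (K := K) t ht
  have hd' : d ∉ PP.asIdeal := hd
  have hud' : t * (d : K) = (u : K) := hud
  have h1 : ((σ • d : 𝓞 K) : K) = σ (d : K) := rfl
  have h2 : ((σ • u : 𝓞 K) : K) = σ (u : K) := rfl
  have h3 : σ • d ∉ PP.asIdeal := by
    intro h4
    apply hd'
    have h5 := hσ d
    have h6 := PP.asIdeal.sub_mem h4 h5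
    rwa [sub_sub_cancel] at h6
  have h4 : σ t * ((σ • d : 𝓞 K) : K) = ((σ • u : 𝓞 K) : K) := by
    rw [h1, h2, ← map_mul, hud']
  have h5 : PP.valuation K ((σ • d : 𝓞 K) : K) = 1 :=
    (PP.valuation_eq_one_iff_notMem (K := K)).2 h3
  have h6 := congrArg (PP.valuation K) h4
  rw [map_mul, h5, mul_one] at h6
  rw [h6]
  exact PP.valuation_le_one _



theorem local_triv (p n : ℕ) [Fact p.Prime] (q : HeightOneSpectrum (𝓞 L))
    (hq : (p : 𝓞 L) ∉ q.asIdeal)
    (ι : AlgebraicClosure L →ₐ[L] AlgebraicClosure (q.adicCompletion L)) (ζ : K)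
    (hζ : ζ ^ p ^ n = 1)
    (hK : ∀ (g : GK (q.adicCompletion L)) (h : GK L), (∀ x, ι (h x) = g (ι x)) →
      h (ζ : AlgebraicClosure L) = ζ → ∀ y : K, h (y : AlgebraicClosure L) = y) :
    ∃ P : Ideal (𝓞 K), P.IsPrime ∧ P.LiesOver q.asIdeal ∧ ∀ σ ∈ P.inertia Gal(K/L), σ = 1 := by
  have hch : CharZero (q.adicCompletion L) :=
    charZero_of_injective_algebraMap (algebraMap L (q.adicCompletion L)).injective
  have hpos : 0 < p ^ n := pow_pos (Fact.out : p.Prime).pos n
  let O := q.adicCompletionIntegers L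
  let C := AlgebraicClosure (q.adicCompletion L)
  let em : q.adicCompletion L →+* C := algebraMap (q.adicCompletion L) C
  let _ : Algebra O C := (em.comp (algebraMap O (q.adicCompletion L))).toAlgebra
  have hOC : ∀ x : O, algebraMap O C x = em (x : q.adicCompletion L) := fun x => rfl
  let B := integralClosure O C
  have hinj : Function.Injective (algebraMap O B) := by
    intro x y hxy
    have h1 : algebraMap O C x = algebraMap O C y := congrArg (fun t : B => (t : C)) hxy
    rw [hOC, hOC] at h1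
    exact Subtype.ext (em.injective h1)
  obtain ⟨M, -, hM, hMc⟩ := Ideal.exists_ideal_over_prime_of_isIntegral
    (IsLocalRing.maximalIdeal O) (⊥ : Ideal B) (by
      intro x hx
      rw [Ideal.mem_comap, Ideal.mem_bot] at hx
      have h2 : x = 0 := hinj (by rw [hx, map_zero])
      rw [h2]
      exact Ideal.zero_mem _)
  let f : 𝓞 K →+* C := (ι.toRingHom.comp (algebraMap K (AlgebraicClosure L))).comp
    (algebraMap (𝓞 K) K)
  have hint : ∀ y : 𝓞 K, f y ∈ B := by
    intro y
    obtain ⟨Q1, hQ1, hQ2⟩ := RingOfIntegers.isIntegral y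
    refine ⟨Q1.map (Int.castRingHom O), hQ1.map _, ?_⟩
    rw [Polynomial.eval₂_map]
    have h2 := congrArg f hQ2
    rw [Polynomial.hom_eval₂, map_zero] at h2
    rw [← h2]
    congr 1
    exact RingHom.ext_int _ _
  let j : 𝓞 K →+* B := RingHom.codRestrict f B hint
  have hj : ∀ y : 𝓞 K, ((j y : B) : C) = ι ((y : K) : AlgebraicClosure L) := fun y => rfl
  have hL : ∀ a : L, ι (algebraMap L (AlgebraicClosure L) a) =
      em (algebraMap L (q.adicCompletion L) a) := by
    intro a
    rw [ι.commutes]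
    exact IsScalarTower.algebraMap_apply L (q.adicCompletion L) C a
  let P : Ideal (𝓞 K) := M.comap j
  have hP : P.IsPrime := Ideal.comap_isPrime j M
  have hl : P.LiesOver q.asIdeal := by
    constructor
    ext a
    have hmem : algebraMap L (q.adicCompletion L) (a : L) ∈ q.adicCompletionIntegers L := by
      rw [HeightOneSpectrum.mem_adicCompletionIntegers]
      have h3 := HeightOneSpectrum.valuedAdicCompletion_eq_valuation' (K := L) q (a : L)
      exact h3.le.trans (q.valuation_le_one a)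
    have h1 : j (algebraMap (𝓞 L) (𝓞 K) a) = algebraMap O B ⟨_, hmem⟩ := by
      apply Subtype.ext
      exact hL (a : L)
    show a ∈ q.asIdeal ↔ j (algebraMap (𝓞 L) (𝓞 K) a) ∈ M
    rw [h1, ← Ideal.mem_comap, hMc]
    exact (mem_iff L q a ⟨_, hmem⟩ rfl).symm
  refine ⟨P, hP, hl, fun σ hσ => ?_⟩
  let PP : HeightOneSpectrum (𝓞 K) := ⟨P, hP, Ideal.ne_bot_of_liesOver_of_ne_bot q.ne_bot P⟩
  have hpP : (p : 𝓞 K) ∉ P := by
    intro h1
    apply hq
    rw [hl.over, Ideal.under_def, Ideal.mem_comap, map_natCast]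
    exact h1
  -- the root of unity is fixed
  have hζO : ∀ z : K, z ^ p ^ n = 1 → IsIntegral ℤ z := fun z hz =>
    IsIntegral.of_pow hpos (by rw [hz]; exact isIntegral_one)
  have hσζ : σ ζ = ζ := by
    have hζ' : (σ ζ) ^ p ^ n = 1 := by rw [← map_pow, hζ, map_one]
    let z : 𝓞 K := ⟨ζ, hζO ζ hζ⟩
    let z' : 𝓞 K := ⟨σ ζ, hζO _ hζ'⟩
    have ez : z ^ p ^ n = 1 := by
      apply RingOfIntegers.ext
      change algebraMap (𝓞 K) K (z ^ p ^ n) = algebraMap (𝓞 K) K 1
      rw [map_pow, map_one]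
      exact hζ
    have ez' : z' ^ p ^ n = 1 := by
      apply RingOfIntegers.ext
      change algebraMap (𝓞 K) K (z' ^ p ^ n) = algebraMap (𝓞 K) K 1
      rw [map_pow, map_one]
      exact hζ'
    have h1 : z' = σ • z := RingOfIntegers.ext rfl
    have h2 : z' - z ∈ P := by
      rw [h1]
      exact hσ z
    have h3 := eq_of_mem p P hpP n z z' ez ez' h2
    exact congrArg (fun t : 𝓞 K => (t : K)) h3
  -- integral elements have value at most one
  have hV : ∀ z : K, IsIntegral O (ι (z : AlgebraicClosure L)) → PP.valuation K z ≤ 1 := by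
    intro z hz
    by_contra hcon
    push Not at hcon
    have hz0 : z ≠ 0 := by
      rintro rfl
      rw [map_zero] at hcon
      exact absurd hcon (not_lt.2 zero_le_one)
    have h1 : PP.valuation K z⁻¹ < 1 := by
      rw [map_inv₀]
      exact inv_lt_one_of_one_lt₀ hcon
    obtain ⟨u, ⟨d, hd⟩, hud⟩ := PP.exists_primeCompl_mul_eq_of_integer (K := K) z⁻¹ h1.le
    have hd' : d ∉ P := hd
    have hud' : z⁻¹ * (d : K) = (u : K) := hud
    have h2 : u ∈ P := by
      have h3 : PP.valuation K (u : K) < 1 := by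
        rw [← hud', map_mul]
        have h4 : PP.valuation K (d : K) = 1 := (PP.valuation_eq_one_iff_notMem (K := K)).2 hd'
        rw [h4, mul_one]
        exact h1
      exact (PP.valuation_lt_one_iff_mem (K := K) u).1 h3
    apply hd'
    show j d ∈ M
    have h5 : j d = ⟨ι (z : AlgebraicClosure L), hz⟩ * j u := by
      apply Subtype.ext
      show ι ((d : K) : AlgebraicClosure L) = ι (z : AlgebraicClosure L) * ι ((u : K) : AlgebraicClosure L)
      rw [← map_mul]
      congr 1
      have h6 : (d : K) = z * (u : K) := by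
        rw [← hud', mul_inv_cancel_left₀ hz0]
      have h7 := congrArg (fun t : K => (t : AlgebraicClosure L)) h6
      exact h7
    rw [h5]
    exact M.mul_mem_left _ h2
  -- the field `K` in the field generated by the root of unity
  have hgal : IsGalois (q.adicCompletion L) C := ⟨⟩
  have hιζ : (ι (ζ : AlgebraicClosure L)) ^ p ^ n = 1 := by
    rw [← map_pow]
    have h1 := congrArg (fun t : K => (t : AlgebraicClosure L)) hζ
    have h2 : (ζ : AlgebraicClosure L) ^ p ^ n = 1 := h1
    rw [h2, map_one]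
  have hιint : IsIntegral (q.adicCompletion L) (ι (ζ : AlgebraicClosure L)) :=
    IsIntegral.of_pow hpos (by rw [hιζ]; exact isIntegral_one)
  have hιO : IsIntegral O (ι (ζ : AlgebraicClosure L)) :=
    IsIntegral.of_pow hpos (by rw [hιζ]; exact isIntegral_one)
  have hpoly : ∀ y : K, ∃ F : Polynomial (q.adicCompletion L),
      Polynomial.aeval (ι (ζ : AlgebraicClosure L)) F = ι (y : AlgebraicClosure L) := by
    intro y
    have h1 : ι (y : AlgebraicClosure L) ∈
        IntermediateField.adjoin (q.adicCompletion L) {ι (ζ : AlgebraicClosure L)} := by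
      rw [← InfiniteGalois.fixedField_fixingSubgroup
        (IntermediateField.adjoin (q.adicCompletion L) {ι (ζ : AlgebraicClosure L)})]
      rintro ⟨g, hg⟩
      change g (ι (y : AlgebraicClosure L)) = ι (y : AlgebraicClosure L)
      obtain ⟨h, hh⟩ := exists_restrict L (q.adicCompletion L) ι g
      rw [← hh y]
      congr 1
      refine hK g h hh ?_ y
      have h9 : ι (h (ζ : AlgebraicClosure L)) = ι (ζ : AlgebraicClosure L) := by
        rw [hh]
        exact hg ⟨_, IntermediateField.mem_adjoin_simple_self _ _⟩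
      exact ι.injective h9
    rw [← IntermediateField.mem_toSubalgebra,
      IntermediateField.adjoin_simple_toSubalgebra_of_isAlgebraic hιint.isAlgebraic,
      Algebra.adjoin_singleton_eq_range_aeval] at h1
    obtain ⟨F, hF⟩ := h1
    exact ⟨F, hF⟩
  -- a nonzero element of `q`
  obtain ⟨π, hπq, hπ0⟩ := Submodule.exists_mem_ne_zero_of_ne_bot q.ne_bot
  have hπ0L : (π : L) ≠ 0 := fun h => hπ0 (RingOfIntegers.ext h)
  let a : K := algebraMap L K (π : L)
  have ha0 : a ≠ 0 := by
    intro h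
    exact hπ0L ((algebraMap L K).injective (by rw [map_zero]; exact h))
  have haP : PP.valuation K a < 1 := by
    have h1 : a = ((algebraMap (𝓞 L) (𝓞 K) π : 𝓞 K) : K) := rfl
    have h2 : algebraMap (𝓞 L) (𝓞 K) π ∈ P := by
      rw [← Ideal.mem_comap, ← Ideal.under_def, ← hl.over]
      exact hπq
    rw [h1]
    exact (PP.valuation_lt_one_iff_mem (K := K) _).2 h2
  have haσ : σ a = a := σ.commutes _
  -- approximation
  have happ : ∀ (y : K) (N : ℕ), ∃ y' t : K, σ y' = y' ∧ PP.valuation K t ≤ 1 ∧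
      y = y' + a ^ N * t := by
    intro y N
    obtain ⟨F, hF⟩ := hpoly y
    have hc : algebraMap L (q.adicCompletion L) ((π : L) ^ N) ≠ 0 := by
      rw [Ne, map_eq_zero]
      exact pow_ne_zero _ hπ0L
    obtain ⟨m, b, d, hbd⟩ := approx_poly L q _ hc F
    have h1 := hbd (ι (ζ : AlgebraicClosure L))
    rw [hF] at h1
    let y' : K := ∑ i ∈ Finset.range m, algebraMap L K (b i) * ζ ^ i
    have hy' : ι (y' : AlgebraicClosure L) = ∑ i ∈ Finset.range m,
        em (algebraMap L (q.adicCompletion L) (b i)) * ι (ζ : AlgebraicClosure L) ^ i := by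
      have h2 : (y' : AlgebraicClosure L) = ∑ i ∈ Finset.range m,
          algebraMap L (AlgebraicClosure L) (b i) * (ζ : AlgebraicClosure L) ^ i := by
        show algebraMap K (AlgebraicClosure L) y' = _
        rw [map_sum]
        refine Finset.sum_congr rfl fun i _ => ?_
        rw [map_mul, map_pow]
        rfl
      rw [h2, map_sum]
      refine Finset.sum_congr rfl fun i _ => ?_
      rw [map_mul, map_pow, hL]
    have haN : a ^ N ≠ 0 := pow_ne_zero _ ha0
    refine ⟨y', (y - y') / a ^ N, ?_, ?_, ?_⟩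
    · show σ (∑ i ∈ Finset.range m, algebraMap L K (b i) * ζ ^ i) = _
      rw [map_sum]
      refine Finset.sum_congr rfl fun i _ => ?_
      rw [map_mul, map_pow, σ.commutes, hσζ]
    · apply hV
      have h2 : ι (((y - y') / a ^ N : K) : AlgebraicClosure L) =
          ∑ i ∈ Finset.range m, em (d i : q.adicCompletion L) * ι (ζ : AlgebraicClosure L) ^ i := by
        have h3 : (((y - y') / a ^ N : K) : AlgebraicClosure L) =
            ((y : AlgebraicClosure L) - (y' : AlgebraicClosure L)) / (a : AlgebraicClosure L) ^ N := by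
          show algebraMap K (AlgebraicClosure L) ((y - y') / a ^ N) = _
          rw [map_div₀, map_sub, map_pow]
          rfl
        have h4 : (a : AlgebraicClosure L) = algebraMap L (AlgebraicClosure L) (π : L) := rfl
        have h5 : em (algebraMap L (q.adicCompletion L) ((π : L) ^ N)) ≠ 0 := by
          rw [Ne, map_eq_zero]
          exact hc
        rw [h3, map_div₀, map_sub, h4, ← map_pow, hL, div_eq_iff h5, h1, hy']
        ring
      rw [h2]
      refine IsIntegral.sum _ fun i _ => ?_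
      refine IsIntegral.mul ?_ (hιO.pow i)
      rw [← hOC]
      exact isIntegral_algebraMap
    · rw [mul_div_cancel₀ _ haN]
      ring
  -- conclusion
  ext y
  rw [AlgEquiv.one_apply]
  congr 1
  rw [← sub_eq_zero]
  by_contra hne
  have hv0 : PP.valuation K (σ y - y) ≠ 0 := (Valuation.ne_zero_iff _).2 hne
  obtain ⟨N, hN⟩ := exists_pow_lt₀ haP (Units.mk0 _ hv0)
  rw [Units.val_mk0] at hN
  obtain ⟨y', t, h1, h2, h3⟩ := happ y N
  have h4 : σ y - y = a ^ N * (σ t - t) := by
    rw [h3, map_add, map_mul, map_pow, haσ, h1]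
    ring
  have h5 : PP.valuation K (σ t - t) ≤ 1 :=
    (Valuation.map_sub _ _ _).trans (max_le (val_sigma L K PP σ hσ t h2) h2)
  rw [h4, map_mul, map_pow] at hN
  have h6 : PP.valuation K a ^ N * PP.valuation K (σ t - t) ≤ PP.valuation K a ^ N * 1 := by
    gcongr
  rw [mul_one] at h6
  exact absurd hN (not_lt.2 h6)

end loc

end IMon

theorem pr_Mon : StMon.{u} := by
  intro L _ _ p _ r S hS φ hφ
  obtain ⟨⟨hZ, hvan⟩, hloc, hinf⟩ := hφ
  refine ⟨⟨hZ, fun g hg => ?_⟩, fun v hv => hloc v (hS v hv), hinf⟩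
  have key : ∀ n : ℕ, (p : ℤ_[p]) ^ n ∣ φ g := by
    intro n
    have hop := IMon.U_open L p r φ hZ n
    have hUc : IsClosed ((IMon.U L p r φ hZ n : Subgroup (GK L)) : Set (GK L)) :=
      Subgroup.isClosed_of_isOpen _ hop
    let K : IntermediateField L (AlgebraicClosure L) :=
      IntermediateField.fixedField (IMon.U L p r φ hZ n)
    have hgalL : IsGalois L (AlgebraicClosure L) := ⟨⟩
    have hKU : K.fixingSubgroup = IMon.U L p r φ hZ n :=
      InfiniteGalois.fixingSubgroup_fixedField ⟨IMon.U L p r φ hZ n, hUc⟩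
    have hfin : FiniteDimensional L K := by
      rw [← InfiniteGalois.isOpen_iff_finite, hKU]
      exact hop
    have hgal : IsGalois L K := by
      rw [← InfiniteGalois.normal_iff_isGalois, hKU]
      exact IMon.U_normal L p r φ hZ n
    have hnf : NumberField K := NumberField.of_module_finite L K
    have hK : K ≤ maxUnram L {v : HeightOneSpectrum (𝓞 L) | (p : 𝓞 L) ∈ v.asIdeal} := by
      refine le_iSup (fun F : {F : IntermediateField L (AlgebraicClosure L) //
        FiniteDimensional L F ∧ UnramOutside L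
          {v : HeightOneSpectrum (𝓞 L) | (p : 𝓞 L) ∈ v.asIdeal} F} => F.1) ⟨K, hfin, ?_⟩
      intro q hq
      by_cases hqS : q ∈ S
      · let ι : AlgebraicClosure L →ₐ[L] AlgebraicClosure (q.adicCompletion L) := IsAlgClosed.lift
        obtain ⟨c, hc⟩ := hloc q hqS ι
        obtain ⟨ζ0, hζ0⟩ := HasEnoughRootsOfUnity.exists_primitiveRoot (AlgebraicClosure L) (p ^ n)
        have hζK : ζ0 ∈ K := by
          rintro ⟨h, hh⟩
          exact IMon.fix_of_dvd L p n h hh.1 ζ0 hζ0.pow_eq_one
        obtain ⟨P, hP, hl, hin⟩ := IMon.local_triv L K p n q hq ι ⟨ζ0, hζK⟩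
          (Subtype.ext hζ0.pow_eq_one) (by
            intro g' h hgh hζ y
            have h1 : ∀ ζ : AlgebraicClosure L, ζ ^ p ^ n = 1 → h ζ = ζ := by
              intro ζ hζ'
              obtain ⟨i, -, rfl⟩ := hζ0.eq_pow_of_pow_eq_one hζ'
              have hζ2 : h ζ0 = ζ0 := hζ
              rw [map_pow, hζ2]
            have h2 := IMon.dvd_cyc L p n h h1
            have h3 : h ∈ IMon.U L p r φ hZ n :=
              ⟨h2, by
                rw [hc g' h hgh]
                exact (IMon.dvd_twist L p n r h h2).mul_right _⟩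
            rw [← hKU] at h3
            exact h3 y)
        exact IMon.unram L K q P hin
      · obtain ⟨P, hP, hl⟩ := Ideal.exists_maximal_ideal_liesOver_of_isIntegral (S := 𝓞 K) q.asIdeal
        have hP' : P.IsPrime := hP.isPrime
        exact IMon.unram L K q P (by
          intro σ hσ
          obtain ⟨g', Q, hQ, hgσ⟩ := IMon.lift_inertia L K q P σ hσ
          have h1 : g' ∈ (maxUnram L S).fixingSubgroup := pr_Fix L S q hqS g' Q hQ
          have h2 : φ g' = 0 := hvan g' h1
          have h3 : g' ∈ IMon.U L p r φ hZ n :=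
            ⟨IMon.dvd_cyc L p n g' (IMon.fix p hQ hq n), by
              rw [h2]
              exact dvd_zero _⟩
          rw [← hKU] at h3
          ext y
          rw [AlgEquiv.one_apply, ← hgσ]
          exact h3 y)
    have h1 : g ∈ K.fixingSubgroup := IntermediateField.fixingSubgroup_antitone hK hg
    rw [hKU] at h1
    exact h1.2
  by_contra hne
  obtain ⟨n, hn⟩ := FiniteMultiplicity.of_prime_left PadicInt.prime_p hne
  exact hn (key (n + 1))

end Pool.Agent.Work.MP_59f3ad_nt.Q3
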