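import Mathlib
import Pool.Agent.Work.MP_59f3ad_nt.Q3.Defs

/-!
Statements of block Q3, part G: the fields `F = ℚ(ω)` and `L = F(m^(1/3))` (note 4644, Steps 1, 8,
9). Every docstring is the complete proof.
-/

open NumberField IsDedekindDomain

namespace Pool.Agent.Work.MP_59f3ad_nt.Q3

universe u

/-- ISO (MEDIUM). `F` has degree `2` and contains a primitive cube root of unity `w`, so `F = ℚ(w)`
is a third cyclotomic field (`IsCyclotomicExtension {3} ℚ F`), its ring of integers is `ℤ[w]`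
(Mathlib: `IsCyclotomicExtension.Rat.isIntegralClosure_adjoin_singleton...`, or
`IsPrimitiveRoot.integralPowerBasis`) and has class number one
(`IsCyclotomicExtension.Rat.three_pid`). `ev w : E → 𝓞 F` is bijective because `1, w` is a
`ℤ`-basis of `ℤ[w]`. -/
def StIso : Prop := ∀ (F : Type u) [Field F] [NumberField F] (w : 𝓞 F),
  Module.finrank ℚ F = 2 → w ^ 2 + w + 1 = 0 →
  Function.Bijective (ev w) ∧ IsPrincipalIdealRing (𝓞 F) ∧
  ∀ u : (𝓞 F)ˣ, ∃ i : ℕ, (u : 𝓞 F) = w ^ i ∨ (u : 𝓞 F) = -w ^ i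

/-- NCU (EASY-MEDIUM). `π_0` is a prime element of the domain `E` (`E/π ≅ ℤ/p`; if `π ∣ zz'` then
`p ∣ nm z nm z'`... use part R, StInd, as a hypothesis), it does not divide the other `π_i`
(associated primes have equal norms). If `M d³ = z³`, `d ≠ 0`, compare the multiplicities of `π_0`:
`c_0 + 3 mult(d) = 3 mult(z)`, so `3 ∣ c_0 ∈ {1, 2}`. (`z ≠ 0` as `M ≠ 0`; multiplicities are
finite: the norm.) -/
def StNcu : Prop := ∀ (t : ℕ) (π : Fin t → E) (c : Fin t → ℕ) (M : E), Prd t π c M →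
  ∀ z d : E, d ≠ 0 → M * d ^ 3 ≠ z ^ 3

/-- CFG (MEDIUM-HARD). `F = ℚ⟮w⟯` inside `L` (as a type: the intermediate field), of degree `2`
(minimal polynomial `X² + X + 1`, irreducible over `ℚ`), `[L : F] = 3`. `X³ - M` has no root in `F`
(a root `z/d`, `z, d ∈ E` by clearing denominators, contradicts the hypothesis), so it is
irreducible over `F` (degree `3`, or `X_pow_sub_C_irreducible_of_prime`) and `L = F(x)`;
`w x` is another root, so there is an `F`-algebra homomorphism `L → L`, `x ↦ w x`, an automorphism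
`σ` (finite dimension). Fixed elements: `y = y_0 + y_1 x + y_2 x²` (`y_i ∈ F`),
`σ y = y_0 + w y_1 x + w² y_2 x²`, so `σ y = y` forces `y_1 = y_2 = 0`. `w, x` are integral (roots of
monic polynomials with integral coefficients). `M ≠ 0` (take `z = 0`, `d = 1`). -/
def StCfg : Prop := ∀ (L : Type u) [Field L] [NumberField L] (w x : L) (M : E),
  w ^ 2 + w + 1 = 0 → x ^ 3 = ev w M → Module.finrank ℚ L = 6 →
  (∀ z d : E, d ≠ 0 → M * d ^ 3 ≠ z ^ 3) →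
  ∃ (F : Type u) (_ : Field F) (_ : NumberField F) (_ : Algebra F L) (w' : 𝓞 F) (x' : 𝓞 L)
    (σ : L ≃ₐ[F] L), Cfg F L w' x' σ M ∧ algebraMap F L (w' : F) = w ∧ (x' : L) = x

/-- H90 (EASY-MEDIUM). Hilbert 90 for the cyclic cubic extension, elementary: `σ³ = 1` (`σ³ x = x`
and `L = F(x)`; or because `σ² ≠ 1`... from `hσ`, `hL`, `hfix`). Let `c (σ c)(σ² c) = 1`. By
independence of the characters `1, σ, σ²` of `L^*` (`linearIndependent_monoidHom`; they are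
different because `σ x = w x`, `w ≠ 1`) there is `z` with
`e = z + c σ z + c (σ c) σ² z ≠ 0`. `c σ e = c σ z + c (σ c) σ² z + c (σ c)(σ² c) σ³ z = e`. So
`d = e⁻¹` has `σ d = c d`. The element `d` is unique up to `F^*`. -/
def StH90 : Prop := ∀ (F L : Type u) [Field F] [NumberField F] [Field L] [NumberField L]
  [Algebra F L] (w : 𝓞 F) (x : 𝓞 L) (σ : L ≃ₐ[F] L) (M : E), Cfg F L w x σ M →
  (∀ y : L, σ (σ (σ y)) = y) ∧
  ∀ c : L, c * σ c * σ (σ c) = 1 → ∃ d : L, d ≠ 0 ∧ σ d = c * d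

/-- KMR (EASY-MEDIUM). Elements of `F` which are cubes in `L`: let `l³ = a ∈ F^*`. Then
`(σ l / l)³ = 1`, so `σ l = w^j l`, `j < 3`; `l x^(3-j)`, respectively `l` if `j = 0`, is fixed by
`σ`, so it lies in `F`, and `a M^(3-j)` is a cube in `F`; so `a = M^j g³` with `g ∈ F^*`. -/
def StKmr : Prop := ∀ (F L : Type u) [Field F] [NumberField F] [Field L] [NumberField L]
  [Algebra F L] (w : 𝓞 F) (x : 𝓞 L) (σ : L ≃ₐ[F] L) (M : E), Cfg F L w x σ M →
  ∀ (a : F) (l : L), a ≠ 0 → l ^ 3 = algebraMap F L a →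
    ∃ (j : ℕ) (g : F), j < 3 ∧ g ≠ 0 ∧ a = ev (w : F) M ^ j * g ^ 3

/-- UN3 (HARD). One place above `3`. `λ = 1 - w`, `λ² = -3w`, `9 = w^i λ⁴` up to a unit. Let `v ≠ v'`
be primes of `𝓞 L` above `3`; `∑_{v ∣ 3} e_v f_v = [L : ℚ] = 6` (Mathlib `Ideal.sum_ramification_inertia`)
and every `e_v = v(3) = 2 v(λ)` is even, so one of the two, call it `v`, has `e_v f_v ≤ 3`, that is
`e_v = 2`, `f_v = 1`, `v(λ) = 1`, `#(𝓞 L / v) = 3`. The ring homomorphism `E → 𝓞 L / v⁴` (by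
`ev w`) has kernel `{z : v(z) ≥ 4} = λ⁴ E = 9E` (`z = λ^k z0` with `λ ∤ z0` in `E`, i.e. `3 ∤ nm z0`,
so `v(z0) = 0`: `z0 * star z0 = nm z0` is prime to `3`), so its image has `81 = 3⁴ = #(𝓞 L / v⁴)`
elements: surjective. So `x = ev w z mod v⁴` for some `z ∈ E`, and `ev w M = x³ = ev w z³ mod v⁴`,
`9 ∣ M - z³` in `E`. For `z = a + bω` with `λ ∤ z`: `z³ = ±1 mod 9` (finite check over `a, b mod 9`;
`λ ∤ z` as `λ ∤ M`). So `M = ±1 mod 9`, and `M = 1 mod 3` gives `M = 1 mod 9`, against `h9`. -/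
def StUn3 : Prop := ∀ (F L : Type u) [Field F] [NumberField F] [Field L] [NumberField L]
  [Algebra F L] (w : 𝓞 F) (x : 𝓞 L) (σ : L ≃ₐ[F] L) (M : E), Cfg F L w x σ M →
  (3 : E) ∣ M - 1 → ¬ (9 : E) ∣ M - 1 →
  ∀ v v' : HeightOneSpectrum (𝓞 L), v ∈ S3 L → v' ∈ S3 L → v = v'

/-- RAM (HARD). The prime `π` of `E`, `PP π`, `M = π^c N`, `π ∤ N`, `c ∈ {1,2}`. `q = (ev w π)` is a
prime of `F` with `𝓞 F/q ≅ ℤ/p` (`StIso`; norm `p = nm π`). Take any prime `v` of `𝓞 L` above `q`,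
`e = e(v|q)`. From `x³ = ev w M`: `3 v(x) = e c` (`v(ev w N) = 0`: an element of `𝓞 F` not in `q` is
not in `v`), so `3 ∣ e`; `∑ e f = 3` gives `e = 3`, `f = 1`, and `v` is the only prime above `q`.
So `v(x) = c`, `v(a) = 3 q(a)` for `a ∈ F`; `𝓞 F → 𝓞 L / v` is onto since both residue fields
have `p` elements; `σ v = v` (uniqueness), and for `y ∈ 𝓞 L`, `y = z mod v` with `z ∈ 𝓞 F`:
`σ y - y = σ(y - z) - (y - z) ∈ v`. `3 ∉ v` because `p ≠ 3`. -/
def StRam : Prop := ∀ (F L : Type u) [Field F] [NumberField F] [Field L] [NumberField L]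
  [Algebra F L] (w : 𝓞 F) (x : 𝓞 L) (σ : L ≃ₐ[F] L) (M : E), Cfg F L w x σ M →
  ∀ (π N : E) (c : ℕ), PP π → (c = 1 ∨ c = 2) → M = π ^ c * N → ¬ π ∣ N →
  ∃ (q : HeightOneSpectrum (𝓞 F)) (v : HeightOneSpectrum (𝓞 L)), Ram F L w x σ π c q v

/-- UNR (MEDIUM-HARD). A prime `q` of `F` with `3, ev w M ∉ q` is unramified in `L`: `v(a) = q(a)`
for every `v` above `q` and `a ∈ F`. Then `Cub v (algebraMap a)` for one such `v` gives `Cub q a`
(the value `q(a)` is an integer power of `exp 1`). Unramified: `L/F` is Galois of degree `3`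
(generated by `σ`), so `e f g = 3`; if `e ≠ 1` then `e = 3`, `f = g = 1`, so `σ v = v` and, as in
StRam, `σ y - y ∈ v` for all `y ∈ 𝓞 L`; `y = x`: `(w - 1) x ∈ v`, so `3 ∈ v` or `x ∈ v`,
`ev w M ∈ v`, contradiction. (Or with the different: `3x² = f'(x)` for `f = X³ - M` is not in `v`.) -/
def StUnr : Prop := ∀ (F L : Type u) [Field F] [NumberField F] [Field L] [NumberField L]
  [Algebra F L] (w : 𝓞 F) (x : 𝓞 L) (σ : L ≃ₐ[F] L) (M : E), Cfg F L w x σ M →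
  ∀ q : HeightOneSpectrum (𝓞 F), (3 : 𝓞 F) ∉ q.asIdeal → ev w M ∉ q.asIdeal → ∀ a : F,
  (∀ v : HeightOneSpectrum (𝓞 L), Cub v (algebraMap F L a)) → Cub q a

/-- FAC (MEDIUM-HARD). Factorisation modulo cubes. `𝓞 F ≅ E` is a principal ideal domain with units
`± w^i` (StIso). Write `a = z/d = z d²/d³`; so modulo cubes `a = z ∈ 𝓞 F`, `z ≠ 0`, and
`z = unit * ∏ (prime elements)`. For a prime element `ν` not associated to `1 - w` (the only prime
above `3`: `3 = -w²(1-w)²`, `1 - w` has norm `3`) and not to some `ev w (π k)` the exponent is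
divisible by `3` (hypothesis for the prime ideal `(ν)`). Reduce the exponents of `1 - w` and of
`ev w (π k)` (prime elements, pairwise not associated) modulo `3`; `-1 = (-1)³`, `w^i` with `i`
modulo `3` (`w³ = 1`). -/
def StFac : Prop := ∀ (F : Type u) [Field F] [NumberField F] (w : 𝓞 F),
  Module.finrank ℚ F = 2 → w ^ 2 + w + 1 = 0 →
  ∀ (t : ℕ) (π : Fin t → E), (∀ i, PP (π i)) → (∀ i k, nm (π i) = nm (π k) → i = k) →
  ∀ a : F, a ≠ 0 → (∀ q : HeightOneSpectrum (𝓞 F), (3 : 𝓞 F) ∉ q.asIdeal →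
    (∀ k, ev w (π k) ∉ q.asIdeal) → Cub q a) →
  ∃ (i j : ℕ) (e : Fin t → ℕ) (g : F), i < 3 ∧ j < 3 ∧ (∀ k, e k < 3) ∧ g ≠ 0 ∧
    a = (w : F) ^ i * (1 - (w : F)) ^ j * ev (w : F) (∏ k, π k ^ e k) * g ^ 3

/-- THR (HARD). Step 8. `v` the unique place of `L` above `3` (StUn3), so `σ v = v`, i.e.
`v.valuation L (σ y) = v.valuation L y`. Notation: `y ~ z (n)` means `v(y/z - 1) ≥ n`. Let `n` be
large. `a ~ l³ (n)` for some `l ∈ L^*`. Apply `σ`: `a ~ (σ l)³ (n)`, so `ρ = σ l / l` has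
`v(ρ³ - 1) ≥ n`, `ρ³ - 1 = (ρ - 1)(ρ - w)(ρ - w²)`; the differences `1 - w`, `1 - w²`, `w - w²` have
the same value `v(1-w) =: c0`, so if `n > 3 c0` exactly one factor `ρ - w^k` has value
`≥ n - 2 c0`. Put `l' = l x^{-k}` (`v(x) = 0`, `x³ = M` prime to `3`): `σ l'/l' = w^{-k} ρ`,
`v(σ l' - l') ≥ v(l') + n - 2c0`; the same for `σ² l' - l'`. `f = (l' + σ l' + σ² l')/3 ∈ F` has
`v(f - l') ≥ v(l') + n - 2 c0 - v(3)`, so `f ≠ 0` and `f ~ l' (n - c1)`, and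
`a M^{-k} ~ l³ x^{-3k} = l'³ ~ f³ (n - c1)`. This is an estimate in `F`: with `λ = 1 - w` and the
valuation `v_λ` of `F` (`v(y) = e v_λ(y)`, `e ≤ 3`... or use directly: an element of `F` of value
`≥ N v(3)` under `v` is `3^N` times an element integral at `λ`), `a M^{-k}/f³ = 1 + ε`,
`ε ∈ 9 𝓞_{F,λ}`. With `a = w^i λ^j N g³`: `w^i λ^j N = M^k (f/g)³ (1 + ε)`; value at `λ`:
`j = 3 v_λ(f/g)`, so `j = 0` and `u = f/g` is a `λ`-unit. Modulo `9`: `w^i N = M^k u³`, and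
`u³ = ±1 mod 9` (`u = ev w z mod 9` for some `z ∈ E` prime to `λ`, finite check). Modulo `3`:
`w^i = ±1 mod 3`, which forces `i = 0` and the sign `+` (`w - 1`, `w² - 1`, `w + 1`, `w² + 1`, `2`
are not divisible by `3`). So `N = M^k mod 9`. `k < 3` may be assumed. -/
def StThr : Prop := ∀ (F L : Type u) [Field F] [NumberField F] [Field L] [NumberField L]
  [Algebra F L] (w : 𝓞 F) (x : 𝓞 L) (σ : L ≃ₐ[F] L) (M : E), Cfg F L w x σ M →
  (3 : E) ∣ M - 1 → ¬ (9 : E) ∣ M - 1 →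
  ∀ v ∈ S3 L, ∀ (a g : F) (i j : ℕ) (N : E), a ≠ 0 → g ≠ 0 → i < 3 → j < 3 → (3 : E) ∣ N - 1 →
  a = (w : F) ^ i * (1 - (w : F)) ^ j * ev (w : F) N * g ^ 3 → LCub v (algebraMap F L a) →
  i = 0 ∧ j = 0 ∧ ∃ k : ℕ, k < 3 ∧ (9 : E) ∣ N - M ^ k

/-- TAM (MEDIUM-HARD). The tame symbol. `v` over `q = (π)` totally ramified (Ram), `M = π^c N`,
`N' = π^e N''`, `π ∤ N, N''`, `a = ev N' g³ = δ (σ δ)(σ² δ)`, `δ ∈ L^*`. Let `s = v(δ) ∈ ℤ`; from
`v(σ δ) = v(δ)` (`σ` maps `v` to itself: it acts trivially modulo `v`) and `v(a) = 3 q(a)`: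
`s = q(a) = e + 3 q(g)`. `ε = δ^c / x^s` has `v(ε) = 0` (`v(x) = c`), and
`ε (σ ε)(σ² ε) = a^c / M^s` (`x σx σ²x = w³ x³ = M`). `ε = y1/y2` with `y1, y2 ∈ 𝓞 L` outside `v`;
`y1, y2` are congruent modulo `v` to `z1, z2 ∈ 𝓞 F` and `σ` acts trivially modulo `v`, so
`a^c/M^s = (z1/z2)³ mod q` (in the local ring of `q`; the value `q(a^c/M^s)` is `0`). On the other
hand `a^c/M^s = N''^c N^{-e} (N^{-q(g)} (g/π^{q(g)})^c)³` (powers of `π` cancel:
`ec + 3 c q(g) - cs = 0`), so `N''^c N^{-e}` is a cube modulo `π`: there is `y ∈ E`, with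
`π ∣ y³ - N''^c N^{3e-e}` (multiply by `N^{3e}`), so by StInd
`c ind π N'' + 2e ind π N = 0`, that is `c ind π N'' - e ind π N = 0` in `ℤ/3`. -/
def StTam : Prop := ∀ (F L : Type u) [Field F] [NumberField F] [Field L] [NumberField L]
  [Algebra F L] (w : 𝓞 F) (x : 𝓞 L) (σ : L ≃ₐ[F] L) (M : E), Cfg F L w x σ M →
  ∀ (π N N'' : E) (c e : ℕ) (q : HeightOneSpectrum (𝓞 F)) (v : HeightOneSpectrum (𝓞 L)),
  PP π → (c = 1 ∨ c = 2) → M = π ^ c * N → ¬ π ∣ N → ¬ π ∣ N'' → Ram F L w x σ π c q v →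
  ∀ (δ : L) (g : F), δ ≠ 0 → g ≠ 0 →
  δ * σ δ * σ (σ δ) = algebraMap F L (ev (w : F) (π ^ e * N'') * g ^ 3) →
  (c : ZMod 3) * ind π N'' - (e : ZMod 3) * ind π N = 0

end Pool.Agent.Work.MP_59f3ad_nt.Q3
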