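import Mathlib
import Pool.Agent.Work.MP_59f3ad_nt.Q3.StmtsG
import Pool.Agent.Work.MP_59f3ad_nt.Q3.StmtsR

/-!
Item Tam of block Q3: the tame symbol at a totally ramified prime.
-/

open NumberField IsDedekindDomain WithZero

namespace Pool.Agent.Work.MP_59f3ad_nt.Q3

universe u

namespace ITam

section inert

variable {L : Type u} [Field L] [NumberField L]

theorem inert_mem {σ : L ≃+* L} {v : HeightOneSpectrum (𝓞 L)} (h : Inert σ v) (y : 𝓞 L) :
    RingOfIntegers.mapRingEquiv σ y ∈ v.asIdeal ↔ y ∈ v.asIdeal := by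
  have h1 : RingOfIntegers.mapRingEquiv σ y - y ∈ v.asIdeal :=
    h y (RingOfIntegers.mapRingEquiv σ y) rfl
  constructor
  · intro h2
    have := v.asIdeal.sub_mem h2 h1
    simpa using this
  · intro h2
    have := v.asIdeal.add_mem h1 h2
    simpa using this

omit [NumberField L] in
theorem pow_mem {τ : 𝓞 L ≃+* 𝓞 L} {v : HeightOneSpectrum (𝓞 L)}
    (h : ∀ y, y ∈ v.asIdeal → τ y ∈ v.asIdeal) (n : ℕ) (y : 𝓞 L) (hy : y ∈ v.asIdeal ^ n) :
    τ y ∈ v.asIdeal ^ n := by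
  have h1 : τ y ∈ (v.asIdeal ^ n).map (τ : 𝓞 L →+* 𝓞 L) :=
    Ideal.mem_map_of_mem (τ : 𝓞 L →+* 𝓞 L) hy
  rw [Ideal.map_pow] at h1
  refine Ideal.pow_right_mono ?_ n h1
  rw [Ideal.map_le_iff_le_comap]
  intro z hz
  exact h z hz

theorem val_le {τ : 𝓞 L ≃+* 𝓞 L} {v : HeightOneSpectrum (𝓞 L)}
    (h : ∀ y, y ∈ v.asIdeal → τ y ∈ v.asIdeal) (y : 𝓞 L) :
    v.intValuation (τ y) ≤ v.intValuation y := by
  by_cases hy : y = 0
  · subst hy; simp
  · rw [v.intValuation_if_neg hy, v.intValuation_le_pow_iff_mem]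
    apply pow_mem h
    rw [← v.intValuation_le_pow_iff_mem, v.intValuation_if_neg hy]

theorem val_inv_int {σ : L ≃+* L} {v : HeightOneSpectrum (𝓞 L)} (h : Inert σ v) (y : 𝓞 L) :
    v.valuation L (σ (y : L)) = v.valuation L (y : L) := by
  have e1 : v.valuation L (σ (y : L)) = v.intValuation (RingOfIntegers.mapRingEquiv σ y) := by
    rw [← v.valuation_of_algebraMap (K := L)]
    rfl
  have e2 : v.valuation L (y : L) = v.intValuation y := by
    rw [← v.valuation_of_algebraMap (K := L)]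
  rw [e1, e2]
  apply le_antisymm
  · exact val_le (fun z hz => (inert_mem h z).2 hz) y
  · have h3 := val_le (τ := (RingOfIntegers.mapRingEquiv σ).symm) (v := v) (fun z hz => by
      rw [← inert_mem h]
      simpa using hz) (RingOfIntegers.mapRingEquiv σ y)
    simpa using h3

theorem val_inv {σ : L ≃+* L} {v : HeightOneSpectrum (𝓞 L)} (h : Inert σ v) (l : L) :
    v.valuation L (σ l) = v.valuation L l := by
  obtain ⟨n, d, hd, rfl⟩ := IsFractionRing.div_surjective (A := 𝓞 L) l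
  rw [map_div₀, map_div₀, map_div₀]
  congr 1
  · exact val_inv_int h n
  · exact val_inv_int h d

end inert

section cc

theorem coe_ev {F : Type u} [Field F] [NumberField F] (w : 𝓞 F) (z : E) :
    ((ev w z : 𝓞 F) : F) = ev (w : F) z := by
  simp [ev]

theorem ev_mul {R : Type*} [CommRing R] {w : R} (h : w ^ 2 + w + 1 = 0) (a b : E) :
    ev w (a * b) = ev w a * ev w b := (evH w h).map_mul a b

theorem ev_pow {R : Type*} [CommRing R] {w : R} (h : w ^ 2 + w + 1 = 0) (a : E) (n : ℕ) :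
    ev w (a ^ n) = ev w a ^ n := (evH w h).map_pow a n

theorem ev_sub {R : Type*} [CommRing R] {w : R} (h : w ^ 2 + w + 1 = 0) (a b : E) :
    ev w (a - b) = ev w a - ev w b := (evH w h).map_sub a b

theorem mem_q {F : Type u} [Field F] [NumberField F] {w : 𝓞 F} (hw : w ^ 2 + w + 1 = 0)
    (hb : Function.Bijective (ev w)) {π : E} {q : HeightOneSpectrum (𝓞 F)}
    (hq : q.asIdeal = Ideal.span {ev w π}) (z : E) : ev w z ∈ q.asIdeal ↔ π ∣ z := by
  rw [hq, Ideal.mem_span_singleton]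
  constructor
  · rintro ⟨r, hr⟩
    obtain ⟨r', rfl⟩ := hb.2 r
    rw [← ev_mul hw] at hr
    exact ⟨r', hb.1 hr⟩
  · rintro ⟨r, rfl⟩
    exact ⟨ev w r, ev_mul hw _ _⟩

theorem mem_v {F L : Type u} [Field F] [NumberField F] [Field L] [NumberField L] [Algebra F L]
    {q : HeightOneSpectrum (𝓞 F)} {v : HeightOneSpectrum (𝓞 L)}
    (ram : ∀ a : F, v.valuation L (algebraMap F L a) = q.valuation F a ^ 3) (z : 𝓞 F) :
    algebraMap (𝓞 F) (𝓞 L) z ∈ v.asIdeal ↔ z ∈ q.asIdeal := by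
  rw [← v.valuation_lt_one_iff_mem (K := L), ← q.valuation_lt_one_iff_mem (K := F)]
  change v.valuation L (algebraMap F L (z : F)) < 1 ↔ q.valuation F (z : F) < 1
  rw [ram]
  constructor
  · intro h
    by_contra hh
    rw [not_lt] at hh
    exact absurd h (not_lt.2 (one_le_pow₀ hh))
  · intro h
    exact pow_lt_one₀ (zero_le) h (by norm_num)

/-- the computation in `F`. -/
theorem algF {F : Type u} [Field F] (P Nf N2 g : F) (c e : ℕ) (γ : ℤ)
    (hP : P ≠ 0) (hN : Nf ≠ 0) :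
    (P ^ e * N2 * g ^ 3) ^ c / (P ^ c * Nf) ^ ((e : ℤ) + 3 * γ) * Nf ^ e =
      N2 ^ c * (Nf ^ (-γ) * (g / P ^ γ) ^ c) ^ 3 := by
  have h1 : (P ^ c * Nf) ^ ((e : ℤ) + 3 * γ) = (P ^ c * Nf) ^ e * ((P ^ γ) ^ c * Nf ^ γ) ^ 3 := by
    rw [zpow_add₀ (mul_ne_zero (pow_ne_zero _ hP) hN), zpow_natCast]
    congr 1
    rw [mul_comm (3 : ℤ) γ, zpow_mul]
    have : (P ^ c * Nf) ^ γ = (P ^ γ) ^ c * Nf ^ γ := by
      rw [mul_zpow, ← zpow_natCast, ← zpow_natCast, ← zpow_mul, ← zpow_mul, mul_comm (c : ℤ) γ]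
    rw [this]
    norm_cast
  have hQ : P ^ γ ≠ 0 := zpow_ne_zero _ hP
  have hK : Nf ^ γ ≠ 0 := zpow_ne_zero _ hN
  rw [h1, zpow_neg]
  generalize P ^ γ = Q at *
  generalize Nf ^ γ = K at *
  simp only [mul_pow, div_pow]
  field_simp
  ring

theorem exists_exp {K : Type u} [Field K] [NumberField K] (v : HeightOneSpectrum (𝓞 K)) {a : K}
    (ha : a ≠ 0) : ∃ n : ℤ, v.valuation K a = exp n := by
  have h : v.valuation K a ≠ 0 := (Valuation.ne_zero_iff _).2 ha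
  exact ⟨log (v.valuation K a), (exp_log h).symm⟩

theorem unit_rep {K : Type u} [Field K] [NumberField K] (v : HeightOneSpectrum (𝓞 K)) {a : K}
    (ha : v.valuation K a = 1) : ∃ n d : 𝓞 K, n ∉ v.asIdeal ∧ d ∉ v.asIdeal ∧
      a * (d : K) = n := by
  obtain ⟨n, d, hnd⟩ := v.exists_primeCompl_mul_eq_of_integer a ha.le
  have hd : (d : 𝓞 K) ∉ v.asIdeal := d.2
  refine ⟨n, d, ?_, hd, hnd⟩
  rw [← v.valuation_eq_one_iff_notMem (K := K)] at hd ⊢
  rw [← hnd, map_mul, ha, hd, one_mul]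

end cc

end ITam

set_option maxHeartbeats 1000000 in
theorem pr_Tam (h1 : StIso.{u}) (h3 : StInd) : StTam.{u} := by
  intro F L _ _ _ _ _ w x σ M hC π N N'' c e q v hπ hc hM hN hN2 R δ g hδ hg hno
  obtain ⟨hb, -, -⟩ := h1 F w hC.hF hC.hw
  obtain ⟨-, imul, icon, -, -, hpr⟩ := h3 π hπ
  have hwF : (w : F) ^ 2 + (w : F) + 1 = 0 := by exact_mod_cast congrArg (algebraMap (𝓞 F) F) hC.hw
  have hnot : ∀ z : E, ¬ π ∣ z → ev w z ∉ q.asIdeal := fun z hz h =>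
    hz ((ITam.mem_q hC.hw hb R.qs z).1 h)
  have q1 : ∀ z : E, ¬ π ∣ z → q.valuation F (ev (w : F) z) = 1 := by
    intro z hz
    have := (q.valuation_eq_one_iff_notMem (K := F)).2 (hnot z hz)
    rw [← ITam.coe_ev]
    exact this
  have hπ0 : π ≠ 0 := hpr.ne_zero
  have evπ : ev w π ≠ 0 := by
    intro h
    apply hπ0
    apply hb.1
    rw [h]
    simp [ev]
  have qπ : q.valuation F (ev (w : F) π) = exp (-1 : ℤ) := by
    rw [← ITam.coe_ev]
    have := q.intValuation_singleton evπ R.qs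
    rw [← q.valuation_of_algebraMap (K := F)] at this
    exact this
  have nz1 : ∀ z : E, ¬ π ∣ z → ev (w : F) z ≠ 0 := by
    intro z hz h
    have := q1 z hz
    rw [h, map_zero] at this
    exact zero_ne_one this
  have nzπ : ev (w : F) π ≠ 0 := by
    intro h
    rw [h, map_zero] at qπ
    exact exp_ne_zero qπ.symm
  -- valuations
  have hin := R.inr
  have vσ : ∀ l : L, v.valuation L (σ l) = v.valuation L l := fun l => ITam.val_inv hin l
  obtain ⟨γ, hγ⟩ := ITam.exists_exp q hg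
  obtain ⟨m, hm⟩ := ITam.exists_exp v hδ
  -- notation
  have hwL : (algebraMap F L (w : F)) ^ 3 = 1 := by
    have : (w : F) ^ 3 = 1 := by linear_combination ((w : F) - 1) * hwF
    rw [← map_pow, this, map_one]
  set P : F := ev (w : F) π with hP
  set Nf : F := ev (w : F) N with hNf
  set G : F := ev (w : F) N'' with hG
  have nN : Nf ≠ 0 := nz1 N hN
  have nG : G ≠ 0 := nz1 N'' hN2
  have eM : ev (w : F) M = P ^ c * Nf := by
    rw [hM, ITam.ev_mul hwF, ITam.ev_pow hwF]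
  have ea : ev (w : F) (π ^ e * N'') * g ^ 3 = P ^ e * G * g ^ 3 := by
    rw [ITam.ev_mul hwF, ITam.ev_pow hwF]
  rw [ea] at hno
  -- the value of `δ`
  have hval : m = -(e : ℤ) + 3 * γ := by
    have h5 := congrArg (v.valuation L) hno
    rw [map_mul, map_mul, vσ, vσ, vσ, R.ram, map_mul, map_mul, map_pow, map_pow, qπ, q1 N'' hN2,
      hγ, hm, ← exp_add, ← exp_add, mul_one, ← exp_nsmul, ← exp_nsmul, ← exp_add, ← exp_nsmul] at h5
    have h6 := exp_injective h5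
    simp only [nsmul_eq_mul] at h6
    push_cast at h6
    linarith
  have x0 : (x : L) ≠ 0 := by
    intro h
    have := R.vx
    rw [h, map_zero] at this
    exact exp_ne_zero this.symm
  obtain ⟨γ', rfl⟩ : ∃ γ' : ℤ, γ = -γ' := ⟨-γ, by ring⟩
  have hval' : m = -((e : ℤ) + 3 * γ') := by rw [hval]; ring
  obtain ⟨ε, hε⟩ : ∃ ε : L, ε = δ ^ c / (x : L) ^ ((e : ℤ) + 3 * γ') := ⟨_, rfl⟩
  have vε : v.valuation L ε = 1 := by
    rw [hε, map_div₀, map_pow, map_zpow₀, hm, R.vx, ← exp_nsmul, ← exp_zsmul, ← exp_sub, hval',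
      ← exp_zero]
    congr 1
    simp only [nsmul_eq_mul, smul_eq_mul]
    ring
  obtain ⟨n1, d1, hn1, hd1, hnd1⟩ := ITam.unit_rep v vε
  obtain ⟨h, hh⟩ : ∃ h : F, h = Nf ^ (-γ') * (g / P ^ γ') ^ c := ⟨_, rfl⟩
  have qh : q.valuation F h = 1 := by
    rw [hh, map_mul, map_zpow₀, q1 N hN, one_zpow, one_mul, map_pow, map_div₀, hγ, map_zpow₀, qπ,
      ← exp_zsmul, ← exp_sub, ← exp_nsmul, ← exp_zero]
    congr 1
    simp only [nsmul_eq_mul, smul_eq_mul]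
    ring
  obtain ⟨nh, dh, hnh, hdh, hndh⟩ := ITam.unit_rep q qh
  -- the norm of `ε`
  have sx : σ (x : L) = algebraMap F L (w : F) * (x : L) := hC.hσ
  have ssx : σ (σ (x : L)) = algebraMap F L (w : F) * (algebraMap F L (w : F) * (x : L)) := by
    rw [sx, map_mul, AlgEquiv.commutes, sx]
  have xxx : (x : L) * σ (x : L) * σ (σ (x : L)) = algebraMap F L (P ^ c * Nf) := by
    rw [ssx, sx, ← eM, ← hC.hx]
    linear_combination (x : L) ^ 3 * hwL
  have nε : ε * σ ε * σ (σ ε) = algebraMap F L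
      ((P ^ e * G * g ^ 3) ^ c / (P ^ c * Nf) ^ ((e : ℤ) + 3 * γ')) := by
    rw [hε, map_div₀ (algebraMap F L), map_pow, map_zpow₀, ← hno, ← xxx]
    simp only [map_div₀, map_pow, map_zpow₀]
    rw [mul_pow, mul_pow, mul_zpow, mul_zpow]
    ring
  have key := ITam.algF P Nf G g c e γ' nzπ nN
  rw [← hh] at key
  -- integral form of the norm equation
  obtain ⟨τ, hτ⟩ : ∃ τ : 𝓞 L ≃+* 𝓞 L, τ = RingOfIntegers.mapRingEquiv (σ : L ≃+* L) := ⟨_, rfl⟩
  have cτ : ∀ y : 𝓞 L, ((τ y : 𝓞 L) : L) = σ (y : L) := by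
    intro y; rw [hτ]; rfl
  have e1 : σ ε * σ (d1 : L) = σ (n1 : L) := by rw [← map_mul, hnd1]
  have e2 : σ (σ ε) * σ (σ (d1 : L)) = σ (σ (n1 : L)) := by rw [← map_mul, e1]
  obtain ⟨U1, hU1⟩ : ∃ U1 : 𝓞 L, U1 = algebraMap (𝓞 F) (𝓞 L) (ev w N'' ^ c * nh ^ 3) := ⟨_, rfl⟩
  obtain ⟨U2, hU2⟩ : ∃ U2 : 𝓞 L, U2 = algebraMap (𝓞 F) (𝓞 L) (ev w N ^ e * dh ^ 3) := ⟨_, rfl⟩
  have hLo : U1 * (d1 * τ d1 * τ (τ d1)) = (n1 * τ n1 * τ (τ n1)) * U2 := by
    apply RingOfIntegers.ext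
    have a1 : (U1 : L) = algebraMap F L (G ^ c * (nh : F) ^ 3) := by
      rw [hU1, hG, ← ITam.coe_ev]
      rfl
    have a2 : (U2 : L) = algebraMap F L (Nf ^ e * (dh : F) ^ 3) := by
      rw [hU2, hNf, ← ITam.coe_ev]
      rfl
    have a3 : G ^ c * (nh : F) ^ 3 = (P ^ e * G * g ^ 3) ^ c /
        (P ^ c * Nf) ^ ((e : ℤ) + 3 * γ') * (Nf ^ e * (dh : F) ^ 3) := by
      rw [← mul_assoc, key, ← hndh]; ring
    have a4 : ((U1 * (d1 * τ d1 * τ (τ d1)) : 𝓞 L) : L) =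
        (U1 : L) * ((d1 : L) * σ (d1 : L) * σ (σ (d1 : L))) := by
      rw [← cτ, ← cτ]; rfl
    have a5 : ((n1 * τ n1 * τ (τ n1) * U2 : 𝓞 L) : L) =
        ((n1 : L) * σ (n1 : L) * σ (σ (n1 : L))) * (U2 : L) := by
      rw [← cτ, ← cτ]; rfl
    rw [a4, a5, a1, a2, a3, map_mul, ← nε, ← e2, ← e1, ← hnd1]
    ring
  obtain ⟨zd, hzd⟩ := R.res d1
  obtain ⟨zn, hzn⟩ := R.res n1
  have φτ : ∀ y : 𝓞 L, Ideal.Quotient.mk v.asIdeal (τ y) = Ideal.Quotient.mk v.asIdeal y := by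
    intro y
    rw [Ideal.Quotient.eq, hτ]
    exact hin y _ rfl
  have φd : Ideal.Quotient.mk v.asIdeal d1 =
      Ideal.Quotient.mk v.asIdeal (algebraMap (𝓞 F) (𝓞 L) zd) := by
    rw [Ideal.Quotient.eq]; exact hzd
  have φn : Ideal.Quotient.mk v.asIdeal n1 =
      Ideal.Quotient.mk v.asIdeal (algebraMap (𝓞 F) (𝓞 L) zn) := by
    rw [Ideal.Quotient.eq]; exact hzn
  have hφ := congrArg (Ideal.Quotient.mk v.asIdeal) hLo
  simp only [map_mul, φτ, φd, φn, hU1, hU2] at hφ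
  have hφ2 : Ideal.Quotient.mk v.asIdeal (algebraMap (𝓞 F) (𝓞 L)
      (ev w N'' ^ c * nh ^ 3 * zd ^ 3)) = Ideal.Quotient.mk v.asIdeal (algebraMap (𝓞 F) (𝓞 L)
      (zn ^ 3 * (ev w N ^ e * dh ^ 3))) := by
    simp only [map_mul, map_pow] at hφ ⊢
    linear_combination hφ
  rw [Ideal.Quotient.eq, ← map_sub, ITam.mem_v R.ram] at hφ2
  have hzd' : zd ∉ q.asIdeal := by
    intro h'
    rw [← ITam.mem_v R.ram] at h'
    exact hd1 (by simpa using v.asIdeal.add_mem hzd h')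
  have hzn' : zn ∉ q.asIdeal := by
    intro h'
    rw [← ITam.mem_v R.ram] at h'
    exact hn1 (by simpa using v.asIdeal.add_mem hzn h')
  obtain ⟨Zd, rfl⟩ := hb.2 zd
  obtain ⟨Zn, rfl⟩ := hb.2 zn
  obtain ⟨H1, rfl⟩ := hb.2 nh
  obtain ⟨H2, rfl⟩ := hb.2 dh
  rw [ITam.mem_q hC.hw hb R.qs] at hzd' hzn' hnh hdh
  have hdiv : π ∣ (N'' ^ c * H1 ^ 3 * Zd ^ 3) - (Zn ^ 3 * (N ^ e * H2 ^ 3)) := by
    rw [← ITam.mem_q hC.hw hb R.qs]
    simpa only [ITam.ev_sub hC.hw, ITam.ev_mul hC.hw, ITam.ev_pow hC.hw] using hφ2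
  have pnd : ∀ (z : E) (n : ℕ), ¬ π ∣ z → ¬ π ∣ z ^ n := fun z n hz h' => hz (hpr.dvd_of_dvd_pow h')
  have mnd : ∀ z z' : E, ¬ π ∣ z → ¬ π ∣ z' → ¬ π ∣ z * z' := fun z z' hz hz' h' =>
    (hpr.dvd_or_dvd h').elim hz hz'
  have i1 : ind π 1 = 0 := by
    have h1' : ¬ π ∣ (1 : E) := fun h' => hpr.not_isUnit (isUnit_of_dvd_one h')
    have := imul 1 1 h1' h1'
    rw [mul_one] at this
    simpa using this
  have ipow : ∀ (z : E) (n : ℕ), ¬ π ∣ z → ind π (z ^ n) = n * ind π z := by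
    intro z n hz
    induction n with
    | zero => simp [i1]
    | succ k ih =>
      rw [pow_succ, imul _ _ (pnd z k hz) hz, ih]
      push_cast
      ring
  have hfin := icon _ _ hdiv
  rw [imul _ _ (mnd _ _ (pnd _ _ hN2) (pnd _ _ hnh)) (pnd _ _ hzd'),
    imul _ _ (pnd _ _ hN2) (pnd _ _ hnh), imul _ _ (pnd _ _ hzn') (mnd _ _ (pnd _ _ hN) (pnd _ _ hdh)),
    imul _ _ (pnd _ _ hN) (pnd _ _ hdh), ipow _ _ hN2, ipow _ _ hnh, ipow _ _ hzd', ipow _ _ hzn',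
    ipow _ _ hN, ipow _ _ hdh] at hfin
  have h30 : ((3 : ℕ) : ZMod 3) = 0 := by decide
  rw [h30] at hfin
  linear_combination hfin


end Pool.Agent.Work.MP_59f3ad_nt.Q3
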