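import Mathlib
import Pool.Agent.Work.MP_59f3ad_nt.Q3.StmtsR

/-!
Block Q3, item Bil: the bilinear estimate (Hoelder, duality, representation of the sixth power).
-/

open NumberField IsDedekindDomain

namespace Pool.Agent.Work.MP_59f3ad_nt.Q3

namespace IBil

theorem e3_add (a b : ZMod 3) : e3 (a + b) = e3 a * e3 b := by
  unfold e3
  rw [← Complex.exp_add]
  obtain ⟨k, hk⟩ : ∃ k : ℕ, a.val + b.val = (a + b).val + 3 * k := by
    refine ⟨(a.val + b.val) / 3, ?_⟩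
    rw [ZMod.val_add]
    exact (Nat.mod_add_div _ _).symm
  have hk' : ((a.val : ℂ) + b.val) = (a + b).val + 3 * k := by exact_mod_cast hk
  have h2 : 2 * (Real.pi : ℂ) * Complex.I * ((a.val : ℂ) / 3) +
      2 * (Real.pi : ℂ) * Complex.I * ((b.val : ℂ) / 3) =
      2 * (Real.pi : ℂ) * Complex.I * (((a + b).val : ℂ) / 3) +
        ((k : ℤ) : ℂ) * (2 * (Real.pi : ℂ) * Complex.I) := by
    push_cast
    linear_combination (2 * (Real.pi : ℂ) * Complex.I / 3) * hk'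
  rw [h2, Complex.exp_add, Complex.exp_int_mul_two_pi_mul_I, mul_one]

theorem e3_zero : e3 0 = 1 := by
  unfold e3
  simp

theorem chi_mul (h1 : StInd) (π : E) (hπ : PP π) (z z' : E) : chi π (z * z') = chi π z * chi π z' := by
  obtain ⟨_, hm, _, _, _, hp⟩ := h1 π hπ
  unfold chi
  by_cases hz : π ∣ z
  · rw [if_pos hz, if_pos (hz.mul_right z'), zero_mul]
  · by_cases hz' : π ∣ z'
    · rw [if_pos hz', if_pos (hz'.mul_left z), mul_zero]
    · have hzz : ¬ π ∣ z * z' := fun h => (hp.dvd_or_dvd h).elim hz hz'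
      rw [if_neg hz, if_neg hz', if_neg hzz, hm z z' hz hz', e3_add]

theorem chi_one (h1 : StInd) (π : E) (hπ : PP π) : chi π 1 = 1 := by
  obtain ⟨_, hm, _, _, _, hp⟩ := h1 π hπ
  have h1' : ¬ π ∣ 1 := fun h => hp.not_isUnit (isUnit_of_dvd_one h)
  have h0 : ind π 1 = 0 := by
    have := hm 1 1 h1' h1'
    rw [mul_one] at this
    have h2 : ind π 1 + 0 = ind π 1 + ind π 1 := by rw [add_zero]; exact this
    exact (add_left_cancel h2).symm
  unfold chi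
  rw [if_neg h1', h0, e3_zero]

theorem chi_prod (h1 : StInd) (π : E) (hπ : PP π) (n : ℕ) (v : Fin n → E) :
    chi π (∏ i, v i) = ∏ i, chi π (v i) := by
  induction n with
  | zero => simpa using chi_one h1 π hπ
  | succ n ih =>
    rw [Fin.prod_univ_castSucc, Fin.prod_univ_castSucc, chi_mul h1 π hπ, ih]

/-- the coefficients of the sixth power -/
noncomputable def cc (P' : Finset E) (β : E → ℂ) (z : E) : ℂ :=
  ∑ v ∈ (Fintype.piFinset (fun _ : Fin 6 => P')).filter (fun v => ∏ i, v i = z), ∏ i, β (v i)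

theorem six (h1 : StInd) (π : E) (hπ : PP π) (P' : Finset E) (e : ℕ) (β : E → ℂ) (B : ℕ)
    (hB : ∀ v ∈ Fintype.piFinset (fun _ : Fin 6 => P'), ∏ i, v i ∈ bx B) :
    (∑ π' ∈ P', β π' * chi π π' ^ e) ^ 6 = ∑ z ∈ bx B, cc P' β z * chi π z ^ e := by
  have h2 : (∑ π' ∈ P', β π' * chi π π' ^ e) ^ 6 =
      ∏ _i : Fin 6, ∑ π' ∈ P', β π' * chi π π' ^ e := by
    rw [Finset.prod_const, Finset.card_univ, Fintype.card_fin]
  rw [h2, Finset.prod_univ_sum, ← Finset.sum_fiberwise_of_maps_to hB]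
  apply Finset.sum_congr rfl
  intro z _
  unfold cc
  rw [Finset.sum_mul]
  apply Finset.sum_congr rfl
  intro v hv
  rw [Finset.mem_filter] at hv
  rw [Finset.prod_mul_distrib, Finset.prod_pow, ← chi_prod h1 π hπ, hv.2]

end IBil

theorem pr_Bil (h1 : StInd) (h2 : StDua) (h3 : StRep) : StBil := by
  intro X P P' hP hP' e he α β hα hβ
  obtain ⟨hB, hc⟩ := h3 X P' hP' β hβ
  have hd := h2 X (10 * X ^ 3) P hP e he (IBil.cc P' β)
  set A : E → ℂ := fun π => ∑ π' ∈ P', β π' * chi π π' ^ e with hA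
  have hS : ‖∑ π ∈ P, ∑ π' ∈ P', α π * β π' * chi π π' ^ e‖ ≤ ∑ π ∈ P, ‖A π‖ := by
    refine (norm_sum_le _ _).trans (Finset.sum_le_sum fun π _ => ?_)
    have : ∑ π' ∈ P', α π * β π' * chi π π' ^ e = α π * A π := by
      rw [hA, Finset.mul_sum]
      exact Finset.sum_congr rfl fun _ _ => by ring
    rw [this, norm_mul]
    calc ‖α π‖ * ‖A π‖ ≤ 1 * ‖A π‖ := mul_le_mul_of_nonneg_right (hα π) (norm_nonneg _)
      _ = ‖A π‖ := one_mul _
  have hH : (∑ π ∈ P, ‖A π‖) ^ 12 ≤ (P.card : ℝ) ^ 11 * ∑ π ∈ P, ‖A π‖ ^ 12 := by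
    exact pow_sum_le_card_mul_sum_pow (fun _ _ => norm_nonneg _) 11
  have h6 : ∀ π ∈ P, ‖A π‖ ^ 12 = ‖∑ z ∈ bx (10 * X ^ 3), IBil.cc P' β z * chi π z ^ e‖ ^ 2 := by
    intro π hπ
    rw [← IBil.six h1 π (hP π hπ).1 P' e β (10 * X ^ 3) hB, norm_pow, ← pow_mul]
  rw [Finset.sum_congr rfl h6] at hH
  have hΔ : (0 : ℝ) ≤ (2 * ((10 * X ^ 3 : ℕ) : ℝ) + 1) ^ 2 +
      P.card * (2 * (2 * ((10 * X ^ 3 : ℕ) : ℝ) + 1) * (2 * (X : ℝ)) ^ 2) := by positivity
  calc ‖∑ π ∈ P, ∑ π' ∈ P', α π * β π' * chi π π' ^ e‖ ^ 12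
      ≤ (∑ π ∈ P, ‖A π‖) ^ 12 := pow_le_pow_left₀ (norm_nonneg _) hS _
    _ ≤ _ := hH
    _ ≤ _ := mul_le_mul_of_nonneg_left (hd.trans (mul_le_mul_of_nonneg_left hc hΔ)) (by positivity)

end Pool.Agent.Work.MP_59f3ad_nt.Q3
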