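import Mathlib
import Pool.Agent.Work.MP_59f3ad_nt.Q3.StmtsR

/-!
Block Q3, item Blt: the bilinear estimate in the limit (note 4644, Step 11).
-/

namespace Pool.Agent.Work.MP_59f3ad_nt.Q3

namespace IBlt

theorem nm_mul (z z' : E) : nm (z * z') = nm z * nm z' := by
  unfold nm
  rw [← Int.natAbs_mul]
  congr 1
  rw [QuadraticAlgebra.re_mul, QuadraticAlgebra.im_mul]
  ring

theorem nm_cast (z : E) : ((nm z : ℕ) : ℤ) = z.re ^ 2 - z.re * z.im + z.im ^ 2 := by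
  unfold nm
  rw [Int.natCast_natAbs]
  have h0 : 0 ≤ z.re ^ 2 - z.re * z.im + z.im ^ 2 := by
    nlinarith [sq_nonneg (z.re - z.im), sq_nonneg z.re, sq_nonneg z.im, sq_nonneg (z.re + z.im)]
  exact abs_of_nonneg h0

theorem eq_of_dvd {π π' : E} (h : PP π) (h' : PP π') (hd : π ∣ π') : π' = π := by
  obtain ⟨ε, rfl⟩ := hd
  have h1 : nm π * nm ε = nm (π * ε) := (nm_mul π ε).symm
  have hp := h.pr
  have hp' := h'.pr
  have h2 : nm ε = 1 := by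
    have h3 : nm π ∣ nm (π * ε) := ⟨nm ε, h1.symm⟩
    have h4 := (Nat.prime_dvd_prime_iff_eq hp hp').mp h3
    rw [← h4] at h1
    exact Nat.eq_of_mul_eq_mul_left hp.pos (by rw [h1, mul_one])
  have h3 : ε.re ^ 2 - ε.re * ε.im + ε.im ^ 2 = 1 := by
    rw [← nm_cast, h2]
    rfl
  obtain ⟨a, ha⟩ := h.re
  obtain ⟨b, hb⟩ := h.im
  obtain ⟨a', ha'⟩ := h'.re
  obtain ⟨b', hb'⟩ := h'.im
  rw [QuadraticAlgebra.re_mul] at ha'
  rw [QuadraticAlgebra.im_mul] at hb'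
  have e1 : π.re = 3 * a + 1 := by linarith
  rw [e1, hb] at ha' hb'
  have e2 : (3 : ℤ) ∣ ε.re - 1 := ⟨a' - a * ε.re + b * ε.im, by linarith⟩
  have e3' : (3 : ℤ) ∣ ε.im := ⟨b' - a * ε.im - b * ε.re + b * ε.im, by linarith⟩
  obtain ⟨u, hu⟩ := e2
  obtain ⟨v, hv⟩ := e3'
  have hv0 : v = 0 := by
    have e4 : (2 * ε.re - ε.im) ^ 2 + 3 * ε.im ^ 2 = 4 := by linarith
    rw [hv] at e4
    have e5 : v ^ 2 < 1 := by nlinarith [sq_nonneg (2 * ε.re - 3 * v)]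
    have e6 : v ^ 2 = 0 := le_antisymm (by linarith) (sq_nonneg v)
    exact pow_eq_zero_iff (two_ne_zero) |>.mp e6
  rw [hv0, mul_zero] at hv
  rw [hv] at h3
  have e7 : ε.re = 3 * u + 1 := by linarith
  rw [e7] at h3
  have hu0 : u = 0 := by
    have e8 : u * (3 * u + 2) = 0 := by linarith
    rcases mul_eq_zero.mp e8 with h9 | h9
    · exact h9
    · omega
  have e10 : ε = 1 := by
    apply QuadraticAlgebra.ext
    · rw [e7, hu0, QuadraticAlgebra.re_one]; norm_num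
    · rw [hv, QuadraticAlgebra.im_one]
  rw [e10, mul_one]

/-- The third root of unity. -/
noncomputable def zt : ℂ := Complex.exp (2 * (Real.pi : ℂ) * Complex.I / 3)

theorem zt3 : zt ^ 3 = 1 := by
  unfold zt
  rw [← Complex.exp_nat_mul]
  have e : ((3 : ℕ) : ℂ) * (2 * (Real.pi : ℂ) * Complex.I / 3) = 2 * (Real.pi : ℂ) * Complex.I := by
    push_cast
    ring
  rw [e, Complex.exp_two_pi_mul_I]

theorem e3_eq (j : ZMod 3) : e3 j = zt ^ j.val := by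
  unfold e3 zt
  rw [← Complex.exp_nat_mul]
  congr 1
  ring

theorem zt_mod (n : ℕ) : zt ^ (n % 3) = zt ^ n := by
  conv_rhs => rw [← Nat.div_add_mod n 3, pow_add, pow_mul, zt3, one_pow, one_mul]

theorem e3_mul (e j : ZMod 3) : e3 (e * j) = e3 j ^ e.val := by
  rw [e3_eq, e3_eq, ZMod.val_mul, zt_mod, ← pow_mul, mul_comm]

theorem e3_norm (j : ZMod 3) : ‖e3 j‖ = 1 := by
  unfold e3
  rw [Complex.norm_exp]
  have e : (2 * (Real.pi : ℂ) * Complex.I * ((j.val : ℂ) / 3)).re = 0 := by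
    have e1 : 2 * (Real.pi : ℂ) * Complex.I * ((j.val : ℂ) / 3) =
        ((2 * Real.pi * ((j.val : ℝ) / 3) : ℝ) : ℂ) * Complex.I := by
      push_cast
      ring
    rw [e1, Complex.re_ofReal_mul, Complex.I_re, mul_zero]
  rw [e, Real.exp_zero]

theorem diff_one {π π' : E} (e : ZMod 3) (he : e ≠ 0) (h : π ∣ π') :
    ‖e3 (e * ind π π') - chi π π' ^ e.val‖ = 1 := by
  have h1 : e.val ≠ 0 := fun h2 => he ((ZMod.val_eq_zero e).mp h2)
  unfold chi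
  rw [if_pos h, zero_pow h1, sub_zero, e3_norm]

theorem diff_zero {π π' : E} (e : ZMod 3) (h : ¬ π ∣ π') :
    ‖e3 (e * ind π π') - chi π π' ^ e.val‖ = 0 := by
  unfold chi
  rw [if_neg h, e3_mul, sub_self, norm_zero]

theorem arith (δ : ℝ) (hδ : 0 < δ) (Y p p' s : ℝ) (hY : 1 ≤ Y) (hp : Y ^ 19 ≤ p)
    (hp' : Y ^ 19 ≤ p') (hT : 438480 ≤ δ ^ 12 * Y)
    (hs : s ^ 12 ≤ p ^ 11 * (((2 * (10 * (Y ^ 20) ^ 3) + 1) ^ 2 +
      p * (2 * (2 * (10 * (Y ^ 20) ^ 3) + 1) * (2 * (Y ^ 20)) ^ 2)) * (720 * p' ^ 6))) :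
    s ≤ δ * (p * p') := by
  have hY0 : 0 < Y := by linarith
  have hY19 : 0 < Y ^ 19 := by positivity
  have hp0 : 0 < p := lt_of_lt_of_le hY19 hp
  have hp0' : 0 < p' := lt_of_lt_of_le hY19 hp'
  have a1 : 1 ≤ Y ^ 60 := one_le_pow₀ hY
  have a2 : (2 * (10 * (Y ^ 20) ^ 3) + 1) ^ 2 ≤ 441 * Y ^ 120 := by
    have b1 : 2 * (10 * (Y ^ 20) ^ 3) + 1 ≤ 21 * Y ^ 60 := by
      have : (Y ^ 20) ^ 3 = Y ^ 60 := by ring
      rw [this]
      linarith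
    have b2 : (2 * (10 * (Y ^ 20) ^ 3) + 1) ^ 2 ≤ (21 * Y ^ 60) ^ 2 :=
      pow_le_pow_left₀ (by positivity) b1 2
    calc (2 * (10 * (Y ^ 20) ^ 3) + 1) ^ 2 ≤ (21 * Y ^ 60) ^ 2 := b2
      _ = 441 * Y ^ 120 := by ring
  have a3 : 2 * (2 * (10 * (Y ^ 20) ^ 3) + 1) * (2 * (Y ^ 20)) ^ 2 ≤ 168 * Y ^ 100 := by
    have b1 : 2 * (10 * (Y ^ 20) ^ 3) + 1 ≤ 21 * Y ^ 60 := by
      have : (Y ^ 20) ^ 3 = Y ^ 60 := by ring
      rw [this]
      linarith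
    have b2 : 2 * (2 * (10 * (Y ^ 20) ^ 3) + 1) * (2 * (Y ^ 20)) ^ 2 ≤
        2 * (21 * Y ^ 60) * (2 * (Y ^ 20)) ^ 2 := by gcongr
    calc _ ≤ _ := b2
      _ = 168 * Y ^ 100 := by ring
  have a4 : Y ^ 114 ≤ p' ^ 6 := by
    calc Y ^ 114 = (Y ^ 19) ^ 6 := by ring
      _ ≤ p' ^ 6 := pow_le_pow_left₀ hY19.le hp' 6
  have a5 : Y ^ 133 ≤ p * p' ^ 6 := by
    calc Y ^ 133 = Y ^ 19 * Y ^ 114 := by ring
      _ ≤ p * p' ^ 6 := mul_le_mul hp a4 (by positivity) hp0.le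
  have a6 : Y ^ 120 * Y ≤ p * p' ^ 6 := by
    calc Y ^ 120 * Y = Y ^ 121 := by ring
      _ ≤ Y ^ 133 := pow_le_pow_right₀ hY (by norm_num)
      _ ≤ _ := a5
  have a7 : Y ^ 100 * Y ≤ p' ^ 6 := by
    calc Y ^ 100 * Y = Y ^ 101 := by ring
      _ ≤ Y ^ 114 := pow_le_pow_right₀ hY (by norm_num)
      _ ≤ _ := a4
  have a8 : ((2 * (10 * (Y ^ 20) ^ 3) + 1) ^ 2 +
      p * (2 * (2 * (10 * (Y ^ 20) ^ 3) + 1) * (2 * (Y ^ 20)) ^ 2)) * Y ≤ 609 * (p * p' ^ 6) := by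
    have b1 : (2 * (10 * (Y ^ 20) ^ 3) + 1) ^ 2 * Y ≤ 441 * (p * p' ^ 6) := by
      calc _ ≤ 441 * Y ^ 120 * Y := mul_le_mul_of_nonneg_right a2 hY0.le
        _ = 441 * (Y ^ 120 * Y) := by ring
        _ ≤ _ := mul_le_mul_of_nonneg_left a6 (by norm_num)
    have b2 : p * (2 * (2 * (10 * (Y ^ 20) ^ 3) + 1) * (2 * (Y ^ 20)) ^ 2) * Y ≤
        168 * (p * p' ^ 6) := by
      calc p * (2 * (2 * (10 * (Y ^ 20) ^ 3) + 1) * (2 * (Y ^ 20)) ^ 2) * Y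
          ≤ p * (168 * Y ^ 100) * Y :=
            mul_le_mul_of_nonneg_right (mul_le_mul_of_nonneg_left a3 hp0.le) hY0.le
        _ = 168 * (p * (Y ^ 100 * Y)) := by ring
        _ ≤ 168 * (p * p' ^ 6) := by gcongr
    calc _ = (2 * (10 * (Y ^ 20) ^ 3) + 1) ^ 2 * Y +
        p * (2 * (2 * (10 * (Y ^ 20) ^ 3) + 1) * (2 * (Y ^ 20)) ^ 2) * Y := by ring
      _ ≤ _ := by linarith
  have a9 : s ^ 12 * Y ≤ 438480 * (p * p') ^ 12 := by
    calc s ^ 12 * Y ≤ p ^ 11 * (((2 * (10 * (Y ^ 20) ^ 3) + 1) ^ 2 +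
          p * (2 * (2 * (10 * (Y ^ 20) ^ 3) + 1) * (2 * (Y ^ 20)) ^ 2)) * (720 * p' ^ 6)) * Y :=
            mul_le_mul_of_nonneg_right hs hY0.le
      _ = p ^ 11 * (720 * p' ^ 6) * (((2 * (10 * (Y ^ 20) ^ 3) + 1) ^ 2 +
          p * (2 * (2 * (10 * (Y ^ 20) ^ 3) + 1) * (2 * (Y ^ 20)) ^ 2)) * Y) := by ring
      _ ≤ p ^ 11 * (720 * p' ^ 6) * (609 * (p * p' ^ 6)) :=
            mul_le_mul_of_nonneg_left a8 (by positivity)
      _ = 438480 * (p * p') ^ 12 := by ring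
  have a10 : s ^ 12 ≤ (δ * (p * p')) ^ 12 := by
    have b1 : s ^ 12 * Y ≤ (δ * (p * p')) ^ 12 * Y := by
      calc s ^ 12 * Y ≤ 438480 * (p * p') ^ 12 := a9
        _ ≤ δ ^ 12 * Y * (p * p') ^ 12 := mul_le_mul_of_nonneg_right hT (by positivity)
        _ = (δ * (p * p')) ^ 12 * Y := by ring
    exact le_of_mul_le_mul_right b1 hY0
  exact le_of_pow_le_pow_left₀ (by norm_num) (by positivity) a10

end IBlt

/-- The bilinear sum over two large sets of primary primes is small. -/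
theorem pr_Blt (h1 : StBil) : StBlt := by
  classical
  intro δ hδ
  obtain ⟨T, hT1, hT2, hT3⟩ : ∃ T : ℝ, 1 ≤ T ∧ 438480 ≤ (δ / 2) ^ 12 * T ∧ 1 ≤ δ / 2 * T := by
    have hd : 0 < δ / 2 := by positivity
    have hd12 : 0 < (δ / 2) ^ 12 := by positivity
    refine ⟨1 + 438480 / (δ / 2) ^ 12 + 1 / (δ / 2), ?_, ?_, ?_⟩
    · have : 0 ≤ 438480 / (δ / 2) ^ 12 := by positivity
      have : 0 ≤ 1 / (δ / 2) := by positivity
      linarith
    · have e1 : (δ / 2) ^ 12 * (438480 / (δ / 2) ^ 12) = 438480 := mul_div_cancel₀ _ hd12.ne'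
      have e2 : 0 ≤ (δ / 2) ^ 12 * (1 + 1 / (δ / 2)) := by positivity
      calc (438480 : ℝ) = (δ / 2) ^ 12 * (438480 / (δ / 2) ^ 12) := e1.symm
        _ ≤ (δ / 2) ^ 12 * (438480 / (δ / 2) ^ 12) + (δ / 2) ^ 12 * (1 + 1 / (δ / 2)) := by
          linarith
        _ = _ := by ring
    · have e1 : δ / 2 * (1 / (δ / 2)) = 1 := mul_div_cancel₀ _ hd.ne'
      have e2 : 0 ≤ δ / 2 * (1 + 438480 / (δ / 2) ^ 12) := by positivity
      calc (1 : ℝ) = δ / 2 * (1 / (δ / 2)) := e1.symm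
        _ ≤ δ / 2 * (1 / (δ / 2)) + δ / 2 * (1 + 438480 / (δ / 2) ^ 12) := by linarith
        _ = _ := by ring
  refine ⟨⌈T ^ 20⌉₊, ?_⟩
  intro X hX P P' hP hP' hcP hcP' e he α β hα hβ
  have hX1 : T ^ 20 ≤ (X : ℝ) := (Nat.le_ceil _).trans (by exact_mod_cast hX)
  have hX0 : (0 : ℝ) ≤ X := Nat.cast_nonneg X
  obtain ⟨Y, hY⟩ : ∃ Y : ℝ, Y = (X : ℝ) ^ (1 / 20 : ℝ) := ⟨_, rfl⟩
  have hY20 : Y ^ 20 = X := by
    rw [hY, ← Real.rpow_natCast, ← Real.rpow_mul hX0]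
    norm_num
  have hY19 : Y ^ 19 = (X : ℝ) ^ (19 / 20 : ℝ) := by
    rw [hY, ← Real.rpow_natCast, ← Real.rpow_mul hX0]
    norm_num
  have hYn : 0 ≤ Y := by rw [hY]; exact Real.rpow_nonneg hX0 _
  have hTY : T ≤ Y := by
    have e1 : T ^ 20 ≤ Y ^ 20 := by rw [hY20]; exact hX1
    exact le_of_pow_le_pow_left₀ (by norm_num) hYn e1
  have hY1 : 1 ≤ Y := hT1.trans hTY
  rw [← hY19] at hcP hcP'
  have hev : e.val = 1 ∨ e.val = 2 := by
    have e1 : e.val ≠ 0 := fun h2 => he ((ZMod.val_eq_zero e).mp h2)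
    have e2 : e.val < 3 := ZMod.val_lt e
    omega
  have hB := h1 X P P' hP hP' e.val hev α β hα hβ
  have hcast : (((10 * X ^ 3 : ℕ) : ℝ)) = 10 * (Y ^ 20) ^ 3 := by
    rw [hY20]
    push_cast
    ring
  rw [hcast, ← hY20] at hB
  have hS' : ‖∑ π ∈ P, ∑ π' ∈ P', α π * β π' * chi π π' ^ e.val‖ ≤
      δ / 2 * ((P.card : ℝ) * P'.card) := by
    refine IBlt.arith (δ / 2) (by positivity) Y _ _ _ hY1 hcP hcP' ?_ hB
    exact hT2.trans (mul_le_mul_of_nonneg_left hTY (by positivity))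
  have hD : ‖∑ π ∈ P, ∑ π' ∈ P', α π * β π' * e3 (e * ind π π') -
      ∑ π ∈ P, ∑ π' ∈ P', α π * β π' * chi π π' ^ e.val‖ ≤ P.card := by
    rw [← Finset.sum_sub_distrib]
    calc ‖∑ π ∈ P, (∑ π' ∈ P', α π * β π' * e3 (e * ind π π') -
          ∑ π' ∈ P', α π * β π' * chi π π' ^ e.val)‖
        ≤ ∑ π ∈ P, ‖∑ π' ∈ P', α π * β π' * e3 (e * ind π π') -
          ∑ π' ∈ P', α π * β π' * chi π π' ^ e.val‖ := norm_sum_le _ _
      _ ≤ ∑ π ∈ P, (1 : ℝ) := by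
          refine Finset.sum_le_sum fun π hπ => ?_
          rw [← Finset.sum_sub_distrib]
          calc ‖∑ π' ∈ P', (α π * β π' * e3 (e * ind π π') - α π * β π' * chi π π' ^ e.val)‖
              ≤ ∑ π' ∈ P', ‖α π * β π' * e3 (e * ind π π') - α π * β π' * chi π π' ^ e.val‖ :=
                norm_sum_le _ _
            _ ≤ ∑ π' ∈ P', (if π' = π then (1 : ℝ) else 0) := by
                refine Finset.sum_le_sum fun π' hπ' => ?_
                rw [← mul_sub, norm_mul, norm_mul]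
                have e2 : ‖α π‖ * ‖β π'‖ ≤ 1 :=
                  mul_le_one₀ (hα π) (norm_nonneg _) (hβ π')
                by_cases h : π ∣ π'
                · rw [IBlt.diff_one e he h, mul_one,
                    if_pos (IBlt.eq_of_dvd (hP π hπ).1 (hP' π' hπ').1 h)]
                  exact e2
                · rw [IBlt.diff_zero e h, mul_zero]
                  split_ifs <;> norm_num
            _ ≤ 1 := by
                rw [Finset.sum_ite_eq']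
                split_ifs <;> norm_num
      _ = P.card := by simp
  have hP1 : (P.card : ℝ) ≤ δ / 2 * ((P.card : ℝ) * P'.card) := by
    have e1 : T ≤ P'.card := by
      calc T ≤ Y := hTY
        _ = Y ^ 1 := (pow_one Y).symm
        _ ≤ Y ^ 19 := pow_le_pow_right₀ hY1 (by norm_num)
        _ ≤ _ := hcP'
    have e2 : 1 ≤ δ / 2 * (P'.card : ℝ) :=
      hT3.trans (mul_le_mul_of_nonneg_left e1 (by positivity))
    calc (P.card : ℝ) = P.card * 1 := (mul_one _).symm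
      _ ≤ P.card * (δ / 2 * (P'.card : ℝ)) := mul_le_mul_of_nonneg_left e2 (Nat.cast_nonneg _)
      _ = _ := by ring
  calc ‖∑ π ∈ P, ∑ π' ∈ P', α π * β π' * e3 (e * ind π π')‖
      = ‖(∑ π ∈ P, ∑ π' ∈ P', α π * β π' * e3 (e * ind π π') -
        ∑ π ∈ P, ∑ π' ∈ P', α π * β π' * chi π π' ^ e.val) +
        ∑ π ∈ P, ∑ π' ∈ P', α π * β π' * chi π π' ^ e.val‖ := by rw [sub_add_cancel]
    _ ≤ _ := norm_add_le _ _
    _ ≤ δ / 2 * ((P.card : ℝ) * P'.card) + δ / 2 * ((P.card : ℝ) * P'.card) :=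
        add_le_add (hD.trans hP1) hS'
    _ = δ * (P.card * P'.card) := by ring

end Pool.Agent.Work.MP_59f3ad_nt.Q3
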