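import Mathlib
import Pool.Agent.Work.MP_59f3ad_nt.Q3.StmtsR

/-!
# Item Box: incomplete sums of products of two cubic characters
-/

open NumberField IsDedekindDomain

namespace Pool.Agent.Work.MP_59f3ad_nt.Q3

namespace IBox

theorem shift1 {h : ℤ → ℂ} {q : ℕ} (hp : ∀ a, h (a + q) = h a) (c : ℤ) :
    ∑ i ∈ Finset.range q, h (c + 1 + i) = ∑ i ∈ Finset.range q, h (c + i) := by
  have h1 := Finset.sum_range_succ (fun i : ℕ => h (c + i)) q
  have h2 := Finset.sum_range_succ' (fun i : ℕ => h (c + i)) q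
  have h3 : h (c + (q : ℤ)) = h (c + ((0 : ℕ) : ℤ)) := by
    rw [hp]
    simp
  have h4 : ∑ i ∈ Finset.range q, h (c + 1 + i) =
      ∑ i ∈ Finset.range q, h (c + ((i + 1 : ℕ) : ℤ)) := by
    refine Finset.sum_congr rfl fun i _ => ?_
    congr 1
    push_cast
    ring
  rw [h4]
  have h5 := h1.symm.trans h2
  rw [h3] at h5
  exact (add_right_cancel h5).symm

theorem shift {h : ℤ → ℂ} {q : ℕ} (hp : ∀ a, h (a + q) = h a) (c : ℤ) :
    ∑ i ∈ Finset.range q, h (c + i) = ∑ i ∈ Finset.range q, h i := by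
  induction c using Int.induction_on with
  | zero => simp
  | succ k ih => rw [shift1 hp, ih]
  | pred k ih =>
    rw [← ih, ← shift1 hp (-k - 1)]
    refine Finset.sum_congr rfl fun i _ => ?_
    congr 1
    ring

theorem per {g : ℕ → ℂ} {q : ℕ} (hp : ∀ i, g (i + q) = g i) (s i : ℕ) : g (q * s + i) = g i := by
  induction s with
  | zero => simp
  | succ s ih =>
    rw [← ih, ← hp (q * s + i)]
    congr 1
    ring

theorem mult {g : ℕ → ℂ} {q : ℕ} (hp : ∀ i, g (i + q) = g i) (s : ℕ) :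
    ∑ i ∈ Finset.range (q * s), g i = s * ∑ i ∈ Finset.range q, g i := by
  induction s with
  | zero => simp
  | succ s ih =>
    rw [mul_add_one, Finset.sum_range_add, ih]
    have h1 : ∑ i ∈ Finset.range q, g (q * s + i) = ∑ i ∈ Finset.range q, g i :=
      Finset.sum_congr rfl fun i _ => per hp s i
    rw [h1]
    push_cast
    ring

theorem nsum {g : ℕ → ℂ} {C : ℝ} (m : ℕ) (h : ∀ i, ‖g i‖ ≤ C) :
    ‖∑ i ∈ Finset.range m, g i‖ ≤ m * C := by
  refine (norm_sum_le_of_le _ fun i _ => h i).trans ?_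
  rw [Finset.sum_const, Finset.card_range, nsmul_eq_mul]

/-- the estimate for a doubly periodic function on `ℕ × ℕ` -/
theorem box {F : ℕ → ℕ → ℂ} {q : ℕ} (hq : 0 < q) (h1 : ∀ i j, F (i + q) j = F i j)
    (h2 : ∀ i j, F i (j + q) = F i j) (h0 : ∑ i ∈ Finset.range q, ∑ j ∈ Finset.range q, F i j = 0)
    (hb : ∀ i j, ‖F i j‖ ≤ 1) (N : ℕ) :
    ‖∑ i ∈ Finset.range N, ∑ j ∈ Finset.range N, F i j‖ ≤ 2 * N * q := by
  set s := N / q
  set r := N % q
  have hN : N = q * s + r := (Nat.div_add_mod N q).symm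
  have hr : r ≤ q := (Nat.mod_lt N hq).le
  have e1 : ∑ i ∈ Finset.range N, ∑ j ∈ Finset.range N, F i j =
      ∑ i ∈ Finset.range (q * s), ∑ j ∈ Finset.range r, F i (q * s + j) +
        ∑ i ∈ Finset.range r, ∑ j ∈ Finset.range N, F (q * s + i) j := by
    have e2 : ∑ i ∈ Finset.range N, ∑ j ∈ Finset.range N, F i j =
        ∑ i ∈ Finset.range (q * s), ∑ j ∈ Finset.range N, F i j +
          ∑ i ∈ Finset.range r, ∑ j ∈ Finset.range N, F (q * s + i) j := by
      conv_lhs => rw [show Finset.range N = Finset.range (q * s + r) by rw [← hN]]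
      rw [Finset.sum_range_add, ← hN]
    have e3 : ∀ i, ∑ j ∈ Finset.range N, F i j =
        s * ∑ j ∈ Finset.range q, F i j + ∑ j ∈ Finset.range r, F i (q * s + j) := by
      intro i
      rw [← mult (g := F i) (h2 i) s, ← Finset.sum_range_add, ← hN]
    have e4 : ∑ i ∈ Finset.range (q * s), ∑ j ∈ Finset.range q, F i j = 0 := by
      rw [mult (g := fun i => ∑ j ∈ Finset.range q, F i j) (fun i => by simp only [h1]) s, h0,
        mul_zero]
    rw [e2]
    congr 1
    rw [Finset.sum_congr rfl fun i _ => e3 i, Finset.sum_add_distrib, ← Finset.mul_sum, e4,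
      mul_zero, zero_add]
  have b1 : ‖∑ i ∈ Finset.range (q * s), ∑ j ∈ Finset.range r, F i (q * s + j)‖ ≤
      ((q * s : ℕ) : ℝ) * (r * 1) :=
    nsum _ fun i => nsum (g := fun j => F i (q * s + j)) _ fun j => hb _ _
  have b2 : ‖∑ i ∈ Finset.range r, ∑ j ∈ Finset.range N, F (q * s + i) j‖ ≤ (r : ℝ) * (N * 1) :=
    nsum _ fun i => nsum (g := fun j => F (q * s + i) j) _ fun j => hb _ _
  rw [e1]
  refine (norm_add_le _ _).trans ((add_le_add b1 b2).trans ?_)
  have hr' : (r : ℝ) ≤ q := by exact_mod_cast hr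
  have hqs : ((q * s : ℕ) : ℝ) ≤ N := by
    exact_mod_cast (by omega : q * s ≤ N)
  have hN0 : (0 : ℝ) ≤ N := Nat.cast_nonneg N
  have hr0 : (0 : ℝ) ≤ r := Nat.cast_nonneg r
  have c1 : ((q * s : ℕ) : ℝ) * (r * 1) ≤ N * q := by
    rw [mul_one]
    exact mul_le_mul hqs hr' hr0 hN0
  have c2 : (r : ℝ) * (N * 1) ≤ N * q := by
    rw [mul_one, mul_comm]
    exact mul_le_mul_of_nonneg_left hr' hN0
  linarith

theorem chi_norm (π z : E) : ‖chi π z‖ ≤ 1 := by
  unfold chi
  split_ifs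
  · simp
  · unfold e3
    rw [show 2 * (Real.pi : ℂ) * Complex.I * (((ind π z).val : ℂ) / 3) =
      ((2 * Real.pi * ((ind π z).val / 3) : ℝ) : ℂ) * Complex.I by push_cast; ring]
    rw [Complex.norm_exp_ofReal_mul_I]

theorem sum_Icc (B : ℕ) (g : ℤ → ℂ) :
    ∑ a ∈ Finset.Icc (-(B : ℤ)) B, g a = ∑ i ∈ Finset.range (2 * B + 1), g (-(B : ℤ) + i) := by
  refine Finset.sum_nbij' (fun a => (a + B).toNat) (fun i : ℕ => -(B : ℤ) + i) ?_ ?_ ?_ ?_ ?_
  · intro a ha
    rw [Finset.mem_Icc] at ha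
    rw [Finset.mem_range]
    omega
  · intro i hi
    rw [Finset.mem_range] at hi
    rw [Finset.mem_Icc]
    omega
  · intro a ha
    rw [Finset.mem_Icc] at ha
    omega
  · intro i hi
    omega
  · intro a ha
    rw [Finset.mem_Icc] at ha
    congr 1
    omega

theorem mk_add (q : ℕ) (z z' : E) : z + ((q : ℕ) : E) * z' = ⟨z.re + q * z'.re, z.im + q * z'.im⟩ := by
  ext
  · simp [QuadraticAlgebra.re_mul]
  · simp [QuadraticAlgebra.im_mul]

end IBox

open IBox in
theorem pr_Box (h1 : StPer) : StBox := by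
  intro π π1 hπ hπ1 hne e he B
  obtain ⟨h0, hper⟩ := h1 π π1 hπ hπ1 hne e he
  set q : ℕ := nm π * nm π1 with hqdef
  have hq : 0 < q := Nat.mul_pos hπ.pr.pos hπ1.pr.pos
  set f : ℤ → ℤ → ℂ := fun a b =>
    chi π ⟨a, b⟩ ^ e * (starRingEnd ℂ) (chi π1 ⟨a, b⟩ ^ e) with hf
  have hf1 : ∀ a b, f (a + q) b = f a b := by
    intro a b
    obtain ⟨e1, e2⟩ := hper ⟨a, b⟩ ⟨1, 0⟩
    rw [mk_add] at e1 e2
    simp only [mul_one, mul_zero, add_zero] at e1 e2
    simp only [hf, e1, e2]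
  have hf2 : ∀ a b, f a (b + q) = f a b := by
    intro a b
    obtain ⟨e1, e2⟩ := hper ⟨a, b⟩ ⟨0, 1⟩
    rw [mk_add] at e1 e2
    simp only [mul_one, mul_zero, add_zero] at e1 e2
    simp only [hf, e1, e2]
  have hb : ∀ a b, ‖f a b‖ ≤ 1 := by
    intro a b
    simp only [hf]
    rw [norm_mul, RCLike.norm_conj, norm_pow, norm_pow]
    exact mul_le_one₀ (pow_le_one₀ (norm_nonneg _) (chi_norm _ _)) (by positivity)
      (pow_le_one₀ (norm_nonneg _) (chi_norm _ _))
  have e1 : ∑ z ∈ bx B, chi π z ^ e * (starRingEnd ℂ) (chi π1 z ^ e) =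
      ∑ i ∈ Finset.range (2 * B + 1), ∑ j ∈ Finset.range (2 * B + 1),
        f (-(B : ℤ) + i) (-(B : ℤ) + j) := by
    unfold bx
    rw [Finset.sum_image, Finset.sum_product, sum_Icc]
    · refine Finset.sum_congr rfl fun i _ => ?_
      rw [sum_Icc]
    · intro p _ p' _ h
      have h3 := congrArg QuadraticAlgebra.re h
      have h4 := congrArg QuadraticAlgebra.im h
      exact Prod.ext h3 h4
  rw [e1]
  have h5 : ∑ i ∈ Finset.range q, ∑ j ∈ Finset.range q, f (-(B : ℤ) + i) (-(B : ℤ) + j) = 0 := by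
    have h6 : ∀ i : ℕ, ∑ j ∈ Finset.range q, f (-(B : ℤ) + i) (-(B : ℤ) + j) =
        ∑ j ∈ Finset.range q, f (-(B : ℤ) + i) j := fun i => shift (hf2 _) _
    rw [Finset.sum_congr rfl fun i _ => h6 i,
      shift (h := fun a => ∑ j ∈ Finset.range q, f a j) (fun a => by simp only [hf1])]
    exact h0
  have h7 := box (F := fun i j => f (-(B : ℤ) + i) (-(B : ℤ) + j)) hq
    (fun i j => by
      rw [← hf1 (-(B : ℤ) + i)]
      congr 1
      push_cast
      ring)
    (fun i j => by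
      rw [← hf2 _ (-(B : ℤ) + j)]
      congr 1
      push_cast
      ring) h5 (fun i j => hb _ _) (2 * B + 1)
  refine h7.trans (le_of_eq ?_)
  rw [hqdef]
  push_cast
  ring

end Pool.Agent.Work.MP_59f3ad_nt.Q3
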