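import Mathlib
import Pool.Agent.Work.MP_59f3ad_nt.Q3.StmtsG

/-!
Item CFG of block Q3: the field `F = ℚ(w)` inside `L` and the automorphism `σ` (helper79).
-/

set_option autoImplicit false

open NumberField IsDedekindDomain Polynomial

namespace Pool.Agent.Work.MP_59f3ad_nt.Q3

universe u

namespace ICfg

/-- The automorphism `x ↦ ω x` of a cubic extension generated by a cube root. -/
theorem exists_sigma {F L : Type*} [Field F] [CharZero F] [Field L] [Algebra F L]
    (h3 : Module.finrank F L = 3) (m ω : F) (x : L) (hω : ω ^ 2 + ω + 1 = 0)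
    (hx : x ^ 3 = algebraMap F L m) (hm : ∀ b : F, b ^ 3 ≠ m) :
    ∃ σ : L ≃ₐ[F] L, σ x = algebraMap F L ω * x ∧
      ∀ y : L, σ y = y → ∃ z : F, y = algebraMap F L z := by
  have hfd : FiniteDimensional F L := Module.finite_of_finrank_pos (by omega)
  have hso : IsSimpleOrder (Subalgebra F L) :=
    Subalgebra.isSimpleOrder_of_finrank_prime F L (by rw [h3]; exact Nat.prime_three)
  have hω3 : ω ^ 3 = 1 := by linear_combination (ω - 1) * hω
  have hω1 : ω ≠ 1 := by
    rintro rfl
    norm_num at hω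
  have hbot : ∀ y : L, y ∈ (⊥ : Subalgebra F L) → ∃ z : F, y = algebraMap F L z := by
    intro y hy
    obtain ⟨z, hz⟩ := Algebra.mem_bot.1 hy
    exact ⟨z, hz.symm⟩
  have hxb : ∀ z : F, x ≠ algebraMap F L z := by
    intro z hz
    refine hm z ((algebraMap F L).injective ?_)
    rw [← hx, hz, map_pow]
  have hint : IsIntegral F x := IsIntegral.of_finite F x
  have hadj : Algebra.adjoin F {x} = ⊤ := by
    rcases hso.eq_bot_or_eq_top (Algebra.adjoin F {x}) with h | h
    · obtain ⟨z, hz⟩ := hbot x (h ▸ Algebra.subset_adjoin (Set.mem_singleton x))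
      exact absurd hz (hxb z)
    · exact h
  have hirr : Irreducible (X ^ 3 - C m : F[X]) :=
    X_pow_sub_C_irreducible_of_prime Nat.prime_three hm
  have hmin : (X ^ 3 - C m : F[X]) = minpoly F x := by
    refine minpoly.eq_of_irreducible_of_monic hirr ?_ (monic_X_pow_sub_C m (by norm_num))
    rw [map_sub, map_pow, aeval_X, aeval_C, hx, sub_self]
  let pb : PowerBasis F L := PowerBasis.ofAdjoinEqTop' hint hadj
  have hgen : pb.gen = x := PowerBasis.ofAdjoinEqTop'_gen hint hadj
  have haev : aeval (algebraMap F L ω * x) (minpoly F pb.gen) = 0 := by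
    rw [hgen, ← hmin, map_sub, map_pow, aeval_X, aeval_C, mul_pow, ← map_pow, hω3, map_one,
      one_mul, hx, sub_self]
  let σ0 : L →ₐ[F] L := pb.lift (algebraMap F L ω * x) haev
  have hσ0 : σ0 x = algebraMap F L ω * x := by
    have h := pb.lift_gen (algebraMap F L ω * x) haev
    rw [hgen] at h
    exact h
  refine ⟨AlgEquiv.ofBijective σ0 (AlgHom.bijective σ0), hσ0, ?_⟩
  intro y hy
  have hy' : σ0 y = y := hy
  rcases hso.eq_bot_or_eq_top (AlgHom.equalizer σ0 (AlgHom.id F L)) with h | h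
  · refine hbot y ?_
    rw [← h]
    exact hy'
  · have h1 : x ∈ AlgHom.equalizer σ0 (AlgHom.id F L) := by rw [h]; trivial
    have h2 : σ0 x = x := h1
    rw [hσ0] at h2
    have h4 : (algebraMap F L ω - 1) * x = 0 := by linear_combination h2
    exfalso
    rcases mul_eq_zero.1 h4 with h5 | h5
    · refine hω1 ((algebraMap F L).injective ?_)
      rw [map_one]
      exact sub_eq_zero.1 h5
    · refine hm 0 ((algebraMap F L).injective ?_)
      rw [← hx, h5, map_pow, map_zero]

section
variable {L : Type*} [Field L] [CharZero L]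

/-- `w` is not rational. -/
theorem not_rat (w : L) (hw : w ^ 2 + w + 1 = 0) (q : ℚ) : w ≠ (q : L) := by
  rintro rfl
  have h : ((q ^ 2 + q + 1 : ℚ) : L) = 0 := by
    push_cast
    exact hw
  rw [Rat.cast_eq_zero] at h
  nlinarith [sq_nonneg (2 * q + 1)]

/-- `ev w` is injective. -/
theorem ev_inj (w : L) (hw : w ^ 2 + w + 1 = 0) (z : E) (h : ev w z = 0) : z = 0 := by
  unfold ev at h
  have him : z.im = 0 := by
    by_contra hne
    have hne' : (z.im : L) ≠ 0 := by exact_mod_cast hne
    refine not_rat w hw (-(z.re : ℚ) / z.im) ?_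
    push_cast
    field_simp
    linear_combination h
  rw [him] at h
  have hre : z.re = 0 := by
    have h1 : (z.re : L) = 0 := by
      rw [Int.cast_zero, zero_mul, add_zero] at h
      exact h
    exact_mod_cast h1
  exact QuadraticAlgebra.ext (by rw [hre]; rfl) (by rw [him]; rfl)

theorem clear (w y : L) (a b : ℚ) (hy : y = (a : L) + (b : L) * w) :
    ∃ z d : E, d ≠ 0 ∧ y * ev w d = ev w z := by
  refine ⟨⟨a.num * b.den, b.num * a.den⟩, ⟨a.den * b.den, 0⟩, ?_, ?_⟩
  · intro h
    have h1 := congrArg QuadraticAlgebra.re h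
    have h2 : ((a.den : ℤ) * (b.den : ℤ)) = 0 := h1
    have h3 := a.den_pos
    have h4 := b.den_pos
    have h5 : (0 : ℤ) < (a.den : ℤ) * (b.den : ℤ) := by positivity
    omega
  · have ha : (a : L) * (a.den : L) = (a.num : L) := by
      have h := Rat.mul_den_eq_num a
      exact_mod_cast congrArg (fun q : ℚ => (q : L)) h
    have hb : (b : L) * (b.den : L) = (b.num : L) := by
      have h := Rat.mul_den_eq_num b
      exact_mod_cast congrArg (fun q : ℚ => (q : L)) h
    rw [hy]
    unfold ev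
    push_cast
    linear_combination (b.den : L) * ha + w * (a.den : L) * hb

end

theorem form_aux {L : Type*} [Field L] [CharZero L] [Algebra ℚ L] (w : L)
    (hw : w ^ 2 + w + 1 = 0) (y : L) (hy : y ∈ Algebra.adjoin ℚ ({w} : Set L)) :
    ∃ a b : ℚ, y = (a : L) + (b : L) * w := by
  induction hy using Algebra.adjoin_induction with
  | mem x hx =>
    rw [Set.mem_singleton_iff.1 hx]
    exact ⟨0, 1, by simp⟩
  | algebraMap r => exact ⟨r, 0, by simp⟩
  | add x y _ _ hx hy =>
    obtain ⟨a, b, rfl⟩ := hx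
    obtain ⟨c, d, rfl⟩ := hy
    exact ⟨a + c, b + d, by push_cast; ring⟩
  | mul x y _ _ hx hy =>
    obtain ⟨a, b, rfl⟩ := hx
    obtain ⟨c, d, rfl⟩ := hy
    refine ⟨a * c - b * d, a * d + b * c - b * d, ?_⟩
    push_cast
    linear_combination (b : L) * d * hw

theorem form {L : Type*} [Field L] [CharZero L] [Algebra ℚ L] (w : L)
    (hw : w ^ 2 + w + 1 = 0) (y : L)
    (hy : y ∈ IntermediateField.adjoin ℚ ({w} : Set L)) :
    ∃ a b : ℚ, y = (a : L) + (b : L) * w := by
  have halg : IsAlgebraic ℚ w := ⟨X ^ 2 + X + 1, by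
    intro h
    have := congrArg (fun p : ℚ[X] => p.coeff 0) h
    simp at this, by simp [hw]⟩
  refine form_aux w hw y ?_
  rw [← IntermediateField.adjoin_simple_toSubalgebra_of_isAlgebraic halg]
  exact hy

theorem ev_map {R S : Type*} [CommRing R] [CommRing S] (f : R →+* S) (w : R) (z : E) :
    f (ev w z) = ev (f w) z := by
  unfold ev
  rw [map_add, map_mul, map_intCast, map_intCast]

theorem prim {L : Type*} [Field L] [CharZero L] (w : L) (hw : w ^ 2 + w + 1 = 0) :
    IsPrimitiveRoot w 3 := by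
  have h3 : w ^ 3 = 1 := by linear_combination (w - 1) * hw
  have h1 : w ≠ 1 := by
    rintro rfl
    norm_num at hw
  have : Fact (Nat.Prime 3) := ⟨Nat.prime_three⟩
  exact IsPrimitiveRoot.iff_orderOf.2 (orderOf_eq_prime h3 h1)

end ICfg

open ICfg in
theorem pr_Cfg : StCfg.{u} := by
  intro L _ _ w x M hw hx h6 hM
  have hprim : IsPrimitiveRoot w 3 := prim w hw
  have hint : IsIntegral ℚ w := (hprim.isIntegral (by norm_num)).tower_top
  have hK2 : Module.finrank ℚ (IntermediateField.adjoin ℚ ({w} : Set L)) = 2 := by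
    rw [IntermediateField.adjoin.finrank hint, ← cyclotomic_eq_minpoly_rat hprim (by norm_num),
      natDegree_cyclotomic]
    decide
  have hwm : w ∈ IntermediateField.adjoin ℚ ({w} : Set L) :=
    IntermediateField.mem_adjoin_simple_self ℚ w
  have hfm := form w hw
  generalize hKd : IntermediateField.adjoin ℚ ({w} : Set L) = K at hK2 hwm hfm
  have hKL : Module.finrank K L = 3 := by
    have h := Module.finrank_mul_finrank ℚ K L
    rw [hK2, h6] at h
    omega
  have hωK : (⟨w, hwm⟩ : K) ^ 2 + ⟨w, hwm⟩ + 1 = 0 := Subtype.ext hw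
  have hev : ∀ z : E, algebraMap K L (ev (⟨w, hwm⟩ : K) z) = ev w z := fun z =>
    ev_map (algebraMap K L) _ z
  have hm : ∀ b : K, b ^ 3 ≠ ev (⟨w, hwm⟩ : K) M := by
    intro b hb
    obtain ⟨a, c, hac⟩ := hfm b b.2
    obtain ⟨z, d, hd, hzd⟩ := clear w (b : L) a c hac
    refine hM z d hd (sub_eq_zero.1 (ev_inj w hw _ ?_))
    have h1 : (b : L) ^ 3 = ev w M := by
      rw [← hev M, ← hb]
      rfl
    have h2 : ev w (M * d ^ 3 - z ^ 3) = ev w M * ev w d ^ 3 - ev w z ^ 3 := by
      rw [← evH_apply w hw, ← evH_apply w hw, ← evH_apply w hw, ← evH_apply w hw, map_sub,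
        map_mul, map_pow, map_pow]
    rw [h2, ← h1, ← hzd]
    ring
  obtain ⟨σ, hσ, hfix⟩ := exists_sigma hKL (ev (⟨w, hwm⟩ : K) M) ⟨w, hwm⟩ x hωK
    (by rw [hev, hx]) hm
  have hNF : NumberField K := NumberField.of_intermediateField K
  have hwi : IsIntegral ℤ (⟨w, hwm⟩ : K) := by
    refine ⟨X ^ 2 + X + 1, ?_, ?_⟩
    · monicity!
    · simpa using hωK
  have hxi : IsIntegral ℤ x := by
    refine IsIntegral.of_pow (n := 3) (by norm_num) ?_
    rw [hx]
    have h : IsIntegral ℤ w := hprim.isIntegral (by norm_num)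
    exact (isIntegral_algebraMap (R := ℤ) (A := L) (x := M.re)).add
      ((isIntegral_algebraMap (R := ℤ) (A := L) (x := M.im)).mul h)
  refine ⟨K, inferInstance, inferInstance, inferInstance, ⟨⟨w, hwm⟩, hwi⟩, ⟨x, hxi⟩, σ,
    ⟨?_, ?_, hKL, ?_, hσ, hfix, fun h0 => hM 0 1 one_ne_zero (by rw [h0]; simp)⟩, rfl, rfl⟩
  · convert hK2
  · exact RingOfIntegers.ext hωK
  · change x ^ 3 = algebraMap K L (ev (⟨w, hwm⟩ : K) M)
    rw [hev, hx]

end Pool.Agent.Work.MP_59f3ad_nt.Q3
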