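import Mathlib
import Pool.Agent.Work.MP_59f3ad_nt.Q3.StmtsC

/-!
# Block Q3, item CHN: the abstract form of Step 7
-/

namespace Pool.Agent.Work.MP_59f3ad_nt.Q3

universe u

namespace IChn

/-- Compactness: a function which is a coboundary modulo every `3^m` is a coboundary. -/
theorem compact (G : Type u) (ψ χ : G → ℤ_[3])
    (h : ∀ m : ℕ, ∃ x : ℤ_[3], ∀ g, (3 : ℤ_[3]) ^ m ∣ ψ g - χ g * x) :
    ∃ x : ℤ_[3], ∀ g, ψ g = χ g * x := by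
  have hnorm : ∀ (m : ℕ) (a : ℤ_[3]), (3 : ℤ_[3]) ^ m ∣ a ↔ ‖a‖ ≤ ((3 : ℕ) : ℝ) ^ (-m : ℤ) := by
    intro m a
    have h3 : (3 : ℤ_[3]) = ((3 : ℕ) : ℤ_[3]) := by norm_cast
    rw [h3, PadicInt.norm_le_pow_iff_mem_span_pow, Ideal.mem_span_singleton]
  let C : ℕ → Set ℤ_[3] := fun m => {x | ∀ g, (3 : ℤ_[3]) ^ m ∣ ψ g - χ g * x}
  have hclosed1 : ∀ m : ℕ, IsClosed {a : ℤ_[3] | (3 : ℤ_[3]) ^ m ∣ a} := by
    intro m
    have h1 : {a : ℤ_[3] | (3 : ℤ_[3]) ^ m ∣ a} =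
        {a : ℤ_[3] | ‖a‖ ≤ ((3 : ℕ) : ℝ) ^ (-m : ℤ)} := by
      ext a
      exact hnorm m a
    rw [h1]
    exact isClosed_le continuous_norm continuous_const
  have hclosed : ∀ m, IsClosed (C m) := by
    intro m
    have h1 : C m = ⋂ g, (fun x => ψ g - χ g * x) ⁻¹' {a : ℤ_[3] | (3 : ℤ_[3]) ^ m ∣ a} := by
      ext x
      simp [C]
    rw [h1]
    refine isClosed_iInter fun g => (hclosed1 m).preimage ?_
    exact continuous_const.sub (continuous_const.mul continuous_id)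
  obtain ⟨x, hx⟩ := IsCompact.nonempty_iInter_of_sequence_nonempty_isCompact_isClosed C
    (fun m x hx g => (pow_dvd_pow _ (Nat.le_succ m)).trans (hx g)) (fun m => h m)
    (hclosed 0).isCompact hclosed
  refine ⟨x, fun g => ?_⟩
  rw [Set.mem_iInter] at hx
  rw [← sub_eq_zero]
  by_contra hne
  have h1 : ∀ m : ℕ, ‖ψ g - χ g * x‖ ≤ ((3 : ℕ) : ℝ) ^ (-m : ℤ) := fun m =>
    (hnorm m _).1 (hx m g)
  have h2 : 0 < ‖ψ g - χ g * x‖ := norm_pos_iff.mpr hne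
  obtain ⟨k, hk⟩ := PadicInt.exists_pow_neg_lt 3 h2
  exact absurd (h1 k) (not_le.mpr hk)

/-- Iteration of the division by `3`. -/
theorem iter (G : Type u) (tw : G → ℤ_[3]) (P : (G → ℤ_[3]) → Prop)
    (hP : ∀ φ, P φ → ∃ ψ, P ψ ∧ ∃ y : ℤ_[3], ∀ g, φ g = 3 * ψ g + (tw g - 1) * y)
    (φ : G → ℤ_[3]) (hφ : P φ) : ∃ y : ℤ_[3], ∀ g, φ g = (tw g - 1) * y := by
  refine compact G φ (fun g => tw g - 1) fun m => ?_
  have key : ∀ m : ℕ, ∃ ψ, P ψ ∧ ∃ y : ℤ_[3], ∀ g, φ g = 3 ^ m * ψ g + (tw g - 1) * y := by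
    intro m
    induction m with
    | zero => exact ⟨φ, hφ, 0, fun g => by ring⟩
    | succ m ih =>
      obtain ⟨ψ, hψ, y, hy⟩ := ih
      obtain ⟨ψ', hψ', y', hy'⟩ := hP ψ hψ
      refine ⟨ψ', hψ', y + 3 ^ m * y', fun g => ?_⟩
      rw [hy g, hy' g]
      ring
  obtain ⟨ψ, -, y, hy⟩ := key m
  refine ⟨y, fun g => ⟨ψ g, ?_⟩⟩
  rw [hy g]
  ring

theorem three_ne : (3 : ℤ_[3]) ≠ 0 := by norm_num

end IChn

open IChn

theorem pr_Chn : StChn.{u} := by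
  intro G tw κ A h1 h2 h3 h4 h5 h6 h7 h8
  -- invariant elements are coboundaries
  have hi : ∀ φ ∈ A, (∀ g, φ (κ g) = φ g) → ∃ y : ℤ_[3], ∀ g, φ g = (tw g - 1) * y := by
    intro φ hφ hT
    refine iter G tw (fun φ => φ ∈ A ∧ ∀ g, φ (κ g) = φ g) ?_ φ ⟨hφ, hT⟩
    rintro φ ⟨hφ, hT⟩
    obtain ⟨ψ, hψ, y, hy⟩ := h5 φ hφ (h7 φ hφ hT)
    refine ⟨ψ, ⟨hψ, fun g => ?_⟩, y, hy⟩
    have e1 := hT g
    rw [hy (κ g), hy g, h2] at e1
    exact mul_left_cancel₀ three_ne (add_right_cancel e1)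
  -- a nonzero element modulo three
  have hii : ∃ φ ∈ A, ∃ g, ¬ D3 (φ g) := by
    by_contra hcon
    obtain ⟨φ, hφ, hno⟩ := h8
    apply hno
    refine iter G tw (fun φ => φ ∈ A) ?_ φ hφ
    intro φ hφ
    refine h5 φ hφ fun g => ?_
    by_contra hg
    exact hcon ⟨φ, hφ, g, hg⟩
  obtain ⟨φ, hφ, g0, hg0⟩ := hii
  have hN : (fun g => φ g + φ (κ g) + φ (κ (κ g))) ∈ A :=
    A.add_mem (A.add_mem hφ (h3 φ hφ)) (h3 _ (h3 φ hφ))
  obtain ⟨y, hy⟩ := hi _ hN (fun g => by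
    have e1 := h4 φ hφ g
    rw [e1]
    ring)
  by_cases hc : ∃ g, ¬ D3 (φ (κ g) - φ g)
  · refine ⟨φ, hφ, hc, fun g => ?_⟩
    have e1 : φ (κ (κ g)) - 2 * φ (κ g) + φ g = (tw g - 1) * y - 3 * φ (κ g) := by
      rw [← hy g]
      ring
    rw [e1]
    exact dvd_sub ((h1 g).mul_right y) (dvd_mul_right _ _)
  · push Not at hc
    have hT : (fun g => φ (κ g) - φ g) ∈ A := A.sub_mem (h3 φ hφ) hφ
    obtain ⟨ψ, hψ, z, hz⟩ := h5 _ hT hc
    have e1 : ∀ g, 3 * (ψ (κ g) - ψ g + φ (κ g)) = (tw g - 1) * y := by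
      intro g
      have e2 := hz g
      have e3 := hz (κ g)
      rw [h2] at e3
      rw [← hy g]
      linear_combination e2 - e3
    have hm : (fun g => ψ (κ g) - ψ g + φ (κ g)) ∈ A :=
      A.add_mem (A.sub_mem (h3 ψ hψ) hψ) (h3 φ hφ)
    obtain ⟨y', hy'⟩ := h6 _ hm y e1
    have e4 : ∀ g, ψ (κ g) - ψ g + φ (κ g) = (tw g - 1) * y' := by
      intro g
      have e5 := e1 g
      rw [hy'] at e5
      refine mul_left_cancel₀ three_ne (e5.trans ?_)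
      ring
    have e6 : ∀ g, -ψ (κ (κ (κ g))) + ψ (κ (κ g)) = φ g - (tw g - 1) * y' := by
      intro g
      have e7 := e4 (κ (κ g))
      rw [h2, h2, h4 φ hφ g] at e7
      linear_combination -e7
    refine ⟨fun g => -ψ (κ (κ g)), A.neg_mem (h3 _ (h3 ψ hψ)), ⟨g0, fun hd => hg0 ?_⟩,
      fun g => ?_⟩
    · have e8 : φ g0 = (-ψ (κ (κ (κ g0))) - -ψ (κ (κ g0))) + (tw g0 - 1) * y' := by
        linear_combination -(e6 g0)
      rw [e8]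
      exact dvd_add hd ((h1 g0).mul_right y')
    · have e9 : -ψ (κ (κ (κ (κ g)))) - 2 * -ψ (κ (κ (κ g))) + -ψ (κ (κ g)) =
          φ (κ g) - φ g := by
        have e10 := e6 g
        have e11 := e6 (κ g)
        rw [h2] at e11
        linear_combination e11 - e10
      rw [e9]
      exact hc g

end Pool.Agent.Work.MP_59f3ad_nt.Q3
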