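import Mathlib
import Pool.Agent.Work.MP_59f3ad_nt.Q3.StmtsR

/-!
Block Q3, item Chr: the cubic character with values in `ℤ[ω]`.
-/

open NumberField IsDedekindDomain

namespace Pool.Agent.Work.MP_59f3ad_nt.Q3

namespace IChr

/-- `ω` -/
def om : E := ⟨0, 1⟩

theorem om_sq : om ^ 2 = ⟨-1, -1⟩ := by
  rw [pow_two]
  ext <;> simp [om]

theorem om_cube : om ^ 3 = 1 := by
  rw [pow_succ, om_sq]
  ext <;> simp [om, QuadraticAlgebra.re_one, QuadraticAlgebra.im_one]

theorem om_pow_add (a b : ZMod 3) : om ^ (a + b).val = om ^ a.val * om ^ b.val := by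
  rw [← pow_add, ZMod.val_add]
  conv_rhs => rw [← Nat.div_add_mod (a.val + b.val) 3, pow_add, pow_mul, om_cube, one_pow, one_mul]

end IChr

theorem pr_Chr (h1 : StRho) (h2 : StInd) : StChr := by
  intro π hπ
  obtain ⟨hrho, hdvd, -, hge, -⟩ := h1 π hπ
  obtain ⟨-, hmul, hcongr, -, -, hprime⟩ := h2 π hπ
  have : Fact (nm π).Prime := ⟨hπ.pr⟩
  have hev : ∀ n : ℕ, ev (rho π) ((n : ℕ) : E) = (n : ZMod (nm π)) := by
    intro n
    rw [← evH_apply (rho π) hrho, map_natCast]
  have hevsub : ∀ z z' : E, ev (rho π) (z - z') = ev (rho π) z - ev (rho π) z' := by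
    intro z z'
    rw [← evH_apply (rho π) hrho, ← evH_apply (rho π) hrho, ← evH_apply (rho π) hrho, map_sub]
  have hevmul : ∀ z z' : E, ev (rho π) (z * z') = ev (rho π) z * ev (rho π) z' := by
    intro z z'
    rw [← evH_apply (rho π) hrho, ← evH_apply (rho π) hrho, ← evH_apply (rho π) hrho, map_mul]
  have hval : ∀ u : ZMod (nm π), ev (rho π) ((u.val : ℕ) : E) = u := by
    intro u
    rw [hev, ZMod.natCast_zmod_val]
  have hnd : ∀ u : ZMod (nm π), u ≠ 0 → ¬ π ∣ ((u.val : ℕ) : E) := by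
    intro u hu hdv
    exact hu (by rw [← hval u]; exact (hdvd _).mpr hdv)
  have hone : ind π 1 = 0 := by
    have hn1 : ¬ π ∣ (1 : E) := fun h => hprime.not_unit (isUnit_of_dvd_one h)
    have h := hmul 1 1 hn1 hn1
    rw [mul_one] at h
    exact (left_eq_add.mp h)
  classical
  refine ⟨{
    toFun := fun u => if u = 0 then 0 else IChr.om ^ (ind π ((u.val : ℕ) : E)).val
    map_one' := ?_
    map_mul' := ?_
    map_nonunit' := ?_ }, ?_⟩
  · rw [if_neg one_ne_zero]
    have h3 : ((((1 : ZMod (nm π)).val : ℕ)) : E) = 1 := by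
      have : Fact (1 < nm π) := ⟨hπ.pr.one_lt⟩
      rw [ZMod.val_one]
      simp
    rw [h3, hone]
    simp
  · intro u v
    by_cases hu : u = 0
    · simp [hu]
    by_cases hv : v = 0
    · simp [hv]
    rw [if_neg (mul_ne_zero hu hv), if_neg hu, if_neg hv]
    have h4 : ind π (((u * v).val : ℕ) : E) =
        ind π (((u.val : ℕ) : E) * ((v.val : ℕ) : E)) := by
      refine hcongr _ _ ((hdvd _).mp ?_)
      rw [hevsub, hevmul, hval, hval, hval, sub_self]
    rw [h4, hmul _ _ (hnd u hu) (hnd v hv), IChr.om_pow_add]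
  · intro u hu
    have : u = 0 := by
      by_contra h
      exact hu (isUnit_iff_ne_zero.mpr h)
    exact if_pos this
  · intro z hz
    have hz0 : ev (rho π) z ≠ 0 := fun h => hz ((hdvd z).mp h)
    have h5 : ind π (((ev (rho π) z).val : ℕ) : E) = ind π z := by
      refine hcongr _ _ ((hdvd _).mp ?_)
      rw [hevsub, hval, sub_self]
    show (if ev (rho π) z = 0 then (0 : E)
      else IChr.om ^ (ind π (((ev (rho π) z).val : ℕ) : E)).val) = _
    rw [if_neg hz0, h5]
    rfl

end Pool.Agent.Work.MP_59f3ad_nt.Q3
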