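import Mathlib
import Pool.Agent.Work.MP_59f3ad_nt.Q3.StmtsR

/-! Item Cnh of block [59f3ad Q3] (helper15): counting the nonconstant vectors in a kernel. -/

set_option autoImplicit false

namespace Pool.Agent.Work.MP_59f3ad_nt.Q3

namespace ICnh

/-- the linear map of the statement -/
def A {t : ℕ} (c : Fin t → ℕ) (κ : Fin t → ZMod 3 × ZMod 3) :
    (Fin t → ZMod 3) →+ ZMod 3 × ZMod 3 where
  toFun h := ∑ i, (h i * (c i : ZMod 3)) • κ i
  map_zero' := by simp
  map_add' h h' := by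
    rw [← Finset.sum_add_distrib]
    refine Finset.sum_congr rfl fun i _ => ?_
    rw [Pi.add_apply, add_mul, add_smul]

theorem A_apply {t : ℕ} (c : Fin t → ℕ) (κ : Fin t → ZMod 3 × ZMod 3) (h : Fin t → ZMod 3) :
    A c κ h = ∑ i, (h i * (c i : ZMod 3)) • κ i := rfl

theorem count {t : ℕ} (c : Fin t → ℕ) (κ : Fin t → ZMod 3 × ZMod 3) (n : ℕ)
    (hn : n ≤ Nat.card (A c κ).range) :
    ((Finset.univ.filter (fun h : Fin t → ZMod 3 => (∃ i k, h i ≠ h k) ∧
      ∑ i, (h i * (c i : ZMod 3)) • κ i = 0)).card + 1) * n ≤ 3 ^ t := by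
  classical
  set K := Finset.univ.filter (fun h : Fin t → ZMod 3 => A c κ h = 0) with hK
  have h1 : Nat.card (A c κ).ker = K.card :=
    Nat.subtype_card K (fun x => by simp [hK, AddMonoidHom.mem_ker])
  have h2 : (Finset.univ.filter (fun h : Fin t → ZMod 3 => (∃ i k, h i ≠ h k) ∧
      ∑ i, (h i * (c i : ZMod 3)) • κ i = 0)).card + 1 ≤ K.card := by
    have h0 : (0 : Fin t → ZMod 3) ∈ K := by simp [hK]
    have h3 : Finset.univ.filter (fun h : Fin t → ZMod 3 => (∃ i k, h i ≠ h k) ∧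
      ∑ i, (h i * (c i : ZMod 3)) • κ i = 0) ⊆ K.erase 0 := by
      intro h hh
      rw [Finset.mem_filter] at hh
      rw [Finset.mem_erase, hK, Finset.mem_filter, A_apply]
      refine ⟨?_, Finset.mem_univ _, hh.2.2⟩
      rintro rfl
      obtain ⟨i, k, hik⟩ := hh.2.1
      exact hik rfl
    have h4 := Finset.card_le_card h3
    rw [Finset.card_erase_of_mem h0] at h4
    have h5 : 0 < K.card := Finset.card_pos.2 ⟨0, h0⟩
    omega
  have h6 := AddSubgroup.card_mul_index (A c κ).ker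
  rw [AddSubgroup.index_ker, h1] at h6
  have h7 : Nat.card (Fin t → ZMod 3) = 3 ^ t := by simp
  rw [h7] at h6
  rw [← h6]
  exact Nat.mul_le_mul h2 hn

theorem A_const {t : ℕ} (c : Fin t → ℕ) (κ : Fin t → ZMod 3 × ZMod 3) (a : ZMod 3) :
    A c κ (fun _ => a) = a • ∑ i, (c i : ZMod 3) • κ i := by
  rw [A_apply, Finset.smul_sum]
  exact Finset.sum_congr rfl fun i _ => mul_smul _ _ _

theorem A_single {t : ℕ} (c : Fin t → ℕ) (κ : Fin t → ZMod 3 × ZMod 3) (i : Fin t) (a : ZMod 3) :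
    A c κ (Pi.single i a) = (a * (c i : ZMod 3)) • κ i := by
  rw [A_apply, Finset.sum_eq_single i]
  · rw [Pi.single_eq_same]
  · intro j _ hj
    rw [Pi.single_eq_of_ne hj, zero_mul, zero_smul]
  · intro h
    exact absurd (Finset.mem_univ i) h

theorem sq_one (c : ℕ) (h : c = 1 ∨ c = 2) : (c : ZMod 3) * (c : ZMod 3) = 1 := by
  rcases h with rfl | rfl
  · decide
  · decide

end ICnh

open ICnh in
/-- Item Cnh. -/
theorem pr_Cnh : StCnh := by
  intro t c κ hc hne
  have hf : Fact (Nat.Prime 3) := ⟨Nat.prime_three⟩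
  refine ⟨count c κ 3 ?_, fun hdet => count c κ 9 ?_⟩
  · have h1 : Nat.card (ZMod 3) ≤ Nat.card (A c κ).range := by
      refine Nat.card_le_card_of_injective
        (fun a : ZMod 3 => (⟨A c κ (fun _ => a), ⟨_, rfl⟩⟩ : (A c κ).range)) ?_
      intro a b hab
      have h2 : A c κ (fun _ => a) = A c κ (fun _ => b) := congrArg Subtype.val hab
      rw [A_const, A_const, ← sub_eq_zero, ← sub_smul, smul_eq_zero] at h2
      rcases h2 with h3 | h3
      · exact sub_eq_zero.1 h3
      · exact absurd h3 hne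
    rwa [Nat.card_zmod] at h1
  · obtain ⟨i, j, hij⟩ := hdet
    have hsq : ∀ i, (c i : ZMod 3) * (c i : ZMod 3) = 1 := fun i => sq_one (c i) (hc i)
    have hA : ∀ a b : ZMod 3, A c κ (Pi.single i (a * c i) + Pi.single j (b * c j)) =
        a • κ i + b • κ j := by
      intro a b
      rw [map_add, A_single, A_single, mul_assoc, mul_assoc, hsq, hsq, mul_one, mul_one]
    have h1 : Nat.card (ZMod 3 × ZMod 3) ≤ Nat.card (A c κ).range := by
      refine Nat.card_le_card_of_injective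
        (fun p : ZMod 3 × ZMod 3 =>
          (⟨A c κ (Pi.single i (p.1 * c i) + Pi.single j (p.2 * c j)), ⟨_, rfl⟩⟩ :
            (A c κ).range)) ?_
      intro p q hpq
      have h2 : A c κ (Pi.single i (p.1 * c i) + Pi.single j (p.2 * c j)) =
          A c κ (Pi.single i (q.1 * c i) + Pi.single j (q.2 * c j)) := congrArg Subtype.val hpq
      rw [hA, hA] at h2
      have h3 : p.1 * (κ i).1 + p.2 * (κ j).1 = q.1 * (κ i).1 + q.2 * (κ j).1 :=
        congrArg Prod.fst h2
      have h4 : p.1 * (κ i).2 + p.2 * (κ j).2 = q.1 * (κ i).2 + q.2 * (κ j).2 :=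
        congrArg Prod.snd h2
      have h5 : (p.1 - q.1) * ((κ i).1 * (κ j).2 - (κ i).2 * (κ j).1) = 0 := by
        linear_combination (κ j).2 * h3 - (κ j).1 * h4
      have h6 : (p.2 - q.2) * ((κ i).1 * (κ j).2 - (κ i).2 * (κ j).1) = 0 := by
        linear_combination (κ i).1 * h4 - (κ i).2 * h3
      exact Prod.ext (sub_eq_zero.1 ((mul_eq_zero.1 h5).resolve_right hij))
        (sub_eq_zero.1 ((mul_eq_zero.1 h6).resolve_right hij))
    have h7 : Nat.card (ZMod 3 × ZMod 3) = 9 := by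
      rw [Nat.card_prod, Nat.card_zmod]
    rwa [h7] at h1

end Pool.Agent.Work.MP_59f3ad_nt.Q3

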