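import Mathlib
import Pool.Agent.Work.MP_59f3ad_nt.Q3.StmtsC

/-!
MP_59f3ad_nt, block Q3, item Cub (helper35): cubes of inertia elements.
-/

set_option autoImplicit false

open NumberField IsDedekindDomain

namespace Pool.Agent.Work.MP_59f3ad_nt.Q3

universe u

namespace ICub

theorem exists_image {Ω : Type u} [Field Ω] (τ : Ω ≃+* Ω) (y : 𝓞 Ω) :
    ∃ y' : 𝓞 Ω, (y' : Ω) = τ (y : Ω) := by
  have h1 : IsIntegral ℤ (y : Ω) := RingOfIntegers.isIntegral_coe y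
  have h2 : IsIntegral ℤ (τ (y : Ω)) := h1.map (τ : Ω →+* Ω).toIntAlgHom
  exact ⟨⟨τ (y : Ω), h2⟩, rfl⟩

theorem inr3 (L : Type u) [Field L] [NumberField L] (σ : L ≃+* L)
    (v : HeightOneSpectrum (𝓞 L)) (τ : AlgebraicClosure L ≃+* AlgebraicClosure L)
    (Q : Ideal (𝓞 (AlgebraicClosure L))) (hI : InrQ σ v τ Q) (k : GK L)
    (hk : ∀ y, k y = τ (τ (τ y))) :
    InrQ (RingEquiv.refl L) v (k : AlgebraicClosure L ≃+* AlgebraicClosure L) Q := by
  refine ⟨fun y => k.commutes y, hI.pr, hI.co, fun y y' hy => ?_⟩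
  obtain ⟨y1, hy1⟩ := exists_image τ y
  obtain ⟨y2, hy2⟩ := exists_image τ y1
  obtain ⟨y3, hy3⟩ := exists_image τ y2
  have e1 := hI.inr y y1 hy1
  have e2 := hI.inr y1 y2 hy2
  have e3 := hI.inr y2 y3 hy3
  have e4 : y' = y3 := by
    apply RingOfIntegers.ext
    rw [hy, hy3, hy2, hy1]
    exact hk _
  have e5 : y3 - y = (y3 - y2) + (y2 - y1) + (y1 - y) := by ring
  rw [e4, e5]
  exact Q.add_mem (Q.add_mem e3 e2) e1

end ICub

theorem pr_Cub (h1 : StFix.{u}) : StCub.{u} := by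
  intro L _ _ σ v τ Q hI k hk r S hv φ hφ
  exact hφ.2 k (h1 L S v hv k Q (ICub.inr3 L σ v τ Q hI k hk))

end Pool.Agent.Work.MP_59f3ad_nt.Q3
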