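import Mathlib
import Pool.Agent.Work.MP_59f3ad_nt.Q3.StmtsC
import Pool.Agent.Work.MP_59f3ad_nt.Bridge
import Pool.Agent.Work.MP_59f3ad_nt.Bdx.B04

set_option autoImplicit false

/-!
# MP_59f3ad_nt, block Q3, item Div
-/

open NumberField IsDedekindDomain

namespace Pool.Agent.Work.MP_59f3ad_nt.Q3

universe u

namespace IDiv

theorem continuous_third {X : Type*} [TopologicalSpace X] (ψ : X → ℤ_[3])
    (h : Continuous fun x => 3 * ψ x) : Continuous ψ := by
  have hinj : Function.Injective fun a : ℤ_[3] => 3 * a := by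
    intro a b hab
    have h3 : (3 : ℤ_[3]) ≠ 0 := by
      have : ((3 : ℕ) : ℤ_[3]) ≠ 0 := Nat.cast_ne_zero.2 (by norm_num)
      exact_mod_cast this
    exact mul_left_cancel₀ h3 hab
  have hemb : Topology.IsClosedEmbedding fun a : ℤ_[3] => 3 * a :=
    (continuous_const.mul continuous_id).isClosedEmbedding hinj
  exact hemb.isInducing.continuous_iff.2 h

theorem exists_aut (L : Type u) [Field L] (C : Type u) [Field C] [Algebra L C]
    (ι ι' : AlgebraicClosure L →ₐ[L] C) : ∃ a : GK L, ∀ x, ι (a x) = ι' x := by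
  letI : Algebra (AlgebraicClosure L) C := ι.toRingHom.toAlgebra
  haveI : IsScalarTower L (AlgebraicClosure L) C := by
    refine IsScalarTower.of_algebraMap_eq fun x => ?_
    show algebraMap L C x = ι (algebraMap L (AlgebraicClosure L) x)
    rw [ι.commutes]
  refine ⟨AlgHom.restrictNormal' ι' (AlgebraicClosure L), fun x => ?_⟩
  exact AlgHom.restrictNormal_commutes ι' (AlgebraicClosure L) x

end IDiv

open IDiv in
theorem pr_Div (h1 : StCyl.{u}) (h2 : StInf.{u}) : StDiv.{u} := by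
  intro L _ _ w hw huniq r φ hφ hD
  classical
  have h3 : (3 : ℤ_[3]) ≠ 0 := by
    have : ((3 : ℕ) : ℤ_[3]) ≠ 0 := Nat.cast_ne_zero.2 (by norm_num)
    exact_mod_cast this
  by_cases hφ0 : φ = 0
  · refine ⟨0, zero_mem _, 0, fun g => ?_⟩
    rw [hφ0]
    simp
  obtain ⟨v, hv⟩ := exists_prime_above L 3
  have hv3 : v ∈ S3 L := by
    show (3 : 𝓞 L) ∈ v.asIdeal
    exact_mod_cast hv
  have ι : AlgebraicClosure L →ₐ[L] AlgebraicClosure (v.adicCompletion L) := IsAlgClosed.lift
  obtain ⟨y, hy⟩ := hφ.2.1 v hv3 ι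
  have hex : ∀ g : GK L, ∃ b : ℤ_[3], φ g - (twist L 3 r g - 1) * y = 3 * b := by
    intro g
    obtain ⟨a, ha⟩ := hD g
    obtain ⟨b, hb⟩ := (h1 L w hw r).1 g
    exact ⟨a - b * y, by rw [ha, hb]; ring⟩
  choose ψ hψ using hex
  have hcont : Continuous ψ := by
    refine continuous_third ψ ?_
    have e : (fun g => 3 * ψ g) = fun g => φ g - (twist L 3 r g - 1) * y := by
      funext g
      exact (hψ g).symm
    rw [e]
    exact hφ.1.1.1.sub (((Tw.FunX.continuous_zpow_cyc L 3 r).sub continuous_const).mul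
      continuous_const)
  have hcoc : ∀ g h, ψ (g * h) = ψ g + twist L 3 r g * ψ h := by
    intro g h
    refine mul_left_cancel₀ h3 ?_
    have e1 := hψ (g * h)
    have e2 := hψ g
    have e3 := hψ h
    have e4 := hφ.1.1.2 g h
    rw [twist_mul] at e1
    linear_combination -e1 + e2 + (twist L 3 r g) * e3 + e4
  have hone : ψ 1 = 0 := by
    have h := hcoc 1 1
    rw [mul_one, twist_one, one_mul] at h
    exact left_eq_add.1 h
  have hZ : ψ ∈ Z1S L 3 r (S3 L) := by
    refine ⟨⟨hcont, hcoc⟩, fun g hg => ?_⟩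
    have e1 := hψ g
    rw [hφ.1.2 g hg, Tw.FunX.twist_eq_one L 3 Tw.pr_Nrm (S3 L) r φ hφ.1 hφ0 g hg, sub_self,
      zero_mul, sub_zero] at e1
    exact (mul_eq_zero.1 e1.symm).resolve_left h3
  have hloc : ∀ (g : GK (v.adicCompletion L)) (h : GK L), (∀ x, ι (h x) = g (ι x)) →
      ψ h = 0 := by
    intro g h hgh
    have e1 := hψ h
    rw [hy g h hgh, sub_self] at e1
    exact (mul_eq_zero.1 e1.symm).resolve_left h3
  refine ⟨ψ, ⟨hZ, ?_, ?_⟩, y, fun g => ?_⟩
  · intro v' hv' ι'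
    obtain rfl : v' = v := huniq v' v hv' hv3
    obtain ⟨a, ha⟩ := exists_aut L _ ι ι'
    refine ⟨twist L 3 r a⁻¹ * ψ a, fun g h hgh => ?_⟩
    have hconj : ψ (a * h * a⁻¹) = 0 := by
      refine hloc g (a * h * a⁻¹) fun x => ?_
      have e : (a * h * a⁻¹) x = a (h (a⁻¹ x)) := rfl
      have e' : a (a⁻¹ x) = x := by
        show (a * a⁻¹) x = x
        rw [mul_inv_cancel]
        rfl
      rw [e, ha, hgh, ← ha, e']
    have hinv : ψ a + twist L 3 r a * ψ a⁻¹ = 0 := by
      rw [← hcoc, mul_inv_cancel, hone]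
    have htw : twist L 3 r a⁻¹ * twist L 3 r a = 1 := by
      rw [← twist_mul, inv_mul_cancel, twist_one]
    rw [hcoc, hcoc, twist_mul] at hconj
    linear_combination (-(ψ h)) * htw + (twist L 3 r a⁻¹) * hconj
      - (twist L 3 r a⁻¹ * twist L 3 r h) * hinv
  · intro v'
    exact h2 L w hw r ψ hone v'
  · have e := hψ g
    linear_combination e

end Pool.Agent.Work.MP_59f3ad_nt.Q3
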