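import Mathlib
import Pool.Agent.Work.MP_59f3ad_nt.Q3.StmtsR

/-!
Item EQN of block Q3: tuples of primary primes with two equal norms are rare.
-/

open NumberField IsDedekindDomain

namespace Pool.Agent.Work.MP_59f3ad_nt.Q3

namespace IEqn

theorem nmZ (z : E) : ((nm z : ℕ) : ℤ) = z.re ^ 2 - z.re * z.im + z.im ^ 2 := by
  unfold nm
  apply Int.natAbs_of_nonneg
  nlinarith [sq_nonneg (2 * z.re - z.im), sq_nonneg z.im]

theorem nm_mul (z w : E) : nm (z * w) = nm z * nm w := by
  have h : ((nm (z * w) : ℕ) : ℤ) = ((nm z * nm w : ℕ) : ℤ) := by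
    rw [Nat.cast_mul, nmZ, nmZ, nmZ, QuadraticAlgebra.re_mul, QuadraticAlgebra.im_mul]
    ring
  exact_mod_cast h

/-- associated primary primes are equal -/
theorem eq_of_dvd {z z' : E} (hz : PP z) (hz' : PP z') (hn : nm z = nm z') (hd : z' ∣ z) :
    z' = z := by
  obtain ⟨e, he⟩ := hd
  have h1 : nm e = 1 := by
    have h := nm_mul z' e
    rw [← he, hn] at h
    have h' : nm z' * nm e = nm z' * 1 := by rw [← h, mul_one]
    exact Nat.eq_of_mul_eq_mul_left hz'.pr.pos h'
  have h2 : e.re ^ 2 - e.re * e.im + e.im ^ 2 = 1 := by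
    rw [← nmZ, h1]
    rfl
  have h3 : z.re = z'.re * e.re - z'.im * e.im := by
    rw [he, QuadraticAlgebra.re_mul]
    ring
  have h4 : z.im = z'.re * e.im + z'.im * e.re - z'.im * e.im := by
    rw [he, QuadraticAlgebra.im_mul]
    ring
  obtain ⟨a, ha⟩ := hz'.re
  obtain ⟨b, hb⟩ := hz'.im
  obtain ⟨c, hc⟩ := hz.re
  obtain ⟨d, hd⟩ := hz.im
  have h5 : e.im = 3 * (d - a * e.im - b * e.re + b * e.im) := by
    linear_combination hd - h4 - e.im * ha - (e.re - e.im) * hb
  have h6 : e.re - 1 = 3 * (c - a * e.re + b * e.im) := by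
    linear_combination hc - h3 - e.re * ha + e.im * hb
  generalize d - a * e.im - b * e.re + b * e.im = m at h5
  generalize c - a * e.re + b * e.im = l at h6
  have h7 : m = 0 := by
    have h8 : 27 * m ^ 2 ≤ 4 := by
      rw [h5] at h2
      nlinarith [sq_nonneg (2 * e.re - 3 * m)]
    by_contra hm
    have h9 : 1 ≤ m ^ 2 := by
      have : 0 < m ^ 2 := by positivity
      omega
    omega
  rw [h7, mul_zero] at h5
  have h10 : e.re = 1 := by
    rw [h5] at h2
    have h11 : (e.re - 1) * (e.re + 1) = 0 := by linear_combination h2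
    rcases mul_eq_zero.1 h11 with h | h
    · omega
    · exfalso
      omega
  have h12 : e = 1 := by
    apply QuadraticAlgebra.ext
    · rw [h10, QuadraticAlgebra.re_one]
    · rw [h5, QuadraticAlgebra.im_one]
  rw [he, h12, mul_one]

theorem pp_cases (h1 : StInd) (h2 : StStr) {z z' : E} (hz : PP z) (hz' : PP z')
    (hn : nm z = nm z') : z' = z ∨ z' = star z := by
  obtain ⟨p1, p2, p3, -⟩ := h2 z hz
  obtain ⟨-, -, q3, -⟩ := h2 z' hz'
  obtain ⟨-, -, -, -, -, hpr⟩ := h1 z' hz'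
  have h3 : z' ∣ z * star z := by
    rw [p3, hn, ← q3]
    exact dvd_mul_right _ _
  rcases hpr.dvd_or_dvd h3 with h | h
  · exact Or.inl (eq_of_dvd hz hz' hn h)
  · exact Or.inr (eq_of_dvd p1 hz' (p2.trans hn) h)

theorem count (h1 : StInd) (h2 : StStr) {t : ℕ} (P : Fin t → Finset E)
    (hP : ∀ i, ∀ z ∈ P i, PP z) (i k : Fin t) (hik : i ≠ k) :
    ((Fintype.piFinset P).filter (fun π => nm (π i) = nm (π k))).card ≤
      2 * ∏ j : {j // j ≠ k}, (P j).card := by
  classical
  let f : (Fin t → E) → ({j // j ≠ k} → E) := fun π j => π j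
  refine (Finset.card_le_mul_card_image (f := f) _ 2 ?_).trans ?_
  · intro a ha
    obtain ⟨x₀, hx₀, rfl⟩ := Finset.mem_image.1 ha
    rw [Finset.mem_filter, Fintype.mem_piFinset] at hx₀
    have hsub : (((Fintype.piFinset P).filter (fun π => nm (π i) = nm (π k))).filter
        (fun x => f x = f x₀)) ⊆
        {Function.update x₀ k (x₀ i), Function.update x₀ k (star (x₀ i))} := by
      intro x hx
      rw [Finset.mem_filter, Finset.mem_filter, Fintype.mem_piFinset] at hx
      obtain ⟨⟨hx1, hx2⟩, hx3⟩ := hx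
      have hxj : ∀ j, j ≠ k → x j = x₀ j := fun j hj => congrFun hx3 ⟨j, hj⟩
      have hxu : ∀ w, x k = w → x = Function.update x₀ k w := by
        intro w hw
        funext j
        by_cases hj : j = k
        · subst hj
          rw [Function.update_self, hw]
        · rw [Function.update_of_ne hj, hxj j hj]
      rw [hxj i hik] at hx2
      rw [Finset.mem_insert, Finset.mem_singleton]
      rcases pp_cases h1 h2 (hP i _ (hx₀.1 i)) (hP k _ (hx1 k)) hx2 with h | h
      · exact Or.inl (hxu _ h)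
      · exact Or.inr (hxu _ h)
    exact (Finset.card_le_card hsub).trans Finset.card_le_two
  · apply Nat.mul_le_mul_left
    rw [← Fintype.card_piFinset]
    apply Finset.card_le_card
    intro a ha
    obtain ⟨π, hπ, rfl⟩ := Finset.mem_image.1 ha
    rw [Finset.mem_filter, Fintype.mem_piFinset] at hπ
    rw [Fintype.mem_piFinset]
    intro j
    exact hπ.1 j

end IEqn

open IEqn in
theorem pr_Eqn (h1 : StInd) (h2 : StStr) : StEqn := by
  intro t δ hδ
  have hlim : ∀ᶠ X : ℕ in Filter.atTop, 2 * (t : ℝ) ^ 2 / δ ≤ (X : ℝ) ^ (19 / 20 : ℝ) :=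
    ((tendsto_rpow_atTop (by norm_num : (0 : ℝ) < 19 / 20)).comp
      tendsto_natCast_atTop_atTop).eventually_ge_atTop _
  obtain ⟨X0, hX0⟩ := Filter.eventually_atTop.1 (hlim.and (Filter.eventually_ge_atTop 1))
  refine ⟨X0, fun X hX P hP hc => ?_⟩
  obtain ⟨hX1, hX2⟩ := hX0 X hX
  have hXpos : (0 : ℝ) < (X : ℝ) ^ (19 / 20 : ℝ) :=
    Real.rpow_pos_of_pos (by exact_mod_cast hX2) _
  have hPr : (0 : ℝ) ≤ ∏ i, ((P i).card : ℝ) := Finset.prod_nonneg fun i _ => Nat.cast_nonneg _
  -- one pair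
  have hone : ∀ i k : Fin t, i ≠ k →
      (((Fintype.piFinset P).filter (fun π => nm (π i) = nm (π k))).card : ℝ) ≤
        2 * (∏ i, ((P i).card : ℝ)) / (X : ℝ) ^ (19 / 20 : ℝ) := by
    intro i k hik
    have h3 := count h1 h2 P hP i k hik
    have h4 : (((Fintype.piFinset P).filter (fun π => nm (π i) = nm (π k))).card : ℝ) ≤
        2 * ∏ j : {j // j ≠ k}, ((P j).card : ℝ) := by
      exact_mod_cast h3
    refine h4.trans ?_
    rw [le_div_iff₀ hXpos, Fintype.prod_eq_mul_prod_subtype_ne (fun i => ((P i).card : ℝ)) k]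
    have h5 : (0 : ℝ) ≤ ∏ j : {j // j ≠ k}, ((P j).card : ℝ) :=
      Finset.prod_nonneg fun i _ => Nat.cast_nonneg _
    have h6 := mul_le_mul_of_nonneg_left (hc k) h5
    nlinarith
  have hsub : ((Fintype.piFinset P).filter (fun π => ∃ i k, i ≠ k ∧ nm (π i) = nm (π k))) ⊆
      ((Finset.univ : Finset (Fin t × Fin t)).filter (fun p => p.1 ≠ p.2)).biUnion
        (fun p => (Fintype.piFinset P).filter (fun π => nm (π p.1) = nm (π p.2))) := by
    intro π hπ
    rw [Finset.mem_filter] at hπ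
    obtain ⟨hπ1, i, k, hik, hn⟩ := hπ
    rw [Finset.mem_biUnion]
    exact ⟨(i, k), by simp [hik], Finset.mem_filter.2 ⟨hπ1, hn⟩⟩
  have h7 := (Finset.card_le_card hsub).trans Finset.card_biUnion_le
  have h8 : (((Fintype.piFinset P).filter
      (fun π => ∃ i k, i ≠ k ∧ nm (π i) = nm (π k))).card : ℝ) ≤
      ∑ p ∈ (Finset.univ : Finset (Fin t × Fin t)).filter (fun p => p.1 ≠ p.2),
        (((Fintype.piFinset P).filter (fun π => nm (π p.1) = nm (π p.2))).card : ℝ) := by
    exact_mod_cast h7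
  refine h8.trans ?_
  have h9 : ∑ p ∈ (Finset.univ : Finset (Fin t × Fin t)).filter (fun p => p.1 ≠ p.2),
        (((Fintype.piFinset P).filter (fun π => nm (π p.1) = nm (π p.2))).card : ℝ) ≤
      (((Finset.univ : Finset (Fin t × Fin t)).filter (fun p => p.1 ≠ p.2)).card : ℕ) •
        (2 * (∏ i, ((P i).card : ℝ)) / (X : ℝ) ^ (19 / 20 : ℝ)) := by
    apply Finset.sum_le_card_nsmul
    intro p hp
    exact hone p.1 p.2 (Finset.mem_filter.1 hp).2
  refine h9.trans ?_
  have h10 : (((Finset.univ : Finset (Fin t × Fin t)).filter (fun p => p.1 ≠ p.2)).card : ℝ) ≤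
      (t : ℝ) ^ 2 := by
    have h11 := Finset.card_filter_le (Finset.univ : Finset (Fin t × Fin t))
      (fun p => p.1 ≠ p.2)
    rw [Finset.card_univ, Fintype.card_prod, Fintype.card_fin, ← sq] at h11
    exact_mod_cast h11
  rw [nsmul_eq_mul]
  have h12 : (0 : ℝ) ≤ 2 * (∏ i, ((P i).card : ℝ)) / (X : ℝ) ^ (19 / 20 : ℝ) := by positivity
  refine (mul_le_mul_of_nonneg_right h10 h12).trans ?_
  rw [← mul_div_assoc, div_le_iff₀ hXpos]
  have h13 : 2 * (t : ℝ) ^ 2 ≤ δ * (X : ℝ) ^ (19 / 20 : ℝ) := by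
    rw [div_le_iff₀ hδ] at hX1
    linarith
  nlinarith [mul_le_mul_of_nonneg_right h13 hPr]

end Pool.Agent.Work.MP_59f3ad_nt.Q3
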