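import Mathlib
import Pool.Agent.Work.MP_59f3ad_nt.Q3.StmtsG
import Pool.Agent.Work.MP_59f3ad_nt.Q3.StmtsR

/-!
Block Q3, item FAC: factorisation modulo cubes in `ℚ(ω)`.
-/

open NumberField IsDedekindDomain

namespace Pool.Agent.Work.MP_59f3ad_nt.Q3

universe u

namespace IFac

theorem lam_dvd (z : E) : (⟨1, -1⟩ : E) ∣ z ↔ (3 : ℤ) ∣ z.re + z.im := by
  constructor
  · rintro ⟨c, rfl⟩
    refine ⟨c.im, ?_⟩
    simp only [QuadraticAlgebra.re_mul, QuadraticAlgebra.im_mul]
    ring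
  · rintro ⟨d, hd⟩
    refine ⟨⟨z.re - d, d⟩, ?_⟩
    apply QuadraticAlgebra.ext
    · simp only [QuadraticAlgebra.re_mul]
      ring
    · simp only [QuadraticAlgebra.im_mul]
      linarith

theorem prime_lam : Prime (⟨1, -1⟩ : E) := by
  refine ⟨?_, ?_, ?_⟩
  · intro h
    have h1 := congrArg QuadraticAlgebra.re h
    rw [QuadraticAlgebra.re_zero] at h1
    exact one_ne_zero h1
  · intro h
    have h1 : (⟨1, -1⟩ : E) ∣ 1 := h.dvd
    rw [lam_dvd, QuadraticAlgebra.re_one, QuadraticAlgebra.im_one] at h1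
    omega
  · intro a b hab
    rw [lam_dvd] at hab
    rw [lam_dvd, lam_dvd]
    simp only [QuadraticAlgebra.re_mul, QuadraticAlgebra.im_mul] at hab
    have h2 : (3 : ℤ) ∣ (a.re + a.im) * (b.re + b.im) := by
      obtain ⟨m, hm⟩ := hab
      exact ⟨m + a.im * b.im, by linear_combination hm⟩
    exact Int.prime_three.dvd_or_dvd h2

/-- the conclusion without the bounds -/
def Q {F : Type u} [Field F] (w : F) {t : ℕ} (π : Fin t → E) (a : F) : Prop :=
  ∃ (i j : ℕ) (e : Fin t → ℕ) (g : F), g ≠ 0 ∧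
    a = w ^ i * (1 - w) ^ j * ev w (∏ k, π k ^ e k) * g ^ 3

theorem Q_cube {F : Type u} [Field F] (w : F) {t : ℕ} (π : Fin t → E) (a h : F) (hh : h ≠ 0)
    (H : Q w π a) : Q w π (a * h ^ 3) := by
  obtain ⟨i, j, e, g, hg, rfl⟩ := H
  exact ⟨i, j, e, g * h, mul_ne_zero hg hh, by ring⟩

theorem Q_lam {F : Type u} [Field F] (w : F) {t : ℕ} (π : Fin t → E) (a : F)
    (H : Q w π a) : Q w π ((1 - w) * a) := by
  obtain ⟨i, j, e, g, hg, rfl⟩ := H
  exact ⟨i, j + 1, e, g, hg, by ring⟩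

theorem Q_pi {F : Type u} [Field F] (w : F) (hw : w ^ 2 + w + 1 = 0) {t : ℕ} (π : Fin t → E)
    (a : F) (k : Fin t) (H : Q w π a) : Q w π (ev w (π k) * a) := by
  obtain ⟨i, j, e, g, hg, rfl⟩ := H
  refine ⟨i, j, fun l => e l + (if k = l then 1 else 0), g, hg, ?_⟩
  have h1 : ∏ l, π l ^ (e l + (if k = l then 1 else 0)) = π k * ∏ l, π l ^ e l := by
    simp only [pow_add, Finset.prod_mul_distrib]
    rw [Finset.prod_pow_boole, if_pos (Finset.mem_univ k), mul_comm]
  rw [h1, ← evH_apply w hw (π k * _), map_mul, evH_apply, evH_apply]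
  ring

theorem Q_red {F : Type u} [Field F] (w : F) (hw : w ^ 2 + w + 1 = 0) {t : ℕ} (π : Fin t → E)
    (a : F) (ha : a ≠ 0) (H : Q w π a) :
    ∃ (i j : ℕ) (e : Fin t → ℕ) (g : F), i < 3 ∧ j < 3 ∧ (∀ k, e k < 3) ∧ g ≠ 0 ∧
      a = w ^ i * (1 - w) ^ j * ev w (∏ k, π k ^ e k) * g ^ 3 := by
  obtain ⟨i, j, e, g, hg, hE⟩ := H
  have h1 : a = w ^ (i % 3) * (1 - w) ^ (j % 3) * ev w (∏ k, π k ^ (e k % 3)) *
      (w ^ (i / 3) * (1 - w) ^ (j / 3) * ev w (∏ k, π k ^ (e k / 3)) * g) ^ 3 := by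
    have hi : w ^ i = w ^ (i % 3) * (w ^ (i / 3)) ^ 3 := by
      rw [← pow_mul, ← pow_add, mul_comm, Nat.mod_add_div]
    have hj : (1 - w) ^ j = (1 - w) ^ (j % 3) * ((1 - w) ^ (j / 3)) ^ 3 := by
      rw [← pow_mul, ← pow_add, mul_comm, Nat.mod_add_div]
    have he : ev w (∏ k, π k ^ e k) = ev w (∏ k, π k ^ (e k % 3)) *
        (ev w (∏ k, π k ^ (e k / 3))) ^ 3 := by
      rw [← evH_apply w hw, ← evH_apply w hw, ← evH_apply w hw, ← map_pow, ← map_mul]
      congr 1
      rw [← Finset.prod_pow, ← Finset.prod_mul_distrib]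
      refine Finset.prod_congr rfl fun k _ => ?_
      rw [← pow_mul, ← pow_add, mul_comm, Nat.mod_add_div]
    rw [hE, hi, hj, he]
    ring
  refine ⟨i % 3, j % 3, fun k => e k % 3, _, Nat.mod_lt _ (by norm_num), Nat.mod_lt _ (by norm_num),
    fun k => Nat.mod_lt _ (by norm_num), ?_, h1⟩
  intro h0
  rw [h0] at h1
  apply ha
  rw [h1]
  ring

theorem coe_mul' {F : Type u} [Field F] [NumberField F] (a b : 𝓞 F) :
    ((a * b : 𝓞 F) : F) = (a : F) * (b : F) := rfl

theorem coe_pow' {F : Type u} [Field F] [NumberField F] (a : 𝓞 F) (n : ℕ) :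
    ((a ^ n : 𝓞 F) : F) = (a : F) ^ n := map_pow (algebraMap (𝓞 F) F) a n

theorem cub_of_mul {F : Type u} [Field F] [NumberField F] (q : HeightOneSpectrum (𝓞 F))
    (c z : 𝓞 F) (hc : c ∉ q.asIdeal) (h : Cub q ((c * z : 𝓞 F) : F)) : Cub q (z : F) := by
  obtain ⟨y, hy⟩ := h
  refine ⟨y, ?_⟩
  rw [← hy]
  have h1 : q.valuation F (c : F) = 1 := by
    rw [HeightOneSpectrum.valuation_eq_one_iff_notMem]
    exact hc
  rw [coe_mul', map_mul, h1, one_mul]

theorem cub_of_cube_mul {F : Type u} [Field F] [NumberField F] (q : HeightOneSpectrum (𝓞 F))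
    (h z : F) (hh : h ≠ 0) (H : Cub q (h ^ 3 * z)) : Cub q z := by
  obtain ⟨y, hy⟩ := H
  refine ⟨y / h, ?_⟩
  have h1 : q.valuation F h ≠ 0 := (Valuation.ne_zero_iff _).2 hh
  rw [map_mul, map_pow] at hy
  rw [map_div₀, div_pow, eq_div_iff (pow_ne_zero 3 h1), mul_comm]
  exact hy

theorem cube_dvd {F : Type u} [Field F] [NumberField F] (p z : 𝓞 F) (hz : z ≠ 0)
    (hpz : p ∣ z) (q : HeightOneSpectrum (𝓞 F)) (hq : q.asIdeal = Ideal.span {p})
    (h : Cub q (z : F)) : p ^ 3 ∣ z := by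
  obtain ⟨y, hy⟩ := h
  have h1 : q.valuation F (z : F) < 1 := by
    rw [HeightOneSpectrum.valuation_lt_one_iff_mem, hq]
    exact Ideal.mem_span_singleton.2 hpz
  have hz0 : q.valuation F (z : F) ≠ 0 := by
    rw [Valuation.ne_zero_iff]
    exact_mod_cast hz
  have hy0 : q.valuation F y ≠ 0 := by
    intro h0
    rw [h0] at hy
    exact hz0 (by rw [hy]; simp)
  obtain ⟨m, hm⟩ : ∃ m : ℤ, q.valuation F y = WithZero.exp m :=
    ⟨WithZero.log (q.valuation F y), (WithZero.exp_log hy0).symm⟩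
  rw [hy, hm, ← WithZero.exp_nsmul, ← WithZero.exp_zero, WithZero.exp_lt_exp] at h1
  have h2 : q.valuation F (z : F) ≤ WithZero.exp (-((3 : ℕ) : ℤ)) := by
    rw [hy, hm, ← WithZero.exp_nsmul, WithZero.exp_le_exp]
    simp only [nsmul_eq_mul] at h1 ⊢
    push_cast at h1 ⊢
    omega
  have h3 : q.intValuation z ≤ WithZero.exp (-((3 : ℕ) : ℤ)) := by
    rw [← HeightOneSpectrum.valuation_of_algebraMap (K := F)]
    exact h2
  rw [HeightOneSpectrum.intValuation_le_pow_iff_mem, hq, Ideal.span_singleton_pow,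
    Ideal.mem_span_singleton] at h3
  exact h3

theorem ev_coe {F : Type u} [Field F] [NumberField F] (w : 𝓞 F) (z : E) :
    ((ev w z : 𝓞 F) : F) = ev (w : F) z := by
  simp [ev]

theorem ev_one {R : Type*} [CommRing R] (w : R) : ev w (1 : E) = 1 := by
  simp [ev, QuadraticAlgebra.re_one, QuadraticAlgebra.im_one]

end IFac

open IFac in
theorem pr_Fac (h1 : StIso.{u}) (h3 : StInd) : StFac.{u} := by
  intro F _ _ w hF hw t π hπ _ a ha hcub
  obtain ⟨hbij, hpid, hun⟩ := h1 F w hF hw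
  have hwF : (w : F) ^ 2 + (w : F) + 1 = 0 := by
    have := congrArg (algebraMap (𝓞 F) F) hw
    simpa using this
  let φ : E ≃+* 𝓞 F := RingEquiv.ofBijective (evH w hw) hbij
  have hφ : ∀ z, φ z = ev w z := fun z => rfl
  have hpr : ∀ z : E, Prime z → Prime (ev w z) := fun z hz => by
    rw [← hφ]
    exact (MulEquiv.prime_iff φ).2 hz
  have hlam : Prime (1 - w) := by
    have := hpr _ prime_lam
    simpa [ev, sub_eq_add_neg] using this
  have hpi : ∀ k, Prime (ev w (π k)) := fun k => hpr _ (h3 (π k) (hπ k)).2.2.2.2.2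
  -- the integral case
  have key : ∀ z : 𝓞 F, z ≠ 0 → (∀ q : HeightOneSpectrum (𝓞 F), (3 : 𝓞 F) ∉ q.asIdeal →
      (∀ k, ev w (π k) ∉ q.asIdeal) → Cub q (z : F)) → Q (w : F) π (z : F) := by
    intro z
    induction z using (wellFounded_dvdNotUnit (α := 𝓞 F)).induction with
    | _ z ih =>
    intro hz hq
    by_cases hu : IsUnit z
    · obtain ⟨uu, rfl⟩ := hu
      obtain ⟨i, hi | hi⟩ := hun uu
      · refine ⟨i, 0, fun _ => 0, 1, one_ne_zero, ?_⟩
        have e1 : ((w ^ i : 𝓞 F) : F) = (w : F) ^ i := coe_pow' w i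
        rw [hi, e1]
        simp only [pow_zero, Finset.prod_const_one, ev_one]
        ring
      · refine ⟨i, 0, fun _ => 0, -1, by simp, ?_⟩
        have e1 : ((-w ^ i : 𝓞 F) : F) = -((w ^ i : 𝓞 F) : F) := rfl
        rw [hi, e1, coe_pow']
        simp only [pow_zero, Finset.prod_const_one, ev_one]
        ring
    · obtain ⟨p, hpirr, hpz⟩ := WfDvdMonoid.exists_irreducible_factor hu hz
      have hp : Prime p := hpirr.prime
      have case1 : ∀ c : 𝓞 F, Prime c → c ∣ z → (∀ q : HeightOneSpectrum (𝓞 F),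
          (3 : 𝓞 F) ∉ q.asIdeal → (∀ k, ev w (π k) ∉ q.asIdeal) → c ∉ q.asIdeal) →
          ∃ z' : 𝓞 F, z = c * z' ∧ Q (w : F) π (z' : F) := by
        intro c hc hcz hcq
        obtain ⟨z', rfl⟩ := hcz
        have hz' : z' ≠ 0 := right_ne_zero_of_mul hz
        refine ⟨z', rfl, ih z' ⟨hz', c, hc.not_isUnit, by ring⟩ hz' fun q h3q hkq => ?_⟩
        exact cub_of_mul q c z' (hcq q h3q hkq) (hq q h3q hkq)
      by_cases hp3 : p ∣ 3
      · have h4 : p ∣ (1 - w) ^ 2 := by
          have : (1 - w) ^ 2 = 3 * (-w) := by linear_combination hw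
          rw [this]
          exact hp3.mul_right _
        have h5 : p ∣ 1 - w := hp.dvd_of_dvd_pow h4
        have h6 : Associated p (1 - w) := (hp.dvd_prime_iff_associated hlam).1 h5
        obtain ⟨z', hz', hQ⟩ := case1 (1 - w) hlam (h6.symm.dvd.trans hpz) (by
          intro q h3q _ hmem
          apply h3q
          have : (3 : 𝓞 F) = (1 - w) * (-(w ^ 2) * (1 - w)) := by
            linear_combination (3 - 3 * w + w ^ 2) * hw
          rw [this]
          exact Ideal.mul_mem_right _ _ hmem)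
        rw [hz']
        have := Q_lam (w : F) π _ hQ
        simpa using this
      · by_cases hpk : ∃ k, p ∣ ev w (π k)
        · obtain ⟨k, hk⟩ := hpk
          have h6 : Associated p (ev w (π k)) := (hp.dvd_prime_iff_associated (hpi k)).1 hk
          obtain ⟨z', hz', hQ⟩ := case1 (ev w (π k)) (hpi k) (h6.symm.dvd.trans hpz) (by
            intro q _ hkq
            exact hkq k)
          rw [hz', coe_mul', ev_coe]
          exact Q_pi (w : F) hwF π _ k hQ
        · push Not at hpk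
          let q : HeightOneSpectrum (𝓞 F) := ⟨Ideal.span {p},
            (Ideal.span_singleton_prime hp.ne_zero).2 hp, by
              rw [Ne, Ideal.span_singleton_eq_bot]
              exact hp.ne_zero⟩
          have hqI : q.asIdeal = Ideal.span {p} := rfl
          have h7 : p ^ 3 ∣ z := by
            refine cube_dvd p z hz hpz q hqI (hq q ?_ ?_)
            · rw [hqI, Ideal.mem_span_singleton]
              exact hp3
            · intro k
              rw [hqI, Ideal.mem_span_singleton]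
              exact hpk k
          obtain ⟨z', rfl⟩ := h7
          have hz' : z' ≠ 0 := right_ne_zero_of_mul hz
          have hp0 : (p : F) ≠ 0 := by exact_mod_cast hp.ne_zero
          have hQ : Q (w : F) π (z' : F) := by
            refine ih z' ⟨hz', p ^ 3, ?_, by ring⟩ hz' fun q' h3q hkq => ?_
            · intro hunit
              exact hp.not_isUnit (isUnit_of_dvd_unit (dvd_pow_self p (by norm_num)) hunit)
            · refine cub_of_cube_mul q' (p : F) (z' : F) hp0 ?_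
              have := hq q' h3q hkq
              rwa [coe_mul', coe_pow'] at this
          have := Q_cube (w : F) π _ (p : F) hp0 hQ
          rw [coe_mul', coe_pow', mul_comm]
          exact this
  -- the general case
  obtain ⟨z, d, hd, hzd⟩ := IsFractionRing.div_surjective (A := 𝓞 F) a
  have hd0 : d ≠ 0 := nonZeroDivisors.ne_zero hd
  have hdF : (d : F) ≠ 0 := by exact_mod_cast hd0
  have hz0 : z ≠ 0 := by
    rintro rfl
    apply ha
    rw [← hzd]
    simp
  have hQ := key (z * d ^ 2) (mul_ne_zero hz0 (pow_ne_zero 2 hd0)) (by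
    intro q h3q hkq
    obtain ⟨y, hy⟩ := hcub q h3q hkq
    refine ⟨y * d, ?_⟩
    have : ((z * d ^ 2 : 𝓞 F) : F) = a * (d : F) ^ 3 := by
      rw [← hzd]
      push_cast
      field_simp
    rw [this, map_mul, map_pow, map_mul, mul_pow, hy])
  have hQ' := Q_cube (w : F) π _ (d : F)⁻¹ (inv_ne_zero hdF) hQ
  have hE : ((z * d ^ 2 : 𝓞 F) : F) * ((d : F)⁻¹) ^ 3 = a := by
    rw [← hzd]
    push_cast
    field_simp
  rw [hE] at hQ'
  exact Q_red (w : F) hwF π a ha hQ'

end Pool.Agent.Work.MP_59f3ad_nt.Q3
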