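import Mathlib
import Pool.Agent.Work.MP_59f3ad_nt.Q3.StmtsR

/-!
Item Fmo of block Q3 (first moment for a fixed non-constant `h`). Written by helper62.
-/

set_option autoImplicit false

open NumberField IsDedekindDomain

namespace Pool.Agent.Work.MP_59f3ad_nt.Q3

namespace IFmo

open Finset

/-- the cube root of unity -/
noncomputable def ze : ℂ := Complex.exp (2 * (Real.pi : ℂ) * Complex.I / ((3 : ℕ) : ℂ))

theorem ze_prim : IsPrimitiveRoot ze 3 := Complex.isPrimitiveRoot_exp 3 (by norm_num)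

theorem e3_eq (j : ZMod 3) : e3 j = ze ^ j.val := by
  rw [e3, ze, ← Complex.exp_nat_mul]
  congr 1
  push_cast
  ring

theorem e3_add (a b : ZMod 3) : e3 (a + b) = e3 a * e3 b := by
  rw [e3_eq, e3_eq, e3_eq, ← pow_add, ZMod.val_add]
  exact (pow_eq_pow_mod _ ze_prim.pow_eq_one).symm

theorem e3_zero : e3 0 = 1 := by
  rw [e3_eq]; simp

theorem norm_e3 (j : ZMod 3) : ‖e3 j‖ = 1 := by
  rw [e3_eq, norm_pow]
  have : ‖ze‖ = 1 := ze_prim.norm'_eq_one (by norm_num)
  rw [this, one_pow]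

theorem e3_sum {ι : Type} (s : Finset ι) (f : ι → ZMod 3) : e3 (∑ i ∈ s, f i) = ∏ i ∈ s, e3 (f i) := by
  classical
  induction s using Finset.induction_on with
  | empty => simp [e3_zero]
  | insert a s ha ih => rw [Finset.sum_insert ha, Finset.prod_insert ha, e3_add, ih]

theorem orth (v : ZMod 3) : ∑ y : ZMod 3, e3 (y * v) = if v = 0 then 3 else 0 := by
  have h0 : e3 0 + e3 1 + e3 2 = 0 := by
    have h := ze_prim.geom_sum_eq_zero (by norm_num)
    rw [Finset.sum_range_succ, Finset.sum_range_succ, Finset.sum_range_succ, Finset.sum_range_zero] at h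
    rw [e3_eq, e3_eq, e3_eq]
    have h1 : (0 : ZMod 3).val = 0 := rfl
    have h2 : (1 : ZMod 3).val = 1 := rfl
    have h3 : (2 : ZMod 3).val = 2 := rfl
    rw [h1, h2, h3]
    linear_combination h
  have hs : ∀ f : ZMod 3 → ℂ, ∑ y : ZMod 3, f y = f 0 + f 1 + f 2 := by
    intro f
    exact Fin.sum_univ_three f
  rw [hs]
  have hv : v = 0 ∨ v = 1 ∨ v = 2 := by revert v; decide
  rcases hv with rfl | rfl | rfl
  · simp only [mul_zero, e3_zero, if_true]; norm_num
  · rw [if_neg (by decide)]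
    simp only [mul_one]
    exact h0
  · rw [if_neg (by decide)]
    have h4 : (2 : ZMod 3) * 2 = 1 := by decide
    rw [zero_mul, one_mul, h4]
    linear_combination h0

theorem orth_pi {t : ℕ} (v : Fin t → ZMod 3) :
    ∑ y : Fin t → ZMod 3, e3 (∑ k, y k * v k) = if (∀ k, v k = 0) then (3 : ℂ) ^ t else 0 := by
  have h1 : ∑ y : Fin t → ZMod 3, e3 (∑ k, y k * v k) = ∑ y : Fin t → ZMod 3, ∏ k, e3 (y k * v k) :=
    Finset.sum_congr rfl (fun y _ => e3_sum _ _)
  have h2 : ∑ y : Fin t → ZMod 3, ∏ k, e3 (y k * v k) = ∏ k : Fin t, ∑ y : ZMod 3, e3 (y * v k) := by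
    rw [Finset.prod_univ_sum]
    simp
  rw [h1, h2, Finset.prod_congr rfl (fun k _ => orth (v k))]
  split_ifs with h
  · rw [Finset.prod_congr rfl (fun k _ => if_pos (h k))]
    simp
  · push Not at h
    obtain ⟨k, hk⟩ := h
    exact Finset.prod_eq_zero (Finset.mem_univ k) (if_neg hk)

/-- averaging over one component -/
theorem avg {t : ℕ} (P : Fin t → Finset E) (i : Fin t) (g : (Fin t → E) → ℂ) :
    ∑ π ∈ Fintype.piFinset P, ∑ a ∈ P i, g (Function.update π i a) =
      ((P i).card : ℂ) * ∑ π ∈ Fintype.piFinset P, g π := by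
  classical
  rw [← Finset.sum_product']
  have h1 : ∑ x ∈ Fintype.piFinset P ×ˢ P i, g (Function.update x.1 i x.2) =
      ∑ x ∈ Fintype.piFinset P ×ˢ P i, g x.1 := by
    refine Finset.sum_bij' (fun x _ => (Function.update x.1 i x.2, x.1 i))
      (fun x _ => (Function.update x.1 i x.2, x.1 i)) ?_ ?_ ?_ ?_ ?_
    · rintro ⟨π, a⟩ hx
      rw [Finset.mem_product, Fintype.mem_piFinset] at hx ⊢
      refine ⟨fun j => ?_, hx.1 i⟩
      by_cases hj : j = i
      · subst hj; simpa using hx.2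
      · simpa [Function.update_of_ne hj] using hx.1 j
    · rintro ⟨π, a⟩ hx
      rw [Finset.mem_product, Fintype.mem_piFinset] at hx ⊢
      refine ⟨fun j => ?_, hx.1 i⟩
      by_cases hj : j = i
      · subst hj; simpa using hx.2
      · simpa [Function.update_of_ne hj] using hx.1 j
    · rintro ⟨π, a⟩ _
      simp
    · rintro ⟨π, a⟩ _
      simp
    · rintro ⟨π, a⟩ _
      rfl
  rw [h1, Finset.sum_product]
  simp only [Finset.sum_const, nsmul_eq_mul]
  rw [Finset.mul_sum]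

/-- one term of the quadratic form -/
noncomputable def T {t : ℕ} (c : Fin t → ℕ) (h y : Fin t → ZMod 3) (π : Fin t → E)
    (p : Fin t × Fin t) : ZMod 3 :=
  y p.2 * ((c p.1 : ZMod 3) * (c p.2 : ZMod 3) * (h p.1 - h p.2) * sy π p.1 p.2)

theorem T_congr {t : ℕ} (c : Fin t → ℕ) (h y : Fin t → ZMod 3) (π π' : Fin t → E)
    (p : Fin t × Fin t) (h1 : π p.1 = π' p.1) (h2 : π p.2 = π' p.2) : T c h y π p = T c h y π' p := by
  unfold T sy
  rw [h1, h2]

theorem sum_T {t : ℕ} (c : Fin t → ℕ) (h y : Fin t → ZMod 3) (π : Fin t → E) :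
    ∑ k, y k * (∑ i, (c i : ZMod 3) * (c k : ZMod 3) * (h i - h k) * sy π i k) =
      ∑ p : Fin t × Fin t, T c h y π p := by
  rw [Fintype.sum_prod_type_right]
  refine Finset.sum_congr rfl (fun k _ => ?_)
  rw [Finset.mul_sum]
  rfl

/-- decomposition of the quadratic form for two changed components -/
theorem decomp {t : ℕ} (c : Fin t → ℕ) (h y : Fin t → ZMod 3) (π : Fin t → E) (i0 k0 : Fin t)
    (hik : i0 < k0) : ∃ A B : E → ZMod 3, ∀ a b : E,
      ∑ p : Fin t × Fin t, T c h y (Function.update (Function.update π i0 a) k0 b) p =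
        A a + B b + ((c i0 : ZMod 3) * (c k0 : ZMod 3) * (h i0 - h k0) * (y k0 - y i0)) * ind a b := by
  classical
  refine ⟨fun a => ∑ p ∈ Finset.univ.filter (fun p : Fin t × Fin t => p.1 ≠ k0 ∧ p.2 ≠ k0),
      T c h y (Function.update π i0 a) p,
    fun b => ∑ p ∈ (Finset.univ.filter (fun p : Fin t × Fin t => ¬ (p.1 ≠ k0 ∧ p.2 ≠ k0))).filter
      (fun p => p.1 ≠ i0 ∧ p.2 ≠ i0), T c h y (Function.update π k0 b) p, fun a b => ?_⟩
  have hne : i0 ≠ k0 := ne_of_lt hik
  set π' := Function.update (Function.update π i0 a) k0 b with hπ'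
  rw [← Finset.sum_filter_add_sum_filter_not Finset.univ (fun p : Fin t × Fin t => p.1 ≠ k0 ∧ p.2 ≠ k0),
    ← Finset.sum_filter_add_sum_filter_not
      (Finset.univ.filter (fun p : Fin t × Fin t => ¬ (p.1 ≠ k0 ∧ p.2 ≠ k0)))
      (fun p : Fin t × Fin t => p.1 ≠ i0 ∧ p.2 ≠ i0), ← add_assoc]
  have hi0 : π' i0 = a := by rw [hπ', Function.update_of_ne hne, Function.update_self]
  have hk0 : π' k0 = b := by rw [hπ', Function.update_self]
  congr 1
  · congr 1
    · refine Finset.sum_congr rfl (fun p hp => ?_)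
      rw [Finset.mem_filter] at hp
      apply T_congr
      · rw [hπ', Function.update_of_ne hp.2.1]
      · rw [hπ', Function.update_of_ne hp.2.2]
    · refine Finset.sum_congr rfl (fun p hp => ?_)
      rw [Finset.mem_filter] at hp
      have hj : ∀ j : Fin t, j ≠ i0 → π' j = Function.update π k0 b j := by
        intro j hj
        by_cases hjk : j = k0
        · rw [hjk, hk0, Function.update_self]
        · rw [hπ', Function.update_of_ne hjk, Function.update_of_ne hj, Function.update_of_ne hjk]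
      exact T_congr _ _ _ _ _ _ (hj _ hp.2.1) (hj _ hp.2.2)
  · have hset : (Finset.univ.filter (fun p : Fin t × Fin t => ¬ (p.1 ≠ k0 ∧ p.2 ≠ k0))).filter
        (fun p => ¬ (p.1 ≠ i0 ∧ p.2 ≠ i0)) = {(i0, k0), (k0, i0)} := by
      ext ⟨p, q⟩
      simp only [Finset.mem_filter, Finset.mem_univ, true_and, Finset.mem_insert, Finset.mem_singleton,
        Prod.mk.injEq, not_and_or, not_not]
      constructor
      · rintro ⟨h1 | h1, h2 | h2⟩
        · exact absurd (h2.symm.trans h1) hne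
        · exact Or.inr ⟨h1, h2⟩
        · exact Or.inl ⟨h2, h1⟩
        · exact absurd (h2.symm.trans h1) hne
      · rintro (⟨h1, h2⟩ | ⟨h1, h2⟩)
        · exact ⟨Or.inr h2, Or.inl h1⟩
        · exact ⟨Or.inl h1, Or.inr h2⟩
    rw [hset, Finset.sum_pair (by
      intro h
      rw [Prod.mk.injEq] at h
      exact hne h.1)]
    have s1 : sy π' i0 k0 = ind a b := by
      unfold sy; rw [if_pos hik, hi0, hk0]
    have s2 : sy π' k0 i0 = ind a b := by
      unfold sy; rw [if_neg (not_lt.mpr hik.le), hi0, hk0]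
    simp only [T, s1, s2]
    ring

/-- a pair which is separated by both functions -/
theorem pair {t : ℕ} (h y : Fin t → ZMod 3) (hh : ∃ i k, h i ≠ h k) (hy : ¬ ∀ i k, y i = y k) :
    ∃ i0 k0 : Fin t, i0 < k0 ∧ (h i0 - h k0) * (y k0 - y i0) ≠ 0 := by
  have main : ∃ i k : Fin t, h i ≠ h k ∧ y i ≠ y k := by
    by_contra hcon
    push Not at hcon
    obtain ⟨i, k, hik⟩ := hh
    apply hy
    have hyik : y i = y k := hcon i k hik
    have hall : ∀ l, y l = y i := by
      intro l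
      by_cases hl : h l = h i
      · have : h l ≠ h k := by rw [hl]; exact hik
        rw [hcon l k this, hyik]
      · exact hcon l i hl
    intro a b
    rw [hall a, hall b]
  obtain ⟨i, k, h1, h2⟩ := main
  have hik : i ≠ k := fun e => h1 (by rw [e])
  have : Fact (Nat.Prime 3) := ⟨by norm_num⟩
  rcases lt_or_gt_of_ne hik with hlt | hlt
  · exact ⟨i, k, hlt, mul_ne_zero (sub_ne_zero.mpr h1) (sub_ne_zero.mpr (Ne.symm h2))⟩
  · exact ⟨k, i, hlt, mul_ne_zero (sub_ne_zero.mpr (Ne.symm h1)) (sub_ne_zero.mpr h2)⟩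

theorem d1 : ((1 : ℕ) : ZMod 3) ≠ 0 := by decide

theorem d2 : ((2 : ℕ) : ZMod 3) ≠ 0 := by decide

/-- the bound for a non-constant `y` -/
theorem bound {t : ℕ} (c : Fin t → ℕ) (hc : ∀ i, c i = 1 ∨ c i = 2) (δ : ℝ) (P : Fin t → Finset E)
    (h y : Fin t → ZMod 3) (hh : ∃ i k, h i ≠ h k) (hy : ¬ ∀ i k, y i = y k)
    (hB : ∀ i k : Fin t, ∀ e : ZMod 3, e ≠ 0 → ∀ α β : E → ℂ, (∀ z, ‖α z‖ ≤ 1) → (∀ z, ‖β z‖ ≤ 1) →
      ‖∑ π ∈ P i, ∑ π' ∈ P k, α π * β π' * e3 (e * ind π π')‖ ≤ δ * ((P i).card * (P k).card))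
    (hP : ∀ i, (P i).card ≠ 0) :
    ‖∑ π ∈ Fintype.piFinset P, e3 (∑ p : Fin t × Fin t, T c h y π p)‖ ≤
      δ * ((Fintype.piFinset P).card : ℝ) := by
  classical
  have : Fact (Nat.Prime 3) := ⟨by norm_num⟩
  obtain ⟨i0, k0, hlt, hne⟩ := pair h y hh hy
  have hcne : ∀ i, (c i : ZMod 3) ≠ 0 := by
    intro i
    rcases hc i with h1 | h1
    · rw [h1]; exact d1
    · rw [h1]; exact d2
  set e : ZMod 3 := (c i0 : ZMod 3) * (c k0 : ZMod 3) * (h i0 - h k0) * (y k0 - y i0) with he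
  have hene : e ≠ 0 := by
    rw [he, mul_assoc]
    exact mul_ne_zero (mul_ne_zero (hcne i0) (hcne k0)) hne
  set g : (Fin t → E) → ℂ := fun π => e3 (∑ p : Fin t × Fin t, T c h y π p) with hg
  have h1 : ((P i0).card : ℂ) * (((P k0).card : ℂ) * ∑ π ∈ Fintype.piFinset P, g π) =
      ∑ π ∈ Fintype.piFinset P, ∑ a ∈ P i0, ∑ b ∈ P k0,
        g (Function.update (Function.update π i0 a) k0 b) := by
    rw [← avg P k0 g, ← avg P i0 (fun π => ∑ b ∈ P k0, g (Function.update π k0 b))]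
  have h2 : ‖∑ π ∈ Fintype.piFinset P, ∑ a ∈ P i0, ∑ b ∈ P k0,
      g (Function.update (Function.update π i0 a) k0 b)‖ ≤
      ((Fintype.piFinset P).card : ℝ) * (δ * ((P i0).card * (P k0).card)) := by
    refine (norm_sum_le _ _).trans ?_
    rw [← nsmul_eq_mul]
    refine Finset.sum_le_card_nsmul _ _ _ (fun π _ => ?_)
    obtain ⟨A, B, hAB⟩ := decomp c h y π i0 k0 hlt
    have h3 : ∑ a ∈ P i0, ∑ b ∈ P k0, g (Function.update (Function.update π i0 a) k0 b) =
        ∑ a ∈ P i0, ∑ b ∈ P k0, e3 (A a) * e3 (B b) * e3 (e * ind a b) := by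
      refine Finset.sum_congr rfl (fun a _ => Finset.sum_congr rfl (fun b _ => ?_))
      simp only [hg]
      rw [hAB a b, e3_add, e3_add]
    rw [h3]
    exact hB i0 k0 e hene (fun a => e3 (A a)) (fun b => e3 (B b)) (fun z => (norm_e3 _).le)
      (fun z => (norm_e3 _).le)
  rw [← h1, norm_mul, norm_mul, Complex.norm_natCast, Complex.norm_natCast] at h2
  have p1 : (0 : ℝ) < (P i0).card := by exact_mod_cast Nat.pos_of_ne_zero (hP i0)
  have p2 : (0 : ℝ) < (P k0).card := by exact_mod_cast Nat.pos_of_ne_zero (hP k0)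
  have p3 : (0 : ℝ) < (P i0).card * (P k0).card := mul_pos p1 p2
  have h4 : ((P i0).card * (P k0).card : ℝ) * ‖∑ π ∈ Fintype.piFinset P, g π‖ ≤
      ((P i0).card * (P k0).card : ℝ) * (δ * ((Fintype.piFinset P).card : ℝ)) := by
    linarith
  exact le_of_mul_le_mul_left h4 p3

theorem card_const {t : ℕ} (i : Fin t) :
    (Finset.univ.filter (fun y : Fin t → ZMod 3 => ∀ i k, y i = y k)).card ≤ 3 := by
  classical
  have h1 : (Finset.univ.filter (fun y : Fin t → ZMod 3 => ∀ i k, y i = y k)).card ≤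
      (Finset.univ : Finset (ZMod 3)).card := by
    refine Finset.card_le_card_of_injOn (fun y => y i) (fun y _ => Finset.mem_coe.mpr (Finset.mem_univ _)) ?_
    intro y hy y' hy' h
    rw [Finset.mem_coe, Finset.mem_filter] at hy hy'
    funext k
    rw [hy.2 k i, hy'.2 k i]
    exact h
  rwa [Finset.card_univ, ZMod.card] at h1

end IFmo

open IFmo in
/-- FMO: the first moment for a fixed non-constant `h`. -/
theorem pr_Fmo (h1 : StBlt) : StFmo := by
  classical
  intro t c hc δ hδ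
  obtain ⟨X0, hX0⟩ := h1 δ hδ
  refine ⟨max X0 1, fun X hX P hP hcard h hh => ?_⟩
  have hX0' : X0 ≤ X := le_trans (le_max_left _ _) hX
  have hX1 : 1 ≤ X := le_trans (le_max_right _ _) hX
  have hpos : ∀ i, (P i).card ≠ 0 := by
    intro i h0
    have h2 := hcard i
    rw [h0] at h2
    have h3 : (0 : ℝ) < (X : ℝ) ^ (19 / 20 : ℝ) := by
      apply Real.rpow_pos_of_pos
      exact_mod_cast hX1
    simp only [Nat.cast_zero] at h2
    linarith
  set F := Fintype.piFinset P with hF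
  have hFcard : (F.card : ℝ) = ∏ i, ((P i).card : ℝ) := by
    rw [hF, Fintype.card_piFinset]; push_cast; rfl
  rw [← hFcard]
  set S := F.filter (fun π => ∀ k,
    ∑ i, (c i : ZMod 3) * (c k : ZMod 3) * (h i - h k) * sy π i k = 0) with hS
  have hcount : ((3 : ℂ) ^ t) * (S.card : ℂ) =
      ∑ y : Fin t → ZMod 3, ∑ π ∈ F, e3 (∑ p : Fin t × Fin t, T c h y π p) := by
    rw [Finset.sum_comm]
    have h2 : ∀ π ∈ F, ∑ y : Fin t → ZMod 3, e3 (∑ p : Fin t × Fin t, T c h y π p) =
        if (∀ k, ∑ i, (c i : ZMod 3) * (c k : ZMod 3) * (h i - h k) * sy π i k = 0) then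
          (3 : ℂ) ^ t else 0 := by
      intro π _
      rw [← orth_pi]
      refine Finset.sum_congr rfl (fun y _ => ?_)
      rw [← sum_T]
    rw [Finset.sum_congr rfl h2, ← Finset.sum_filter, Finset.sum_const, nsmul_eq_mul, mul_comm]
  have hy : ∀ y : Fin t → ZMod 3, ‖∑ π ∈ F, e3 (∑ p : Fin t × Fin t, T c h y π p)‖ ≤
      (if (∀ i k, y i = y k) then (F.card : ℝ) else 0) + δ * F.card := by
    intro y
    split_ifs with hyc
    · have h2 : ‖∑ π ∈ F, e3 (∑ p : Fin t × Fin t, T c h y π p)‖ ≤ F.card := by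
        refine (norm_sum_le _ _).trans ?_
        rw [Finset.sum_congr rfl (fun π _ => norm_e3 _), Finset.sum_const, nsmul_eq_mul, mul_one]
      have h3 : 0 ≤ δ * (F.card : ℝ) := by positivity
      linarith
    · rw [zero_add]
      exact bound c hc δ P h y hh hyc (fun i k e he α β hα hβ =>
        hX0 X hX0' (P i) (P k) (hP i) (hP k) (hcard i) (hcard k) e he α β hα hβ) hpos
  obtain ⟨i, _, _⟩ := id hh
  have hfin : (3 : ℝ) ^ t * (S.card : ℝ) ≤ 3 * F.card + 3 ^ t * (δ * F.card) := by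
    have h2 : ‖((3 : ℂ) ^ t) * (S.card : ℂ)‖ = (3 : ℝ) ^ t * (S.card : ℝ) := by
      rw [norm_mul, norm_pow, Complex.norm_natCast]
      norm_num
    rw [← h2, hcount]
    refine (norm_sum_le _ _).trans ((Finset.sum_le_sum (fun y _ => hy y)).trans ?_)
    rw [Finset.sum_add_distrib, Finset.sum_const, ← Finset.sum_filter, Finset.sum_const, nsmul_eq_mul,
      nsmul_eq_mul]
    have h3 : ((Finset.univ : Finset (Fin t → ZMod 3)).card : ℝ) = 3 ^ t := by
      rw [Finset.card_univ, Fintype.card_fun, ZMod.card, Fintype.card_fin]; push_cast; rfl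
    rw [h3]
    have h4 : ((Finset.univ.filter (fun y : Fin t → ZMod 3 => ∀ i k, y i = y k)).card : ℝ) ≤ 3 := by
      exact_mod_cast card_const i
    have h5 : (0 : ℝ) ≤ F.card := Nat.cast_nonneg _
    nlinarith
  have h3t : (0 : ℝ) < 3 ^ t := by positivity
  have h6 : (3 : ℝ) ^ t * ((3 / 3 ^ t + δ) * F.card) = 3 * F.card + 3 ^ t * (δ * F.card) := by
    field_simp
  refine le_of_mul_le_mul_left ?_ h3t
  rw [h6]
  exact hfin

end Pool.Agent.Work.MP_59f3ad_nt.Q3
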