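import Mathlib
import Pool.Agent.Work.MP_59f3ad_nt.Q3.StmtsC

/-!
# Block Q3, item Gkk
-/

set_option autoImplicit false

open NumberField IsDedekindDomain

namespace Pool.Agent.Work.MP_59f3ad_nt.Q3

universe u

namespace IGkk

variable {L : Type u} [Field L]

/-- The cyclotomic character of all automorphisms. -/
noncomputable abbrev X (L : Type u) [Field L] : (AlgebraicClosure L ≃+* AlgebraicClosure L) →* ℤ_[3]ˣ :=
  cyclotomicCharacter (AlgebraicClosure L) 3

theorem cyc_eq (g : GK L) (a : AlgebraicClosure L ≃+* AlgebraicClosure L) (h : ∀ y, a y = g y) :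
    cyc L 3 g = X L a := by
  have e : MulSemiringAction.toRingAut (GK L) (AlgebraicClosure L) g = a := by
    ext y
    exact (h y).symm
  unfold cyc
  rw [MonoidHom.comp_apply, e]

theorem twist_of_cyc {g : GK L} (h : cyc L 3 g = 1) (r : ℤ) : twist L 3 r g = 1 := by
  unfold twist
  rw [h, one_zpow, Units.val_one]

theorem twist_congr {g h : GK L} (e : cyc L 3 g = cyc L 3 h) (r : ℤ) :
    twist L 3 r g = twist L 3 r h := by
  unfold twist
  rw [e]

theorem cyc_cj {σ : L ≃+* L} {s : AlgebraicClosure L ≃+* AlgebraicClosure L} (hs : Ext σ s)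
    (h : GK L) : cyc L 3 (cj hs h) = cyc L 3 h := by
  have e1 : cyc L 3 h = X L (h : AlgebraicClosure L ≃+* AlgebraicClosure L) :=
    cyc_eq h _ fun _ => rfl
  have e2 : cyc L 3 (cj hs h) =
      X L (s⁻¹ * (h : AlgebraicClosure L ≃+* AlgebraicClosure L) * s) := by
    refine cyc_eq _ _ fun y => ?_
    rw [cj_apply]
    rfl
  rw [e2, e1, map_mul, map_mul, map_inv, mul_comm, mul_inv_cancel_left]

theorem psi_one {r : ℤ} {ψ : GK L → ℤ_[3]} (hψ : ψ ∈ Z1 L 3 r) : ψ 1 = 0 := by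
  have h := hψ.2 1 1
  rw [mul_one, twist_one, one_mul] at h
  simpa using h

theorem psi_conj {r : ℤ} {ψ : GK L → ℤ_[3]} (hψ : ψ ∈ Z1 L 3 r) {a : GK L}
    (ha : twist L 3 r a = 1) (h : GK L) :
    ψ (a⁻¹ * h * a) = ψ h - (1 - twist L 3 r h) * ψ a := by
  have h1 : twist L 3 r a⁻¹ = 1 := by
    have := twist_mul L 3 r a a⁻¹
    rw [mul_inv_cancel, twist_one, ha, one_mul] at this
    exact this.symm
  have h2 : ψ a⁻¹ = - ψ a := by
    have := hψ.2 a a⁻¹
    rw [mul_inv_cancel, psi_one hψ, ha, one_mul] at this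
    linear_combination -this
  rw [hψ.2 (a⁻¹ * h) a, hψ.2 a⁻¹ h, twist_mul, h1, h2]
  ring

end IGkk

open IGkk in
theorem pr_Gkk : StGkk.{u} := by
  intro L _ _ σ s τ hs hτ Xs Xτ g k hg hk r ψ hψ hinv hψk ⟨h, hh⟩
  have eg : cyc L 3 g = 1 := by
    have e1 : cyc L 3 g = X L (s⁻¹ * τ) := by
      refine cyc_eq _ _ fun y => ?_
      have : (s⁻¹ * τ) y = s.symm (τ y) := rfl
      rw [this, hg, RingEquiv.symm_apply_apply]
    rw [e1, map_mul, map_inv]
    change (X L s)⁻¹ * X L τ = 1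
    rw [show X L s = 1 from Xs, show X L τ = 1 from Xτ]
    simp
  have ek : cyc L 3 k = 1 := by
    have e1 : cyc L 3 k = X L (τ * τ * τ) := by
      refine cyc_eq _ _ fun y => ?_
      rw [hk]
      rfl
    rw [e1, map_mul, map_mul, show X L τ = 1 from Xτ]
    simp
  have tg := twist_of_cyc eg r
  have tk := twist_of_cyc ek r
  have tsymm : ∀ z, τ.symm z = g⁻¹ (s.symm z) := by
    intro z
    have h1 : τ (g⁻¹ (s.symm z)) = z := by
      rw [hg]
      have : g (g⁻¹ (s.symm z)) = s.symm z := by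
        rw [← AlgEquiv.mul_apply, mul_inv_cancel, AlgEquiv.one_apply]
      rw [this, RingEquiv.apply_symm_apply]
    exact (τ.symm_apply_eq).2 h1.symm
  have c1 : ∀ x : GK L, cj hτ x = g⁻¹ * cj hs x * g := by
    intro x
    ext y
    rw [cj_apply, AlgEquiv.mul_apply, AlgEquiv.mul_apply, cj_apply, tsymm, hg]
  have c2 : ∀ x : GK L, ψ (cj hτ x) = ψ x - (1 - twist L 3 r x) * ψ g := by
    intro x
    rw [c1, psi_conj hψ tg, hinv, twist_congr (cyc_cj hs x)]
  have c3 : ∀ x : GK L, cj hτ (cj hτ (cj hτ x)) = k⁻¹ * x * k := by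
    intro x
    ext y
    rw [cj_apply, cj_apply, cj_apply, AlgEquiv.mul_apply, AlgEquiv.mul_apply]
    have hks : ∀ z, k⁻¹ z = τ.symm (τ.symm (τ.symm z)) := by
      intro z
      have h1 : k (τ.symm (τ.symm (τ.symm z))) = z := by
        rw [hk]
        simp
      have h2 : k⁻¹ (k (τ.symm (τ.symm (τ.symm z)))) = τ.symm (τ.symm (τ.symm z)) := by
        rw [← AlgEquiv.mul_apply, inv_mul_cancel, AlgEquiv.one_apply]
      rw [← h2, h1]
    rw [hks, hk]
  have c4 : ψ (cj hτ (cj hτ (cj hτ h))) = ψ h - 3 * ((1 - twist L 3 r h) * ψ g) := by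
    have t1 : twist L 3 r (cj hτ h) = twist L 3 r h := twist_congr (cyc_cj hτ h) r
    have t2 : twist L 3 r (cj hτ (cj hτ h)) = twist L 3 r h :=
      (twist_congr (cyc_cj hτ _) r).trans t1
    rw [c2, c2, c2, t2, t1]
    ring
  rw [c3, psi_conj hψ tk, hψk] at c4
  have c5 : (3 : ℤ_[3]) * ((1 - twist L 3 r h) * ψ g) = 0 := by linear_combination c4
  rcases mul_eq_zero.1 c5 with h1 | h1
  · exact absurd h1 (by norm_num)
  · rcases mul_eq_zero.1 h1 with h2 | h2
    · exact absurd (sub_eq_zero.1 h2).symm hh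
    · exact h2

end Pool.Agent.Work.MP_59f3ad_nt.Q3
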