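import Mathlib
import Pool.Agent.Work.MP_59f3ad_nt.Q3.StmtsG

/-!
MP_59f3ad_nt, block Q3, item H90 (helper83): Hilbert 90 for the cyclic cubic extension.
-/

open NumberField IsDedekindDomain

namespace Pool.Agent.Work.MP_59f3ad_nt.Q3

universe u

namespace IH90

variable {F L : Type u} [Field F] [Field L] [Algebra F L]

theorem order_eq [FiniteDimensional F L] (σ : L ≃ₐ[F] L) (h3 : Module.finrank F L = 3)
    (hfix : ∀ y : L, σ y = y → ∃ z : F, y = algebraMap F L z) : orderOf σ = 3 := by
  classical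
  have h1 := IntermediateField.finrank_fixedField_eq_card (Subgroup.zpowers σ)
  have h2 : IntermediateField.fixedField (Subgroup.zpowers σ) = ⊥ := by
    rw [eq_bot_iff]
    intro y hy
    have h := hy ⟨σ, Subgroup.mem_zpowers σ⟩
    obtain ⟨z, hz⟩ := hfix y h
    rw [IntermediateField.mem_bot]
    exact ⟨z, hz.symm⟩
  rw [h2, IntermediateField.finrank_bot', h3, Nat.card_zpowers] at h1
  exact h1.symm

theorem cube_one [FiniteDimensional F L] (σ : L ≃ₐ[F] L) (h3 : Module.finrank F L = 3)
    (hfix : ∀ y : L, σ y = y → ∃ z : F, y = algebraMap F L z) (y : L) : σ (σ (σ y)) = y := by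
  have h := pow_orderOf_eq_one σ
  rw [order_eq σ h3 hfix] at h
  have h2 := congrArg (fun g : L ≃ₐ[F] L => g y) h
  simpa [pow_succ, AlgEquiv.mul_apply] using h2

theorem ne_one [FiniteDimensional F L] (σ : L ≃ₐ[F] L) (h3 : Module.finrank F L = 3)
    (hfix : ∀ y : L, σ y = y → ∃ z : F, y = algebraMap F L z) : ¬ ∀ y, σ y = y := by
  intro h
  have h1 : σ = 1 := AlgEquiv.ext h
  have h2 := order_eq σ h3 hfix
  rw [h1, orderOf_one] at h2
  norm_num at h2

theorem h90 [FiniteDimensional F L] (σ : L ≃ₐ[F] L) (h3 : Module.finrank F L = 3)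
    (hfix : ∀ y : L, σ y = y → ∃ z : F, y = algebraMap F L z) (c : L)
    (hc : c * σ c * σ (σ c) = 1) : ∃ d : L, d ≠ 0 ∧ σ d = c * d := by
  have hs3 := cube_one σ h3 hfix
  have hs1 := ne_one σ h3 hfix
  let v : Fin 3 → (L →* L) := ![MonoidHom.id L, ((σ : L →ₐ[F] L) : L →* L),
    (((σ : L →ₐ[F] L) : L →* L)).comp (((σ : L →ₐ[F] L) : L →* L))]
  have hv0 : ∀ y, v 0 y = y := fun y => rfl
  have hv1 : ∀ y, v 1 y = σ y := fun y => rfl
  have hv2 : ∀ y, v 2 y = σ (σ y) := fun y => rfl
  have h01 : v 0 ≠ v 1 := by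
    intro h
    apply hs1
    intro y
    have := congrArg (fun g : L →* L => g y) h
    exact this.symm
  have h02 : v 0 ≠ v 2 := by
    intro h
    apply hs1
    intro y
    have h2 : y = σ (σ y) := congrArg (fun g : L →* L => g y) h
    have h3 : σ y = σ (σ (σ y)) := congrArg σ h2
    rw [h3, hs3]
  have h12 : v 1 ≠ v 2 := by
    intro h
    apply hs1
    intro y
    have h2 : σ y = σ (σ y) := congrArg (fun g : L →* L => g y) h
    exact (σ.injective h2).symm
  have hinj : Function.Injective v := by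
    intro i j hij
    fin_cases i <;> fin_cases j
    · rfl
    · exact absurd hij h01
    · exact absurd hij h02
    · exact absurd hij.symm h01
    · rfl
    · exact absurd hij h12
    · exact absurd hij.symm h02
    · exact absurd hij.symm h12
    · rfl
  have hli := (linearIndependent_monoidHom L L).comp v hinj
  rw [Fintype.linearIndependent_iff] at hli
  have hz : ∃ z : L, z + c * σ z + c * σ c * σ (σ z) ≠ 0 := by
    by_contra hcon
    push Not at hcon
    have h := hli ![1, c, c * σ c] (by
      funext z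
      rw [Fin.sum_univ_three]
      simp only [Function.comp_apply, Pi.add_apply, Pi.smul_apply, smul_eq_mul]
      change 1 * z + c * σ z + c * σ c * σ (σ z) = 0
      rw [one_mul]
      exact hcon z) 0
    exact one_ne_zero h
  obtain ⟨z, hz⟩ := hz
  set e := z + c * σ z + c * σ c * σ (σ z) with he
  have hce : c * σ e = e := by
    rw [he, map_add, map_add, map_mul, map_mul, map_mul, hs3]
    linear_combination z * hc
  have hσe : σ e ≠ 0 := by
    intro h
    rw [h, mul_zero] at hce
    exact hz hce.symm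
  have hc0 : c ≠ 0 := by
    intro h
    rw [h, zero_mul] at hce
    exact hz hce.symm
  refine ⟨e⁻¹, inv_ne_zero hz, ?_⟩
  rw [map_inv₀]
  have h4 : e⁻¹ = c⁻¹ * (σ e)⁻¹ := by
    rw [← hce, mul_inv, hce]
  rw [h4, mul_inv_cancel_left₀ hc0]

end IH90

theorem pr_H90 : StH90 := by
  intro F L _ _ _ _ _ w x σ M h
  have : FiniteDimensional F L := by
    apply Module.finite_of_finrank_pos
    rw [h.hL]
    norm_num
  exact ⟨IH90.cube_one σ h.hL h.hfix, fun c hc => IH90.h90 σ h.hL h.hfix c hc⟩

end Pool.Agent.Work.MP_59f3ad_nt.Q3
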