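import Mathlib
import Pool.Agent.Work.MP_59f3ad_nt.Q3.StmtsR

set_option autoImplicit false

/-!
# MP_59f3ad_nt, block Q3, item Ind: rules for the index
-/

open NumberField IsDedekindDomain

namespace Pool.Agent.Work.MP_59f3ad_nt.Q3

namespace IInd

variable {F : Type*} [Field F]

theorem cube {ρ : F} (h : ρ ^ 2 + ρ + 1 = 0) : ρ ^ 3 = 1 := by
  linear_combination (ρ - 1) * h

theorem ne2 {ρ : F} (h : ρ ^ 2 + ρ + 1 = 0) (h1 : ρ ≠ 1) : ρ ^ 2 ≠ 1 := by
  intro h2
  apply h1
  have h3 := cube h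
  calc ρ = ρ * ρ ^ 2 := by rw [h2, mul_one]
    _ = ρ ^ 3 := by ring
    _ = 1 := h3

theorem ne0 {ρ : F} (h : ρ ^ 2 + ρ + 1 = 0) : ρ ≠ 0 := by
  rintro rfl
  simp at h

theorem ne21 {ρ : F} (h : ρ ^ 2 + ρ + 1 = 0) (h1 : ρ ≠ 1) : ρ ^ 2 ≠ ρ := by
  intro h2
  apply h1
  have h3 : ρ * (ρ - 1) = 0 := by linear_combination h2
  rcases mul_eq_zero.1 h3 with h4 | h4
  · exact absurd h4 (ne0 h)
  · exact sub_eq_zero.1 h4

theorem val0 : ((0 : ZMod 3)).val = 0 := rfl
theorem val1 : ((1 : ZMod 3)).val = 1 := rfl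
theorem val2 : ((2 : ZMod 3)).val = 2 := rfl

theorem cases3 (a : ZMod 3) : a = 0 ∨ a = 1 ∨ a = 2 := by
  revert a
  decide

theorem inj {ρ : F} (h : ρ ^ 2 + ρ + 1 = 0) (h1 : ρ ≠ 1) {a b : ZMod 3}
    (hab : ρ ^ a.val = ρ ^ b.val) : a = b := by
  have e2 := ne2 h h1
  have e3 := ne21 h h1
  rcases cases3 a with rfl | rfl | rfl <;> rcases cases3 b with rfl | rfl | rfl <;>
    simp only [val0, val1, val2, pow_zero, pow_one] at hab ⊢
  · exact absurd hab.symm h1
  · exact absurd hab.symm e2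
  · exact absurd hab h1
  · exact absurd hab.symm e3
  · exact absurd hab e2
  · exact absurd hab e3

theorem add {ρ : F} (h : ρ ^ 2 + ρ + 1 = 0) (a b : ZMod 3) :
    ρ ^ (a + b).val = ρ ^ a.val * ρ ^ b.val := by
  have h3 := cube h
  have s1 : (1 + 1 : ZMod 3) = 2 := by decide
  have s2 : (1 + 2 : ZMod 3) = 0 := by decide
  have s3 : (2 + 1 : ZMod 3) = 0 := by decide
  have s4 : (2 + 2 : ZMod 3) = 1 := by decide
  rcases cases3 a with rfl | rfl | rfl <;> rcases cases3 b with rfl | rfl | rfl <;>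
    simp only [val0, val1, val2, pow_zero, pow_one, zero_add, add_zero, one_mul, mul_one,
      s1, s2, s3, s4]
  · ring
  · linear_combination -h3
  · linear_combination -h3
  · linear_combination -ρ * h3

theorem three {ρ : F} (h : ρ ^ 2 + ρ + 1 = 0) {x : F} (hx : x ^ 3 = 1) :
    x = 1 ∨ x = ρ ∨ x = ρ ^ 2 := by
  have h3 := cube h
  have e : (x - 1) * ((x - ρ) * (x - ρ ^ 2)) = 0 := by
    linear_combination hx - (x - 1) * x * h + (x - 1) * h3
  rcases mul_eq_zero.1 e with e1 | e1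
  · exact Or.inl (sub_eq_zero.1 e1)
  · rcases mul_eq_zero.1 e1 with e2 | e2
    · exact Or.inr (Or.inl (sub_eq_zero.1 e2))
    · exact Or.inr (Or.inr (sub_eq_zero.1 e2))

/-- cubes in a finite field -/
theorem isCube {p : ℕ} [Fact p.Prime] {k : ℕ} (hk : 3 * k = p - 1) (hk0 : 0 < k) {u : ZMod p}
    (hu : u ≠ 0) (h : u ^ k = 1) : ∃ w : ZMod p, w ^ 3 = u := by
  obtain ⟨g, hg⟩ := IsCyclic.exists_generator (α := (ZMod p)ˣ)
  obtain ⟨n, hn⟩ := Subgroup.mem_zpowers_iff.1 (hg (Units.mk0 u hu))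
  have h1 : (Units.mk0 u hu) ^ k = 1 := by
    ext
    simpa using h
  rw [← hn, ← zpow_natCast, ← zpow_mul] at h1
  have h2 : (orderOf g : ℤ) ∣ n * (k : ℤ) := orderOf_dvd_iff_zpow_eq_one.2 h1
  have h3 : orderOf g = p - 1 := by
    rw [orderOf_eq_card_of_forall_mem_zpowers hg, Nat.card_eq_fintype_card, ZMod.card_units]
  rw [h3, ← hk] at h2
  push_cast at h2
  have h4 : (3 : ℤ) ∣ n := by
    have h5 : (k : ℤ) * 3 ∣ (k : ℤ) * n := by
      rw [mul_comm (k : ℤ) 3, mul_comm (k : ℤ) n]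
      exact h2
    exact Int.dvd_of_mul_dvd_mul_left (by exact_mod_cast hk0.ne') h5
  obtain ⟨m, rfl⟩ := h4
  refine ⟨((g ^ m : (ZMod p)ˣ) : ZMod p), ?_⟩
  have h6 : (g ^ m) ^ 3 = Units.mk0 u hu := by
    rw [← hn, ← zpow_natCast, ← zpow_mul]
    congr 1
    push_cast
    ring
  have h7 := congrArg (fun x : (ZMod p)ˣ => (x : ZMod p)) h6
  simpa using h7

end IInd

theorem pr_Ind (h1 : StRho) : StInd := by
  intro π hπ
  obtain ⟨hr, hz, h3, h7, hr1⟩ := h1 π hπ
  haveI : Fact (nm π).Prime := ⟨hπ.pr⟩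
  obtain ⟨k, hk⟩ := h3
  have hk' : ((nm π) - 1) / 3 = k := by rw [hk]; exact Nat.mul_div_cancel_left k (by norm_num)
  have hk0 : 0 < k := by omega
  have hmul : ∀ a b : E, ev (rho π) (a * b) = ev (rho π) a * ev (rho π) b :=
    fun a b => (evH (rho π) hr).map_mul a b
  have hpow : ∀ (a : E) (n : ℕ), ev (rho π) (a ^ n) = ev (rho π) a ^ n :=
    fun a n => (evH (rho π) hr).map_pow a n
  have hsub : ∀ a b : E, ev (rho π) (a - b) = ev (rho π) a - ev (rho π) b :=
    fun a b => (evH (rho π) hr).map_sub a b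
  have hone : ev (rho π) (1 : E) = 1 := (evH (rho π) hr).map_one
  have hneg : ev (rho π) (-1 : E) = -1 := by
    have := (evH (rho π) hr).map_neg 1
    rw [(evH (rho π) hr).map_one] at this
    exact this
  have hnat : ∀ n : ℕ, ev (rho π) ((n : ℕ) : E) = (n : ZMod (nm π)) := fun n => map_natCast (evH (rho π) hr) n
  have hne : ∀ z : E, ¬ π ∣ z → ev (rho π) z ≠ 0 := fun z h h0 => h ((hz z).1 h0)
  have hA : ∀ z : E, ¬ π ∣ z → (ev (rho π) z) ^ (((nm π) - 1) / 3) = (rho π) ^ (ind π z).val := by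
    intro z hzz
    have hu := hne z hzz
    have hx : ((ev (rho π) z) ^ k) ^ 3 = 1 := by
      rw [← pow_mul, mul_comm, ← hk]
      exact ZMod.pow_card_sub_one_eq_one hu
    rw [hk']
    unfold ind
    rw [hk']
    rcases IInd.three hr hx with e | e | e
    · rw [if_pos e, e, IInd.val0, pow_zero]
    · rw [if_neg (by rw [e]; exact hr1), if_pos e, e, IInd.val1, pow_one]
    · rw [if_neg (by rw [e]; exact IInd.ne2 hr hr1), if_neg (by rw [e]; exact IInd.ne21 hr hr1),
        if_pos e, e, IInd.val2]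
  refine ⟨hA, ?_, ?_, ?_, ?_, ?_⟩
  · intro z z' hzz hzz'
    have h0 : ¬ π ∣ z * z' := by
      intro hd
      have := (hz (z * z')).2 hd
      rw [hmul] at this
      rcases mul_eq_zero.1 this with e | e
      · exact hne z hzz e
      · exact hne z' hzz' e
    apply IInd.inj hr hr1
    rw [IInd.add hr, ← hA _ h0, ← hA _ hzz, ← hA _ hzz', hmul, mul_pow]
  · intro z z' hd
    have h0 : ev (rho π) z = ev (rho π) z' := by
      have := (hz (z - z')).2 hd
      rw [hsub] at this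
      exact sub_eq_zero.1 this
    unfold ind
    rw [h0]
  · intro z hzz
    constructor
    · intro h0
      have e := hA z hzz
      rw [h0, IInd.val0, pow_zero, hk'] at e
      obtain ⟨w, hw⟩ := IInd.isCube hk.symm hk0 (hne z hzz) e
      refine ⟨((w.val : ℕ) : E), ?_⟩
      rw [← hz, hsub, hpow, hnat, ZMod.natCast_zmod_val, hw, sub_self]
    · rintro ⟨y, hy⟩
      have e := (hz _).2 hy
      rw [hsub, hpow] at e
      have e1 : ev (rho π) z = ev (rho π) y ^ 3 := (sub_eq_zero.1 e).symm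
      have e2 : ev (rho π) y ≠ 0 := by
        intro e3
        rw [e3] at e1
        exact hne z hzz (by rw [e1]; ring)
      apply IInd.inj hr hr1
      rw [← hA z hzz, IInd.val0, pow_zero, hk', e1, ← pow_mul, ← hk]
      exact ZMod.pow_card_sub_one_eq_one e2
  · unfold ind
    rw [hk', hneg]
    have hodd : Even k := by
      have h5 : Odd (nm π) := hπ.pr.odd_of_ne_two (by omega)
      have h6 : Even ((nm π) - 1) := Nat.Odd.sub_odd h5 odd_one
      rw [hk] at h6
      rcases Nat.even_mul.1 h6 with h8 | h8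
      · exact absurd h8 (by decide)
      · exact h8
    rw [if_pos hodd.neg_one_pow]
  · refine ⟨?_, ?_, ?_⟩
    · rintro rfl
      have h5 := hπ.pr
      have h6 : nm 0 = 0 := by simp [nm]
      rw [h6] at h5
      exact absurd h5 Nat.not_prime_zero
    · intro hu
      have h5 : π ∣ 1 := isUnit_iff_dvd_one.1 hu
      have h6 := (hz 1).2 h5
      rw [hone] at h6
      exact one_ne_zero h6
    · intro a b hab
      have h5 := (hz _).2 hab
      rw [hmul] at h5
      rcases mul_eq_zero.1 h5 with e | e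
      · exact Or.inl ((hz a).1 e)
      · exact Or.inr ((hz b).1 e)

end Pool.Agent.Work.MP_59f3ad_nt.Q3
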