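import Mathlib
import Pool.Agent.Work.MP_59f3ad_nt.Q3.StmtsC

/-!
# Item Inf: local triviality at the infinite places is automatic
-/

open NumberField IsDedekindDomain

namespace Pool.Agent.Work.MP_59f3ad_nt.Q3

universe u

namespace IInf

theorem alg {k : Type} {k' : Type u} [Field k] [Field k'] (e : k ≃+* k') [IsAlgClosed k] :
    IsAlgClosed k' := by
  apply IsAlgClosed.of_exists_root
  intro p hmp hp
  have hpe : Polynomial.degree (p.map e.symm.toRingHom) ≠ 0 := by
    rw [Polynomial.degree_map]
    exact ne_of_gt (Polynomial.degree_pos_of_irreducible hp)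
  rcases IsAlgClosed.exists_root (k := k) (p.map e.symm.toRingHom) hpe with ⟨x, hx⟩
  refine ⟨e x, ?_⟩
  rw [Polynomial.IsRoot] at hx
  apply e.symm.injective
  rw [map_zero, ← hx]
  clear hx hpe hp hmp
  induction p using Polynomial.induction_on <;> simp_all

theorem cplx {L : Type u} [Field L] [NumberField L] {w : L} (hw : w ^ 2 + w + 1 = 0)
    (v : InfinitePlace L) : v.IsComplex := by
  rw [← InfinitePlace.not_isReal_iff_isComplex]
  intro hr
  have h1 := congrArg (InfinitePlace.embedding_of_isReal hr) hw
  rw [map_add, map_add, map_pow, map_one, map_zero] at h1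
  nlinarith [sq_nonneg (InfinitePlace.embedding_of_isReal hr w + 1 / 2)]

theorem triv {K : Type u} [Field K] [IsAlgClosed K] (g : GK K) (x : AlgebraicClosure K) :
    g x = x := by
  obtain ⟨y, rfl⟩ := (IsAlgClosed.algebraMap_bijective_of_isIntegral
    (k := K) (K := AlgebraicClosure K)).2 x
  exact g.commutes y

end IInf

open IInf in
theorem pr_Inf : StInf := by
  intro L _ _ w hw r φ hφ v ι
  refine ⟨0, fun g h hgh => ?_⟩
  have : IsAlgClosed v.Completion :=
    alg (InfinitePlace.Completion.ringEquivComplexOfIsComplex (cplx hw v)).symm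
  have h1 : h = 1 := by
    ext x
    have h2 : ι (h x) = ι x := (hgh x).trans (triv g _)
    exact ι.injective h2
  rw [h1, hφ, mul_zero]

end Pool.Agent.Work.MP_59f3ad_nt.Q3
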