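import Mathlib
import Pool.Agent.Work.MP_59f3ad_nt.Q3.StmtsC
import Pool.Agent.Work.MP_59f3ad_nt.Q3.StmtsG
import Pool.Agent.Work.MP_59f3ad_nt.Bridge

set_option autoImplicit false

/-!
# MP_59f3ad_nt, block Q3, item Inv
-/

open NumberField IsDedekindDomain

namespace Pool.Agent.Work.MP_59f3ad_nt.Q3

universe u

namespace IInv

/-! ### cube roots of unity -/

theorem w3 {K : Type*} [CommRing K] (w : K) (hw : w ^ 2 + w + 1 = 0) : w ^ 3 = 1 := by
  linear_combination (w - 1) * hw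

theorem w_dvd {K : Type*} [Field K] (w : K) (hw : w ^ 2 + w + 1 = 0) (h3 : (3 : K) ≠ 0) (j : ℕ)
    (h : w ^ j = 1) : 3 ∣ j := by
  have h1 : w ^ (j % 3) = 1 := by
    have e : w ^ j = w ^ (j % 3) := by
      conv_lhs => rw [← Nat.div_add_mod j 3, pow_add, pow_mul, w3 w hw, one_pow, one_mul]
    rw [← e, h]
  rcases (by omega : j % 3 = 0 ∨ j % 3 = 1 ∨ j % 3 = 2) with h0 | h0 | h0
  · omega
  · rw [h0, pow_one] at h1
    exfalso
    apply h3
    rw [h1] at hw
    linear_combination hw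
  · rw [h0] at h1
    exfalso
    apply h3
    have h2 : w = -2 := by linear_combination hw - h1
    rw [h2] at h1
    linear_combination h1

theorem w_zpow {K : Type*} [Field K] (w : K) (hw : w ^ 2 + w + 1 = 0) (n : ℤ) :
    w ^ n = w ^ (n % 3).toNat := by
  have h0 : w ≠ 0 := by
    rintro rfl
    norm_num at hw
  have h1 : w ^ n = w ^ (n % 3) := by
    conv_lhs => rw [← Int.mul_ediv_add_emod n 3, zpow_add₀ h0, zpow_mul]
    have : w ^ (3 : ℤ) = 1 := by exact_mod_cast w3 w hw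
    rw [this, one_zpow, one_mul]
  rw [h1]
  conv_lhs => rw [← Int.toNat_of_nonneg (Int.emod_nonneg n (by norm_num : (3 : ℤ) ≠ 0))]
  rw [zpow_natCast]

/-- a cube root of one is a power of `w` -/
theorem cube_root {K : Type*} [Field K] (w y : K) (hw : w ^ 2 + w + 1 = 0) (hy : y ^ 3 = 1) :
    ∃ l : ℕ, y = w ^ l := by
  have h : (y - 1) * ((y - w) * (y - w ^ 2)) = 0 := by
    linear_combination hy + (y - y ^ 2 + (w - 1) * (y - 1)) * hw
  rcases mul_eq_zero.1 h with h | h
  · exact ⟨0, by rw [pow_zero]; exact sub_eq_zero.1 h⟩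
  · rcases mul_eq_zero.1 h with h | h
    · exact ⟨1, by rw [pow_one]; exact sub_eq_zero.1 h⟩
    · exact ⟨2, sub_eq_zero.1 h⟩

/-! ### fixed elements -/

theorem fixed_mem (L : Type u) [Field L] [NumberField L] (y : AlgebraicClosure L)
    (h : ∀ g : GK L, g y = y) : ∃ z : L, algebraMap L (AlgebraicClosure L) z = y := by
  have hGal : IsGalois L (AlgebraicClosure L) := ⟨⟩
  have h1 := (InfiniteGalois.mem_range_algebraMap_iff_fixed (k := L) (K := AlgebraicClosure L) y).2 h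
  exact h1

/-- the final step: if `β` is in `L` then `ψ` is divisible by three -/
theorem final (L : Type u) [Field L] [NumberField L] (w : L) (hw : w ^ 2 + w + 1 = 0)
    (ψ : GK L → ℤ_[3]) (β : AlgebraicClosure L) (hβ0 : β ≠ 0)
    (hβ : ∀ g : GK L,
      g β = algebraMap L (AlgebraicClosure L) (w ^ (PadicInt.toZMod (ψ g)).val) * β)
    (b : L) (hb : algebraMap L (AlgebraicClosure L) b = β) (h : GK L) : D3 (ψ h) := by
  have h1 := hβ h
  rw [← hb, h.commutes, hb] at h1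
  have h2 : algebraMap L (AlgebraicClosure L) (w ^ (PadicInt.toZMod (ψ h)).val) = 1 := by
    have h3 : (algebraMap L (AlgebraicClosure L) (w ^ (PadicInt.toZMod (ψ h)).val) - 1) * β = 0 := by
      linear_combination -h1
    rcases mul_eq_zero.1 h3 with h4 | h4
    · exact sub_eq_zero.1 h4
    · exact absurd h4 hβ0
  rw [← map_one (algebraMap L (AlgebraicClosure L))] at h2
  have h3 := (algebraMap L (AlgebraicClosure L)).injective h2
  have h4 := w_dvd w hw (by norm_num) _ h3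
  have h5 : (PadicInt.toZMod (ψ h)).val < 3 := ZMod.val_lt _
  have h6 : (PadicInt.toZMod (ψ h)).val = 0 := by omega
  have h7 : PadicInt.toZMod (ψ h) = 0 := (ZMod.val_eq_zero _).1 h6
  have h8 : ψ h ∈ RingHom.ker (PadicInt.toZMod (p := 3)) := h7
  rw [PadicInt.ker_toZMod, PadicInt.maximalIdeal_eq_span_p, Ideal.mem_span_singleton] at h8
  exact h8

/-- The descent of Step 6: the cube root `A = β/d` fixed by `s`. -/
theorem exA {F L : Type u} [Field F] [NumberField F] [Field L] [NumberField L] [Algebra F L]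
    (w : 𝓞 F) (σ : L ≃ₐ[F] L)
    (hfix : ∀ y : L, σ y = y → ∃ z : F, y = algebraMap F L z)
    (h90 : ∀ c : L, c * σ c * σ (σ c) = 1 → ∃ d : L, d ≠ 0 ∧ σ d = c * d)
    (s : AlgebraicClosure L ≃+* AlgebraicClosure L) (hs : Ext (σ : L ≃+* L) s)
    (ψ : GK L → ℤ_[3]) (hinv : ∀ h, ψ (cj hs h) = ψ h)
    (β : AlgebraicClosure L) (α : L) (hβ0 : β ≠ 0) (hα0 : α ≠ 0)
    (hβ : ∀ g : GK L, g β = algebraMap L (AlgebraicClosure L)
      ((algebraMap F L (w : F)) ^ (PadicInt.toZMod (ψ g)).val) * β)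
    (hα : algebraMap L (AlgebraicClosure L) α = β ^ 3) (hk : s (s (s β)) = β) :
    ∃ (d : L) (a : F), d ≠ 0 ∧ a ≠ 0 ∧
      s (β / algebraMap L (AlgebraicClosure L) d) = β / algebraMap L (AlgebraicClosure L) d ∧
      algebraMap F L a = α / d ^ 3 := by
  have hs' : ∀ y : L, s (algebraMap L (AlgebraicClosure L) y) =
      algebraMap L (AlgebraicClosure L) (σ y) := hs
  have hsβ0 : s β ≠ 0 := by
    rw [Ne, EmbeddingLike.map_eq_zero_iff]
    exact hβ0
  have hsβ : ∀ h : GK L, h (s β) = algebraMap L (AlgebraicClosure L)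
      ((algebraMap F L (w : F)) ^ (PadicInt.toZMod (ψ h)).val) * s β := by
    intro h
    have h1 : h (s β) = s (cj hs h β) := by
      rw [cj_apply, RingEquiv.apply_symm_apply]
    rw [h1, hβ, hinv, map_mul, hs', map_pow, AlgEquiv.commutes]
  obtain ⟨c, hc⟩ := fixed_mem L (s β / β) (by
    intro g
    rw [map_div₀, hsβ g, hβ g]
    have h2 : algebraMap L (AlgebraicClosure L)
      ((algebraMap F L (w : F)) ^ (PadicInt.toZMod (ψ g)).val) ≠ 0 := by
      intro h3
      have h4 := hβ g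
      rw [h3, zero_mul, EmbeddingLike.map_eq_zero_iff] at h4
      exact hβ0 h4
    rw [mul_div_mul_left _ _ h2])
  have hsβc : s β = algebraMap L (AlgebraicClosure L) c * β := by
    rw [hc, div_mul_cancel₀ _ hβ0]
  have hc0 : algebraMap L (AlgebraicClosure L) c ≠ 0 := by
    rw [hc]
    exact div_ne_zero hsβ0 hβ0
  have hnorm : c * σ c * σ (σ c) = 1 := by
    apply (algebraMap L (AlgebraicClosure L)).injective
    have h1 : s (s (s β)) = algebraMap L (AlgebraicClosure L) (c * σ c * σ (σ c)) * β := by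
      rw [hsβc, map_mul, map_mul, hs', hs', hsβc, map_mul, hs', hsβc, map_mul, map_mul]
      ring
    rw [hk] at h1
    rw [map_one]
    have h2 : (algebraMap L (AlgebraicClosure L) (c * σ c * σ (σ c)) - 1) * β = 0 := by
      linear_combination -h1
    rcases mul_eq_zero.1 h2 with h3 | h3
    · exact sub_eq_zero.1 h3
    · exact absurd h3 hβ0
  obtain ⟨d, hd0, hd⟩ := h90 c hnorm
  have hd0' : algebraMap L (AlgebraicClosure L) d ≠ 0 := by
    rw [Ne, FaithfulSMul.algebraMap_eq_zero_iff]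
    exact hd0
  have hsA : s (β / algebraMap L (AlgebraicClosure L) d) =
      β / algebraMap L (AlgebraicClosure L) d := by
    rw [map_div₀, hs', hd, hsβc, map_mul, mul_div_mul_left _ _ hc0]
  have hA3 : (β / algebraMap L (AlgebraicClosure L) d) ^ 3 =
      algebraMap L (AlgebraicClosure L) (α / d ^ 3) := by
    rw [div_pow, ← hα, map_div₀, map_pow]
  have hσ : σ (α / d ^ 3) = α / d ^ 3 := by
    apply (algebraMap L (AlgebraicClosure L)).injective
    rw [← hs', ← hA3, map_pow, hsA]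
  obtain ⟨a, ha⟩ := hfix _ hσ
  refine ⟨d, a, hd0, ?_, hsA, ha.symm⟩
  rintro rfl
  rw [map_zero] at ha
  exact (div_ne_zero hα0 (pow_ne_zero 3 hd0)) ha

/-! ### the norm form -/

theorem ev_nm {R : Type*} [CommRing R] (w : R) (hw : w ^ 2 + w + 1 = 0) (z : E) :
    ev w z * ev w ⟨z.re - z.im, -z.im⟩ = (((z.re ^ 2 - z.re * z.im + z.im ^ 2 : ℤ)) : R) := by
  simp only [ev]
  push_cast
  linear_combination (-(z.im : R) ^ 2) * hw

theorem ev_dvd_nm {R : Type*} [CommRing R] (w : R) (hw : w ^ 2 + w + 1 = 0) (z : E) :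
    ev w z ∣ ((nm z : ℕ) : R) := by
  have h1 : ev w z ∣ (((z.re ^ 2 - z.re * z.im + z.im ^ 2 : ℤ)) : R) :=
    ⟨_, (ev_nm w hw z).symm⟩
  have h2 : ((nm z : ℕ) : R) = (((nm z : ℕ) : ℤ) : R) := by push_cast; rfl
  rw [h2]
  unfold nm
  rcases Int.natAbs_eq (z.re ^ 2 - z.re * z.im + z.im ^ 2) with h3 | h3
  · rw [← h3]; exact h1
  · have h4 : (((z.re ^ 2 - z.re * z.im + z.im ^ 2).natAbs : ℕ) : ℤ) =
        -(z.re ^ 2 - z.re * z.im + z.im ^ 2) := by omega
    rw [h4, Int.cast_neg]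
    exact (dvd_neg).2 h1

theorem coe_ev {F : Type u} [Field F] [NumberField F] (w : 𝓞 F) (z : E) :
    ((ev w z : 𝓞 F) : F) = ev (w : F) z := by
  simp [ev]

/-- distinct norms: not in the same prime -/
theorem not_both {F : Type u} [Field F] [NumberField F] (w : 𝓞 F) (hw : w ^ 2 + w + 1 = 0)
    (q : HeightOneSpectrum (𝓞 F)) (z z' : E) (h : (nm z).Prime) (h' : (nm z').Prime)
    (hne : nm z ≠ nm z') (hz : ev w z ∈ q.asIdeal) : ev w z' ∉ q.asIdeal := by
  intro hz'
  have h1 : ((nm z : ℕ) : 𝓞 F) ∈ q.asIdeal := q.asIdeal.mem_of_dvd (ev_dvd_nm w hw z) hz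
  have h2 : ((nm z' : ℕ) : 𝓞 F) ∈ q.asIdeal := q.asIdeal.mem_of_dvd (ev_dvd_nm w hw z') hz'
  have h3 : Nat.Coprime (nm z) (nm z') := (Nat.coprime_primes h h').2 hne
  obtain ⟨a, b, hab⟩ : IsCoprime ((nm z : ℕ) : ℤ) ((nm z' : ℕ) : ℤ) := Nat.isCoprime_iff_coprime.2 h3
  have h4 : (1 : 𝓞 F) ∈ q.asIdeal := by
    have h5 : ((a * ((nm z : ℕ) : ℤ) + b * ((nm z' : ℕ) : ℤ) : ℤ) : 𝓞 F) = 1 := by
      rw [hab]; simp
    rw [← h5]
    push_cast
    exact q.asIdeal.add_mem (q.asIdeal.mul_mem_left _ h1) (q.asIdeal.mul_mem_left _ h2)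
  exact q.isPrime.ne_top ((Ideal.eq_top_iff_one _).2 h4)

/-! ### valuations -/

theorem val_one {F : Type u} [Field F] [NumberField F] (q : HeightOneSpectrum (𝓞 F)) (y : 𝓞 F)
    (hy : y ∉ q.asIdeal) : q.valuation F (y : F) = 1 := by
  have h1 : q.valuation F (algebraMap (𝓞 F) F y) = q.intValuation y :=
    HeightOneSpectrum.valuation_of_algebraMap q y
  have h2 : ¬ q.intValuation y < 1 := by
    rw [HeightOneSpectrum.intValuation_lt_one_iff_mem]
    exact hy
  rw [show ((y : F)) = algebraMap (𝓞 F) F y from rfl, h1]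
  exact le_antisymm (HeightOneSpectrum.intValuation_le_one q y) (not_lt.1 h2)

theorem val_gen {F : Type u} [Field F] [NumberField F] (q : HeightOneSpectrum (𝓞 F)) (y : 𝓞 F)
    (hy : q.asIdeal = Ideal.span {y}) : q.valuation F (y : F) = WithZero.exp (-1 : ℤ) := by
  have h1 : q.valuation F (algebraMap (𝓞 F) F y) = q.intValuation y :=
    HeightOneSpectrum.valuation_of_algebraMap q y
  have hy0 : y ≠ 0 := by
    rintro rfl
    apply q.ne_bot
    rw [hy, Ideal.span_singleton_eq_bot]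
  rw [show ((y : F)) = algebraMap (𝓞 F) F y from rfl, h1]
  exact HeightOneSpectrum.intValuation_singleton q hy0 hy

theorem ex_exp {F : Type u} [Field F] [NumberField F] (q : HeightOneSpectrum (𝓞 F)) (y : F)
    (hy : y ≠ 0) : ∃ m : ℤ, q.valuation F y = WithZero.exp m := by
  have h1 : q.valuation F y ≠ 0 := (Valuation.ne_zero_iff _).2 hy
  exact ⟨WithZero.log (q.valuation F y), (WithZero.exp_log h1).symm⟩

theorem w_notMem {F : Type u} [Field F] [NumberField F] (w : 𝓞 F) (hw : w ^ 2 + w + 1 = 0)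
    (q : HeightOneSpectrum (𝓞 F)) : w ∉ q.asIdeal := by
  intro h
  have h1 : (1 : 𝓞 F) ∈ q.asIdeal := by
    have h2 : (1 : 𝓞 F) = w * w ^ 2 := by linear_combination (1 - w) * hw
    rw [h2]
    exact q.asIdeal.mul_mem_right _ h
  exact q.isPrime.ne_top ((Ideal.eq_top_iff_one _).2 h1)

theorem one_sub_w_notMem {F : Type u} [Field F] [NumberField F] (w : 𝓞 F)
    (hw : w ^ 2 + w + 1 = 0) (q : HeightOneSpectrum (𝓞 F)) (h3 : (3 : 𝓞 F) ∉ q.asIdeal) :
    1 - w ∉ q.asIdeal := by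
  intro h
  apply h3
  have h2 : (3 : 𝓞 F) = (1 - w) * (1 - w ^ 2) := by linear_combination (2 - w) * hw
  rw [h2]
  exact q.asIdeal.mul_mem_right _ h

/-- The local step at one prime of `M`. -/
theorem local_step (hRtt : StRtt.{u}) {F L : Type u} [Field F] [NumberField F] [Field L]
    [NumberField L] [Algebra F L] (w : 𝓞 F) (x : 𝓞 L) (σ : L ≃ₐ[F] L) (M : E)
    (hcfg : Cfg F L w x σ M) (t : ℕ) (π : Fin t → E) (c : Fin t → ℕ) (hprd : Prd t π c M)
    (k : Fin t) (q : HeightOneSpectrum (𝓞 F)) (v : HeightOneSpectrum (𝓞 L))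
    (hram : Ram F L w x σ (π k) (c k) q v) (τ : AlgebraicClosure L ≃+* AlgebraicClosure L)
    (Q : Ideal (𝓞 (AlgebraicClosure L))) (hinr : InrQ (σ : L ≃+* L) v τ Q)
    (A : AlgebraicClosure L) (a : F)
    (hA3 : A ^ 3 = algebraMap L (AlgebraicClosure L) (algebraMap F L a)) (hτA : τ A = A)
    (i j : ℕ) (e : Fin t → ℕ) (g : F) (hg : g ≠ 0) (he : e k < 3)
    (hfac : a = (w : F) ^ i * (1 - (w : F)) ^ j * ev (w : F) (∏ k, π k ^ e k) * g ^ 3) :
    e k = 0 := by
  have hwF : (w : F) ^ 2 + (w : F) + 1 = 0 := by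
    have := congrArg (fun y : 𝓞 F => (y : F)) hcfg.hw
    push_cast at this
    exact this
  have hwL : (algebraMap F L (w : F)) ^ 2 + algebraMap F L (w : F) + 1 = 0 := by
    have := congrArg (algebraMap F L) hwF
    rw [map_add, map_add, map_pow, map_one, map_zero] at this
    exact this
  have h3q : (3 : 𝓞 F) ∉ q.asIdeal := by
    intro h
    have h1 : q.valuation F ((3 : 𝓞 F) : F) < 1 := by
      have h1 : q.valuation F (algebraMap (𝓞 F) F 3) = q.intValuation 3 :=
        HeightOneSpectrum.valuation_of_algebraMap q 3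
      rw [show (((3 : 𝓞 F) : F)) = algebraMap (𝓞 F) F 3 from rfl, h1,
        HeightOneSpectrum.intValuation_lt_one_iff_mem]
      exact h
    have h2 := hram.ram ((3 : 𝓞 F) : F)
    have h4 : algebraMap F L ((3 : 𝓞 F) : F) = ((3 : 𝓞 L) : L) := by
      push_cast
      exact map_ofNat _ 3
    rw [h4, val_one v 3 hram.n3] at h2
    have h5 : q.valuation F ((3 : 𝓞 F) : F) ^ 3 < 1 := pow_lt_one₀ zero_le h1 (by norm_num)
    rw [← h2] at h5
    exact lt_irrefl _ h5
  obtain ⟨m, hm⟩ := ex_exp q g hg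
  -- the valuation of a
  have hqk : ev w (π k) ∈ q.asIdeal := by
    rw [hram.qs]
    exact Ideal.mem_span_singleton_self _
  have hprod : q.valuation F (ev (w : F) (∏ k, π k ^ e k)) = WithZero.exp (-(e k : ℤ)) := by
    have h1 : ev (w : F) (∏ k, π k ^ e k) = ∏ k, (ev (w : F) (π k)) ^ e k := by
      rw [← evH_apply (w : F) hwF, map_prod]
      refine Finset.prod_congr rfl fun l _ => ?_
      rw [map_pow, evH_apply]
    rw [h1, map_prod, Finset.prod_eq_single k]
    · rw [map_pow, ← coe_ev, val_gen q _ hram.qs, ← WithZero.exp_nsmul]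
      congr 1
      simp
    · intro l _ hl
      rw [map_pow, ← coe_ev, val_one q, one_pow]
      refine not_both w hcfg.hw q (π k) (π l) (hprd.pp k).pr (hprd.pp l).pr ?_ hqk
      intro h
      exact hl (hprd.inj k l h).symm
    · intro h
      exact absurd (Finset.mem_univ k) h
  have hqa : q.valuation F a = WithZero.exp (-(e k : ℤ) + 3 * m) := by
    have h1 : q.valuation F (w : F) = 1 := val_one q w (w_notMem w hcfg.hw q)
    have h2 : q.valuation F (1 - (w : F)) = 1 := by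
      have := val_one q (1 - w) (one_sub_w_notMem w hcfg.hw q h3q)
      push_cast at this
      exact this
    rw [hfac, map_mul, map_mul, map_mul, map_pow, map_pow, map_pow, h1, h2, hprod, hm, one_pow,
      one_pow, one_mul, one_mul, WithZero.exp_add, ← WithZero.exp_nsmul]
    congr 2
  set n : ℤ := -(e k : ℤ) + 3 * m with hn
  have hva : v.valuation L (algebraMap F L a) = WithZero.exp (3 * n) := by
    rw [hram.ram, hqa, ← WithZero.exp_nsmul]
    congr 1
  have hx0 : (x : L) ≠ 0 := by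
    intro h
    have := hram.vx
    rw [h, map_zero] at this
    exact WithZero.exp_ne_zero this.symm
  have hX0 : algebraMap L (AlgebraicClosure L) (x : L) ≠ 0 := by
    rw [Ne, FaithfulSMul.algebraMap_eq_zero_iff]
    exact hx0
  have hu3 : (A ^ c k * (algebraMap L (AlgebraicClosure L) (x : L)) ^ n) ^ 3 =
      algebraMap L (AlgebraicClosure L) ((algebraMap F L a) ^ c k * ((x : L) ^ n) ^ 3) := by
    rw [mul_pow, ← pow_mul, mul_comm (c k) 3, pow_mul, hA3, map_mul, map_pow, map_pow, map_zpow₀]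
  have hvb : v.valuation L ((algebraMap F L a) ^ c k * ((x : L) ^ n) ^ 3) = 1 := by
    rw [map_mul, map_pow, map_pow, map_zpow₀, hva, hram.vx, ← WithZero.exp_nsmul,
      ← WithZero.exp_zsmul, ← WithZero.exp_nsmul, ← WithZero.exp_add, ← WithZero.exp_zero]
    congr 1
    simp only [nsmul_eq_mul, smul_eq_mul]
    push_cast
    ring
  have hτ' : ∀ y : L, τ (algebraMap L (AlgebraicClosure L) y) =
      algebraMap L (AlgebraicClosure L) (σ y) := hinr.ext
  have hτu : τ (A ^ c k * (algebraMap L (AlgebraicClosure L) (x : L)) ^ n) =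
      algebraMap L (AlgebraicClosure L) ((algebraMap F L (w : F)) ^ (n % 3).toNat) *
        (A ^ c k * (algebraMap L (AlgebraicClosure L) (x : L)) ^ n) := by
    rw [map_mul, map_pow, hτA, map_zpow₀, hτ', hcfg.hσ, map_mul, mul_zpow, ← w_zpow _ hwL,
      map_zpow₀]
    ring
  have hone := hRtt L (σ : L ≃+* L) v τ Q hinr hram.n3 _ hwL _ _ _ hu3 hvb hτu
  have h3j := w_dvd _ hwL (by norm_num) _ hone
  have h4 : (3 : ℤ) ∣ n := by omega
  omega

/-- `τ³` as an element of the absolute Galois group -/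
noncomputable def cube (L : Type u) [Field L] (σ : L ≃+* L)
    (τ : AlgebraicClosure L ≃+* AlgebraicClosure L) (hτ : Ext σ τ)
    (h3 : ∀ y, σ (σ (σ y)) = y) : GK L :=
  AlgEquiv.ofRingEquiv (f := (τ.trans τ).trans τ) (by
    intro y
    rw [RingEquiv.trans_apply, RingEquiv.trans_apply, hτ, hτ, hτ, h3])

/-- `s⁻¹ τ` as an element of the absolute Galois group -/
noncomputable def quo (L : Type u) [Field L] (σ : L ≃+* L)
    (s τ : AlgebraicClosure L ≃+* AlgebraicClosure L) (hs : Ext σ s) (hτ : Ext σ τ) : GK L :=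
  AlgEquiv.ofRingEquiv (f := τ.trans s.symm) (by
    intro y
    rw [RingEquiv.trans_apply, hτ, ← hs, RingEquiv.symm_apply_apply])

end IInv

open IInv in
theorem pr_Inv (hKmm : StKmm.{u}) (hH90 : StH90.{u}) (hGkk : StGkk.{u}) (hCub : StCub.{u})
    (hMur : StMur.{u}) (hRtt : StRtt.{u}) (hUnr : StUnr.{u}) (hFac : StFac.{u})
    (hThr : StThr.{u}) (hCyl : StCyl.{u}) : StInv.{u} := by
  intro F L _ _ _ _ _ w x σ M hcfg hM1 hM9 t π c hprd q v hram τ Q hinr i0 hs r hr ψ hψ hinv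
  have hwF : (w : F) ^ 2 + (w : F) + 1 = 0 := by
    have := congrArg (fun y : 𝓞 F => (y : F)) hcfg.hw
    push_cast at this
    exact this
  have hwL : (algebraMap F L (w : F)) ^ 2 + algebraMap F L (w : F) + 1 = 0 := by
    have := congrArg (algebraMap F L) hwF
    rw [map_add, map_add, map_pow, map_one, map_zero] at this
    exact this
  obtain ⟨β, α, hβ0, hα0, hβ, hα, hcubα, hlcub⟩ := hKmm L _ hwL r ψ hψ
  obtain ⟨hσ3, h90⟩ := hH90 F L w x σ M hcfg
  have hσ3' : ∀ y : L, (σ : L ≃+* L) ((σ : L ≃+* L) ((σ : L ≃+* L) y)) = y := hσ3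
  have hk0 : ∀ i, ψ (cube L (σ : L ≃+* L) (τ i) (hinr i).ext hσ3') = 0 := fun i =>
    hCub L (σ : L ≃+* L) (v i) (τ i) (Q i) (hinr i) _ (fun _ => rfl) r (S3 L) (hram i).n3 ψ hψ.1
  have hkβ : τ i0 (τ i0 (τ i0 β)) = β := by
    have h1 := hβ (cube L (σ : L ≃+* L) (τ i0) (hinr i0).ext hσ3')
    rw [hk0 i0] at h1
    rw [map_zero, ZMod.val_zero, pow_zero, map_one, one_mul] at h1
    exact h1
  obtain ⟨d, a, hd0, ha0, hsA, hda⟩ := exA w σ hcfg.hfix h90 (τ i0) hs ψ hinv β α hβ0 hα0 hβ hα hkβ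
  set A : AlgebraicClosure L := β / algebraMap L (AlgebraicClosure L) d with hA
  have hA3 : A ^ 3 = algebraMap L (AlgebraicClosure L) (algebraMap F L a) := by
    rw [hA, hda, div_pow, ← hα, map_div₀, map_pow]
  -- some element with nontrivial twist
  have htw : ∃ h : GK L, twist L 3 r h ≠ 1 := by
    obtain ⟨v3, hv3⟩ := exists_prime_above L 3
    have hv3' : v3 ∈ S3 L := by
      show (3 : 𝓞 L) ∈ v3.asIdeal
      exact_mod_cast hv3
    have ι : AlgebraicClosure L →ₐ[L] AlgebraicClosure (v3.adicCompletion L) := IsAlgClosed.lift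
    obtain ⟨_, h, _, hne⟩ := (hCyl L _ hwL r).2 hr v3 hv3' ι
    exact ⟨h, hne⟩
  have hτA : ∀ i, τ i A = A := by
    intro i
    have hg0 : ψ (quo L (σ : L ≃+* L) (τ i0) (τ i) hs (hinr i).ext) = 0 :=
      hGkk L (σ : L ≃+* L) (τ i0) (τ i) hs (hinr i).ext
        (hMur L (σ : L ≃+* L) (v i0) (τ i0) (Q i0) (hinr i0) (hram i0).n3).2
        (hMur L (σ : L ≃+* L) (v i) (τ i) (Q i) (hinr i) (hram i).n3).2
        (quo L (σ : L ≃+* L) (τ i0) (τ i) hs (hinr i).ext)
        (cube L (σ : L ≃+* L) (τ i) (hinr i).ext hσ3')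
        (fun y => ((τ i0).apply_symm_apply (τ i y)).symm) (fun _ => rfl) r ψ hψ.1.1 hinv (hk0 i) htw
    have h1 := hβ (quo L (σ : L ≃+* L) (τ i0) (τ i) hs (hinr i).ext)
    rw [hg0, map_zero, ZMod.val_zero, pow_zero, map_one, one_mul] at h1
    have h2 : quo L (σ : L ≃+* L) (τ i0) (τ i) hs (hinr i).ext A = A := by
      rw [hA, map_div₀, h1, AlgEquiv.commutes]
    have h3 : (τ i0).symm (τ i A) = A := h2
    rw [← hsA]
    conv_rhs => rw [← h3]
    rw [RingEquiv.apply_symm_apply, hsA]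
  have hcubA : ∀ v' : HeightOneSpectrum (𝓞 L), Cub v' (algebraMap F L a) := by
    intro v'
    obtain ⟨y, hy⟩ := hcubα v'
    refine ⟨y / d, ?_⟩
    rw [hda, map_div₀, map_pow, map_div₀, hy, div_pow]
  have hev : ev w M = ∏ i, (ev w (π i)) ^ c i := by
    rw [hprd.hM, ← evH_apply w hcfg.hw, map_prod]
    refine Finset.prod_congr rfl fun l _ => ?_
    rw [map_pow, evH_apply]
  have hcubF : ∀ q' : HeightOneSpectrum (𝓞 F), (3 : 𝓞 F) ∉ q'.asIdeal →
      (∀ k, ev w (π k) ∉ q'.asIdeal) → Cub q' a := by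
    intro q' h3 hk
    refine hUnr F L w x σ M hcfg q' h3 ?_ a hcubA
    rw [hev]
    intro h
    obtain ⟨l, _, hl⟩ := (Ideal.IsPrime.prod_mem_iff (hp := q'.isPrime)).1 h
    exact hk l (q'.isPrime.mem_of_pow_mem _ hl)
  obtain ⟨i, j, e, g, hi, hj, he, hg, hfac⟩ :=
    hFac F w hcfg.hF hcfg.hw t π hprd.pp hprd.inj a ha0 hcubF
  have he0 : ∀ k, e k = 0 := fun k =>
    local_step hRtt w x σ M hcfg t π c hprd k (q k) (v k) (hram k) (τ k) (Q k) (hinr k) A a hA3
      (hτA k) i j e g hg (he k) hfac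
  have hprod1 : (∏ k, π k ^ e k) = 1 := Finset.prod_eq_one fun k _ => by rw [he0, pow_zero]
  rw [hprod1] at hfac
  obtain ⟨v3, hv3⟩ := exists_prime_above L 3
  have hv3' : v3 ∈ S3 L := by
    show (3 : 𝓞 L) ∈ v3.asIdeal
    exact_mod_cast hv3
  have hlc : LCub v3 (algebraMap F L a) := by
    intro n
    obtain ⟨l, hl0, hl⟩ := hlcub v3 hv3' n
    refine ⟨l / d, div_ne_zero hl0 hd0, ?_⟩
    have : algebraMap F L a / (l / d) ^ 3 = α / l ^ 3 := by
      rw [hda]
      field_simp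
    rw [this]
    exact hl
  obtain ⟨hi0, hj0, _⟩ := hThr F L w x σ M hcfg hM1 hM9 v3 hv3' a g i j 1 ha0 hg hi hj (by simp) hfac hlc
  have hag : a = g ^ 3 := by
    rw [hfac, hi0, hj0]
    have : ev (w : F) 1 = 1 := by simp [ev, QuadraticAlgebra.re_one, QuadraticAlgebra.im_one]
    rw [this]
    ring
  -- β is in L
  have hb0 : algebraMap L (AlgebraicClosure L) (algebraMap F L g * d) ≠ 0 := by
    rw [Ne, FaithfulSMul.algebraMap_eq_zero_iff, mul_eq_zero, FaithfulSMul.algebraMap_eq_zero_iff]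
    exact fun h => h.elim hg hd0
  have hroot : (β / algebraMap L (AlgebraicClosure L) (algebraMap F L g * d)) ^ 3 = 1 := by
    rw [div_pow, ← hα, div_eq_one_iff_eq (pow_ne_zero 3 hb0), ← map_pow]
    congr 1
    have h1 : α = algebraMap F L a * d ^ 3 := by
      rw [hda, div_mul_cancel₀ _ (pow_ne_zero 3 hd0)]
    rw [h1, hag, map_pow]
    ring
  have hwΩ : (algebraMap L (AlgebraicClosure L) (algebraMap F L (w : F))) ^ 2 +
      algebraMap L (AlgebraicClosure L) (algebraMap F L (w : F)) + 1 = 0 := by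
    have := congrArg (algebraMap L (AlgebraicClosure L)) hwL
    rw [map_add, map_add, map_pow, map_one, map_zero] at this
    exact this
  obtain ⟨l, hl⟩ := cube_root _ _ hwΩ hroot
  refine final L _ hwL ψ β hβ0 hβ
    ((algebraMap F L (w : F)) ^ l * (algebraMap F L g * d)) ?_
  rw [map_mul, map_pow, ← hl, div_mul_cancel₀ _ hb0]

end Pool.Agent.Work.MP_59f3ad_nt.Q3
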