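import Mathlib
import Pool.Agent.Work.MP_59f3ad_nt.Q3.StmtsG

/-! Block Q3 of MP_59f3ad_nt, item Iso: the ring of integers of `ℚ(ω)`. -/

open NumberField IsDedekindDomain

namespace Pool.Agent.Work.MP_59f3ad_nt.Q3

universe u

namespace IIso

variable {F : Type u} [Field F] [NumberField F]

theorem eqF {w : 𝓞 F} (hw : w ^ 2 + w + 1 = 0) : (w : F) ^ 2 + (w : F) + 1 = 0 := by
  have h := congrArg (algebraMap (𝓞 F) F) hw
  simpa using h

theorem prim {w : 𝓞 F} (hw : w ^ 2 + w + 1 = 0) : IsPrimitiveRoot (w : F) 3 := by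
  have h := eqF hw
  have h3 : (w : F) ^ 3 = 1 := by linear_combination ((w : F) - 1) * h
  have hc : (3 : F) ≠ 0 := by norm_num
  refine IsPrimitiveRoot.mk_of_lt _ (by norm_num) h3 ?_
  intro l hl0 hl3 hl
  interval_cases l
  · rw [pow_one] at hl
    apply hc
    linear_combination h - ((w : F) + 2) * hl
  · apply hc
    have h1 : (w : F) = -2 := by linear_combination h - hl
    rw [h1] at hl
    linear_combination hl

/-- the norm form is anisotropic -/
theorem aniso {a b : ℤ} (h : a ^ 2 - a * b + b ^ 2 = 0) : a = 0 ∧ b = 0 := by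
  have h1 : (2 * a - b) ^ 2 + 3 * b ^ 2 = 0 := by linear_combination 4 * h
  have hb : b = 0 := by
    have : b ^ 2 ≤ 0 := by nlinarith [sq_nonneg (2 * a - b)]
    exact pow_eq_zero_iff (two_ne_zero) |>.1 (le_antisymm this (sq_nonneg b))
  subst hb
  refine ⟨?_, rfl⟩
  have : a ^ 2 = 0 := by linear_combination h
  exact pow_eq_zero_iff (two_ne_zero) |>.1 this

theorem ev_sub {R : Type*} [CommRing R] (w : R) (z z' : E) : ev w (z - z') = ev w z - ev w z' := by
  simp only [ev, QuadraticAlgebra.re_sub, QuadraticAlgebra.im_sub]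
  push_cast
  ring

theorem inj {w : 𝓞 F} (hw : w ^ 2 + w + 1 = 0) : Function.Injective (ev w) := by
  intro z z' h
  have h1 : ev w (z - z') = 0 := by rw [ev_sub, h, sub_self]
  have h2 : (((z - z').re : ℤ) : F) + (((z - z').im : ℤ) : F) * (w : F) = 0 := by
    have := congrArg (algebraMap (𝓞 F) F) h1
    simpa [ev] using this
  have h3 := eqF hw
  set a : ℤ := (z - z').re with ha
  set b : ℤ := (z - z').im with hb
  have h4 : ((a ^ 2 - a * b + b ^ 2 : ℤ) : F) = 0 := by
    push_cast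
    linear_combination ((a : F) - b - b * (w : F)) * h2 + (b : F) ^ 2 * h3
  have h5 : a ^ 2 - a * b + b ^ 2 = 0 := by exact_mod_cast h4
  obtain ⟨h6, h7⟩ := aniso h5
  have h8 : z - z' = 0 := by
    ext
    · exact h6
    · exact h7
  exact sub_eq_zero.1 h8

theorem cyc {w : 𝓞 F} (hF : Module.finrank ℚ F = 2) (hw : w ^ 2 + w + 1 = 0) :
    IsCyclotomicExtension {3} ℚ F := by
  have hp := prim hw
  rw [IsCyclotomicExtension.iff_singleton 3 ℚ F]
  refine ⟨⟨_, hp⟩, ?_⟩
  haveI : IsSimpleOrder (Subalgebra ℚ F) :=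
    Subalgebra.isSimpleOrder_of_finrank_prime ℚ F (by rw [hF]; exact Nat.prime_two)
  rcases eq_bot_or_eq_top (Algebra.adjoin ℚ {b : F | b ^ 3 = 1}) with h | h
  · exfalso
    have hmem : (w : F) ∈ Algebra.adjoin ℚ {b : F | b ^ 3 = 1} :=
      Algebra.subset_adjoin hp.pow_eq_one
    rw [h, Algebra.mem_bot] at hmem
    obtain ⟨q, hq⟩ := hmem
    have h3 := eqF hw
    rw [← hq] at h3
    have h4 : algebraMap ℚ F (q ^ 2 + q + 1) = algebraMap ℚ F 0 := by
      rw [map_add, map_add, map_pow, map_one, map_zero]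
      exact h3
    have h5 := (algebraMap ℚ F).injective h4
    nlinarith [sq_nonneg (2 * q + 1)]
  · intro x
    rw [h]
    exact Algebra.mem_top

theorem toInt {w : 𝓞 F} (hw : w ^ 2 + w + 1 = 0) : (prim hw).toInteger = w :=
  RingOfIntegers.ext rfl

end IIso

theorem pr_Iso : StIso.{u} := by
  intro F _ _ w hF hw
  have hcyc : IsCyclotomicExtension {3} ℚ F := IIso.cyc hF hw
  have hp := IIso.prim hw
  refine ⟨⟨IIso.inj hw, ?_⟩, IsCyclotomicExtension.Rat.three_pid F, ?_⟩
  · intro y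
    obtain ⟨f, hf1, hf2⟩ := hp.integralPowerBasis.exists_eq_aeval y
    rw [IsPrimitiveRoot.integralPowerBasis_dim] at hf1
    rw [IsPrimitiveRoot.integralPowerBasis_gen, IIso.toInt hw] at hf2
    have ht : Nat.totient 3 = 2 := by decide
    rw [ht] at hf1
    obtain ⟨a, b, hab⟩ := Polynomial.exists_eq_X_add_C_of_natDegree_le_one (p := f) (by omega)
    refine ⟨⟨b, a⟩, ?_⟩
    rw [hf2, hab]
    simp [ev]
    ring
  · intro u
    have hu := IsCyclotomicExtension.Rat.Three.Units.mem hp u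
    have hη : (((IsPrimitiveRoot.isUnit (hp.toInteger_isPrimitiveRoot) (by decide)).unit : (𝓞 F)ˣ) :
        𝓞 F) = w := IIso.toInt hw
    simp only [List.mem_cons, List.not_mem_nil, or_false] at hu
    rcases hu with h | h | h | h | h | h
    · exact ⟨0, Or.inl (by rw [h]; simp)⟩
    · exact ⟨0, Or.inr (by rw [h]; simp)⟩
    · exact ⟨1, Or.inl (by rw [h, hη]; simp)⟩
    · exact ⟨1, Or.inr (by rw [h, Units.val_neg, hη]; simp)⟩
    · exact ⟨2, Or.inl (by rw [h, Units.val_pow_eq_pow_val, hη])⟩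
    · exact ⟨2, Or.inr (by rw [h, Units.val_neg, Units.val_pow_eq_pow_val, hη])⟩

end Pool.Agent.Work.MP_59f3ad_nt.Q3
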