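import Mathlib
import Pool.Agent.Work.MP_59f3ad_nt.Q3.StmtsR

/-!
# Item Jac of block Q3
-/

open NumberField IsDedekindDomain

namespace Pool.Agent.Work.MP_59f3ad_nt.Q3

namespace IJac

/-- a primitive cube root of unity in `ℂ` -/
noncomputable def wc : ℂ := ⟨-1 / 2, Real.sqrt 3 / 2⟩

theorem wc_sq : wc ^ 2 + wc + 1 = 0 := by
  have h3 : Real.sqrt 3 * Real.sqrt 3 = 3 := Real.mul_self_sqrt (by norm_num)
  apply Complex.ext
  · rw [sq]
    simp only [Complex.add_re, Complex.mul_re, Complex.one_re, Complex.zero_re, wc]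
    nlinarith
  · rw [sq]
    simp only [Complex.add_im, Complex.mul_im, Complex.one_im, Complex.zero_im, wc]
    ring

/-- the embedding -/
noncomputable def fc : E →+* ℂ := evH wc wc_sq

theorem fc_re (z : E) : (fc z).re = (z.re : ℝ) - (z.im : ℝ) / 2 := by
  show (ev wc z).re = _
  unfold ev
  rw [Complex.add_re, Complex.mul_re, Complex.intCast_re, Complex.intCast_re, Complex.intCast_im]
  simp only [wc]
  ring

theorem fc_im (z : E) : (fc z).im = (z.im : ℝ) * (Real.sqrt 3 / 2) := by
  show (ev wc z).im = _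
  unfold ev
  rw [Complex.add_im, Complex.mul_im, Complex.intCast_im, Complex.intCast_im, Complex.intCast_re]
  simp only [wc]
  ring

theorem nm_cast (z : E) : ((nm z : ℕ) : ℤ) = z.re ^ 2 - z.re * z.im + z.im ^ 2 := by
  unfold nm
  rw [Int.natCast_natAbs, abs_of_nonneg]
  nlinarith [sq_nonneg (z.re), sq_nonneg (z.im), sq_nonneg (z.re - z.im)]

theorem normSq_fc (z : E) : Complex.normSq (fc z) = ((nm z : ℕ) : ℝ) := by
  have h3 : Real.sqrt 3 * Real.sqrt 3 = 3 := Real.mul_self_sqrt (by norm_num)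
  have h := nm_cast z
  have h' : ((nm z : ℕ) : ℝ) = (z.re : ℝ) ^ 2 - (z.re : ℝ) * (z.im : ℝ) + (z.im : ℝ) ^ 2 := by
    exact_mod_cast h
  rw [Complex.normSq_apply, fc_re, fc_im, h']
  linear_combination ((z.im : ℝ) ^ 2 / 4) * h3

theorem nm_mul (z z' : E) : nm (z * z') = nm z * nm z' := by
  have h : (((nm (z * z') : ℕ)) : ℝ) = ((nm z * nm z' : ℕ) : ℝ) := by
    rw [← normSq_fc, map_mul, Complex.normSq_mul, normSq_fc, normSq_fc]
    push_cast
    ring
  exact_mod_cast h

theorem fc_inj : Function.Injective fc := by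
  rw [injective_iff_map_eq_zero]
  intro z hz
  have h1 : (fc z).im = 0 := by rw [hz]; rfl
  have h2 : (fc z).re = 0 := by rw [hz]; rfl
  rw [fc_im] at h1
  rw [fc_re] at h2
  have h3 : Real.sqrt 3 / 2 ≠ 0 := by positivity
  have h4 : (z.im : ℝ) = 0 := by
    rcases mul_eq_zero.1 h1 with h | h
    · exact h
    · exact absurd h h3
  rw [h4] at h2
  have h5 : (z.re : ℝ) = 0 := by linarith
  have h6 : z.re = 0 := by exact_mod_cast h5
  have h7 : z.im = 0 := by exact_mod_cast h4
  exact QuadraticAlgebra.ext h6 h7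

theorem isDomain : IsDomain E := fc_inj.isDomain fc

/-- `ω` -/
abbrev om : E := ⟨0, 1⟩

theorem om_sq : om ^ 2 = -1 - om := by
  rw [sq]
  apply QuadraticAlgebra.ext
  · simp [QuadraticAlgebra.re_one]
  · simp [QuadraticAlgebra.im_one]

theorem om_cube : om ^ 3 = 1 := by
  have h := om_sq
  calc om ^ 3 = om ^ 2 * om := by ring
    _ = -om - om ^ 2 := by rw [h]; ring_nf; rw [h]; ring
    _ = 1 := by rw [h]; ring

theorem om_ne : om ≠ 1 := by
  intro h
  have h1 := congrArg QuadraticAlgebra.im h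
  simp [QuadraticAlgebra.im_one] at h1

theorem om_sq_ne : om ^ 2 ≠ 1 := by
  intro h
  rw [om_sq] at h
  have h1 := congrArg QuadraticAlgebra.im h
  simp [QuadraticAlgebra.im_one] at h1

theorem om_prim : IsPrimitiveRoot om 3 := by
  refine IsPrimitiveRoot.mk_of_lt om (by norm_num) om_cube ?_
  intro l hl0 hl3
  interval_cases l
  · rw [pow_one]
    exact om_ne
  · exact om_sq_ne

theorem om_pow_ne (j : ZMod 3) (hj : j ≠ 0) : om ^ j.val ≠ 1 ∧ om ^ j.val * om ^ j.val ≠ 1 := by
  fin_cases j
  · exact absurd rfl hj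
  · refine ⟨?_, ?_⟩
    · show om ^ 1 ≠ 1
      rw [pow_one]
      exact om_ne
    · show om ^ 1 * om ^ 1 ≠ 1
      rw [pow_one, ← sq]
      exact om_sq_ne
  · refine ⟨?_, ?_⟩
    · show om ^ 2 ≠ 1
      exact om_sq_ne
    · show om ^ 2 * om ^ 2 ≠ 1
      have h : om ^ 2 * om ^ 2 = om := by
        calc om ^ 2 * om ^ 2 = om ^ 3 * om := by ring
          _ = om := by rw [om_cube, one_mul]
      rw [h]
      exact om_ne

/-- the six units which are `-1` modulo `3` -/
theorem unit_eq (u : E) (h : nm u = 1) (h1 : (3 : ℤ) ∣ u.re + 1) (h2 : (3 : ℤ) ∣ u.im) :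
    u = -1 := by
  have h3 := nm_cast u
  rw [h] at h3
  push_cast at h3
  have h4 : u.im ^ 2 ≤ 1 := by nlinarith [sq_nonneg (2 * u.re - u.im)]
  have h5 : -1 ≤ u.im := by nlinarith
  have h6 : u.im ≤ 1 := by nlinarith
  have h7 : u.im = 0 := by omega
  rw [h7] at h3
  have h8 : u.re ^ 2 = 1 := by linarith
  have h9 : u.re = -1 := by
    have h10 : (u.re - 1) * (u.re + 1) = 0 := by linear_combination h8
    rcases mul_eq_zero.1 h10 with h | h
    · omega
    · omega
  apply QuadraticAlgebra.ext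
  · rw [h9]
    simp [QuadraticAlgebra.re_one]
  · rw [h7]
    simp [QuadraticAlgebra.im_one]

end IJac

open IJac in
theorem pr_Jac (h1 : StRho) (h2 : StInd) : StJac := by
  intro π hπ hfact χ hχ
  have hdom : IsDomain E := IJac.isDomain
  obtain ⟨hρ, hdiv, h3p, h7, hρ1⟩ := h1 π hπ
  obtain ⟨hind, -⟩ := h2 π hπ
  have hk : 3 * ((nm π - 1) / 3) = nm π - 1 := Nat.mul_div_cancel' h3p
  set k := (nm π - 1) / 3 with hkdef
  have hk2 : 2 * k < nm π - 1 := by omega
  have hk0 : 0 < k := by omega
  have hcard : Fintype.card (ZMod (nm π)) = nm π := ZMod.card (nm π)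
  -- values of the character
  have hval : ∀ u : ZMod (nm π), u ≠ 0 → ∃ j : ZMod 3, χ u = om ^ j.val ∧ u ^ k = rho π ^ j.val := by
    intro u hu
    have hz : ev (rho π) ((u.val : ℕ) : E) = u := by
      unfold ev
      rw [QuadraticAlgebra.re_natCast, QuadraticAlgebra.im_natCast]
      push_cast
      rw [ZMod.natCast_zmod_val]
      ring
    have hnd : ¬ π ∣ ((u.val : ℕ) : E) := by
      intro h
      rw [← hdiv, hz] at h
      exact hu h
    refine ⟨ind π ((u.val : ℕ) : E), ?_, ?_⟩
    · have h := hχ _ hnd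
      rw [hz] at h
      exact h
    · have h := hind _ hnd
      rw [hz] at h
      exact h
  -- the cube of the character
  have hχ3 : χ ^ 3 = 1 := by
    apply MulChar.ext
    intro a
    obtain ⟨j, hj, -⟩ := hval (a : ZMod (nm π)) a.ne_zero
    rw [MulChar.pow_apply_coe, hj, MulChar.one_apply_coe, ← pow_mul, mul_comm, pow_mul, om_cube,
      one_pow]
  -- step 1
  have hs1 : (3 : ℤ) ∣ (jacobiSum χ χ).re + 1 ∧ (3 : ℤ) ∣ (jacobiSum χ χ).im := by
    obtain ⟨z, -, hz⟩ := exists_jacobiSum_eq_neg_one_add (n := 3) (by norm_num) hχ3 hχ3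
      (by rw [hcard]; exact h3p) om_prim
    have h : jacobiSum χ χ = -1 + 3 * (-(z * om)) := by
      rw [hz]
      have e : (om - 1) ^ 2 = -3 * om := by
        calc (om - 1) ^ 2 = om ^ 2 - 2 * om + 1 := by ring
          _ = -3 * om := by rw [om_sq]; ring
      rw [e]
      ring
    set y : E := -(z * om) with hy
    have hre : ((3 : E) * y).re = 3 * y.re := by
      rw [QuadraticAlgebra.re_mul, QuadraticAlgebra.re_ofNat, QuadraticAlgebra.im_ofNat]
      ring
    have him : ((3 : E) * y).im = 3 * y.im := by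
      rw [QuadraticAlgebra.im_mul, QuadraticAlgebra.re_ofNat, QuadraticAlgebra.im_ofNat]
      ring
    rw [h]
    refine ⟨⟨y.re, ?_⟩, ⟨y.im, ?_⟩⟩
    · rw [QuadraticAlgebra.re_add, hre, QuadraticAlgebra.re_neg, QuadraticAlgebra.re_one]
      ring
    · rw [QuadraticAlgebra.im_add, him, QuadraticAlgebra.im_neg, QuadraticAlgebra.im_one]
      ring
  -- step 2
  have hs2 : π ∣ jacobiSum χ χ := by
    rw [← hdiv]
    have hev : ∀ u : ZMod (nm π), evH (rho π) hρ (χ u) = u ^ k := by
      intro u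
      by_cases hu : u = 0
      · rw [hu, MulChar.map_zero, map_zero, zero_pow hk0.ne']
      · obtain ⟨j, hj1, hj2⟩ := hval u hu
        have hom : evH (rho π) hρ om = rho π := by
          show ev (rho π) om = rho π
          unfold ev
          simp
        rw [hj1, map_pow, hom, hj2]
    have h4 : evH (rho π) hρ (jacobiSum χ χ) = 0 := by
      unfold jacobiSum
      rw [map_sum]
      have h5 : ∀ u : ZMod (nm π), evH (rho π) hρ (χ u * χ (1 - u)) =
          ∑ j ∈ Finset.range (k + 1), ((-1) ^ j * (k.choose j : ZMod (nm π))) * u ^ (k + j) := by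
        intro u
        rw [map_mul, hev, hev]
        have h6 : (1 - u) ^ k = ∑ j ∈ Finset.range (k + 1), (-u) ^ j * 1 ^ (k - j) *
            (k.choose j : ZMod (nm π)) := by
          rw [← add_pow]
          congr 1
          ring
        rw [h6, Finset.mul_sum]
        refine Finset.sum_congr rfl fun j _ => ?_
        rw [one_pow, neg_pow u j, pow_add]
        ring
      rw [Finset.sum_congr rfl (fun u _ => h5 u), Finset.sum_comm]
      refine Finset.sum_eq_zero fun j hj => ?_
      rw [← Finset.mul_sum]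
      have hj' := Finset.mem_range.1 hj
      have h7 := FiniteField.sum_pow_lt_card_sub_one (K := ZMod (nm π)) (k + j) (by
        rw [hcard]
        omega)
      rw [h7, mul_zero]
    exact h4
  -- step 3
  have hs3 : nm (jacobiSum χ χ) = nm π := by
    obtain ⟨g, hg⟩ := IsCyclic.exists_generator (α := (ZMod (nm π))ˣ)
    have hgo : orderOf g = nm π - 1 := by
      rw [orderOf_eq_card_of_forall_mem_zpowers hg, Nat.card_eq_fintype_card, ZMod.card_units]
    have hgk : ((g : ZMod (nm π))) ^ k ≠ 1 := by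
      intro h
      have h' : g ^ k = 1 := by
        apply Units.ext
        rw [Units.val_pow_eq_pow_val, h, Units.val_one]
      have h'' := orderOf_dvd_of_pow_eq_one h'
      rw [hgo] at h''
      have := Nat.le_of_dvd hk0 h''
      omega
    obtain ⟨j, hj1, hj2⟩ := hval (g : ZMod (nm π)) g.ne_zero
    have hj0 : j ≠ 0 := by
      intro h
      rw [h] at hj2
      apply hgk
      rw [hj2]
      show rho π ^ 0 = 1
      exact pow_zero _
    obtain ⟨hn1, hn2⟩ := om_pow_ne j hj0
    set χ' : MulChar (ZMod (nm π)) ℂ := χ.ringHomComp fc with hχ'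
    have hc1 : χ' ≠ 1 := by
      intro h
      have h' : χ' (g : ZMod (nm π)) = 1 := by rw [h, MulChar.one_apply_coe]
      rw [hχ', MulChar.ringHomComp_apply, hj1] at h'
      apply hn1
      apply fc_inj
      rw [h', map_one]
    have hc2 : χ' * χ' ≠ 1 := by
      intro h
      have h' : (χ' * χ') (g : ZMod (nm π)) = 1 := by rw [h, MulChar.one_apply_coe]
      rw [MulChar.mul_apply, hχ', MulChar.ringHomComp_apply, hj1, ← map_mul] at h'
      apply hn2
      apply fc_inj
      rw [h', map_one]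
    have hchar : ringChar ℂ ≠ ringChar (ZMod (nm π)) := by
      rw [ZMod.ringChar_zmod_n, ringChar.eq_zero]
      omega
    have h6 := jacobiSum_mul_jacobiSum_inv hchar hc1 hc1 hc2
    have h7' : jacobiSum χ'⁻¹ χ'⁻¹ = (starRingEnd ℂ) (jacobiSum χ' χ') := by
      have h8 : χ'⁻¹ = χ'.ringHomComp (starRingEnd ℂ) := by
        rw [← MulChar.star_eq_inv]
        apply MulChar.ext
        intro a
        rw [MulChar.star_apply, MulChar.ringHomComp_apply]
        rfl
      rw [h8, jacobiSum_ringHomComp]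
    rw [h7', Complex.mul_conj, hcard] at h6
    have h9 : jacobiSum χ' χ' = fc (jacobiSum χ χ) := by
      rw [hχ', jacobiSum_ringHomComp]
    rw [h9, normSq_fc] at h6
    exact_mod_cast h6
  -- conclusion
  obtain ⟨u, hu⟩ := hs2
  have hnu : nm u = 1 := by
    rw [hu, nm_mul] at hs3
    have hp0 : 0 < nm π := by omega
    exact Nat.eq_of_mul_eq_mul_left hp0 (by rw [hs3, mul_one])
  obtain ⟨a, ha⟩ := hπ.re
  obtain ⟨b, hb⟩ := hπ.im
  have hu1 : u = -1 := by
    refine unit_eq u hnu ?_ ?_
    · obtain ⟨c, hc⟩ := hs1.1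
      rw [hu, QuadraticAlgebra.re_mul] at hc
      have ha' : π.re = 1 + 3 * a := by linarith
      rw [ha', hb] at hc
      refine ⟨c - a * u.re + b * u.im, ?_⟩
      linear_combination hc
    · obtain ⟨c, hc⟩ := hs1.2
      rw [hu, QuadraticAlgebra.im_mul] at hc
      have ha' : π.re = 1 + 3 * a := by linarith
      rw [ha', hb] at hc
      refine ⟨c - a * u.im - b * u.re + b * u.im, ?_⟩
      linear_combination hc
  rw [hu, hu1, mul_neg, mul_one]

end Pool.Agent.Work.MP_59f3ad_nt.Q3
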