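import Mathlib
import Pool.Agent.Work.MP_59f3ad_nt.Q3.StmtsG

/-!
# MP_59f3ad Q3: item Kmr, elements of `F` which are cubes in `L`
-/

set_option autoImplicit false

open NumberField IsDedekindDomain

namespace Pool.Agent.Work.MP_59f3ad_nt.Q3

universe u

namespace IKmr

/-- If `w² + w + 1 = 0` and `3 ∣ M - 1` then `ev w M ≠ 0` in a field of characteristic `0`. -/
theorem ev_ne {F : Type u} [Field F] [CharZero F] {w : F} (hw : w ^ 2 + w + 1 = 0) {M : E}
    (h3 : (3 : E) ∣ M - 1) : ev w M ≠ 0 := by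
  intro h0
  obtain ⟨z, hz⟩ := h3
  have hM : M = 1 + 3 * z := by
    rw [← hz]
    ring
  have hre : M.re = 1 + 3 * z.re := by
    rw [hM]
    have h3r : (3 : E).re = 3 := rfl
    have h3i : (3 : E).im = 0 := rfl
    rw [QuadraticAlgebra.re_add, QuadraticAlgebra.re_one, QuadraticAlgebra.re_mul, h3r, h3i]
    ring
  have him : M.im = 3 * z.im := by
    rw [hM]
    have h3r : (3 : E).re = 3 := rfl
    have h3i : (3 : E).im = 0 := rfl
    rw [QuadraticAlgebra.im_add, QuadraticAlgebra.im_one, QuadraticAlgebra.im_mul, h3r, h3i]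
    ring
  have h0' : (M.re : F) + (M.im : F) * w = 0 := h0
  have h1 : (M.re : F) ^ 2 - M.re * M.im + (M.im : F) ^ 2 = 0 := by
    have h2 : ((M.re : F) + (M.im : F) * w) * ((M.re : F) + (M.im : F) * w ^ 2) = 0 := by
      rw [h0', zero_mul]
    linear_combination h2 - ((M.im : F) ^ 2 * (w - 1) + M.re * M.im) * hw
  have h2 : M.re ^ 2 - M.re * M.im + M.im ^ 2 = 0 := by
    have h3 : ((M.re ^ 2 - M.re * M.im + M.im ^ 2 : ℤ) : F) = ((0 : ℤ) : F) := by
      push_cast
      exact h1
    exact Int.cast_injective h3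
  rw [hre, him] at h2
  have h4 : (3 : ℤ) ∣ 1 :=
    ⟨-(2 * z.re + 3 * z.re ^ 2 - (1 + 3 * z.re) * z.im + 3 * z.im ^ 2), by linarith [h2]⟩
  omega

/-- The cube roots of unity. -/
theorem cube_one {L : Type u} [Field L] {w u : L} (hw : w ^ 2 + w + 1 = 0) (hu : u ^ 3 = 1) :
    u = 1 ∨ u = w ∨ u = w ^ 2 := by
  have h1 : (u - 1) * ((u - w) * (u - w ^ 2)) = 0 := by
    linear_combination hu + (-u ^ 2 + u * w - w + 1) * hw
  rcases mul_eq_zero.1 h1 with h | h
  · exact Or.inl (sub_eq_zero.1 h)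
  · rcases mul_eq_zero.1 h with h | h
    · exact Or.inr (Or.inl (sub_eq_zero.1 h))
    · exact Or.inr (Or.inr (sub_eq_zero.1 h))

theorem nm_nonneg (M : E) : 0 ≤ M.re ^ 2 - M.re * M.im + M.im ^ 2 := by
  nlinarith [sq_nonneg (M.re - M.im), sq_nonneg M.re, sq_nonneg M.im]

/-- If `w² + w + 1 = 0` and `M ≠ 0` then `ev w M ≠ 0` in a field of characteristic `0`. -/
theorem ev_ne' {F : Type u} [Field F] [CharZero F] {w : F} (hw : w ^ 2 + w + 1 = 0) {M : E}
    (hM : M ≠ 0) : ev w M ≠ 0 := by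
  intro h5
  have h6 : ev w (M * star M) = 0 := by
    rw [← evH_apply w hw, map_mul, evH_apply, h5, zero_mul]
  have h7 : M * star M = ((nm M : ℕ) : E) := by
    ext
    · simp only [QuadraticAlgebra.re_mul, QuadraticAlgebra.re_star, QuadraticAlgebra.im_star,
        QuadraticAlgebra.re_natCast, nm]
      rw [Int.natCast_natAbs, abs_of_nonneg (nm_nonneg M)]
      ring
    · simp only [QuadraticAlgebra.im_mul, QuadraticAlgebra.re_star, QuadraticAlgebra.im_star,
        QuadraticAlgebra.im_natCast]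
      ring
  rw [h7] at h6
  have h8 : (nm M : F) = 0 := by
    simpa [ev] using h6
  have h9 : nm M = 0 := by exact_mod_cast h8
  apply hM
  unfold nm at h9
  rw [Int.natAbs_eq_zero] at h9
  have h10 : M.re = 0 ∧ M.im = 0 := by
    constructor <;> nlinarith [sq_nonneg (M.re - M.im), sq_nonneg M.re, sq_nonneg M.im,
      sq_nonneg (2 * M.re - M.im), sq_nonneg (2 * M.im - M.re)]
  ext
  · exact h10.1
  · exact h10.2

end IKmr

/-- Item Kmr. -/
theorem pr_Kmr : StKmr.{u} := by
  intro F L _ _ _ _ _ w x σ M hC a l ha hl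
  have hwF : (w : F) ^ 2 + (w : F) + 1 = 0 := by
    have := congrArg (fun y : 𝓞 F => (y : F)) hC.hw
    simpa using this
  have hMF : ev (w : F) M ≠ 0 := IKmr.ev_ne' hwF hC.hM
  set W : L := algebraMap F L (w : F) with hW
  have hWL : W ^ 2 + W + 1 = 0 := by
    have := congrArg (algebraMap F L) hwF
    simpa [hW] using this
  have hW3 : W ^ 3 = 1 := by linear_combination (W - 1) * hWL
  have hW0 : W ≠ 0 := by
    intro h
    rw [h] at hW3
    norm_num at hW3
  have hl0 : l ≠ 0 := by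
    intro h
    rw [h, zero_pow (by norm_num)] at hl
    exact ha ((map_eq_zero (algebraMap F L)).1 hl.symm)
  have hx0 : (x : L) ≠ 0 := by
    intro h
    have h1 := hC.hx
    rw [h, zero_pow (by norm_num)] at h1
    exact hMF ((map_eq_zero (algebraMap F L)).1 h1.symm)
  have hu : (σ l / l) ^ 3 = 1 := by
    rw [div_pow, ← map_pow, hl, AlgEquiv.commutes,
      div_self ((map_ne_zero (algebraMap F L)).2 ha)]
  have hinj : Function.Injective (algebraMap F L) := (algebraMap F L).injective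
  rcases IKmr.cube_one hWL hu with h | h | h
  · have h1 : σ l = l := by rwa [div_eq_one_iff_eq hl0] at h
    obtain ⟨g, hg⟩ := hC.hfix l h1
    refine ⟨0, g, by norm_num, ?_, ?_⟩
    · intro hg0
      rw [hg0, map_zero] at hg
      exact hl0 hg
    · apply hinj
      rw [pow_zero, one_mul, map_pow, ← hg, hl]
  · have h1 : σ l = W * l := by rwa [div_eq_iff hl0] at h
    have h2 : σ (l / (x : L)) = l / (x : L) := by
      rw [map_div₀, h1, hC.hσ, mul_div_mul_left _ _ hW0]
    obtain ⟨g, hg⟩ := hC.hfix _ h2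
    refine ⟨1, g, by norm_num, ?_, ?_⟩
    · intro hg0
      rw [hg0, map_zero] at hg
      exact (div_ne_zero hl0 hx0) hg
    · apply hinj
      rw [pow_one, map_mul, map_pow, ← hg, ← hC.hx, div_pow, hl]
      field_simp
  · have h1 : σ l = W ^ 2 * l := by rwa [div_eq_iff hl0] at h
    have h2 : σ (l / (x : L) ^ 2) = l / (x : L) ^ 2 := by
      rw [map_div₀, map_pow, h1, hC.hσ, mul_pow, mul_div_mul_left _ _ (pow_ne_zero 2 hW0)]
    obtain ⟨g, hg⟩ := hC.hfix _ h2
    refine ⟨2, g, by norm_num, ?_, ?_⟩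
    · intro hg0
      rw [hg0, map_zero] at hg
      exact (div_ne_zero hl0 (pow_ne_zero 2 hx0)) hg
    · apply hinj
      rw [map_mul, map_pow, map_pow, ← hg, ← hC.hx, div_pow, hl]
      field_simp

end Pool.Agent.Work.MP_59f3ad_nt.Q3
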