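import Mathlib
import Pool.Agent.Work.MP_59f3ad_nt.Q3.StmtsC

/-!
# Item Mur: inertia fixes the roots of unity of order a power of three
-/

open NumberField IsDedekindDomain

namespace Pool.Agent.Work.MP_59f3ad_nt.Q3

universe u

namespace IMur

theorem eq_one {R : Type*} [CommRing R] [IsDomain R] (Q : Ideal R) (h3 : (3 : R) ∉ Q) :
    ∀ (n : ℕ) (x : R), x ^ 3 ^ n = 1 → x - 1 ∈ Q → x = 1 := by
  intro n
  induction n with
  | zero =>
    intro x hx _
    rwa [pow_zero, pow_one] at hx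
  | succ n ih =>
    intro x hx hQ
    have h1 : x ^ 3 = 1 := by
      refine ih (x ^ 3) ?_ ?_
      · rw [← pow_mul, ← hx]
        congr 1
        rw [pow_succ]
        ring
      · have e : x ^ 3 - 1 = (x ^ 2 + x + 1) * (x - 1) := by ring
        rw [e]
        exact Q.mul_mem_left _ hQ
    have h2 : (x - 1) * (x ^ 2 + x + 1) = 0 := by
      linear_combination h1
    rcases mul_eq_zero.1 h2 with h | h
    · exact sub_eq_zero.1 h
    · exfalso
      apply h3
      have e : (3 : R) = -(x + 2) * (x - 1) := by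
        linear_combination h
      rw [e]
      exact Q.mul_mem_left _ hQ

theorem fix {L : Type u} [Field L] [NumberField L] {σ : L ≃+* L}
    {v : HeightOneSpectrum (𝓞 L)} {τ : AlgebraicClosure L ≃+* AlgebraicClosure L}
    {Q : Ideal (𝓞 (AlgebraicClosure L))} (h : InrQ σ v τ Q) (h3 : (3 : 𝓞 L) ∉ v.asIdeal)
    (n : ℕ) (ζ : AlgebraicClosure L) (hζ : ζ ^ 3 ^ n = 1) : τ ζ = ζ := by
  have h3Q : (3 : 𝓞 (AlgebraicClosure L)) ∉ Q := by
    intro h4
    apply h3
    rw [← h.co, Ideal.mem_comap, map_ofNat]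
    exact h4
  have hpos : 0 < 3 ^ n := by positivity
  have hζ' : (τ ζ) ^ 3 ^ n = 1 := by rw [← map_pow, hζ, map_one]
  have hi : ∀ y : AlgebraicClosure L, y ^ 3 ^ n = 1 → IsIntegral ℤ y := fun y hy =>
    IsIntegral.of_pow hpos (by rw [hy]; exact isIntegral_one)
  set z : 𝓞 (AlgebraicClosure L) := ⟨ζ, hi ζ hζ⟩ with hz
  set z' : 𝓞 (AlgebraicClosure L) := ⟨τ ζ, hi _ hζ'⟩ with hz'
  have ez : z ^ 3 ^ n = 1 := by
    apply RingOfIntegers.ext
    change algebraMap (𝓞 (AlgebraicClosure L)) (AlgebraicClosure L) (z ^ 3 ^ n) =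
      algebraMap (𝓞 (AlgebraicClosure L)) (AlgebraicClosure L) 1
    rw [map_pow, map_one]
    exact hζ
  have ez' : z' ^ 3 ^ n = 1 := by
    apply RingOfIntegers.ext
    change algebraMap (𝓞 (AlgebraicClosure L)) (AlgebraicClosure L) (z' ^ 3 ^ n) =
      algebraMap (𝓞 (AlgebraicClosure L)) (AlgebraicClosure L) 1
    rw [map_pow, map_one]
    exact hζ'
  have hQ : z' - z ∈ Q := h.inr z z' rfl
  have e1 : z * z ^ (3 ^ n - 1) = 1 := by
    rw [← pow_succ', Nat.sub_add_cancel hpos, ez]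
  have h5 := eq_one Q h3Q n (z' * z ^ (3 ^ n - 1)) (by
    rw [mul_pow, ez', one_mul, ← pow_mul, mul_comm, pow_mul, ez, one_pow]) (by
    have e : z' * z ^ (3 ^ n - 1) - 1 = z ^ (3 ^ n - 1) * (z' - z) := by
      linear_combination e1
    rw [e]
    exact Q.mul_mem_left _ hQ)
  have h6 : z' = z := by
    calc z' = z' * (z * z ^ (3 ^ n - 1)) := by rw [e1, mul_one]
      _ = z' * z ^ (3 ^ n - 1) * z := by ring
      _ = z := by rw [h5, one_mul]
  have h7 := congrArg (fun y : 𝓞 (AlgebraicClosure L) => (y : AlgebraicClosure L)) h6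
  exact h7

end IMur

theorem pr_Mur : StMur := by
  intro L _ _ σ v τ Q h h3
  have hfix := IMur.fix h h3
  refine ⟨hfix, ?_⟩
  apply Units.ext
  rw [Units.val_one]
  apply PadicInt.ext_of_toZModPow.mp
  intro n
  rw [map_one]
  rcases Nat.eq_zero_or_pos n with rfl | hn
  · haveI : Subsingleton (ZMod (3 ^ 0)) := by
      rw [pow_zero]
      infer_instance
    exact Subsingleton.elim _ _
  · rw [cyclotomicCharacter.toZModPow, eq_comm]
    apply modularCyclotomicCharacter.unique
    intro t ht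
    rw [ZMod.val_one'' (one_lt_pow₀ (by norm_num) hn.ne').ne', pow_one]
    refine hfix n _ ?_
    rw [mem_rootsOfUnity] at ht
    have := congrArg (fun y : (AlgebraicClosure L)ˣ => (y : AlgebraicClosure L)) ht
    simpa using this

end Pool.Agent.Work.MP_59f3ad_nt.Q3
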