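import Mathlib
import Pool.Agent.Work.MP_59f3ad_nt.Q3.StmtsG

/-!
Block Q3, item Ncu: the element `M` is not a cube.
-/

open NumberField IsDedekindDomain

namespace Pool.Agent.Work.MP_59f3ad_nt.Q3

universe u

namespace INcu

theorem nm_mul (z z' : E) : nm (z * z') = nm z * nm z' := by
  unfold nm
  rw [← Int.natAbs_mul, QuadraticAlgebra.re_mul, QuadraticAlgebra.im_mul]
  congr 1
  ring

theorem nm_one : nm 1 = 1 := by
  have h1 : (1 : E).re = 1 := rfl
  have h2 : (1 : E).im = 0 := rfl
  unfold nm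
  rw [h1, h2]
  norm_num

/-- the norm as a homomorphism -/
def nh : E →* ℕ where
  toFun := nm
  map_one' := nm_one
  map_mul' := nm_mul

theorem nh_apply (z : E) : nh z = nm z := rfl

theorem nm_eq_zero {z : E} (h : nm z = 0) : z = 0 := by
  unfold nm at h
  rw [Int.natAbs_eq_zero] at h
  have h1 : (2 * z.re - z.im) ^ 2 + 3 * z.im ^ 2 = 0 := by linear_combination 4 * h
  have h2 : z.im = 0 := by nlinarith [sq_nonneg (2 * z.re - z.im), sq_nonneg z.im]
  have h3 : z.re = 0 := by
    rw [h2] at h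
    have : z.re ^ 2 = 0 := by linear_combination h
    exact pow_eq_zero_iff (two_ne_zero) |>.1 this
  exact QuadraticAlgebra.ext h3 h2

end INcu

open INcu in
theorem pr_Ncu : StNcu := by
  intro t π c M hP z d hd heq
  have hi0 : 0 < t := hP.ht
  set i0 : Fin t := ⟨0, hi0⟩ with hi0d
  set p := nm (π i0) with hp
  have hpp : p.Prime := (hP.pp i0).pr
  have hM : nm M = ∏ i, nm (π i) ^ c i := by
    rw [hP.hM, ← nh_apply, map_prod]
    refine Finset.prod_congr rfl fun i _ => ?_
    rw [map_pow, nh_apply]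
  have hMp : nm M = p ^ c i0 * ∏ i ∈ Finset.univ.erase i0, nm (π i) ^ c i := by
    rw [hM, ← Finset.mul_prod_erase Finset.univ _ (Finset.mem_univ i0)]
  set R := ∏ i ∈ Finset.univ.erase i0, nm (π i) ^ c i with hR
  have hRp : ¬ p ∣ R := by
    intro h
    obtain ⟨i, hi, h1⟩ := (hpp.prime.dvd_finsetProd_iff _).1 h
    have h2 := hpp.dvd_of_dvd_pow h1
    have h3 := (Nat.prime_dvd_prime_iff_eq hpp (hP.pp i).pr).1 h2
    have h4 := hP.inj i0 i h3
    exact (Finset.mem_erase.1 hi).1 h4.symm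
  have hR0 : R ≠ 0 := fun h => hRp (by rw [h]; exact dvd_zero p)
  have hd0 : nm d ≠ 0 := fun h => hd (nm_eq_zero h)
  have hE : p ^ c i0 * R * nm d ^ 3 = nm z ^ 3 := by
    have h1 := congrArg nh heq
    rw [map_mul, map_pow, map_pow, nh_apply, nh_apply, nh_apply, hMp] at h1
    exact h1
  have hpc : p ^ c i0 ≠ 0 := pow_ne_zero _ hpp.ne_zero
  have hf : (p ^ c i0 * R * nm d ^ 3).factorization p = (nm z ^ 3).factorization p := by rw [hE]
  rw [Nat.factorization_mul (mul_ne_zero hpc hR0) (pow_ne_zero 3 hd0),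
    Nat.factorization_mul hpc hR0, Nat.factorization_pow, Nat.factorization_pow,
    Nat.factorization_pow] at hf
  simp only [Finsupp.add_apply, Finsupp.smul_apply, smul_eq_mul, hpp.factorization_self,
    Nat.factorization_eq_zero_of_not_dvd hRp] at hf
  have hc := hP.hc i0
  omega

end Pool.Agent.Work.MP_59f3ad_nt.Q3
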