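import Mathlib
import Pool.Agent.Work.MP_59f3ad_nt.Q3.StmtsC
import Pool.Agent.Work.MP_59f3ad_nt.Q3.StmtsG

/-!
Block Q3, item Nrr: from a cocycle `θ` with `(T - 1) θ ≠ 0`, `(T - 1)² θ = 0` modulo `3` to a norm
`a = δ (σ δ)(σ² δ)` which is not a cube, a cube at all places up to units, and locally a cube above `3`.
-/

set_option autoImplicit false

open NumberField IsDedekindDomain

namespace Pool.Agent.Work.MP_59f3ad_nt.Q3

universe u

namespace INrr

/-- The power of `W` with exponent `z` modulo `3`. -/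
noncomputable def ch {R : Type*} [Monoid R] (W : R) (z : ℤ_[3]) : R := W ^ (PadicInt.toZMod z).val

lemma ch_add {R : Type*} [Monoid R] {W : R} (h : W ^ 3 = 1) (z z' : ℤ_[3]) :
    ch W (z + z') = ch W z * ch W z' := by
  unfold ch
  rw [map_add, ZMod.val_add, ← pow_eq_pow_mod _ h, pow_add]

lemma toZMod_eq_zero {z : ℤ_[3]} : PadicInt.toZMod z = 0 ↔ D3 z := by
  have h1 : PadicInt.toZMod z = 0 ↔ z ∈ RingHom.ker (PadicInt.toZMod : ℤ_[3] →+* ZMod 3) :=
    (RingHom.mem_ker).symm
  rw [h1, PadicInt.ker_toZMod, PadicInt.maximalIdeal_eq_span_p, Ideal.mem_span_singleton]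
  rfl

lemma ch_D3 {R : Type*} [Monoid R] (W : R) {z : ℤ_[3]} (h : D3 z) : ch W z = 1 := by
  unfold ch
  rw [toZMod_eq_zero.2 h, ZMod.val_zero, pow_zero]

lemma D3_of_ch {R : Type*} [CommRing R] {W : R} (h3 : W ^ 3 = 1) (h1 : W ≠ 1) {z : ℤ_[3]}
    (h : ch W z = 1) : D3 z := by
  rw [← toZMod_eq_zero, ← ZMod.val_eq_zero]
  unfold ch at h
  have hlt := ZMod.val_lt (PadicInt.toZMod z)
  set n := (PadicInt.toZMod z).val with hn
  clear_value n
  interval_cases n
  · rfl
  · exact absurd (by rwa [pow_one] at h) h1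
  · exfalso
    apply h1
    calc W = W ^ 2 * W := by rw [h, one_mul]
      _ = W ^ 3 := by ring
      _ = 1 := h3

section eig

variable {L : Type u} [Field L] {σ : L ≃+* L} {s : AlgebraicClosure L ≃+* AlgebraicClosure L}

/-- The Galois group acts on `y` by the powers of `W` with exponents `f`. -/
def Eig (W : AlgebraicClosure L) (f : GK L → ℤ_[3]) (y : AlgebraicClosure L) : Prop :=
  ∀ h : GK L, h y = ch W (f h) * y

lemma Eig.sm (hs : Ext σ s) {W : AlgebraicClosure L} (hW : s W = W) {f : GK L → ℤ_[3]}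
    {y : AlgebraicClosure L} (h : Eig W f y) : Eig W (fun g => f (cj hs g)) (s y) := by
  intro g
  have h1 : g (s y) = s (cj hs g y) := by rw [cj_apply, RingEquiv.apply_symm_apply]
  rw [h1, h (cj hs g), map_mul]
  unfold ch
  rw [map_pow, hW]

lemma Eig.div {W : AlgebraicClosure L} (hW : W ^ 3 = 1) {f f' : GK L → ℤ_[3]}
    {y y' : AlgebraicClosure L} (h : Eig W f y) (h' : Eig W f' y') :
    Eig W (fun g => f g - f' g) (y / y') := by
  intro g
  have hW0 : W ≠ 0 := by
    rintro rfl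
    norm_num at hW
  have hc : ch W (f' g) ≠ 0 := pow_ne_zero _ hW0
  have e : ch W (f g) = ch W (f' g) * ch W (f g - f' g) := by
    rw [← ch_add hW, add_sub_cancel]
  rw [map_div₀, h g, h' g, e, mul_assoc, mul_div_mul_left _ _ hc, mul_div_assoc]

end eig

end INrr

open INrr

theorem pr_Nrr (hKmm : StKmm.{u}) (hH90 : StH90.{u}) (hVsg : StVsg.{u}) : StNrr.{u} := by
  intro F L _ _ _ _ _ w x σ M hcfg huniq s hs k hk r θ hθ hθk hne h2
  have hinj : Function.Injective (algebraMap L (AlgebraicClosure L)) :=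
    (algebraMap L (AlgebraicClosure L)).injective
  -- the cube root of unity
  have hw : (algebraMap F L (w : F)) ^ 2 + algebraMap F L (w : F) + 1 = 0 := by
    have h1 : ((w : F)) ^ 2 + (w : F) + 1 = 0 := by
      have := congrArg (fun y : 𝓞 F => (y : F)) hcfg.hw
      simpa using this
    rw [← map_pow, ← map_add, ← map_one (algebraMap F L), ← map_add, h1, map_zero]
  obtain ⟨β, α, hβ0, hα0, hβ, hαβ, hCub, hLCub⟩ := hKmm L (algebraMap F L (w : F)) hw r θ hθ
  obtain ⟨hσ3, h90⟩ := hH90 F L w x σ M hcfg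
  set wL : L := algebraMap F L (w : F) with hwL
  set W : AlgebraicClosure L := algebraMap L (AlgebraicClosure L) wL with hWdef
  have hW2 : W ^ 2 + W + 1 = 0 := by
    rw [hWdef, ← map_pow, ← map_add, ← map_one (algebraMap L (AlgebraicClosure L)), ← map_add,
      hw, map_zero]
  have hW3 : W ^ 3 = 1 := by linear_combination (W - 1) * hW2
  have hW1 : W ≠ 1 := by
    intro h
    rw [h] at hW2
    norm_num at hW2
  have hsι : ∀ y : L, s (algebraMap L (AlgebraicClosure L) y) =
      algebraMap L (AlgebraicClosure L) (σ y) := fun y => hs y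
  have hsW : s W = W := by
    rw [hWdef, hsι, hwL, AlgEquiv.commutes]
  -- eigenvectors
  have e1 : Eig W θ β := by
    intro h
    rw [hβ h, map_pow]
    rfl
  have e2 := e1.sm hs hsW
  have e3 := e2.div hW3 e1
  have e4 := e3.sm hs hsW
  have e5 := e4.div hW3 e3
  have hsβ0 : s β ≠ 0 := fun h => hβ0 (s.injective (by rw [h, map_zero]))
  have hs2β0 : s (s β) ≠ 0 := fun h => hsβ0 (s.injective (by rw [h, map_zero]))
  have hs3β : s (s (s β)) = β := by
    rw [← hk β, e1 k, hθk, ch_D3 W (dvd_zero _), one_mul]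
  have hsb : s (s β / β) = s (s β) / s β := map_div₀ s _ _
  -- the element c
  have hc : ∀ g : GK L, g (s (s β / β) / (s β / β)) = s (s β / β) / (s β / β) := by
    intro g
    have h3 := e5 g
    have h4 : D3 ((θ (cj hs (cj hs g)) - θ (cj hs g)) - (θ (cj hs g) - θ g)) := by
      have h5 := h2 g
      have h6 : (θ (cj hs (cj hs g)) - θ (cj hs g)) - (θ (cj hs g) - θ g) =
          θ (cj hs (cj hs g)) - 2 * θ (cj hs g) + θ g := by ring
      rwa [h6]
    rw [h3, ch_D3 W h4, one_mul]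
  obtain ⟨c, hc'⟩ := (InfiniteGalois.mem_range_algebraMap_iff_fixed (k := L) _).2 hc
  have hc1 : c * σ c * σ (σ c) = 1 := by
    apply hinj
    rw [map_mul, map_mul, map_one, ← hsι, ← hsι, ← hsι, hc', hsb, map_div₀, map_div₀, map_div₀,
      map_div₀, map_div₀, map_div₀, hs3β]
    field_simp
  obtain ⟨d, hd0, hd⟩ := h90 c hc1
  -- the element A
  have hιd : algebraMap L (AlgebraicClosure L) d ≠ 0 := fun h => hd0 (hinj (by rw [h, map_zero]))
  obtain ⟨A, hA⟩ : ∃ A, A = (s β / β) / algebraMap L (AlgebraicClosure L) d := ⟨_, rfl⟩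
  have hb0 : s β / β ≠ 0 := div_ne_zero hsβ0 hβ0
  have hA0 : A ≠ 0 := by rw [hA]; exact div_ne_zero hb0 hιd
  have hc0 : c ≠ 0 := by
    rintro rfl
    rw [zero_mul, zero_mul] at hc1
    exact zero_ne_one hc1
  have hsA : s A = A := by
    rw [hA, map_div₀, hsι, hd, map_mul, hc']
    rw [div_eq_div_iff (mul_ne_zero (div_ne_zero (by rw [hsb]; exact div_ne_zero hs2β0 hsβ0) hb0)
      hιd) hιd]
    field_simp
  have hAg : ∀ g : GK L, g A = ch W (θ (cj hs g) - θ g) * A := by
    intro g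
    rw [hA, map_div₀, e3 g, AlgEquiv.commutes, mul_div_assoc]
  obtain ⟨g₀, hg₀⟩ := hne
  have hAL : ∀ y : L, algebraMap L (AlgebraicClosure L) y ≠ A := by
    rintro y hy
    apply hg₀
    apply D3_of_ch hW3 hW1
    have h3 := hAg g₀
    rw [← hy, AlgEquiv.commutes, hy] at h3
    exact mul_right_cancel₀ hA0 (by rw [← h3, one_mul])
  have hA3 : A ^ 3 = algebraMap L (AlgebraicClosure L) (σ α / (α * d ^ 3)) := by
    rw [hA, map_div₀, map_mul, map_pow, ← hsι, hαβ, map_pow, div_pow, div_pow]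
    rw [div_div]
  have hfix : σ (σ α / (α * d ^ 3)) = σ α / (α * d ^ 3) := by
    apply hinj
    rw [← hsι, ← hA3, map_pow, hsA]
  obtain ⟨a, ha⟩ := hcfg.hfix _ hfix
  have hσα0 : σ α ≠ 0 := fun h => hα0 (σ.injective (by rw [h, map_zero]))
  have haL0 : algebraMap F L a ≠ 0 := by
    rw [← ha]
    exact div_ne_zero hσα0 (mul_ne_zero hα0 (pow_ne_zero _ hd0))
  have hσd0 : σ d ≠ 0 := fun h => hd0 (σ.injective (by rw [h, map_zero]))
  have hσσd0 : σ (σ d) ≠ 0 := fun h => hσd0 (σ.injective (by rw [h, map_zero]))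
  refine ⟨a, d⁻¹, ?_, inv_ne_zero hd0, ?_, ?_, ?_, ?_⟩
  · rintro rfl
    rw [map_zero] at haL0
    exact haL0 rfl
  · apply hinj
    rw [← ha, ← hA3]
    have h3 : A ^ 3 = A * s A * s (s A) := by rw [hsA, hsA]; ring
    rw [h3, hA]
    simp only [map_div₀, map_mul, map_inv₀, hsι, hs3β]
    have h4 : algebraMap L (AlgebraicClosure L) (σ d) ≠ 0 := fun h => hσd0 (hinj (by rw [h, map_zero]))
    have h5 : algebraMap L (AlgebraicClosure L) (σ (σ d)) ≠ 0 :=
      fun h => hσσd0 (hinj (by rw [h, map_zero]))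
    field_simp
  · intro y hy
    have hy0 : y ≠ 0 := by
      rintro rfl
      rw [← hy] at haL0
      exact haL0 (by norm_num)
    have hιy : algebraMap L (AlgebraicClosure L) y ≠ 0 := fun h => hy0 (hinj (by rw [h, map_zero]))
    have h3 : A ^ 3 = (algebraMap L (AlgebraicClosure L) y) ^ 3 := by
      rw [hA3, ha, ← hy, map_pow]
    have h4 : (A - algebraMap L (AlgebraicClosure L) y) *
        (A - algebraMap L (AlgebraicClosure L) (wL * y)) *
        (A - algebraMap L (AlgebraicClosure L) (wL ^ 2 * y)) = 0 := by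
      rw [map_mul, map_mul, map_pow, ← hWdef]
      have h5 : (A - algebraMap L (AlgebraicClosure L) y) *
        (A - W * algebraMap L (AlgebraicClosure L) y) *
        (A - W ^ 2 * algebraMap L (AlgebraicClosure L) y) =
        A ^ 3 - (algebraMap L (AlgebraicClosure L) y) ^ 3 := by
        linear_combination (-A ^ 2 * algebraMap L (AlgebraicClosure L) y +
          A * (algebraMap L (AlgebraicClosure L) y) ^ 2 * W -
          (algebraMap L (AlgebraicClosure L) y) ^ 3 * (W - 1)) * hW2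
      rw [h5, h3, sub_self]
    rcases mul_eq_zero.1 h4 with h5 | h5
    · rcases mul_eq_zero.1 h5 with h6 | h6
      · exact hAL _ (sub_eq_zero.1 h6).symm
      · exact hAL _ (sub_eq_zero.1 h6).symm
    · exact hAL _ (sub_eq_zero.1 h5).symm
  · intro v
    obtain ⟨v', hv', -⟩ := hVsg L (σ : L ≃+* L) v
    obtain ⟨y, hy⟩ := hCub v
    obtain ⟨y', hy'⟩ := hCub v'
    refine ⟨σ y' / (y * d), ?_⟩
    have h3 : v.valuation L (σ α) = v'.valuation L α := hv' α
    have h4 : v.valuation L (σ y') = v'.valuation L y' := hv' y'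
    rw [← ha, map_div₀, map_div₀, map_mul, map_mul, map_pow, h3, h4, hy, hy', div_pow, mul_pow]
  · intro v hv n
    obtain ⟨v', hv', hv'3⟩ := hVsg L (σ : L ≃+* L) v
    have hvv : v' = v := huniq v' v (hv'3 hv) hv
    subst hvv
    obtain ⟨l, hl0, hl⟩ := hLCub v' hv (n + 1)
    have hσl0 : σ l ≠ 0 := fun h => hl0 (σ.injective (by rw [h, map_zero]))
    refine ⟨σ l / (l * d), div_ne_zero hσl0 (mul_ne_zero hl0 hd0), ?_⟩
    obtain ⟨Z, hZ⟩ : ∃ Z, Z = α / l ^ 3 := ⟨_, rfl⟩
    have hZ0 : Z ≠ 0 := by rw [hZ]; exact div_ne_zero hα0 (pow_ne_zero _ hl0)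
    rw [← hZ] at hl
    have hσZ : v'.valuation L (σ Z - 1) ≤ WithZero.exp (-((n + 1 : ℕ) : ℤ)) := by
      have h3 : v'.valuation L (σ (Z - 1)) = v'.valuation L (Z - 1) := hv' (Z - 1)
      rw [map_sub, map_one] at h3
      rw [h3]
      exact hl
    have h4 : algebraMap F L a / (σ l / (l * d)) ^ 3 = σ Z / Z := by
      rw [← ha, hZ, map_div₀, map_pow]
      field_simp
    have h5 : σ Z / Z - 1 = ((σ Z - 1) - (Z - 1)) / Z := by
      field_simp
      ring
    have hlt : WithZero.exp (-((n + 1 : ℕ) : ℤ)) < 1 := by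
      rw [← WithZero.exp_zero, WithZero.exp_lt_exp]
      push_cast
      omega
    have hZ1 : v'.valuation L Z = 1 := by
      have h6 : v'.valuation L (1 + (Z - 1)) = v'.valuation L (1 : L) := by
        apply Valuation.map_add_eq_of_lt_left
        rw [map_one]
        exact lt_of_le_of_lt hl hlt
      rwa [add_sub_cancel, map_one] at h6
    rw [h4, h5, map_div₀, hZ1, div_one]
    refine (Valuation.map_sub _ _ _).trans (max_le ?_ ?_)
    · refine hσZ.trans ?_
      rw [WithZero.exp_le_exp]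
      push_cast
      omega
    · refine hl.trans ?_
      rw [WithZero.exp_le_exp]
      push_cast
      omega

end Pool.Agent.Work.MP_59f3ad_nt.Q3
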