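import Mathlib
import Pool.Agent.Work.MP_59f3ad_nt.Q3.StmtsG
import Pool.Agent.Work.MP_59f3ad_nt.Q3.StmtsR

/-!
Item RAM of block Q3: the totally ramified primes.
-/

open NumberField IsDedekindDomain

namespace Pool.Agent.Work.MP_59f3ad_nt.Q3

universe u

namespace IRam

/-- A prime element of `E` gives a prime element of `𝓞 F`. -/
theorem prime_ev {F : Type u} [Field F] [NumberField F] (w : 𝓞 F) (hw : w ^ 2 + w + 1 = 0)
    (hb : Function.Bijective (ev w)) (π : E) (hπ : Prime π) : Prime (ev w π) := by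
  have := (MulEquiv.prime_iff (RingEquiv.ofBijective (evH w hw) hb) (p := π)).2 hπ
  exact this

theorem ev_dvd {F : Type u} [Field F] [NumberField F] (w : 𝓞 F) (hw : w ^ 2 + w + 1 = 0)
    (hb : Function.Bijective (ev w)) (π z : E) (h : ev w π ∣ ev w z) : π ∣ z := by
  have := (map_dvd_iff (RingEquiv.ofBijective (evH w hw) hb) (a := π) (b := z)).1 h
  exact this

/-- `3` is not in `(π)`. -/
theorem not_three (h2 : StRho) (π : E) (hπ : PP π) : ¬ π ∣ (3 : E) := by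
  obtain ⟨h1, h2, h3, h4, h5⟩ := h2 π hπ
  intro h
  have h6 := (h2 3).2 h
  have h7 : ev (rho π) (3 : E) = ((3 : ℕ) : ZMod (nm π)) := by
    have : (3 : E) = ((3 : ℕ) : E) := by norm_num
    have h8 : ev (rho π) ((3 : ℕ) : E) = (((3 : ℕ) : E).re : ZMod (nm π)) +
      (((3 : ℕ) : E).im : ZMod (nm π)) * rho π := rfl
    rw [this, h8, QuadraticAlgebra.re_natCast, QuadraticAlgebra.im_natCast]
    push_cast
    ring
  rw [h7] at h6
  have h8 := (ZMod.natCast_eq_zero_iff 3 (nm π)).1 h6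
  have h9 := Nat.le_of_dvd (by norm_num) h8
  omega

theorem exists_above {F L : Type u} [Field F] [NumberField F] [Field L] [NumberField L]
    [Algebra F L] (q : HeightOneSpectrum (𝓞 F)) :
    ∃ v : HeightOneSpectrum (𝓞 L), v.asIdeal.LiesOver q.asIdeal := by
  obtain ⟨Q, hQ, hQ2⟩ := Ideal.exists_maximal_ideal_liesOver_of_isIntegral q.asIdeal (S := 𝓞 L)
  have hne : Q ≠ ⊥ := by
    rintro rfl
    have := hQ2.over
    rw [Ideal.under_def, Ideal.comap_bot_of_injective] at this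
    · exact q.ne_bot this
    · exact FaithfulSMul.algebraMap_injective (𝓞 F) (𝓞 L)
  exact ⟨⟨Q, hQ.isPrime, hne⟩, hQ2⟩

/-- The fundamental identity when `3` divides one ramification index. -/
theorem e_three {F L : Type u} [Field F] [NumberField F] [Field L] [NumberField L]
    [Algebra F L] (hL : Module.finrank F L = 3) (q : HeightOneSpectrum (𝓞 F))
    (v : HeightOneSpectrum (𝓞 L)) (hv : v.asIdeal.LiesOver q.asIdeal)
    (he : 3 ∣ q.asIdeal.ramificationIdx' v.asIdeal) :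
    q.asIdeal.ramificationIdx' v.asIdeal = 3 ∧ q.asIdeal.inertiaDeg' v.asIdeal = 1 ∧
    ∀ v' : HeightOneSpectrum (𝓞 L), v'.asIdeal.LiesOver q.asIdeal → v' = v := by
  have hsum := Ideal.sum_ramification_inertia (𝓞 L) F L (p := q.asIdeal) q.ne_bot
  rw [hL] at hsum
  have hmem : v.asIdeal ∈ IsDedekindDomain.primesOverFinset q.asIdeal (𝓞 L) :=
    (IsDedekindDomain.mem_primesOverFinset_iff q.ne_bot _).2 ⟨v.isPrime, hv⟩
  have hpos1 : q.asIdeal.ramificationIdx' v.asIdeal ≠ 0 :=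
    Ideal.IsDedekindDomain.ramificationIdx'_ne_zero_of_liesOver _ q.ne_bot
  have hpos2 : 0 < q.asIdeal.inertiaDeg' v.asIdeal := Ideal.inertiaDeg'_pos _ _
  have hge : 3 ≤ q.asIdeal.ramificationIdx' v.asIdeal :=
    Nat.le_of_dvd (Nat.pos_of_ne_zero hpos1) he
  rw [← Finset.add_sum_erase _ _ hmem] at hsum
  have h1 : 3 * 1 ≤ q.asIdeal.ramificationIdx' v.asIdeal * q.asIdeal.inertiaDeg' v.asIdeal :=
    Nat.mul_le_mul hge hpos2
  have h2 : q.asIdeal.ramificationIdx' v.asIdeal * q.asIdeal.inertiaDeg' v.asIdeal = 3 := by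
    omega
  have h3 : q.asIdeal.ramificationIdx' v.asIdeal = 3 := by
    nlinarith
  refine ⟨h3, ?_, ?_⟩
  · rw [h3] at h2
    omega
  · intro v' hv'
    by_contra hne
    have hmem' : v'.asIdeal ∈
        (IsDedekindDomain.primesOverFinset q.asIdeal (𝓞 L)).erase v.asIdeal := by
      refine Finset.mem_erase.2 ⟨fun h => hne (HeightOneSpectrum.ext h), ?_⟩
      exact (IsDedekindDomain.mem_primesOverFinset_iff q.ne_bot _).2 ⟨v'.isPrime, hv'⟩
    have hz : ∑ P ∈ (IsDedekindDomain.primesOverFinset q.asIdeal (𝓞 L)).erase v.asIdeal,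
        q.asIdeal.ramificationIdx' P * q.asIdeal.inertiaDeg' P = 0 := by omega
    have := Finset.sum_eq_zero_iff.1 hz _ hmem'
    have hpos1' : q.asIdeal.ramificationIdx' v'.asIdeal ≠ 0 :=
      Ideal.IsDedekindDomain.ramificationIdx'_ne_zero_of_liesOver _ q.ne_bot
    have hpos2' : q.asIdeal.inertiaDeg' v'.asIdeal ≠ 0 := Ideal.inertiaDeg'_ne_zero _ _
    rcases Nat.mul_eq_zero.1 this with h | h
    · exact hpos1' h
    · exact hpos2' h

theorem coe_ev {F : Type u} [Field F] [NumberField F] (w : 𝓞 F) (z : E) :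
    ((ev w z : 𝓞 F) : F) = ev (w : F) z := by
  unfold ev
  simp

/-- The value of `ev w M` at `q = (ev w π)`. -/
theorem val_M {F : Type u} [Field F] [NumberField F] (w : 𝓞 F) (hw : w ^ 2 + w + 1 = 0)
    (hb : Function.Bijective (ev w)) (π M N : E) (c : ℕ) (hπ : Prime π) (hM : M = π ^ c * N)
    (hN : ¬ π ∣ N) (q : HeightOneSpectrum (𝓞 F)) (hq : q.asIdeal = Ideal.span {ev w π}) :
    q.valuation F (ev (w : F) M) = WithZero.exp (-(c : ℤ)) := by
  have h1 : ev w M = ev w π ^ c * ev w N := by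
    rw [← evH_apply w hw, ← evH_apply w hw, ← evH_apply w hw, ← map_pow, ← map_mul, hM]
  have h2 : q.intValuation (ev w N) = 1 := by
    rw [HeightOneSpectrum.intValuation_eq_one_iff, hq, Ideal.mem_span_singleton]
    exact fun h => hN (ev_dvd w hw hb π N h)
  have h3 : q.intValuation (ev w π) = WithZero.exp (-1 : ℤ) :=
    HeightOneSpectrum.intValuation_singleton q (prime_ev w hw hb π hπ).ne_zero hq
  rw [← coe_ev, HeightOneSpectrum.valuation_of_algebraMap, h1, map_mul, map_pow, h2, h3, mul_one,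
    ← WithZero.exp_nsmul]
  simp

/-- `3` divides the ramification index. -/
theorem three_dvd {F L : Type u} [Field F] [NumberField F] [Field L] [NumberField L]
    [Algebra F L] (q : HeightOneSpectrum (𝓞 F)) (v : HeightOneSpectrum (𝓞 L))
    (hv : v.asIdeal.LiesOver q.asIdeal) (a : F) (x : L) (c : ℕ) (hc : c = 1 ∨ c = 2)
    (hx : x ^ 3 = algebraMap F L a) (ha : q.valuation F a = WithZero.exp (-(c : ℤ))) :
    3 ∣ q.asIdeal.ramificationIdx' v.asIdeal := by
  have h1 := HeightOneSpectrum.valuation_liesOver L q v a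
  rw [← hx, map_pow, ha] at h1
  have h2 : v.valuation L x ≠ 0 := by
    intro h0
    rw [h0] at h1
    rw [← WithZero.exp_nsmul] at h1
    simp at h1
  obtain ⟨k, hk⟩ : ∃ k : ℤ, v.valuation L x = WithZero.exp k :=
    ⟨WithZero.log (v.valuation L x), (WithZero.exp_log h2).symm⟩
  rw [hk, ← WithZero.exp_nsmul, ← WithZero.exp_nsmul, WithZero.exp_inj] at h1
  simp only [nsmul_eq_mul] at h1
  have h3 : (3 : ℤ) ∣ (q.asIdeal.ramificationIdx' v.asIdeal : ℤ) * c := ⟨-k, by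
    push_cast at h1
    linarith⟩
  have h4 : 3 ∣ q.asIdeal.ramificationIdx' v.asIdeal * c := by exact_mod_cast h3
  rcases (Nat.Prime.dvd_mul Nat.prime_three).1 h4 with h | h
  · exact h
  · exfalso
    rcases hc with rfl | rfl
    · revert h; decide
    · revert h; decide

theorem res_of {F L : Type u} [Field F] [NumberField F] [Field L] [NumberField L]
    [Algebra F L] (q : HeightOneSpectrum (𝓞 F)) (v : HeightOneSpectrum (𝓞 L))
    (hv : v.asIdeal.LiesOver q.asIdeal) (h : q.asIdeal.inertiaDeg' v.asIdeal = 1) (y : 𝓞 L) :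
    ∃ z : 𝓞 F, y - algebraMap (𝓞 F) (𝓞 L) z ∈ v.asIdeal := by
  rw [Ideal.inertiaDeg'_algebraMap] at h
  let _ : Field (𝓞 F ⧸ q.asIdeal) := Ideal.Quotient.field _
  have : Nontrivial (𝓞 L ⧸ v.asIdeal) := Ideal.Quotient.nontrivial_iff.2 v.isPrime.ne_top
  have h1 := (finrank_eq_one_iff_of_nonzero' (K := 𝓞 F ⧸ q.asIdeal) (1 : 𝓞 L ⧸ v.asIdeal)
    one_ne_zero).1 h (Ideal.Quotient.mk _ y)
  obtain ⟨c, hc⟩ := h1
  obtain ⟨z, rfl⟩ := Ideal.Quotient.mk_surjective c
  refine ⟨z, ?_⟩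
  rw [← Ideal.Quotient.eq, ← hc, Algebra.smul_def, mul_one]
  rfl

theorem inert_of {F L : Type u} [Field F] [NumberField F] [Field L] [NumberField L]
    [Algebra F L] (σ : L ≃ₐ[F] L) (q : HeightOneSpectrum (𝓞 F)) (v : HeightOneSpectrum (𝓞 L))
    (hv : v.asIdeal.LiesOver q.asIdeal)
    (huniq : ∀ v' : HeightOneSpectrum (𝓞 L), v'.asIdeal.LiesOver q.asIdeal → v' = v)
    (hres : ∀ y : 𝓞 L, ∃ z : 𝓞 F, y - algebraMap (𝓞 F) (𝓞 L) z ∈ v.asIdeal) :
    Inert (σ : L ≃+* L) v := by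
  set τ : 𝓞 L ≃+* 𝓞 L := RingOfIntegers.mapRingEquiv (σ : L ≃+* L) with hτ
  have hτc : ∀ y : 𝓞 L, ((τ y : 𝓞 L) : L) = σ (y : L) := fun y => rfl
  have hτF : ∀ z : 𝓞 F, τ (algebraMap (𝓞 F) (𝓞 L) z) = algebraMap (𝓞 F) (𝓞 L) z := by
    intro z
    apply RingOfIntegers.ext
    rw [hτc]
    have : ((algebraMap (𝓞 F) (𝓞 L) z : 𝓞 L) : L) = algebraMap F L (z : F) := rfl
    rw [this, σ.commutes]
  have hprime : (v.asIdeal.comap (τ : 𝓞 L →+* 𝓞 L)).IsPrime := Ideal.comap_isPrime _ _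
  have hne : v.asIdeal.comap (τ : 𝓞 L →+* 𝓞 L) ≠ ⊥ := by
    obtain ⟨y, hy, hy0⟩ := Submodule.exists_mem_ne_zero_of_ne_bot v.ne_bot
    intro h
    have h1 : τ.symm y ∈ v.asIdeal.comap (τ : 𝓞 L →+* 𝓞 L) := by
      rw [Ideal.mem_comap]
      simpa using hy
    rw [h, Ideal.mem_bot] at h1
    exact hy0 (by simpa using h1)
  have hlo : (v.asIdeal.comap (τ : 𝓞 L →+* 𝓞 L)).LiesOver q.asIdeal := by
    constructor
    rw [Ideal.under_def, Ideal.comap_comap]
    have : (τ : 𝓞 L →+* 𝓞 L).comp (algebraMap (𝓞 F) (𝓞 L)) = algebraMap (𝓞 F) (𝓞 L) := by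
      ext z
      exact congrArg _ (hτF z)
    rw [this]
    exact hv.over
  have heq := huniq ⟨_, hprime, hne⟩ hlo
  have hmem : ∀ y ∈ v.asIdeal, τ y ∈ v.asIdeal := by
    intro y hy
    have : v.asIdeal = v.asIdeal.comap (τ : 𝓞 L →+* 𝓞 L) := by
      conv_lhs => rw [← heq]
    rw [this] at hy
    exact hy
  intro y y' hy
  have hy' : y' = τ y := by
    apply RingOfIntegers.ext
    rw [hτc]
    exact hy
  obtain ⟨z, hz⟩ := hres y
  have h1 := hmem _ hz
  rw [map_sub, hτF] at h1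
  have h2 : y' - y = (τ y - algebraMap (𝓞 F) (𝓞 L) z) - (y - algebraMap (𝓞 F) (𝓞 L) z) := by
    rw [hy']; ring
  rw [h2]
  exact Ideal.sub_mem _ h1 hz

end IRam

theorem pr_Ram (h1 : StIso.{u}) (h2 : StRho) (h3 : StInd) : StRam.{u} := by
  intro F L _ _ _ _ _ w x σ M cfg π N c hπ hc hM hN
  obtain ⟨hb, -, -⟩ := h1 F w cfg.hF cfg.hw
  obtain ⟨-, -, -, -, -, hpr⟩ := h3 π hπ
  have hpe := IRam.prime_ev w cfg.hw hb π hpr
  set q : HeightOneSpectrum (𝓞 F) := ⟨Ideal.span {ev w π},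
    (Ideal.span_singleton_prime hpe.ne_zero).2 hpe, by
      rw [Ne, Ideal.span_singleton_eq_bot]
      exact hpe.ne_zero⟩ with hq
  have hqs : q.asIdeal = Ideal.span {ev w π} := rfl
  obtain ⟨v, hv⟩ := IRam.exists_above (L := L) q
  have hval := IRam.val_M w cfg.hw hb π M N c hpr hM hN q hqs
  have h3e := IRam.three_dvd q v hv _ _ c hc cfg.hx hval
  obtain ⟨he, hf, hu⟩ := IRam.e_three cfg.hL q v hv h3e
  have hres := IRam.res_of q v hv hf
  have hram : ∀ a : F, v.valuation L (algebraMap F L a) = q.valuation F a ^ 3 := by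
    intro a
    rw [← HeightOneSpectrum.valuation_liesOver L q v a, he]
  refine ⟨q, v, ⟨hqs, ?_, IRam.inert_of σ q v hv hu hres, hres, hram, ?_⟩⟩
  · intro h
    have h5 : (3 : 𝓞 F) ∈ q.asIdeal := by
      rw [hv.over, Ideal.under_def, Ideal.mem_comap]
      have h7 : algebraMap (𝓞 F) (𝓞 L) 3 = 3 := map_ofNat (algebraMap (𝓞 F) (𝓞 L)) 3
      rw [h7]
      exact h
    rw [hqs, Ideal.mem_span_singleton] at h5
    have h6 : (3 : 𝓞 F) = ev w (3 : E) := by
      rw [← evH_apply w cfg.hw]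
      exact (map_ofNat (evH w cfg.hw) 3).symm
    rw [h6] at h5
    exact IRam.not_three h2 π hπ (IRam.ev_dvd w cfg.hw hb π 3 h5)
  · have h5 : v.valuation L (x : L) ^ 3 = WithZero.exp (-(c : ℤ)) ^ 3 := by
      rw [← map_pow, cfg.hx, hram, hval]
    exact (pow_left_inj₀ zero_le zero_le (by norm_num)).1 h5

end Pool.Agent.Work.MP_59f3ad_nt.Q3
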