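import Mathlib
import Pool.Agent.Work.MP_59f3ad_nt.Q3.StmtsR

/-!
Item RcA of the block Q3 (helper22): the relation between the cubic indices of two primary primes,
by the Gauss sum argument.
-/

namespace Pool.Agent.Work.MP_59f3ad_nt.Q3

namespace IRcA

/-- The Gauss sum computation: for a cubic character `φ` modulo `p` with values in a separably
closed field of characteristic `q = 1 mod 3`, `(p J(φ,φ))^((q-1)/3) φ(q) = 1`. -/
theorem core (p q : ℕ) [hp : Fact p.Prime] [hq : Fact q.Prime] (hne : p ≠ q) (h3 : 3 ∣ q - 1)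
    (K : Type) [Field K] [CharP K q] [IsSepClosed K] (φ : MulChar (ZMod p) K)
    (hφ3 : φ ^ 3 = 1) (hφ1 : φ ≠ 1) (hm1 : φ (-1) = 1) :
    ((p : K) * jacobiSum φ φ) ^ ((q - 1) / 3) * φ (q : ZMod p) = 1 := by
  have hpK : (p : K) ≠ 0 := by
    intro h
    rw [CharP.cast_eq_zero_iff K q] at h
    exact hne ((Nat.prime_dvd_prime_iff_eq hq.out hp.out).mp h).symm
  haveI : NeZero (p : K) := ⟨hpK⟩
  haveI : NeZero p := ⟨hp.out.ne_zero⟩
  obtain ⟨ζ, hζ⟩ := HasEnoughRootsOfUnity.exists_primitiveRoot K p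
  set ψ : AddChar (ZMod p) K := AddChar.zmodChar p hζ.pow_eq_one with hψdef
  have hψ : ψ.IsPrimitive := AddChar.zmodChar_primitive_of_primitive_root p hζ
  set g : K := gaussSum φ ψ with hg
  have hcard : (Fintype.card (ZMod p) : K) ≠ 0 := by rw [ZMod.card]; exact hpK
  have hg0 : g ≠ 0 := gaussSum_ne_zero_of_nontrivial hcard hφ1 hψ
  have hsq : φ * φ ≠ 1 := by
    intro h
    apply hφ1
    have h2 : φ ^ 3 = φ * φ * φ := by rw [pow_succ, pow_two]
    rw [h, one_mul] at h2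
    rw [← h2, hφ3]
  have hord : orderOf φ = 3 := orderOf_eq_prime hφ3 hφ1
  have e1 := jacobiSum_mul_nontrivial hsq ψ
  have e2 := gaussSum_mul_gaussSum_pow_orderOf_sub_one hφ1 hψ
  rw [hord, hm1, one_mul, ZMod.card] at e2
  have e2' : g * gaussSum (φ * φ) ψ = (p : K) := by
    rw [← e2, show (3 - 1 : ℕ) = 2 from rfl, pow_two]
  have hg3 : g ^ 3 = (p : K) * jacobiSum φ φ := by
    rw [← e2', mul_assoc, e1, ← hg]
    ring
  have hq1 : 1 ≤ q := hq.out.one_lt.le
  obtain ⟨m, hm⟩ := h3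
  have hqm : q = 3 * m + 1 := by omega
  have hφq : φ ^ q = φ := by
    rw [hqm, pow_succ, pow_mul, hφ3, one_pow, one_mul]
  have hcop : q.Coprime p := (Nat.coprime_primes hq.out hp.out).mpr (Ne.symm hne)
  have e3 := gaussSum_frob q φ ψ
  rw [hφq, AddChar.pow_mulShift, ← hg] at e3
  have e4 := gaussSum_mulShift φ ψ (ZMod.unitOfCoprime q hcop)
  rw [ZMod.coe_unitOfCoprime, ← e3, ← hg] at e4
  have e5 : φ (q : ZMod p) * g ^ (q - 1) = 1 := by
    have h : g ^ q = g ^ (q - 1) * g := by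
      rw [← pow_succ, Nat.sub_add_cancel hq1]
    rw [h, ← mul_assoc] at e4
    exact mul_right_cancel₀ hg0 (by rw [e4, one_mul])
  have hk : (q - 1) / 3 = m := by omega
  rw [hk, ← hg3, ← pow_mul, ← hm, mul_comm]
  exact e5

/-- A cube root of unity different from `1`: exponents modulo `3`. -/
theorem exp_dvd {K : Type*} [Field K] {r : K} (h3 : r ^ 3 = 1) (h1 : r ≠ 1) {n : ℕ}
    (hn : r ^ n = 1) : 3 ∣ n := by
  have ho : orderOf r = 3 := orderOf_eq_prime h3 h1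
  rw [← ho]
  exact orderOf_dvd_of_pow_eq_one hn

end IRcA

open IRcA in
theorem pr_RcA (h1 : StRho) (h2 : StInd) (h3 : StChr) (h4 : StJac) : StRcA := by
  intro π π' hπ hπ' hne
  haveI hp : Fact (nm π).Prime := ⟨hπ.pr⟩
  haveI hp' : Fact (nm π').Prime := ⟨hπ'.pr⟩
  obtain ⟨hρ, hdv, hmod, h7, hρ1⟩ := h1 π hπ
  obtain ⟨hρ', hdv', hmod', h7', hρ1'⟩ := h1 π' hπ'
  obtain ⟨hi1, hi2, hi3, hi4, hi5, hi6⟩ := h2 π hπ
  obtain ⟨hi1', hi2', hi3', hi4', hi5', hi6'⟩ := h2 π' hπ'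
  obtain ⟨χ, hχ⟩ := h3 π hπ
  have hJ := h4 π hπ χ hχ
  let K : Type := AlgebraicClosure (ZMod (nm π'))
  let a : ZMod (nm π') →+* K := algebraMap (ZMod (nm π')) K
  have ainj : Function.Injective a := RingHom.injective a
  haveI : CharP K (nm π') := charP_of_injective_algebraMap ainj (nm π')
  let f : E →+* K := a.comp (evH (rho π') hρ')
  have hf : ∀ z : E, f z = a (ev (rho π') z) := fun z => rfl
  have hr3 : (rho π') ^ 3 = 1 := by linear_combination (rho π' - 1) * hρ'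
  set r : K := a (rho π') with hr
  have hK3 : r ^ 3 = 1 := by rw [hr, ← map_pow, hr3, map_one]
  have hK1 : r ≠ 1 := by
    intro h
    apply hρ1'
    apply ainj
    rw [map_one]
    exact h
  have hfω : f (⟨0, 1⟩ : E) = r := by
    rw [hf, hr]
    congr 1
    simp [ev]
  set φ : MulChar (ZMod (nm π)) K := χ.ringHomComp f with hφ
  have hφv : ∀ z : E, ¬ π ∣ z → φ (ev (rho π) z) = r ^ (ind π z).val := by
    intro z hz
    rw [hφ, MulChar.ringHomComp_apply, hχ z hz, map_pow, hfω]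
  have hcast : ∀ n : ℕ, ev (rho π) ((n : ℕ) : E) = (n : ZMod (nm π)) := by
    intro n
    rw [← evH_apply (rho π) hρ, map_natCast]
  have hcast' : ∀ n : ℕ, ev (rho π') ((n : ℕ) : E) = (n : ZMod (nm π')) := by
    intro n
    rw [← evH_apply (rho π') hρ', map_natCast]
  -- every unit is the value at an element not divisible by `π`
  have hsurj : ∀ u : (ZMod (nm π))ˣ, ∃ z : E, ¬ π ∣ z ∧ ev (rho π) z = (u : ZMod (nm π)) := by
    intro u
    refine ⟨(((u : ZMod (nm π)).val : ℕ) : E), ?_, ?_⟩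
    · rw [← hdv, hcast, ZMod.natCast_val, ZMod.cast_id]
      exact u.ne_zero
    · rw [hcast, ZMod.natCast_val, ZMod.cast_id]
  have hφ3 : φ ^ 3 = 1 := by
    ext u
    obtain ⟨z, hz, hzu⟩ := hsurj u
    rw [MulChar.pow_apply_coe, ← hzu, hφv z hz, ← pow_mul, mul_comm, pow_mul, hK3, one_pow,
      hzu, MulChar.one_apply_coe]
  have hφ1 : φ ≠ 1 := by
    intro h
    obtain ⟨g, hg⟩ := IsCyclic.exists_ofOrder_eq_natCard (α := (ZMod (nm π))ˣ)
    obtain ⟨z, hz, hzg⟩ := hsurj g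
    have e1 : φ (ev (rho π) z) = 1 := by
      rw [hzg, h, MulChar.one_apply_coe]
    rw [hφv z hz] at e1
    have e2 := exp_dvd hK3 hK1 e1
    have e3 : (ind π z).val < 3 := ZMod.val_lt _
    have e4 : (ind π z).val = 0 := Nat.eq_zero_of_dvd_of_lt e2 e3
    have e5 := hi1 z hz
    rw [e4, pow_zero, hzg] at e5
    have e6 : g ^ ((nm π - 1) / 3) = 1 := by
      apply Units.ext
      rw [Units.val_pow_eq_pow_val, e5, Units.val_one]
    have e7 := orderOf_dvd_of_pow_eq_one e6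
    rw [hg, Nat.card_eq_fintype_card, ZMod.card_units_eq_totient,
      Nat.totient_prime hπ.pr] at e7
    have e8 := Nat.le_of_dvd (by omega) e7
    omega
  have hneg : ∀ n : E, ev (rho π) (-n) = - ev (rho π) n := by
    intro n
    rw [← evH_apply (rho π) hρ, map_neg]
    rfl
  have hone : ev (rho π) 1 = 1 := by
    rw [← evH_apply (rho π) hρ, map_one]
  have hm1 : φ (-1) = 1 := by
    have e1 : ev (rho π) (-1) = -1 := by rw [hneg, hone]
    have e2 : ¬ π ∣ (-1 : E) := by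
      rw [← hdv, e1]
      exact neg_ne_zero.mpr one_ne_zero
    have e3 := hφv (-1) e2
    rw [e1, hi5, ZMod.val_zero, pow_zero] at e3
    exact e3
  have hJφ : jacobiSum φ φ = - f π := by
    rw [hφ, jacobiSum_ringHomComp, hJ, map_neg]
  have hmain := core (nm π) (nm π') hne hmod' K φ hφ3 hφ1 hm1
  rw [hJφ] at hmain
  have hbase : ((nm π : ℕ) : K) * - f π = f (-1 * (((nm π : ℕ) : E) * π)) := by
    rw [map_mul, map_mul, map_natCast, map_neg, map_one]
    ring
  rw [hbase] at hmain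
  have hk0 : (nm π' - 1) / 3 ≠ 0 := by omega
  have hf0 : f (-1 * (((nm π : ℕ) : E) * π)) ≠ 0 := by
    intro h
    rw [h, zero_pow hk0, zero_mul] at hmain
    exact zero_ne_one hmain
  have hnd : ∀ z : E, f z ≠ 0 → ¬ π' ∣ z := by
    intro z hz
    rw [← hdv']
    intro h
    apply hz
    rw [hf, h, map_zero]
  have n0 : ¬ π' ∣ (-1 * (((nm π : ℕ) : E) * π)) := hnd _ hf0
  have n1 : ¬ π' ∣ (-1 : E) := fun h => n0 (Dvd.dvd.mul_right h _)
  have n2 : ¬ π' ∣ (((nm π : ℕ) : E) * π) := fun h => n0 (Dvd.dvd.mul_left h _)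
  have n3 : ¬ π' ∣ ((nm π : ℕ) : E) := fun h => n2 (Dvd.dvd.mul_right h _)
  have n4 : ¬ π' ∣ π := fun h => n2 (Dvd.dvd.mul_left h _)
  have n5 : ¬ π ∣ ((nm π' : ℕ) : E) := by
    rw [← hdv, hcast, ZMod.natCast_eq_zero_iff]
    intro h
    exact hne ((Nat.prime_dvd_prime_iff_eq hπ.pr hπ'.pr).mp h)
  rw [← hcast, hφv _ n5, hf, ← map_pow, hi1' _ n0, map_pow, ← hr, ← pow_add] at hmain
  have hd := exp_dvd hK3 hK1 hmain
  rw [hi2' _ _ n1 n2, hi2' _ _ n3 n4, hi5', zero_add] at hd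
  have hz : (((ind π' ((nm π : ℕ) : E) + ind π' π).val + (ind π ((nm π' : ℕ) : E)).val : ℕ)
      : ZMod 3) = 0 := (ZMod.natCast_eq_zero_iff _ _).mpr hd
  rw [Nat.cast_add, ZMod.natCast_zmod_val, ZMod.natCast_zmod_val] at hz
  rw [add_comm (ind π' π)]
  exact eq_neg_of_add_eq_zero_left hz

end Pool.Agent.Work.MP_59f3ad_nt.Q3
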