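import Mathlib
import Pool.Agent.Work.MP_59f3ad_nt.Q3.StmtsR

set_option autoImplicit false

/-!
# MP_59f3ad_nt, block Q3, item Rec: cubic reciprocity
-/

open NumberField IsDedekindDomain

namespace Pool.Agent.Work.MP_59f3ad_nt.Q3

namespace IRec

theorem ev_nat {R : Type*} [CommRing R] (w : R) (n : ℕ) : ev w ((n : ℕ) : E) = (n : R) := by
  simp [ev]

/-- a primary prime does not divide a rational prime which is different from its norm -/
theorem not_dvd (h1 : StRho) {π' : E} (h' : PP π') {p : ℕ} (hp : p.Prime) (hne : p ≠ nm π') :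
    ¬ π' ∣ ((p : ℕ) : E) := by
  intro h
  have e1 := ((h1 π' h').2.1 ((p : ℕ) : E)).2 h
  rw [ev_nat, ZMod.natCast_eq_zero_iff] at e1
  exact hne (((Nat.prime_dvd_prime_iff_eq h'.pr hp).1 e1).symm)

end IRec

open IRec in
/-- Cubic reciprocity. -/
theorem pr_Rec (h1 : StRho) (h2 : StInd) (h3 : StStr) (h4 : StRcA) : StRec := by
  intro π π' h h' hne
  obtain ⟨hs1, hs2, hs3, hs4⟩ := h3 π h
  have hnd : ¬ π' ∣ ((nm π : ℕ) : E) := not_dvd h1 h' h.pr hne
  have hnd1 : ¬ π' ∣ π := fun hd => hnd (by rw [← hs3]; exact hd.mul_right _)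
  have hnd2 : ¬ π' ∣ star π := fun hd => hnd (by rw [← hs3]; exact hd.mul_left _)
  have e1 := h4 π π' h h' hne
  have e2 := h4 π' π h' h (Ne.symm hne)
  have e3 := h4 (star π) π' hs1 h' (by rw [hs2]; exact hne)
  have e4 : ind π' ((nm π : ℕ) : E) = ind π' π + ind π' (star π) := by
    rw [← hs3]
    exact (h2 π' h').2.1 π (star π) hnd1 hnd2
  rw [hs2, hs4 (nm π') (fun hd => hne ((Nat.prime_dvd_prime_iff_eq h.pr h'.pr).1 hd)),
    neg_neg] at e3
  have e5 : (3 : ZMod 3) = 0 := rfl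
  linear_combination e2 + e3 + e4 - (ind π' ((nm π : ℕ) : E)) * e5

end Pool.Agent.Work.MP_59f3ad_nt.Q3
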