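import Mathlib
import Pool.Agent.Work.MP_59f3ad_nt.Q3.StmtsR

/-!
Block Q3, item Rep: the number of representations as a product of six primes (note 4644, Step 11).
-/

namespace Pool.Agent.Work.MP_59f3ad_nt.Q3

namespace IRep

theorem nm_mul (z z' : E) : nm (z * z') = nm z * nm z' := by
  unfold nm
  rw [← Int.natAbs_mul]
  congr 1
  rw [QuadraticAlgebra.re_mul, QuadraticAlgebra.im_mul]
  ring

theorem nm_one : nm (1 : E) = 1 := by
  unfold nm
  rw [QuadraticAlgebra.re_one, QuadraticAlgebra.im_one]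
  norm_num

theorem nm_prod {ι : Type*} (s : Finset ι) (v : ι → E) (A : ℕ) (h : ∀ i ∈ s, nm (v i) ≤ A) :
    nm (∏ i ∈ s, v i) ≤ A ^ s.card := by
  classical
  induction s using Finset.induction_on with
  | empty => simp [nm_one]
  | insert a s ha ih =>
    rw [Finset.prod_insert ha, nm_mul, Finset.card_insert_of_notMem ha, pow_succ, mul_comm]
    exact Nat.mul_le_mul (ih fun i hi => h i (Finset.mem_insert_of_mem hi))
      (h a (Finset.mem_insert_self a s))

theorem mem_bx (B : ℕ) (z : E) :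
    z ∈ bx B ↔ (-(B : ℤ) ≤ z.re ∧ z.re ≤ B) ∧ (-(B : ℤ) ≤ z.im ∧ z.im ≤ B) := by
  unfold bx
  constructor
  · intro h
    obtain ⟨p, hp, rfl⟩ := Finset.mem_image.mp h
    obtain ⟨h1, h2⟩ := Finset.mem_product.mp hp
    exact ⟨Finset.mem_Icc.mp h1, Finset.mem_Icc.mp h2⟩
  · rintro ⟨h1, h2⟩
    refine Finset.mem_image.mpr ⟨(z.re, z.im), ?_, ?_⟩
    · exact Finset.mem_product.mpr ⟨Finset.mem_Icc.mpr h1, Finset.mem_Icc.mpr h2⟩
    · rfl

theorem nm_cast (z : E) : ((nm z : ℕ) : ℤ) = z.re ^ 2 - z.re * z.im + z.im ^ 2 := by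
  unfold nm
  rw [Int.natCast_natAbs]
  have h0 : 0 ≤ z.re ^ 2 - z.re * z.im + z.im ^ 2 := by
    nlinarith [sq_nonneg (z.re - z.im), sq_nonneg z.re, sq_nonneg z.im, sq_nonneg (z.re + z.im)]
  exact abs_of_nonneg h0

theorem mem_of_nm (X : ℕ) (z : E) (h : nm z ≤ (2 * X) ^ 6) : z ∈ bx (10 * X ^ 3) := by
  rw [mem_bx]
  have e : z.re ^ 2 - z.re * z.im + z.im ^ 2 ≤ (2 * (X : ℤ)) ^ 6 := by
    rw [← nm_cast]
    exact_mod_cast h
  have hX : (0 : ℤ) ≤ (X : ℤ) ^ 3 := by positivity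
  have e1 : (z.re) ^ 2 ≤ (10 * (X : ℤ) ^ 3) ^ 2 := by
    nlinarith [sq_nonneg (z.re - 2 * z.im), sq_nonneg ((X : ℤ) ^ 3)]
  have e2 : (z.im) ^ 2 ≤ (10 * (X : ℤ) ^ 3) ^ 2 := by
    nlinarith [sq_nonneg (2 * z.re - z.im), sq_nonneg ((X : ℤ) ^ 3)]
  have h10 : (0 : ℤ) ≤ 10 * (X : ℤ) ^ 3 := by positivity
  have f1 := abs_le_of_sq_le_sq' e1 h10
  have f2 := abs_le_of_sq_le_sq' e2 h10
  push_cast
  exact ⟨f1, f2⟩

theorem card_fib (h1 : StUF) (P : Finset E) (hP : ∀ π ∈ P, PP π) (v : Fin 6 → E)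
    (hv : ∀ i, v i ∈ P) :
    ((Fintype.piFinset (fun _ : Fin 6 => P)).filter
      (fun v' => ∏ i, v' i = ∏ i, v i)).card ≤ 720 := by
  classical
  have hs : (Fintype.piFinset (fun _ : Fin 6 => P)).filter (fun v' => ∏ i, v' i = ∏ i, v i) ⊆
      (Finset.univ : Finset (Equiv.Perm (Fin 6))).image (fun ρ i => v (ρ i)) := by
    intro v' hv'
    obtain ⟨ha, hb⟩ := Finset.mem_filter.mp hv'
    have hc := Fintype.mem_piFinset.mp ha
    obtain ⟨ρ, hρ⟩ := h1 6 v v' (fun i => hP _ (hv i)) (fun i => hP _ (hc i)) hb.symm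
    exact Finset.mem_image.mpr ⟨ρ, Finset.mem_univ _, funext fun i => (hρ i).symm⟩
  refine (Finset.card_le_card hs).trans (Finset.card_image_le.trans ?_)
  rw [Finset.card_univ, Fintype.card_perm, Fintype.card_fin]
  decide

end IRep

/-- Products of six primary primes: size and number of representations. -/
theorem pr_Rep (h1 : StUF) : StRep := by
  classical
  intro X P hP β hβ
  have hmem : ∀ v ∈ Fintype.piFinset (fun _ : Fin 6 => P), ∏ i, v i ∈ bx (10 * X ^ 3) := by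
    intro v hv
    have hc := Fintype.mem_piFinset.mp hv
    apply IRep.mem_of_nm
    have h2 := IRep.nm_prod Finset.univ v (2 * X) (fun i _ => (hP _ (hc i)).2)
    rwa [Finset.card_univ, Fintype.card_fin] at h2
  refine ⟨hmem, ?_⟩
  have hn : ∀ z : E, ‖∑ v ∈ (Fintype.piFinset (fun _ : Fin 6 => P)).filter
      (fun v => ∏ i, v i = z), ∏ i, β (v i)‖ ≤
      (((Fintype.piFinset (fun _ : Fin 6 => P)).filter (fun v => ∏ i, v i = z)).card : ℝ) := by
    intro z
    refine (norm_sum_le _ _).trans ?_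
    refine (Finset.sum_le_card_nsmul _ _ 1 ?_).trans (by simp)
    intro v _
    rw [norm_prod]
    exact Finset.prod_le_one (fun i _ => norm_nonneg _) (fun i _ => hβ _)
  have hk : ∀ z ∈ bx (10 * X ^ 3), ‖∑ v ∈ (Fintype.piFinset (fun _ : Fin 6 => P)).filter
      (fun v => ∏ i, v i = z), ∏ i, β (v i)‖ ^ 2 ≤
      ∑ v ∈ (Fintype.piFinset (fun _ : Fin 6 => P)).filter (fun v => ∏ i, v i = z), (720 : ℝ) := by
    intro z _
    rw [Finset.sum_const, nsmul_eq_mul, sq]
    by_cases hz : ((Fintype.piFinset (fun _ : Fin 6 => P)).filter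
        (fun v => ∏ i, v i = z)).Nonempty
    · obtain ⟨v, hv⟩ := hz
      obtain ⟨ha, hb⟩ := Finset.mem_filter.mp hv
      have hc := Fintype.mem_piFinset.mp ha
      have h3 := IRep.card_fib h1 P (fun π hπ => (hP π hπ).1) v hc
      rw [hb] at h3
      have h4 : (((Fintype.piFinset (fun _ : Fin 6 => P)).filter
          (fun v => ∏ i, v i = z)).card : ℝ) ≤ 720 := by exact_mod_cast h3
      exact mul_le_mul (hn z) ((hn z).trans h4) (norm_nonneg _) (Nat.cast_nonneg _)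
    · rw [Finset.not_nonempty_iff_eq_empty] at hz
      rw [hz]
      simp
  refine (Finset.sum_le_sum hk).trans ?_
  rw [Finset.sum_fiberwise_of_maps_to hmem (fun _ => (720 : ℝ)), Finset.sum_const, nsmul_eq_mul,
    Fintype.card_piFinset_const, mul_comm]
  push_cast
  exact le_refl _

end Pool.Agent.Work.MP_59f3ad_nt.Q3
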