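import Mathlib
import Pool.Agent.Work.MP_59f3ad_nt.Q3.StmtsR

/-!
Item Rho of block Q3.
-/

open NumberField IsDedekindDomain

namespace Pool.Agent.Work.MP_59f3ad_nt.Q3

namespace IRho

theorem nm_cast (π : E) : ((nm π : ℕ) : ℤ) = π.re ^ 2 - π.re * π.im + π.im ^ 2 := by
  unfold nm
  rw [Int.natCast_natAbs]
  refine abs_of_nonneg ?_
  nlinarith [sq_nonneg (2 * π.re - π.im), sq_nonneg π.im]

theorem main (π : E) (h : PP π) : (rho π) ^ 2 + rho π + 1 = 0 ∧
    (∀ z : E, ev (rho π) z = 0 ↔ π ∣ z) ∧ 3 ∣ nm π - 1 ∧ 7 ≤ nm π ∧ rho π ≠ 1 := by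
  have hp := h.pr
  haveI : Fact (nm π).Prime := ⟨hp⟩
  have hn := nm_cast π
  obtain ⟨s, hs⟩ := h.re
  obtain ⟨t, ht⟩ := h.im
  have hmod : ((nm π : ℕ) : ℤ) = 1 + 3 * (2 * s + 3 * s ^ 2 - t - 3 * s * t + 3 * t ^ 2) := by
    rw [hn, ht, show π.re = 1 + 3 * s by linarith]
    ring
  have h3 : nm π % 3 = 1 := by omega
  have h7 : 7 ≤ nm π := by
    by_contra hc
    have hlt : nm π < 7 := by omega
    have h2 := hp.two_le
    have h4 : nm π ≠ 4 := by
      intro h4
      rw [h4] at hp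
      exact absurd hp (by norm_num)
    omega
  have hz : ((π.re : ZMod (nm π))) ^ 2 - (π.re : ZMod (nm π)) * (π.im : ZMod (nm π)) +
      (π.im : ZMod (nm π)) ^ 2 = 0 := by
    have e := congrArg (fun n : ℤ => (n : ZMod (nm π))) hn
    simp only [Int.cast_natCast, CharP.cast_eq_zero, Int.cast_add, Int.cast_sub, Int.cast_mul,
      Int.cast_pow] at e
    exact e.symm
  have hB : (π.im : ZMod (nm π)) ≠ 0 := by
    intro hB
    rw [hB] at hz
    have hA : (π.re : ZMod (nm π)) = 0 := by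
      have : (π.re : ZMod (nm π)) ^ 2 = 0 := by linear_combination hz
      exact pow_eq_zero_iff (two_ne_zero) |>.1 this
    have h5 : ((nm π : ℕ) : ℤ) ∣ π.im := (ZMod.intCast_zmod_eq_zero_iff_dvd _ _).1 hB
    have h6 : ((nm π : ℕ) : ℤ) ∣ π.re := (ZMod.intCast_zmod_eq_zero_iff_dvd _ _).1 hA
    obtain ⟨x, hx⟩ := h5
    obtain ⟨y, hy⟩ := h6
    have hpos : (0 : ℤ) < (nm π : ℕ) := by exact_mod_cast hp.pos
    have h8 : (1 : ℤ) = (nm π : ℕ) * (y ^ 2 - y * x + x ^ 2) := by
      have : ((nm π : ℕ) : ℤ) * 1 = (nm π : ℕ) * ((nm π : ℕ) * (y ^ 2 - y * x + x ^ 2)) := by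
        rw [mul_one]
        conv_lhs => rw [hn]
        rw [hx, hy]
        ring
      exact mul_left_cancel₀ hpos.ne' this
    have h9 : ((nm π : ℕ) : ℤ) ∣ 1 := ⟨_, h8⟩
    have h10 := Int.le_of_dvd one_pos h9
    have : (7 : ℤ) ≤ (nm π : ℕ) := by exact_mod_cast h7
    linarith
  have hBB : (π.im : ZMod (nm π)) * (π.im : ZMod (nm π))⁻¹ = 1 := mul_inv_cancel₀ hB
  have hρB : rho π * (π.im : ZMod (nm π)) = -(π.re : ZMod (nm π)) := by
    unfold rho
    linear_combination (-(π.re : ZMod (nm π))) * hBB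
  have hρ : (rho π) ^ 2 + rho π + 1 = 0 := by
    have e : (π.im : ZMod (nm π)) ^ 2 * ((rho π) ^ 2 + rho π + 1) = 0 := by
      linear_combination hz + (rho π * (π.im : ZMod (nm π)) - (π.re : ZMod (nm π)) +
        (π.im : ZMod (nm π))) * hρB
    rcases mul_eq_zero.1 e with e | e
    · exact absurd (pow_eq_zero_iff (two_ne_zero) |>.1 e) hB
    · exact e
  refine ⟨hρ, ?_, by omega, h7, ?_⟩
  · intro z
    constructor
    · intro hz0
      unfold ev at hz0
      have hv : ((π.re * z.im - π.im * z.re : ℤ) : ZMod (nm π)) = 0 := by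
        push_cast
        linear_combination (-(π.im : ZMod (nm π))) * hz0 + (z.im : ZMod (nm π)) * hρB
      have hu0 : (π.im : ZMod (nm π)) *
          ((z.re * (π.re - π.im) + z.im * π.im : ℤ) : ZMod (nm π)) = 0 := by
        push_cast at hv ⊢
        linear_combination (z.im : ZMod (nm π)) * hz -
          ((π.re : ZMod (nm π)) - (π.im : ZMod (nm π))) * hv
      have hu : ((z.re * (π.re - π.im) + z.im * π.im : ℤ) : ZMod (nm π)) = 0 := by
        rcases mul_eq_zero.1 hu0 with e | e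
        · exact absurd e hB
        · exact e
      obtain ⟨v, hv'⟩ := (ZMod.intCast_zmod_eq_zero_iff_dvd _ _).1 hv
      obtain ⟨u, hu'⟩ := (ZMod.intCast_zmod_eq_zero_iff_dvd _ _).1 hu
      have hpos : (0 : ℤ) < (nm π : ℕ) := by exact_mod_cast hp.pos
      refine ⟨⟨u, v⟩, ?_⟩
      ext
      · rw [QuadraticAlgebra.re_mul]
        refine mul_left_cancel₀ hpos.ne' ?_
        simp only
        linear_combination z.re * hn + π.re * hu' - π.im * hv'
      · rw [QuadraticAlgebra.im_mul]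
        refine mul_left_cancel₀ hpos.ne' ?_
        simp only
        linear_combination z.im * hn + π.im * hu' + (π.re - π.im) * hv'
    · rintro ⟨y, rfl⟩
      rw [← evH_apply (rho π) hρ, map_mul, evH_apply]
      have : ev (rho π) π = 0 := by
        unfold ev
        linear_combination hρB
      rw [this, zero_mul]
  · intro h1
    rw [h1] at hρ
    have h33 : ((3 : ℕ) : ZMod (nm π)) = 0 := by
      push_cast
      linear_combination hρ
    rw [ZMod.natCast_eq_zero_iff] at h33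
    have := Nat.le_of_dvd (by norm_num) h33
    omega

end IRho

theorem pr_Rho : StRho := fun π h => IRho.main π h

end Pool.Agent.Work.MP_59f3ad_nt.Q3
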