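import Mathlib
import Pool.Agent.Work.MP_59f3ad_nt.Q3.StmtsC

/-!
# Block Q3, item Rtt: inertia and cube roots of units
-/

set_option autoImplicit false

open NumberField IsDedekindDomain

namespace Pool.Agent.Work.MP_59f3ad_nt.Q3

universe u

namespace IRtt

theorem coe_alg (L : Type u) [Field L] [NumberField L] (d : 𝓞 L) :
    ((algebraMap (𝓞 L) (𝓞 (AlgebraicClosure L)) d : 𝓞 (AlgebraicClosure L)) :
      AlgebraicClosure L) = algebraMap L (AlgebraicClosure L) (d : L) := rfl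

theorem c_mul {K : Type u} [Field K] (x y : 𝓞 K) : ((x * y : 𝓞 K) : K) = (x : K) * (y : K) :=
  map_mul (algebraMap (𝓞 K) K) x y

theorem c_pow {K : Type u} [Field K] (x : 𝓞 K) (n : ℕ) : ((x ^ n : 𝓞 K) : K) = (x : K) ^ n :=
  map_pow (algebraMap (𝓞 K) K) x n

theorem c_sub {K : Type u} [Field K] (x y : 𝓞 K) : ((x - y : 𝓞 K) : K) = (x : K) - (y : K) :=
  map_sub (algebraMap (𝓞 K) K) x y

theorem c_add {K : Type u} [Field K] (x y : 𝓞 K) : ((x + y : 𝓞 K) : K) = (x : K) + (y : K) :=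
  map_add (algebraMap (𝓞 K) K) x y

theorem c_neg {K : Type u} [Field K] (x : 𝓞 K) : ((-x : 𝓞 K) : K) = -(x : K) :=
  map_neg (algebraMap (𝓞 K) K) x

theorem c_one {K : Type u} [Field K] : ((1 : 𝓞 K) : K) = 1 := map_one (algebraMap (𝓞 K) K)

/-- the embedding of `L` in its algebraic closure -/
noncomputable abbrev em (L : Type u) [Field L] : L →+* AlgebraicClosure L :=
  algebraMap L (AlgebraicClosure L)

theorem int_map {K K' : Type u} [Field K] [Field K'] (f : K ≃+* K') (y : 𝓞 K) :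
    ∃ y' : 𝓞 K', (y' : K') = f (y : K) :=
  ⟨⟨f (y : K), map_isIntegral_int f.toRingHom y.isIntegral_coe⟩, rfl⟩

end IRtt

theorem pr_Rtt : StRtt := by
  intro L _ _ σ v τ Q hQ h3 w hw u b j hu hb hτ
  have hQp := hQ.pr
  have hvp := v.isPrime
  obtain ⟨n, ⟨d, hd⟩, hnd⟩ := v.exists_primeCompl_mul_eq_of_integer (K := L) b hb.le
  have hd' : d ∉ v.asIdeal := hd
  have hn' : n ∉ v.asIdeal := by
    rw [← v.valuation_eq_one_iff_notMem (K := L), ← hnd, map_mul, hb, one_mul,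
      v.valuation_eq_one_iff_notMem]
    exact hd'
  have hnd' : b * (d : L) = (n : L) := hnd
  -- membership in `Q` of elements of `𝓞 L`
  have hco : ∀ y : 𝓞 L, algebraMap (𝓞 L) (𝓞 (AlgebraicClosure L)) y ∈ Q ↔ y ∈ v.asIdeal := by
    intro y
    rw [← hQ.co]
    rfl
  -- `u₁ = d u`
  have hu1 : (IRtt.em L (d : L) * u) ^ 3 = IRtt.em L ((d ^ 2 * n : 𝓞 L) : L) := by
    rw [mul_pow, hu, ← map_pow, ← map_mul]
    congr 1
    rw [IRtt.c_mul, IRtt.c_pow, ← hnd']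
    ring
  have hint : IsIntegral ℤ (IRtt.em L (d : L) * u) := by
    refine IsIntegral.of_pow (n := 3) (by norm_num) ?_
    rw [hu1]
    exact map_isIntegral_int (algebraMap L (AlgebraicClosure L)) (d ^ 2 * n : 𝓞 L).isIntegral_coe
  set U : 𝓞 (AlgebraicClosure L) := ⟨IRtt.em L (d : L) * u, hint⟩ with hU
  have hUc : (U : AlgebraicClosure L) = IRtt.em L (d : L) * u := rfl
  have hUQ : U ∉ Q := by
    intro h
    have h1 : U ^ 3 = algebraMap (𝓞 L) (𝓞 (AlgebraicClosure L)) (d ^ 2 * n) := by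
      apply RingOfIntegers.ext
      rw [IRtt.c_pow, hUc, hu1]
      rfl
    have h2 : algebraMap (𝓞 L) (𝓞 (AlgebraicClosure L)) (d ^ 2 * n) ∈ Q := by
      rw [← h1]
      exact Q.pow_mem_of_mem h 3 (by norm_num)
    rw [hco] at h2
    rcases hvp.mem_or_mem h2 with h4 | h4
    · exact hd' (hvp.mem_of_pow_mem _ h4)
    · exact hn' h4
  obtain ⟨T, hT⟩ := IRtt.int_map τ U
  have hTU : T - U ∈ Q := hQ.inr U T hT
  obtain ⟨d', hd1⟩ := IRtt.int_map σ d
  have hDD : algebraMap (𝓞 L) (𝓞 (AlgebraicClosure L)) d' - algebraMap (𝓞 L) (𝓞 (AlgebraicClosure L)) d ∈ Q := by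
    refine hQ.inr _ _ ?_
    rw [IRtt.coe_alg, IRtt.coe_alg, hd1, hQ.ext]
  -- `w` is integral
  have hwi : IsIntegral ℤ w := by
    refine IsIntegral.of_pow (n := 3) (by norm_num) ?_
    have : w ^ 3 = 1 := by linear_combination (w - 1) * hw
    rw [this]
    exact isIntegral_one
  set W : 𝓞 L := ⟨w, hwi⟩ with hW
  have hWc : (W : L) = w := rfl
  have key : algebraMap (𝓞 L) (𝓞 (AlgebraicClosure L)) d * T =
      algebraMap (𝓞 L) (𝓞 (AlgebraicClosure L)) d' * algebraMap (𝓞 L) (𝓞 (AlgebraicClosure L)) (W ^ j) * U := by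
    apply RingOfIntegers.ext
    rw [IRtt.c_mul, IRtt.c_mul, IRtt.c_mul, hT, hUc, IRtt.coe_alg, IRtt.coe_alg, IRtt.coe_alg,
      hd1, map_mul, hQ.ext, hτ, IRtt.c_pow, hWc]
    ring
  have h5 : algebraMap (𝓞 L) (𝓞 (AlgebraicClosure L)) d * U * (algebraMap (𝓞 L) (𝓞 (AlgebraicClosure L)) (W ^ j) - 1) ∈ Q := by
    have h6 : algebraMap (𝓞 L) (𝓞 (AlgebraicClosure L)) d * U * (algebraMap (𝓞 L) (𝓞 (AlgebraicClosure L)) (W ^ j) - 1) =
        algebraMap (𝓞 L) (𝓞 (AlgebraicClosure L)) d * (T - U) -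
        (algebraMap (𝓞 L) (𝓞 (AlgebraicClosure L)) d' - algebraMap (𝓞 L) (𝓞 (AlgebraicClosure L)) d) *
          (algebraMap (𝓞 L) (𝓞 (AlgebraicClosure L)) (W ^ j) * U) := by
      linear_combination -key
    rw [h6]
    exact Q.sub_mem (Q.mul_mem_left _ hTU) (Q.mul_mem_right _ hDD)
  have h7 : W ^ j - 1 ∈ v.asIdeal := by
    rw [← hco, map_sub, map_one]
    rcases hQp.mem_or_mem h5 with h8 | h8
    · rcases hQp.mem_or_mem h8 with h9 | h9
      · exact absurd ((hco d).1 h9) hd'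
      · exact absurd h9 hUQ
    · exact h8
  by_contra hne
  have hz3 : (w ^ j) ^ 3 = 1 := by
    have : w ^ 3 = 1 := by linear_combination (w - 1) * hw
    rw [← pow_mul, mul_comm, pow_mul, this, one_pow]
  have hz : (w ^ j) ^ 2 + w ^ j + 1 = 0 := by
    have h8 : (w ^ j - 1) * ((w ^ j) ^ 2 + w ^ j + 1) = 0 := by linear_combination hz3
    exact (mul_eq_zero.1 h8).resolve_left (sub_ne_zero.2 hne)
  apply h3
  have h9 : (3 : 𝓞 L) = -((W ^ j - 1) * (W ^ j + 2)) := by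
    apply RingOfIntegers.ext
    have e1 : ((3 : 𝓞 L) : L) = 3 := map_ofNat (algebraMap (𝓞 L) L) 3
    have e0 : ((2 : 𝓞 L) : L) = 2 := map_ofNat (algebraMap (𝓞 L) L) 2
    have e2 : ((-((W ^ j - 1) * (W ^ j + 2)) : 𝓞 L) : L) = -((w ^ j - 1) * (w ^ j + 2)) := by
      rw [IRtt.c_neg, IRtt.c_mul, IRtt.c_sub, IRtt.c_add, IRtt.c_pow, IRtt.c_one, hWc, e0]
    rw [e1, e2]
    linear_combination hz
  rw [h9]
  exact v.asIdeal.neg_mem (v.asIdeal.mul_mem_right _ h7)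

end Pool.Agent.Work.MP_59f3ad_nt.Q3
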