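import Mathlib
import Pool.Agent.Work.MP_59f3ad_nt.Q3.StmtsC

/-!
Item Slo of the block Q3: local triviality is stable.
-/

open NumberField IsDedekindDomain

namespace Pool.Agent.Work.MP_59f3ad_nt.Q3

universe u

namespace ISlo

open MonoidWithZeroHom MonoidWithZeroHom.ValueGroup₀

section

variable {L : Type u} [Field L] [NumberField L] (v : HeightOneSpectrum (𝓞 L)) (σ : L ≃+* L)

/-- `σ` on the valued field -/
noncomputable def fv : WithVal (v.valuation L) →+* WithVal (v.valuation L) :=
  WithVal.map (v.valuation L) (v.valuation L) (σ : L →+* L)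

theorem fv_cont (h : ∀ y : L, v.valuation L (σ y) = v.valuation L y) : Continuous (fv v σ) := by
  refine (uniformContinuous_of_continuousAt_zero (fv v σ) ?_).continuous
  simp_rw [ContinuousAt, map_zero, (Valued.hasBasis_nhds_zero _ _).tendsto_iff
    (Valued.hasBasis_nhds_zero _ _), true_and, forall_const]
  intro γ
  refine ⟨γ, fun x hx => ?_⟩
  have e : Valued.v.restrict (fv v σ x) = Valued.v.restrict x := by
    apply embedding_strictMono.injective
    rw [Valuation.embedding_restrict, Valuation.embedding_restrict]
    exact h x.ofVal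
  rw [Set.mem_ofPred_eq] at hx ⊢
  rw [e]
  exact hx

theorem fv_comp (σ' : L ≃+* L) (h : ∀ y, σ' (σ y) = y) : (fv v σ').comp (fv v σ) = RingHom.id _ := by
  ext x
  change WithVal.toVal _ (σ' (σ x.ofVal)) = x
  rw [h]

/-- the extension of `σ` to the completion -/
noncomputable def cv (h : ∀ y : L, v.valuation L (σ y) = v.valuation L y)
    (h' : ∀ y : L, v.valuation L (σ.symm y) = v.valuation L y) :
    (v.valuation L).Completion ≃+* (v.valuation L).Completion :=
  RingEquiv.ofRingHom (UniformSpace.Completion.mapRingHom (fv v σ) (fv_cont v σ h))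
    (UniformSpace.Completion.mapRingHom (fv v σ.symm) (fv_cont v σ.symm h'))
    (by
      rw [UniformSpace.Completion.mapRingHom_comp]
      simp only [fv_comp v σ.symm σ (fun y => σ.apply_symm_apply y)]
      exact UniformSpace.Completion.mapRingHom_id)
    (by
      rw [UniformSpace.Completion.mapRingHom_comp]
      simp only [fv_comp v σ σ.symm (fun y => σ.symm_apply_apply y)]
      exact UniformSpace.Completion.mapRingHom_id)

/-- the extension of `σ` to the completion -/
noncomputable def sv (h : ∀ y : L, v.valuation L (σ y) = v.valuation L y)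
    (h' : ∀ y : L, v.valuation L (σ.symm y) = v.valuation L y) :
    v.adicCompletion L ≃+* v.adicCompletion L :=
  ((HeightOneSpectrum.adicCompletion.equiv L v).trans (cv v σ h h')).trans
    (HeightOneSpectrum.adicCompletion.equiv L v).symm

theorem sv_algebraMap (h : ∀ y : L, v.valuation L (σ y) = v.valuation L y)
    (h' : ∀ y : L, v.valuation L (σ.symm y) = v.valuation L y) (y : L) :
    sv v σ h h' (algebraMap L (v.adicCompletion L) y) =
      algebraMap L (v.adicCompletion L) (σ y) := by
  apply HeightOneSpectrum.adicCompletion.ext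
  change UniformSpace.Completion.mapRingHom (fv v σ) (fv_cont v σ h)
    (((WithVal.toVal (v.valuation L) y : WithVal (v.valuation L))) : (v.valuation L).Completion) = _
  rw [UniformSpace.Completion.mapRingHom_coe]
  rfl

end

theorem val_eq (hV : StVsg.{u}) {L : Type u} [Field L] [NumberField L] (σ : L ≃+* L)
    (v : HeightOneSpectrum (𝓞 L))
    (h : ∀ y y' : 𝓞 L, (y' : L) = σ (y : L) → (y ∈ v.asIdeal ↔ y' ∈ v.asIdeal)) (y : L) :
    v.valuation L (σ y) = v.valuation L y := by
  obtain ⟨v', hv', -⟩ := hV L σ v
  have e : v' = v := by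
    apply HeightOneSpectrum.ext
    ext a
    rw [← v'.valuation_lt_one_iff_mem (K := L), ← hv',
      h a (RingOfIntegers.mapRingEquiv σ a) (RingOfIntegers.mapRingEquiv_apply σ a),
      ← v.valuation_lt_one_iff_mem (K := L)]
    rfl
  rw [hv' y, e]

theorem twist_cj {L : Type u} [Field L] {σ : L ≃+* L}
    {s : AlgebraicClosure L ≃+* AlgebraicClosure L} (hs : Ext σ s) (r : ℤ) (h : GK L) :
    twist L 3 r (cj hs h) = twist L 3 r h := by
  have e : cyc L 3 (cj hs h) = cyc L 3 h := by
    unfold cyc
    rw [MonoidHom.comp_apply, MonoidHom.comp_apply]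
    have e1 : MulSemiringAction.toRingAut (GK L) (AlgebraicClosure L) (cj hs h) =
        s⁻¹ * MulSemiringAction.toRingAut (GK L) (AlgebraicClosure L) h * s := by
      ext y
      rfl
    rw [e1, map_mul, map_mul, map_inv]
    rw [mul_comm, ← mul_assoc, mul_inv_cancel, one_mul]
  unfold twist
  rw [e]

end ISlo

theorem pr_Slo (hV : StVsg.{u}) : StSlo.{u} := by
  intro L _ _ σ s hs v hv r φ hφ ι
  have h1 : ∀ y : L, v.valuation L (σ y) = v.valuation L y := ISlo.val_eq hV σ v hv
  have h2 : ∀ y : L, v.valuation L (σ.symm y) = v.valuation L y := by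
    intro y
    have := h1 (σ.symm y)
    rw [σ.apply_symm_apply] at this
    exact this.symm
  set sv := ISlo.sv v σ h1 h2 with hsv
  set θ : AlgebraicClosure (v.adicCompletion L) ≃+* AlgebraicClosure (v.adicCompletion L) :=
    IsAlgClosure.equivOfEquiv (AlgebraicClosure (v.adicCompletion L))
      (AlgebraicClosure (v.adicCompletion L)) sv with hθ
  have hθa : ∀ a : v.adicCompletion L,
      θ (algebraMap (v.adicCompletion L) (AlgebraicClosure (v.adicCompletion L)) a) =
        algebraMap (v.adicCompletion L) (AlgebraicClosure (v.adicCompletion L)) (sv a) :=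
    fun a => IsAlgClosure.equivOfEquiv_algebraMap _ _ sv a
  have hθL : ∀ y : L, θ (algebraMap L (AlgebraicClosure (v.adicCompletion L)) y) =
      algebraMap L (AlgebraicClosure (v.adicCompletion L)) (σ y) := by
    intro y
    rw [IsScalarTower.algebraMap_apply L (v.adicCompletion L)
      (AlgebraicClosure (v.adicCompletion L)) y, hθa,
      IsScalarTower.algebraMap_apply L (v.adicCompletion L)
      (AlgebraicClosure (v.adicCompletion L)) (σ y)]
    rw [hsv, ISlo.sv_algebraMap]
  let ι' : AlgebraicClosure L →ₐ[L] AlgebraicClosure (v.adicCompletion L) :=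
    { ((θ.symm : AlgebraicClosure (v.adicCompletion L) →+* AlgebraicClosure (v.adicCompletion L)).comp
        ((ι : AlgebraicClosure L →+* AlgebraicClosure (v.adicCompletion L)).comp
          (s : AlgebraicClosure L →+* AlgebraicClosure L))) with
      commutes' := by
        intro y
        change θ.symm (ι (s (algebraMap L (AlgebraicClosure L) y))) = _
        rw [hs y, ι.commutes, ← hθL, RingEquiv.symm_apply_apply] }
  have hι' : ∀ x, ι' x = θ.symm (ι (s x)) := fun _ => rfl
  obtain ⟨c, hc⟩ := hφ ι'
  refine ⟨c, fun g h hgh => ?_⟩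
  let g' : GK (v.adicCompletion L) := AlgEquiv.ofRingEquiv
    (f := (θ.trans (g : AlgebraicClosure (v.adicCompletion L) ≃+*
      AlgebraicClosure (v.adicCompletion L))).trans θ.symm)
    (by
      intro a
      simp only [RingEquiv.trans_apply]
      rw [hθa a]
      erw [g.commutes]
      rw [← hθa a, RingEquiv.symm_apply_apply])
  have hg' : ∀ x, g' x = θ.symm (g (θ x)) := fun _ => rfl
  have key := hc g' (cj hs h) (by
    intro x
    rw [hg', hι', hι', cj_apply, RingEquiv.apply_symm_apply, RingEquiv.apply_symm_apply, hgh])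
  change φ (cj hs h) = _
  rw [key, ISlo.twist_cj]

end Pool.Agent.Work.MP_59f3ad_nt.Q3
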