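import Mathlib
import Pool.Agent.Work.MP_59f3ad_nt.Q3.StmtsC

/-!
Item Smu of the block Q3 (helper22): an extension `s` of an automorphism `σ` of `L` to the algebraic
closure maps the maximal extension unramified outside `S` to itself when `S` is stable under `σ`.
-/

open NumberField IsDedekindDomain

namespace Pool.Agent.Work.MP_59f3ad_nt.Q3

universe u

namespace ISmu

/-- Unramified primes are transported by a pair of compatible ring isomorphisms. -/
theorem unram_transport {R R' A A' : Type*} [CommRing R] [CommRing R'] [CommRing A] [CommRing A']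
    [Algebra R A] [Algebra R' A'] (e0 : R →+* R') (e : A ≃+* A')
    (h : ∀ r, e (algebraMap R A r) = algebraMap R' A' (e0 r)) (P' : Ideal A') [P'.IsPrime]
    (P : Ideal A) [P.IsPrime] (hP : P = P'.comap (e : A →+* A'))
    (hun : Algebra.IsUnramifiedAt R P) : Algebra.IsUnramifiedAt R' P' := by
  letI : Algebra R R' := e0.toAlgebra
  letI : Algebra R A' := ((algebraMap R' A').comp e0).toAlgebra
  have hst : IsScalarTower R R' A' := IsScalarTower.of_algebraMap_eq' rfl
  let eA : A ≃ₐ[R] A' := AlgEquiv.ofRingEquiv (f := e) h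
  have hP2 : P = P'.comap (eA : A →ₐ[R] A') := hP
  let f : Localization.AtPrime P →ₐ[R] Localization.AtPrime P' :=
    Localization.localAlgHom P P' (eA : A →ₐ[R] A') hP2
  have hf : ∀ a : A, f (algebraMap A _ a) = algebraMap A' (Localization.AtPrime P') (e a) := by
    intro a
    simp [f, eA]
  have hsurj : Function.Surjective f := by
    intro x
    obtain ⟨a', s', rfl⟩ := IsLocalization.exists_mk'_eq P'.primeCompl x
    have hs : e.symm (s' : A') ∈ P.primeCompl := by
      intro hmem
      apply s'.2
      rw [hP] at hmem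
      have h2 : e (e.symm (s' : A')) ∈ P' := hmem
      rw [RingEquiv.apply_symm_apply] at h2
      exact h2
    refine ⟨IsLocalization.mk' (Localization.AtPrime P) (e.symm a')
      (⟨e.symm (s' : A'), hs⟩ : P.primeCompl), ?_⟩
    rw [eq_comm, IsLocalization.mk'_eq_iff_eq_mul]
    have h3 : algebraMap A' (Localization.AtPrime P') (s' : A') =
        f (algebraMap A _ (e.symm (s' : A'))) := by
      rw [hf, RingEquiv.apply_symm_apply]
    rw [h3, ← map_mul, IsLocalization.mk'_spec, hf, RingEquiv.apply_symm_apply]
  have h1 : Algebra.IsUnramifiedAt R P' := Algebra.FormallyUnramified.of_surjective f hsurj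
  exact Algebra.IsUnramifiedAt.of_restrictScalars R P'

variable {L : Type u} [Field L] [NumberField L]

/-- The image of an intermediate field by an extension of an automorphism of the base field. -/
noncomputable def img (σ : L ≃+* L) (s : AlgebraicClosure L ≃+* AlgebraicClosure L) (hs : Ext σ s)
    (F : IntermediateField L (AlgebraicClosure L)) :
    IntermediateField L (AlgebraicClosure L) where
  toSubalgebra :=
    { (F.toSubfield.map (s : AlgebraicClosure L →+* AlgebraicClosure L)).toSubring with
      algebraMap_mem' := fun y => by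
        refine ⟨algebraMap L (AlgebraicClosure L) (σ.symm y), F.algebraMap_mem _, ?_⟩
        have h := hs (σ.symm y)
        rw [RingEquiv.apply_symm_apply] at h
        exact h }
  inv_mem' := fun x hx =>
    (F.toSubfield.map (s : AlgebraicClosure L →+* AlgebraicClosure L)).inv_mem hx

theorem mem_img {σ : L ≃+* L} {s : AlgebraicClosure L ≃+* AlgebraicClosure L} (hs : Ext σ s)
    (F : IntermediateField L (AlgebraicClosure L)) (x : AlgebraicClosure L) :
    x ∈ img σ s hs F ↔ ∃ y ∈ F, s y = x := Iff.rfl

/-- The isomorphism of an intermediate field with its image. -/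
noncomputable def eq {σ : L ≃+* L} {s : AlgebraicClosure L ≃+* AlgebraicClosure L} (hs : Ext σ s)
    (F : IntermediateField L (AlgebraicClosure L)) : F ≃+* img σ s hs F :=
  RingEquiv.ofBijective
    ({ toFun := fun x => ⟨s x, (mem_img hs F _).mpr ⟨x, x.2, rfl⟩⟩
       map_one' := by ext; simp
       map_mul' := fun x y => by ext; simp
       map_zero' := by ext; simp
       map_add' := fun x y => by ext; simp } : F →+* img σ s hs F)
    ⟨RingHom.injective _, fun x => by
      obtain ⟨y, hy, hyx⟩ := (mem_img hs F _).mp x.2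
      exact ⟨⟨y, hy⟩, Subtype.ext hyx⟩⟩

theorem eq_coe {σ : L ≃+* L} {s : AlgebraicClosure L ≃+* AlgebraicClosure L} (hs : Ext σ s)
    (F : IntermediateField L (AlgebraicClosure L)) (x : F) :
    ((eq hs F x : img σ s hs F) : AlgebraicClosure L) = s x := rfl

theorem finite_img {σ : L ≃+* L} {s : AlgebraicClosure L ≃+* AlgebraicClosure L} (hs : Ext σ s)
    (F : IntermediateField L (AlgebraicClosure L)) [FiniteDimensional L F] :
    FiniteDimensional L (img σ s hs F) := by
  let f : F →ₛₗ[(σ : L →+* L)] img σ s hs F :=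
    { toFun := eq hs F
      map_add' := fun x y => map_add _ x y
      map_smul' := fun c x => by
        apply Subtype.ext
        rw [eq_coe]
        change s ((c • x : F) : AlgebraicClosure L) =
          (((σ : L →+* L) c • eq hs F x : img σ s hs F) : AlgebraicClosure L)
        rw [IntermediateField.coe_smul, IntermediateField.coe_smul, eq_coe, Algebra.smul_def,
          Algebra.smul_def, map_mul, hs c]
        rfl }
  have hs1 : RingHomSurjective (σ : L →+* L) := ⟨σ.surjective⟩
  exact Module.Finite.of_surjective f (eq hs F).surjective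

/-- The preimage of a prime of `L` by an automorphism. -/
noncomputable def pre (σ : L ≃+* L) (w : HeightOneSpectrum (𝓞 L)) : HeightOneSpectrum (𝓞 L) where
  asIdeal := w.asIdeal.comap (RingOfIntegers.mapRingEquiv σ : 𝓞 L →+* 𝓞 L)
  isPrime := by
    have := w.isPrime
    infer_instance
  ne_bot := by
    intro h
    apply w.ne_bot
    rw [eq_bot_iff]
    intro x hx
    have h1 : (RingOfIntegers.mapRingEquiv σ).symm x ∈
        w.asIdeal.comap (RingOfIntegers.mapRingEquiv σ : 𝓞 L →+* 𝓞 L) := by
      rw [Ideal.mem_comap]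
      change (RingOfIntegers.mapRingEquiv σ) ((RingOfIntegers.mapRingEquiv σ).symm x) ∈ w.asIdeal
      rw [RingEquiv.apply_symm_apply]
      exact hx
    rw [h, Ideal.mem_bot] at h1
    rw [Ideal.mem_bot]
    exact (map_eq_zero_iff _ (RingOfIntegers.mapRingEquiv σ).symm.injective).mp h1

/-- The stability of the set `S` used in the statement. -/
def Stab (σ : L ≃+* L) (S : Set (HeightOneSpectrum (𝓞 L))) : Prop :=
  ∀ v v' : HeightOneSpectrum (𝓞 L), (∀ y y' : 𝓞 L, (y' : L) = σ (y : L) →
    (y ∈ v.asIdeal ↔ y' ∈ v'.asIdeal)) → (v ∈ S ↔ v' ∈ S)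

theorem unram_img {σ : L ≃+* L} {s : AlgebraicClosure L ≃+* AlgebraicClosure L} (hs : Ext σ s)
    {S : Set (HeightOneSpectrum (𝓞 L))} (hS : Stab σ S)
    (F : IntermediateField L (AlgebraicClosure L)) (hF : UnramOutside L S F) :
    UnramOutside L S (img σ s hs F) := by
  intro w hw P' hP' hlies
  let e0 : 𝓞 L ≃+* 𝓞 L := RingOfIntegers.mapRingEquiv σ
  let e : 𝓞 F ≃+* 𝓞 (img σ s hs F) := RingOfIntegers.mapRingEquiv (eq hs F)
  have hcomm : ∀ r : 𝓞 L, e (algebraMap (𝓞 L) (𝓞 F) r) =
      algebraMap (𝓞 L) (𝓞 (img σ s hs F)) ((e0 : 𝓞 L →+* 𝓞 L) r) := by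
    intro r
    apply RingOfIntegers.ext
    apply Subtype.ext
    exact hs (r : L)
  let P : Ideal (𝓞 F) := P'.comap (e : 𝓞 F →+* 𝓞 (img σ s hs F))
  have hPprime : P.IsPrime := Ideal.comap_isPrime _ _
  have hpre : pre σ w ∉ S := by
    intro hmem
    apply hw
    refine (hS (pre σ w) w ?_).mp hmem
    intro y y' hyy'
    have h1 : y' = e0 y := by
      apply RingOfIntegers.ext
      exact hyy'
    rw [h1]
    exact Iff.rfl
  have hlies2 : P.LiesOver (pre σ w).asIdeal := by
    constructor
    ext a
    rw [Ideal.under_def, Ideal.mem_comap, Ideal.mem_comap]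
    change e0 a ∈ w.asIdeal ↔ e (algebraMap (𝓞 L) (𝓞 F) a) ∈ P'
    rw [hcomm a, hlies.over, Ideal.under_def, Ideal.mem_comap]
    exact Iff.rfl
  exact unram_transport (e0 : 𝓞 L →+* 𝓞 L) e hcomm P' P rfl (hF (pre σ w) hpre P hPprime hlies2)

/-- The preimage of an intermediate field. -/
noncomputable def pim (σ : L ≃+* L) (s : AlgebraicClosure L ≃+* AlgebraicClosure L) (hs : Ext σ s)
    (F : IntermediateField L (AlgebraicClosure L)) :
    IntermediateField L (AlgebraicClosure L) where
  toSubalgebra :=
    { (F.toSubfield.comap (s : AlgebraicClosure L →+* AlgebraicClosure L)).toSubring with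
      algebraMap_mem' := fun y => by
        change s (algebraMap L (AlgebraicClosure L) y) ∈ F
        rw [hs y]
        exact F.algebraMap_mem _ }
  inv_mem' := fun x hx =>
    (F.toSubfield.comap (s : AlgebraicClosure L →+* AlgebraicClosure L)).inv_mem hx

theorem mem_pim {σ : L ≃+* L} {s : AlgebraicClosure L ≃+* AlgebraicClosure L} (hs : Ext σ s)
    (F : IntermediateField L (AlgebraicClosure L)) (x : AlgebraicClosure L) :
    x ∈ pim σ s hs F ↔ s x ∈ F := Iff.rfl

theorem maps {σ : L ≃+* L} {s : AlgebraicClosure L ≃+* AlgebraicClosure L} (hs : Ext σ s)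
    {S : Set (HeightOneSpectrum (𝓞 L))} (hS : Stab σ S) (y : AlgebraicClosure L)
    (hy : y ∈ maxUnram L S) : s y ∈ maxUnram L S := by
  have hle : maxUnram L S ≤ pim σ s hs (maxUnram L S) := by
    apply iSup_le
    rintro ⟨F, hF1, hF2⟩
    intro x hx
    rw [mem_pim]
    have h1 : FiniteDimensional L (img σ s hs F) := finite_img hs F
    have h2 : UnramOutside L S (img σ s hs F) := unram_img hs hS F hF2
    have h3 : img σ s hs F ≤ maxUnram L S :=
      le_iSup (fun F : {F : IntermediateField L (AlgebraicClosure L) //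
        FiniteDimensional L F ∧ UnramOutside L S F} => F.1) ⟨img σ s hs F, h1, h2⟩
    exact h3 ((mem_img hs F _).mpr ⟨x, hx, rfl⟩)
  exact hle hy

end ISmu

open ISmu in
theorem pr_Smu : StSmu := by
  intro L _ _ σ s hs S hS y
  constructor
  · exact maps hs hS y
  · intro hy
    have hs' : Ext σ.symm s.symm := by
      intro z
      rw [RingEquiv.symm_apply_eq, hs, RingEquiv.apply_symm_apply]
    have hS' : Stab σ.symm S := by
      intro v v' h
      refine (hS v' v ?_).symm
      intro z z' hz
      refine (h z' z ?_).symm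
      rw [hz, RingEquiv.symm_apply_apply]
    have h := maps hs' hS' (s y) hy
    rwa [RingEquiv.symm_apply_apply] at h

end Pool.Agent.Work.MP_59f3ad_nt.Q3
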