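import Mathlib
import Pool.Agent.Work.MP_59f3ad_nt.Q3.StmtsR

/-!
Item STR of block Q3: the conjugate of a primary prime.
-/

open NumberField IsDedekindDomain

namespace Pool.Agent.Work.MP_59f3ad_nt.Q3

namespace IStr

theorem star_re (z : E) : (star z).re = z.re - z.im := by
  rw [QuadraticAlgebra.re_star]
  ring

theorem star_im (z : E) : (star z).im = - z.im := by
  rw [QuadraticAlgebra.im_star]

theorem nm_star (z : E) : nm (star z) = nm z := by
  unfold nm
  rw [star_re, star_im]
  congr 1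
  ring

theorem nm_cast (z : E) : ((nm z : ℕ) : ℤ) = z.re ^ 2 - z.re * z.im + z.im ^ 2 := by
  unfold nm
  apply Int.natAbs_of_nonneg
  nlinarith [sq_nonneg (2 * z.re - z.im), sq_nonneg z.im]

/-- the index as a function of the modulus -/
noncomputable def rA (p : ℕ) (z : E) : ZMod p := -(z.re : ZMod p) * (z.im : ZMod p)⁻¹

open Classical in
noncomputable def iA (p : ℕ) (r u : ZMod p) : ZMod 3 :=
  if u ^ ((p - 1) / 3) = 1 then 0
  else if u ^ ((p - 1) / 3) = r then 1
  else if u ^ ((p - 1) / 3) = r ^ 2 then 2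
  else 0

theorem rho_eq (z : E) : rho z = rA (nm z) z := rfl

theorem ind_eq (z y : E) : ind z y = iA (nm z) (rA (nm z) z) (ev (rA (nm z) z) y) := rfl

theorem ev_nat {R : Type*} [CommRing R] (w : R) (n : ℕ) : ev w ((n : ℕ) : E) = (n : R) := by
  unfold ev
  rw [QuadraticAlgebra.re_natCast, QuadraticAlgebra.im_natCast]
  simp

theorem rA_star (z : E) (hz : PP z) (h : (rho z) ^ 2 + rho z + 1 = 0) :
    rA (nm z) (star z) = rho z ^ 2 := by
  haveI : Fact (nm z).Prime := ⟨hz.pr⟩
  have hb : (z.im : ZMod (nm z)) ≠ 0 := by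
    intro hb
    have h1 : rho z = 0 := by
      unfold rho
      rw [hb]
      simp
    rw [h1] at h
    simp at h
  have h2 : rho z ^ 2 = - rho z - 1 := by linear_combination h
  rw [h2]
  unfold rA rho
  rw [star_re, star_im]
  push_cast
  field_simp

end IStr

open IStr in
theorem pr_Str (h1 : StRho) (h2 : StInd) : StStr := by
  intro π hπ
  obtain ⟨hr, hev, -, -, hr1⟩ := h1 π hπ
  obtain ⟨hi, -, -, -, -, -⟩ := h2 π hπ
  haveI : Fact (nm π).Prime := ⟨hπ.pr⟩
  have hnm := nm_star π
  refine ⟨⟨?_, ?_, ?_⟩, hnm, ?_, ?_⟩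
  · rw [hnm]
    exact hπ.pr
  · rw [star_re]
    have := dvd_sub hπ.re hπ.im
    have e : π.re - π.im - 1 = π.re - 1 - π.im := by ring
    rw [e]
    exact this
  · rw [star_im]
    exact (dvd_neg).2 hπ.im
  · apply QuadraticAlgebra.ext
    · rw [QuadraticAlgebra.re_mul, QuadraticAlgebra.re_natCast, star_re, star_im]
      rw [nm_cast]
      ring
    · rw [QuadraticAlgebra.im_mul, QuadraticAlgebra.im_natCast, star_re, star_im]
      ring
  · intro n hn
    have hu0 : ((n : ℕ) : ZMod (nm π)) ≠ 0 := by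
      rw [Ne, ZMod.natCast_eq_zero_iff]
      exact hn
    have hnd : ¬ π ∣ ((n : ℕ) : E) := by
      rw [← hev, ev_nat]
      exact hu0
    have h3 := hi _ hnd
    rw [ev_nat] at h3
    have hρ0 : rho π ≠ 0 := by
      intro h
      rw [h] at hr
      simp at hr
    have hρ3 : rho π ^ 3 = 1 := by
      linear_combination (rho π - 1) * hr
    have hρ2 : rho π ^ 2 ≠ 1 := by
      intro h
      apply hr1
      have : rho π ^ 3 = rho π ^ 2 * rho π := by ring
      rw [h, hρ3, one_mul] at this
      exact this.symm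
    have hρ12 : rho π ≠ rho π ^ 2 := by
      intro h
      apply hr1
      have h5 : rho π * rho π = rho π * 1 := by
        rw [mul_one, ← sq]
        exact h.symm
      exact mul_left_cancel₀ hρ0 h5
    have hρ4 : (rho π ^ 2) ^ 2 = rho π := by
      have : (rho π ^ 2) ^ 2 = rho π ^ 3 * rho π := by ring
      rw [this, hρ3, one_mul]
    have key : ind (star π) ((n : ℕ) : E) = iA (nm π) (rho π ^ 2) ((n : ℕ) : ZMod (nm π)) := by
      rw [ind_eq, hnm, ev_nat, rA_star π hπ hr]
    rw [key]
    have hcase : ind π ((n : ℕ) : E) = 0 ∨ ind π ((n : ℕ) : E) = 1 ∨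
        ind π ((n : ℕ) : E) = 2 := by
      generalize ind π ((n : ℕ) : E) = j
      revert j
      decide
    unfold iA
    rcases hcase with h | h | h
    · rw [h] at h3 ⊢
      have h4 : ((n : ℕ) : ZMod (nm π)) ^ ((nm π - 1) / 3) = 1 := by
        rw [h3, ZMod.val_zero, pow_zero]
      rw [if_pos h4]
      decide
    · rw [h] at h3 ⊢
      have h4 : ((n : ℕ) : ZMod (nm π)) ^ ((nm π - 1) / 3) = rho π := by
        rw [h3]
        exact pow_one _
      rw [h4, if_neg hr1, if_neg hρ12, hρ4, if_pos rfl]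
      decide
    · rw [h] at h3 ⊢
      have h4 : ((n : ℕ) : ZMod (nm π)) ^ ((nm π - 1) / 3) = rho π ^ 2 := by
        rw [h3]
        rfl
      rw [h4, if_neg hρ2, if_pos rfl]
      decide

end Pool.Agent.Work.MP_59f3ad_nt.Q3
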