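import Mathlib
import Pool.Agent.Work.MP_59f3ad_nt.Q3.StmtsC
import Pool.Agent.Work.MP_59f3ad_nt.Bridge

set_option autoImplicit false

/-!
# MP_59f3ad_nt, block Q3, item Tor
-/

open NumberField IsDedekindDomain

namespace Pool.Agent.Work.MP_59f3ad_nt.Q3

universe u

theorem pr_Tor (h1 : StCyl.{u}) : StTor.{u} := by
  intro L _ _ w hw r hr φ hφ y hy
  obtain ⟨v, hv⟩ := exists_prime_above L 3
  have hv3 : v ∈ S3 L := by
    show (3 : 𝓞 L) ∈ v.asIdeal
    exact_mod_cast hv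
  have ι : AlgebraicClosure L →ₐ[L] AlgebraicClosure (v.adicCompletion L) := IsAlgClosed.lift
  obtain ⟨c, hc⟩ := hφ.2.1 v hv3 ι
  obtain ⟨g, h, hgh, hne⟩ := (h1 L w hw r).2 hr v hv3 ι
  have e1 := hc g h hgh
  have e2 := hy h
  rw [e1] at e2
  have e3 : (twist L 3 r h - 1) * (3 * c - y) = 0 := by linear_combination e2
  rcases mul_eq_zero.1 e3 with e4 | e4
  · exact absurd (sub_eq_zero.1 e4) hne
  · exact ⟨c, (sub_eq_zero.1 e4).symm⟩

end Pool.Agent.Work.MP_59f3ad_nt.Q3
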