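import Mathlib
import Pool.Agent.Work.MP_59f3ad_nt.Q3.StmtsC

/-!
MP_59f3ad_nt, block Q3, item TST (helper83): conjugation by an extension of `σ` acts on the
locally trivial cocycles.
-/

open NumberField IsDedekindDomain Topology

namespace Pool.Agent.Work.MP_59f3ad_nt.Q3

universe u

namespace ITst

variable {L : Type u} [Field L] {σ : L ≃+* L} {s : AlgebraicClosure L ≃+* AlgebraicClosure L}

theorem cj_mul (hs : Ext σ s) (g h : GK L) : cj hs (g * h) = cj hs g * cj hs h := by
  ext y
  rw [cj_apply, AlgEquiv.mul_apply, AlgEquiv.mul_apply, cj_apply, cj_apply,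
    RingEquiv.apply_symm_apply]

theorem cj_one (hs : Ext σ s) : cj hs (1 : GK L) = 1 := by
  ext y
  rw [cj_apply, AlgEquiv.one_apply, AlgEquiv.one_apply, RingEquiv.symm_apply_apply]

/-- the conjugation as a homomorphism -/
noncomputable def cjH (hs : Ext σ s) : GK L →* GK L where
  toFun := cj hs
  map_one' := cj_one hs
  map_mul' := cj_mul hs

theorem cyc_cj (hs : Ext σ s) (h : GK L) : cyc L 3 (cj hs h) = cyc L 3 h := by
  unfold cyc
  rw [MonoidHom.comp_apply, MonoidHom.comp_apply]
  have h1 : MulSemiringAction.toRingAut (GK L) (AlgebraicClosure L) (cj hs h) =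
      (s⁻¹ : RingAut (AlgebraicClosure L)) *
        MulSemiringAction.toRingAut (GK L) (AlgebraicClosure L) h * s := by
    ext y
    rfl
  rw [h1]
  have h2 : ∀ (f : (AlgebraicClosure L ≃+* AlgebraicClosure L) →* ℤ_[3]ˣ)
      (a b : AlgebraicClosure L ≃+* AlgebraicClosure L), f (a⁻¹ * b * a) = f b := by
    intro f a b
    rw [map_mul, map_mul, map_inv]
    rw [mul_comm, mul_inv_cancel_left]
  exact h2 _ _ _

theorem twist_cj (hs : Ext σ s) (r : ℤ) (h : GK L) : twist L 3 r (cj hs h) = twist L 3 r h := by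
  unfold twist
  rw [cyc_cj]

theorem cj_cont (hs : Ext σ s) : Continuous (cj hs : GK L → GK L) := by
  have : Continuous (cjH hs) := by
    apply continuous_of_continuousAt_one
    unfold ContinuousAt
    rw [map_one]
    intro U hU
    rw [krullTopology_mem_nhds_one_iff] at hU
    obtain ⟨E, hE, hEU⟩ := hU
    rw [Filter.mem_map, krullTopology_mem_nhds_one_iff]
    let b := Module.finBasis L E
    refine ⟨IntermediateField.adjoin L (Set.range fun i => s (b i : AlgebraicClosure L)), ?_, ?_⟩
    · apply IntermediateField.finiteDimensional_adjoin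
      intro x _
      exact (AlgebraicClosure.isAlgebraic L).isAlgebraic x |>.isIntegral
    · intro h hh
      apply hEU
      have hh' := (IntermediateField.mem_fixingSubgroup_iff _ _).1 hh
      change cj hs h ∈ E.fixingSubgroup
      rw [IntermediateField.mem_fixingSubgroup_iff]
      have h1 : ∀ i, cj hs h (b i : AlgebraicClosure L) = b i := by
        intro i
        rw [cj_apply, hh' _ (IntermediateField.subset_adjoin L _ ⟨i, rfl⟩),
          RingEquiv.symm_apply_apply]
      intro x hx
      obtain ⟨c, h3⟩ : ∃ c : Fin (Module.finrank L E) → L,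
          x = ∑ i, c i • (b i : AlgebraicClosure L) := by
        refine ⟨b.repr ⟨x, hx⟩, ?_⟩
        have h4 := map_sum E.val (fun i => b.repr ⟨x, hx⟩ i • b i) Finset.univ
        rw [b.sum_repr] at h4
        exact h4.trans (Finset.sum_congr rfl fun i _ => map_smul E.val _ _)
      rw [h3, map_sum]
      refine Finset.sum_congr rfl fun i _ => ?_
      rw [map_smul, h1]
  exact this

end ITst

theorem pr_Tst (h1 : StSmu.{u}) (h2 : StSlo.{u}) (h3 : StInf.{u}) : StTst.{u} := by
  intro L _ _ w hw huniq σ s hs r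
  refine ⟨fun h => ITst.twist_cj hs r h, ?_⟩
  rintro φ ⟨⟨⟨hc, hcoc⟩, hker⟩, hfin, hinf⟩
  have hφ1 : φ 1 = 0 := by
    have h := hcoc 1 1
    rw [mul_one, twist_one, one_mul] at h
    simpa using h
  refine ⟨⟨⟨hc.comp (ITst.cj_cont hs), fun g h => ?_⟩, fun g hg => ?_⟩, fun v hv => ?_,
    fun v => ?_⟩
  · change φ (cj hs (g * h)) = φ (cj hs g) + twist L 3 r g * φ (cj hs h)
    rw [ITst.cj_mul, hcoc, ITst.twist_cj]
  · apply hker
    rw [IntermediateField.mem_fixingSubgroup_iff] at hg ⊢
    intro y hy
    have hS : ∀ v v' : HeightOneSpectrum (𝓞 L), (∀ y y' : 𝓞 L, (y' : L) = σ (y : L) →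
        (y ∈ v.asIdeal ↔ y' ∈ v'.asIdeal)) → (v ∈ S3 L ↔ v' ∈ S3 L) := by
      intro v v' hvv
      have := hvv 3 3 (by
        have : ((3 : 𝓞 L) : L) = 3 := by norm_cast
        rw [this, map_ofNat])
      exact this
    rw [cj_apply, hg (s y) ((h1 L σ s hs (S3 L) hS y).1 hy), RingEquiv.symm_apply_apply]
  · apply h2 L σ s hs v ?_ r φ (hfin v hv)
    let e : 𝓞 L ≃+* 𝓞 L := RingOfIntegers.mapRingEquiv σ
    let v' : HeightOneSpectrum (𝓞 L) :=
      { asIdeal := v.asIdeal.comap e
        isPrime := v.isPrime.comap e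
        ne_bot := by
          intro h
          apply v.ne_bot
          rw [eq_bot_iff]
          intro y hy
          have h4 : e.symm y ∈ v.asIdeal.comap e := by
            rw [Ideal.mem_comap, RingEquiv.apply_symm_apply]
            exact hy
          rw [h, Ideal.mem_bot] at h4
          rw [Ideal.mem_bot]
          have := congrArg e h4
          rwa [RingEquiv.apply_symm_apply, map_zero] at this }
    have hv' : v' ∈ S3 L := by
      change (3 : 𝓞 L) ∈ v.asIdeal.comap e
      rw [Ideal.mem_comap, map_ofNat]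
      exact hv
    have hvv : v' = v := huniq v' v hv' hv
    intro y y' hyy
    have h5 : y' = e y := by
      apply RingOfIntegers.ext
      rw [hyy]
      rfl
    have h6 : y ∈ v'.asIdeal ↔ e y ∈ v.asIdeal := Iff.rfl
    rw [hvv] at h6
    rw [h5]
    exact h6
  · apply h3 L w hw r
    rw [ITst.cj_one, hφ1]

end Pool.Agent.Work.MP_59f3ad_nt.Q3
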