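import Mathlib
import Pool.Agent.Work.MP_59f3ad_nt.Q3.StmtsR

/-!
Block Q3, item UF: unique factorisation of products of primary primes.
-/

set_option autoImplicit false

open NumberField IsDedekindDomain

namespace Pool.Agent.Work.MP_59f3ad_nt.Q3

namespace IUF

/-- the norm form -/
def N (z : E) : ℤ := z.re ^ 2 - z.re * z.im + z.im ^ 2

theorem N_mul (z z' : E) : N (z * z') = N z * N z' := by
  simp only [N, QuadraticAlgebra.re_mul, QuadraticAlgebra.im_mul]
  ring

theorem N_one : N 1 = 1 := by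
  simp [N, QuadraticAlgebra.re_one, QuadraticAlgebra.im_one]

theorem N_nonneg (z : E) : 0 ≤ N z := by
  have h : 4 * N z = (2 * z.re - z.im) ^ 2 + 3 * z.im ^ 2 := by
    simp only [N]
    ring
  nlinarith [sq_nonneg (2 * z.re - z.im), sq_nonneg z.im]

theorem N_eq_zero (z : E) (hz : N z = 0) : z = 0 := by
  have h : 4 * N z = (2 * z.re - z.im) ^ 2 + 3 * z.im ^ 2 := by
    simp only [N]
    ring
  rw [hz, mul_zero] at h
  have h1 : z.im ^ 2 = 0 := by nlinarith [sq_nonneg (2 * z.re - z.im), sq_nonneg z.im]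
  have h2 : z.im = 0 := by simpa using h1
  rw [h2] at h
  have h3 : z.re ^ 2 = 0 := by nlinarith
  have h4 : z.re = 0 := by simpa using h3
  ext
  · rw [h4, QuadraticAlgebra.re_zero]
  · rw [h2, QuadraticAlgebra.im_zero]

theorem noZero : NoZeroDivisors E := by
  refine ⟨fun {a b} hab => ?_⟩
  have h1 : N a * N b = 0 := by
    rw [← N_mul, hab]
    simp [N]
  rcases mul_eq_zero.1 h1 with h | h
  · exact Or.inl (N_eq_zero a h)
  · exact Or.inr (N_eq_zero b h)

theorem unit_eq_one (u u' : E) (h : u * u' = 1) (hre : (3 : ℤ) ∣ u.re - 1) (him : (3 : ℤ) ∣ u.im) :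
    u = 1 := by
  have h1 : N u * N u' = 1 := by rw [← N_mul, h, N_one]
  have h2 : N u = 1 := by
    rcases Int.eq_one_or_neg_one_of_mul_eq_one h1 with h3 | h3
    · exact h3
    · have := N_nonneg u
      omega
  have h3 : 4 * N u = (2 * u.re - u.im) ^ 2 + 3 * u.im ^ 2 := by
    simp only [N]
    ring
  rw [h2] at h3
  obtain ⟨t, ht⟩ := him
  have h4 : t = 0 := by
    by_contra hne
    have h5 : 1 ≤ t ^ 2 := by
      have : 0 < t ^ 2 := by positivity
      omega
    rw [ht] at h3
    nlinarith [sq_nonneg (2 * u.re - 3 * t)]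
  rw [h4, mul_zero] at ht
  rw [ht] at h3
  have h6 : u.re ^ 2 = 1 := by nlinarith
  obtain ⟨s, hs⟩ := hre
  have h7 : u.re = 1 := by
    have h8 : (u.re - 1) * (u.re + 1) = 0 := by linarith [h6, sq u.re]
    rcases mul_eq_zero.1 h8 with h9 | h9
    · omega
    · omega
  ext
  · rw [h7, QuadraticAlgebra.re_one]
  · rw [ht, QuadraticAlgebra.im_one]

theorem assoc_eq (z z' : E) (hz : PP z) (hz' : PP z') (h : Associated z z') : z = z' := by
  obtain ⟨u, hu⟩ := h
  obtain ⟨s, hs⟩ := hz.re
  obtain ⟨t, ht⟩ := hz.im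
  obtain ⟨s', hs'⟩ := hz'.re
  obtain ⟨t', ht'⟩ := hz'.im
  have hre : z.re * (u : E).re - z.im * (u : E).im = z'.re := by
    rw [← hu, QuadraticAlgebra.re_mul]
    ring
  have him : z.re * (u : E).im + z.im * (u : E).re - z.im * (u : E).im = z'.im := by
    rw [← hu, QuadraticAlgebra.im_mul]
    ring
  have e1 : z.re = 1 + 3 * s := by linarith
  have e2 : z'.re = 1 + 3 * s' := by linarith
  rw [e1, e2, ht] at hre
  rw [e1, ht, ht'] at him
  have h1 : (u : E) = 1 := by
    refine unit_eq_one _ ((u⁻¹ : Eˣ) : E) (Units.mul_inv u) ?_ ?_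
    · exact ⟨s' - s * (u : E).re + t * (u : E).im, by linarith⟩
    · exact ⟨t' - s * (u : E).im - t * (u : E).re + t * (u : E).im, by linarith⟩
  rw [← hu, h1, mul_one]

theorem perm_of_map {n : ℕ} {α : Type} (v v' : Fin n → α)
    (h : Finset.univ.val.map v = Finset.univ.val.map v') :
    ∃ ρ : Equiv.Perm (Fin n), ∀ i, v' i = v (ρ i) := by
  classical
  have hc : ∀ c : α, Fintype.card {i // v' i = c} = Fintype.card {i // v i = c} := by
    intro c
    have h1 := congrArg (Multiset.count c) h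
    rw [Multiset.count_map, Multiset.count_map] at h1
    rw [Fintype.card_subtype, Fintype.card_subtype]
    simp only [Finset.card, Finset.filter_val]
    simp only [eq_comm (a := c)] at h1
    exact h1.symm
  refine ⟨Equiv.ofFiberEquiv (f := v') (g := v) fun c => Fintype.equivOfCardEq (hc c), fun i => ?_⟩
  exact (Equiv.ofFiberEquiv_map _ i).symm

end IUF

theorem pr_UF (h1 : StInd) : StUF := by
  intro n v v' hv hv' hprod
  have := IUF.noZero
  refine IUF.perm_of_map v v' ?_
  have h2 : Multiset.Rel Associated (Finset.univ.val.map v) (Finset.univ.val.map v') := by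
    refine prime_factors_unique ?_ ?_ ?_
    · intro x hx
      obtain ⟨i, -, rfl⟩ := Multiset.mem_map.1 hx
      exact (h1 (v i) (hv i)).2.2.2.2.2
    · intro x hx
      obtain ⟨i, -, rfl⟩ := Multiset.mem_map.1 hx
      exact (h1 (v' i) (hv' i)).2.2.2.2.2
    · change Associated (∏ i, v i) (∏ i, v' i)
      rw [hprod]
  have h3 : Multiset.Rel Eq (Finset.univ.val.map v) (Finset.univ.val.map v') := by
    refine h2.mono fun a ha b hb hab => ?_
    obtain ⟨i, -, rfl⟩ := Multiset.mem_map.1 ha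
    obtain ⟨j, -, rfl⟩ := Multiset.mem_map.1 hb
    exact IUF.assoc_eq _ _ (hv i) (hv' j) hab
  exact Multiset.rel_eq.1 h3

end Pool.Agent.Work.MP_59f3ad_nt.Q3
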