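import Mathlib
import Pool.Agent.Work.MP_59f3ad_nt.Q3.StmtsG

/-!
MP_59f3ad_nt, block Q3, item Un3: one place above `3`.
-/

open NumberField IsDedekindDomain

namespace Pool.Agent.Work.MP_59f3ad_nt.Q3

universe u

namespace IUn3

variable {L : Type u} [Field L] [NumberField L]

/-- the norm of `1 - W` -/
theorem norm_lam (h6 : Module.finrank ℚ L = 6) (W : 𝓞 L) (hW : W ^ 2 + W + 1 = 0) :
    Ideal.absNorm (Ideal.span {1 - W}) = 27 := by
  rw [Ideal.absNorm_span_singleton]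
  have hu : (Algebra.norm ℤ W).natAbs = 1 := by
    have h3 : W ^ 3 = 1 := by linear_combination (W - 1) * hW
    have h4 : (Algebra.norm ℤ W) ^ 3 = 1 := by rw [← map_pow, h3, map_one]
    have h5 : (Algebra.norm ℤ W).natAbs ^ 3 = 1 := by rw [← Int.natAbs_pow, h4]; rfl
    exact (Nat.pow_eq_one.1 h5).resolve_right (by norm_num)
  have hl : (1 - W) ^ 2 = algebraMap ℤ (𝓞 L) (-3) * W := by
    rw [eq_intCast]
    push_cast
    linear_combination hW
  have h2 : (Algebra.norm ℤ (1 - W)) ^ 2 = (-3) ^ 6 * Algebra.norm ℤ W := by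
    rw [← map_pow, hl, map_mul, Algebra.norm_algebraMap, RingOfIntegers.rank, h6]
  have h7 : (Algebra.norm ℤ (1 - W)).natAbs ^ 2 = 27 ^ 2 := by
    rw [← Int.natAbs_pow, h2, Int.natAbs_mul, hu]
    rfl
  exact Nat.pow_left_injective (n := 2) (by norm_num) h7

/-- a prime of norm three: every residue class contains an integer -/
theorem res_int (I : Ideal (𝓞 L)) (h : Ideal.absNorm I = 3) (y : 𝓞 L) : ∃ k : ℤ, y - k ∈ I := by
  have hc : Nat.card (𝓞 L ⧸ I) = 3 := by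
    rw [← h]
    rfl
  have hfin : Finite (𝓞 L ⧸ I) := Nat.finite_of_card_ne_zero (by rw [hc]; norm_num)
  have := Fintype.ofFinite (𝓞 L ⧸ I)
  have hc' : Fintype.card (𝓞 L ⧸ I) = 3 := by rw [← Nat.card_eq_fintype_card]; exact hc
  let e := ZMod.ringEquivOfPrime (𝓞 L ⧸ I) Nat.prime_three hc'
  obtain ⟨k, hk⟩ := ZMod.intCast_surjective (e.symm (Ideal.Quotient.mk I y))
  refine ⟨k, ?_⟩
  have h1 : Ideal.Quotient.mk I y = (k : 𝓞 L ⧸ I) := by
    rw [← e.apply_symm_apply (Ideal.Quotient.mk I y), ← hk, map_intCast]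
  rw [← Ideal.Quotient.eq_zero_iff_mem, map_sub, h1, map_intCast, sub_self]

/-- the valuation of an element of `v` which is not in `v²` -/
theorem val_lam (v : HeightOneSpectrum (𝓞 L)) {l : 𝓞 L} (h1 : l ∈ v.asIdeal)
    (h2 : l ∉ v.asIdeal ^ 2) : v.intValuation l = WithZero.exp (-1 : ℤ) := by
  have a1 : v.intValuation l ≤ WithZero.exp (-((1 : ℕ) : ℤ)) :=
    (v.intValuation_le_pow_iff_mem l 1).2 (by rwa [pow_one])
  have a2 : ¬ v.intValuation l ≤ WithZero.exp (-((2 : ℕ) : ℤ)) :=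
    fun h => h2 ((v.intValuation_le_pow_iff_mem l 2).1 h)
  have hl0 : l ≠ 0 := by
    rintro rfl
    exact h2 (Ideal.zero_mem _)
  rw [v.intValuation_if_neg hl0, WithZero.exp_le_exp] at a1 a2
  rw [v.intValuation_if_neg hl0, WithZero.exp_inj]
  push_cast at a1 a2
  omega

/-- division by `1 - W` -/
theorem div_lam (v : HeightOneSpectrum (𝓞 L)) {l : 𝓞 L} (h1 : l ∈ v.asIdeal)
    (h2 : l ∉ v.asIdeal ^ 2) (n : ℕ) (b : 𝓞 L) (h : l * b ∈ v.asIdeal ^ (n + 1)) :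
    b ∈ v.asIdeal ^ n := by
  rw [← v.intValuation_le_pow_iff_mem, map_mul, val_lam v h1 h2] at h
  rw [← v.intValuation_le_pow_iff_mem]
  have h3 : WithZero.exp (-((n + 1 : ℕ) : ℤ)) =
      WithZero.exp (-1 : ℤ) * WithZero.exp (-(n : ℤ)) := by
    rw [← WithZero.exp_add]
    push_cast
    ring_nf
  rw [h3] at h
  exact (mul_le_mul_iff_of_pos_left (WithZero.exp_pos)).1 h

/-- powers -/
theorem pow_not (v : HeightOneSpectrum (𝓞 L)) {l : 𝓞 L} (h1 : l ∈ v.asIdeal)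
    (h2 : l ∉ v.asIdeal ^ 2) (n : ℕ) : l ^ n ∉ v.asIdeal ^ (n + 1) := by
  intro h
  rw [← v.intValuation_le_pow_iff_mem, map_pow, val_lam v h1 h2, ← WithZero.exp_nsmul,
    WithZero.exp_le_exp] at h
  push_cast at h
  simp at h

/-- approximation by elements of `E` -/
theorem surj (v : HeightOneSpectrum (𝓞 L)) (W : 𝓞 L) (hW : W ^ 2 + W + 1 = 0)
    (h1 : 1 - W ∈ v.asIdeal) (h2 : 1 - W ∉ v.asIdeal ^ 2)
    (hres : ∀ y : 𝓞 L, ∃ k : ℤ, y - k ∈ v.asIdeal) (n : ℕ) :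
    ∀ y : 𝓞 L, ∃ z : E, y - evH W hW z ∈ v.asIdeal ^ n := by
  induction n with
  | zero =>
    intro y
    refine ⟨0, ?_⟩
    rw [pow_zero, Ideal.one_eq_top]
    trivial
  | succ n ih =>
    intro y
    obtain ⟨z, hz⟩ := ih y
    obtain ⟨d, e, he, hde⟩ := Ideal.exists_mul_add_mem_pow_succ v.ne_bot ((1 - W) ^ n)
      (y - evH W hW z) (Ideal.pow_mem_pow h1 n) (pow_not v h1 h2 n) hz
    obtain ⟨k, hk⟩ := hres d
    refine ⟨z + ⟨1, -1⟩ ^ n * (k : E), ?_⟩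
    have h3 : evH W hW ⟨1, -1⟩ = 1 - W := by
      rw [evH_apply]
      simp only [ev]
      push_cast
      ring
    rw [map_add, map_mul, map_pow, h3, map_intCast]
    have h4 : y - (evH W hW z + (1 - W) ^ n * (k : 𝓞 L)) = (1 - W) ^ n * (d - k) + e := by
      linear_combination - hde
    rw [h4]
    refine Ideal.add_mem _ ?_ he
    rw [pow_succ]
    exact Ideal.mul_mem_mul (Ideal.pow_mem_pow h1 n) hk

/-- integers in a prime above three -/
theorem int_mem (I : Ideal (𝓞 L)) (hI : I ≠ ⊤) (h3 : (3 : 𝓞 L) ∈ I) (k : ℤ) (hk : (k : 𝓞 L) ∈ I) :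
    (3 : ℤ) ∣ k := by
  by_contra h
  have hc : IsCoprime (3 : ℤ) k :=
    (Int.prime_three.coprime_iff_not_dvd).2 h
  obtain ⟨a, b, hab⟩ := hc
  apply hI
  rw [Ideal.eq_top_iff_one]
  have : (1 : 𝓞 L) = (a : 𝓞 L) * 3 + (b : 𝓞 L) * (k : 𝓞 L) := by
    exact_mod_cast congrArg (fun t : ℤ => (t : 𝓞 L)) hab.symm
  rw [this]
  exact Ideal.add_mem _ (Ideal.mul_mem_left _ _ h3) (Ideal.mul_mem_left _ _ hk)

/-- elements of `E` in `v^n` -/
theorem ker (v : HeightOneSpectrum (𝓞 L)) (W : 𝓞 L) (hW : W ^ 2 + W + 1 = 0)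
    (h0 : (3 : 𝓞 L) ∈ v.asIdeal)
    (h1 : 1 - W ∈ v.asIdeal) (h2 : 1 - W ∉ v.asIdeal ^ 2) (n : ℕ) :
    ∀ z : E, evH W hW z ∈ v.asIdeal ^ n → ∃ z' : E, z = (⟨1, -1⟩ : E) ^ n * z' := by
  induction n with
  | zero =>
    intro z _
    exact ⟨z, by rw [pow_zero, one_mul]⟩
  | succ n ih =>
    intro z hz
    have hz1 : evH W hW z ∈ v.asIdeal := Ideal.pow_le_self (Nat.succ_ne_zero n) hz
    have hab : ((z.re + z.im : ℤ) : 𝓞 L) ∈ v.asIdeal := by
      have : ((z.re + z.im : ℤ) : 𝓞 L) = evH W hW z + (z.im : 𝓞 L) * (1 - W) := by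
        rw [evH_apply]
        simp only [ev]
        push_cast
        ring
      rw [this]
      exact Ideal.add_mem _ hz1 (Ideal.mul_mem_left _ _ h1)
    obtain ⟨d, hd⟩ := int_mem v.asIdeal v.isPrime.ne_top h0 _ hab
    have hz2 : z = (⟨1, -1⟩ : E) * ⟨z.re - d, d⟩ := by
      ext
      · simp only [QuadraticAlgebra.re_mul]
        ring
      · simp only [QuadraticAlgebra.im_mul]
        linear_combination hd
    have h3 : evH W hW ⟨1, -1⟩ = 1 - W := by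
      rw [evH_apply]
      simp only [ev]
      push_cast
      ring
    have hz3 : (1 - W) * evH W hW ⟨z.re - d, d⟩ ∈ v.asIdeal ^ (n + 1) := by
      rw [← h3, ← map_mul, ← hz2]
      exact hz
    obtain ⟨z', hz'⟩ := ih _ (div_lam v h1 h2 n _ hz3)
    refine ⟨z', ?_⟩
    rw [hz2, hz', pow_succ]
    ring

/-- the finite check, numbers -/
theorem check9 : ∀ a b : ZMod 9, 3 * (a ^ 3 + b ^ 3 - 3 * a * b ^ 2 - 1) = 0 →
    a ^ 3 + b ^ 3 - 3 * a * b ^ 2 - 1 = 0 ∧ 3 * a * b * (a - b) = 0 := by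
  decide

theorem checkZ (a b : ℤ) (h : (3 : ℤ) ∣ a ^ 3 + b ^ 3 - 3 * a * b ^ 2 - 1) :
    (9 : ℤ) ∣ a ^ 3 + b ^ 3 - 3 * a * b ^ 2 - 1 ∧ (9 : ℤ) ∣ 3 * a * b * (a - b) := by
  obtain ⟨c, hc⟩ := h
  have h1 := check9 (a : ZMod 9) (b : ZMod 9) (by
    have h2 : (3 : ℤ) * (a ^ 3 + b ^ 3 - 3 * a * b ^ 2 - 1) = 9 * c := by rw [hc]; ring
    have h3 := congrArg (fun t : ℤ => (t : ZMod 9)) h2
    push_cast at h3
    rw [h3, show (9 : ZMod 9) = 0 from rfl, zero_mul])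
  constructor
  · refine (ZMod.intCast_zmod_eq_zero_iff_dvd _ 9).1 ?_
    push_cast
    exact h1.1
  · refine (ZMod.intCast_zmod_eq_zero_iff_dvd _ 9).1 ?_
    push_cast
    exact h1.2

/-- the finite check -/
theorem check (M z y : E) (h3 : (3 : E) ∣ M - 1) (h : M - z ^ 3 = (⟨1, -1⟩ : E) ^ 4 * y) :
    (9 : E) ∣ M - 1 := by
  have hz : z ^ 3 = ⟨z.re ^ 3 + z.im ^ 3 - 3 * z.re * z.im ^ 2,
      3 * z.re * z.im * (z.re - z.im)⟩ := by
    rw [pow_succ, pow_two]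
    ext
    · simp only [QuadraticAlgebra.re_mul, QuadraticAlgebra.im_mul]
      ring
    · simp only [QuadraticAlgebra.re_mul, QuadraticAlgebra.im_mul]
      ring
  have hl : (⟨1, -1⟩ : E) ^ 4 = 9 * ⟨-1, -1⟩ := by decide
  have h39 : (3 : E) ∣ 9 := ⟨3, by decide⟩
  have h4 : (3 : E) ∣ z ^ 3 - 1 := by
    have : z ^ 3 - 1 = (M - 1) - 9 * (⟨-1, -1⟩ * y) := by
      rw [← mul_assoc, ← hl, ← h]
      ring
    rw [this]
    exact dvd_sub h3 (Dvd.dvd.mul_right h39 _)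
  have h5 : (9 : E) ∣ z ^ 3 - 1 := by
    obtain ⟨c, hc⟩ := h4
    have hr := congrArg QuadraticAlgebra.re hc
    rw [hz] at hr
    have hr' : z.re ^ 3 + z.im ^ 3 - 3 * z.re * z.im ^ 2 - 1 = 3 * c.re := by
      have e : ((3 : E) * c).re = 3 * c.re := by
        have : (3 : E) = ⟨3, 0⟩ := rfl
        rw [this]
        simp only [QuadraticAlgebra.re_mul]
        ring
      rw [← e, ← hr]
      rfl
    obtain ⟨⟨c1, hc1⟩, c2, hc2⟩ := checkZ z.re z.im ⟨c.re, hr'⟩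
    refine ⟨⟨c1, c2⟩, ?_⟩
    rw [hz]
    have : (9 : E) = ⟨9, 0⟩ := rfl
    rw [this]
    ext
    · simp only [QuadraticAlgebra.re_mul, QuadraticAlgebra.re_sub, QuadraticAlgebra.re_one]
      linear_combination hc1
    · simp only [QuadraticAlgebra.im_mul, QuadraticAlgebra.im_sub, QuadraticAlgebra.im_one]
      linear_combination hc2
  have h6 : M - 1 = (z ^ 3 - 1) + 9 * (⟨-1, -1⟩ * y) := by
    rw [← mul_assoc, ← hl, ← h]
    ring
  rw [h6]
  exact dvd_add h5 (Dvd.intro _ rfl)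

/-- a bad prime gives a large ideal -/
theorem bad (v : HeightOneSpectrum (𝓞 L)) (l : 𝓞 L) (hl : Ideal.absNorm (Ideal.span {l}) = 27)
    (h1 : l ∈ v.asIdeal) (h : ¬ (Ideal.absNorm v.asIdeal = 3 ∧ l ∉ v.asIdeal ^ 2)) :
    ∃ a : ℕ, l ∈ v.asIdeal ^ a ∧ 9 ∣ Ideal.absNorm (v.asIdeal ^ a) := by
  have hd : Ideal.absNorm v.asIdeal ∣ 27 := by
    rw [← hl]
    exact Ideal.absNorm_dvd_absNorm_of_le ((Ideal.span_singleton_le_iff_mem _).2 h1)
  have h1' : Ideal.absNorm v.asIdeal ≠ 1 := by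
    intro h
    exact v.isPrime.ne_top (Ideal.absNorm_eq_one_iff.1 h)
  have hp : (27 : ℕ) = 3 ^ 3 := by norm_num
  rw [hp, Nat.dvd_prime_pow Nat.prime_three] at hd
  obtain ⟨k, hk, hk'⟩ := hd
  by_cases h2 : l ∈ v.asIdeal ^ 2
  · refine ⟨2, h2, ?_⟩
    rw [map_pow, hk', ← pow_mul]
    have : 1 ≤ k := by
      rcases Nat.eq_zero_or_pos k with rfl | h
      · exact absurd hk' (by simpa using h1')
      · exact h
    exact (show (9 : ℕ) = 3 ^ 2 by norm_num) ▸ pow_dvd_pow 3 (by omega)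
  · refine ⟨1, by rwa [pow_one], ?_⟩
    have h3 : Ideal.absNorm v.asIdeal ≠ 3 := fun h' => h ⟨h', h2⟩
    rw [pow_one, hk']
    have : 2 ≤ k := by
      rcases k with _ | _ | k
      · exact absurd hk' (by simpa using h1')
      · exact absurd hk' (by simpa using h3)
      · omega
    exact (show (9 : ℕ) = 3 ^ 2 by norm_num) ▸ pow_dvd_pow 3 this

/-- a good prime gives a contradiction -/
theorem good (v : HeightOneSpectrum (𝓞 L)) (W x : 𝓞 L) (hW : W ^ 2 + W + 1 = 0) (M : E)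
    (hx : x ^ 3 = evH W hW M) (h3 : (3 : E) ∣ M - 1) (h9 : ¬ (9 : E) ∣ M - 1)
    (h0 : (3 : 𝓞 L) ∈ v.asIdeal) (h1 : 1 - W ∈ v.asIdeal) (h2 : 1 - W ∉ v.asIdeal ^ 2)
    (hN : Ideal.absNorm v.asIdeal = 3) : False := by
  obtain ⟨z, hz⟩ := surj v W hW h1 h2 (res_int v.asIdeal hN) 4 x
  have h4 : evH W hW (M - z ^ 3) ∈ v.asIdeal ^ 4 := by
    have : evH W hW (M - z ^ 3) =
        (x ^ 2 + x * evH W hW z + (evH W hW z) ^ 2) * (x - evH W hW z) := by
      rw [map_sub, map_pow, ← hx]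
      ring
    rw [this]
    exact Ideal.mul_mem_left _ _ hz
  obtain ⟨y, hy⟩ := ker v W hW h0 h1 h2 4 _ h4
  exact h9 (check M z y h3 hy)

end IUn3

open IUn3 in
theorem pr_Un3 : StUn3.{u} := by
  intro F L _ _ _ _ _ w x σ M hC hM1 hM9 v v' hv hv'
  by_contra hne
  have h6 : Module.finrank ℚ L = 6 := by
    rw [← Module.finrank_mul_finrank ℚ F L, hC.hF, hC.hL]
  set W : 𝓞 L := algebraMap (𝓞 F) (𝓞 L) w with hWdef
  have hW : W ^ 2 + W + 1 = 0 := by
    have := congrArg (algebraMap (𝓞 F) (𝓞 L)) hC.hw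
    simpa only [map_add, map_pow, map_one, map_zero] using this
  have hx : x ^ 3 = evH W hW M := by
    apply RingOfIntegers.ext
    have h := hC.hx
    rw [evH_apply]
    simp only [ev] at h ⊢
    push_cast at h ⊢
    simp only [map_add, map_mul, map_intCast] at h ⊢
    exact h
  have hmem : ∀ v : HeightOneSpectrum (𝓞 L), v ∈ S3 L → 1 - W ∈ v.asIdeal := by
    intro v hv
    have h0 : (3 : 𝓞 L) ∈ v.asIdeal := hv
    have : (1 - W) ^ 2 ∈ v.asIdeal := by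
      have e : (1 - W) ^ 2 = (-W) * 3 := by linear_combination hW
      rw [e]
      exact Ideal.mul_mem_left _ _ h0
    exact v.isPrime.mem_of_pow_mem 2 this
  have hN := norm_lam h6 W hW
  have hbad : ∀ v : HeightOneSpectrum (𝓞 L), v ∈ S3 L →
      ¬ (Ideal.absNorm v.asIdeal = 3 ∧ 1 - W ∉ v.asIdeal ^ 2) := by
    intro v hv h
    exact good v W x hW M hx hM1 hM9 hv (hmem v hv) h.2 h.1
  obtain ⟨a, ha, ha'⟩ := bad v (1 - W) hN (hmem v hv) (hbad v hv)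
  obtain ⟨b, hb, hb'⟩ := bad v' (1 - W) hN (hmem v' hv') (hbad v' hv')
  have hcop : IsCoprime (v.asIdeal ^ a) (v'.asIdeal ^ b) := by
    apply IsCoprime.pow
    rw [Ideal.isCoprime_iff_sup_eq]
    have hm := v.isMaximal
    have hm' := v'.isMaximal
    exact hm.coprime_of_ne hm' fun h => hne (HeightOneSpectrum.ext h)
  have hle : Ideal.span {1 - W} ≤ v.asIdeal ^ a * v'.asIdeal ^ b := by
    rw [Ideal.mul_eq_inf_of_isCoprime hcop]
    exact le_inf ((Ideal.span_singleton_le_iff_mem _).2 ha)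
      ((Ideal.span_singleton_le_iff_mem _).2 hb)
  have hd := Ideal.absNorm_dvd_absNorm_of_le hle
  rw [hN, map_mul] at hd
  have := (mul_dvd_mul ha' hb').trans hd
  omega

end Pool.Agent.Work.MP_59f3ad_nt.Q3
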