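import Mathlib
import Pool.Agent.Work.MP_59f3ad_nt.Q3.StmtsG

/-!
Block [59f3ad Q3], item Unr: primes not above `3 M` are unramified in `F(M^(1/3))`.
-/

open NumberField IsDedekindDomain Polynomial

namespace Pool.Agent.Work.MP_59f3ad_nt.Q3

universe u

namespace IUnr

/-- a place above `v` -/
lemma exists_above (K M : Type u) [Field K] [NumberField K] [Field M] [NumberField M]
    [Algebra K M] (v : HeightOneSpectrum (𝓞 K)) :
    ∃ w : HeightOneSpectrum (𝓞 M), w.asIdeal.LiesOver v.asIdeal := by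
  have hker : RingHom.ker (algebraMap (𝓞 K) (𝓞 M)) ≤ v.asIdeal := by
    intro x hx
    rw [RingHom.mem_ker] at hx
    have : x = 0 := (FaithfulSMul.algebraMap_injective (𝓞 K) (𝓞 M)) (by rw [hx, map_zero])
    rw [this]
    exact Ideal.zero_mem _
  have hmax : v.asIdeal.IsMaximal := v.isMaximal
  obtain ⟨Q, hQ, hQc⟩ := Ideal.exists_ideal_over_maximal_of_isIntegral (S := 𝓞 M) v.asIdeal hker
  have hlo : Q.LiesOver v.asIdeal := ⟨hQc.symm⟩
  exact ⟨⟨Q, hQ.isPrime, Ideal.ne_bot_of_liesOver_of_ne_bot v.ne_bot Q⟩, hlo⟩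

lemma coe_ev {F : Type u} [Field F] [NumberField F] (w : 𝓞 F) (M : E) :
    algebraMap (𝓞 F) F (ev w M) = ev (w : F) M := by
  simp [ev]

/-- `x³ = M` in the ring of integers -/
lemma x3 {F L : Type u} [Field F] [NumberField F] [Field L] [NumberField L] [Algebra F L]
    {w : 𝓞 F} {x : 𝓞 L} {M : E} (hx : (x : L) ^ 3 = algebraMap F L (ev (w : F) M)) :
    x ^ 3 = algebraMap (𝓞 F) (𝓞 L) (ev w M) := by
  apply RingOfIntegers.ext
  have h1 : algebraMap (𝓞 L) L (algebraMap (𝓞 F) (𝓞 L) (ev w M)) = algebraMap F L (ev (w : F) M) := by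
    rw [← IsScalarTower.algebraMap_apply (𝓞 F) (𝓞 L) L, IsScalarTower.algebraMap_apply (𝓞 F) F L,
      coe_ev]
  refine Eq.trans ?_ h1.symm
  refine Eq.trans ?_ hx
  exact map_pow (algebraMap (𝓞 L) L) x 3

/-- `x` generates `L` -/
lemma adj {F L : Type u} [Field F] [NumberField F] [Field L] [NumberField L] [Algebra F L]
    {w : 𝓞 F} {x : 𝓞 L} {σ : L ≃ₐ[F] L} {M : E} (h : Cfg F L w x σ M) (hM : ev w M ≠ 0) :
    Algebra.adjoin F {algebraMap (𝓞 L) L x} = ⊤ := by
  have hx0 : (x : L) ≠ 0 := by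
    intro h0
    have h1 := x3 h.hx
    have h2 : x = 0 := RingOfIntegers.ext (h0.trans (map_zero (algebraMap (𝓞 L) L)).symm)
    rw [h2, zero_pow (by norm_num)] at h1
    exact hM ((FaithfulSMul.algebraMap_injective (𝓞 F) (𝓞 L)) (by rw [← h1, map_zero]))
  have _ : FiniteDimensional F L := FiniteDimensional.of_finrank_pos (by rw [h.hL]; norm_num)
  have hs : IsSimpleOrder (IntermediateField F L) :=
    IntermediateField.isSimpleOrder_of_finrank_prime F L (by rw [h.hL]; norm_num)
  have hint : IsIntegral F (x : L) := Algebra.IsIntegral.isIntegral _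
  rw [← IntermediateField.adjoin_simple_toSubalgebra_of_isAlgebraic hint.isAlgebraic]
  rcases eq_bot_or_eq_top (IntermediateField.adjoin F {(x : L)}) with hb | ht
  · exfalso
    have h1 : (x : L) ∈ (⊥ : IntermediateField F L) := by
      rw [← hb]
      exact IntermediateField.mem_adjoin_simple_self F _
    obtain ⟨y, hy⟩ := IntermediateField.mem_bot.1 h1
    have h2 := h.hσ
    rw [← hy, AlgEquiv.commutes] at h2
    have h3 : algebraMap F L (w : F) = 1 := by
      have h4 : (algebraMap F L (w : F) - 1) * algebraMap F L y = 0 := by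
        rw [sub_mul, ← h2, one_mul, sub_self]
      rcases mul_eq_zero.1 h4 with h5 | h5
      · exact sub_eq_zero.1 h5
      · exact absurd (hy ▸ h5) hx0
    have h6 : (w : F) = 1 := (algebraMap F L).injective (by rw [h3, map_one])
    have h7 : w = 1 := RingOfIntegers.ext h6
    have h8 := h.hw
    rw [h7] at h8
    norm_num at h8
  · rw [ht]
    rfl

end IUnr

theorem pr_Unr : StUnr.{u} := by
  intro F L _ _ _ _ _ w x σ M h q h3 hM a ha
  have hM0 : ev w M ≠ 0 := fun h0 => hM (by rw [h0]; exact Ideal.zero_mem _)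
  obtain ⟨W, hW⟩ := IUnr.exists_above F L q
  have _ : FiniteDimensional F L := FiniteDimensional.of_finrank_pos (by rw [h.hL]; norm_num)
  have _ : W.asIdeal.IsPrime := W.isPrime
  have hun : Algebra.IsUnramifiedAt (𝓞 F) W.asIdeal := by
    rw [← not_dvd_differentIdeal_iff]
    intro hd
    have h1 := aeval_derivative_mem_differentIdeal (𝓞 F) F L x (IUnr.adj h hM0)
    have h2 : aeval x (derivative (minpoly (𝓞 F) x)) ∈ W.asIdeal := Ideal.le_of_dvd hd h1
    have hx3 := IUnr.x3 h.hx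
    have h4 : aeval x (X ^ 3 - C (ev w M) : (𝓞 F)[X]) = 0 := by
      simp [hx3]
    obtain ⟨g, hg⟩ := minpoly.isIntegrallyClosed_dvd (Algebra.IsIntegral.isIntegral (R := 𝓞 F) x) h4
    have h5 : aeval x (derivative (X ^ 3 - C (ev w M) : (𝓞 F)[X])) ∈ W.asIdeal := by
      rw [hg, derivative_mul, map_add, map_mul, map_mul, minpoly.aeval, zero_mul, add_zero]
      exact Ideal.mul_mem_right _ _ h2
    have h6 : (3 : 𝓞 L) * x ^ 2 ∈ W.asIdeal := by
      have e1 : aeval x (derivative (X ^ 3 - C (ev w M) : (𝓞 F)[X])) = (3 : 𝓞 L) * x ^ 2 := by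
        simp only [derivative_sub, derivative_C, sub_zero, derivative_X_pow, map_mul, map_pow,
          aeval_X, Nat.add_one_sub_one]
        simp only [Nat.cast_ofNat, map_ofNat]
      rw [← e1]
      exact h5
    have hover : ∀ y : 𝓞 F, algebraMap (𝓞 F) (𝓞 L) y ∈ W.asIdeal → y ∈ q.asIdeal := by
      intro y hy
      rw [hW.over]
      exact hy
    rcases W.isPrime.mem_or_mem h6 with h7 | h7
    · exact h3 (hover 3 (by rw [map_ofNat]; exact h7))
    · have h8 : x ∈ W.asIdeal := W.isPrime.mem_of_pow_mem 2 h7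
      refine hM (hover _ ?_)
      rw [← hx3]
      exact Ideal.pow_mem_of_mem _ h8 3 (by norm_num)
  have he : Ideal.ramificationIdx W.asIdeal (𝓞 F) = 1 := Ideal.ramificationIdx_eq_one_of_isUnramifiedAt
  have he' : q.asIdeal.ramificationIdx' W.asIdeal = 1 := by
    rw [Ideal.ramificationIdx'_eq_ramificationIdx q.asIdeal W.asIdeal q.ne_bot, he]
  obtain ⟨y, hy⟩ := ha W
  obtain ⟨z, hz⟩ := q.valuation_surjective F (W.valuation L y)
  refine ⟨z, ?_⟩
  have h1 := HeightOneSpectrum.valuation_liesOver L q W a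
  rw [he', pow_one] at h1
  rw [h1, hy, hz]

end Pool.Agent.Work.MP_59f3ad_nt.Q3
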