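import Mathlib
import Pool.Agent.Work.MP_59f3ad_nt.Q3.StmtsC

/-!
# Block Q3, item Vsg
-/

set_option autoImplicit false

open NumberField IsDedekindDomain

namespace Pool.Agent.Work.MP_59f3ad_nt.Q3

universe u

namespace IVsg

open WithZero

theorem mem_pow {R S : Type*} [CommRing R] [CommRing S] (e : R ≃+* S) (I : Ideal S) (n : ℕ)
    (r : R) : r ∈ (I.comap (e : R →+* S)) ^ n ↔ e r ∈ I ^ n := by
  have h : I.comap (e : R →+* S) = I.map (e.symm : S →+* R) := (Ideal.map_symm e).symm
  have h' : (I ^ n).comap (e : R →+* S) = (I ^ n).map (e.symm : S →+* R) := (Ideal.map_symm e).symm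
  rw [h, ← Ideal.map_pow, ← h']
  exact Ideal.mem_comap

theorem int_eq {R S : Type*} [CommRing R] [IsDedekindDomain R] [CommRing S] [IsDedekindDomain S]
    (e : R ≃+* S) (v : HeightOneSpectrum S) (r : R) :
    v.intValuation (e r) =
      (HeightOneSpectrum.comap (e : R →+* S) e.surjective v).intValuation r := by
  by_cases hr : r = 0
  · simp [hr]
  · have hr' : e r ≠ 0 := fun h => hr ((map_eq_zero_iff e e.injective).1 h)
    have key : ∀ n : ℕ, v.intValuation (e r) ≤ exp (-(n : ℤ)) ↔
        (HeightOneSpectrum.comap (e : R →+* S) e.surjective v).intValuation r ≤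
          exp (-(n : ℤ)) := by
      intro n
      rw [v.intValuation_le_pow_iff_mem, HeightOneSpectrum.intValuation_le_pow_iff_mem]
      exact (mem_pow e v.asIdeal n r).symm
    refine le_antisymm ?_ ?_
    · rw [HeightOneSpectrum.intValuation_if_neg _ hr]
      refine (key _).2 ?_
      rw [HeightOneSpectrum.intValuation_if_neg _ hr]
    · rw [HeightOneSpectrum.intValuation_if_neg _ hr']
      refine (key _).1 ?_
      rw [HeightOneSpectrum.intValuation_if_neg _ hr']

end IVsg

open IVsg in
theorem pr_Vsg : StVsg.{u} := by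
  intro L _ _ σ v
  refine ⟨HeightOneSpectrum.comap (RingOfIntegers.mapRingEquiv σ : 𝓞 L →+* 𝓞 L)
    (RingOfIntegers.mapRingEquiv σ).surjective v, ?_, ?_⟩
  · intro y
    obtain ⟨a, b, -, rfl⟩ := IsFractionRing.div_surjective (A := 𝓞 L) y
    have h : ∀ c : 𝓞 L, σ (algebraMap (𝓞 L) L c) =
        algebraMap (𝓞 L) L (RingOfIntegers.mapRingEquiv σ c) := fun c => rfl
    rw [map_div₀, map_div₀, map_div₀, h, h, v.valuation_of_algebraMap, v.valuation_of_algebraMap,
      HeightOneSpectrum.valuation_of_algebraMap, HeightOneSpectrum.valuation_of_algebraMap,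
      int_eq, int_eq]
  · intro hv
    change RingOfIntegers.mapRingEquiv σ (3 : 𝓞 L) ∈ v.asIdeal
    rw [map_ofNat]
    exact hv

end Pool.Agent.Work.MP_59f3ad_nt.Q3
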