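import Mathlib
import Pool.Agent.Work.MP_59f3ad_nt.Q3.StmtsR
import Pool.Agent.Work.MP_59f3ad_nt.Q3.StmtsG
import Pool.Agent.Work.MP_59f3ad_nt.Q3.StmtsC
import Pool.Agent.Work.MP_59f3ad_nt.Bridge

/-!
Assembly of Theorem A of block Q3: the deterministic criterion.
-/

open NumberField IsDedekindDomain

namespace Pool.Agent.Work.MP_59f3ad_nt.Q3

universe u

/-- Theorem A. -/
def StA : Prop := ∀ (L : Type u) [Field L] [NumberField L] (w x : L) (t : ℕ) (π : Fin t → E)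
  (c : Fin t → ℕ) (M : E), Prd t π c M → w ^ 2 + w + 1 = 0 → x ^ 3 = ev w M →
  Module.finrank ℚ L = 6 → ¬ (9 : E) ∣ M - 1 → ∀ r : ℤ, r ≠ 0 → Sha1 L 3 r (S3 L) ≠ ⊥ →
  ∃ h : Fin t → ZMod 3, (∃ i k, h i ≠ h k) ∧ ∑ i, (h i * (c i : ZMod 3)) • kap (π i) = 0 ∧
    ∀ k, ∑ i, (c i : ZMod 3) * (c k : ZMod 3) * (h i - h k) * ind (π k) (π i) = 0

namespace MainA

theorem pp_dvd {z : E} (h : PP z) : (3 : E) ∣ z - 1 := by
  obtain ⟨a, ha⟩ := h.re
  obtain ⟨b, hb⟩ := h.im
  refine ⟨⟨a, b⟩, ?_⟩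
  ext
  · simp [QuadraticAlgebra.re_one, QuadraticAlgebra.re_ofNat, QuadraticAlgebra.im_ofNat]
    linarith
  · simp [QuadraticAlgebra.im_one, QuadraticAlgebra.re_ofNat, QuadraticAlgebra.im_ofNat]
    linarith

theorem three_dvd_pow {z : E} (h : (3 : E) ∣ z - 1) (n : ℕ) : (3 : E) ∣ z ^ n - 1 := by
  have := sub_dvd_pow_sub_pow z 1 n
  rw [one_pow] at this
  exact h.trans this

theorem three_dvd_prod {ι : Type*} (s : Finset ι) (f : ι → E) (h : ∀ i ∈ s, (3 : E) ∣ f i - 1) :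
    (3 : E) ∣ ∏ i ∈ s, f i - 1 := by
  classical
  induction s using Finset.induction_on with
  | empty => simp
  | insert a s ha ih =>
    rw [Finset.prod_insert ha]
    have h1 := h a (Finset.mem_insert_self a s)
    have h2 := ih fun i hi => h i (Finset.mem_insert_of_mem hi)
    have : f a * ∏ i ∈ s, f i - 1 = (f a - 1) * ∏ i ∈ s, f i + (∏ i ∈ s, f i - 1) := by ring
    rw [this]
    exact dvd_add (h1.mul_right _) h2

theorem nine_dvd_cube {z : E} (h : (3 : E) ∣ z - 1) : (9 : E) ∣ z ^ 3 - 1 := by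
  obtain ⟨u, hu⟩ := h
  have : z = 1 + 3 * u := by rw [← hu]; ring
  refine ⟨u + 3 * u ^ 2 + 3 * u ^ 3, ?_⟩
  rw [this]
  ring

theorem nm_mul (a b : E) : nm (a * b) = nm a * nm b := by
  unfold nm
  rw [← Int.natAbs_mul]
  congr 1
  simp only [QuadraticAlgebra.re_mul, QuadraticAlgebra.im_mul]
  ring

theorem nm_dvd {a b : E} (h : a ∣ b) : nm a ∣ nm b := by
  obtain ⟨c, rfl⟩ := h
  rw [nm_mul]
  exact dvd_mul_right _ _

theorem not_dvd_of_ne (hI : StInd) {t : ℕ} {π : Fin t → E} (hpp : ∀ i, PP (π i))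
    (hinj : ∀ i k, nm (π i) = nm (π k) → i = k) {i k : Fin t} (hik : k ≠ i) : ¬ π i ∣ π k := by
  intro h
  have h1 := nm_dvd h
  have h2 := (Nat.prime_dvd_prime_iff_eq (hpp i).pr (hpp k).pr).mp h1
  exact hik (hinj i k h2).symm

theorem not_dvd_prod (hI : StInd) {t : ℕ} {π : Fin t → E} (hpp : ∀ i, PP (π i))
    (hinj : ∀ i k, nm (π i) = nm (π k) → i = k) (i : Fin t) (n : Fin t → ℕ) :
    ¬ π i ∣ ∏ k ∈ Finset.univ.erase i, π k ^ n k := by
  have hp := (hI (π i) (hpp i)).2.2.2.2.2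
  rw [hp.dvd_finset_prod_iff]
  rintro ⟨k, hk, h⟩
  exact not_dvd_of_ne hI hpp hinj (Finset.ne_of_mem_erase hk) (hp.dvd_of_dvd_pow h)

theorem ind_one (hI : StInd) {π : E} (hpp : PP π) : ind π 1 = 0 := by
  have hp := (hI π hpp).2.2.2.2.2
  have h1 : ¬ π ∣ 1 := fun h => hp.not_unit (isUnit_of_dvd_one h)
  have h2 := (hI π hpp).2.1 1 1 h1 h1
  rw [one_mul] at h2
  exact left_eq_add.mp h2

theorem ind_pow (hI : StInd) {π z : E} (hpp : PP π) (hz : ¬ π ∣ z) (n : ℕ) :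
    ind π (z ^ n) = n * ind π z := by
  have hp := (hI π hpp).2.2.2.2.2
  induction n with
  | zero => simp [ind_one hI hpp]
  | succ n ih =>
    rw [pow_succ, (hI π hpp).2.1 _ _ (fun h => hz (hp.dvd_of_dvd_pow h)) hz, ih]
    push_cast
    ring

theorem ind_prod (hI : StInd) {π : E} (hpp : PP π) {ι : Type*} (s : Finset ι) (z : ι → E)
    (n : ι → ℕ) (hz : ∀ i ∈ s, ¬ π ∣ z i) :
    ind π (∏ i ∈ s, z i ^ n i) = ∑ i ∈ s, (n i : ZMod 3) * ind π (z i) := by
  classical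
  have hp := (hI π hpp).2.2.2.2.2
  induction s using Finset.induction_on with
  | empty => simp [ind_one hI hpp]
  | insert a s ha ih =>
    rw [Finset.prod_insert ha, Finset.sum_insert ha,
      (hI π hpp).2.1 _ _ (fun h => hz a (Finset.mem_insert_self a s) (hp.dvd_of_dvd_pow h)),
      ind_pow hI hpp (hz a (Finset.mem_insert_self a s)),
      ih fun i hi => hz i (Finset.mem_insert_of_mem hi)]
    rw [hp.dvd_finset_prod_iff]
    rintro ⟨i, hi, h⟩
    exact hz i (Finset.mem_insert_of_mem hi) (hp.dvd_of_dvd_pow h)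

theorem prd_split {t : ℕ} (π : Fin t → E) (n : Fin t → ℕ) (i : Fin t) :
    ∏ k, π k ^ n k = π i ^ n i * ∏ k ∈ Finset.univ.erase i, π k ^ n k :=
  (Finset.mul_prod_erase Finset.univ (fun k => π k ^ n k) (Finset.mem_univ i)).symm

theorem prd_three {t : ℕ} {π : Fin t → E} (hpp : ∀ i, PP (π i)) (n : Fin t → ℕ) :
    (3 : E) ∣ ∏ k, π k ^ n k - 1 :=
  three_dvd_prod _ _ fun i _ => three_dvd_pow (pp_dvd (hpp i)) _

theorem conj_eq {L : Type u} [Field L] {r : ℤ} {φ : GK L → ℤ_[3]} (hφ : φ ∈ Z1 L 3 r)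
    {k : GK L} (hk : twist L 3 r k = 1) (h0 : φ k = 0) (g : GK L) : φ (k⁻¹ * g * k) = φ g := by
  have h1 := hφ.2
  have h2 : φ 1 = 0 := by
    have := h1 1 1
    rw [mul_one, twist_one, one_mul] at this
    exact left_eq_add.mp this
  have h3 : φ k⁻¹ = 0 := by
    have := h1 k k⁻¹
    rw [mul_inv_cancel, h2, h0, hk] at this
    simpa using this.symm
  have h4 : twist L 3 r k⁻¹ = 1 := by
    have := twist_mul L 3 r k k⁻¹
    rw [mul_inv_cancel, twist_one, hk, one_mul] at this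
    exact this.symm
  rw [h1, h1, h3, h4, h0]
  ring

theorem cj3 {L : Type u} [Field L] {σ : L ≃+* L}
    {s : AlgebraicClosure L ≃+* AlgebraicClosure L} (hs : Ext σ s) {k : GK L}
    (hk : ∀ y, k y = s (s (s y))) (g : GK L) : cj hs (cj hs (cj hs g)) = k⁻¹ * g * k := by
  refine AlgEquiv.ext fun y => ?_
  have h1 : ∀ z, k⁻¹ z = s.symm (s.symm (s.symm z)) := by
    intro z
    apply k.injective
    have : k (k⁻¹ z) = z := AlgEquiv.apply_symm_apply k z
    rw [this, hk]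
    simp
  rw [AlgEquiv.mul_apply, AlgEquiv.mul_apply, h1, hk]
  simp only [cj_apply]

theorem cyc_k {L : Type u} [Field L] {s : AlgebraicClosure L ≃+* AlgebraicClosure L}
    (hs : cyclotomicCharacter (AlgebraicClosure L) 3 s = 1) {k : GK L}
    (hk : ∀ y, k y = s (s (s y))) (r : ℤ) : twist L 3 r k = 1 := by
  have h1 : MulSemiringAction.toRingAut (GK L) (AlgebraicClosure L) k = s * s * s := by
    refine RingEquiv.ext fun y => ?_
    rw [RingAut.mul_apply, RingAut.mul_apply, ← hk]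
    rfl
  have h2 : cyc L 3 k = 1 := by
    unfold cyc
    rw [MonoidHom.comp_apply, h1, map_mul, map_mul, hs]
    simp
  simp [twist, h2]

theorem exists_k {L : Type u} [Field L] {σ : L ≃+* L}
    {s : AlgebraicClosure L ≃+* AlgebraicClosure L} (hs : Ext σ s)
    (hσ : ∀ y, σ (σ (σ y)) = y) : ∃ k : GK L, ∀ y, k y = s (s (s y)) := by
  refine ⟨AlgEquiv.ofRingEquiv (f := (s.trans s).trans s) ?_, fun y => rfl⟩
  intro y
  simp only [RingEquiv.trans_apply]
  rw [hs, hs, hs, hσ]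

theorem csq {n : ℕ} (h : n = 1 ∨ n = 2) : (n : ZMod 3) * (n : ZMod 3) = 1 := by
  rcases h with rfl | rfl <;> decide

end MainA

open MainA in
theorem stA (hI : StInd) (hKap : StKap) (hNcu : StNcu) (hCfg : StCfg.{u}) (hH90 : StH90.{u})
    (hUn3 : StUn3.{u}) (hRam : StRam.{u}) (hUnr : StUnr.{u}) (hFac : StFac.{u})
    (hThr : StThr.{u}) (hTam : StTam.{u}) (hTau : StTau.{u}) (hMur : StMur.{u})
    (hCub : StCub.{u}) (hCyl : StCyl.{u}) (hTst : StTst.{u}) (hDiv : StDiv.{u})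
    (hTor : StTor.{u}) (hChn : StChn.{u}) (hInv : StInv.{u}) (hNrr : StNrr.{u}) : StA.{u} := by
  intro L _ _ w x t π c M hP hw hx hd h9 r hr hne
  have h3 : (3 : E) ∣ M - 1 := by
    rw [hP.hM]
    exact prd_three hP.pp c
  obtain ⟨F, _, _, _, w', x', σ, hC, hw', hx'⟩ :=
    hCfg L w x M hw hx hd (hNcu t π c M hP)
  have hU := hUn3 F L w' x' σ M hC h3 h9
  have hσ3 := (hH90 F L w' x' σ M hC).1
  -- the ramified primes
  have hR : ∀ i : Fin t, ∃ (q : HeightOneSpectrum (𝓞 F)) (v : HeightOneSpectrum (𝓞 L)),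
      Ram F L w' x' σ (π i) (c i) q v := fun i =>
    hRam F L w' x' σ M hC (π i) (∏ k ∈ Finset.univ.erase i, π k ^ c k) (c i) (hP.pp i) (hP.hc i)
      (by rw [hP.hM]; exact prd_split π c i) (not_dvd_prod hI hP.pp hP.inj i c)
  choose q v hqv using hR
  have hT : ∀ i : Fin t, ∃ (τ : AlgebraicClosure L ≃+* AlgebraicClosure L)
      (Q : Ideal (𝓞 (AlgebraicClosure L))), InrQ (σ : L ≃+* L) (v i) τ Q := fun i =>
    hTau L (σ : L ≃+* L) (v i) (hqv i).inr
  choose τ Q hτ using hT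
  set i0 : Fin t := ⟨0, hP.ht⟩ with hi0
  set s := τ i0 with hs0
  have hs : Ext (σ : L ≃+* L) s := (hτ i0).ext
  obtain ⟨k, hk⟩ := exists_k hs (fun y => hσ3 y)
  have hcs : cyclotomicCharacter (AlgebraicClosure L) 3 s = 1 :=
    (hMur L _ (v i0) s (Q i0) (hτ i0) (hqv i0).n3).2
  have hvS : v i0 ∉ S3 L := (hqv i0).n3
  have hk0 : ∀ φ ∈ ShaZ L 3 r (S3 L), φ k = 0 := fun φ hφ =>
    hCub L _ (v i0) s (Q i0) (hτ i0) k hk r (S3 L) hvS φ hφ.1
  have hkt : twist L 3 r k = 1 := cyc_k hcs hk r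
  have hT3 : ∀ φ ∈ ShaZ L 3 r (S3 L), ∀ g, φ (cj hs (cj hs (cj hs g))) = φ g := fun φ hφ g => by
    rw [cj3 hs hk]
    exact conj_eq hφ.1.1 hkt (hk0 φ hφ) g
  have hne' : ∃ φ ∈ ShaZ L 3 r (S3 L), ¬ ∃ y : ℤ_[3], ∀ g, φ g = (twist L 3 r g - 1) * y := by
    by_contra hcon
    push Not at hcon
    exact hne ((Sha1_eq_bot_iff L 3 r (S3 L)).mpr fun φ hφ => hcon φ hφ)
  obtain ⟨θ, hθ, hθ1, hθ2⟩ := hChn (GK L) (twist L 3 r) (cj hs) (ShaZ L 3 r (S3 L))
    (hCyl L w hw r).1 (hTst L w hw hU σ s hs r).1 (hTst L w hw hU σ s hs r).2 hT3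
    (hDiv L w hw hU r) (hTor L w hw r hr)
    (fun φ hφ h => hInv F L w' x' σ M hC h3 h9 t π c hP q v hqv τ Q hτ i0 hs r hr φ hφ h) hne'
  obtain ⟨a, δ, ha, hδ, hN, hcub, hva, hla⟩ :=
    hNrr F L w' x' σ M hC hU s hs k hk r θ hθ (hk0 θ hθ) hθ1 hθ2
  -- factorisation of `a`
  have hwF : (w' : F) ^ 2 + (w' : F) + 1 = 0 := by
    have := congrArg (fun z : 𝓞 F => (z : F)) hC.hw
    simpa using this
  have hcq : ∀ q' : HeightOneSpectrum (𝓞 F), (3 : 𝓞 F) ∉ q'.asIdeal →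
      (∀ k, ev w' (π k) ∉ q'.asIdeal) → Cub q' a := by
    intro q' h1 h2
    refine hUnr F L w' x' σ M hC q' h1 ?_ a hva
    rw [hP.hM, ← evH_apply w' hC.hw, map_prod]
    intro h4
    obtain ⟨i, _, hi⟩ := (q'.isPrime.prod_mem_iff).mp h4
    rw [map_pow] at hi
    exact h2 i (q'.isPrime.mem_of_pow_mem _ hi)
  obtain ⟨i, j, e, g, hi, hj, he, hg, hag⟩ := hFac F w' hC.hF hC.hw t π hP.pp hP.inj a ha hcq
  obtain ⟨v3, hv3⟩ := exists_prime_above L 3
  have hv3' : v3 ∈ S3 L := by simpa [S3] using hv3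
  obtain ⟨rfl, rfl, k0, hk03, hk09⟩ := hThr F L w' x' σ M hC h3 h9 v3 hv3' a g i j (∏ k, π k ^ e k)
    ha hg hi hj (prd_three hP.pp e) hag (hla v3 hv3')
  rw [pow_zero, pow_zero, one_mul, one_mul] at hag
  obtain ⟨n, hn⟩ : ∃ n, n = 3 - k0 := ⟨_, rfl⟩
  have hn3 : k0 + n = 3 := by omega
  obtain ⟨e', he'⟩ : ∃ e' : Fin t → ℕ, e' = fun i => e i + c i * n := ⟨_, rfl⟩
  have hprod : ∏ k, π k ^ e' k = (∏ k, π k ^ e k) * M ^ n := by
    rw [hP.hM, he', ← Finset.prod_pow, ← Finset.prod_mul_distrib]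
    refine Finset.prod_congr rfl fun k _ => ?_
    rw [pow_add, pow_mul]
  have h99 : (9 : E) ∣ ∏ k, π k ^ e' k - 1 := by
    rw [hprod]
    have h1 : (∏ k, π k ^ e k) * M ^ n - 1 =
        ((∏ k, π k ^ e k) - M ^ k0) * M ^ n + (M ^ 3 - 1) := by
      rw [← hn3, pow_add]
      ring
    rw [h1]
    exact dvd_add (hk09.mul_right _) (nine_dvd_cube h3)
  have hkap := (hKap.1 t π e' fun i => ⟨(hP.pp i).re, (hP.pp i).im⟩).mp h99
  -- the norm equation
  obtain ⟨W, hW⟩ : ∃ W : L, W = algebraMap F L (w' : F) := ⟨_, rfl⟩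
  have hW3 : W ^ 3 = 1 := by
    have h1 : W ^ 2 + W + 1 = 0 := by
      have := congrArg (algebraMap F L) hwF
      simpa [hW] using this
    linear_combination (W - 1) * h1
  have hσW : σ W = W := by rw [hW, σ.commutes]
  have hσx : σ (x' : L) = W * (x' : L) := by rw [hW]; exact hC.hσ
  have hx3 : (x' : L) ≠ 0 := by
    intro h0
    have h1 := hC.hx
    rw [h0] at h1
    have h2 : M = 0 := by
      by_contra hM0
      have h4 := hNcu t π c M hP
      have h5 : ev (w' : F) M = 0 := by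
        have : algebraMap F L (ev (w' : F) M) = 0 := by rw [← h1]; simp
        exact (map_eq_zero _).mp this
      have h6 : ev (w' : F) (M * star M) = 0 := by
        rw [← evH_apply (w' : F) hwF, map_mul, evH_apply, h5, zero_mul]
      have h7 : M * star M = ((nm M : ℕ) : E) := by
        ext
        · simp only [QuadraticAlgebra.re_mul, QuadraticAlgebra.re_star, QuadraticAlgebra.im_star,
            QuadraticAlgebra.re_natCast, nm]
          rw [Int.natCast_natAbs, abs_of_nonneg (by nlinarith [sq_nonneg (M.re - M.im), sq_nonneg M.re, sq_nonneg M.im])]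
          ring
        · simp only [QuadraticAlgebra.im_mul, QuadraticAlgebra.re_star, QuadraticAlgebra.im_star,
            QuadraticAlgebra.im_natCast]
          ring
      rw [h7] at h6
      have h8 : (nm M : F) = 0 := by
        simpa [ev] using h6
      have h9 : nm M = 0 := by exact_mod_cast h8
      apply hM0
      unfold nm at h9
      rw [Int.natAbs_eq_zero] at h9
      have h10 : M.re = 0 ∧ M.im = 0 := by
        constructor <;> nlinarith [sq_nonneg (M.re - M.im), sq_nonneg M.re, sq_nonneg M.im,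
          sq_nonneg (2 * M.re - M.im), sq_nonneg (2 * M.im - M.re)]
      ext
      · exact h10.1
      · exact h10.2
    exact hNcu t π c M hP 0 1 (by decide) (by rw [h2]; simp)
  have hev : a * ev (w' : F) M ^ n = ev (w' : F) (∏ k, π k ^ e' k) * g ^ 3 := by
    rw [hag, hprod, ← evH_apply (w' : F) hwF, ← evH_apply (w' : F) hwF, ← evH_apply (w' : F) hwF,
      map_mul, map_pow]
    ring
  have hδ' : (δ * (x' : L) ^ n) * σ (δ * (x' : L) ^ n) * σ (σ (δ * (x' : L) ^ n)) =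
      algebraMap F L (ev (w' : F) (∏ k, π k ^ e' k) * g ^ 3) := by
    rw [← hev, (algebraMap F L).map_mul, ← hN, (algebraMap F L).map_pow, ← hC.hx]
    simp only [map_mul, map_pow, hσx, hσW]
    have : (W * (W * (x' : L))) ^ n * (W * (x' : L)) ^ n * (x' : L) ^ n = ((x' : L) ^ 3) ^ n := by
      rw [← mul_pow, ← mul_pow]
      congr 1
      linear_combination (x' : L) ^ 3 * hW3
    linear_combination (δ * σ δ * σ (σ δ)) * this
  have hδ0 : δ * (x' : L) ^ n ≠ 0 := mul_ne_zero hδ (pow_ne_zero _ hx3)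
  refine ⟨fun i => (e' i : ZMod 3) * (c i : ZMod 3), ?_, ?_, ?_⟩
  · -- not constant
    by_contra hcon
    push Not at hcon
    obtain ⟨m0, hm0⟩ : ∃ m0 : ℕ, ∀ i, (e' i : ZMod 3) = (m0 : ZMod 3) * (c i : ZMod 3) := by
      refine ⟨((e' i0 : ZMod 3) * (c i0 : ZMod 3)).val, fun i => ?_⟩
      rw [ZMod.natCast_val, ZMod.cast_id, ← hcon i i0, mul_assoc, csq (hP.hc i), mul_one]
    have hf : ∀ i, ∃ f : ℕ, e' i + 2 * m0 * c i = 3 * f := by
      intro i
      have h1 : ((e' i + 2 * m0 * c i : ℕ) : ZMod 3) = 0 := by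
        push_cast
        rw [hm0 i]
        have : (3 : ZMod 3) = 0 := by decide
        linear_combination (m0 : ZMod 3) * (c i : ZMod 3) * this
      exact (ZMod.natCast_eq_zero_iff _ _).mp h1
    choose f hf using hf
    have h1 : (∏ k, π k ^ e' k) * M ^ (2 * m0) = (∏ k, π k ^ f k) ^ 3 := by
      rw [hP.hM, ← Finset.prod_pow, ← Finset.prod_pow, ← Finset.prod_mul_distrib]
      refine Finset.prod_congr rfl fun k _ => ?_
      rw [← pow_mul, ← pow_mul, ← pow_add]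
      congr 1
      have := hf k
      linarith
    have h2 : a * ev (w' : F) M ^ (n + 2 * m0) = (ev (w' : F) (∏ k, π k ^ f k) * g) ^ 3 := by
      rw [pow_add, ← mul_assoc, hev, mul_pow, ← evH_apply (w' : F) hwF, ← evH_apply (w' : F) hwF,
        ← evH_apply (w' : F) hwF, ← map_pow, ← map_pow, ← h1, map_mul]
      ring
    have h4 := congrArg (algebraMap F L) h2
    rw [(algebraMap F L).map_mul, (algebraMap F L).map_pow, (algebraMap F L).map_pow,
      ← hC.hx] at h4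
    refine hcub (algebraMap F L (ev (w' : F) (∏ k, π k ^ f k) * g) / (x' : L) ^ (n + 2 * m0)) ?_
    rw [div_pow, ← h4]
    have h5 : ((x' : L) ^ (n + 2 * m0)) ^ 3 = ((x' : L) ^ 3) ^ (n + 2 * m0) := by
      rw [← pow_mul, ← pow_mul, mul_comm]
    rw [h5, mul_div_assoc, div_self (pow_ne_zero _ (pow_ne_zero _ hx3)), mul_one]
  · rw [← hkap]
    refine Finset.sum_congr rfl fun i _ => ?_
    rw [mul_assoc, csq (hP.hc i), mul_one]
  · intro k
    have h1 := hTam F L w' x' σ M hC (π k) (∏ i ∈ Finset.univ.erase k, π i ^ c i)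
      (∏ i ∈ Finset.univ.erase k, π i ^ e' i) (c k) (e' k) (q k) (v k) (hP.pp k) (hP.hc k)
      (by rw [hP.hM]; exact prd_split π c k) (not_dvd_prod hI hP.pp hP.inj k c)
      (not_dvd_prod hI hP.pp hP.inj k e') (hqv k) (δ * (x' : L) ^ n) g hδ0 hg
      (by rw [hδ', prd_split π e' k])
    rw [ind_prod hI (hP.pp k), ind_prod hI (hP.pp k), Finset.mul_sum, Finset.mul_sum,
      ← Finset.sum_sub_distrib] at h1
    · rw [← Finset.add_sum_erase Finset.univ _ (Finset.mem_univ k), ← h1]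
      rw [sub_self, mul_zero, zero_mul, zero_add]
      refine Finset.sum_congr rfl fun i _ => ?_
      have h2 := csq (hP.hc i)
      have h3 := csq (hP.hc k)
      linear_combination ((c k : ZMod 3) * e' i * ind (π k) (π i)) * h2 -
        ((c i : ZMod 3) * e' k * ind (π k) (π i)) * h3
    · intro i hi
      exact not_dvd_of_ne hI hP.pp hP.inj (Finset.ne_of_mem_erase hi)
    · intro i hi
      exact not_dvd_of_ne hI hP.pp hP.inj (Finset.ne_of_mem_erase hi)

end Pool.Agent.Work.MP_59f3ad_nt.Q3
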