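import Mathlib
import Pool.Agent.Work.MP_59f3ad_nt.Q3.MainA

/-!
Assembly of Theorem B of block Q3: the count.
-/

open NumberField IsDedekindDomain

namespace Pool.Agent.Work.MP_59f3ad_nt.Q3

universe u

/-- The norms of the `π i` are different and Schneider's conjecture holds at `3` for all twists
`r ≠ 0` for the fields of degree `6` generated by a primitive cube root of unity `w` and a cube root
of `∏ π_i^{c_i}`. -/
def Good {t : ℕ} (c : Fin t → ℕ) (π : Fin t → E) : Prop :=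
  (∀ i k, nm (π i) = nm (π k) → i = k) ∧
  ∀ (L : Type u) [Field L] [NumberField L] (w x : L), w ^ 2 + w + 1 = 0 →
    x ^ 3 = ∏ i, ev w (π i) ^ c i → Module.finrank ℚ L = 6 → ∀ r : ℤ, r ≠ 0 →
    Sha1 L 3 r (S3 L) = ⊥

open Classical in
/-- Theorem B. -/
def StB : Prop := ∀ (t : ℕ) (c : Fin t → ℕ), (∀ i, c i = 1 ∨ c i = 2) → ∀ ε : ℝ, 0 < ε →
  ∃ X0 : ℕ, ∀ X : ℕ, X0 ≤ X → ∀ (P : Fin t → Finset E) (A : Fin t → E),
  (∀ i, ∀ z ∈ P i, PP z ∧ nm z ≤ X ∧ (9 : E) ∣ z - A i) →
  (∀ i, (X : ℝ) ^ (19 / 20 : ℝ) ≤ (P i).card) → ¬ (9 : E) ∣ ∏ i, A i ^ c i - 1 →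
  (((Fintype.piFinset P).filter (fun π => ¬ Good.{u} c π)).card : ℝ) ≤
      (1 / 2 + ε) * ∏ i, ((P i).card : ℝ) ∧
  ((∃ i j, (kap (A i)).1 * (kap (A j)).2 - (kap (A i)).2 * (kap (A j)).1 ≠ 0) →
    (((Fintype.piFinset P).filter (fun π => ¬ Good.{u} c π)).card : ℝ) ≤
      (1 / 6 + ε) * ∏ i, ((P i).card : ℝ))

namespace MainB

theorem sy_eq (hRec : StRec) {t : ℕ} {π : Fin t → E} (hpp : ∀ i, PP (π i))
    (hinj : ∀ i k, nm (π i) = nm (π k) → i = k) (i k : Fin t) (hik : i ≠ k) :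
    sy π i k = ind (π k) (π i) := by
  unfold sy
  split_ifs with h
  · exact hRec _ _ (hpp i) (hpp k) fun h' => hik (hinj i k h')
  · rfl

theorem neg_mem {t : ℕ} {κ : Fin t → ZMod 3 × ZMod 3} {c : Fin t → ℕ} {h : Fin t → ZMod 3}
    (h1 : ∑ i, (h i * (c i : ZMod 3)) • κ i = 0) :
    ∑ i, ((-h) i * (c i : ZMod 3)) • κ i = 0 := by
  simp only [Pi.neg_apply, neg_mul, neg_smul, Finset.sum_neg_distrib, h1, neg_zero]

/-- Double counting with a factor `2`. -/
theorem double {α β : Type*} [DecidableEq α] (S : Finset α) (H : Finset β) (R : α → β → Prop)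
    [∀ a, DecidablePred (R a)] (W : Finset α) (hW : W ⊆ S)
    (h2 : ∀ a ∈ W, ∃ b1 ∈ H, ∃ b2 ∈ H, b1 ≠ b2 ∧ R a b1 ∧ R a b2) :
    2 * W.card ≤ ∑ b ∈ H, (S.filter fun a => R a b).card := by
  classical
  have h3 : ∑ b ∈ H, (S.filter fun a => R a b).card = ∑ a ∈ S, (H.filter fun b => R a b).card := by
    simp only [Finset.card_filter]
    exact Finset.sum_comm
  rw [h3]
  calc 2 * W.card = ∑ a ∈ W, 2 := by rw [Finset.sum_const, smul_eq_mul, mul_comm]
    _ ≤ ∑ a ∈ W, (H.filter fun b => R a b).card := by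
        refine Finset.sum_le_sum fun a ha => ?_
        obtain ⟨b1, hb1, b2, hb2, hne, hR1, hR2⟩ := h2 a ha
        have : ({b1, b2} : Finset β) ⊆ H.filter fun b => R a b := by
          intro b hb
          rw [Finset.mem_insert, Finset.mem_singleton] at hb
          rw [Finset.mem_filter]
          rcases hb with rfl | rfl
          · exact ⟨hb1, hR1⟩
          · exact ⟨hb2, hR2⟩
        rw [← Finset.card_pair hne]
        exact Finset.card_le_card this
    _ ≤ ∑ a ∈ S, (H.filter fun b => R a b).card :=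
        Finset.sum_le_sum_of_subset hW

end MainB

open MainB in
theorem stB (hA : StA.{u}) (hRec : StRec) (hFmo : StFmo) (hCnh : StCnh) (hEqn : StEqn)
    (hKap : StKap) : StB.{u} := by
  classical
  intro t c hc ε hε
  have h3t : (0 : ℝ) < 3 ^ t := by positivity
  obtain ⟨X1, hX1⟩ := hFmo t c hc (ε / 3 ^ t) (by positivity)
  obtain ⟨X2, hX2⟩ := hEqn t (ε / 2) (by positivity)
  refine ⟨max (max X1 X2) 1, fun X hX P A hPA hcard h9 => ?_⟩
  have hXX1 : X1 ≤ X := (le_max_left _ _).trans ((le_max_left _ _).trans hX)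
  have hXX2 : X2 ≤ X := (le_max_right _ _).trans ((le_max_left _ _).trans hX)
  have hX1' : 1 ≤ X := (le_max_right _ _).trans hX
  have hne : ∀ i, (P i).Nonempty := by
    intro i
    rw [← Finset.card_pos]
    have h1 : (0 : ℝ) < (X : ℝ) ^ (19 / 20 : ℝ) := by
      apply Real.rpow_pos_of_pos
      exact_mod_cast hX1'
    exact_mod_cast h1.trans_le (hcard i)
  have hpp : ∀ i, ∀ z ∈ P i, PP z := fun i z hz => (hPA i z hz).1
  have hA3 : ∀ i, (3 : ℤ) ∣ (A i).re - 1 ∧ (3 : ℤ) ∣ (A i).im := by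
    intro i
    obtain ⟨z, hz⟩ := hne i
    obtain ⟨hz1, _, y, hy⟩ := hPA i z hz
    have hre := congrArg QuadraticAlgebra.re hy
    have him := congrArg QuadraticAlgebra.im hy
    simp [QuadraticAlgebra.re_ofNat, QuadraticAlgebra.im_ofNat] at hre him
    have h1 := hz1.re
    have h2 := hz1.im
    constructor <;> omega
  have hkap : ∀ i, ∀ z ∈ P i, kap z = kap (A i) := fun i z hz =>
    hKap.2 z (A i) (hpp i z hz).re (hpp i z hz).im (hPA i z hz).2.2
  have hκ : ∑ i, (c i : ZMod 3) • kap (A i) ≠ 0 := fun h =>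
    h9 ((hKap.1 t A c hA3).mpr h)
  obtain ⟨hN1, hN2⟩ := hCnh t c (fun i => kap (A i)) hc hκ
  have ht : 1 ≤ t := by
    rcases Nat.eq_zero_or_pos t with rfl | h
    · exact absurd (by simp) h9
    · exact h
  set H : Finset (Fin t → ZMod 3) := Finset.univ.filter (fun h => (∃ i k, h i ≠ h k) ∧
    ∑ i, (h i * (c i : ZMod 3)) • kap (A i) = 0) with hH
  set Pi0 : ℝ := ∏ i, ((P i).card : ℝ) with hPi0
  have hPi : 0 ≤ Pi0 := Finset.prod_nonneg fun i _ => Nat.cast_nonneg _
  set S := Fintype.piFinset P with hS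
  set B := S.filter (fun π => ¬ Good.{u} c π) with hB
  set B1 := S.filter (fun π => ∃ i k, i ≠ k ∧ nm (π i) = nm (π k)) with hB1
  set B2 := B.filter (fun π => ∀ i k, nm (π i) = nm (π k) → i = k) with hB2
  have hBle : B.card ≤ B1.card + B2.card := by
    refine (Finset.card_le_card ?_).trans (Finset.card_union_le _ _)
    intro π hπ
    rw [Finset.mem_union]
    by_cases h : ∀ i k, nm (π i) = nm (π k) → i = k
    · right
      exact Finset.mem_filter.mpr ⟨hπ, h⟩
    · left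
      push Not at h
      obtain ⟨i, k, h1, h2⟩ := h
      exact Finset.mem_filter.mpr ⟨(Finset.mem_filter.mp hπ).1, i, k, h2, h1⟩
  have hB1c : (B1.card : ℝ) ≤ ε / 2 * Pi0 := hX2 X hXX2 P hpp hcard
  let R : (Fin t → E) → (Fin t → ZMod 3) → Prop := fun π h => ∀ k,
    ∑ i, (c i : ZMod 3) * (c k : ZMod 3) * (h i - h k) * sy π i k = 0
  have hdb : 2 * B2.card ≤ ∑ h ∈ H, (S.filter fun π => R π h).card := by
    refine double S H R B2 ((Finset.filter_subset _ _).trans (Finset.filter_subset _ _)) ?_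
    intro π hπ
    obtain ⟨hπB, hinj⟩ := Finset.mem_filter.mp hπ
    obtain ⟨hπS, hbad⟩ := Finset.mem_filter.mp hπB
    have hmem : ∀ i, π i ∈ P i := fun i => Fintype.mem_piFinset.mp hπS i
    have hppi : ∀ i, PP (π i) := fun i => hpp i _ (hmem i)
    have hex : ∃ (L : Type u) (_ : Field L) (_ : NumberField L) (w x : L), w ^ 2 + w + 1 = 0 ∧
        x ^ 3 = ∏ i, ev w (π i) ^ c i ∧ Module.finrank ℚ L = 6 ∧ ∃ r : ℤ, r ≠ 0 ∧
        Sha1 L 3 r (S3 L) ≠ ⊥ := by
      by_contra hcon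
      apply hbad
      refine ⟨hinj, fun L _ _ w x hw hx hd r hr => ?_⟩
      by_contra hne
      exact hcon ⟨L, _, _, w, x, hw, hx, hd, r, hr, hne⟩
    obtain ⟨L, _, _, w, x, hw, hx, hd, r, hr, hSha⟩ := hex
    have hP : Prd t π c (∏ i, π i ^ c i) := ⟨ht, hppi, hinj, hc, rfl⟩
    have hx' : x ^ 3 = ev w (∏ i, π i ^ c i) := by
      rw [hx, ← evH_apply w hw, map_prod]
      refine Finset.prod_congr rfl fun i _ => ?_
      rw [map_pow, evH_apply]
    have hk2 : ∀ i, kap (π i) = kap (A i) := fun i => hkap i _ (hmem i)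
    have h9' : ¬ (9 : E) ∣ (∏ i, π i ^ c i) - 1 := by
      rw [hKap.1 t π c fun i => ⟨(hppi i).re, (hppi i).im⟩]
      simp only [hk2]
      exact hκ
    obtain ⟨h, ⟨i1, k1, hik⟩, hsum, hsy⟩ := hA L w x t π c _ hP hw hx' hd h9' r hr hSha
    simp only [hk2] at hsum
    have hRh : R π h := by
      intro k
      rw [← hsy k]
      refine Finset.sum_congr rfl fun i _ => ?_
      by_cases hik' : i = k
      · rw [hik', sub_self, mul_zero, zero_mul, zero_mul]
      · rw [sy_eq hRec hppi hinj i k hik']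
    have hRn : R π (-h) := by
      intro k
      have := hRh k
      rw [← neg_eq_zero, ← Finset.sum_neg_distrib]
      rw [← this]
      refine Finset.sum_congr rfl fun i _ => ?_
      simp only [Pi.neg_apply]
      ring
    refine ⟨h, Finset.mem_filter.mpr ⟨Finset.mem_univ _, ⟨i1, k1, hik⟩, hsum⟩, -h,
      Finset.mem_filter.mpr ⟨Finset.mem_univ _, ⟨i1, k1, ?_⟩, neg_mem hsum⟩, ?_, hRh, hRn⟩
    · simpa using hik
    · intro heq
      apply hik
      have hz : ∀ i, h i = 0 := by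
        intro i
        have h1 := congrFun heq i
        rw [Pi.neg_apply] at h1
        have h2 : (2 : ZMod 3) * h i = 0 := by linear_combination h1
        have h3 : (2 : ZMod 3) * 2 = 1 := by decide
        have h4 : h i = 2 * (2 * h i) := by linear_combination (-h i) * h3
        rw [h4, h2, mul_zero]
      rw [hz, hz]
  have hsum : ((∑ h ∈ H, (S.filter fun π => R π h).card : ℕ) : ℝ) ≤
      H.card * ((3 / 3 ^ t + ε / 3 ^ t) * Pi0) := by
    push_cast
    rw [← nsmul_eq_mul, ← Finset.sum_const]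
    refine Finset.sum_le_sum fun h hh => ?_
    exact hX1 X hXX1 P (fun i z hz => ⟨hpp i z hz, (hPA i z hz).2.1.trans (by omega)⟩) hcard h
      (Finset.mem_filter.mp hh).2.1
  have hB2c : (2 : ℝ) * B2.card ≤ H.card * ((3 / 3 ^ t + ε / 3 ^ t) * Pi0) := by
    refine le_trans ?_ hsum
    exact_mod_cast hdb
  have hH1 : (H.card : ℝ) * 3 ≤ 3 ^ t := by
    have : H.card * 3 ≤ 3 ^ t := le_trans (by nlinarith) hN1
    exact_mod_cast this
  have key : ∀ q : ℝ, 0 ≤ q → (H.card : ℝ) * 3 ≤ q * 3 ^ t → q ≤ 1 →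
      (B.card : ℝ) ≤ (q / 2 + ε) * Pi0 := by
    intro q hq0 hq hq1
    have h1 : (B.card : ℝ) ≤ B1.card + B2.card := by exact_mod_cast hBle
    have h2 : (H.card : ℝ) * ((3 / 3 ^ t + ε / 3 ^ t) * Pi0) ≤ (q + ε) * Pi0 := by
      have h4 : (H.card : ℝ) * (3 / 3 ^ t + ε / 3 ^ t) ≤ q + ε := by
        have h5 : (H.card : ℝ) * (3 / 3 ^ t) ≤ q := by
          rw [← mul_div_assoc, div_le_iff₀ h3t]
          exact hq
        have h6 : (H.card : ℝ) * (ε / 3 ^ t) ≤ ε := by
          rw [← mul_div_assoc, div_le_iff₀ h3t]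
          nlinarith
        linarith
      nlinarith [mul_le_mul_of_nonneg_right h4 hPi]
    nlinarith
  constructor
  · have := key 1 zero_le_one (by linarith) le_rfl
    exact this
  · intro hsp
    have h1 := hN2 hsp
    have h2 : (H.card : ℝ) * 9 ≤ 3 ^ t := by
      have : H.card * 9 ≤ 3 ^ t := le_trans (by nlinarith) h1
      exact_mod_cast this
    have h3 := key (1 / 3) (by norm_num) (by linarith) (by norm_num)
    have h4 : ((1 / 3 : ℝ) / 2 + ε) = 1 / 6 + ε := by ring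
    rw [h4] at h3
    exact h3

end Pool.Agent.Work.MP_59f3ad_nt.Q3
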