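import Mathlib
import Pool.Agent.Work.MP_59f3ad_nt.Q3.MainB
import Pool.Agent.Work.MP_59f3ad_nt.Q3.I_Rho
import Pool.Agent.Work.MP_59f3ad_nt.Q3.I_Ind
import Pool.Agent.Work.MP_59f3ad_nt.Q3.I_Str
import Pool.Agent.Work.MP_59f3ad_nt.Q3.I_Chr
import Pool.Agent.Work.MP_59f3ad_nt.Q3.I_Jac
import Pool.Agent.Work.MP_59f3ad_nt.Q3.I_RcA
import Pool.Agent.Work.MP_59f3ad_nt.Q3.I_Rec
import Pool.Agent.Work.MP_59f3ad_nt.Q3.I_Per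
import Pool.Agent.Work.MP_59f3ad_nt.Q3.I_Box
import Pool.Agent.Work.MP_59f3ad_nt.Q3.I_Dua
import Pool.Agent.Work.MP_59f3ad_nt.Q3.I_UF
import Pool.Agent.Work.MP_59f3ad_nt.Q3.I_Rep
import Pool.Agent.Work.MP_59f3ad_nt.Q3.I_Bil
import Pool.Agent.Work.MP_59f3ad_nt.Q3.I_Blt
import Pool.Agent.Work.MP_59f3ad_nt.Q3.I_Fmo
import Pool.Agent.Work.MP_59f3ad_nt.Q3.I_Cnh
import Pool.Agent.Work.MP_59f3ad_nt.Q3.I_Eqn
import Pool.Agent.Work.MP_59f3ad_nt.Q3.I_Kap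
import Pool.Agent.Work.MP_59f3ad_nt.Q3.I_Iso
import Pool.Agent.Work.MP_59f3ad_nt.Q3.I_Ncu
import Pool.Agent.Work.MP_59f3ad_nt.Q3.I_Cfg
import Pool.Agent.Work.MP_59f3ad_nt.Q3.I_H90
import Pool.Agent.Work.MP_59f3ad_nt.Q3.I_Kmr
import Pool.Agent.Work.MP_59f3ad_nt.Q3.I_Un3
import Pool.Agent.Work.MP_59f3ad_nt.Q3.I_Ram
import Pool.Agent.Work.MP_59f3ad_nt.Q3.I_Unr
import Pool.Agent.Work.MP_59f3ad_nt.Q3.I_Fac
import Pool.Agent.Work.MP_59f3ad_nt.Q3.I_Thr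
import Pool.Agent.Work.MP_59f3ad_nt.Q3.I_Tam
import Pool.Agent.Work.MP_59f3ad_nt.Q3.I_Tau
import Pool.Agent.Work.MP_59f3ad_nt.Q3.I_Mur
import Pool.Agent.Work.MP_59f3ad_nt.Q3.I_Rtt
import Pool.Agent.Work.MP_59f3ad_nt.Q3.I_Fix
import Pool.Agent.Work.MP_59f3ad_nt.Q3.I_Cub
import Pool.Agent.Work.MP_59f3ad_nt.Q3.I_Smu
import Pool.Agent.Work.MP_59f3ad_nt.Q3.I_Slo
import Pool.Agent.Work.MP_59f3ad_nt.Q3.I_Inf
import Pool.Agent.Work.MP_59f3ad_nt.Q3.I_Cyl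
import Pool.Agent.Work.MP_59f3ad_nt.Q3.I_Tst
import Pool.Agent.Work.MP_59f3ad_nt.Q3.I_Div
import Pool.Agent.Work.MP_59f3ad_nt.Q3.I_Tor
import Pool.Agent.Work.MP_59f3ad_nt.Q3.I_Kmm
import Pool.Agent.Work.MP_59f3ad_nt.Q3.I_Gkk
import Pool.Agent.Work.MP_59f3ad_nt.Q3.I_Vsg
import Pool.Agent.Work.MP_59f3ad_nt.Q3.I_Chn
import Pool.Agent.Work.MP_59f3ad_nt.Q3.I_Inv
import Pool.Agent.Work.MP_59f3ad_nt.Q3.I_Nrr

/-!
All items of block Q3 together.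
-/

namespace Pool.Agent.Work.MP_59f3ad_nt.Q3

universe u

namespace Fin

theorem Ind : StInd := pr_Ind pr_Rho
theorem Str : StStr := pr_Str pr_Rho Ind
theorem Chr : StChr := pr_Chr pr_Rho Ind
theorem Jac : StJac := pr_Jac pr_Rho Ind
theorem RcA : StRcA := pr_RcA pr_Rho Ind Chr Jac
theorem Rec : StRec := pr_Rec pr_Rho Ind Str RcA
theorem Per : StPer := pr_Per pr_Rho Ind
theorem Box : StBox := pr_Box Per
theorem Dua : StDua := pr_Dua Box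
theorem UF : StUF := pr_UF Ind
theorem Rep : StRep := pr_Rep UF
theorem Bil : StBil := pr_Bil Ind Dua Rep
theorem Blt : StBlt := pr_Blt Bil
theorem Fmo : StFmo := pr_Fmo Blt
theorem Eqn : StEqn := pr_Eqn Ind Str
theorem Ram : StRam.{u} := pr_Ram pr_Iso pr_Rho Ind
theorem Fac : StFac.{u} := pr_Fac pr_Iso Ind
theorem Thr : StThr.{u} := pr_Thr pr_Iso pr_Un3 pr_H90
theorem Tam : StTam.{u} := pr_Tam pr_Iso Ind
theorem Cub : StCub.{u} := pr_Cub pr_Fix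
theorem Slo : StSlo.{u} := pr_Slo pr_Vsg
theorem Tst : StTst.{u} := pr_Tst pr_Smu Slo pr_Inf
theorem Div : StDiv.{u} := pr_Div pr_Cyl pr_Inf
theorem Tor : StTor.{u} := pr_Tor pr_Cyl
theorem Kmm : StKmm.{u} := pr_Kmm pr_Cyl
theorem Nrr : StNrr.{u} := pr_Nrr Kmm pr_H90 pr_Vsg
theorem Inv : StInv.{u} := pr_Inv Kmm pr_H90 pr_Gkk Cub pr_Mur pr_Rtt pr_Unr Fac Thr pr_Cyl
theorem A : StA.{u} := stA Ind pr_Kap pr_Ncu pr_Cfg pr_H90 pr_Un3 Ram pr_Unr Fac Thr Tam pr_Tau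
  pr_Mur Cub pr_Cyl Tst Div Tor pr_Chn Inv Nrr
theorem B : StB.{u} := stB A Rec Fmo pr_Cnh Eqn pr_Kap

end Fin

end Pool.Agent.Work.MP_59f3ad_nt.Q3
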