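import Mathlib
import Pool.Agent.Work.MP_59f3ad_nt.Q3.StmtsG

/-!
# Item Thr of block Q3: the local condition at 3
-/

set_option autoImplicit false

open NumberField IsDedekindDomain

namespace Pool.Agent.Work.MP_59f3ad_nt.Q3

universe u

namespace IThr

section val
variable {L : Type*} [Field L] {Γ : Type*} [LinearOrderedCommGroupWithZero Γ] (A : Valuation L Γ)

theorem near_one {t : Γ} (ht : t < 1) {p : L} (h : A (p - 1) ≤ t) : A p = 1 := by
  have h1 : A (p - 1) < 1 := h.trans_lt ht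
  have h2 := A.map_one_add_of_lt h1
  rwa [add_sub_cancel] at h2

theorem near_ne {t : Γ} (ht : t < 1) {p : L} (h : A (p - 1) ≤ t) : p ≠ 0 := by
  intro h0
  have := near_one A ht h
  rw [h0, map_zero] at this
  exact zero_ne_one this

theorem near_mul {t : Γ} (ht : t < 1) {p q : L} (hp : A (p - 1) ≤ t) (hq : A (q - 1) ≤ t) :
    A (p * q - 1) ≤ t := by
  have e : p * q - 1 = (p - 1) * q + (q - 1) := by ring
  rw [e]
  refine (A.map_add _ _).trans (max_le ?_ hq)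
  rw [map_mul, near_one A ht hq, mul_one]
  exact hp

theorem near_div {t : Γ} (ht : t < 1) {p q : L} (hp : A (p - 1) ≤ t) (hq : A (q - 1) ≤ t) :
    A (p / q - 1) ≤ t := by
  have hq0 := near_ne A ht hq
  have e : p / q - 1 = ((p - 1) - (q - 1)) / q := by
    field_simp
    ring
  rw [e, map_div₀, near_one A ht hq, div_one]
  exact (A.map_sub _ _).trans (max_le hp hq)

theorem near_pow {t : Γ} (ht : t < 1) {p : L} (hp : A (p - 1) ≤ t) (n : ℕ) :
    A (p ^ n - 1) ≤ t := by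
  induction n with
  | zero => simp
  | succ n ih =>
    rw [pow_succ]
    exact near_mul A ht ih hp

theorem three {c a b d : Γ} (h1 : c ≤ max a b) (h2 : c ≤ max a d) (h3 : c ≤ max b d) :
    a * c ^ 2 ≤ a * b * d ∨ b * c ^ 2 ≤ a * b * d ∨ d * c ^ 2 ≤ a * b * d := by
  rcases le_or_gt c a with ha | ha
  · rcases le_or_gt c b with hb | hb
    · right; right
      calc d * c ^ 2 = c * c * d := by rw [sq]; ac_rfl
        _ ≤ a * b * d := mul_le_mul_left (mul_le_mul' ha hb) d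
    · have hd : c ≤ d := by
        rcases le_max_iff.1 h3 with h | h
        · exact absurd h (not_le.2 hb)
        · exact h
      right; left
      calc b * c ^ 2 = c * b * c := by rw [sq]; ac_rfl
        _ ≤ a * b * d := mul_le_mul' (mul_le_mul_left ha b) hd
  · have hb : c ≤ b := by
      rcases le_max_iff.1 h1 with h | h
      · exact absurd h (not_le.2 ha)
      · exact h
    have hd : c ≤ d := by
      rcases le_max_iff.1 h2 with h | h
      · exact absurd h (not_le.2 ha)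
      · exact h
    left
    calc a * c ^ 2 = a * c * c := by rw [sq]; ac_rfl
      _ ≤ a * b * d := mul_le_mul' (mul_le_mul_right hb a) hd

theorem W3 {W : L} (hW : W ^ 2 + W + 1 = 0) : W ^ 3 = 1 := by
  linear_combination (W - 1) * hW

theorem root {W : L} (hW : W ^ 2 + W + 1 = 0) (hAW : A W = 1) (ρ : L) :
    ∃ k : ℕ, k < 3 ∧ A (ρ - W ^ k) * A (1 - W) ^ 2 ≤ A (ρ ^ 3 - 1) := by
  have h3 := W3 hW
  have hfac : ρ ^ 3 - 1 = (ρ - W ^ 0) * (ρ - W ^ 1) * (ρ - W ^ 2) := by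
    linear_combination (ρ ^ 2 - ρ) * hW + (1 - ρ) * h3
  have h01 : A (1 - W) ≤ max (A (ρ - W ^ 0)) (A (ρ - W ^ 1)) := by
    have e : 1 - W = (ρ - W ^ 1) - (ρ - W ^ 0) := by ring
    rw [e, max_comm]
    exact A.map_sub _ _
  have h02 : A (1 - W) ≤ max (A (ρ - W ^ 0)) (A (ρ - W ^ 2)) := by
    have e : A (1 - W) = A ((ρ - W ^ 2) - (ρ - W ^ 0)) := by
      have e1 : (ρ - W ^ 2) - (ρ - W ^ 0) = (1 - W) * (-W ^ 2) := by
        linear_combination (-1 : L) * h3
      rw [e1, map_mul, Valuation.map_neg, map_pow, hAW, one_pow, mul_one]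
    rw [e, max_comm]
    exact A.map_sub _ _
  have h12 : A (1 - W) ≤ max (A (ρ - W ^ 1)) (A (ρ - W ^ 2)) := by
    have e : A (1 - W) = A ((ρ - W ^ 2) - (ρ - W ^ 1)) := by
      have e1 : (ρ - W ^ 2) - (ρ - W ^ 1) = (1 - W) * W := by ring
      rw [e1, map_mul, hAW, mul_one]
    rw [e, max_comm]
    exact A.map_sub _ _
  rw [hfac, map_mul, map_mul]
  rcases three h01 h02 h12 with h | h | h
  · exact ⟨0, by norm_num, h⟩
  · exact ⟨1, by norm_num, h⟩
  · exact ⟨2, by norm_num, h⟩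

theorem approx {W x a l : L} (σ : L ≃+* L) (hσA : ∀ y, A (σ y) = A y)
    (hσ3 : ∀ y, σ (σ (σ y)) = y) (hW : W ^ 2 + W + 1 = 0) (hAW : A W = 1) (hσW : σ W = W)
    (hσx : σ x = W * x) (hx0 : x ≠ 0) (hσa : σ a = a) (hl : l ≠ 0) {c : Γ}
    (hc : A (1 - W) = c) (hc0 : c ≠ 0) (hc1 : c < 1) (h30 : (3 : L) ≠ 0)
    (hal : A (a / l ^ 3 - 1) ≤ c ^ 8) :
    ∃ k : ℕ, k < 3 ∧ ∃ y : L, σ y = y ∧ y ≠ 0 ∧ A (a / (y ^ 3 * (x ^ 3) ^ k) - 1) ≤ c ^ 4 := by
  have hW3 := W3 hW
  have hW0 : W ≠ 0 := by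
    intro h
    rw [h] at hW3
    norm_num at hW3
  have hpow : ∀ n : ℕ, n ≠ 0 → c ^ n < 1 := fun n hn => pow_lt_one₀ (zero_le) hc1 hn
  have h3c : A 3 = c ^ 2 := by
    have e : (1 - W) ^ 2 = 3 * (-W) := by linear_combination hW
    rw [← hc, ← map_pow, e, map_mul, Valuation.map_neg, hAW, mul_one]
  have hσl : σ l ≠ 0 := (map_ne_zero_iff σ σ.injective).2 hl
  have hp' : A (σ (a / l ^ 3) - 1) ≤ c ^ 8 := by
    have e : σ (a / l ^ 3) - 1 = σ (a / l ^ 3 - 1) := by rw [map_sub, map_one]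
    rw [e, hσA]
    exact hal
  have hρ3 : A ((σ l / l) ^ 3 - 1) ≤ c ^ 8 := by
    have ha : a ≠ 0 := by
      intro h
      have := near_ne A (hpow 8 (by norm_num)) hal
      rw [h, zero_div] at this
      exact this rfl
    have e : (σ l / l) ^ 3 = (a / l ^ 3) / σ (a / l ^ 3) := by
      rw [map_div₀, map_pow, hσa]
      field_simp
    rw [e]
    exact near_div A (hpow 8 (by norm_num)) hal hp'
  obtain ⟨k, hk, hroot⟩ := root A hW hAW (σ l / l)
  rw [hc] at hroot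
  have h6 : A (σ l / l - W ^ k) ≤ c ^ 6 := by
    have h1 : A (σ l / l - W ^ k) * c ^ 2 ≤ c ^ 6 * c ^ 2 := by
      rw [← pow_add]
      exact hroot.trans hρ3
    exact le_of_mul_le_mul_right h1 (zero_lt_iff.2 (pow_ne_zero 2 hc0))
  have hWk : W ^ (3 * k) = 1 := by rw [pow_mul, hW3, one_pow]
  -- the normalised ratio
  obtain ⟨ρ, hρ⟩ : ∃ ρ : L, ρ = W ^ (2 * k) * (σ l / l) := ⟨_, rfl⟩
  have hρ1 : A (ρ - 1) ≤ c ^ 6 := by
    have e : ρ - 1 = W ^ (2 * k) * (σ l / l - W ^ k) := by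
      rw [hρ, mul_sub, ← pow_add, show 2 * k + k = 3 * k by ring, hWk]
    rw [e, map_mul, map_pow, hAW, one_pow, one_mul]
    exact h6
  have hρ2 : A (σ ρ - 1) ≤ c ^ 6 := by
    have e : σ ρ - 1 = σ (ρ - 1) := by rw [map_sub, map_one]
    rw [e, hσA]
    exact hρ1
  have hρ12 := near_mul A (hpow 6 (by norm_num)) hρ1 hρ2
  obtain ⟨r, hr⟩ : ∃ r : L, r = l + W ^ (2 * k) * σ l + W ^ (4 * k) * σ (σ l) := ⟨_, rfl⟩
  have hW4 : W ^ (4 * k) = W ^ k := by
    rw [show 4 * k = 3 * k + k by ring, pow_add, hWk, one_mul]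
  have hrl : r / l = 1 + ρ + ρ * σ ρ := by
    rw [hr, hρ, map_mul, map_pow, hσW, map_div₀, show 4 * k = 2 * k + 2 * k by ring, pow_add]
    field_simp
  have hq : A (r / (3 * l) - 1) ≤ c ^ 4 := by
    have e : r / (3 * l) - 1 = ((ρ - 1) + (ρ * σ ρ - 1)) / 3 := by
      have e1 : r / (3 * l) = (r / l) / 3 := by
        field_simp
      rw [e1, hrl]
      field_simp
      ring
    rw [e, map_div₀, h3c]
    rw [div_le_iff₀ (zero_lt_iff.2 (pow_ne_zero 2 hc0)), ← pow_add]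
    exact (A.map_add _ _).trans (max_le hρ1 hρ12)
  have hσr : σ r = W ^ k * r := by
    rw [hr]
    simp only [map_add, map_mul, map_pow, hσW, hσ3]
    rw [hW4]
    have e1 : W ^ k * (l + W ^ (2 * k) * σ l + W ^ k * σ (σ l)) =
        W ^ k * l + W ^ (3 * k) * σ l + W ^ (2 * k) * σ (σ l) := by
      rw [show 3 * k = k + 2 * k by ring, show 2 * k = k + k by ring]
      simp only [pow_add]
      ring
    rw [e1, hWk]
    ring
  have hr0 : r ≠ 0 := by
    intro h
    have := near_ne A (hpow 4 (by norm_num)) hq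
    rw [h, zero_div] at this
    exact this rfl
  refine ⟨k, hk, r / (3 * x ^ k), ?_, ?_, ?_⟩
  · rw [map_div₀, hσr, map_mul, map_pow, hσx, map_ofNat, mul_pow]
    have : W ^ k ≠ 0 := pow_ne_zero k hW0
    have hxk : x ^ k ≠ 0 := pow_ne_zero k hx0
    field_simp
  · exact div_ne_zero hr0 (mul_ne_zero h30 (pow_ne_zero k hx0))
  · have e : a / ((r / (3 * x ^ k)) ^ 3 * (x ^ 3) ^ k) = (a / l ^ 3) / (r / (3 * l)) ^ 3 := by
      rw [← pow_mul, mul_comm 3 k, pow_mul]
      have hxk : x ^ k ≠ 0 := pow_ne_zero k hx0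
      field_simp
    rw [e]
    refine near_div A (hpow 4 (by norm_num)) (hal.trans ?_)
      (near_pow A (hpow 4 (by norm_num)) hq 3)
    exact pow_le_pow_right_of_le_one' hc1.le (by norm_num)

end val
/-- the integral norm -/
def nz (z : E) : ℤ := z.re ^ 2 - z.re * z.im + z.im ^ 2

/-- the conjugate -/
def cj (z : E) : E := ⟨z.re - z.im, -z.im⟩

/-- `ω` -/
def om : E := ⟨0, 1⟩

/-- `1 - ω` -/
def lam : E := ⟨1, -1⟩

theorem cast_re (n : ℤ) : ((n : E)).re = n := by simp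
theorem cast_im (n : ℤ) : ((n : E)).im = 0 := by simp

theorem mul_cj (z : E) : z * cj z = ((nz z : ℤ) : E) := by
  apply QuadraticAlgebra.ext
  · rw [cast_re]
    simp only [QuadraticAlgebra.re_mul, cj, nz]
    ring
  · rw [cast_im]
    simp only [QuadraticAlgebra.im_mul, cj]
    ring

theorem nz_mul (z z' : E) : nz (z * z') = nz z * nz z' := by
  simp only [nz, QuadraticAlgebra.re_mul, QuadraticAlgebra.im_mul]
  ring

theorem nz_one : nz 1 = 1 := by simp [nz, QuadraticAlgebra.re_one, QuadraticAlgebra.im_one]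

theorem nz_pow (z : E) (n : ℕ) : nz (z ^ n) = nz z ^ n := by
  induction n with
  | zero => simp [nz_one]
  | succ n ih => rw [pow_succ, nz_mul, ih, pow_succ]

theorem nz_lam : nz lam = 3 := by simp [nz, lam]

theorem nz_om : nz om = 1 := by simp [nz, om]

theorem nz_eq_zero {z : E} (h : nz z = 0) : z = 0 := by
  have h1 : (2 * z.re - z.im) ^ 2 + 3 * z.im ^ 2 = 0 := by
    unfold nz at h
    linear_combination 4 * h
  have h2 : z.im = 0 := by
    have : z.im ^ 2 = 0 := by nlinarith [sq_nonneg (2 * z.re - z.im), sq_nonneg z.im]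
    exact pow_eq_zero_iff (two_ne_zero) |>.1 this
  have h3 : z.re = 0 := by
    unfold nz at h
    rw [h2] at h
    have : z.re ^ 2 = 0 := by linarith
    exact pow_eq_zero_iff (two_ne_zero) |>.1 this
  exact QuadraticAlgebra.ext h3 h2

theorem nz_nonneg (z : E) : 0 ≤ nz z := by
  unfold nz
  nlinarith [sq_nonneg (2 * z.re - z.im), sq_nonneg z.im]

theorem dvd_iff (n : ℤ) (z : E) : (n : E) ∣ z ↔ n ∣ z.re ∧ n ∣ z.im := by
  constructor
  · rintro ⟨y, rfl⟩
    constructor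
    · refine ⟨y.re, ?_⟩
      rw [QuadraticAlgebra.re_mul, cast_re, cast_im]
      ring
    · refine ⟨y.im, ?_⟩
      rw [QuadraticAlgebra.im_mul, cast_re, cast_im]
      ring
  · rintro ⟨⟨a, ha⟩, ⟨b, hb⟩⟩
    refine ⟨⟨a, b⟩, ?_⟩
    apply QuadraticAlgebra.ext
    · rw [QuadraticAlgebra.re_mul, cast_re, cast_im, ha]
      ring
    · rw [QuadraticAlgebra.im_mul, cast_re, cast_im, hb]
      ring

theorem lam_dvd {z : E} (h : (3 : ℤ) ∣ nz z) : lam ∣ z := by
  have h1 : (3 : ℤ) ∣ z.re + z.im := by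
    have h2 : (3 : ℤ) ∣ (z.re + z.im) ^ 2 := by
      have e : (z.re + z.im) ^ 2 = nz z + 3 * (z.re * z.im) := by
        unfold nz
        ring
      rw [e]
      exact dvd_add h (dvd_mul_right _ _)
    exact Int.prime_three.dvd_of_dvd_pow h2
  obtain ⟨t, ht⟩ := h1
  refine ⟨⟨z.re - t, t⟩, ?_⟩
  apply QuadraticAlgebra.ext
  · simp only [QuadraticAlgebra.re_mul, lam]
    ring
  · simp only [QuadraticAlgebra.im_mul, lam]
    linarith

theorem decomp : ∀ (n : ℕ) (z : E), z ≠ 0 → (nz z).natAbs ≤ n →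
    ∃ (s : ℕ) (z0 : E), z = lam ^ s * z0 ∧ ¬ (3 : ℤ) ∣ nz z0 := by
  intro n
  induction n with
  | zero =>
    intro z hz hn
    exfalso
    have : nz z = 0 := by omega
    exact hz (nz_eq_zero this)
  | succ n ih =>
    intro z hz hn
    by_cases h : (3 : ℤ) ∣ nz z
    · obtain ⟨y, hy⟩ := lam_dvd h
      have hy0 : y ≠ 0 := by
        rintro rfl
        exact hz (by rw [hy, mul_zero])
      have hyn : nz z = 3 * nz y := by rw [hy, nz_mul, nz_lam]
      have hy1 : nz y ≠ 0 := fun h0 => hy0 (nz_eq_zero h0)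
      have hy2 := nz_nonneg y
      obtain ⟨s, z0, h1, h2⟩ := ih y hy0 (by omega)
      exact ⟨s + 1, z0, by rw [hy, h1, pow_succ]; ring, h2⟩
    · exact ⟨0, z, by rw [pow_zero, one_mul], h⟩

theorem cube (z : E) (h : ¬ (3 : ℤ) ∣ nz z) :
    ∃ s : ℤ, (s = 1 ∨ s = -1) ∧ (9 : ℤ) ∣ (z ^ 3).re - s ∧ (9 : ℤ) ∣ (z ^ 3).im := by
  have key : ∀ a b : ZMod 9, 3 * (a ^ 2 - a * b + b ^ 2) ≠ 0 →
      (a ^ 3 + b ^ 3 - 3 * a * b ^ 2 = 1 ∨ a ^ 3 + b ^ 3 - 3 * a * b ^ 2 = -1) ∧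
      3 * a ^ 2 * b - 3 * a * b ^ 2 = 0 := by decide
  have hre : (z ^ 3).re = z.re ^ 3 + z.im ^ 3 - 3 * z.re * z.im ^ 2 := by
    rw [pow_succ, pow_two]
    simp only [QuadraticAlgebra.re_mul, QuadraticAlgebra.im_mul]
    ring
  have him : (z ^ 3).im = 3 * z.re ^ 2 * z.im - 3 * z.re * z.im ^ 2 := by
    rw [pow_succ, pow_two]
    simp only [QuadraticAlgebra.re_mul, QuadraticAlgebra.im_mul]
    ring
  have h1 : (3 : ZMod 9) * ((z.re : ZMod 9) ^ 2 - z.re * z.im + (z.im : ZMod 9) ^ 2) ≠ 0 := by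
    intro h2
    apply h
    have h3 : ((3 * nz z : ℤ) : ZMod 9) = 0 := by
      unfold nz
      push_cast
      exact h2
    have h4 : (9 : ℤ) ∣ 3 * nz z := (ZMod.intCast_zmod_eq_zero_iff_dvd _ 9).1 h3
    omega
  obtain ⟨h5, h6⟩ := key _ _ h1
  have h7 : (9 : ℤ) ∣ (z ^ 3).im := by
    rw [him]
    refine (ZMod.intCast_zmod_eq_zero_iff_dvd _ 9).1 ?_
    push_cast
    exact h6
  rcases h5 with h5 | h5
  · refine ⟨1, Or.inl rfl, ?_, h7⟩
    rw [hre]
    refine (ZMod.intCast_zmod_eq_zero_iff_dvd _ 9).1 ?_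
    push_cast
    rw [h5]
    ring
  · refine ⟨-1, Or.inr rfl, ?_, h7⟩
    rw [hre]
    refine (ZMod.intCast_zmod_eq_zero_iff_dvd _ 9).1 ?_
    push_cast
    rw [h5]
    ring

/-- multiplication by an element prime to `1 - ω` does not change divisibility by `9` -/
theorem dvd_cancel {d X : E} (hd : ¬ (3 : ℤ) ∣ nz d) (h : ((9 : ℤ) : E) ∣ d * X) :
    ((9 : ℤ) : E) ∣ X := by
  have h1 : ((9 : ℤ) : E) ∣ ((nz d : ℤ) : E) * X := by
    rw [← mul_cj]
    have e : d * cj d * X = cj d * (d * X) := by ring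
    rw [e]
    exact h.mul_left _
  rw [dvd_iff] at h1 ⊢
  rw [QuadraticAlgebra.re_mul, QuadraticAlgebra.im_mul, cast_re, cast_im] at h1
  have hco : IsCoprime (9 : ℤ) (nz d) := by
    have h3 : IsCoprime (3 : ℤ) (nz d) := (Int.prime_three.coprime_iff_not_dvd).2 hd
    have h4 : IsCoprime ((3 : ℤ) ^ 2) (nz d) := h3.pow_left
    norm_num at h4
    exact h4
  obtain ⟨h2, h3⟩ := h1
  constructor
  · refine hco.dvd_of_dvd_mul_left ?_
    have e : nz d * X.re + -1 * 0 * X.im = nz d * X.re := by ring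
    rw [e] at h2
    exact h2
  · refine hco.dvd_of_dvd_mul_left ?_
    have e : nz d * X.im + 0 * X.re + -1 * 0 * X.im = nz d * X.im := by ring
    rw [e] at h3
    exact h3


theorem nine_cast : ((9 : ℤ) : E) = 9 := by norm_num
theorem three_cast : ((3 : ℤ) : E) = 3 := by norm_num

theorem cube' (z : E) (h : ¬ (3 : ℤ) ∣ nz z) :
    ∃ s : ℤ, (s = 1 ∨ s = -1) ∧ (9 : E) ∣ z ^ 3 - (s : E) := by
  obtain ⟨s, hs, h1, h2⟩ := cube z h
  refine ⟨s, hs, ?_⟩
  rw [← nine_cast, dvd_iff]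
  constructor
  · rw [QuadraticAlgebra.re_sub, cast_re]
    exact h1
  · rw [QuadraticAlgebra.im_sub, cast_im, sub_zero]
    exact h2

theorem fin {N M d0 z0 : E} {i k : ℕ} (hi : i < 3) (hN : (3 : E) ∣ N - 1) (hM : (3 : E) ∣ M - 1)
    (hd0 : ¬ (3 : ℤ) ∣ nz d0) (hz0 : ¬ (3 : ℤ) ∣ nz z0)
    (h : (9 : E) ∣ om ^ i * N * d0 ^ 3 - M ^ k * z0 ^ 3) : i = 0 ∧ (9 : E) ∣ N - M ^ k := by
  obtain ⟨s1, hs1, h1⟩ := cube' d0 hd0
  obtain ⟨s2, hs2, h2⟩ := cube' z0 hz0
  have hs11 : (s1 : E) * (s1 : E) = 1 := by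
    rcases hs1 with rfl | rfl <;> norm_num
  have h3 : (9 : E) ∣ om ^ i * N - M ^ k * ((s1 * s2 : ℤ) : E) := by
    have e : om ^ i * N - M ^ k * ((s1 * s2 : ℤ) : E) =
        (s1 : E) * (om ^ i * N * d0 ^ 3 - M ^ k * z0 ^ 3) -
        (s1 : E) * (om ^ i * N) * (d0 ^ 3 - (s1 : E)) +
        (s1 : E) * M ^ k * (z0 ^ 3 - (s2 : E)) := by
      push_cast
      linear_combination (-(om ^ i * N)) * hs11
    rw [e]
    exact dvd_add (dvd_sub (h.mul_left _) (h1.mul_left _)) (h2.mul_left _)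
  have hMk : (3 : E) ∣ M ^ k - 1 := hM.trans (sub_one_dvd_pow_sub_one M k)
  have h39 : (3 : E) ∣ 9 := ⟨3, by norm_num⟩
  obtain ⟨s, hsdef⟩ : ∃ s : ℤ, s = s1 * s2 := ⟨_, rfl⟩
  rw [← hsdef] at h3
  have hs : s = 1 ∨ s = -1 := by
    rcases hs1 with rfl | rfl <;> rcases hs2 with rfl | rfl <;> simp [hsdef]
  have h4 : (3 : E) ∣ om ^ i - (s : E) := by
    have e : om ^ i - (s : E) = (om ^ i * N - M ^ k * (s : E)) - om ^ i * (N - 1) +
        (s : E) * (M ^ k - 1) := by ring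
    rw [e]
    exact dvd_add (dvd_sub (h39.trans h3) (hN.mul_left _)) (hMk.mul_left _)
  rw [← three_cast, dvd_iff, QuadraticAlgebra.re_sub, QuadraticAlgebra.im_sub, cast_re,
    cast_im] at h4
  interval_cases i
  · have h5 : s = 1 := by
      rcases hs with rfl | rfl
      · rfl
      · exfalso
        have := h4.1
        rw [pow_zero, QuadraticAlgebra.re_one] at this
        omega
    refine ⟨rfl, ?_⟩
    rw [h5] at h3
    simpa using h3
  · exfalso
    have := h4.2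
    rw [pow_one] at this
    simp only [om] at this
    omega
  · exfalso
    have := h4.2
    rw [pow_two, QuadraticAlgebra.im_mul] at this
    simp only [om] at this
    omega


theorem pow3 {a b : ℕ} {u u' : ℤ} (hu : ¬ (3 : ℤ) ∣ u) (hu' : ¬ (3 : ℤ) ∣ u')
    (h : 3 ^ a * u = 3 ^ b * u') : a = b := by
  rcases lt_trichotomy a b with hab | hab | hab
  · exfalso
    obtain ⟨t, rfl⟩ := Nat.exists_eq_add_of_lt hab
    apply hu
    have h1 : (3 : ℤ) ^ a * u = 3 ^ a * (3 * (3 ^ t * u')) := by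
      rw [h]
      ring
    exact ⟨_, mul_left_cancel₀ (pow_ne_zero a (by norm_num)) h1⟩
  · exact hab
  · exfalso
    obtain ⟨t, rfl⟩ := Nat.exists_eq_add_of_lt hab
    apply hu'
    have h1 : (3 : ℤ) ^ b * u' = 3 ^ b * (3 * (3 ^ t * u)) := by
      rw [← h]
      ring
    exact ⟨_, mul_left_cancel₀ (pow_ne_zero b (by norm_num)) h1⟩

theorem unit_of_one {N : E} (hN : (3 : E) ∣ N - 1) : ¬ (3 : ℤ) ∣ nz N := by
  rw [← three_cast, dvd_iff, QuadraticAlgebra.re_sub, QuadraticAlgebra.im_sub,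
    QuadraticAlgebra.re_one, QuadraticAlgebra.im_one, sub_zero] at hN
  obtain ⟨⟨a, ha⟩, ⟨b, hb⟩⟩ := hN
  intro h
  have e : nz N = 1 + 3 * (2 * a + 3 * a ^ 2 - b - 3 * a * b + 3 * b ^ 2) := by
    unfold nz
    rw [show N.re = 1 + 3 * a by linarith, hb]
    ring
  rw [e] at h
  omega

theorem unit_add {d z : E} (hd : ¬ (3 : ℤ) ∣ nz d) : ¬ (3 : ℤ) ∣ nz (d + 9 * z) := by
  intro h
  apply hd
  have hre : (d + 9 * z).re = d.re + 9 * z.re := by
    rw [← nine_cast, QuadraticAlgebra.re_add, QuadraticAlgebra.re_mul, cast_re, cast_im]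
    ring
  have him : (d + 9 * z).im = d.im + 9 * z.im := by
    rw [← nine_cast, QuadraticAlgebra.im_add, QuadraticAlgebra.im_mul, cast_re, cast_im]
    ring
  have e : nz d = nz (d + 9 * z) - 3 * (3 * (2 * d.re * z.re + 9 * z.re ^ 2 - d.re * z.im -
      d.im * z.re - 9 * z.re * z.im + 2 * d.im * z.im + 9 * z.im ^ 2)) := by
    unfold nz
    rw [hre, him]
    ring
  rw [e]
  exact dvd_sub h (dvd_mul_right _ _)

theorem final {i j k : ℕ} (hi : i < 3) (hj : j < 3) {N M z2 d2 z1 d1 : E} (hN : (3 : E) ∣ N - 1)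
    (hM : (3 : E) ∣ M - 1) (hz2 : z2 ≠ 0) (hd2 : d2 ≠ 0) (hd1 : ¬ (3 : ℤ) ∣ nz d1)
    (heq : om ^ i * lam ^ j * N * d2 ^ 3 * d1 = z2 ^ 3 * M ^ k * (d1 + 9 * z1)) :
    i = 0 ∧ j = 0 ∧ (9 : E) ∣ N - M ^ k := by
  obtain ⟨s, z0, rfl, hz0⟩ := decomp _ z2 hz2 le_rfl
  obtain ⟨s', d0, rfl, hd0⟩ := decomp _ d2 hd2 le_rfl
  have h3 : Prime (3 : ℤ) := Int.prime_three
  have hN3 := unit_of_one hN
  have hM3 := unit_of_one hM
  have hD := unit_add (z := z1) hd1
  have h1 := congrArg nz heq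
  simp only [nz_mul, nz_pow, nz_lam, nz_om, one_pow, one_mul] at h1
  have h2 : 3 ^ (j + 3 * s') * (nz N * nz d0 ^ 3 * nz d1) =
      3 ^ (3 * s) * (nz z0 ^ 3 * nz M ^ k * nz (d1 + 9 * z1)) := by
    rw [pow_add, pow_mul', pow_mul']
    linear_combination h1
  have h4 : j + 3 * s' = 3 * s := by
    refine pow3 ?_ ?_ h2
    · intro h
      rcases h3.dvd_or_dvd h with h | h
      · rcases h3.dvd_or_dvd h with h | h
        · exact hN3 h
        · exact hd0 (h3.dvd_of_dvd_pow h)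
      · exact hd1 h
    · intro h
      rcases h3.dvd_or_dvd h with h | h
      · rcases h3.dvd_or_dvd h with h | h
        · exact hz0 (h3.dvd_of_dvd_pow h)
        · exact hM3 (h3.dvd_of_dvd_pow h)
      · exact hD h
  have hj0 : j = 0 := by omega
  have hss : s' = s := by omega
  subst hj0
  subst hss
  -- cancel the powers of `1 - ω`
  have h5 : lam ^ (3 * s') * (om ^ i * N * d0 ^ 3 * d1 - z0 ^ 3 * M ^ k * (d1 + 9 * z1)) = 0 := by
    rw [pow_mul']
    linear_combination heq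
  have h6 : om ^ i * N * d0 ^ 3 * d1 - z0 ^ 3 * M ^ k * (d1 + 9 * z1) = 0 := by
    have h7 := congrArg nz h5
    rw [nz_mul, nz_pow, nz_lam] at h7
    have h8 : nz (0 : E) = 0 := by simp [nz]
    rw [h8] at h7
    rcases mul_eq_zero.1 h7 with h | h
    · exact absurd h (pow_ne_zero _ (by norm_num))
    · exact nz_eq_zero h
  have h7 : ((9 : ℤ) : E) ∣ d1 * (om ^ i * N * d0 ^ 3 - M ^ k * z0 ^ 3) := by
    rw [nine_cast]
    refine ⟨z0 ^ 3 * M ^ k * z1, ?_⟩
    linear_combination h6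
  have h8 := dvd_cancel hd1 h7
  rw [nine_cast] at h8
  obtain ⟨h9, h10⟩ := fin hi hN hM hd0 hz0 h8
  exact ⟨h9, rfl, h10⟩

section phi
variable {L : Type*} [Field L] {Γ : Type*} [LinearOrderedCommGroupWithZero Γ] (A : Valuation L Γ)
  {W : L} (hW : W ^ 2 + W + 1 = 0)

theorem phi_lam : evH W hW lam = 1 - W := by
  rw [evH_apply]
  simp [ev, lam]
  ring

theorem phi_om : evH W hW om = W := by
  rw [evH_apply]
  simp [ev, om]

theorem phi_unit (hA1 : ∀ z : E, A (evH W hW z) ≤ 1) (hA3 : A 3 < 1) {z : E}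
    (hz : ¬ (3 : ℤ) ∣ nz z) : A (evH W hW z) = 1 := by
  have h1 : ∃ m : ℤ, nz z ^ 2 = 1 + 3 * m := by
    have h2 : nz z % 3 = 1 ∨ nz z % 3 = 2 := by omega
    have h3 : nz z = 3 * (nz z / 3) + nz z % 3 := by omega
    obtain ⟨q, hq⟩ : ∃ q, q = nz z / 3 := ⟨_, rfl⟩
    rw [← hq] at h3
    rcases h2 with h2 | h2
    · rw [h2] at h3
      exact ⟨3 * q ^ 2 + 2 * q, by rw [h3]; ring⟩
    · rw [h2] at h3
      exact ⟨3 * q ^ 2 + 4 * q + 1, by rw [h3]; ring⟩
  obtain ⟨m, hm⟩ := h1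
  have h4 : A (evH W hW ((nz z ^ 2 : ℤ) : E)) = 1 := by
    refine near_one A hA3 ?_
    rw [hm]
    have e : evH W hW ((1 + 3 * m : ℤ) : E) - 1 = 3 * evH W hW ((m : ℤ) : E) := by
      push_cast
      rw [map_add, map_mul, map_one, map_ofNat]
      ring
    rw [e, map_mul]
    exact mul_le_of_le_one_right' (hA1 _)
  have h5 : A (evH W hW z) * A (evH W hW (cj z)) = 1 := by
    have h6 : A (evH W hW ((nz z : ℤ) : E)) = 1 := by
      have h7 : A (evH W hW ((nz z : ℤ) : E)) ^ 2 = 1 := by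
        rw [← h4]
        push_cast
        rw [map_pow, map_pow]
      rcases lt_trichotomy (A (evH W hW ((nz z : ℤ) : E))) 1 with h8 | h8 | h8
      · exact absurd h7 (pow_lt_one₀ zero_le h8 (by norm_num)).ne
      · exact h8
      · exact absurd h8 (not_lt.2 (hA1 _))
    rw [← h6, ← mul_cj, map_mul, map_mul]
  exact le_antisymm (hA1 z) (by
    rw [← h5]
    exact mul_le_of_le_one_right' (hA1 _))

theorem int_rep (hA1 : ∀ z : E, A (evH W hW z) ≤ 1) (hA3 : A 3 < 1) (hc0 : A (1 - W) ≠ 0)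
    (hc1 : A (1 - W) < 1) {z d : E} (hd : d ≠ 0)
    (h : A (evH W hW z) ≤ A (evH W hW d)) :
    ∃ z' d' : E, ¬ (3 : ℤ) ∣ nz d' ∧ z * d' = z' * d := by
  by_cases hz : z = 0
  · exact ⟨0, 1, by rw [nz_one]; norm_num, by rw [hz]; ring⟩
  obtain ⟨s, z0, rfl, hz0⟩ := decomp _ z hz le_rfl
  obtain ⟨s', d0, rfl, hd0⟩ := decomp _ d hd le_rfl
  rw [map_mul, map_mul, map_mul, map_mul, map_pow, map_pow, map_pow, map_pow,
    phi_unit A hW hA1 hA3 hz0, phi_unit A hW hA1 hA3 hd0, mul_one, mul_one, phi_lam] at h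
  have hs : s' ≤ s := by
    by_contra hlt
    push Not at hlt
    have := pow_lt_pow_right_of_lt_one₀ (zero_lt_iff.2 hc0) hc1 hlt
    exact absurd h (not_le.2 this)
  obtain ⟨t, rfl⟩ := Nat.exists_eq_add_of_le hs
  exact ⟨lam ^ t * z0, d0, hd0, by rw [pow_add]; ring⟩

end phi

section places
variable {M : Type u} [Field M] [NumberField M]

/-- valuations of integers determine each other by divisibility -/
theorem int_eq (v w : HeightOneSpectrum (𝓞 M)) (r s : 𝓞 M)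
    (h : ∀ n : ℕ, r ∈ v.asIdeal ^ n ↔ s ∈ w.asIdeal ^ n) (hr : r ≠ 0) (hs : s ≠ 0) :
    v.intValuation r = w.intValuation s := by
  have h1 := v.intValuation_if_neg hr
  have h2 := w.intValuation_if_neg hs
  set a := (Associates.mk v.asIdeal).count (Associates.mk (Ideal.span {r} : Ideal (𝓞 M))).factors
  set b := (Associates.mk w.asIdeal).count (Associates.mk (Ideal.span {s} : Ideal (𝓞 M))).factors
  have h3 : ∀ n : ℕ, n ≤ a ↔ n ≤ b := by
    intro n
    have h4 := v.intValuation_le_pow_iff_mem r n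
    have h5 := w.intValuation_le_pow_iff_mem s n
    rw [h1, WithZero.exp_le_exp] at h4
    rw [h2, WithZero.exp_le_exp] at h5
    have h6 := h n
    constructor
    · intro h7
      have := h5.2 (h6.1 (h4.1 (by omega)))
      omega
    · intro h7
      have := h4.2 (h6.2 (h5.1 (by omega)))
      omega
  have h4 : a = b := le_antisymm ((h3 a).1 le_rfl) ((h3 b).2 le_rfl)
  rw [h1, h2, h4]

/-- automorphisms permute the places (as in Pex/I_Desc.lean) -/
theorem place_aut (e : M ≃+* M) (w : HeightOneSpectrum (𝓞 M)) :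
    ∃ v : HeightOneSpectrum (𝓞 M), ∀ x : M, v.valuation M x = w.valuation M (e x) := by
  let e' : 𝓞 M ≃+* 𝓞 M := RingOfIntegers.mapRingEquiv e
  let v : HeightOneSpectrum (𝓞 M) := HeightOneSpectrum.comap (e' : 𝓞 M →+* 𝓞 M) e'.surjective w
  have hv : v.asIdeal = w.asIdeal.comap (e' : 𝓞 M →+* 𝓞 M) := rfl
  have h1 : ∀ (r : 𝓞 M) (n : ℕ), r ∈ v.asIdeal ^ n ↔ e' r ∈ w.asIdeal ^ n := by
    intro r n
    rw [hv]
    have h2 : (w.asIdeal.comap (e' : 𝓞 M →+* 𝓞 M)) ^ n =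
        (w.asIdeal ^ n).comap (e' : 𝓞 M →+* 𝓞 M) := by
      have h3 := Ideal.map_symm (I := w.asIdeal) e'
      have h4 := Ideal.map_symm (I := w.asIdeal ^ n) e'
      have h5 := Ideal.map_pow (e'.symm : 𝓞 M →+* 𝓞 M) w.asIdeal n
      change (Ideal.comap e' w.asIdeal) ^ n = Ideal.comap e' (w.asIdeal ^ n)
      rw [← h3, ← h4]
      exact h5.symm
    rw [h2]
    rfl
  have h2 : ∀ r : 𝓞 M, v.intValuation r = w.intValuation (e' r) := by
    intro r
    rcases eq_or_ne r 0 with rfl | hr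
    · simp
    · exact int_eq v w r (e' r) (h1 r) hr ((map_ne_zero_iff e' e'.injective).2 hr)
  have h3 : ∀ r : 𝓞 M, v.valuation M (r : M) = w.valuation M (e (r : M)) := by
    intro r
    have h4 : e (r : M) = ((e' r : 𝓞 M) : M) := rfl
    rw [h4]
    change v.valuation M (algebraMap (𝓞 M) M r) = w.valuation M (algebraMap (𝓞 M) M (e' r))
    rw [HeightOneSpectrum.valuation_of_algebraMap, HeightOneSpectrum.valuation_of_algebraMap, h2]
  refine ⟨v, fun x => ?_⟩
  obtain ⟨r, s, -, rfl⟩ := IsFractionRing.div_surjective (A := 𝓞 M) x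
  have h5 := h3 r
  have h6 := h3 s
  rw [map_div₀, map_div₀, map_div₀]
  exact congrArg₂ (· / ·) h5 h6

theorem val3 (v : HeightOneSpectrum (𝓞 M)) : v.valuation M 3 < 1 ↔ v ∈ S3 M := by
  have h := v.valuation_lt_one_iff_mem (K := M) (3 : 𝓞 M)
  have e : algebraMap (𝓞 M) M 3 = 3 := map_ofNat (algebraMap (𝓞 M) M) 3
  rw [← e]
  exact h

end places

theorem phi_inj {L : Type*} [Field L] [CharZero L] {W : L} (hW : W ^ 2 + W + 1 = 0) {z : E}
    (h : evH W hW z = 0) : z = 0 := by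
  have h1 : evH W hW ((nz z : ℤ) : E) = 0 := by
    rw [← mul_cj, map_mul, h, zero_mul]
  rw [map_intCast] at h1
  exact nz_eq_zero (by exact_mod_cast h1)

end IThr

open IThr in
/-- Item Thr. -/
theorem pr_Thr (h1 : StIso.{u}) (h2 : StUn3.{u}) (h3 : StH90.{u}) : StThr.{u} := by
  intro F L _ _ _ _ _ w x σ M hcfg hM1 hM9 v hv a g i j N ha hg hi hj hN hag hlc
  obtain ⟨W, hWdef⟩ : ∃ W : L, W = algebraMap F L (w : F) := ⟨_, rfl⟩
  have hwF : (w : F) ^ 2 + (w : F) + 1 = 0 := by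
    have := congrArg (fun t : 𝓞 F => (t : F)) hcfg.hw
    simpa using this
  have hW : W ^ 2 + W + 1 = 0 := by
    have := congrArg (algebraMap F L) hwF
    rw [hWdef]
    simpa using this
  obtain ⟨A, hA⟩ : ∃ A : Valuation L (WithZero (Multiplicative ℤ)), A = v.valuation L := ⟨_, rfl⟩
  have hA3 : A 3 < 1 := by
    rw [hA]
    exact (val3 v).2 hv
  have hσA : ∀ y, A ((σ : L ≃+* L) y) = A y := by
    obtain ⟨v', hv'⟩ := place_aut (σ : L ≃+* L) v
    have h4 : v' ∈ S3 L := by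
      rw [← val3, hv', map_ofNat, ← hA]
      exact hA3
    have h5 : v' = v := h2 F L w x σ M hcfg hM1 hM9 v' v h4 hv
    intro y
    rw [hA, ← hv', h5]
  have hphiF : ∀ z : E, algebraMap F L (ev (w : F) z) = evH W hW z := by
    intro z
    rw [evH_apply, hWdef]
    simp [ev]
  have hA1 : ∀ z : E, A (evH W hW z) ≤ 1 := by
    intro z
    have e : evH W hW z = algebraMap (𝓞 L) L (ev (algebraMap (𝓞 F) (𝓞 L) w) z) := by
      rw [evH_apply, hWdef]
      simp only [ev, map_add, map_mul, map_intCast]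
      congr 2
    rw [e, hA]
    exact v.valuation_le_one _
  have hAW : A W = 1 := by
    have h4 : A W ^ 3 = 1 := by rw [← map_pow, W3 hW, map_one]
    have h5 : A W ≤ 1 := by
      rw [← phi_om hW]
      exact hA1 _
    rcases lt_or_eq_of_le h5 with h6 | h6
    · exact absurd h4 (pow_lt_one₀ zero_le h6 (by norm_num)).ne
    · exact h6
  obtain ⟨c, hc⟩ : ∃ c, A (1 - W) = c := ⟨_, rfl⟩
  have hc2 : A 3 = c ^ 2 := by
    have e : (1 - W) ^ 2 = 3 * (-W) := by linear_combination hW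
    rw [← hc, ← map_pow, e, map_mul, Valuation.map_neg, hAW, mul_one]
  have hc0 : c ≠ 0 := by
    intro h
    rw [h] at hc2
    have : (3 : L) = 0 := (Valuation.zero_iff A).1 (by rw [hc2]; simp)
    norm_num at this
  have hc1 : c < 1 := by
    by_contra h
    push Not at h
    have := one_le_pow₀ (n := 2) h
    rw [← hc2] at this
    exact absurd hA3 (not_lt.2 this)
  have h30 : (3 : L) ≠ 0 := by norm_num
  -- the approximation
  obtain ⟨n, hn⟩ : ∃ n : ℕ, WithZero.exp (-(n : ℤ)) ≤ c ^ 8 := by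
    have h4 : c ^ 8 ≠ 0 := pow_ne_zero 8 hc0
    refine ⟨(-(WithZero.log (c ^ 8))).toNat, ?_⟩
    rw [← WithZero.exp_log h4, WithZero.exp_le_exp]
    rw [WithZero.log_exp]
    omega
  obtain ⟨l, hl0, hl⟩ := hlc n
  rw [← hA] at hl
  have hM3 := unit_of_one hM1
  have hx3 : (x : L) ^ 3 = evH W hW M := by
    rw [hcfg.hx, hphiF]
  have hAM : A (evH W hW M) = 1 := phi_unit A hW hA1 hA3 hM3
  have hx0 : (x : L) ≠ 0 := by
    intro h
    rw [h, zero_pow (by norm_num)] at hx3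
    rw [← hx3, map_zero] at hAM
    exact zero_ne_one hAM
  obtain ⟨k, hk, y, hy, hy0, hya⟩ := approx A (W := W) (x := (x : L)) (a := algebraMap F L a)
    (l := l) (σ : L ≃+* L) hσA (h3 F L w x σ M hcfg).1 hW hAW
    (by rw [hWdef]; exact σ.commutes _) (by rw [hWdef]; exact hcfg.hσ) hx0
    (σ.commutes a) hl0 hc hc0 hc1 h30 (hl.trans hn)
  obtain ⟨f, hf⟩ := hcfg.hfix y hy
  have hf0 : f ≠ 0 := by
    rintro rfl
    rw [map_zero] at hf
    exact hy0 hf
  -- representation by elements of `E`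
  have hrep : ∀ b : F, ∃ z d : E, d ≠ 0 ∧ algebraMap F L b * evH W hW d = evH W hW z := by
    intro b
    obtain ⟨r, s, hs, rfl⟩ := IsFractionRing.div_surjective (A := 𝓞 F) b
    obtain ⟨z, hz⟩ := (h1 F w hcfg.hF hcfg.hw).1.2 r
    obtain ⟨d, hd⟩ := (h1 F w hcfg.hF hcfg.hw).1.2 s
    have hs0 : (algebraMap (𝓞 F) F s) ≠ 0 := by
      have := nonZeroDivisors.ne_zero hs
      exact (map_ne_zero_iff _ (FaithfulSMul.algebraMap_injective (𝓞 F) F)).2 this
    have hev : ∀ t : E, algebraMap (𝓞 F) F (ev w t) = ev (w : F) t := by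
      intro t
      simp [ev]
    refine ⟨z, d, ?_, ?_⟩
    · rintro rfl
      apply hs0
      rw [← hd, hev]
      simp [ev]
    · rw [← hphiF, ← hphiF, ← hev, ← hev, hz, hd, ← map_mul, div_mul_cancel₀ _ hs0]
  obtain ⟨z2, d2, hd2, hb⟩ := hrep (f / g)
  have hgL : algebraMap F L g ≠ 0 := (map_ne_zero_iff _ (algebraMap F L).injective).2 hg
  have hz2 : z2 ≠ 0 := by
    rintro rfl
    rw [map_zero] at hb
    rcases mul_eq_zero.1 hb with h | h
    · rw [map_eq_zero] at h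
      exact (div_ne_zero hf0 hg) h
    · exact hd2 (phi_inj hW h)
  obtain ⟨z, d, hd, he⟩ := hrep ((a / (f ^ 3 * ev (w : F) M ^ k) - 1) / 9)
  obtain ⟨e, hedef⟩ : ∃ e : L, e = algebraMap F L ((a / (f ^ 3 * ev (w : F) M ^ k) - 1) / 9) :=
    ⟨_, rfl⟩
  have hMk : evH W hW M ^ k ≠ 0 := pow_ne_zero k (by
    intro h
    rw [h, map_zero] at hAM
    exact zero_ne_one hAM)
  have he2 : algebraMap F L a / (y ^ 3 * evH W hW M ^ k) = 1 + 9 * e := by
    rw [hedef, hf]
    simp only [map_div₀, map_sub, map_mul, map_pow, map_one, map_ofNat, hphiF]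
    ring
  have hAe : A e ≤ 1 := by
    have h4 : A (9 * e) ≤ c ^ 4 := by
      rw [hx3, he2] at hya
      simpa using hya
    have h5 : A 9 = c ^ 4 := by
      have : (9 : L) = 3 * 3 := by norm_num
      rw [this, map_mul, hc2, ← pow_add]
    rw [map_mul, h5] at h4
    have h6 : c ^ 4 * A e ≤ c ^ 4 * 1 := by rw [mul_one]; exact h4
    exact le_of_mul_le_mul_left h6 (zero_lt_iff.2 (pow_ne_zero 4 hc0))
  rw [← hedef] at he
  have hle : A (evH W hW z) ≤ A (evH W hW d) := by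
    rw [← he, map_mul]
    exact mul_le_of_le_one_left' hAe
  obtain ⟨z1, d1, hd1, hzd⟩ := int_rep A hW hA1 hA3 (by rw [hc]; exact hc0) (by rw [hc]; exact hc1)
    hd hle
  have he1 : e * evH W hW d1 = evH W hW z1 := by
    have hdL : evH W hW d ≠ 0 := fun h => hd (phi_inj hW h)
    have h4 := congrArg (evH W hW) hzd
    rw [map_mul, map_mul] at h4
    refine mul_right_cancel₀ hdL ?_
    rw [← h4, ← he]
    ring
  -- the equation in `E`
  have heq : om ^ i * lam ^ j * N * d2 ^ 3 * d1 = z2 ^ 3 * M ^ k * (d1 + 9 * z1) := by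
    rw [← sub_eq_zero]
    refine phi_inj hW ?_
    have h9 : evH W hW (9 : E) = 9 := map_ofNat _ 9
    simp only [map_sub, map_mul, map_add, map_pow, phi_om, phi_lam, h9]
    rw [← hb, ← he1]
    have hag' : algebraMap F L a = W ^ i * (1 - W) ^ j * evH W hW N * algebraMap F L g ^ 3 := by
      rw [hag]
      simp only [map_mul, map_pow, map_sub, map_one, hphiF]
      rw [← hWdef]
    have h4 : algebraMap F L a = (y ^ 3 * evH W hW M ^ k) * (1 + 9 * e) := by
      rw [← he2]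
      have : y ^ 3 * evH W hW M ^ k ≠ 0 := mul_ne_zero (pow_ne_zero 3 hy0) hMk
      field_simp
    have h5 : y = algebraMap F L (f / g) * algebraMap F L g := by
      rw [← map_mul, div_mul_cancel₀ _ hg, hf]
    have h6 : W ^ i * (1 - W) ^ j * evH W hW N =
        algebraMap F L (f / g) ^ 3 * evH W hW M ^ k * (1 + 9 * e) := by
      refine mul_right_cancel₀ (pow_ne_zero 3 hgL) ?_
      rw [← hag', h4, h5]
      ring
    rw [h6]
    ring
  obtain ⟨h4, h5, h6⟩ := final hi hj hN hM1 hz2 hd2 hd1 heq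
  exact ⟨h4, h5, k, hk, h6⟩

end Pool.Agent.Work.MP_59f3ad_nt.Q3
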