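import Mathlib
import Pool.Agent.Work.MP_59f3ad_nt.Q3.StmtsT
import Pool.Agent.Work.MP_59f3ad_nt.Q3.I_Thr

/-!
Block Q3T, item Alg: the equation in `ℤ[ω]`.
-/

namespace Pool.Agent.Work.MP_59f3ad_nt.Q3

namespace IAlg

open IThr

theorem om3 : om ^ 3 = 1 := by
  rw [pow_succ, pow_two]
  apply QuadraticAlgebra.ext
  · simp only [QuadraticAlgebra.re_mul, QuadraticAlgebra.im_mul, om, QuadraticAlgebra.re_one]
    norm_num
  · simp only [QuadraticAlgebra.re_mul, QuadraticAlgebra.im_mul, om, QuadraticAlgebra.im_one]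
    norm_num

theorem om_mod (n : ℕ) : om ^ n = om ^ (n % 3) := by
  conv_lhs => rw [← Nat.div_add_mod n 3]
  rw [pow_add, pow_mul, om3, one_pow, one_mul]

end IAlg

open IThr IAlg in
theorem pr_Alg : StAlg := by
  intro a b i j k N M0 z d z2 d2 hz2 hd2 hN hM hd heq
  have hd1 : ¬ (3 : ℤ) ∣ nz d := fun h => hd (lam_dvd h)
  have eo : oE = om := rfl
  have el : lE = lam := rfl
  rw [eo, el] at heq
  obtain ⟨s, z0, rfl, hz0⟩ := decomp _ z2 hz2 le_rfl
  obtain ⟨s', d0, rfl, hd0⟩ := decomp _ d2 hd2 le_rfl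
  have h3 : Prime (3 : ℤ) := Int.prime_three
  have hN3 := unit_of_one hN
  have hM3 := unit_of_one hM
  have hD := unit_add (z := z) hd1
  have h1 := congrArg nz heq
  simp only [nz_mul, nz_pow, nz_lam, nz_om, one_pow, one_mul] at h1
  have h2 : 3 ^ (j + 3 * s') * (nz N * nz d0 ^ 3 * nz d) =
      3 ^ (3 * s + b * k) * (nz z0 ^ 3 * nz M0 ^ k * nz (d + 9 * z)) := by
    rw [pow_add, pow_add, pow_mul', pow_mul', pow_mul]
    rw [mul_pow] at h1
    linear_combination h1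
  have h4 : j + 3 * s' = 3 * s + b * k := by
    refine pow3 ?_ ?_ h2
    · intro h
      rcases h3.dvd_or_dvd h with h | h
      · rcases h3.dvd_or_dvd h with h | h
        · exact hN3 h
        · exact hd0 (h3.dvd_of_dvd_pow h)
      · exact hd1 h
    · intro h
      rcases h3.dvd_or_dvd h with h | h
      · rcases h3.dvd_or_dvd h with h | h
        · exact hz0 (h3.dvd_of_dvd_pow h)
        · exact hM3 (h3.dvd_of_dvd_pow h)
      · exact hD h
  have h5 : lam ^ (3 * s + b * k) * (om ^ i * N * d0 ^ 3 * d -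
      z0 ^ 3 * om ^ (a * k) * M0 ^ k * (d + 9 * z)) = 0 := by
    have e1 : lam ^ (3 * s + b * k) * (om ^ i * N * d0 ^ 3 * d) =
        om ^ i * lam ^ j * N * (lam ^ s' * d0) ^ 3 * d := by
      rw [← h4, pow_add, pow_mul']
      ring
    have e2 : lam ^ (3 * s + b * k) * (z0 ^ 3 * om ^ (a * k) * M0 ^ k * (d + 9 * z)) =
        (lam ^ s * z0) ^ 3 * (om ^ a * lam ^ b * M0) ^ k * (d + 9 * z) := by
      rw [pow_add, pow_mul', pow_mul, pow_mul, mul_pow, mul_pow, mul_pow]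
      ring
    rw [mul_sub, e1, e2, heq, sub_self]
  have h6 : om ^ i * N * d0 ^ 3 * d - z0 ^ 3 * om ^ (a * k) * M0 ^ k * (d + 9 * z) = 0 := by
    have h7 := congrArg nz h5
    rw [nz_mul, nz_pow, nz_lam] at h7
    have h8 : nz (0 : E) = 0 := by simp [nz]
    rw [h8] at h7
    rcases mul_eq_zero.1 h7 with h | h
    · exact absurd h (pow_ne_zero _ (by norm_num))
    · exact nz_eq_zero h
  have hom : om ^ (2 * (a * k)) * om ^ (a * k) = 1 := by
    rw [← pow_add, show 2 * (a * k) + a * k = 3 * (a * k) by ring, pow_mul, om3, one_pow]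
  have h7 : ((9 : ℤ) : E) ∣ d * (om ^ ((i + 2 * (a * k)) % 3) * N * d0 ^ 3 - M0 ^ k * z0 ^ 3) := by
    rw [nine_cast, ← om_mod, pow_add]
    refine ⟨z0 ^ 3 * M0 ^ k * z, ?_⟩
    linear_combination om ^ (2 * (a * k)) * h6 + (z0 ^ 3 * M0 ^ k * (d + 9 * z)) * hom
  have h8 := dvd_cancel hd1 h7
  rw [nine_cast] at h8
  obtain ⟨h9, h10⟩ := fin (Nat.mod_lt _ (by norm_num)) hN hM hd0 hz0 h8
  have hz3 : (3 : ZMod 3) = 0 := by decide
  refine ⟨?_, ?_, h10⟩
  · have h11 : ((i + 2 * (a * k) : ℕ) : ZMod 3) = 0 := by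
      rw [ZMod.natCast_eq_zero_iff]
      exact Nat.dvd_of_mod_eq_zero h9
    push_cast at h11
    linear_combination h11 - (a * k : ZMod 3) * hz3
  · have h11 : ((j + 3 * s' : ℕ) : ZMod 3) = ((3 * s + b * k : ℕ) : ZMod 3) := by rw [h4]
    push_cast at h11
    linear_combination h11 + ((s : ZMod 3) - s') * hz3

end Pool.Agent.Work.MP_59f3ad_nt.Q3
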