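import Mathlib
import Pool.Agent.Work.MP_59f3ad_nt.Q3.StmtsT
import Pool.Agent.Work.MP_59f3ad_nt.Q3.I_Cnh

set_option autoImplicit false

namespace Pool.Agent.Work.MP_59f3ad_nt.Q3

open ICnh in
/-- Item CnT. -/
theorem pr_CnT : StCnT := by
  intro t c κ hc hne
  have hf : Fact (Nat.Prime 3) := ⟨Nat.prime_three⟩
  refine ⟨count c κ 3 ?_, fun hdet => ?_⟩
  · obtain ⟨i, hi⟩ := hne
    have h1 : Nat.card (ZMod 3) ≤ Nat.card (A c κ).range := by
      refine Nat.card_le_card_of_injective
        (fun a : ZMod 3 => (⟨A c κ (Pi.single i a), ⟨_, rfl⟩⟩ : (A c κ).range)) ?_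
      intro a b hab
      have h2 : A c κ (Pi.single i a) = A c κ (Pi.single i b) := congrArg Subtype.val hab
      rw [A_single, A_single, ← sub_eq_zero, ← sub_smul, ← sub_mul, smul_eq_zero] at h2
      rcases h2 with h3 | h3
      · have h4 := sq_one (c i) (hc i)
        have h5 : a - b = 0 := by linear_combination (-(a - b)) * h4 + (c i : ZMod 3) * h3
        exact sub_eq_zero.1 h5
      · exact absurd h3 hi
    rwa [Nat.card_zmod] at h1
  · refine count c κ 9 ?_
    obtain ⟨i, j, hij⟩ := hdet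
    have hsq : ∀ i, (c i : ZMod 3) * (c i : ZMod 3) = 1 := fun i => sq_one (c i) (hc i)
    have hA : ∀ a b : ZMod 3, A c κ (Pi.single i (a * c i) + Pi.single j (b * c j)) =
        a • κ i + b • κ j := by
      intro a b
      rw [map_add, A_single, A_single, mul_assoc, mul_assoc, hsq, hsq, mul_one, mul_one]
    have h1 : Nat.card (ZMod 3 × ZMod 3) ≤ Nat.card (A c κ).range := by
      refine Nat.card_le_card_of_injective
        (fun p : ZMod 3 × ZMod 3 =>
          (⟨A c κ (Pi.single i (p.1 * c i) + Pi.single j (p.2 * c j)), ⟨_, rfl⟩⟩ :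
            (A c κ).range)) ?_
      intro p q hpq
      have h2 : A c κ (Pi.single i (p.1 * c i) + Pi.single j (p.2 * c j)) =
          A c κ (Pi.single i (q.1 * c i) + Pi.single j (q.2 * c j)) := congrArg Subtype.val hpq
      rw [hA, hA] at h2
      have h3 : p.1 * (κ i).1 + p.2 * (κ j).1 = q.1 * (κ i).1 + q.2 * (κ j).1 :=
        congrArg Prod.fst h2
      have h4 : p.1 * (κ i).2 + p.2 * (κ j).2 = q.1 * (κ i).2 + q.2 * (κ j).2 :=
        congrArg Prod.snd h2
      have h5 : (p.1 - q.1) * ((κ i).1 * (κ j).2 - (κ i).2 * (κ j).1) = 0 := by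
        linear_combination (κ j).2 * h3 - (κ j).1 * h4
      have h6 : (p.2 - q.2) * ((κ i).1 * (κ j).2 - (κ i).2 * (κ j).1) = 0 := by
        linear_combination (κ i).1 * h4 - (κ i).2 * h3
      exact Prod.ext (sub_eq_zero.1 ((mul_eq_zero.1 h5).resolve_right hij))
        (sub_eq_zero.1 ((mul_eq_zero.1 h6).resolve_right hij))
    have h7 : Nat.card (ZMod 3 × ZMod 3) = 9 := by
      rw [Nat.card_prod, Nat.card_zmod]
    rwa [h7] at h1

end Pool.Agent.Work.MP_59f3ad_nt.Q3
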