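import Mathlib
import Pool.Agent.Work.MP_59f3ad_nt.Q3.StmtsT
import Pool.Agent.Work.MP_59f3ad_nt.Q3.StmtsC

/-!
# Block Q3, part T, item Dec: the Kummer radical of an invariant class is approximated by cubes of
elements close to their conjugates
-/

set_option autoImplicit false

open NumberField IsDedekindDomain

namespace Pool.Agent.Work.MP_59f3ad_nt.Q3

universe u

namespace IDec

variable {L : Type u} [Field L]

theorem toZMod_of_D3 {a : ℤ_[3]} (h : D3 a) : PadicInt.toZMod a = 0 := by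
  obtain ⟨b, rfl⟩ := h
  rw [map_mul]
  have h3 : PadicInt.toZMod (3 : ℤ_[3]) = 0 := by
    rw [map_ofNat]
    rfl
  rw [h3, zero_mul]

theorem not_D3_one : ¬ D3 (1 : ℤ_[3]) := by
  intro h
  have h1 := toZMod_of_D3 h
  rw [map_one] at h1
  exact absurd h1 (by decide)

/-- `1 + y + y ^ 2` is not zero if `y = 1` modulo `3` -/
theorem sum_ne {y : ℤ_[3]} (h : D3 (y - 1)) : 1 + y + y ^ 2 ≠ 0 := by
  obtain ⟨z, hz⟩ := h
  intro h0
  have hy : y = 1 + 3 * z := by linear_combination hz
  rw [hy] at h0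
  have h1 : (3 : ℤ_[3]) * (1 + 3 * (z + z ^ 2)) = 0 := by linear_combination h0
  rcases mul_eq_zero.1 h1 with h2 | h2
  · exact absurd h2 (by norm_num)
  · exact not_D3_one ⟨-(z + z ^ 2), by linear_combination h2⟩

/-- The cyclotomic character of all automorphisms. -/
noncomputable abbrev X (L : Type u) [Field L] : (AlgebraicClosure L ≃+* AlgebraicClosure L) →* ℤ_[3]ˣ :=
  cyclotomicCharacter (AlgebraicClosure L) 3

theorem cyc_eq (g : GK L) (a : AlgebraicClosure L ≃+* AlgebraicClosure L) (h : ∀ y, a y = g y) :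
    cyc L 3 g = X L a := by
  have e : MulSemiringAction.toRingAut (GK L) (AlgebraicClosure L) g = a := by
    ext y
    exact (h y).symm
  unfold cyc
  rw [MonoidHom.comp_apply, e]

theorem twist_congr {g h : GK L} (e : cyc L 3 g = cyc L 3 h) (r : ℤ) :
    twist L 3 r g = twist L 3 r h := by
  unfold twist
  rw [e]

theorem cyc_cj {σ : L ≃+* L} {s : AlgebraicClosure L ≃+* AlgebraicClosure L} (hs : Ext σ s)
    (h : GK L) : cyc L 3 (cj hs h) = cyc L 3 h := by
  have e1 : cyc L 3 h = X L (h : AlgebraicClosure L ≃+* AlgebraicClosure L) :=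
    cyc_eq h _ fun _ => rfl
  have e2 : cyc L 3 (cj hs h) =
      X L (s⁻¹ * (h : AlgebraicClosure L ≃+* AlgebraicClosure L) * s) := by
    refine cyc_eq _ _ fun y => ?_
    rw [cj_apply]
    rfl
  rw [e2, e1, map_mul, map_mul, map_inv, mul_comm, mul_inv_cancel_left]

theorem twist_k {s : AlgebraicClosure L ≃+* AlgebraicClosure L}
    (hs : cyclotomicCharacter (AlgebraicClosure L) 3 s = 1) {k : GK L}
    (hk : ∀ y, k y = s (s (s y))) (r : ℤ) : twist L 3 r k = 1 := by
  have e1 : cyc L 3 k = X L (s * s * s) := by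
    refine cyc_eq _ _ fun y => ?_
    rw [hk]
    rfl
  have e2 : cyc L 3 k = 1 := by
    rw [e1, map_mul, map_mul, show X L s = 1 from hs]
    simp
  unfold twist
  rw [e2, one_zpow, Units.val_one]

/-- the decomposition of `s g s g s g` -/
theorem k_eq {σ : L ≃+* L} {s : AlgebraicClosure L ≃+* AlgebraicClosure L} (hs : Ext σ s)
    {k k' g : GK L} (hk : ∀ y, k y = s (s (s y)))
    (hk' : ∀ y, k' y = s (g (s (g (s (g y)))))) :
    k' = k * cj hs (cj hs g) * cj hs g * g := by
  refine AlgEquiv.ext fun y => ?_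
  rw [AlgEquiv.mul_apply, AlgEquiv.mul_apply, AlgEquiv.mul_apply, hk, hk']
  simp only [cj_apply, RingEquiv.apply_symm_apply]

end IDec

open IDec in
/-- Item Dec. -/
theorem pr_Dec (h1 : StLoc.{u}) (h2 : StCyl.{u}) : StDec.{u} := by
  intro L _ _ w hw σ s hs hσ3 hχ v hv hval k hk r ψ hψ hinv hψk A a hA hAa hsA hh
  let ι : AlgebraicClosure L →ₐ[L] AlgebraicClosure (v.adicCompletion L) := IsAlgClosed.lift
  obtain ⟨g, k', hk', ⟨γ, hγ⟩, hfin⟩ := h1 L σ s hs hσ3 v hval ι
  obtain ⟨y, hy⟩ := hψ.2.1 v hv ι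
  have hD := (h2 L w hw r).1
  have hco := hψ.1.1.2
  -- the modified cocycle
  have htk : twist L 3 r k = 1 := twist_k hχ hk r
  have hyk : ψ k' = (twist L 3 r k' - 1) * y := hy γ k' hγ
  have ht1 : twist L 3 r (cj hs g) = twist L 3 r g := twist_congr (cyc_cj hs g) r
  have ht2 : twist L 3 r (cj hs (cj hs g)) = twist L 3 r g :=
    (twist_congr (cyc_cj hs _) r).trans ht1
  have hψ1 : ψ (cj hs g) = ψ g := hinv g
  have hψ2 : ψ (cj hs (cj hs g)) = ψ g := (hinv _).trans hψ1
  have he := k_eq hs hk hk'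
  have hz : (1 + twist L 3 r g + twist L 3 r g ^ 2) * (ψ g - (twist L 3 r g - 1) * y) = 0 := by
    have e1 : ψ k' = ψ g + twist L 3 r g * ψ g + twist L 3 r g * twist L 3 r g * ψ g := by
      rw [he, hco, hco, hco]
      simp only [twist_mul, htk, hψk, hψ1, hψ2, ht1, ht2]
      ring
    have e2 : twist L 3 r k' = twist L 3 r g * twist L 3 r g * twist L 3 r g := by
      rw [he, twist_mul, twist_mul, twist_mul, htk, ht1, ht2, one_mul]
    rw [e1, e2] at hyk
    linear_combination hyk
  have hg0 : ψ g = (twist L 3 r g - 1) * y := by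
    rcases mul_eq_zero.1 hz with h | h
    · exact absurd h (sum_ne (hD g))
    · exact sub_eq_zero.1 h
  -- a value which is a local coboundary acts trivially on `A`
  have hfix : ∀ h : GK L, ψ h = (twist L 3 r h - 1) * y → h A = A := by
    intro h hh'
    have h3 : D3 (ψ h) := by
      rw [hh']
      exact Dvd.dvd.mul_right (hD h) y
    rw [hh h, toZMod_of_D3 h3, ZMod.val_zero, pow_zero, map_one, one_mul]
  refine hfin A a hA hAa ?_ fun γ' h hγh => hfix h (hy γ' h hγh)
  rw [hfix g hg0, hsA]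

end Pool.Agent.Work.MP_59f3ad_nt.Q3
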