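import Mathlib
import Pool.Agent.Work.MP_59f3ad_nt.Q3.StmtsT
import Pool.Agent.Work.MP_59f3ad_nt.Q3.StmtsR
import Pool.Agent.Work.MP_59f3ad_nt.Q3.I_Fmo

/-!
Item FmT of block Q3, part T (first moment for a fixed non-constant `h`, with arbitrary functions
of one component on the right side). Modelled on I_Fmo.
-/

set_option autoImplicit false

open NumberField IsDedekindDomain

namespace Pool.Agent.Work.MP_59f3ad_nt.Q3

namespace IFmT

open Finset IFmo

/-- decomposition of a sum of functions of one component for two changed components -/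
theorem decomp1 {t : ℕ} (g : Fin t → E → ZMod 3) (π : Fin t → E) (i0 k0 : Fin t) :
    ∃ A B : E → ZMod 3, ∀ a b : E,
      ∑ k, g k (Function.update (Function.update π i0 a) k0 b k) = A a + B b := by
  classical
  refine ⟨fun a => ∑ k ∈ Finset.univ.erase k0, g k (Function.update π i0 a k),
    fun b => g k0 b, fun a b => ?_⟩
  rw [← Finset.add_sum_erase Finset.univ _ (Finset.mem_univ k0), Function.update_self, add_comm]
  congr 1
  refine Finset.sum_congr rfl fun k hk => ?_
  rw [Function.update_of_ne (Finset.ne_of_mem_erase hk)]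

/-- the bound for a non-constant `y` -/
theorem bound {t : ℕ} (c : Fin t → ℕ) (hc : ∀ i, c i = 1 ∨ c i = 2) (δ : ℝ) (P : Fin t → Finset E)
    (h y : Fin t → ZMod 3) (hh : ∃ i k, h i ≠ h k) (hy : ¬ ∀ i k, y i = y k)
    (g : Fin t → E → ZMod 3)
    (hB : ∀ i k : Fin t, ∀ e : ZMod 3, e ≠ 0 → ∀ α β : E → ℂ, (∀ z, ‖α z‖ ≤ 1) → (∀ z, ‖β z‖ ≤ 1) →
      ‖∑ π ∈ P i, ∑ π' ∈ P k, α π * β π' * e3 (e * ind π π')‖ ≤ δ * ((P i).card * (P k).card))
    (hP : ∀ i, (P i).card ≠ 0) :
    ‖∑ π ∈ Fintype.piFinset P, e3 (∑ p : Fin t × Fin t, T c h y π p + ∑ k, g k (π k))‖ ≤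
      δ * ((Fintype.piFinset P).card : ℝ) := by
  classical
  have : Fact (Nat.Prime 3) := ⟨by norm_num⟩
  obtain ⟨i0, k0, hlt, hne⟩ := pair h y hh hy
  have hcne : ∀ i, (c i : ZMod 3) ≠ 0 := by
    intro i
    rcases hc i with h1 | h1
    · rw [h1]; exact d1
    · rw [h1]; exact d2
  set e : ZMod 3 := (c i0 : ZMod 3) * (c k0 : ZMod 3) * (h i0 - h k0) * (y k0 - y i0) with he
  have hene : e ≠ 0 := by
    rw [he, mul_assoc]
    exact mul_ne_zero (mul_ne_zero (hcne i0) (hcne k0)) hne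
  set G : (Fin t → E) → ℂ := fun π => e3 (∑ p : Fin t × Fin t, T c h y π p + ∑ k, g k (π k))
    with hG
  have h1 : ((P i0).card : ℂ) * (((P k0).card : ℂ) * ∑ π ∈ Fintype.piFinset P, G π) =
      ∑ π ∈ Fintype.piFinset P, ∑ a ∈ P i0, ∑ b ∈ P k0,
        G (Function.update (Function.update π i0 a) k0 b) := by
    rw [← avg P k0 G, ← avg P i0 (fun π => ∑ b ∈ P k0, G (Function.update π k0 b))]
  have h2 : ‖∑ π ∈ Fintype.piFinset P, ∑ a ∈ P i0, ∑ b ∈ P k0,
      G (Function.update (Function.update π i0 a) k0 b)‖ ≤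
      ((Fintype.piFinset P).card : ℝ) * (δ * ((P i0).card * (P k0).card)) := by
    refine (norm_sum_le _ _).trans ?_
    rw [← nsmul_eq_mul]
    refine Finset.sum_le_card_nsmul _ _ _ (fun π _ => ?_)
    obtain ⟨A, B, hAB⟩ := decomp c h y π i0 k0 hlt
    obtain ⟨A', B', hAB'⟩ := decomp1 g π i0 k0
    have h3 : ∑ a ∈ P i0, ∑ b ∈ P k0, G (Function.update (Function.update π i0 a) k0 b) =
        ∑ a ∈ P i0, ∑ b ∈ P k0, e3 (A a + A' a) * e3 (B b + B' b) * e3 (e * ind a b) := by
      refine Finset.sum_congr rfl (fun a _ => Finset.sum_congr rfl (fun b _ => ?_))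
      simp only [hG]
      rw [hAB a b, hAB' a b, ← e3_add, ← e3_add]
      congr 1
      ring
    rw [h3]
    exact hB i0 k0 e hene (fun a => e3 (A a + A' a)) (fun b => e3 (B b + B' b))
      (fun z => (norm_e3 _).le) (fun z => (norm_e3 _).le)
  rw [← h1, norm_mul, norm_mul, Complex.norm_natCast, Complex.norm_natCast] at h2
  have p1 : (0 : ℝ) < (P i0).card := by exact_mod_cast Nat.pos_of_ne_zero (hP i0)
  have p2 : (0 : ℝ) < (P k0).card := by exact_mod_cast Nat.pos_of_ne_zero (hP k0)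
  have p3 : (0 : ℝ) < (P i0).card * (P k0).card := mul_pos p1 p2
  have h4 : ((P i0).card * (P k0).card : ℝ) * ‖∑ π ∈ Fintype.piFinset P, G π‖ ≤
      ((P i0).card * (P k0).card : ℝ) * (δ * ((Fintype.piFinset P).card : ℝ)) := by
    linarith
  exact le_of_mul_le_mul_left h4 p3

end IFmT

open IFmo IFmT in
/-- FMT: the first moment for a fixed non-constant `h`, arbitrary right side. -/
theorem pr_FmT (h1 : StBlt) : StFmT := by
  classical
  intro t c hc δ hδ
  obtain ⟨X0, hX0⟩ := h1 δ hδ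
  refine ⟨max X0 1, fun X hX P hP hcard h hh f => ?_⟩
  have hX0' : X0 ≤ X := le_trans (le_max_left _ _) hX
  have hX1 : 1 ≤ X := le_trans (le_max_right _ _) hX
  have hpos : ∀ i, (P i).card ≠ 0 := by
    intro i h0
    have h2 := hcard i
    rw [h0] at h2
    have h3 : (0 : ℝ) < (X : ℝ) ^ (19 / 20 : ℝ) := by
      apply Real.rpow_pos_of_pos
      exact_mod_cast hX1
    simp only [Nat.cast_zero] at h2
    linarith
  set F := Fintype.piFinset P with hF
  have hFcard : (F.card : ℝ) = ∏ i, ((P i).card : ℝ) := by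
    rw [hF, Fintype.card_piFinset]; push_cast; rfl
  rw [← hFcard]
  set S := F.filter (fun π => ∀ k,
    ∑ i, (c i : ZMod 3) * (c k : ZMod 3) * (h i - h k) * sy π i k = f k (π k)) with hS
  set g : (Fin t → ZMod 3) → Fin t → E → ZMod 3 := fun y k z => -(y k * f k z) with hg
  have hcount : ((3 : ℂ) ^ t) * (S.card : ℂ) =
      ∑ y : Fin t → ZMod 3, ∑ π ∈ F,
        e3 (∑ p : Fin t × Fin t, T c h y π p + ∑ k, g y k (π k)) := by
    rw [Finset.sum_comm]
    have h2 : ∀ π ∈ F, ∑ y : Fin t → ZMod 3,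
        e3 (∑ p : Fin t × Fin t, T c h y π p + ∑ k, g y k (π k)) =
        if (∀ k, ∑ i, (c i : ZMod 3) * (c k : ZMod 3) * (h i - h k) * sy π i k = f k (π k)) then
          (3 : ℂ) ^ t else 0 := by
      intro π _
      have h3 := orth_pi (fun k => ∑ i, (c i : ZMod 3) * (c k : ZMod 3) * (h i - h k) * sy π i k -
        f k (π k))
      simp only [sub_eq_zero] at h3
      rw [← h3]
      refine Finset.sum_congr rfl (fun y _ => ?_)
      rw [← sum_T, ← Finset.sum_add_distrib]
      congr 1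
      refine Finset.sum_congr rfl (fun k _ => ?_)
      simp only [hg]
      ring
    rw [Finset.sum_congr rfl h2, ← Finset.sum_filter, Finset.sum_const, nsmul_eq_mul, mul_comm]
  have hy : ∀ y : Fin t → ZMod 3,
      ‖∑ π ∈ F, e3 (∑ p : Fin t × Fin t, T c h y π p + ∑ k, g y k (π k))‖ ≤
      (if (∀ i k, y i = y k) then (F.card : ℝ) else 0) + δ * F.card := by
    intro y
    split_ifs with hyc
    · have h2 : ‖∑ π ∈ F, e3 (∑ p : Fin t × Fin t, T c h y π p + ∑ k, g y k (π k))‖ ≤ F.card := by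
        refine (norm_sum_le _ _).trans ?_
        rw [Finset.sum_congr rfl (fun π _ => norm_e3 _), Finset.sum_const, nsmul_eq_mul, mul_one]
      have h3 : 0 ≤ δ * (F.card : ℝ) := by positivity
      linarith
    · rw [zero_add]
      exact IFmT.bound c hc δ P h y hh hyc (g y) (fun i k e he α β hα hβ =>
        hX0 X hX0' (P i) (P k) (hP i) (hP k) (hcard i) (hcard k) e he α β hα hβ) hpos
  obtain ⟨i, _, _⟩ := id hh
  have hfin : (3 : ℝ) ^ t * (S.card : ℝ) ≤ 3 * F.card + 3 ^ t * (δ * F.card) := by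
    have h2 : ‖((3 : ℂ) ^ t) * (S.card : ℂ)‖ = (3 : ℝ) ^ t * (S.card : ℝ) := by
      rw [norm_mul, norm_pow, Complex.norm_natCast]
      norm_num
    rw [← h2, hcount]
    refine (norm_sum_le _ _).trans ((Finset.sum_le_sum (fun y _ => hy y)).trans ?_)
    rw [Finset.sum_add_distrib, Finset.sum_const, ← Finset.sum_filter, Finset.sum_const, nsmul_eq_mul,
      nsmul_eq_mul]
    have h3 : ((Finset.univ : Finset (Fin t → ZMod 3)).card : ℝ) = 3 ^ t := by
      rw [Finset.card_univ, Fintype.card_fun, ZMod.card, Fintype.card_fin]; push_cast; rfl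
    rw [h3]
    have h4 : ((Finset.univ.filter (fun y : Fin t → ZMod 3 => ∀ i k, y i = y k)).card : ℝ) ≤ 3 := by
      exact_mod_cast card_const i
    have h5 : (0 : ℝ) ≤ F.card := Nat.cast_nonneg _
    nlinarith
  have h3t : (0 : ℝ) < 3 ^ t := by positivity
  have h6 : (3 : ℝ) ^ t * ((3 / 3 ^ t + δ) * F.card) = 3 * F.card + 3 ^ t * (δ * F.card) := by
    field_simp
  refine le_of_mul_le_mul_left ?_ h3t
  rw [h6]
  exact hfin

end Pool.Agent.Work.MP_59f3ad_nt.Q3
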