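import Mathlib
import Pool.Agent.Work.MP_59f3ad_nt.Q3.StmtsT
import Pool.Agent.Work.MP_59f3ad_nt.Q3.StmtsC
import Pool.Agent.Work.MP_59f3ad_nt.Q3.StmtsG
import Pool.Agent.Work.MP_59f3ad_nt.Q3.I_Inv

set_option autoImplicit false

/-!
# MP_59f3ad_nt, block Q3, item IvT
-/

open NumberField IsDedekindDomain

namespace Pool.Agent.Work.MP_59f3ad_nt.Q3

universe u

namespace IIvT

open IInv

/-- The local step at one prime of `M`. -/
theorem local_stepT (hRtt : StRtt.{u}) {F L : Type u} [Field F] [NumberField F] [Field L]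
    [NumberField L] [Algebra F L] (w : 𝓞 F) (x : 𝓞 L) (σ : L ≃ₐ[F] L) (M M0 : E)
    (hcfg : Cfg F L w x σ M) (t : ℕ) (π : Fin t → E) (c : Fin t → ℕ) (hprd : Prd t π c M0)
    (k : Fin t) (q : HeightOneSpectrum (𝓞 F)) (v : HeightOneSpectrum (𝓞 L))
    (hram : Ram F L w x σ (π k) (c k) q v) (τ : AlgebraicClosure L ≃+* AlgebraicClosure L)
    (Q : Ideal (𝓞 (AlgebraicClosure L))) (hinr : InrQ (σ : L ≃+* L) v τ Q)
    (A : AlgebraicClosure L) (a : F)
    (hA3 : A ^ 3 = algebraMap L (AlgebraicClosure L) (algebraMap F L a)) (hτA : τ A = A)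
    (i j : ℕ) (e : Fin t → ℕ) (g : F) (hg : g ≠ 0) (he : e k < 3)
    (hfac : a = (w : F) ^ i * (1 - (w : F)) ^ j * ev (w : F) (∏ k, π k ^ e k) * g ^ 3) :
    e k = 0 := by
  have hwF : (w : F) ^ 2 + (w : F) + 1 = 0 := by
    have := congrArg (fun y : 𝓞 F => (y : F)) hcfg.hw
    push_cast at this
    exact this
  have hwL : (algebraMap F L (w : F)) ^ 2 + algebraMap F L (w : F) + 1 = 0 := by
    have := congrArg (algebraMap F L) hwF
    rw [map_add, map_add, map_pow, map_one, map_zero] at this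
    exact this
  have h3q : (3 : 𝓞 F) ∉ q.asIdeal := by
    intro h
    have h1 : q.valuation F ((3 : 𝓞 F) : F) < 1 := by
      have h1 : q.valuation F (algebraMap (𝓞 F) F 3) = q.intValuation 3 :=
        HeightOneSpectrum.valuation_of_algebraMap q 3
      rw [show (((3 : 𝓞 F) : F)) = algebraMap (𝓞 F) F 3 from rfl, h1,
        HeightOneSpectrum.intValuation_lt_one_iff_mem]
      exact h
    have h2 := hram.ram ((3 : 𝓞 F) : F)
    have h4 : algebraMap F L ((3 : 𝓞 F) : F) = ((3 : 𝓞 L) : L) := by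
      push_cast
      exact map_ofNat _ 3
    rw [h4, val_one v 3 hram.n3] at h2
    have h5 : q.valuation F ((3 : 𝓞 F) : F) ^ 3 < 1 := pow_lt_one₀ zero_le h1 (by norm_num)
    rw [← h2] at h5
    exact lt_irrefl _ h5
  obtain ⟨m, hm⟩ := ex_exp q g hg
  -- the valuation of a
  have hqk : ev w (π k) ∈ q.asIdeal := by
    rw [hram.qs]
    exact Ideal.mem_span_singleton_self _
  have hprod : q.valuation F (ev (w : F) (∏ k, π k ^ e k)) = WithZero.exp (-(e k : ℤ)) := by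
    have h1 : ev (w : F) (∏ k, π k ^ e k) = ∏ k, (ev (w : F) (π k)) ^ e k := by
      rw [← evH_apply (w : F) hwF, map_prod]
      refine Finset.prod_congr rfl fun l _ => ?_
      rw [map_pow, evH_apply]
    rw [h1, map_prod, Finset.prod_eq_single k]
    · rw [map_pow, ← coe_ev, val_gen q _ hram.qs, ← WithZero.exp_nsmul]
      congr 1
      simp
    · intro l _ hl
      rw [map_pow, ← coe_ev, val_one q, one_pow]
      refine not_both w hcfg.hw q (π k) (π l) (hprd.pp k).pr (hprd.pp l).pr ?_ hqk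
      intro h
      exact hl (hprd.inj k l h).symm
    · intro h
      exact absurd (Finset.mem_univ k) h
  have hqa : q.valuation F a = WithZero.exp (-(e k : ℤ) + 3 * m) := by
    have h1 : q.valuation F (w : F) = 1 := val_one q w (w_notMem w hcfg.hw q)
    have h2 : q.valuation F (1 - (w : F)) = 1 := by
      have := val_one q (1 - w) (one_sub_w_notMem w hcfg.hw q h3q)
      push_cast at this
      exact this
    rw [hfac, map_mul, map_mul, map_mul, map_pow, map_pow, map_pow, h1, h2, hprod, hm, one_pow,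
      one_pow, one_mul, one_mul, WithZero.exp_add, ← WithZero.exp_nsmul]
    congr 2
  set n : ℤ := -(e k : ℤ) + 3 * m with hn
  have hva : v.valuation L (algebraMap F L a) = WithZero.exp (3 * n) := by
    rw [hram.ram, hqa, ← WithZero.exp_nsmul]
    congr 1
  have hx0 : (x : L) ≠ 0 := by
    intro h
    have := hram.vx
    rw [h, map_zero] at this
    exact WithZero.exp_ne_zero this.symm
  have hX0 : algebraMap L (AlgebraicClosure L) (x : L) ≠ 0 := by
    rw [Ne, FaithfulSMul.algebraMap_eq_zero_iff]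
    exact hx0
  have hu3 : (A ^ c k * (algebraMap L (AlgebraicClosure L) (x : L)) ^ n) ^ 3 =
      algebraMap L (AlgebraicClosure L) ((algebraMap F L a) ^ c k * ((x : L) ^ n) ^ 3) := by
    rw [mul_pow, ← pow_mul, mul_comm (c k) 3, pow_mul, hA3, map_mul, map_pow, map_pow, map_zpow₀]
  have hvb : v.valuation L ((algebraMap F L a) ^ c k * ((x : L) ^ n) ^ 3) = 1 := by
    rw [map_mul, map_pow, map_pow, map_zpow₀, hva, hram.vx, ← WithZero.exp_nsmul,
      ← WithZero.exp_zsmul, ← WithZero.exp_nsmul, ← WithZero.exp_add, ← WithZero.exp_zero]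
    congr 1
    simp only [nsmul_eq_mul, smul_eq_mul]
    push_cast
    ring
  have hτ' : ∀ y : L, τ (algebraMap L (AlgebraicClosure L) y) =
      algebraMap L (AlgebraicClosure L) (σ y) := hinr.ext
  have hτu : τ (A ^ c k * (algebraMap L (AlgebraicClosure L) (x : L)) ^ n) =
      algebraMap L (AlgebraicClosure L) ((algebraMap F L (w : F)) ^ (n % 3).toNat) *
        (A ^ c k * (algebraMap L (AlgebraicClosure L) (x : L)) ^ n) := by
    rw [map_mul, map_pow, hτA, map_zpow₀, hτ', hcfg.hσ, map_mul, mul_zpow, ← w_zpow _ hwL,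
      map_zpow₀]
    ring
  have hone := hRtt L (σ : L ≃+* L) v τ Q hinr hram.n3 _ hwL _ _ _ hu3 hvb hτu
  have h3j := w_dvd _ hwL (by norm_num) _ hone
  have h4 : (3 : ℤ) ∣ n := by omega
  omega


theorem ev_oE {R : Type*} [CommRing R] (w : R) : ev w oE = w := by
  simp [ev, oE]

theorem ev_lE {R : Type*} [CommRing R] (w : R) : ev w lE = 1 - w := by
  simp [ev, lE]
  ring

theorem ev_zero {R : Type*} [CommRing R] (w : R) : ev w (0 : E) = 0 := by
  simp [ev]

theorem ev_one {R : Type*} [CommRing R] (w : R) : ev w (1 : E) = 1 := by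
  simp [ev, QuadraticAlgebra.re_one, QuadraticAlgebra.im_one]

/-- Evaluation at `w` is injective, with values in the field. -/
theorem ev_inj (hIso : StIso.{u}) {F : Type u} [Field F] [NumberField F] (w : 𝓞 F)
    (hF : Module.finrank ℚ F = 2) (hw : w ^ 2 + w + 1 = 0) {y z : E}
    (h : ev (w : F) y = ev (w : F) z) : y = z := by
  refine (hIso F w hF hw).1.1 ?_
  apply RingOfIntegers.ext
  rw [coe_ev, coe_ev]
  exact h

/-- `F` is the fraction field of `E`. -/
theorem ex_frac (hIso : StIso.{u}) {F : Type u} [Field F] [NumberField F] (w : 𝓞 F)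
    (hF : Module.finrank ℚ F = 2) (hw : w ^ 2 + w + 1 = 0) (f : F) (hf : f ≠ 0) :
    ∃ z2 d2 : E, z2 ≠ 0 ∧ d2 ≠ 0 ∧ f * ev (w : F) d2 = ev (w : F) z2 := by
  obtain ⟨y, d, hd, hyd⟩ := IsFractionRing.div_surjective (A := 𝓞 F) f
  obtain ⟨z2, hz2⟩ := (hIso F w hF hw).1.2 y
  obtain ⟨d2, hd2⟩ := (hIso F w hF hw).1.2 d
  have hd0 : d ≠ 0 := nonZeroDivisors.ne_zero hd
  have hdF : (algebraMap (𝓞 F) F d) ≠ 0 := by
    rw [Ne, FaithfulSMul.algebraMap_eq_zero_iff]
    exact hd0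
  have h1 : ev (w : F) d2 = algebraMap (𝓞 F) F d := by
    rw [← coe_ev, hd2]
  have h2 : ev (w : F) z2 = algebraMap (𝓞 F) F y := by
    rw [← coe_ev, hz2]
  refine ⟨z2, d2, ?_, ?_, ?_⟩
  · rintro rfl
    rw [ev_zero] at hz2
    rw [← hz2, map_zero, zero_div] at hyd
    exact hf hyd.symm
  · rintro rfl
    rw [ev_zero] at hd2
    exact hd0 hd2.symm
  · rw [h1, h2, ← hyd, div_mul_cancel₀ _ hdF]

/-- The exponents of `w` and `1 - w` vanish. -/
theorem exps (hIso : StIso.{u}) (hAlg : StAlg) {F : Type u} [Field F] [NumberField F] (w : 𝓞 F)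
    (hF : Module.finrank ℚ F = 2) (hw : w ^ 2 + w + 1 = 0) (hwF : (w : F) ^ 2 + (w : F) + 1 = 0)
    (i j : ℕ) (hi : i < 3) (hj : j < 3) (g f : F) (hg : g ≠ 0) (hf : f ≠ 0) (z d : E)
    (hd : ¬ lE ∣ d)
    (h : (w : F) ^ i * (1 - (w : F)) ^ j * g ^ 3 * ev (w : F) d =
      f ^ 3 * ev (w : F) (d + 9 * z)) : i = 0 ∧ j = 0 := by
  obtain ⟨z2, d2, hz2, hd2, hzd⟩ := ex_frac hIso w hF hw (f / g) (div_ne_zero hf hg)
  have hzd' : f * ev (w : F) d2 = g * ev (w : F) z2 := by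
    rw [← hzd]
    field_simp
  have key : oE ^ i * lE ^ j * 1 * d2 ^ 3 * d = z2 ^ 3 * (oE ^ 0 * lE ^ 0 * 1) ^ 0 * (d + 9 * z) := by
    apply ev_inj hIso w hF hw
    have hm : ∀ y y' : E, ev (w : F) (y * y') = ev (w : F) y * ev (w : F) y' := fun y y' =>
      map_mul (evH (w : F) hwF) y y'
    have hp : ∀ (y : E) (n : ℕ), ev (w : F) (y ^ n) = ev (w : F) y ^ n := fun y n =>
      map_pow (evH (w : F) hwF) y n
    rw [pow_zero (oE ^ 0 * lE ^ 0 * 1), hm, hm, hm, hm, hm, hm, hp, hp, hp, hp, ev_oE, ev_lE,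
      ev_one]
    have hg3 : g ^ 3 ≠ 0 := pow_ne_zero 3 hg
    apply mul_left_cancel₀ hg3
    have h1 : g ^ 3 * (ev (w : F) z2 ^ 3 * 1 * ev (w : F) (d + 9 * z)) =
        (g * ev (w : F) z2) ^ 3 * ev (w : F) (d + 9 * z) := by ring
    rw [h1, ← hzd']
    linear_combination (ev (w : F) d2) ^ 3 * h
  obtain ⟨h1, h2, _⟩ := hAlg 0 0 i j 0 1 1 z d z2 d2 hz2 hd2 (by simp) (by simp) hd key
  rw [Nat.cast_zero, zero_mul, ZMod.natCast_eq_zero_iff] at h1 h2
  exact ⟨Nat.eq_zero_of_dvd_of_lt h1 hi, Nat.eq_zero_of_dvd_of_lt h2 hj⟩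

end IIvT

open IInv IIvT in
theorem pr_IvT (hKmm : StKmm.{u}) (hH90 : StH90.{u}) (hGkk : StGkk.{u}) (hCub : StCub.{u})
    (hMur : StMur.{u}) (hRtt : StRtt.{u}) (hUnr : StUnr.{u}) (hFac : StFac.{u})
    (hIso : StIso.{u}) (hThG : StThG.{u}) (hAlg : StAlg) (hCyl : StCyl.{u}) (hDec : StDec.{u})
    (hVsg : StVsg.{u}) : StIvT.{u} := by
  intro F L _ _ _ _ _ w x σ ea eb M0 hcfg huni t π c hprd q v hram τ Q hinr i0 hs r hr ψ hψ hinv
  have hwF : (w : F) ^ 2 + (w : F) + 1 = 0 := by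
    have := congrArg (fun y : 𝓞 F => (y : F)) hcfg.hw
    push_cast at this
    exact this
  have hwL : (algebraMap F L (w : F)) ^ 2 + algebraMap F L (w : F) + 1 = 0 := by
    have := congrArg (algebraMap F L) hwF
    rw [map_add, map_add, map_pow, map_one, map_zero] at this
    exact this
  obtain ⟨β, α, hβ0, hα0, hβ, hα, hcubα, hlcub⟩ := hKmm L _ hwL r ψ hψ
  obtain ⟨hσ3, h90⟩ := hH90 F L w x σ _ hcfg
  have hσ3' : ∀ y : L, (σ : L ≃+* L) ((σ : L ≃+* L) ((σ : L ≃+* L) y)) = y := hσ3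
  have hk0 : ∀ i, ψ (cube L (σ : L ≃+* L) (τ i) (hinr i).ext hσ3') = 0 := fun i =>
    hCub L (σ : L ≃+* L) (v i) (τ i) (Q i) (hinr i) _ (fun _ => rfl) r (S3 L) (hram i).n3 ψ hψ.1
  have hkβ : τ i0 (τ i0 (τ i0 β)) = β := by
    have h1 := hβ (cube L (σ : L ≃+* L) (τ i0) (hinr i0).ext hσ3')
    rw [hk0 i0] at h1
    rw [map_zero, ZMod.val_zero, pow_zero, map_one, one_mul] at h1
    exact h1
  obtain ⟨d, a, hd0, ha0, hsA, hda⟩ := exA w σ hcfg.hfix h90 (τ i0) hs ψ hinv β α hβ0 hα0 hβ hα hkβ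
  set A : AlgebraicClosure L := β / algebraMap L (AlgebraicClosure L) d with hA
  have hA3 : A ^ 3 = algebraMap L (AlgebraicClosure L) (algebraMap F L a) := by
    rw [hA, hda, div_pow, ← hα, map_div₀, map_pow]
  -- some element with nontrivial twist
  obtain ⟨v3, hv3⟩ := exists_prime_above L 3
  have hv3' : v3 ∈ S3 L := by
    show (3 : 𝓞 L) ∈ v3.asIdeal
    exact_mod_cast hv3
  have htw : ∃ h : GK L, twist L 3 r h ≠ 1 := by
    have ι : AlgebraicClosure L →ₐ[L] AlgebraicClosure (v3.adicCompletion L) := IsAlgClosed.lift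
    obtain ⟨_, h, _, hne⟩ := (hCyl L _ hwL r).2 hr v3 hv3' ι
    exact ⟨h, hne⟩
  have hτA : ∀ i, τ i A = A := by
    intro i
    have hg0 : ψ (quo L (σ : L ≃+* L) (τ i0) (τ i) hs (hinr i).ext) = 0 :=
      hGkk L (σ : L ≃+* L) (τ i0) (τ i) hs (hinr i).ext
        (hMur L (σ : L ≃+* L) (v i0) (τ i0) (Q i0) (hinr i0) (hram i0).n3).2
        (hMur L (σ : L ≃+* L) (v i) (τ i) (Q i) (hinr i) (hram i).n3).2
        (quo L (σ : L ≃+* L) (τ i0) (τ i) hs (hinr i).ext)
        (cube L (σ : L ≃+* L) (τ i) (hinr i).ext hσ3')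
        (fun y => ((τ i0).apply_symm_apply (τ i y)).symm) (fun _ => rfl) r ψ hψ.1.1 hinv (hk0 i) htw
    have h1 := hβ (quo L (σ : L ≃+* L) (τ i0) (τ i) hs (hinr i).ext)
    rw [hg0, map_zero, ZMod.val_zero, pow_zero, map_one, one_mul] at h1
    have h2 : quo L (σ : L ≃+* L) (τ i0) (τ i) hs (hinr i).ext A = A := by
      rw [hA, map_div₀, h1, AlgEquiv.commutes]
    have h3 : (τ i0).symm (τ i A) = A := h2
    rw [← hsA]
    conv_rhs => rw [← h3]
    rw [RingEquiv.apply_symm_apply, hsA]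
  have hcubA : ∀ v' : HeightOneSpectrum (𝓞 L), Cub v' (algebraMap F L a) := by
    intro v'
    obtain ⟨y, hy⟩ := hcubα v'
    refine ⟨y / d, ?_⟩
    rw [hda, map_div₀, map_pow, map_div₀, hy, div_pow]
  have hev : ev w (oE ^ ea * lE ^ eb * M0) = w ^ ea * (1 - w) ^ eb * ∏ i, (ev w (π i)) ^ c i := by
    rw [hprd.hM, ← evH_apply w hcfg.hw, map_mul, map_mul, map_pow, map_pow, map_prod,
      evH_apply, evH_apply, ev_oE, ev_lE]
    congr 1
    refine Finset.prod_congr rfl fun l _ => ?_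
    rw [map_pow, evH_apply]
  have hcubF : ∀ q' : HeightOneSpectrum (𝓞 F), (3 : 𝓞 F) ∉ q'.asIdeal →
      (∀ k, ev w (π k) ∉ q'.asIdeal) → Cub q' a := by
    intro q' h3 hk
    refine hUnr F L w x σ _ hcfg q' h3 ?_ a hcubA
    rw [hev]
    intro h
    rcases q'.isPrime.mem_or_mem h with h | h
    · rcases q'.isPrime.mem_or_mem h with h | h
      · exact w_notMem w hcfg.hw q' (q'.isPrime.mem_of_pow_mem _ h)
      · exact one_sub_w_notMem w hcfg.hw q' h3 (q'.isPrime.mem_of_pow_mem _ h)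
    · obtain ⟨l, _, hl⟩ := (Ideal.IsPrime.prod_mem_iff (hp := q'.isPrime)).1 h
      exact hk l (q'.isPrime.mem_of_pow_mem _ hl)
  obtain ⟨i, j, e, g, hi, hj, he, hg, hfac⟩ :=
    hFac F w hcfg.hF hcfg.hw t π hprd.pp hprd.inj a ha0 hcubF
  have he0 : ∀ k, e k = 0 := fun k =>
    local_stepT hRtt w x σ _ M0 hcfg t π c hprd k (q k) (v k) (hram k) (τ k) (Q k) (hinr k) A a hA3
      (hτA k) i j e g hg (he k) hfac
  have hprod1 : (∏ k, π k ^ e k) = 1 := Finset.prod_eq_one fun k _ => by rw [he0, pow_zero]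
  rw [hprod1, ev_one, mul_one] at hfac
  -- the place above three
  have hvσ : ∀ y : L, v3.valuation L ((σ : L ≃+* L) y) = v3.valuation L y := by
    intro y
    obtain ⟨v', h1, h2⟩ := hVsg L (σ : L ≃+* L) v3
    rw [h1 y, huni v' v3 (h2 hv3') hv3']
  have hA0 : A ≠ 0 := by
    refine div_ne_zero hβ0 ?_
    rw [Ne, FaithfulSMul.algebraMap_eq_zero_iff]
    exact hd0
  have hhA : ∀ h : GK L, h A = algebraMap L (AlgebraicClosure L)
      ((algebraMap F L (w : F)) ^ (PadicInt.toZMod (ψ h)).val) * A := by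
    intro h
    rw [hA, map_div₀, hβ h, AlgEquiv.commutes, mul_div_assoc]
  have hlc : LCubS v3 (σ : L ≃+* L) (algebraMap F L a) :=
    hDec L _ hwL (σ : L ≃+* L) (τ i0) hs hσ3'
      (hMur L (σ : L ≃+* L) (v i0) (τ i0) (Q i0) (hinr i0) (hram i0).n3).2 v3 hv3' hvσ
      (cube L (σ : L ≃+* L) (τ i0) (hinr i0).ext hσ3') (fun _ => rfl) r ψ hψ hinv (hk0 i0)
      A (algebraMap F L a) hA0 hA3 hsA hhA
  obtain ⟨f, z, d', hf0, hd', hfz⟩ := (hThG F L w x σ _ hcfg huni v3 hv3' a ha0).2 hlc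
  rw [hfac] at hfz
  obtain ⟨hi0, hj0⟩ := exps hIso hAlg w hcfg.hF hcfg.hw hwF i j hi hj g f hg hf0 z d' hd' hfz
  have hag : a = g ^ 3 := by
    rw [hfac, hi0, hj0]
    ring
  -- β is in L
  have hb0 : algebraMap L (AlgebraicClosure L) (algebraMap F L g * d) ≠ 0 := by
    rw [Ne, FaithfulSMul.algebraMap_eq_zero_iff, mul_eq_zero, FaithfulSMul.algebraMap_eq_zero_iff]
    exact fun h => h.elim hg hd0
  have hroot : (β / algebraMap L (AlgebraicClosure L) (algebraMap F L g * d)) ^ 3 = 1 := by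
    rw [div_pow, ← hα, div_eq_one_iff_eq (pow_ne_zero 3 hb0), ← map_pow]
    congr 1
    have h1 : α = algebraMap F L a * d ^ 3 := by
      rw [hda, div_mul_cancel₀ _ (pow_ne_zero 3 hd0)]
    rw [h1, hag, map_pow]
    ring
  have hwΩ : (algebraMap L (AlgebraicClosure L) (algebraMap F L (w : F))) ^ 2 +
      algebraMap L (AlgebraicClosure L) (algebraMap F L (w : F)) + 1 = 0 := by
    have := congrArg (algebraMap L (AlgebraicClosure L)) hwL
    rw [map_add, map_add, map_pow, map_one, map_zero] at this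
    exact this
  obtain ⟨l, hl⟩ := cube_root _ _ hwΩ hroot
  refine final L _ hwL ψ β hβ0 hβ
    ((algebraMap F L (w : F)) ^ l * (algebraMap F L g * d)) ?_
  rw [map_mul, map_pow, ← hl, div_mul_cancel₀ _ hb0]

end Pool.Agent.Work.MP_59f3ad_nt.Q3
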