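import Mathlib
import Pool.Agent.Work.MP_59f3ad_nt.Q3.StmtsT
import Pool.Agent.Work.MP_59f3ad_nt.Q3.I_Slo
import Pool.Agent.Work.MP_59f3ad_nt.Q3.I_Kmm

set_option autoImplicit false

/-!
Item Loc of the block Q3: local triviality with the automorphism.
-/

open NumberField IsDedekindDomain

namespace Pool.Agent.Work.MP_59f3ad_nt.Q3

universe u

namespace ILoc

section

variable {L : Type u} [Field L] [NumberField L] (v : HeightOneSpectrum (𝓞 L)) (σ : L ≃+* L)

/-- the extension of the automorphism to the completion is continuous -/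
theorem sv_cont (h : ∀ y : L, v.valuation L (σ y) = v.valuation L y)
    (h' : ∀ y : L, v.valuation L (σ.symm y) = v.valuation L y) : Continuous (ISlo.sv v σ h h') := by
  have h1 : Continuous (fun x : (v.valuation L).Completion =>
      UniformSpace.Completion.mapRingHom (ISlo.fv v σ) (ISlo.fv_cont v σ h) x) := by
    exact UniformSpace.Completion.continuous_map (f := ISlo.fv v σ)
  exact (HeightOneSpectrum.adicCompletion.continuous_ofCompletion L v).comp
    (h1.comp (HeightOneSpectrum.adicCompletion.continuous_toCompletion L v))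

theorem val_coe (y : L) : Valued.v (algebraMap L (v.adicCompletion L) y) = v.valuation L y :=
  HeightOneSpectrum.valuedAdicCompletion_eq_valuation' v y

/-- the extension of the automorphism to the completion is isometric -/
theorem sv_val (h : ∀ y : L, v.valuation L (σ y) = v.valuation L y)
    (h' : ∀ y : L, v.valuation L (σ.symm y) = v.valuation L y) (a : v.adicCompletion L) :
    Valued.v (ISlo.sv v σ h h' a) = Valued.v a := by
  by_cases ha : a = 0
  · rw [ha, map_zero]
  have hva : Valued.v a ≠ 0 := (Valuation.ne_zero_iff _).2 ha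
  -- a neighbourhood of `a`
  have hop : IsOpen {y : v.adicCompletion L | Valued.v (ISlo.sv v σ h h' (a - y)) < Valued.v a ∧
      Valued.v (a - y) < Valued.v a} := by
    have hb : ∀ x₀ : v.adicCompletion L, IsOpen {x : v.adicCompletion L | Valued.v x < Valued.v x₀} := by
      intro x₀
      have h1 := Valued.isOpen_ball (v.adicCompletion L) (Valued.v.restrict x₀)
      have h2 : {x : v.adicCompletion L | Valued.v x < Valued.v x₀} =
          {x | Valued.v.restrict x < Valued.v.restrict x₀} := by
        ext y
        simp [Valuation.restrict_lt_iff]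
      rw [h2]
      exact h1
    exact ((hb a).preimage ((sv_cont v σ h h').comp (continuous_const.sub continuous_id))).inter
      ((hb a).preimage (continuous_const.sub continuous_id))
  obtain ⟨y, hy⟩ := (HeightOneSpectrum.denseRange_algebraMap (R := 𝓞 L) L v).exists_mem_open hop
    ⟨a, by
      simp only [Set.mem_ofPred_eq, sub_self, map_zero]
      exact ⟨zero_lt_iff.2 hva, zero_lt_iff.2 hva⟩⟩
  obtain ⟨hy1, hy2⟩ := hy
  have e1 : Valued.v (algebraMap L (v.adicCompletion L) y) = Valued.v a := by
    have e2 : algebraMap L (v.adicCompletion L) y = -(a - algebraMap L (v.adicCompletion L) y) + a := by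
      ring
    rw [e2, Valuation.map_add_eq_of_lt_right]
    rw [Valuation.map_neg]
    exact hy2
  have e3 : ISlo.sv v σ h h' a = ISlo.sv v σ h h' (a - algebraMap L (v.adicCompletion L) y) +
      algebraMap L (v.adicCompletion L) (σ y) := by
    rw [← ISlo.sv_algebraMap v σ h h', ← map_add, sub_add_cancel]
  have e4 : Valued.v (algebraMap L (v.adicCompletion L) (σ y)) = Valued.v a := by
    rw [val_coe, h, ← val_coe, e1]
  rw [e3, Valuation.map_add_eq_of_lt_right, e4]
  rw [e4]
  exact hy1

/-- the third power is trivial -/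
theorem sv_three (h : ∀ y : L, v.valuation L (σ y) = v.valuation L y)
    (h' : ∀ y : L, v.valuation L (σ.symm y) = v.valuation L y) (h3 : ∀ y, σ (σ (σ y)) = y)
    (a : v.adicCompletion L) :
    ISlo.sv v σ h h' (ISlo.sv v σ h h' (ISlo.sv v σ h h' a)) = a := by
  by_contra hne
  have hne' : ISlo.sv v σ h h' (ISlo.sv v σ h h' (ISlo.sv v σ h h' a)) - a ≠ 0 := sub_ne_zero.2 hne
  obtain ⟨y, hy⟩ := IKmm.approx L v a _ hne'
  set S := ISlo.sv v σ h h' with hS
  have e1 : S (S (S (algebraMap L (v.adicCompletion L) y))) = algebraMap L (v.adicCompletion L) y := by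
    rw [hS, ISlo.sv_algebraMap, ISlo.sv_algebraMap, ISlo.sv_algebraMap, h3]
  have e2 : S (S (S a)) - a = (algebraMap L (v.adicCompletion L) y - a) -
      S (S (S (algebraMap L (v.adicCompletion L) y - a))) := by
    rw [map_sub, map_sub, map_sub, e1]
    ring
  have e3 : Valued.v (S (S (S (algebraMap L (v.adicCompletion L) y - a)))) =
      Valued.v (algebraMap L (v.adicCompletion L) y - a) := by
    rw [hS, sv_val, sv_val, sv_val]
  have e4 : Valued.v (S (S (S a)) - a) ≤ Valued.v (algebraMap L (v.adicCompletion L) y - a) := by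
    rw [e2]
    refine (Valuation.map_sub _ _ _).trans ?_
    rw [e3, max_self]
  exact absurd (hy.trans_le e4) (lt_irrefl _)

/-- approximation of a local cube root which is stable -/
theorem lcubs (h : ∀ y : L, v.valuation L (σ y) = v.valuation L y)
    (h' : ∀ y : L, v.valuation L (σ.symm y) = v.valuation L y)
    (α : L) (η : v.adicCompletion L) (hη : η ^ 3 = algebraMap L (v.adicCompletion L) α) (hη0 : η ≠ 0)
    (hs : ISlo.sv v σ h h' η = η) : LCubS v σ α := by
  intro n
  have hv1 := val_coe (L := L) v
  obtain ⟨ϖ, hϖ⟩ := v.valuation_exists_uniformizer L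
  have hϖ0 : ϖ ≠ 0 := by
    rintro rfl
    rw [map_zero] at hϖ
    exact WithZero.exp_ne_zero hϖ.symm
  have hx0 : η * algebraMap L (v.adicCompletion L) (ϖ ^ n) ≠ 0 :=
    mul_ne_zero hη0 (by
      rw [Ne, map_eq_zero]
      exact pow_ne_zero _ hϖ0)
  obtain ⟨y, hy⟩ := IKmm.approx L v η _ hx0
  have he : v.valuation L (ϖ ^ n) = WithZero.exp (-(n : ℤ)) := by
    rw [map_pow, hϖ, ← WithZero.exp_nsmul]
    simp
  have he1 : WithZero.exp (-(n : ℤ)) ≤ 1 := by
    rw [← WithZero.exp_zero, WithZero.exp_le_exp]
    omega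
  rw [map_mul, hv1, he] at hy
  have hvη : Valued.v η ≠ 0 := (Valuation.ne_zero_iff _).2 hη0
  have hlt : Valued.v (algebraMap L (v.adicCompletion L) y - η) < Valued.v η :=
    hy.trans_le (mul_le_of_le_one_right' he1)
  have hyη : Valued.v (algebraMap L (v.adicCompletion L) y) = Valued.v η := by
    have h1 : algebraMap L (v.adicCompletion L) y =
        (algebraMap L (v.adicCompletion L) y - η) + η := by ring
    rw [h1, Valuation.map_add_eq_of_lt_right _ hlt]
  have hy0 : algebraMap L (v.adicCompletion L) y ≠ 0 := by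
    intro h0
    rw [h0, map_zero] at hyη
    exact hvη hyη.symm
  have hyK : y ≠ 0 := by
    rintro rfl
    exact hy0 (map_zero _)
  refine ⟨y, hyK, ?_, ?_⟩
  · set l : v.adicCompletion L := algebraMap L (v.adicCompletion L) y with hl
    have h2 : algebraMap L (v.adicCompletion L) (α / y ^ 3 - 1) =
        (η / l - 1) * ((η / l) ^ 2 + η / l + 1) := by
      rw [map_sub, map_div₀, map_pow, map_one, ← hη, ← hl]
      field_simp
      ring
    have h3 : Valued.v (η / l) = 1 := by
      rw [map_div₀, hyη, div_self hvη]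
    have h4 : Valued.v ((η / l) ^ 2 + η / l + 1) ≤ 1 := by
      refine (Valued.v.map_add _ _).trans (max_le ((Valued.v.map_add _ _).trans (max_le ?_ ?_)) ?_)
      · rw [map_pow, h3, one_pow]
      · rw [h3]
      · rw [map_one]
    have h5 : Valued.v (η / l - 1) ≤ WithZero.exp (-(n : ℤ)) := by
      have h6 : η / l - 1 = -(l - η) / l := by
        field_simp
        ring
      rw [h6, map_div₀, Valuation.map_neg, hyη]
      rw [div_le_iff₀ (zero_lt_iff.2 hvη), mul_comm]
      exact hy.le
    rw [← hv1, h2, map_mul]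
    exact (mul_le_mul' h5 h4).trans (mul_one _).le
  · have e1 : algebraMap L (v.adicCompletion L) (σ y / y - 1) =
        (ISlo.sv v σ h h' (algebraMap L (v.adicCompletion L) y - η) -
          (algebraMap L (v.adicCompletion L) y - η)) / algebraMap L (v.adicCompletion L) y := by
      rw [map_sub (ISlo.sv v σ h h'), hs, ISlo.sv_algebraMap, map_sub, map_div₀, map_one]
      field_simp
      ring
    rw [← hv1, e1, map_div₀, hyη, div_le_iff₀ (zero_lt_iff.2 hvη)]
    refine (Valuation.map_sub _ _ _).trans ?_
    rw [sv_val, max_self, mul_comm]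
    exact hy.le

end

/-- two embeddings of the algebraic closure differ by an automorphism -/
theorem two_emb {L : Type u} [Field L] {C : Type u} [Field C] [Algebra L C]
    (ι ι' : AlgebraicClosure L →ₐ[L] C) :
    ∃ g : GK L, ∀ y, ι (g y) = ι' y := by
  letI : Algebra (AlgebraicClosure L) C := (ι : AlgebraicClosure L →+* C).toAlgebra
  haveI : IsScalarTower L (AlgebraicClosure L) C := IsScalarTower.of_algebraMap_eq fun x => by
    change _ = ι (algebraMap L (AlgebraicClosure L) x)
    rw [ι.commutes]
  refine ⟨AlgHom.restrictNormal' ι' (AlgebraicClosure L), fun y => ?_⟩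
  have := AlgHom.restrictNormal_commutes ι' (AlgebraicClosure L) y
  exact this

end ILoc

theorem pr_Loc : StLoc.{u} := by
  intro L _ _ σ s hs h3 v h1 ι
  have h2 : ∀ y : L, v.valuation L (σ.symm y) = v.valuation L y := by
    intro y
    have := h1 (σ.symm y)
    rw [σ.apply_symm_apply] at this
    exact this.symm
  set sv := ISlo.sv v σ h1 h2 with hsv
  set θ : AlgebraicClosure (v.adicCompletion L) ≃+* AlgebraicClosure (v.adicCompletion L) :=
    IsAlgClosure.equivOfEquiv (AlgebraicClosure (v.adicCompletion L))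
      (AlgebraicClosure (v.adicCompletion L)) sv with hθ
  have hθa : ∀ a : v.adicCompletion L,
      θ (algebraMap (v.adicCompletion L) (AlgebraicClosure (v.adicCompletion L)) a) =
        algebraMap (v.adicCompletion L) (AlgebraicClosure (v.adicCompletion L)) (sv a) :=
    fun a => IsAlgClosure.equivOfEquiv_algebraMap _ _ sv a
  have hθL : ∀ y : L, θ (algebraMap L (AlgebraicClosure (v.adicCompletion L)) y) =
      algebraMap L (AlgebraicClosure (v.adicCompletion L)) (σ y) := by
    intro y
    rw [IsScalarTower.algebraMap_apply L (v.adicCompletion L)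
      (AlgebraicClosure (v.adicCompletion L)) y, hθa,
      IsScalarTower.algebraMap_apply L (v.adicCompletion L)
      (AlgebraicClosure (v.adicCompletion L)) (σ y)]
    rw [hsv, ISlo.sv_algebraMap]
  let ι' : AlgebraicClosure L →ₐ[L] AlgebraicClosure (v.adicCompletion L) :=
    { ((θ.symm : AlgebraicClosure (v.adicCompletion L) →+* AlgebraicClosure (v.adicCompletion L)).comp
        ((ι : AlgebraicClosure L →+* AlgebraicClosure (v.adicCompletion L)).comp
          (s : AlgebraicClosure L →+* AlgebraicClosure L))) with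
      commutes' := by
        intro y
        change θ.symm (ι (s (algebraMap L (AlgebraicClosure L) y))) = _
        rw [hs y, ι.commutes, ← hθL, RingEquiv.symm_apply_apply] }
  have hι' : ∀ x, ι' x = θ.symm (ι (s x)) := fun _ => rfl
  obtain ⟨g₀, hg₀⟩ := ILoc.two_emb ι ι'
  -- `g = g₀⁻¹`
  have hg : ∀ y, ι (s (g₀.symm y)) = θ (ι y) := by
    intro y
    have e1 := hg₀ (g₀.symm y)
    rw [AlgEquiv.apply_symm_apply, hι'] at e1
    rw [e1, RingEquiv.apply_symm_apply]
  set s' : AlgebraicClosure L ≃+* AlgebraicClosure L :=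
    (g₀.symm : AlgebraicClosure L ≃+* AlgebraicClosure L).trans s with hs'
  have hs'a : ∀ y, s' y = s (g₀.symm y) := fun _ => rfl
  have hs'L : ∀ y : L, s' (algebraMap L (AlgebraicClosure L) y) =
      algebraMap L (AlgebraicClosure L) (σ y) := by
    intro y
    rw [hs'a, g₀.symm.commutes, hs]
  have hs'ι : ∀ y, ι (s' y) = θ (ι y) := hg
  let k' : GK L := AlgEquiv.ofRingEquiv (f := (s'.trans s').trans s') (by
    intro y
    change s' (s' (s' (algebraMap L (AlgebraicClosure L) y))) = _
    rw [hs'L, hs'L, hs'L, h3])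
  have hk' : ∀ y, k' y = s' (s' (s' y)) := fun _ => rfl
  let γ₀ : GK (v.adicCompletion L) := AlgEquiv.ofRingEquiv (f := (θ.trans θ).trans θ) (by
    intro a
    change θ (θ (θ (algebraMap (v.adicCompletion L) (AlgebraicClosure (v.adicCompletion L)) a))) = _
    rw [hθa, hθa, hθa, hsv, ILoc.sv_three v σ h1 h2 h3])
  have hγ₀ : ∀ y, γ₀ y = θ (θ (θ y)) := fun _ => rfl
  refine ⟨g₀.symm, k', fun y => rfl, ⟨γ₀, fun y => ?_⟩, ?_⟩
  · rw [hk', hγ₀, hs'ι, hs'ι, hs'ι]
  · intro A a hA hAa hsA hloc
    have hfix : ∀ γ : GK (v.adicCompletion L), γ (ι A) = ι A := by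
      intro γ
      let ι'' : AlgebraicClosure L →ₐ[L] AlgebraicClosure (v.adicCompletion L) :=
        (γ.toAlgHom.restrictScalars L).comp ι
      obtain ⟨h, hh⟩ := ILoc.two_emb ι ι''
      have e1 : ∀ y, ι (h y) = γ (ι y) := hh
      rw [← e1, hloc γ h e1]
    haveI hchar : CharZero (v.adicCompletion L) :=
      charZero_of_injective_algebraMap (algebraMap L (v.adicCompletion L)).injective
    have hbot : ι A ∈ (⊥ : IntermediateField (v.adicCompletion L)
        (AlgebraicClosure (v.adicCompletion L))) :=
      (InfiniteGalois.mem_bot_iff_fixed _).2 hfix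
    rw [IntermediateField.mem_bot] at hbot
    obtain ⟨η, hη⟩ := hbot
    have hη0 : η ≠ 0 := by
      rintro rfl
      rw [map_zero] at hη
      exact hA ((map_eq_zero ι).1 hη.symm)
    have hinj : Function.Injective (algebraMap (v.adicCompletion L)
        (AlgebraicClosure (v.adicCompletion L))) :=
      (algebraMap (v.adicCompletion L) (AlgebraicClosure (v.adicCompletion L))).injective
    refine ILoc.lcubs v σ h1 h2 a η ?_ hη0 ?_
    · apply hinj
      rw [map_pow, hη, ← map_pow, hAa, ι.commutes]
      rw [← IsScalarTower.algebraMap_apply]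
    · apply hinj
      rw [← hsv, ← hθa, hη, ← hs'ι]
      rw [hs'a, hsA]

end Pool.Agent.Work.MP_59f3ad_nt.Q3
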