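import Mathlib
import Pool.Agent.Work.MP_59f3ad_nt.Q3.StmtsT
import Pool.Agent.Work.MP_59f3ad_nt.Q3.StmtsR
import Pool.Agent.Work.MP_59f3ad_nt.Q3.I_RcA

/-!
Item RcQ of the block Q3, part T: the cubic index of a rational prime modulo a primary prime.
-/

namespace Pool.Agent.Work.MP_59f3ad_nt.Q3

namespace IRcQ

/-- The Gauss sum computation for `q = 2 mod 3`. -/
theorem core2 (p q : ℕ) [hp : Fact p.Prime] [hq : Fact q.Prime] (hne : p ≠ q) (h3 : q % 3 = 2)
    (K : Type) [Field K] [CharP K q] [IsSepClosed K] (φ : MulChar (ZMod p) K)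
    (hφ3 : φ ^ 3 = 1) (hφ1 : φ ≠ 1) (hm1 : φ (-1) = 1) :
    ((p : K) * jacobiSum φ φ) ^ ((q ^ 2 - 1) / 3) = φ (q : ZMod p) := by
  have hpK : (p : K) ≠ 0 := by
    intro h
    rw [CharP.cast_eq_zero_iff K q] at h
    exact hne ((Nat.prime_dvd_prime_iff_eq hq.out hp.out).mp h).symm
  haveI : NeZero (p : K) := ⟨hpK⟩
  haveI : NeZero p := ⟨hp.out.ne_zero⟩
  obtain ⟨ζ, hζ⟩ := HasEnoughRootsOfUnity.exists_primitiveRoot K p
  set ψ : AddChar (ZMod p) K := AddChar.zmodChar p hζ.pow_eq_one with hψdef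
  have hψ : ψ.IsPrimitive := AddChar.zmodChar_primitive_of_primitive_root p hζ
  set g : K := gaussSum φ ψ with hg
  have hcard : (Fintype.card (ZMod p) : K) ≠ 0 := by rw [ZMod.card]; exact hpK
  have hg0 : g ≠ 0 := gaussSum_ne_zero_of_nontrivial hcard hφ1 hψ
  have hsq : φ * φ ≠ 1 := by
    intro h
    apply hφ1
    have h2 : φ ^ 3 = φ * φ * φ := by rw [pow_succ, pow_two]
    rw [h, one_mul] at h2
    rw [← h2, hφ3]
  have hord : orderOf φ = 3 := orderOf_eq_prime hφ3 hφ1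
  have e1 := jacobiSum_mul_nontrivial hsq ψ
  have e2 := gaussSum_mul_gaussSum_pow_orderOf_sub_one hφ1 hψ
  rw [hord, hm1, one_mul, ZMod.card] at e2
  have e2' : g * gaussSum (φ * φ) ψ = (p : K) := by
    rw [← e2, show (3 - 1 : ℕ) = 2 from rfl, pow_two]
  have hg3 : g ^ 3 = (p : K) * jacobiSum φ φ := by
    rw [← e2', mul_assoc, e1, ← hg]
    ring
  obtain ⟨m, hm⟩ : ∃ m, q = 3 * m + 2 := ⟨q / 3, by omega⟩
  obtain ⟨n, hn⟩ : ∃ n, n = 3 * m ^ 2 + 4 * m + 1 := ⟨_, rfl⟩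
  have hqq : q * q = 3 * n + 1 := by
    rw [hm, hn]
    ring
  have hφq : φ ^ (q * q) = φ := by
    rw [hqq, pow_succ, pow_mul, hφ3, one_pow, one_mul]
  have hcop : q.Coprime p := (Nat.coprime_primes hq.out hp.out).mpr (Ne.symm hne)
  have hcop2 : (q * q).Coprime p := Nat.coprime_mul_iff_left.2 ⟨hcop, hcop⟩
  have e3 : g ^ (q * q) = gaussSum φ (ψ ^ (q * q)) := by
    have a1 := gaussSum_frob q φ ψ
    have a2 := gaussSum_frob q (φ ^ q) (ψ ^ q)
    rw [hg, pow_mul, a1, a2, ← pow_mul, ← pow_mul, hφq]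
  rw [AddChar.pow_mulShift] at e3
  have e4 := gaussSum_mulShift φ ψ (ZMod.unitOfCoprime (q * q) hcop2)
  rw [ZMod.coe_unitOfCoprime, ← e3, ← hg] at e4
  have e5 : φ ((q * q : ℕ) : ZMod p) * g ^ (3 * n) = 1 := by
    rw [hqq] at e4 ⊢
    rw [pow_succ, ← mul_assoc] at e4
    exact mul_right_cancel₀ hg0 (by rw [e4, one_mul])
  have e6 : φ ((q * q : ℕ) : ZMod p) * φ (q : ZMod p) = 1 := by
    rw [← map_mul, Nat.cast_mul]
    have h7 : φ ((q : ZMod p) * q * q) = (φ ^ 3) (q : ZMod p) := by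
      rw [MulChar.pow_apply' φ (by norm_num), map_mul, map_mul]
      ring
    rw [h7, hφ3]
    have h8 : (q : ZMod p) = ((ZMod.unitOfCoprime q hcop : (ZMod p)ˣ) : ZMod p) := by
      rw [ZMod.coe_unitOfCoprime]
    rw [h8, MulChar.one_apply_coe]
  have e7 : g ^ (3 * n) = φ (q : ZMod p) := by
    have h9 : φ ((q * q : ℕ) : ZMod p) ≠ 0 := left_ne_zero_of_mul_eq_one e6
    exact mul_left_cancel₀ h9 (by rw [e5, e6])
  have hk : (q ^ 2 - 1) / 3 = n := by
    rw [pow_two, hqq]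
    omega
  rw [hk, ← hg3, ← pow_mul]
  exact e7

end IRcQ

open IRcA IRcQ in
theorem pr_RcQ (h1 : StRho) (h2 : StInd) (h3 : StChr) (h4 : StJac) : StRcQ := by
  intro π hπ q hqp hne K _ _ W hW
  haveI hp : Fact (nm π).Prime := ⟨hπ.pr⟩
  obtain ⟨hρ, hdv, hmod, h7, hρ1⟩ := h1 π hπ
  obtain ⟨hi1, hi2, hi3, hi4, hi5, hi6⟩ := h2 π hπ
  obtain ⟨χ, hχ⟩ := h3 π hπ
  have hJ := h4 π hπ χ hχ
  by_cases hq3 : q = 3
  · constructor
    · intro h; omega
    · intro h; omega
  let K1 : Type := AlgebraicClosure K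
  let a : K →+* K1 := algebraMap K K1
  have ainj : Function.Injective a := RingHom.injective a
  haveI : CharP K1 q := charP_of_injective_algebraMap ainj q
  have hW1 : (a W) ^ 2 + a W + 1 = 0 := by
    rw [← map_pow, ← map_add, ← map_one a, ← map_add, hW, map_zero]
  let f : E →+* K1 := evH (a W) hW1
  have hf : ∀ z : E, f z = a (ev W z) := by
    intro z
    change ev (a W) z = a (ev W z)
    unfold ev
    rw [map_add, map_mul, map_intCast, map_intCast]
  set r : K1 := a W with hr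
  have hK3 : r ^ 3 = 1 := by linear_combination (r - 1) * hW1
  have hK1 : r ≠ 1 := by
    intro h
    rw [h] at hW1
    have h5 : ((3 : ℕ) : K1) = 0 := by
      push_cast
      linear_combination hW1
    rw [CharP.cast_eq_zero_iff K1 q] at h5
    exact hq3 ((Nat.prime_dvd_prime_iff_eq hqp.out Nat.prime_three).mp h5)
  have hfω : f (⟨0, 1⟩ : E) = r := by
    change ev r (⟨0, 1⟩ : E) = r
    simp [ev]
  set φ : MulChar (ZMod (nm π)) K1 := χ.ringHomComp f with hφ
  have hφv : ∀ z : E, ¬ π ∣ z → φ (ev (rho π) z) = r ^ (ind π z).val := by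
    intro z hz
    rw [hφ, MulChar.ringHomComp_apply, hχ z hz, map_pow, hfω]
  have hcast : ∀ n : ℕ, ev (rho π) ((n : ℕ) : E) = (n : ZMod (nm π)) := by
    intro n
    rw [← evH_apply (rho π) hρ, map_natCast]
  -- every unit is the value at an element not divisible by `π`
  have hsurj : ∀ u : (ZMod (nm π))ˣ, ∃ z : E, ¬ π ∣ z ∧ ev (rho π) z = (u : ZMod (nm π)) := by
    intro u
    refine ⟨(((u : ZMod (nm π)).val : ℕ) : E), ?_, ?_⟩
    · rw [← hdv, hcast, ZMod.natCast_val, ZMod.cast_id]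
      exact u.ne_zero
    · rw [hcast, ZMod.natCast_val, ZMod.cast_id]
  have hφ3 : φ ^ 3 = 1 := by
    ext u
    obtain ⟨z, hz, hzu⟩ := hsurj u
    rw [MulChar.pow_apply_coe, ← hzu, hφv z hz, ← pow_mul, mul_comm, pow_mul, hK3, one_pow,
      hzu, MulChar.one_apply_coe]
  have hφ1 : φ ≠ 1 := by
    intro h
    obtain ⟨g, hg⟩ := IsCyclic.exists_ofOrder_eq_natCard (α := (ZMod (nm π))ˣ)
    obtain ⟨z, hz, hzg⟩ := hsurj g
    have e1 : φ (ev (rho π) z) = 1 := by
      rw [hzg, h, MulChar.one_apply_coe]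
    rw [hφv z hz] at e1
    have e2 := exp_dvd hK3 hK1 e1
    have e3 : (ind π z).val < 3 := ZMod.val_lt _
    have e4 : (ind π z).val = 0 := Nat.eq_zero_of_dvd_of_lt e2 e3
    have e5 := hi1 z hz
    rw [e4, pow_zero, hzg] at e5
    have e6 : g ^ ((nm π - 1) / 3) = 1 := by
      apply Units.ext
      rw [Units.val_pow_eq_pow_val, e5, Units.val_one]
    have e7 := orderOf_dvd_of_pow_eq_one e6
    rw [hg, Nat.card_eq_fintype_card, ZMod.card_units_eq_totient,
      Nat.totient_prime hπ.pr] at e7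
    have e8 := Nat.le_of_dvd (by omega) e7
    omega
  have hm1 : φ (-1) = 1 := by
    have e1 : ev (rho π) (-1) = -1 := by
      rw [← evH_apply (rho π) hρ, map_neg, map_one]
    have e2 : ¬ π ∣ (-1 : E) := by
      rw [← hdv, e1]
      exact neg_ne_zero.mpr one_ne_zero
    have e3 := hφv (-1) e2
    rw [e1, hi5, ZMod.val_zero, pow_zero] at e3
    exact e3
  have hJφ : jacobiSum φ φ = - f π := by
    rw [hφ, jacobiSum_ringHomComp, hJ, map_neg]
  have n5 : ¬ π ∣ ((q : ℕ) : E) := by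
    rw [← hdv, hcast, ZMod.natCast_eq_zero_iff]
    intro h
    exact hne ((Nat.prime_dvd_prime_iff_eq hπ.pr hqp.out).mp h).symm
  have hφq : φ (q : ZMod (nm π)) = r ^ (ind π ((q : ℕ) : E)).val := by
    rw [← hcast, hφv _ n5]
  constructor
  · intro hq2
    have hmain := core2 (nm π) q (Ne.symm hne) hq2 K1 φ hφ3 hφ1 hm1
    rw [hJφ, hφq, hf] at hmain
    apply ainj
    rw [map_pow, map_pow, ← hr, ← hmain]
    have hsplit : ((nm π : ℕ) : K1) * - a (ev W π) = (-((nm π : ℕ) : K1)) * a (ev W π) := by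
      ring
    rw [hsplit, mul_pow]
    have hone : (-((nm π : ℕ) : K1)) ^ ((q ^ 2 - 1) / 3) = 1 := by
      obtain ⟨m, hm⟩ : ∃ m, q = 3 * m + 2 := ⟨q / 3, by omega⟩
      have hN : (q ^ 2 - 1) / 3 = (q - 1) * (m + 1) := by
        have h8 : q ^ 2 - 1 = 3 * ((q - 1) * (m + 1)) := by
          have h9 : q - 1 = 3 * m + 1 := by omega
          rw [h9, hm]
          have h10 : (3 * m + 2) ^ 2 = 3 * ((3 * m + 1) * (m + 1)) + 1 := by ring
          rw [h10, Nat.add_sub_cancel]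
        rw [h8, Nat.mul_div_cancel_left _ (by norm_num)]
      have hc0 : (-((nm π : ℕ) : ZMod q)) ≠ 0 := by
        rw [neg_ne_zero]
        intro h
        rw [ZMod.natCast_eq_zero_iff] at h
        exact hne ((Nat.prime_dvd_prime_iff_eq hqp.out hπ.pr).mp h)
      have hc1 := ZMod.pow_card_sub_one_eq_one hc0
      have hc2 : (-((nm π : ℕ) : K1)) = ZMod.castHom (dvd_refl q) K1 (-((nm π : ℕ) : ZMod q)) := by
        rw [map_neg, map_natCast]
      rw [hN, pow_mul, hc2, ← map_pow, hc1, map_one, one_pow]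
    rw [hone, one_mul]
  · intro hq1
    have hmain := core (nm π) q (Ne.symm hne) (by omega) K1 φ hφ3 hφ1 hm1
    rw [hJφ, hφq, hf] at hmain
    apply ainj
    rw [map_mul, map_mul, map_pow, map_pow, map_pow, map_natCast, map_one, ← hr, ← hmain]
    have heven : Even ((q - 1) / 3) := by
      have hodd : q % 2 = 1 := by
        rcases hqp.out.eq_two_or_odd with h | h
        · omega
        · exact h
      rw [Nat.even_iff]
      omega
    rw [mul_pow, heven.neg_pow]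

end Pool.Agent.Work.MP_59f3ad_nt.Q3
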