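import Mathlib
import Pool.Agent.Work.MP_59f3ad_nt.Q3.StmtsT
import Pool.Agent.Work.MP_59f3ad_nt.Q3.StmtsR
import Pool.Agent.Work.MP_59f3ad_nt.Q3.I_Rho

/-!
Item SPA of block Q3, part T (helper49): the index of the divisors of the real part of a primary
prime.
-/

open NumberField IsDedekindDomain

namespace Pool.Agent.Work.MP_59f3ad_nt.Q3

namespace ISpa

theorem nm_cast (z : E) : ((nm z : ℕ) : ℤ) = z.re ^ 2 - z.re * z.im + z.im ^ 2 := by
  unfold nm
  apply Int.natAbs_of_nonneg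
  nlinarith [sq_nonneg (2 * z.re - z.im), sq_nonneg z.im]

theorem ev_nat {R : Type*} [CommRing R] (w : R) (n : ℕ) : ev w ((n : ℕ) : E) = (n : R) := by
  unfold ev
  rw [QuadraticAlgebra.re_natCast, QuadraticAlgebra.im_natCast]
  simp

/-- A prime which divides `a` and `b`, or `a` and the norm. -/
theorem not_both {π : E} (h : PP π) {q : ℕ} (hq : q.Prime) (ha : (q : ℤ) ∣ π.re) :
    ¬ (q : ℤ) ∣ π.im := by
  intro hb
  obtain ⟨u, hu⟩ := ha
  obtain ⟨v, hv⟩ := hb
  have h1 : ((q ^ 2 : ℕ) : ℤ) ∣ ((nm π : ℕ) : ℤ) := by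
    rw [nm_cast, hu, hv]
    refine ⟨u ^ 2 - u * v + v ^ 2, ?_⟩
    push_cast
    ring
  have h2 : q ^ 2 ∣ nm π := Int.natCast_dvd_natCast.1 h1
  have h3 : q ∣ nm π := (Dvd.intro_left q (by ring)).trans h2
  have h4 : q = nm π := (Nat.prime_dvd_prime_iff_eq hq h.pr).1 h3
  rw [← h4] at h2
  have h5 := Nat.le_of_dvd hq.pos h2
  have h6 := hq.two_le
  nlinarith

theorem not_norm {π : E} (h : PP π) {n : ℕ} (ha : (n : ℤ) ∣ π.re) : ¬ nm π ∣ n := by
  intro hp
  have h1 : ((nm π : ℕ) : ℤ) ∣ π.re := (Int.natCast_dvd_natCast.2 hp).trans ha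
  have h2 : ((nm π : ℕ) : ℤ) ∣ π.im ^ 2 := by
    have h3 : π.im ^ 2 = ((nm π : ℕ) : ℤ) - π.re * (π.re - π.im) := by
      rw [nm_cast]
      ring
    rw [h3]
    exact dvd_sub (dvd_refl _) (h1.mul_right _)
  have h4 : ((nm π : ℕ) : ℤ) ∣ π.im := (Nat.prime_iff_prime_int.1 h.pr).dvd_of_dvd_pow h2
  exact not_both h h.pr h1 h4

theorem exp_mod {K : Type*} [Field K] {r : K} (h3 : r ^ 3 = 1) (h1 : r ≠ 1) {m n : ℕ}
    (hn : r ^ m = r ^ n) : (m : ZMod 3) = n := by
  have ho : orderOf r = 3 := orderOf_eq_prime h3 h1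
  have hr : IsPrimitiveRoot r 3 := by
    rw [← ho]
    exact IsPrimitiveRoot.orderOf r
  have e : ∀ k : ℕ, r ^ k = r ^ (k % 3) := by
    intro k
    conv_lhs => rw [← Nat.div_add_mod k 3, pow_add, pow_mul, h3, one_pow, one_mul]
  rw [e m, e n] at hn
  have h4 := hr.pow_inj (Nat.mod_lt _ (by norm_num)) (Nat.mod_lt _ (by norm_num)) hn
  exact (ZMod.natCast_eq_natCast_iff m n 3).2 h4

theorem add_f {m n : ℕ} (hm : ¬ 3 ∣ m) (hn : ¬ 3 ∣ n) :
    ((((m * n) ^ 2 - 1) / 3 : ℕ) : ZMod 3) =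
      (((m ^ 2 - 1) / 3 : ℕ) : ZMod 3) + (((n ^ 2 - 1) / 3 : ℕ) : ZMod 3) := by
  have key : ∀ k : ℕ, ¬ 3 ∣ k → ∃ u, k ^ 2 = 3 * u + 1 := by
    intro k hk
    refine ⟨k ^ 2 / 3, ?_⟩
    have h1 : k ^ 2 % 3 = 1 := by
      have h2 : k % 3 = 1 ∨ k % 3 = 2 := by omega
      rcases h2 with h2 | h2 <;> rw [Nat.pow_mod, h2]
    omega
  obtain ⟨u, hu⟩ := key m hm
  obtain ⟨v, hv⟩ := key n hn
  have e1 : (m ^ 2 - 1) / 3 = u := by omega
  have e2 : (n ^ 2 - 1) / 3 = v := by omega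
  have e3 : ((m * n) ^ 2 - 1) / 3 = 3 * (u * v) + u + v := by
    have h4 : (m * n) ^ 2 = 3 * (3 * (u * v) + u + v) + 1 := by
      rw [mul_pow, hu, hv]
      ring
    omega
  rw [e1, e2, e3]
  push_cast
  have h5 : (3 : ZMod 3) = 0 := rfl
  rw [h5]
  ring

theorem prime_case (h1 : StRcQ) {π : E} (h : PP π) {q : ℕ} (hq : q.Prime) (h3 : ¬ 3 ∣ q)
    (ha : (q : ℤ) ∣ π.re) : ind π ((q : ℕ) : E) = (((q ^ 2 - 1) / 3 : ℕ) : ZMod 3) := by
  have : Fact q.Prime := ⟨hq⟩
  have hne : q ≠ nm π := by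
    intro h4
    exact not_norm h ha (by rw [h4])
  let K : Type := AlgebraicClosure (ZMod q)
  have : CharP K q := charP_of_injective_algebraMap
    (RingHom.injective (algebraMap (ZMod q) K)) q
  have h30 : (3 : K) ≠ 0 := by
    intro h4
    have h5 : ((3 : ℕ) : K) = 0 := by exact_mod_cast h4
    rw [CharP.cast_eq_zero_iff K q] at h5
    have h6 : q = 3 := (Nat.prime_dvd_prime_iff_eq hq Nat.prime_three).1 h5
    exact h3 (by rw [h6])
  obtain ⟨W, hW⟩ : ∃ W : K, W ^ 2 + W + 1 = 0 := by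
    have hd : (Polynomial.X ^ 2 + Polynomial.X + 1 : Polynomial K).degree = 2 := by
      compute_degree!
    obtain ⟨W, hW⟩ := IsAlgClosed.exists_root (Polynomial.X ^ 2 + Polynomial.X + 1 : Polynomial K)
      (by rw [hd]; norm_num)
    refine ⟨W, ?_⟩
    simpa [Polynomial.IsRoot] using hW
  have hW3 : W ^ 3 = 1 := by linear_combination (W - 1) * hW
  have hW1 : W ≠ 1 := by
    intro h4
    rw [h4] at hW
    apply h30
    linear_combination hW
  obtain ⟨hc2, hc1⟩ := h1 π h q hne K W hW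
  have ha0 : ((π.re : ℤ) : K) = 0 := (CharP.intCast_eq_zero_iff K q π.re).2 ha
  have hb0 : ((π.im : ℤ) : K) ≠ 0 := by
    intro h4
    exact not_both h hq ha ((CharP.intCast_eq_zero_iff K q π.im).1 h4)
  have hev : ev W π = ((π.im : ℤ) : K) * W := by
    unfold ev
    rw [ha0, zero_add]
  have hbq : ((π.im : ℤ) : K) ^ (q - 1) = 1 := by
    have h4 : ((π.im : ℤ) : ZMod q) ≠ 0 := by
      intro h5
      apply hb0
      have h6 := congrArg (algebraMap (ZMod q) K) h5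
      rwa [map_intCast, map_zero] at h6
    have h5 := congrArg (algebraMap (ZMod q) K) (ZMod.pow_card_sub_one_eq_one h4)
    rwa [map_pow, map_intCast, map_one] at h5
  have hq2 := hq.two_le
  have hq3 : q % 3 = 1 ∨ q % 3 = 2 := by omega
  rcases hq3 with hq3 | hq3
  · have h4 := hc1 hq3
    obtain ⟨k, hk⟩ : ∃ k, q = 3 * k + 1 := ⟨q / 3, by omega⟩
    have hk' : (q - 1) / 3 = k := by omega
    have hp : ((nm π : ℕ) : K) = ((π.im : ℤ) : K) ^ 2 := by
      have h5 : (((nm π : ℕ) : ℤ) : K) = ((π.re ^ 2 - π.re * π.im + π.im ^ 2 : ℤ) : K) := by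
        rw [nm_cast]
      rw [Int.cast_natCast, Int.cast_add, Int.cast_sub, Int.cast_mul, Int.cast_pow, Int.cast_pow,
        ha0] at h5
      rw [h5]
      ring
    rw [hk', hev, hp] at h4
    have h5 : ((π.im : ℤ) : K) ^ (3 * k) = 1 := by
      rw [← hbq]
      congr 1
      omega
    have h6 : W ^ (k + (ind π ((q : ℕ) : E)).val) = W ^ 0 := by
      have h8 : (((π.im : ℤ) : K) ^ 2) ^ k * (((π.im : ℤ) : K) * W) ^ k *
          W ^ (ind π ((q : ℕ) : E)).val = ((π.im : ℤ) : K) ^ (3 * k) *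
          W ^ (k + (ind π ((q : ℕ) : E)).val) := by ring
      rw [h8, h5, one_mul] at h4
      rw [h4, pow_zero]
    have h7 := exp_mod hW3 hW1 h6
    push_cast at h7
    rw [ZMod.natCast_val, ZMod.cast_id] at h7
    have h8 : (q ^ 2 - 1) / 3 = k * (q + 1) := by
      have h9 : q ^ 2 = 3 * (k * (q + 1)) + 1 := by
        have : (3 * k) * (q + 1) + 1 = q ^ 2 := by
          have h10 : 3 * k = q - 1 := by omega
          rw [h10]
          obtain ⟨s, hs⟩ : ∃ s, q = s + 1 := ⟨q - 1, by omega⟩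
          rw [hs]
          simp only [Nat.add_sub_cancel]
          ring
        rw [← this]
        ring
      omega
    rw [h8]
    push_cast
    have h9 : (q : ZMod 3) = 1 := by
      have := (ZMod.natCast_eq_natCast_iff q 1 3).2 hq3
      simpa using this
    rw [h9]
    have h10 : (3 : ZMod 3) = 0 := rfl
    linear_combination h7 - (k : ZMod 3) * h10
  · have h4 := hc2 hq3
    obtain ⟨k, hk⟩ : ∃ k, q + 1 = 3 * k := ⟨(q + 1) / 3, by omega⟩
    have h5 : (q ^ 2 - 1) / 3 = (q - 1) * k := by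
      have h9 : q ^ 2 = 3 * ((q - 1) * k) + 1 := by
        have : (q - 1) * (3 * k) + 1 = q ^ 2 := by
          rw [← hk]
          obtain ⟨s, hs⟩ : ∃ s, q = s + 1 := ⟨q - 1, by omega⟩
          rw [hs]
          simp only [Nat.add_sub_cancel]
          ring
        rw [← this]
        ring
      omega
    have h6 : ((π.im : ℤ) : K) ^ ((q ^ 2 - 1) / 3) = 1 := by
      rw [h5, pow_mul, hbq, one_pow]
    rw [hev, mul_pow, h6, one_mul] at h4
    have h7 := exp_mod hW3 hW1 h4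
    rw [h7, ZMod.natCast_val, ZMod.cast_id]

end ISpa

open ISpa in
theorem pr_Spa (h1 : StRcQ) (h2 : StInd) : StSpa := by
  intro π hπ n
  obtain ⟨_, hmul, _, _, _, hpr⟩ := h2 π hπ
  have hnd : ∀ m : ℕ, (m : ℤ) ∣ π.re → ¬ π ∣ ((m : ℕ) : E) := by
    intro m hm hd
    have h3 := ((pr_Rho π hπ).2.1 ((m : ℕ) : E)).2 hd
    rw [ev_nat, ZMod.natCast_eq_zero_iff] at h3
    exact not_norm hπ hm h3
  have hn3 : ∀ m : ℕ, (m : ℤ) ∣ π.re → ¬ 3 ∣ m := by
    intro m hm h3
    have h4 : (3 : ℤ) ∣ π.re := (Int.natCast_dvd_natCast.2 h3).trans hm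
    have h5 := hπ.re
    omega
  induction n using induction_on_primes with
  | zero =>
    intro h
    exfalso
    exact hn3 0 h (dvd_zero 3)
  | one =>
    intro h
    have h3 := hnd 1 h
    rw [Nat.cast_one] at h3 ⊢
    have h4 := hmul 1 1 h3 h3
    rw [one_mul] at h4
    have h5 : ind π 1 = 0 := by
      have h6 := congrArg (fun t => t - ind π 1) h4
      simpa using h6.symm
    rw [h5]
    rfl
  | prime_mul q m hq ih =>
    intro h
    have hm : (m : ℤ) ∣ π.re := by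
      refine (Dvd.intro_left (q : ℤ) ?_).trans h
      push_cast
      ring
    have hq' : (q : ℤ) ∣ π.re := by
      refine (Dvd.intro (m : ℤ) ?_).trans h
      push_cast
      ring
    rw [Nat.cast_mul, hmul _ _ (hnd q hq') (hnd m hm), ih hm, prime_case h1 hπ hq (hn3 q hq') hq',
      add_f (hn3 q hq') (hn3 m hm)]

end Pool.Agent.Work.MP_59f3ad_nt.Q3
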