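import Mathlib
import Pool.Agent.Work.MP_59f3ad_nt.Q3.StmtsT
import Pool.Agent.Work.MP_59f3ad_nt.Q3.StmtsR
import Pool.Agent.Work.MP_59f3ad_nt.Q3.I_Rho
import Pool.Agent.Work.MP_59f3ad_nt.Q3.I_Ind

/-!
Item Spb of block Q3.
-/

open NumberField IsDedekindDomain

namespace Pool.Agent.Work.MP_59f3ad_nt.Q3

namespace ISpb

theorem fer (q : ℕ) [Fact q.Prime] (K : Type) [Field K] [CharP K q] (z : ℤ) (hz : (z : K) ≠ 0) :
    (z : K) ^ (q - 1) = 1 := by
  let _ := ZMod.algebra K q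
  have h : (z : K) = algebraMap (ZMod q) K (z : ZMod q) := (map_intCast _ z).symm
  rw [h, ← map_pow, ZMod.pow_card_sub_one_eq_one, map_one]
  intro h0
  apply hz
  rw [h, h0, map_zero]

theorem rootW (K : Type) [Field K] [IsAlgClosed K] : ∃ W : K, W ^ 2 + W + 1 = 0 := by
  have hd : (Polynomial.X ^ 2 + Polynomial.X + 1 : Polynomial K).degree = 2 := by
    compute_degree!
  obtain ⟨W, hW⟩ := IsAlgClosed.exists_root (Polynomial.X ^ 2 + Polynomial.X + 1 : Polynomial K)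
    (by rw [hd]; norm_num)
  refine ⟨W, ?_⟩
  simpa [Polynomial.IsRoot] using hW

/-- exponents modulo `3` -/
theorem expo {K : Type} [Field K] {W : K} (h3 : W ^ 3 = 1) (h1 : W ≠ 1) {i j : ℕ}
    (h : W ^ i = W ^ j) : (i : ZMod 3) = (j : ZMod 3) := by
  have : Fact (Nat.Prime 3) := ⟨Nat.prime_three⟩
  have ho : orderOf W = 3 := orderOf_eq_prime h3 h1
  have hp : IsPrimitiveRoot W 3 := by
    rw [← ho]
    exact IsPrimitiveRoot.orderOf W
  have hi : W ^ (i % 3) = W ^ i := by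
    rw [← ho]
    exact pow_mod_orderOf W i
  have hj : W ^ (j % 3) = W ^ j := by
    rw [← ho]
    exact pow_mod_orderOf W j
  have h2 := hp.pow_inj (Nat.mod_lt i (by norm_num)) (Nat.mod_lt j (by norm_num))
    (by rw [hi, hj, h])
  exact (ZMod.natCast_eq_natCast_iff' _ _ _).2 h2

theorem prime_K (h1 : StRcQ) (π : E) (hπ : PP π) (q : ℕ) [hqF : Fact q.Prime] (hq3 : q ≠ 3)
    (hqp : q ≠ nm π) (hq : (q : ℤ) ∣ π.re + π.im) (K : Type) [Field K] [CharP K q]
    [IsAlgClosed K] : ind π ((q : ℕ) : E) = 2 * (((q ^ 2 - 1) / 3 : ℕ) : ZMod 3) := by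
  have hqP : q.Prime := hqF.out
  obtain ⟨W, hW⟩ := rootW K
  have hW3 : W ^ 3 = 1 := by linear_combination (W - 1) * hW
  have h3K : (3 : K) ≠ 0 := by
    intro h
    have h' : ((3 : ℕ) : K) = 0 := by exact_mod_cast h
    have := (CharP.cast_eq_zero_iff K q 3).1 h'
    exact hq3 ((Nat.prime_dvd_prime_iff_eq hqP Nat.prime_three).1 this)
  have hW1 : W ≠ 1 := by
    rintro rfl
    apply h3K
    linear_combination hW
  have hWm : W - 1 ≠ 0 := sub_ne_zero.2 hW1
  have hab : (π.re : K) + (π.im : K) = 0 := by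
    have := (CharP.intCast_eq_zero_iff K q (π.re + π.im)).2 hq
    push_cast at this
    exact this
  have hre : (π.re : K) = -(π.im : K) := by linear_combination hab
  have hn : ((nm π : ℕ) : K) = 3 * (π.im : K) ^ 2 := by
    have e := congrArg (fun n : ℤ => (n : K)) (IRho.nm_cast π)
    simp only [Int.cast_natCast, Int.cast_add, Int.cast_sub, Int.cast_mul, Int.cast_pow] at e
    rw [e, hre]
    ring
  have hb : (π.im : K) ≠ 0 := by
    intro h
    rw [h] at hn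
    have h' : ((nm π : ℕ) : K) = 0 := by rw [hn]; ring
    have := (CharP.cast_eq_zero_iff K q (nm π)).1 h'
    exact hqp ((Nat.prime_dvd_prime_iff_eq hqP hπ.pr).1 this)
  have hev : ev W π = (π.im : K) * (W - 1) := by
    unfold ev
    rw [hre]
    ring
  have hfb : (π.im : K) ^ (q - 1) = 1 := fer q K π.im hb
  have hq1 : 1 ≤ q := hqP.one_lt.le
  have hmod : q % 3 ≠ 0 := by
    intro h
    exact hq3 ((Nat.prime_dvd_prime_iff_eq Nat.prime_three hqP).1 (Nat.dvd_of_mod_eq_zero h)).symm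
  obtain ⟨c1, c2⟩ := h1 π hπ q hqp K W hW
  rcases (by omega : q % 3 = 1 ∨ q % 3 = 2) with hm | hm
  · -- `q = 1 mod 3`
    have hc := c2 hm
    obtain ⟨k, hk⟩ : ∃ k, q = 3 * k + 1 := ⟨q / 3, by omega⟩
    have hk3 : (q - 1) / 3 = k := by omega
    have hkq : q - 1 = 3 * k := by omega
    have hke : Even k := by
      rcases hqP.eq_two_or_odd with h2 | h2
      · omega
      · rw [Nat.even_iff]
        omega
    rw [hk3, hn, hev] at hc
    have hWq : W ^ q = W := by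
      rw [hk, pow_add, pow_mul, hW3, one_pow, pow_one, one_mul]
    have hWq1 : (W - 1) ^ (3 * k) = 1 := by
      have e1 : (W - 1) ^ q = W - 1 := by
        rw [sub_pow_char, hWq, one_pow]
      have e2 : (W - 1) ^ q = (W - 1) ^ (3 * k) * (W - 1) := by
        rw [← pow_succ]
        exact congrArg (fun i => (W - 1) ^ i) hk
      rw [e2] at e1
      exact mul_right_cancel₀ hWm (e1.trans (one_mul _).symm)
    rw [hkq] at hfb
    have e3 : (3 * (π.im : K) ^ 2) ^ k * ((π.im : K) * (W - 1)) ^ k = W ^ (2 * k) := by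
      have e4 : 3 * (π.im : K) ^ 2 * ((π.im : K) * (W - 1)) =
          -1 * ((π.im : K) ^ 3 * (W - 1) ^ 3 * W ^ 2) := by
        linear_combination (π.im : K) ^ 3 * (W - 1) * W ^ 2 * hW - 3 * (π.im : K) ^ 3 * (W - 1) * hW3
      rw [← mul_pow, e4, mul_pow, hke.neg_one_pow, one_mul, mul_pow, mul_pow, ← pow_mul, ← pow_mul,
        hfb, hWq1, ← pow_mul]
      ring
    rw [e3, ← pow_add] at hc
    have h5 := expo hW3 hW1 (hc.trans (pow_zero W).symm)
    push_cast at h5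
    rw [ZMod.natCast_val, ZMod.cast_id] at h5
    have h6 : (q ^ 2 - 1) / 3 = 3 * k ^ 2 + 2 * k := by
      have : q ^ 2 = 3 * (3 * k ^ 2 + 2 * k) + 1 := by rw [hk]; ring
      omega
    rw [h6]
    push_cast
    have h7 : (3 : ZMod 3) = 0 := by decide
    linear_combination h5 - (2 * (k : ZMod 3) ^ 2 + 2 * (k : ZMod 3)) * h7
  · -- `q = 2 mod 3`
    have hc := c1 hm
    obtain ⟨k, hk⟩ : ∃ k, q = 3 * k + 2 := ⟨q / 3, by omega⟩
    have h6 : (q ^ 2 - 1) / 3 = (q - 1) * (k + 1) := by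
      have : q ^ 2 - 1 = 3 * ((q - 1) * (k + 1)) := by
        obtain ⟨r, hr⟩ : ∃ r, q = r + 1 := ⟨q - 1, by omega⟩
        have hr2 : r = 3 * k + 1 := by omega
        rw [hr, Nat.add_sub_cancel]
        have : (r + 1) ^ 2 = 3 * (r * (k + 1)) + 1 := by
          rw [hr2]
          ring
        omega
      rw [this, Nat.mul_div_cancel_left _ (by norm_num)]
    have h7 : 3 * ((q - 1) * (k + 1)) = q ^ 2 - 1 := by
      obtain ⟨r, hr⟩ : ∃ r, q = r + 1 := ⟨q - 1, by omega⟩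
      have hr2 : r = 3 * k + 1 := by omega
      rw [hr, Nat.add_sub_cancel]
      have : (r + 1) ^ 2 = 3 * (r * (k + 1)) + 1 := by
        rw [hr2]
        ring
      omega
    set e := (q - 1) * (k + 1) with he
    rw [h6, hev, mul_pow] at hc
    have hbe : (π.im : K) ^ e = 1 := by rw [he, pow_mul, hfb, one_pow]
    rw [hbe, one_mul] at hc
    set y := (W - 1) ^ e with hy
    have hy2 : y ^ 2 = W ^ e := by
      have e1 : (W - 1) ^ 2 = ((-3 : ℤ) : K) * W := by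
        push_cast
        linear_combination hW
      have e2 : ((-3 : ℤ) : K) ^ e = 1 := by
        rw [he, pow_mul, fer q K (-3) (by push_cast; exact neg_ne_zero.2 h3K), one_pow]
      rw [hy, ← pow_mul, mul_comm e 2, pow_mul, e1, mul_pow, e2, one_mul]
    have hy3 : y ^ 3 = 1 := by
      have e1 : (W - 1) ^ (q ^ 2) = W - 1 := by
        rw [sub_pow_char_pow, one_pow]
        have : q ^ 2 = 3 * (3 * k ^ 2 + 4 * k + 1) + 1 := by rw [hk]; ring
        rw [this, pow_add, pow_mul, hW3, one_pow, pow_one, one_mul]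
      have e2 : (W - 1) ^ (q ^ 2) = (W - 1) ^ (q ^ 2 - 1) * (W - 1) := by
        rw [← pow_succ, Nat.sub_add_cancel (Nat.one_le_pow _ _ hq1)]
      rw [e2] at e1
      have e3 : (W - 1) ^ (q ^ 2 - 1) = 1 := mul_right_cancel₀ hWm (e1.trans (one_mul _).symm)
      rw [hy, ← pow_mul, mul_comm e 3, h7, e3]
    have hy4 : y = W ^ (2 * e) := by
      calc y = y ^ 3 * y := by rw [hy3, one_mul]
        _ = (y ^ 2) ^ 2 := by ring
        _ = W ^ (2 * e) := by rw [hy2, ← pow_mul, mul_comm]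
    rw [hy4] at hc
    have h5 := expo hW3 hW1 hc
    rw [ZMod.natCast_val, ZMod.cast_id] at h5
    rw [h6, ← h5]
    push_cast
    rfl

theorem prime_case (h1 : StRcQ) (π : E) (hπ : PP π) (q : ℕ) [Fact q.Prime] (hq3 : q ≠ 3)
    (hqp : q ≠ nm π) (hq : (q : ℤ) ∣ π.re + π.im) :
    ind π ((q : ℕ) : E) = 2 * (((q ^ 2 - 1) / 3 : ℕ) : ZMod 3) :=
  prime_K h1 π hπ q hq3 hqp hq (AlgebraicClosure (ZMod q))

theorem not_dvd (π : E) (hπ : PP π) : ¬ ((nm π : ℕ) : ℤ) ∣ π.re + π.im := by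
  intro hd
  have hn := IRho.nm_cast π
  have hp : Prime ((nm π : ℕ) : ℤ) := Nat.prime_iff_prime_int.1 hπ.pr
  obtain ⟨-, -, -, h7, -⟩ := pr_Rho π hπ
  have h1 : ((nm π : ℕ) : ℤ) ∣ 3 * π.re ^ 2 := by
    obtain ⟨s, hs⟩ := hd
    refine ⟨1 + 3 * π.re * s - s * (π.re + π.im), ?_⟩
    have hb : π.im = (nm π : ℕ) * s - π.re := by linarith
    linear_combination (-1 : ℤ) * hn + (3 * π.re - (π.re + π.im)) * hs
  have h2 : ((nm π : ℕ) : ℤ) ∣ π.re := by
    rcases hp.dvd_or_dvd h1 with h | h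
    · exfalso
      have := Int.le_of_dvd (by norm_num) h
      omega
    · exact hp.dvd_of_dvd_pow h
  have h3 : ((nm π : ℕ) : ℤ) ∣ π.im := by
    have := dvd_sub hd h2
    rwa [add_sub_cancel_left] at this
  obtain ⟨x, hx⟩ := h2
  obtain ⟨z, hz⟩ := h3
  have hpos : (0 : ℤ) < (nm π : ℕ) := by exact_mod_cast hπ.pr.pos
  have h8 : ((nm π : ℕ) : ℤ) * 1 = (nm π : ℕ) * ((nm π : ℕ) * (x ^ 2 - x * z + z ^ 2)) := by
    rw [mul_one]
    conv_lhs => rw [hn]
    rw [hx, hz]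
    ring
  have h9 := mul_left_cancel₀ hpos.ne' h8
  have h10 : ((nm π : ℕ) : ℤ) ∣ 1 := ⟨_, h9⟩
  have := Int.le_of_dvd (by norm_num) h10
  omega

theorem not_pi (π : E) (hπ : PP π) (n : ℕ) (hn : (n : ℤ) ∣ π.re + π.im) : ¬ π ∣ ((n : ℕ) : E) := by
  intro h
  obtain ⟨-, h2, -, -, -⟩ := pr_Rho π hπ
  have h3 := (h2 _).2 h
  have h4 : ev (rho π) ((n : ℕ) : E) = (n : ZMod (nm π)) := by
    obtain ⟨h5, -⟩ := pr_Rho π hπ
    rw [← evH_apply _ h5, map_natCast]
  rw [h4] at h3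
  have h5 := (ZMod.natCast_eq_zero_iff n (nm π)).1 h3
  exact not_dvd π hπ ((Int.natCast_dvd_natCast.2 h5).trans hn)

theorem fadd (m n : ℕ) (hm : m % 3 ≠ 0) (hn : n % 3 ≠ 0) :
    ((((m * n) ^ 2 - 1) / 3 : ℕ) : ZMod 3) =
      (((m ^ 2 - 1) / 3 : ℕ) : ZMod 3) + (((n ^ 2 - 1) / 3 : ℕ) : ZMod 3) := by
  have h : ∀ m : ℕ, m % 3 ≠ 0 → ∃ u, m ^ 2 = 3 * u + 1 := by
    intro m hm
    refine ⟨m ^ 2 / 3, ?_⟩
    have : m ^ 2 % 3 = 1 := by
      rcases (by omega : m % 3 = 1 ∨ m % 3 = 2) with h | h <;> rw [Nat.pow_mod, h]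
    omega
  obtain ⟨u, hu⟩ := h m hm
  obtain ⟨v, hv⟩ := h n hn
  have e1 : ((m * n) ^ 2 - 1) / 3 = 3 * (u * v) + u + v := by
    have : (m * n) ^ 2 = 3 * (3 * (u * v) + u + v) + 1 := by
      rw [mul_pow, hu, hv]
      ring
    omega
  have e2 : (m ^ 2 - 1) / 3 = u := by omega
  have e3 : (n ^ 2 - 1) / 3 = v := by omega
  rw [e1, e2, e3]
  push_cast
  have h7 : (3 : ZMod 3) = 0 := by decide
  linear_combination ((u : ZMod 3) * v) * h7

end ISpb

open ISpb in
/-- SPB. -/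
theorem pr_Spb (h1 : StRcQ) : StSpb := by
  intro π hπ
  have hI := pr_Ind pr_Rho π hπ
  have hs3 : (π.re + π.im) % 3 = 1 := by
    obtain ⟨s, hs⟩ := hπ.re
    obtain ⟨t, ht⟩ := hπ.im
    omega
  have hmod : ∀ n : ℕ, (n : ℤ) ∣ π.re + π.im → n % 3 ≠ 0 := by
    intro n hn h0
    have h1 : (3 : ℤ) ∣ (n : ℤ) := by omega
    have := h1.trans hn
    omega
  intro n
  induction n using Nat.recOnMul with
  | zero =>
    intro h
    have := hmod 0 h
    simp at this
  | one =>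
    intro h
    have h2 := hI.2.1 1 1 (fun hc => not_pi π hπ 1 h (by simpa using hc))
      (fun hc => not_pi π hπ 1 h (by simpa using hc))
    have h3 : ind π 1 = 0 := by
      rw [mul_one] at h2
      exact (add_eq_left.1 h2.symm)
    simpa using h3
  | prime q hqP =>
    intro h
    have : Fact q.Prime := ⟨hqP⟩
    refine prime_case h1 π hπ q ?_ ?_ h
    · rintro rfl
      exact hmod 3 h rfl
    · rintro rfl
      exact not_dvd π hπ h
  | mul a b ha hb =>
    intro h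
    have h2 : (a : ℤ) ∣ π.re + π.im := (Dvd.intro (b : ℤ) (by push_cast; ring)).trans h
    have h3 : (b : ℤ) ∣ π.re + π.im := (Dvd.intro_left (a : ℤ) (by push_cast; ring)).trans h
    rw [fadd a b (hmod a h2) (hmod b h3), mul_add, ← ha h2, ← hb h3, Nat.cast_mul]
    exact hI.2.1 _ _ (not_pi π hπ a h2) (not_pi π hπ b h3)

end Pool.Agent.Work.MP_59f3ad_nt.Q3
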