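import Mathlib
import Pool.Agent.Work.MP_59f3ad_nt.Q3.StmtsT
import Pool.Agent.Work.MP_59f3ad_nt.Q3.StmtsR

/-!
Block Q3, part T, item SUP: the supplementary laws of cubic reciprocity.
-/

open NumberField IsDedekindDomain

namespace Pool.Agent.Work.MP_59f3ad_nt.Q3

namespace ISup

/-- Exponents of a primitive cube root of unity are determined modulo `3`. -/
lemma exp_eq {K : Type*} [Field K] {W : K} (h : W ^ 2 + W + 1 = 0) (h1 : W ≠ 1) {k j : ℕ}
    (e : W ^ k = W ^ j) : (k : ZMod 3) = (j : ZMod 3) := by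
  have h3 : W ^ 3 = 1 := by linear_combination (W - 1) * h
  have h0 : W ≠ 0 := by
    rintro rfl
    norm_num at h
  have red : ∀ n : ℕ, W ^ n = W ^ (n % 3) := fun n => by
    conv_lhs => rw [← Nat.div_add_mod n 3]
    rw [pow_add, pow_mul, h3, one_pow, one_mul]
  rw [red k, red j] at e
  have hk : k % 3 < 3 := Nat.mod_lt _ (by norm_num)
  have hj : j % 3 < 3 := Nat.mod_lt _ (by norm_num)
  have h2 : W ^ 2 ≠ 1 := fun h' => h1 (by
    have : W ^ 3 = W ^ 2 * W := by ring
    rw [h3, h', one_mul] at this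
    exact this.symm)
  have h12 : W ^ 2 ≠ W := fun h' => h1 (by
    have : W * (W - 1) = 0 := by linear_combination h'
    rcases mul_eq_zero.1 this with h'' | h''
    · exact absurd h'' h0
    · exact sub_eq_zero.1 h'')
  have key : k % 3 = j % 3 := by
    generalize k % 3 = r at hk e
    generalize j % 3 = s at hj e
    interval_cases r <;> interval_cases s <;> simp only [pow_zero, pow_one] at e
    · rfl
    · exact absurd e.symm h1
    · exact absurd e.symm h2
    · exact absurd e h1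
    · rfl
    · exact absurd e.symm h12
    · exact absurd e h2
    · exact absurd e h12
    · rfl
  have := (ZMod.natCast_eq_natCast_iff k j 3).2 key
  exact this

lemma evE {R : Type*} [CommRing R] {w : R} (h : w ^ 2 + w + 1 = 0) :
    ev w oE = w ∧ ev w lE = 1 - w ∧ ∀ z : ℤ, ev w (z : E) = (z : R) := by
  refine ⟨?_, ?_, fun z => ?_⟩
  · simp [ev, oE]
  · simp [ev, lE]
    ring
  · have := map_intCast (evH w h) z
    rw [evH_apply] at this
    exact this

lemma nm_cast (π : E) : ((nm π : ℕ) : ℤ) = π.re ^ 2 - π.re * π.im + π.im ^ 2 := by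
  unfold nm
  rw [Int.natCast_natAbs, abs_of_nonneg]
  nlinarith [sq_nonneg (π.re - π.im), sq_nonneg π.re, sq_nonneg π.im]

/-- `p` does not divide both coordinates. -/
lemma not_both {π : E} (hp : PP π) (h1 : ((nm π : ℕ) : ℤ) ∣ π.re) (h2 : ((nm π : ℕ) : ℤ) ∣ π.im) :
    False := by
  obtain ⟨c, hc⟩ := h1
  obtain ⟨d, hd⟩ := h2
  have h := nm_cast π
  have hpos : (1 : ℤ) < ((nm π : ℕ) : ℤ) := by exact_mod_cast hp.pr.one_lt
  set p : ℤ := ((nm π : ℕ) : ℤ) with hpd
  rw [hc, hd] at h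
  have h3 : p * (p * (c ^ 2 - c * d + d ^ 2)) = p * 1 := by linear_combination -h
  have h4 := mul_left_cancel₀ (by linarith : p ≠ 0) h3
  have h5 : p ∣ 1 := ⟨_, h4.symm⟩
  have := Int.le_of_dvd one_pos h5
  linarith

end ISup

open ISup in
theorem pr_Sup (h1 : StRho) (h2 : StInd) (h3 : StSpa) (h4 : StSpb) : StSup := by
  intro π hp
  have : Fact (nm π).Prime := ⟨hp.pr⟩
  obtain ⟨hρ, hdvd, h3d, h7, hρ1⟩ := h1 π hp
  obtain ⟨hi1, hi2, hi3, -, hi5, hpr⟩ := h2 π hp
  obtain ⟨eo, el, ez⟩ := evE hρ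
  set ρ := rho π with hρd
  have hρ0 : ρ ≠ 0 := by
    intro h
    rw [h] at hρ
    norm_num at hρ
  obtain ⟨m, hm⟩ := hp.re
  obtain ⟨n, hn⟩ := hp.im
  have hre : π.re = 1 + 3 * m := by linarith
  have hk1 : (kap π).1 = (m : ZMod 3) := by
    unfold kap
    simp only
    rw [hm, Int.mul_ediv_cancel_left m (by norm_num : (3 : ℤ) ≠ 0)]
  have hk2 : (kap π).2 = (n : ZMod 3) := by
    unfold kap
    simp only
    rw [hn, Int.mul_ediv_cancel_left n (by norm_num : (3 : ℤ) ≠ 0)]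
  have hπ0 : (π.re : ZMod (nm π)) + (π.im : ZMod (nm π)) * ρ = 0 := (hdvd π).2 dvd_rfl
  -- the elements prime to `π`
  have no : ¬ π ∣ oE := fun h => hρ0 (by
    have := (hdvd oE).2 h
    rwa [eo] at this)
  have nl : ¬ π ∣ lE := fun h => hρ1 (by
    have := (hdvd lE).2 h
    rw [el] at this
    exact (sub_eq_zero.1 this).symm)
  have nneg : ¬ π ∣ (-1 : E) := fun h => hpr.not_isUnit (isUnit_of_dvd_unit h isUnit_one.neg)
  have na : ¬ π ∣ ((π.re : ℤ) : E) := by
    intro h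
    have e := (hdvd _).2 h
    rw [ez] at e
    have e2 : (π.im : ZMod (nm π)) = 0 := by
      rw [e, zero_add] at hπ0
      rcases mul_eq_zero.1 hπ0 with h' | h'
      · exact h'
      · exact absurd h' hρ0
    exact not_both hp ((ZMod.intCast_zmod_eq_zero_iff_dvd _ _).1 e)
      ((ZMod.intCast_zmod_eq_zero_iff_dvd _ _).1 e2)
  have nab : ¬ π ∣ ((π.re + π.im : ℤ) : E) := by
    intro h
    have e := (hdvd _).2 h
    rw [ez] at e
    push_cast at e
    have e2 : (π.im : ZMod (nm π)) = 0 := by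
      have : (π.im : ZMod (nm π)) * (ρ - 1) = 0 := by linear_combination hπ0 - e
      rcases mul_eq_zero.1 this with h' | h'
      · exact h'
      · exact absurd (sub_eq_zero.1 h') hρ1
    rw [e2, add_zero] at e
    exact not_both hp ((ZMod.intCast_zmod_eq_zero_iff_dvd _ _).1 e)
      ((ZMod.intCast_zmod_eq_zero_iff_dvd _ _).1 e2)
  -- absolute values
  have habs : ∀ z : ℤ, ¬ π ∣ (z : E) → ind π (z : E) = ind π ((z.natAbs : ℕ) : E) := by
    intro z hz
    rcases Int.natAbs_eq z with h | h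
    · have : (z : E) = ((z.natAbs : ℕ) : E) := by
        rw [← Int.cast_natCast, ← h]
      rw [this]
    · have e : (z : E) = (-1) * ((z.natAbs : ℕ) : E) := by
        rw [neg_one_mul, ← Int.cast_natCast, ← Int.cast_neg, ← h]
      have hz' : ¬ π ∣ ((z.natAbs : ℕ) : E) := fun h' => hz (by
        rw [e]
        exact h'.mul_left _)
      rw [e, hi2 _ _ nneg hz', hi5, zero_add]
  have hsq : ∀ (z k : ℤ), z = 1 + 3 * k → (((z.natAbs ^ 2 - 1) / 3 : ℕ) : ZMod 3) = 2 * (k : ZMod 3) := by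
    intro z k hz
    have hne : 1 ≤ z.natAbs := Int.natAbs_pos.2 (by omega)
    have e1 : ((z.natAbs ^ 2 - 1 : ℕ) : ℤ) = 3 * (2 * k + 3 * k ^ 2) := by
      rw [Nat.cast_sub (Nat.one_le_pow _ _ hne)]
      push_cast
      rw [sq_abs, hz]
      ring
    have e2 : (((z.natAbs ^ 2 - 1) / 3 : ℕ) : ℤ) = 2 * k + 3 * k ^ 2 := by
      rw [Int.natCast_div, e1]
      exact Int.mul_ediv_cancel_left _ (by norm_num)
    have e3 := congrArg (fun t : ℤ => (t : ZMod 3)) e2
    simp only [Int.cast_natCast, Int.cast_add, Int.cast_mul, Int.cast_pow, Int.cast_ofNat] at e3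
    rw [e3]
    have h30 : (3 : ZMod 3) = 0 := rfl
    rw [h30]
    ring
  have hA : ind π ((π.re : ℤ) : E) = 2 * (m : ZMod 3) := by
    rw [habs _ na, h3 π hp π.re.natAbs Int.natAbs_dvd_self, hsq _ m hre]
  have hB : ind π ((π.re + π.im : ℤ) : E) = 2 * (2 * ((m : ZMod 3) + (n : ZMod 3))) := by
    rw [habs _ nab, h4 π hp (π.re + π.im).natAbs Int.natAbs_dvd_self, hsq _ (m + n) (by
      rw [hre, hn]
      ring)]
    push_cast
    ring
  -- the value at `ω`
  have h30 : (3 : ZMod 3) = 0 := rfl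
  have hO : ind π oE = -(m : ZMod 3) - (n : ZMod 3) := by
    have e := hi1 oE no
    rw [eo] at e
    have e2 := exp_eq hρ hρ1 e
    rw [ZMod.natCast_zmod_val] at e2
    rw [← e2]
    have e3 : ((nm π - 1 : ℕ) : ℤ) = 3 * (2 * m - n + 3 * (m ^ 2 - m * n + n ^ 2)) := by
      rw [Nat.cast_sub (by omega), nm_cast, hre, hn]
      push_cast
      ring
    have e4 : (((nm π - 1) / 3 : ℕ) : ℤ) = 2 * m - n + 3 * (m ^ 2 - m * n + n ^ 2) := by
      rw [Int.natCast_div, e3]
      exact Int.mul_ediv_cancel_left _ (by norm_num)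
    have e5 := congrArg (fun t : ℤ => (t : ZMod 3)) e4
    simp only [Int.cast_natCast, Int.cast_add, Int.cast_sub, Int.cast_mul, Int.cast_pow,
      Int.cast_ofNat] at e5
    rw [e5]
    linear_combination ((m : ZMod 3) + ((m : ZMod 3) ^ 2 - m * n + (n : ZMod 3) ^ 2)) * h30
  refine ⟨by rw [hk1, hk2, hO], ?_⟩
  -- the value at `λ`
  have hdv : π ∣ ((π.re + π.im : ℤ) : E) - (-1) * (((π.re : ℤ) : E) * (lE * (oE * oE))) := by
    refine ⟨oE * oE, ?_⟩
    ext <;> simp [QuadraticAlgebra.re_mul, QuadraticAlgebra.im_mul, oE, lE] <;> ring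
  have noo : ¬ π ∣ oE * oE := fun h => (hpr.dvd_or_dvd h).elim no no
  have nlo : ¬ π ∣ lE * (oE * oE) := fun h => (hpr.dvd_or_dvd h).elim nl noo
  have nalo : ¬ π ∣ ((π.re : ℤ) : E) * (lE * (oE * oE)) := fun h => (hpr.dvd_or_dvd h).elim na nlo
  have e := hi3 _ _ hdv
  rw [hi2 _ _ nneg nalo, hi2 _ _ na nlo, hi2 _ _ nl noo, hi2 _ _ no no, hA, hB, hi5, hO] at e
  rw [hk1]
  linear_combination -e + (m + 2 * (n : ZMod 3)) * h30

end Pool.Agent.Work.MP_59f3ad_nt.Q3
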