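import Mathlib
import Pool.Agent.Work.MP_59f3ad_nt.Q3.StmtsT
import Pool.Agent.Work.MP_59f3ad_nt.Q3.StmtsG
import Pool.Agent.Work.MP_59f3ad_nt.Q3.I_Thr

/-!
# Item ThG of block Q3T: the local condition at 3, general form
-/

set_option autoImplicit false

open NumberField IsDedekindDomain

namespace Pool.Agent.Work.MP_59f3ad_nt.Q3

universe u

namespace IThG

open IThr

section val
variable {L : Type*} [Field L] {Γ : Type*} [LinearOrderedCommGroupWithZero Γ] (A : Valuation L Γ)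

/-- the approximation by a fixed element when `σ l / l` is close to `1` -/
theorem approx0 {a l : L} (σ : L ≃+* L) (hσA : ∀ y, A (σ y) = A y)
    (hσ3 : ∀ y, σ (σ (σ y)) = y) (hl : l ≠ 0) {c : Γ}
    (h3c : A 3 = c ^ 2) (hc0 : c ≠ 0) (hc1 : c < 1) (h30 : (3 : L) ≠ 0)
    (hal : A (a / l ^ 3 - 1) ≤ c ^ 8) (hσl : A (σ l / l - 1) ≤ c ^ 8) :
    ∃ y : L, σ y = y ∧ y ≠ 0 ∧ A (a / y ^ 3 - 1) ≤ c ^ 4 := by
  have hpow : ∀ n : ℕ, n ≠ 0 → c ^ n < 1 := fun n hn => pow_lt_one₀ (zero_le) hc1 hn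
  have hle : ∀ m n : ℕ, m ≤ n → c ^ n ≤ c ^ m := fun m n h =>
    pow_le_pow_right_of_le_one' hc1.le h
  have hσl0 : σ l ≠ 0 := (map_ne_zero_iff σ σ.injective).2 hl
  obtain ⟨ρ, hρ⟩ : ∃ ρ : L, ρ = σ l / l := ⟨_, rfl⟩
  have hρ1 : A (ρ - 1) ≤ c ^ 6 := by
    rw [hρ]
    exact hσl.trans (hle 6 8 (by norm_num))
  have hρ2 : A (σ ρ - 1) ≤ c ^ 6 := by
    have e : σ ρ - 1 = σ (ρ - 1) := by rw [map_sub, map_one]
    rw [e, hσA]
    exact hρ1
  have hρ12 := near_mul A (hpow 6 (by norm_num)) hρ1 hρ2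
  obtain ⟨r, hr⟩ : ∃ r : L, r = l + σ l + σ (σ l) := ⟨_, rfl⟩
  have hrl : r / l = 1 + ρ + ρ * σ ρ := by
    rw [hr, hρ, map_div₀]
    field_simp
  have hq : A (r / (3 * l) - 1) ≤ c ^ 4 := by
    have e : r / (3 * l) - 1 = ((ρ - 1) + (ρ * σ ρ - 1)) / 3 := by
      have e1 : r / (3 * l) = (r / l) / 3 := by
        field_simp
      rw [e1, hrl]
      field_simp
      ring
    rw [e, map_div₀, h3c]
    rw [div_le_iff₀ (zero_lt_iff.2 (pow_ne_zero 2 hc0)), ← pow_add]
    exact (A.map_add _ _).trans (max_le hρ1 hρ12)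
  have hσr : σ r = r := by
    rw [hr]
    simp only [map_add, hσ3]
    ring
  have hr0 : r ≠ 0 := by
    intro h
    have := near_ne A (hpow 4 (by norm_num)) hq
    rw [h, zero_div] at this
    exact this rfl
  refine ⟨r / 3, ?_, div_ne_zero hr0 h30, ?_⟩
  · rw [map_div₀, hσr, map_ofNat]
  · have e : a / (r / 3) ^ 3 = (a / l ^ 3) / (r / (3 * l)) ^ 3 := by
      field_simp
    rw [e]
    exact near_div A (hpow 4 (by norm_num)) (hal.trans (hle 4 8 (by norm_num)))
      (near_pow A (hpow 4 (by norm_num)) hq 3)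

end val

theorem not_lE {d : E} (h : ¬ (3 : ℤ) ∣ nz d) : ¬ lE ∣ d := by
  rintro ⟨y, rfl⟩
  apply h
  have e : lE = lam := rfl
  rw [e, nz_mul, nz_lam]
  exact dvd_mul_right _ _

end IThG

open IThr IThG in
/-- Item ThG. -/
theorem pr_ThG (h1 : StIso.{u}) (h3 : StH90.{u}) : StThG.{u} := by
  intro F L _ _ _ _ _ w x σ M hcfg huniq v hv a ha
  obtain ⟨W, hWdef⟩ : ∃ W : L, W = algebraMap F L (w : F) := ⟨_, rfl⟩
  have hwF : (w : F) ^ 2 + (w : F) + 1 = 0 := by
    have := congrArg (fun t : 𝓞 F => (t : F)) hcfg.hw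
    simpa using this
  have hW : W ^ 2 + W + 1 = 0 := by
    have := congrArg (algebraMap F L) hwF
    rw [hWdef]
    simpa using this
  obtain ⟨A, hA⟩ : ∃ A : Valuation L (WithZero (Multiplicative ℤ)), A = v.valuation L := ⟨_, rfl⟩
  have hA3 : A 3 < 1 := by
    rw [hA]
    exact (val3 v).2 hv
  have hσA : ∀ y, A ((σ : L ≃+* L) y) = A y := by
    obtain ⟨v', hv'⟩ := place_aut (σ : L ≃+* L) v
    have h4 : v' ∈ S3 L := by
      rw [← val3, hv', map_ofNat, ← hA]
      exact hA3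
    have h5 : v' = v := huniq v' v h4 hv
    intro y
    rw [hA, ← hv', h5]
  have hphiF : ∀ z : E, algebraMap F L (ev (w : F) z) = evH W hW z := by
    intro z
    rw [evH_apply, hWdef]
    simp [ev]
  have hA1 : ∀ z : E, A (evH W hW z) ≤ 1 := by
    intro z
    have e : evH W hW z = algebraMap (𝓞 L) L (ev (algebraMap (𝓞 F) (𝓞 L) w) z) := by
      rw [evH_apply, hWdef]
      simp only [ev, map_add, map_mul, map_intCast]
      congr 2
    rw [e, hA]
    exact v.valuation_le_one _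
  have hAW : A W = 1 := by
    have h4 : A W ^ 3 = 1 := by rw [← map_pow, W3 hW, map_one]
    have h5 : A W ≤ 1 := by
      rw [← phi_om hW]
      exact hA1 _
    rcases lt_or_eq_of_le h5 with h6 | h6
    · exact absurd h4 (pow_lt_one₀ zero_le h6 (by norm_num)).ne
    · exact h6
  obtain ⟨c, hc⟩ : ∃ c, A (1 - W) = c := ⟨_, rfl⟩
  have hc2 : A 3 = c ^ 2 := by
    have e : (1 - W) ^ 2 = 3 * (-W) := by linear_combination hW
    rw [← hc, ← map_pow, e, map_mul, Valuation.map_neg, hAW, mul_one]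
  have hc0 : c ≠ 0 := by
    intro h
    rw [h] at hc2
    have : (3 : L) = 0 := (Valuation.zero_iff A).1 (by rw [hc2]; simp)
    norm_num at this
  have hc1 : c < 1 := by
    by_contra h
    push Not at h
    have := one_le_pow₀ (n := 2) h
    rw [← hc2] at this
    exact absurd hA3 (not_lt.2 this)
  have h30 : (3 : L) ≠ 0 := by norm_num
  -- the approximation
  obtain ⟨n, hn⟩ : ∃ n : ℕ, WithZero.exp (-(n : ℤ)) ≤ c ^ 8 := by
    have h4 : c ^ 8 ≠ 0 := pow_ne_zero 8 hc0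
    refine ⟨(-(WithZero.log (c ^ 8))).toNat, ?_⟩
    rw [← WithZero.exp_log h4, WithZero.exp_le_exp]
    rw [WithZero.log_exp]
    omega
  have hx3 : (x : L) ^ 3 = evH W hW M := by
    rw [hcfg.hx, hphiF]
  have hM0 : evH W hW M ≠ 0 := fun h => hcfg.hM (phi_inj hW h)
  have hx0 : (x : L) ≠ 0 := by
    intro h
    rw [h, zero_pow (by norm_num)] at hx3
    exact hM0 hx3.symm
  -- representation by elements of `E`
  have hrep : ∀ b : F, ∃ z d : E, d ≠ 0 ∧ algebraMap F L b * evH W hW d = evH W hW z := by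
    intro b
    obtain ⟨r, s, hs, rfl⟩ := IsFractionRing.div_surjective (A := 𝓞 F) b
    obtain ⟨z, hz⟩ := (h1 F w hcfg.hF hcfg.hw).1.2 r
    obtain ⟨d, hd⟩ := (h1 F w hcfg.hF hcfg.hw).1.2 s
    have hs0 : (algebraMap (𝓞 F) F s) ≠ 0 := by
      have := nonZeroDivisors.ne_zero hs
      exact (map_ne_zero_iff _ (FaithfulSMul.algebraMap_injective (𝓞 F) F)).2 this
    have hev : ∀ t : E, algebraMap (𝓞 F) F (ev w t) = ev (w : F) t := by
      intro t
      simp [ev]
    refine ⟨z, d, ?_, ?_⟩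
    · rintro rfl
      apply hs0
      rw [← hd, hev]
      simp [ev]
    · rw [← hphiF, ← hphiF, ← hev, ← hev, hz, hd, ← map_mul, div_mul_cancel₀ _ hs0]
  -- the common last step
  have hlast : ∀ (k : ℕ) (y : L), (σ : L ≃+* L) y = y → y ≠ 0 →
      A (algebraMap F L a / (y ^ 3 * evH W hW M ^ k) - 1) ≤ c ^ 4 →
      ∃ (f : F) (z d : E), f ≠ 0 ∧ ¬ lE ∣ d ∧
        a * ev (w : F) d = f ^ 3 * ev (w : F) M ^ k * ev (w : F) (d + 9 * z) := by
    intro k y hy hy0 hya
    obtain ⟨f, hf⟩ := hcfg.hfix y hy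
    have hf0 : f ≠ 0 := by
      rintro rfl
      rw [map_zero] at hf
      exact hy0 hf
    obtain ⟨z, d, hd, he⟩ := hrep ((a / (f ^ 3 * ev (w : F) M ^ k) - 1) / 9)
    obtain ⟨e, hedef⟩ : ∃ e : L, e = algebraMap F L ((a / (f ^ 3 * ev (w : F) M ^ k) - 1) / 9) :=
      ⟨_, rfl⟩
    have hMk : evH W hW M ^ k ≠ 0 := pow_ne_zero k hM0
    have he2 : algebraMap F L a / (y ^ 3 * evH W hW M ^ k) = 1 + 9 * e := by
      rw [hedef, hf]
      simp only [map_div₀, map_sub, map_mul, map_pow, map_one, map_ofNat, hphiF]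
      ring
    have hAe : A e ≤ 1 := by
      have h4 : A (9 * e) ≤ c ^ 4 := by
        rw [he2] at hya
        simpa using hya
      have h5 : A 9 = c ^ 4 := by
        have : (9 : L) = 3 * 3 := by norm_num
        rw [this, map_mul, hc2, ← pow_add]
      rw [map_mul, h5] at h4
      have h6 : c ^ 4 * A e ≤ c ^ 4 * 1 := by rw [mul_one]; exact h4
      exact le_of_mul_le_mul_left h6 (zero_lt_iff.2 (pow_ne_zero 4 hc0))
    rw [← hedef] at he
    have hle : A (evH W hW z) ≤ A (evH W hW d) := by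
      rw [← he, map_mul]
      exact mul_le_of_le_one_left' hAe
    obtain ⟨z1, d1, hd1, hzd⟩ := int_rep A hW hA1 hA3 (by rw [hc]; exact hc0)
      (by rw [hc]; exact hc1) hd hle
    have he1 : e * evH W hW d1 = evH W hW z1 := by
      have hdL : evH W hW d ≠ 0 := fun h => hd (phi_inj hW h)
      have h4 := congrArg (evH W hW) hzd
      rw [map_mul, map_mul] at h4
      refine mul_right_cancel₀ hdL ?_
      rw [← h4, ← he]
      ring
    refine ⟨f, z1, d1, hf0, not_lE hd1, ?_⟩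
    apply (algebraMap F L).injective
    have h9 : evH W hW (9 : E) = 9 := map_ofNat _ 9
    rw [map_mul, map_mul, map_mul, map_pow, map_pow, hphiF, hphiF, hphiF, map_add, map_mul, h9,
      ← he1, ← hf]
    have h4 : algebraMap F L a = (y ^ 3 * evH W hW M ^ k) * (1 + 9 * e) := by
      rw [← he2]
      have : y ^ 3 * evH W hW M ^ k ≠ 0 := mul_ne_zero (pow_ne_zero 3 hy0) hMk
      field_simp
    rw [h4]
    ring
  constructor
  · intro hlc
    obtain ⟨l, hl0, hl⟩ := hlc n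
    rw [← hA] at hl
    obtain ⟨k, hk, y, hy, hy0, hya⟩ := approx A (W := W) (x := (x : L)) (a := algebraMap F L a)
      (l := l) (σ : L ≃+* L) hσA (h3 F L w x σ M hcfg).1 hW hAW
      (by rw [hWdef]; exact σ.commutes _) (by rw [hWdef]; exact hcfg.hσ) hx0
      (σ.commutes a) hl0 hc hc0 hc1 h30 (hl.trans hn)
    rw [hx3] at hya
    obtain ⟨f, z, d, h4, h5, h6⟩ := hlast k y hy hy0 hya
    exact ⟨k, f, z, d, hk, h4, h5, h6⟩
  · intro hlc
    obtain ⟨l, hl0, hl, hl2⟩ := hlc n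
    rw [← hA] at hl hl2
    obtain ⟨y, hy, hy0, hya⟩ := approx0 A (a := algebraMap F L a) (l := l) (σ : L ≃+* L) hσA
      (h3 F L w x σ M hcfg).1 hl0 hc2 hc0 hc1 h30 (hl.trans hn) (hl2.trans hn)
    obtain ⟨f, z, d, h4, h5, h6⟩ := hlast 0 y hy hy0 (by rw [pow_zero, mul_one]; exact hya)
    refine ⟨f, z, d, h4, h5, ?_⟩
    rw [pow_zero, mul_one] at h6
    exact h6

end Pool.Agent.Work.MP_59f3ad_nt.Q3
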