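import Mathlib
import Pool.Agent.Work.MP_59f3ad_nt.Q3.StmtsT
import Pool.Agent.Work.MP_59f3ad_nt.Q3.StmtsG
import Pool.Agent.Work.MP_59f3ad_nt.Q3.I_Un3

/-!
MP_59f3ad_nt, block Q3, item UnT: one place above `3` for twisted radicands.
-/

open NumberField IsDedekindDomain

namespace Pool.Agent.Work.MP_59f3ad_nt.Q3

universe u

namespace IUnT

variable {L : Type u} [Field L] [NumberField L]

theorem oE3 : oE ^ 3 = 1 := by
  unfold oE
  decide

/-- the real and imaginary parts of multiples of three -/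
theorem im3 (c : E) : ((3 : E) * c).im = 3 * c.im := by
  have : (3 : E) = ⟨3, 0⟩ := rfl
  rw [this]
  simp only [QuadraticAlgebra.im_mul]
  ring

theorem im_cube (z : E) : (z ^ 3).im = 3 * (z.re * z.im * (z.re - z.im)) := by
  rw [pow_succ, pow_two]
  simp only [QuadraticAlgebra.re_mul, QuadraticAlgebra.im_mul]
  ring

/-- the finite check -/
theorem check (a : ℕ) (M z y : E) (h3 : (3 : E) ∣ M - 1)
    (h : oE ^ a * M - z ^ 3 = (⟨1, -1⟩ : E) ^ 4 * y) : 3 ∣ a ∧ (9 : E) ∣ M - 1 := by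
  have hl : (⟨1, -1⟩ : E) ^ 4 = 3 * (3 * ⟨-1, -1⟩) := by decide
  obtain ⟨c, hc⟩ := h3
  have hM : M = 1 + 3 * c := by rw [← hc]; ring
  have ha : oE ^ a = oE ^ (a % 3) := by
    conv_lhs => rw [← Nat.div_add_mod a 3]
    rw [pow_add, pow_mul, oE3, one_pow, one_mul]
  have key : ∃ k : ℤ, (oE ^ (a % 3)).im = 3 * k := by
    have e : oE ^ (a % 3) = z ^ 3 + 3 * (3 * ⟨-1, -1⟩ * y - oE ^ (a % 3) * c) := by
      rw [ha, hl, hM] at h
      linear_combination h
    have e2 := congrArg QuadraticAlgebra.im e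
    rw [QuadraticAlgebra.im_add, im_cube, im3] at e2
    exact ⟨_, e2.trans (mul_add _ _ _).symm⟩
  have h3 : a % 3 = 0 := by
    have hlt : a % 3 < 3 := Nat.mod_lt _ (by norm_num)
    obtain ⟨k, hk⟩ := key
    have hcases : a % 3 = 0 ∨ a % 3 = 1 ∨ a % 3 = 2 := by omega
    rcases hcases with h0 | h0 | h0
    · exact h0
    · rw [h0, pow_one] at hk
      have : (1 : ℤ) = 3 * k := hk
      omega
    · rw [h0] at hk
      have e : (oE ^ 2).im = -1 := by
        unfold oE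
        decide
      rw [e] at hk
      omega
  refine ⟨Nat.dvd_of_mod_eq_zero h3, ?_⟩
  rw [ha, h3, pow_zero, one_mul] at h
  exact IUn3.check M z y ⟨c, hc⟩ h

/-- an element congruent to one modulo three is a unit at a place above three -/
theorem val_one (v : HeightOneSpectrum (𝓞 L)) (h0 : (3 : 𝓞 L) ∈ v.asIdeal) (y c : 𝓞 L)
    (h : y = 1 + 3 * c) : v.intValuation y = 1 := by
  rw [HeightOneSpectrum.intValuation_eq_one_iff]
  intro hy
  apply v.isPrime.ne_top
  rw [Ideal.eq_top_iff_one]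
  have : (1 : 𝓞 L) = y - c * 3 := by rw [h]; ring
  rw [this]
  exact Ideal.sub_mem _ hy (Ideal.mul_mem_left _ _ h0)

/-- a good prime gives a contradiction -/
theorem good (v : HeightOneSpectrum (𝓞 L)) (W x : 𝓞 L) (hW : W ^ 2 + W + 1 = 0) (a b : ℕ) (M0 : E)
    (hx : x ^ 3 = evH W hW (oE ^ a * lE ^ b * M0)) (h3 : (3 : E) ∣ M0 - 1)
    (h9 : ¬ (3 ∣ a ∧ 3 ∣ b ∧ (9 : E) ∣ M0 - 1))
    (h0 : (3 : 𝓞 L) ∈ v.asIdeal) (h1 : 1 - W ∈ v.asIdeal) (h2 : 1 - W ∉ v.asIdeal ^ 2)
    (hN : Ideal.absNorm v.asIdeal = 3) : False := by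
  have ho : evH W hW oE = W := by
    rw [evH_apply]
    simp [ev, oE]
  have hl : evH W hW lE = 1 - W := by
    rw [evH_apply]
    simp only [ev, lE]
    push_cast
    ring
  have hW3 : W ^ 3 = 1 := by linear_combination (W - 1) * hW
  have hx2 : x ^ 3 = W ^ a * (1 - W) ^ b * evH W hW M0 := by
    rw [hx, map_mul, map_mul, map_pow, map_pow, ho, hl]
  have vW : v.intValuation W = 1 := by
    have h := congrArg v.intValuation hW3
    rw [map_pow, map_one] at h
    exact (pow_eq_one_iff.1 h).resolve_right (by norm_num)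
  have vM : v.intValuation (evH W hW M0) = 1 := by
    obtain ⟨c, hc⟩ := h3
    refine val_one v h0 _ (evH W hW c) ?_
    have : M0 = 1 + 3 * c := by rw [← hc]; ring
    rw [this, map_add, map_mul, map_one, map_ofNat]
  have vl := IUn3.val_lam v h1 h2
  have vx : v.intValuation x ^ 3 = WithZero.exp (-(b : ℤ)) := by
    rw [← map_pow, hx2, map_mul, map_mul, map_pow, map_pow, vW, vM, vl, one_pow, one_mul, mul_one,
      ← WithZero.exp_nsmul]
    congr 1
    simp
  have hx0 : x ≠ 0 := by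
    rintro rfl
    rw [map_zero, zero_pow (by norm_num)] at vx
    exact WithZero.exp_ne_zero vx.symm
  obtain ⟨n, hn⟩ : ∃ n : ℕ, b = 3 * n := by
    rw [v.intValuation_if_neg hx0, ← WithZero.exp_nsmul, WithZero.exp_inj] at vx
    refine ⟨(Associates.mk v.asIdeal).count (Associates.mk (Ideal.span {x})).factors, ?_⟩
    simp only [nsmul_eq_mul] at vx
    push_cast at vx
    omega
  subst hn
  have hl0 : (((1 - W : 𝓞 L) : L)) ≠ 0 := by
    intro h
    have h' : (1 - W : 𝓞 L) = 0 := RingOfIntegers.ext (by rw [h]; rfl)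
    apply h2
    rw [h']
    exact Ideal.zero_mem _
  have hx3 : ((x : L) / ((1 - W : 𝓞 L) : L) ^ n) ^ 3 = ((evH W hW (oE ^ a * M0) : 𝓞 L) : L) := by
    rw [div_pow, div_eq_iff (pow_ne_zero _ (pow_ne_zero _ hl0))]
    have h := congrArg (fun t : 𝓞 L => (t : L)) hx2
    simp only [map_pow, map_mul] at h
    rw [h, map_mul (evH W hW), map_pow (evH W hW), ho]
    simp only [map_pow, map_mul]
    rw [← pow_mul, mul_comm n 3]
    ring
  have hint : IsIntegral ℤ ((x : L) / ((1 - W : 𝓞 L) : L) ^ n) := by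
    apply IsIntegral.of_pow (n := 3) (by norm_num)
    rw [hx3]
    exact RingOfIntegers.isIntegral_coe _
  obtain ⟨x', hx'⟩ : ∃ x' : 𝓞 L, (x' : L) = (x : L) / ((1 - W : 𝓞 L) : L) ^ n :=
    ⟨⟨_, hint⟩, rfl⟩
  have hx4 : x' ^ 3 = evH W hW (oE ^ a * M0) := by
    apply RingOfIntegers.ext
    rw [← hx3, ← hx']
    exact map_pow (algebraMap (𝓞 L) L) x' 3
  obtain ⟨z, hz⟩ := IUn3.surj v W hW h1 h2 (IUn3.res_int v.asIdeal hN) 4 x'
  have h4 : evH W hW (oE ^ a * M0 - z ^ 3) ∈ v.asIdeal ^ 4 := by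
    have : evH W hW (oE ^ a * M0 - z ^ 3) =
        (x' ^ 2 + x' * evH W hW z + (evH W hW z) ^ 2) * (x' - evH W hW z) := by
      rw [map_sub, map_pow, ← hx4]
      ring
    rw [this]
    exact Ideal.mul_mem_left _ _ hz
  obtain ⟨y, hy⟩ := IUn3.ker v W hW h0 h1 h2 4 _ h4
  obtain ⟨c1, c2⟩ := check a M0 z y h3 hy
  exact h9 ⟨c1, Nat.dvd_mul_right 3 n, c2⟩

end IUnT

open IUnT in
theorem pr_UnT : StUnT.{u} := by
  intro F L _ _ _ _ _ w x σ a b M0 hC hM1 hM9 v v' hv hv'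
  by_contra hne
  have h6 : Module.finrank ℚ L = 6 := by
    rw [← Module.finrank_mul_finrank ℚ F L, hC.hF, hC.hL]
  set W : 𝓞 L := algebraMap (𝓞 F) (𝓞 L) w with hWdef
  have hW : W ^ 2 + W + 1 = 0 := by
    have := congrArg (algebraMap (𝓞 F) (𝓞 L)) hC.hw
    simpa only [map_add, map_pow, map_one, map_zero] using this
  have hx : x ^ 3 = evH W hW (oE ^ a * lE ^ b * M0) := by
    apply RingOfIntegers.ext
    have h := hC.hx
    rw [evH_apply]
    simp only [ev] at h ⊢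
    push_cast at h ⊢
    simp only [map_intCast] at h ⊢
    exact h
  have hmem : ∀ v : HeightOneSpectrum (𝓞 L), v ∈ S3 L → 1 - W ∈ v.asIdeal := by
    intro v hv
    have h0 : (3 : 𝓞 L) ∈ v.asIdeal := hv
    have : (1 - W) ^ 2 ∈ v.asIdeal := by
      have e : (1 - W) ^ 2 = (-W) * 3 := by linear_combination hW
      rw [e]
      exact Ideal.mul_mem_left _ _ h0
    exact v.isPrime.mem_of_pow_mem 2 this
  have hN := IUn3.norm_lam h6 W hW
  have hbad : ∀ v : HeightOneSpectrum (𝓞 L), v ∈ S3 L →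
      ¬ (Ideal.absNorm v.asIdeal = 3 ∧ 1 - W ∉ v.asIdeal ^ 2) := by
    intro v hv h
    exact good v W x hW a b M0 hx hM1 hM9 hv (hmem v hv) h.2 h.1
  obtain ⟨a, ha, ha'⟩ := IUn3.bad v (1 - W) hN (hmem v hv) (hbad v hv)
  obtain ⟨b, hb, hb'⟩ := IUn3.bad v' (1 - W) hN (hmem v' hv') (hbad v' hv')
  have hcop : IsCoprime (v.asIdeal ^ a) (v'.asIdeal ^ b) := by
    apply IsCoprime.pow
    rw [Ideal.isCoprime_iff_sup_eq]
    have hm := v.isMaximal
    have hm' := v'.isMaximal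
    exact hm.coprime_of_ne hm' fun h => hne (HeightOneSpectrum.ext h)
  have hle : Ideal.span {1 - W} ≤ v.asIdeal ^ a * v'.asIdeal ^ b := by
    rw [Ideal.mul_eq_inf_of_isCoprime hcop]
    exact le_inf ((Ideal.span_singleton_le_iff_mem _).2 ha)
      ((Ideal.span_singleton_le_iff_mem _).2 hb)
  have hd := Ideal.absNorm_dvd_absNorm_of_le hle
  rw [hN, map_mul] at hd
  have := (mul_dvd_mul ha' hb').trans hd
  omega

end Pool.Agent.Work.MP_59f3ad_nt.Q3
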