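import Mathlib
import Pool.Agent.Work.MP_59f3ad_nt.Q3.StmtsT
import Pool.Agent.Work.MP_59f3ad_nt.Q3.MainA
import Pool.Agent.Work.MP_59f3ad_nt.Q3.I_Kmr

/-!
Assembly of Theorem A of block Q3T: the deterministic criterion for all cyclic cubic extensions
`F(m^(1/3))`, `m = ω^a (1 - ω)^b ∏ π_i^{c_i}`, with one place above `3`.
-/

open NumberField IsDedekindDomain

namespace Pool.Agent.Work.MP_59f3ad_nt.Q3

universe u

/-- The index of `ω^a (1 - ω)^b` modulo `π`. -/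
noncomputable def dd (a b : ℕ) (π : E) : ZMod 3 :=
  (a : ZMod 3) * ind π oE + (b : ZMod 3) * ind π lE

/-- Theorem A for twists. -/
def StAT : Prop := ∀ (L : Type u) [Field L] [NumberField L] (w x : L) (t : ℕ) (π : Fin t → E)
  (c : Fin t → ℕ) (a b : ℕ) (M : E), Prd t π c M → w ^ 2 + w + 1 = 0 →
  x ^ 3 = ev w (oE ^ a * lE ^ b * M) → Module.finrank ℚ L = 6 →
  (¬ (9 : E) ∣ M - 1 ∨ ∃ k, dd a b (π k) ≠ 0) → ∀ r : ℤ, r ≠ 0 → Sha1 L 3 r (S3 L) ≠ ⊥ →
  ∃ h : Fin t → ZMod 3, (∃ i k, h i ≠ h k) ∧ ∑ i, (h i * (c i : ZMod 3)) • kap (π i) = 0 ∧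
    ∀ k, ∑ i, (c i : ZMod 3) * (c k : ZMod 3) * (h i - h k) * ind (π k) (π i) =
      h k * (c k : ZMod 3) * dd a b (π k)

namespace MainTA

open MainA

theorem nm_lE : nm lE = 3 := by decide

theorem unit_oE : IsUnit oE := by
  refine isUnit_iff_exists_inv.mpr ⟨oE ^ 2, ?_⟩
  decide

theorem not_dvd_oE (hI : StInd) {π : E} (h : PP π) : ¬ π ∣ oE := fun hd =>
  (hI π h).2.2.2.2.2.not_unit (isUnit_of_dvd_unit hd unit_oE)

theorem not_dvd_lE (hI : StInd) {π : E} (h : PP π) : ¬ π ∣ lE := by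
  intro hd
  have h1 := nm_dvd hd
  rw [nm_lE] at h1
  have h2 := (Nat.prime_dvd_prime_iff_eq h.pr Nat.prime_three).mp h1
  obtain ⟨a, ha⟩ := h.re
  obtain ⟨b, hb⟩ := h.im
  have h3 : ((nm π : ℕ) : ℤ) = π.re ^ 2 - π.re * π.im + π.im ^ 2 := by
    unfold nm
    rw [Int.natCast_natAbs, abs_of_nonneg]
    nlinarith [sq_nonneg (π.re - π.im), sq_nonneg π.re, sq_nonneg π.im]
  rw [h2, hb, show π.re = 1 + 3 * a by linarith] at h3
  push_cast at h3
  have h4 : (3 : ℤ) * (1 - 2 * a - 3 * a ^ 2 + (1 + 3 * a) * b - 3 * b ^ 2) = 1 := by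
    linear_combination h3
  omega

theorem not_dvd_tw (hI : StInd) {π : E} (h : PP π) (a b : ℕ) {N : E} (hN : ¬ π ∣ N) :
    ¬ π ∣ oE ^ a * lE ^ b * N := by
  have hp := (hI π h).2.2.2.2.2
  intro hd
  rcases hp.dvd_or_dvd hd with h1 | h1
  · rcases hp.dvd_or_dvd h1 with h2 | h2
    · exact not_dvd_oE hI h (hp.dvd_of_dvd_pow h2)
    · exact not_dvd_lE hI h (hp.dvd_of_dvd_pow h2)
  · exact hN h1

theorem ind_tw (hI : StInd) {π : E} (h : PP π) (a b : ℕ) {N : E} (hN : ¬ π ∣ N) :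
    ind π (oE ^ a * lE ^ b * N) = dd a b π + ind π N := by
  have hp := (hI π h).2.2.2.2.2
  have h1 : ¬ π ∣ oE ^ a := fun hd => not_dvd_oE hI h (hp.dvd_of_dvd_pow hd)
  have h2 : ¬ π ∣ lE ^ b := fun hd => not_dvd_lE hI h (hp.dvd_of_dvd_pow hd)
  have h3 : ¬ π ∣ oE ^ a * lE ^ b := fun hd => (hp.dvd_or_dvd hd).elim h1 h2
  rw [(hI π h).2.1 _ _ h3 hN, (hI π h).2.1 _ _ h1 h2, ind_pow hI h (not_dvd_oE hI h),
    ind_pow hI h (not_dvd_lE hI h)]
  rfl

theorem ev_oE {R : Type*} [CommRing R] (w : R) : ev w oE = w := by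
  simp [ev, oE]

theorem ev_lE {R : Type*} [CommRing R] (w : R) : ev w lE = 1 - w := by
  simp [ev, lE, sub_eq_add_neg]

theorem ev_tw {R : Type*} [CommRing R] (w : R) (h : w ^ 2 + w + 1 = 0) (a b : ℕ) (N : E) :
    ev w (oE ^ a * lE ^ b * N) = w ^ a * (1 - w) ^ b * ev w N := by
  rw [← evH_apply w h, map_mul, map_mul, map_pow, map_pow, evH_apply, evH_apply, evH_apply,
    ev_oE, ev_lE]

theorem ev_inj {F : Type u} [Field F] [CharZero F] {w : F} (hw : w ^ 2 + w + 1 = 0) {z z' : E}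
    (h : ev w z = ev w z') : z = z' := by
  by_contra hne
  refine IKmr.ev_ne' hw (sub_ne_zero.mpr hne) ?_
  rw [← evH_apply w hw, map_sub, evH_apply, evH_apply, h, sub_self]

theorem frac {F : Type u} [Field F] [NumberField F] {w : 𝓞 F} (h1 : StIso.{u})
    (hF : Module.finrank ℚ F = 2) (hw : w ^ 2 + w + 1 = 0) (b : F) (hb : b ≠ 0) :
    ∃ z d : E, z ≠ 0 ∧ d ≠ 0 ∧ b * ev (w : F) d = ev (w : F) z := by
  have hwF : (w : F) ^ 2 + (w : F) + 1 = 0 := by
    have := congrArg (fun z : 𝓞 F => (z : F)) hw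
    simpa using this
  obtain ⟨r, s, hs, rfl⟩ := IsFractionRing.div_surjective (A := 𝓞 F) b
  obtain ⟨z, hz⟩ := (h1 F w hF hw).1.2 r
  obtain ⟨d, hd⟩ := (h1 F w hF hw).1.2 s
  have hs0 : (algebraMap (𝓞 F) F s) ≠ 0 := by
    have := nonZeroDivisors.ne_zero hs
    exact (map_ne_zero_iff _ (FaithfulSMul.algebraMap_injective (𝓞 F) F)).2 this
  have hev : ∀ t : E, algebraMap (𝓞 F) F (ev w t) = ev (w : F) t := by
    intro t
    simp [ev]
  have hd0 : ev (w : F) d ≠ 0 := by rw [← hev, hd]; exact hs0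
  have he : algebraMap (𝓞 F) F r / algebraMap (𝓞 F) F s * ev (w : F) d = ev (w : F) z := by
    rw [← hev, ← hev, hz, hd, div_mul_cancel₀ _ hs0]
  refine ⟨z, d, ?_, ?_, he⟩
  · rintro rfl
    have h0 : ev (w : F) (0 : E) = 0 := by rw [← evH_apply (w : F) hwF, map_zero]
    rw [h0] at he
    exact (mul_ne_zero hb hd0) he
  · rintro rfl
    apply hd0
    rw [← evH_apply (w : F) hwF, map_zero]

end MainTA

open MainA MainTA in
theorem stAT (hI : StInd) (hKap : StKap) (hIso : StIso.{u}) (hNcT : StNcT) (hCfg : StCfg.{u})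
    (hH90 : StH90.{u}) (hUnT : StUnT.{u}) (hRam : StRam.{u}) (hUnr : StUnr.{u})
    (hFac : StFac.{u}) (hThG : StThG.{u}) (hAlg : StAlg) (hTam : StTam.{u}) (hTau : StTau.{u})
    (hMur : StMur.{u}) (hCub : StCub.{u}) (hCyl : StCyl.{u}) (hTst : StTst.{u})
    (hDiv : StDiv.{u}) (hTor : StTor.{u}) (hChn : StChn.{u}) (hIvT : StIvT.{u})
    (hNrr : StNrr.{u}) : StAT.{u} := by
  intro L _ _ w x t π c ta tb M hP hw hx hd hcond r hr hne
  have h3 : (3 : E) ∣ M - 1 := by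
    rw [hP.hM]
    exact prd_three hP.pp c
  obtain ⟨Mt, hMt⟩ : ∃ Mt, Mt = oE ^ ta * lE ^ tb * M := ⟨_, rfl⟩
  obtain ⟨F, _, _, _, w', x', σ, hC, hw', hx'⟩ :=
    hCfg L w x _ hw hx hd (hNcT t π c M hP ta tb)
  have hU := hUnT F L w' x' σ ta tb M hC h3 (by
    rintro ⟨⟨a', ha'⟩, ⟨b', hb'⟩, h9⟩
    rcases hcond with h | ⟨k, hk⟩
    · exact h h9
    · apply hk
      unfold dd
      rw [ha', hb']
      push_cast
      have : (3 : ZMod 3) = 0 := by decide
      rw [this]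
      ring)
  have hσ3 := (hH90 F L w' x' σ _ hC).1
  rw [← hMt] at hC
  -- the ramified primes
  have hsplit : ∀ i : Fin t, Mt = π i ^ c i *
      (oE ^ ta * lE ^ tb * ∏ k ∈ Finset.univ.erase i, π k ^ c k) := by
    intro i
    rw [hMt, hP.hM, prd_split π c i]
    ring
  have hR : ∀ i : Fin t, ∃ (q : HeightOneSpectrum (𝓞 F)) (v : HeightOneSpectrum (𝓞 L)),
      Ram F L w' x' σ (π i) (c i) q v := fun i =>
    hRam F L w' x' σ Mt hC (π i) (oE ^ ta * lE ^ tb * ∏ k ∈ Finset.univ.erase i, π k ^ c k) (c i)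
      (hP.pp i) (hP.hc i) (hsplit i)
      (not_dvd_tw hI (hP.pp i) ta tb (not_dvd_prod hI hP.pp hP.inj i c))
  choose q v hqv using hR
  have hT : ∀ i : Fin t, ∃ (τ : AlgebraicClosure L ≃+* AlgebraicClosure L)
      (Q : Ideal (𝓞 (AlgebraicClosure L))), InrQ (σ : L ≃+* L) (v i) τ Q := fun i =>
    hTau L (σ : L ≃+* L) (v i) (hqv i).inr
  choose τ Q hτ using hT
  set i0 : Fin t := ⟨0, hP.ht⟩ with hi0
  set s := τ i0 with hs0
  have hs : Ext (σ : L ≃+* L) s := (hτ i0).ext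
  obtain ⟨k, hk⟩ := exists_k hs (fun y => hσ3 y)
  have hcs : cyclotomicCharacter (AlgebraicClosure L) 3 s = 1 :=
    (hMur L _ (v i0) s (Q i0) (hτ i0) (hqv i0).n3).2
  have hvS : v i0 ∉ S3 L := (hqv i0).n3
  have hk0 : ∀ φ ∈ ShaZ L 3 r (S3 L), φ k = 0 := fun φ hφ =>
    hCub L _ (v i0) s (Q i0) (hτ i0) k hk r (S3 L) hvS φ hφ.1
  have hkt : twist L 3 r k = 1 := cyc_k hcs hk r
  have hT3 : ∀ φ ∈ ShaZ L 3 r (S3 L), ∀ g, φ (cj hs (cj hs (cj hs g))) = φ g := fun φ hφ g => by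
    rw [cj3 hs hk]
    exact conj_eq hφ.1.1 hkt (hk0 φ hφ) g
  have hne' : ∃ φ ∈ ShaZ L 3 r (S3 L), ¬ ∃ y : ℤ_[3], ∀ g, φ g = (twist L 3 r g - 1) * y := by
    by_contra hcon
    push Not at hcon
    exact hne ((Sha1_eq_bot_iff L 3 r (S3 L)).mpr fun φ hφ => hcon φ hφ)
  obtain ⟨θ, hθ, hθ1, hθ2⟩ := hChn (GK L) (twist L 3 r) (cj hs) (ShaZ L 3 r (S3 L))
    (hCyl L w hw r).1 (hTst L w hw hU σ s hs r).1 (hTst L w hw hU σ s hs r).2 hT3
    (hDiv L w hw hU r) (hTor L w hw r hr)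
    (fun φ hφ h => hIvT F L w' x' σ ta tb M (hMt ▸ hC) hU t π c hP q v hqv τ Q hτ i0 hs r hr φ hφ h)
    hne'
  obtain ⟨α, δ, hα, hδ, hN, hcub, hva, hla⟩ :=
    hNrr F L w' x' σ Mt hC hU s hs k hk r θ hθ (hk0 θ hθ) hθ1 hθ2
  -- factorisation of `α`
  have hwF : (w' : F) ^ 2 + (w' : F) + 1 = 0 := by
    have := congrArg (fun z : 𝓞 F => (z : F)) hC.hw
    simpa using this
  have hcq : ∀ q' : HeightOneSpectrum (𝓞 F), (3 : 𝓞 F) ∉ q'.asIdeal →
      (∀ k, ev w' (π k) ∉ q'.asIdeal) → Cub q' α := by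
    intro q' h1 h2
    refine hUnr F L w' x' σ Mt hC q' h1 ?_ α hva
    rw [hMt, ev_tw w' hC.hw]
    intro h4
    have hpr := q'.isPrime
    rcases hpr.mem_or_mem h4 with h5 | h5
    · rcases hpr.mem_or_mem h5 with h6 | h6
      · have h7 := hpr.mem_of_pow_mem _ h6
        apply hpr.ne_top
        rw [Ideal.eq_top_iff_one]
        have h8 : (1 : 𝓞 F) = w' * (-(w' + 1)) := by linear_combination hC.hw
        rw [h8]
        exact Ideal.mul_mem_right _ _ h7
      · have h7 := hpr.mem_of_pow_mem _ h6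
        apply h1
        have h8 : (3 : 𝓞 F) = (1 - w') * (2 + w') := by linear_combination hC.hw
        rw [h8]
        exact Ideal.mul_mem_right _ _ h7
    · rw [hP.hM, ← evH_apply w' hC.hw, map_prod] at h5
      obtain ⟨i, _, hi⟩ := (q'.isPrime.prod_mem_iff).mp h5
      rw [map_pow] at hi
      exact h2 i (q'.isPrime.mem_of_pow_mem _ hi)
  obtain ⟨i, j, e, g0, hi, hj, he, hg0, hag⟩ := hFac F w' hC.hF hC.hw t π hP.pp hP.inj α hα hcq
  obtain ⟨v3, hv3⟩ := exists_prime_above L 3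
  have hv3' : v3 ∈ S3 L := by simpa [S3] using hv3
  obtain ⟨k0, f0, z0, d0, hk03, hf0, hd0, hthr⟩ :=
    (hThG F L w' x' σ Mt hC hU v3 hv3' α hα).1 (hla v3 hv3')
  obtain ⟨z2, d2, hz2, hd2, hzd⟩ := frac hIso hC.hF hC.hw (f0 / g0) (div_ne_zero hf0 hg0)
  obtain ⟨hik, hjk, hk09⟩ := hAlg ta tb i j k0 (∏ k, π k ^ e k) M z0 d0 z2 d2 hz2 hd2
    (prd_three hP.pp e) h3 hd0 (by
      apply ev_inj hwF
      rw [hag] at hthr
      have e1 : ev (w' : F) (oE ^ i * lE ^ j * (∏ k, π k ^ e k) * d2 ^ 3 * d0) =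
          (w' : F) ^ i * (1 - (w' : F)) ^ j * ev (w' : F) (∏ k, π k ^ e k) *
            ev (w' : F) d2 ^ 3 * ev (w' : F) d0 := by
        rw [← ev_tw (w' : F) hwF]
        simp only [← evH_apply (w' : F) hwF, map_mul, map_pow]
      have e2 : ev (w' : F) (z2 ^ 3 * (oE ^ ta * lE ^ tb * M) ^ k0 * (d0 + 9 * z0)) =
          ev (w' : F) z2 ^ 3 * ev (w' : F) Mt ^ k0 * ev (w' : F) (d0 + 9 * z0) := by
        rw [hMt]
        simp only [← evH_apply (w' : F) hwF, map_mul, map_pow]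
      rw [e1, e2, ← hzd]
      have e3 : g0 * (f0 / g0) = f0 := by field_simp
      have e4 : g0 ^ 3 * ((w' : F) ^ i * (1 - (w' : F)) ^ j * ev (w' : F) (∏ k, π k ^ e k) *
            ev (w' : F) d2 ^ 3 * ev (w' : F) d0) =
          g0 ^ 3 * ((f0 / g0 * ev (w' : F) d2) ^ 3 * ev (w' : F) Mt ^ k0 *
            ev (w' : F) (d0 + 9 * z0)) := by
        have e5 : g0 ^ 3 * (f0 / g0 * ev (w' : F) d2) ^ 3 = f0 ^ 3 * ev (w' : F) d2 ^ 3 := by
          rw [← mul_pow, ← mul_assoc, e3, mul_pow]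
        linear_combination ev (w' : F) d2 ^ 3 * hthr - ev (w' : F) Mt ^ k0 *
            ev (w' : F) (d0 + 9 * z0) * e5
      exact mul_left_cancel₀ (pow_ne_zero 3 hg0) e4)
  obtain ⟨n, hn⟩ : ∃ n, n = 3 - k0 := ⟨_, rfl⟩
  have hn3 : k0 + n = 3 := by omega
  have h30 : (3 : ZMod 3) = 0 := by decide
  have hn3' : (k0 : ZMod 3) + n = 0 := by
    have := congrArg (Nat.cast : ℕ → ZMod 3) hn3
    push_cast at this
    rw [this, h30]
  obtain ⟨i', hi'⟩ : ∃ i' : ℕ, i + n * ta = 3 * i' := by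
    have h1 : ((i + n * ta : ℕ) : ZMod 3) = 0 := by
      push_cast
      rw [hik]
      linear_combination (ta : ZMod 3) * hn3'
    exact (ZMod.natCast_eq_zero_iff _ _).mp h1
  obtain ⟨j', hj'⟩ : ∃ j' : ℕ, j + n * tb = 3 * j' := by
    have h1 : ((j + n * tb : ℕ) : ZMod 3) = 0 := by
      push_cast
      rw [hjk]
      linear_combination (tb : ZMod 3) * hn3'
    exact (ZMod.natCast_eq_zero_iff _ _).mp h1
  obtain ⟨e', he'⟩ : ∃ e' : Fin t → ℕ, e' = fun i => e i + c i * n := ⟨_, rfl⟩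
  have hprod : ∏ k, π k ^ e' k = (∏ k, π k ^ e k) * M ^ n := by
    rw [hP.hM, he', ← Finset.prod_pow, ← Finset.prod_mul_distrib]
    refine Finset.prod_congr rfl fun k _ => ?_
    rw [pow_add, pow_mul]
  have h99 : (9 : E) ∣ ∏ k, π k ^ e' k - 1 := by
    rw [hprod]
    have h1 : (∏ k, π k ^ e k) * M ^ n - 1 =
        ((∏ k, π k ^ e k) - M ^ k0) * M ^ n + (M ^ 3 - 1) := by
      rw [← hn3, pow_add]
      ring
    rw [h1]
    exact dvd_add (hk09.mul_right _) (nine_dvd_cube h3)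
  have hkap := (hKap.1 t π e' fun i => ⟨(hP.pp i).re, (hP.pp i).im⟩).mp h99
  -- the norm equation
  obtain ⟨W, hW⟩ : ∃ W : L, W = algebraMap F L (w' : F) := ⟨_, rfl⟩
  have hW3 : W ^ 3 = 1 := by
    have h1 : W ^ 2 + W + 1 = 0 := by
      have := congrArg (algebraMap F L) hwF
      simpa [hW] using this
    linear_combination (W - 1) * h1
  have hσW : σ W = W := by rw [hW, σ.commutes]
  have hσx : σ (x' : L) = W * (x' : L) := by rw [hW]; exact hC.hσ
  have hx3 : (x' : L) ≠ 0 := by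
    intro h0
    have h1 := hC.hx
    rw [h0, zero_pow (by norm_num)] at h1
    exact IKmr.ev_ne' hwF hC.hM ((map_eq_zero _).mp h1.symm)
  obtain ⟨g, hgdef⟩ : ∃ g : F, g = (w' : F) ^ i' * (1 - (w' : F)) ^ j' * g0 := ⟨_, rfl⟩
  have hw0 : (w' : F) ≠ 0 := by
    intro h0
    rw [h0] at hwF
    norm_num at hwF
  have hw1 : (1 - (w' : F)) ≠ 0 := by
    intro h0
    have h1 : (w' : F) = 1 := (sub_eq_zero.mp h0).symm
    rw [h1] at hwF
    norm_num at hwF
  have hg : g ≠ 0 := by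
    rw [hgdef]
    exact mul_ne_zero (mul_ne_zero (pow_ne_zero _ hw0) (pow_ne_zero _ hw1)) hg0
  have hev : α * ev (w' : F) Mt ^ n = ev (w' : F) (∏ k, π k ^ e' k) * g ^ 3 := by
    have e1 : ev (w' : F) (∏ k, π k ^ e' k) =
        ev (w' : F) (∏ k, π k ^ e k) * ev (w' : F) M ^ n := by
      rw [hprod]
      simp only [← evH_apply (w' : F) hwF, map_mul, map_pow]
    have e2 : (w' : F) ^ i * ((w' : F) ^ ta) ^ n = ((w' : F) ^ i') ^ 3 := by
      rw [← pow_mul, ← pow_mul, ← pow_add, mul_comm ta n, hi', mul_comm]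
    have e3 : (1 - (w' : F)) ^ j * ((1 - (w' : F)) ^ tb) ^ n = ((1 - (w' : F)) ^ j') ^ 3 := by
      rw [← pow_mul, ← pow_mul, ← pow_add, mul_comm tb n, hj', mul_comm]
    rw [hMt, ev_tw (w' : F) hwF, e1, hgdef, hag, mul_pow, mul_pow, mul_pow, mul_pow, ← e2, ← e3]
    ring
  have hδ' : (δ * (x' : L) ^ n) * σ (δ * (x' : L) ^ n) * σ (σ (δ * (x' : L) ^ n)) =
      algebraMap F L (ev (w' : F) (∏ k, π k ^ e' k) * g ^ 3) := by
    rw [← hev, (algebraMap F L).map_mul, ← hN, (algebraMap F L).map_pow, ← hC.hx]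
    simp only [map_mul, map_pow, hσx, hσW]
    have : (W * (W * (x' : L))) ^ n * (W * (x' : L)) ^ n * (x' : L) ^ n = ((x' : L) ^ 3) ^ n := by
      rw [← mul_pow, ← mul_pow]
      congr 1
      linear_combination (x' : L) ^ 3 * hW3
    linear_combination (δ * σ δ * σ (σ δ)) * this
  have hδ0 : δ * (x' : L) ^ n ≠ 0 := mul_ne_zero hδ (pow_ne_zero _ hx3)
  -- the third claim
  have hthird : ∀ k, ∑ i, (c i : ZMod 3) * (c k : ZMod 3) *
      ((e' i : ZMod 3) * (c i : ZMod 3) - (e' k : ZMod 3) * (c k : ZMod 3)) * ind (π k) (π i) =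
      (e' k : ZMod 3) * (c k : ZMod 3) * (c k : ZMod 3) * dd ta tb (π k) := by
    intro k
    have h1 := hTam F L w' x' σ Mt hC (π k)
      (oE ^ ta * lE ^ tb * ∏ i ∈ Finset.univ.erase k, π i ^ c i)
      (∏ i ∈ Finset.univ.erase k, π i ^ e' i) (c k) (e' k) (q k) (v k) (hP.pp k) (hP.hc k)
      (hsplit k) (not_dvd_tw hI (hP.pp k) ta tb (not_dvd_prod hI hP.pp hP.inj k c))
      (not_dvd_prod hI hP.pp hP.inj k e') (hqv k) (δ * (x' : L) ^ n) g hδ0 hg
      (by rw [hδ', prd_split π e' k])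
    rw [ind_tw hI (hP.pp k) ta tb (not_dvd_prod hI hP.pp hP.inj k c), ind_prod hI (hP.pp k),
      ind_prod hI (hP.pp k), mul_add, ← sub_sub, sub_right_comm, Finset.mul_sum, Finset.mul_sum,
      ← Finset.sum_sub_distrib, sub_eq_zero] at h1
    · rw [← Finset.add_sum_erase Finset.univ _ (Finset.mem_univ k), sub_self, mul_zero, zero_mul,
        zero_add]
      have h3 := csq (hP.hc k)
      have h4 : (e' k : ZMod 3) * (c k : ZMod 3) * (c k : ZMod 3) * dd ta tb (π k) =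
          (e' k : ZMod 3) * dd ta tb (π k) := by
        linear_combination ((e' k : ZMod 3) * dd ta tb (π k)) * h3
      rw [h4, ← h1]
      refine Finset.sum_congr rfl fun i _ => ?_
      have h2 := csq (hP.hc i)
      linear_combination ((c k : ZMod 3) * e' i * ind (π k) (π i)) * h2 -
        ((c i : ZMod 3) * e' k * ind (π k) (π i)) * h3
    · intro i hi
      exact not_dvd_of_ne hI hP.pp hP.inj (Finset.ne_of_mem_erase hi)
    · intro i hi
      exact not_dvd_of_ne hI hP.pp hP.inj (Finset.ne_of_mem_erase hi)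
  refine ⟨fun i => (e' i : ZMod 3) * (c i : ZMod 3), ?_, ?_, hthird⟩
  · -- not constant
    by_contra hcon
    push Not at hcon
    have hzero : ∀ i, (e' i : ZMod 3) = 0 := by
      have hz0 : (e' i0 : ZMod 3) * (c i0 : ZMod 3) = 0 := by
        rcases hcond with h9 | ⟨k, hk⟩
        · by_contra hnz
          apply h9
          rw [hP.hM, hKap.1 t π c fun i => ⟨(hP.pp i).re, (hP.pp i).im⟩]
          have h1 : ∀ i, (e' i : ZMod 3) =
              ((e' i0 : ZMod 3) * (c i0 : ZMod 3)) * (c i : ZMod 3) := by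
            intro i
            rw [← hcon i i0, mul_assoc, csq (hP.hc i), mul_one]
          have h2 : ((e' i0 : ZMod 3) * (c i0 : ZMod 3)) • ∑ i, (c i : ZMod 3) • kap (π i) = 0 := by
            rw [← hkap, Finset.smul_sum]
            refine Finset.sum_congr rfl fun i _ => ?_
            rw [smul_smul, ← h1 i]
          have h4 : ∀ y : ZMod 3, y ≠ 0 → y * y = 1 := by decide
          have h5 := congrArg (fun X => ((e' i0 : ZMod 3) * (c i0 : ZMod 3)) • X) h2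
          simp only [smul_smul, smul_zero] at h5
          rw [h4 _ hnz, one_smul] at h5
          exact h5
        · have h1 := hthird k
          have h2 : ∀ i, (e' i : ZMod 3) * (c i : ZMod 3) - (e' k : ZMod 3) * (c k : ZMod 3) = 0 :=
            fun i => sub_eq_zero.mpr (hcon i k)
          simp only [h2, mul_zero, zero_mul, Finset.sum_const_zero] at h1
          have h3 : (c k : ZMod 3) ≠ 0 := by
            intro h0
            have := csq (hP.hc k)
            rw [h0, mul_zero] at this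
            exact absurd this (by decide)
          have : Fact (Nat.Prime 3) := ⟨Nat.prime_three⟩
          rcases mul_eq_zero.mp h1.symm with h4 | h4
          · rcases mul_eq_zero.mp h4 with h5 | h5
            · rw [hcon i0 k]
              exact h5
            · exact absurd h5 h3
          · exact absurd h4 hk
      intro i
      have h1 := hcon i i0
      rw [hz0] at h1
      have h2 := csq (hP.hc i)
      linear_combination (-(e' i : ZMod 3)) * h2 + (c i : ZMod 3) * h1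
    have hf : ∀ i, ∃ f : ℕ, e' i = 3 * f := fun i => (ZMod.natCast_eq_zero_iff _ _).mp (hzero i)
    choose f hf using hf
    have h1 : (∏ k, π k ^ e' k) = (∏ k, π k ^ f k) ^ 3 := by
      rw [← Finset.prod_pow]
      refine Finset.prod_congr rfl fun k _ => ?_
      rw [hf k, mul_comm, pow_mul]
    have h2 : α * ev (w' : F) Mt ^ n = (ev (w' : F) (∏ k, π k ^ f k) * g) ^ 3 := by
      rw [hev, h1, mul_pow]
      simp only [← evH_apply (w' : F) hwF, map_pow]
    have h4 := congrArg (algebraMap F L) h2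
    rw [(algebraMap F L).map_mul, (algebraMap F L).map_pow, (algebraMap F L).map_pow,
      ← hC.hx] at h4
    refine hcub (algebraMap F L (ev (w' : F) (∏ k, π k ^ f k) * g) / (x' : L) ^ n) ?_
    rw [div_pow, ← h4]
    have h5 : ((x' : L) ^ n) ^ 3 = ((x' : L) ^ 3) ^ n := by
      rw [← pow_mul, ← pow_mul, mul_comm]
    rw [h5, mul_div_assoc, div_self (pow_ne_zero _ (pow_ne_zero _ hx3)), mul_one]
  · rw [← hkap]
    refine Finset.sum_congr rfl fun i _ => ?_
    rw [mul_assoc, csq (hP.hc i), mul_one]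

end Pool.Agent.Work.MP_59f3ad_nt.Q3
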