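import Mathlib
import Pool.Agent.Work.MP_59f3ad_nt.Q3.MainTA
import Pool.Agent.Work.MP_59f3ad_nt.Q3.MainB

/-!
Assembly of Theorem B of block Q3T: the count.
-/

open NumberField IsDedekindDomain

namespace Pool.Agent.Work.MP_59f3ad_nt.Q3

universe u

/-- The norms of the `π i` are different and Schneider's conjecture holds at `3` for all twists
`r ≠ 0` for the fields of degree `6` generated by a primitive cube root of unity `w` and a cube root
of `w^a (1 - w)^b ∏ π_i^{c_i}`. -/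
def GoodT {t : ℕ} (a b : ℕ) (c : Fin t → ℕ) (π : Fin t → E) : Prop :=
  (∀ i k, nm (π i) = nm (π k) → i = k) ∧
  ∀ (L : Type u) [Field L] [NumberField L] (w x : L), w ^ 2 + w + 1 = 0 →
    x ^ 3 = w ^ a * (1 - w) ^ b * ∏ i, ev w (π i) ^ c i → Module.finrank ℚ L = 6 →
    ∀ r : ℤ, r ≠ 0 → ∀ S : Set (HeightOneSpectrum (𝓞 L)), S3 L ⊆ S → Sha1 L 3 r S = ⊥

/-- The cubic residue symbol of `ω^a (1 - ω)^b` as a function of the class modulo `9`. -/
def ddk (a b : ℕ) (κ : ZMod 3 × ZMod 3) : ZMod 3 :=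
  (b : ZMod 3) * κ.1 - (a : ZMod 3) * (κ.1 + κ.2)

open Classical in
/-- Theorem B for all twists. -/
def StBT : Prop := ∀ (t : ℕ) (c : Fin t → ℕ), (∀ i, c i = 1 ∨ c i = 2) → ∀ ε : ℝ, 0 < ε →
  ∃ X0 : ℕ, ∀ X : ℕ, X0 ≤ X → ∀ (P : Fin t → Finset E) (A : Fin t → E),
  (∀ i, ∀ z ∈ P i, PP z ∧ nm z ≤ X ∧ (9 : E) ∣ z - A i) →
  (∀ i, (X : ℝ) ^ (19 / 20 : ℝ) ≤ (P i).card) → ∀ a b : ℕ,
  ((¬ (9 : E) ∣ ∏ i, A i ^ c i - 1 ∨ ∃ i, ddk a b (kap (A i)) ≠ 0) →
    (((Fintype.piFinset P).filter (fun π => ¬ GoodT.{u} a b c π)).card : ℝ) ≤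
      (1 / 2 + ε) * ∏ i, ((P i).card : ℝ)) ∧
  ((∃ i j, (kap (A i)).1 * (kap (A j)).2 - (kap (A i)).2 * (kap (A j)).1 ≠ 0) →
    ¬ (3 ∣ a ∧ 3 ∣ b ∧ (9 : E) ∣ ∏ i, A i ^ c i - 1) →
    (((Fintype.piFinset P).filter (fun π => ¬ GoodT.{u} a b c π)).card : ℝ) ≤
      (1 / 6 + ε) * ∏ i, ((P i).card : ℝ))

namespace MainTB

theorem cast_zero {a : ℕ} (h : (a : ZMod 3) = 0) : 3 ∣ a := (ZMod.natCast_eq_zero_iff _ _).mp h

theorem span_cond {t : ℕ} (a b : ℕ) (κ : Fin t → ZMod 3 × ZMod 3)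
    (h : ∃ i j, (κ i).1 * (κ j).2 - (κ i).2 * (κ j).1 ≠ 0) (hab : ¬ (3 ∣ a ∧ 3 ∣ b)) :
    ∃ i, ddk a b (κ i) ≠ 0 := by
  by_contra hcon
  push Not at hcon
  obtain ⟨i, j, hij⟩ := h
  have h1 := hcon i
  have h2 := hcon j
  unfold ddk at h1 h2
  have hF : Fact (Nat.Prime 3) := ⟨Nat.prime_three⟩
  have ha : (a : ZMod 3) = 0 := by
    have : ((κ i).1 * (κ j).2 - (κ i).2 * (κ j).1) * (a : ZMod 3) = 0 := by
      linear_combination (κ j).1 * h1 - (κ i).1 * h2
    exact (mul_eq_zero.mp this).resolve_left hij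
  have hb : (b : ZMod 3) = 0 := by
    have : ((κ i).1 * (κ j).2 - (κ i).2 * (κ j).1) * (b : ZMod 3) = 0 := by
      have h3 : (b : ZMod 3) * (κ i).1 = 0 := by
        rw [ha] at h1
        linear_combination h1
      have h4 : (b : ZMod 3) * (κ j).1 = 0 := by
        rw [ha] at h2
        linear_combination h2
      linear_combination (κ j).2 * h3 - (κ i).2 * h4
    exact (mul_eq_zero.mp this).resolve_left hij
  exact hab ⟨cast_zero ha, cast_zero hb⟩

end MainTB

open MainB MainTA MainTB in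
theorem stBT (hA : StAT.{u}) (hRec : StRec) (hSup : StSup) (hFmT : StFmT) (hCnT : StCnT)
    (hEqn : StEqn) (hKap : StKap) (hMon : StMon.{u}) : StBT.{u} := by
  classical
  intro t c hc ε hε
  have h3t : (0 : ℝ) < 3 ^ t := by positivity
  obtain ⟨X1, hX1⟩ := hFmT t c hc (ε / 3 ^ t) (by positivity)
  obtain ⟨X2, hX2⟩ := hEqn t (ε / 2) (by positivity)
  refine ⟨max (max X1 X2) 1, fun X hX P A hPA hcard ta tb => ?_⟩
  have hXX1 : X1 ≤ X := (le_max_left _ _).trans ((le_max_left _ _).trans hX)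
  have hXX2 : X2 ≤ X := (le_max_right _ _).trans ((le_max_left _ _).trans hX)
  have hX1' : 1 ≤ X := (le_max_right _ _).trans hX
  have hne : ∀ i, (P i).Nonempty := by
    intro i
    rw [← Finset.card_pos]
    have h1 : (0 : ℝ) < (X : ℝ) ^ (19 / 20 : ℝ) := by
      apply Real.rpow_pos_of_pos
      exact_mod_cast hX1'
    exact_mod_cast h1.trans_le (hcard i)
  have hpp : ∀ i, ∀ z ∈ P i, PP z := fun i z hz => (hPA i z hz).1
  have hA3 : ∀ i, (3 : ℤ) ∣ (A i).re - 1 ∧ (3 : ℤ) ∣ (A i).im := by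
    intro i
    obtain ⟨z, hz⟩ := hne i
    obtain ⟨hz1, _, y, hy⟩ := hPA i z hz
    have hre := congrArg QuadraticAlgebra.re hy
    have him := congrArg QuadraticAlgebra.im hy
    simp [QuadraticAlgebra.re_ofNat, QuadraticAlgebra.im_ofNat] at hre him
    have h1 := hz1.re
    have h2 := hz1.im
    constructor <;> omega
  have hkap : ∀ i, ∀ z ∈ P i, kap z = kap (A i) := fun i z hz =>
    hKap.2 z (A i) (hpp i z hz).re (hpp i z hz).im (hPA i z hz).2.2
  set H : Finset (Fin t → ZMod 3) := Finset.univ.filter (fun h => (∃ i k, h i ≠ h k) ∧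
    ∑ i, (h i * (c i : ZMod 3)) • kap (A i) = 0) with hH
  set Pi0 : ℝ := ∏ i, ((P i).card : ℝ) with hPi0
  have hPi : 0 ≤ Pi0 := Finset.prod_nonneg fun i _ => Nat.cast_nonneg _
  set S := Fintype.piFinset P with hS
  set B := S.filter (fun π => ¬ GoodT.{u} ta tb c π) with hB
  have main : (¬ (9 : E) ∣ ∏ i, A i ^ c i - 1 ∨ ∃ i, ddk ta tb (kap (A i)) ≠ 0) →
      ∀ q : ℝ, 0 ≤ q → (H.card : ℝ) * 3 ≤ q * 3 ^ t → q ≤ 1 → (B.card : ℝ) ≤ (q / 2 + ε) * Pi0 := by
    intro hcond
    have ht : 1 ≤ t := by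
      rcases Nat.eq_zero_or_pos t with rfl | h
      · rcases hcond with h | ⟨i, _⟩
        · exact absurd (by simp) h
        · exact i.elim0
      · exact h
    set B1 := S.filter (fun π => ∃ i k, i ≠ k ∧ nm (π i) = nm (π k)) with hB1
    set B2 := B.filter (fun π => ∀ i k, nm (π i) = nm (π k) → i = k) with hB2
    have hBle : B.card ≤ B1.card + B2.card := by
      refine (Finset.card_le_card ?_).trans (Finset.card_union_le _ _)
      intro π hπ
      rw [Finset.mem_union]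
      by_cases h : ∀ i k, nm (π i) = nm (π k) → i = k
      · right
        exact Finset.mem_filter.mpr ⟨hπ, h⟩
      · left
        push Not at h
        obtain ⟨i, k, h1, h2⟩ := h
        exact Finset.mem_filter.mpr ⟨(Finset.mem_filter.mp hπ).1, i, k, h2, h1⟩
    have hB1c : (B1.card : ℝ) ≤ ε / 2 * Pi0 := hX2 X hXX2 P hpp hcard
    let R : (Fin t → E) → (Fin t → ZMod 3) → Prop := fun π h => ∀ k,
      ∑ i, (c i : ZMod 3) * (c k : ZMod 3) * (h i - h k) * sy π i k =
        h k * (c k : ZMod 3) * dd ta tb (π k)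
    have hdb : 2 * B2.card ≤ ∑ h ∈ H, (S.filter fun π => R π h).card := by
      refine double S H R B2 ((Finset.filter_subset _ _).trans (Finset.filter_subset _ _)) ?_
      intro π hπ
      obtain ⟨hπB, hinj⟩ := Finset.mem_filter.mp hπ
      obtain ⟨hπS, hbad⟩ := Finset.mem_filter.mp hπB
      have hmem : ∀ i, π i ∈ P i := fun i => Fintype.mem_piFinset.mp hπS i
      have hppi : ∀ i, PP (π i) := fun i => hpp i _ (hmem i)
      have hex : ∃ (L : Type u) (_ : Field L) (_ : NumberField L) (w x : L), w ^ 2 + w + 1 = 0 ∧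
          x ^ 3 = w ^ ta * (1 - w) ^ tb * ∏ i, ev w (π i) ^ c i ∧ Module.finrank ℚ L = 6 ∧
          ∃ r : ℤ, r ≠ 0 ∧ Sha1 L 3 r (S3 L) ≠ ⊥ := by
        by_contra hcon
        apply hbad
        refine ⟨hinj, fun L _ _ w x hw hx hd r hr T hT => ?_⟩
        rw [Sha1_eq_bot_iff]
        intro φ hφ
        have h1 : Sha1 L 3 r (S3 L) = ⊥ := by
          by_contra hne
          exact hcon ⟨L, _, _, w, x, hw, hx, hd, r, hr, hne⟩
        refine (Sha1_eq_bot_iff L 3 r (S3 L)).mp h1 φ ?_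
        have h2 : {v : HeightOneSpectrum (𝓞 L) | ((3 : ℕ) : 𝓞 L) ∈ v.asIdeal} = S3 L := by
          ext v
          simp [S3]
        have h3 := hMon L 3 r T (fun v hv => hT (by simpa [S3] using hv))
        rw [h2] at h3
        exact h3 hφ
      obtain ⟨L, _, _, w, x, hw, hx, hd, r, hr, hSha⟩ := hex
      have hP : Prd t π c (∏ i, π i ^ c i) := ⟨ht, hppi, hinj, hc, rfl⟩
      have hx' : x ^ 3 = ev w (oE ^ ta * lE ^ tb * ∏ i, π i ^ c i) := by
        rw [hx, ev_tw w hw, ← evH_apply w hw, map_prod]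
        congr 1
        refine Finset.prod_congr rfl fun i _ => ?_
        rw [map_pow, evH_apply]
      have hk2 : ∀ i, kap (π i) = kap (A i) := fun i => hkap i _ (hmem i)
      have hdk : ∀ i, dd ta tb (π i) = ddk ta tb (kap (A i)) := by
        intro i
        unfold dd ddk
        rw [(hSup (π i) (hppi i)).1, (hSup (π i) (hppi i)).2, hk2]
        ring
      have hcond' : ¬ (9 : E) ∣ (∏ i, π i ^ c i) - 1 ∨ ∃ k, dd ta tb (π k) ≠ 0 := by
        rcases hcond with h | ⟨i, hi⟩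
        · left
          rw [hKap.1 t π c fun i => ⟨(hppi i).re, (hppi i).im⟩]
          simp only [hk2]
          exact fun h' => h ((hKap.1 t A c hA3).mpr h')
        · right
          exact ⟨i, by rw [hdk]; exact hi⟩
      obtain ⟨h, ⟨i1, k1, hik⟩, hsum, hsy⟩ :=
        hA L w x t π c ta tb _ hP hw hx' hd hcond' r hr hSha
      simp only [hk2] at hsum
      have hRh : R π h := by
        intro k
        rw [← hsy k]
        refine Finset.sum_congr rfl fun i _ => ?_
        by_cases hik' : i = k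
        · rw [hik', sub_self, mul_zero, zero_mul, zero_mul]
        · rw [sy_eq hRec hppi hinj i k hik']
      have hRn : R π (-h) := by
        intro k
        have := hRh k
        simp only [Pi.neg_apply, neg_mul]
        rw [← this, ← Finset.sum_neg_distrib]
        refine Finset.sum_congr rfl fun i _ => ?_
        ring
      refine ⟨h, Finset.mem_filter.mpr ⟨Finset.mem_univ _, ⟨i1, k1, hik⟩, hsum⟩, -h,
        Finset.mem_filter.mpr ⟨Finset.mem_univ _, ⟨i1, k1, ?_⟩, neg_mem hsum⟩, ?_, hRh, hRn⟩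
      · simpa using hik
      · intro heq
        apply hik
        have hz : ∀ i, h i = 0 := by
          intro i
          have h1 := congrFun heq i
          rw [Pi.neg_apply] at h1
          have h2 : (2 : ZMod 3) * h i = 0 := by linear_combination h1
          have h3 : (2 : ZMod 3) * 2 = 1 := by decide
          have h4 : h i = 2 * (2 * h i) := by linear_combination (-h i) * h3
          rw [h4, h2, mul_zero]
        rw [hz, hz]
    have hsum : ((∑ h ∈ H, (S.filter fun π => R π h).card : ℕ) : ℝ) ≤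
        H.card * ((3 / 3 ^ t + ε / 3 ^ t) * Pi0) := by
      push_cast
      rw [← nsmul_eq_mul, ← Finset.sum_const]
      refine Finset.sum_le_sum fun h hh => ?_
      exact hX1 X hXX1 P (fun i z hz => ⟨hpp i z hz, (hPA i z hz).2.1.trans (by omega)⟩) hcard h
        (Finset.mem_filter.mp hh).2.1 (fun k z => h k * (c k : ZMod 3) * dd ta tb z)
    have hB2c : (2 : ℝ) * B2.card ≤ H.card * ((3 / 3 ^ t + ε / 3 ^ t) * Pi0) := by
      refine le_trans ?_ hsum
      exact_mod_cast hdb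
    intro q hq0 hq hq1
    have h1 : (B.card : ℝ) ≤ B1.card + B2.card := by exact_mod_cast hBle
    have h2 : (H.card : ℝ) * ((3 / 3 ^ t + ε / 3 ^ t) * Pi0) ≤ (q + ε) * Pi0 := by
      have h4 : (H.card : ℝ) * (3 / 3 ^ t + ε / 3 ^ t) ≤ q + ε := by
        have h5 : (H.card : ℝ) * (3 / 3 ^ t) ≤ q := by
          rw [← mul_div_assoc, div_le_iff₀ h3t]
          exact hq
        have h6 : (H.card : ℝ) * (ε / 3 ^ t) ≤ ε := by
          rw [← mul_div_assoc, div_le_iff₀ h3t]
          have h7 : q * 3 ^ t ≤ 1 * 3 ^ t := mul_le_mul_of_nonneg_right hq1 h3t.le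
          have h8 : (0 : ℝ) ≤ H.card := Nat.cast_nonneg _
          have h9 : (H.card : ℝ) ≤ 3 ^ t := by linarith
          rw [mul_comm]
          exact mul_le_mul_of_nonneg_left h9 hε.le
        linarith
      nlinarith [mul_le_mul_of_nonneg_right h4 hPi]
    nlinarith
  constructor
  · intro hcond
    have hκ : ∃ i, kap (A i) ≠ 0 := by
      rcases hcond with h | ⟨i, hi⟩
      · by_contra hcon
        push Not at hcon
        apply h
        rw [hKap.1 t A c hA3]
        simp only [hcon, smul_zero, Finset.sum_const_zero]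
      · refine ⟨i, fun h0 => hi ?_⟩
        rw [h0]
        simp [ddk]
    obtain ⟨hN1, _⟩ := hCnT t c (fun i => kap (A i)) hc hκ
    have hH1 : (H.card : ℝ) * 3 ≤ 3 ^ t := by
      have : H.card * 3 ≤ 3 ^ t := le_trans (by nlinarith) hN1
      exact_mod_cast this
    exact main hcond 1 zero_le_one (by linarith) le_rfl
  · intro hsp hab
    have hcond : ¬ (9 : E) ∣ ∏ i, A i ^ c i - 1 ∨ ∃ i, ddk ta tb (kap (A i)) ≠ 0 := by
      by_cases h9 : (9 : E) ∣ ∏ i, A i ^ c i - 1
      · right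
        exact span_cond ta tb (fun i => kap (A i)) hsp fun h => hab ⟨h.1, h.2, h9⟩
      · exact Or.inl h9
    have hκ : ∃ i, kap (A i) ≠ 0 := by
      obtain ⟨i, j, hij⟩ := hsp
      refine ⟨i, fun h0 => hij ?_⟩
      rw [h0]
      simp
    obtain ⟨_, hN2⟩ := hCnT t c (fun i => kap (A i)) hc hκ
    have h1 := hN2 hsp
    have h2 : (H.card : ℝ) * 9 ≤ 3 ^ t := by
      have : H.card * 9 ≤ 3 ^ t := le_trans (by nlinarith) h1
      exact_mod_cast this
    have h3 := main hcond (1 / 3) (by norm_num) (by linarith) (by norm_num)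
    have h4 : ((1 / 3 : ℝ) / 2 + ε) = 1 / 6 + ε := by ring
    rw [h4] at h3
    exact h3

end Pool.Agent.Work.MP_59f3ad_nt.Q3
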