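import Mathlib
import Pool.Agent.Work.MP_59f3ad_nt.Q3.All
import Pool.Agent.Work.MP_59f3ad_nt.Q3.MainTB
import Pool.Agent.Work.MP_59f3ad_nt.Q3.I_RcQ
import Pool.Agent.Work.MP_59f3ad_nt.Q3.I_Spa
import Pool.Agent.Work.MP_59f3ad_nt.Q3.I_Spb
import Pool.Agent.Work.MP_59f3ad_nt.Q3.I_Sup
import Pool.Agent.Work.MP_59f3ad_nt.Q3.I_FmT
import Pool.Agent.Work.MP_59f3ad_nt.Q3.I_CnT
import Pool.Agent.Work.MP_59f3ad_nt.Q3.I_NcT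
import Pool.Agent.Work.MP_59f3ad_nt.Q3.I_UnT
import Pool.Agent.Work.MP_59f3ad_nt.Q3.I_ThG
import Pool.Agent.Work.MP_59f3ad_nt.Q3.I_Alg
import Pool.Agent.Work.MP_59f3ad_nt.Q3.I_Loc
import Pool.Agent.Work.MP_59f3ad_nt.Q3.I_Dec
import Pool.Agent.Work.MP_59f3ad_nt.Q3.I_IvT
import Pool.Agent.Work.MP_59f3ad_nt.Q3.I_Mon

/-!
All items of block Q3T together.
-/

namespace Pool.Agent.Work.MP_59f3ad_nt.Q3

universe u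

namespace Fin

theorem RcQ : StRcQ := pr_RcQ pr_Rho Ind Chr Jac
theorem Spa : StSpa := pr_Spa RcQ Ind
theorem Spb : StSpb := pr_Spb RcQ
theorem Sup : StSup := pr_Sup pr_Rho Ind Spa Spb
theorem FmT : StFmT := pr_FmT Blt
theorem ThG : StThG.{u} := pr_ThG pr_Iso pr_H90
theorem Dec : StDec.{u} := pr_Dec pr_Loc pr_Cyl
theorem IvT : StIvT.{u} := pr_IvT Kmm pr_H90 pr_Gkk Cub pr_Mur pr_Rtt pr_Unr Fac pr_Iso ThG pr_Alg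
  pr_Cyl Dec pr_Vsg
theorem AT : StAT.{u} := stAT Ind pr_Kap pr_Iso pr_NcT pr_Cfg pr_H90 pr_UnT Ram pr_Unr Fac ThG
  pr_Alg Tam pr_Tau pr_Mur Cub pr_Cyl Tst Div Tor pr_Chn IvT Nrr
theorem BT : StBT.{u} := stBT AT Rec Sup FmT pr_CnT Eqn pr_Kap pr_Mon

end Fin

end Pool.Agent.Work.MP_59f3ad_nt.Q3
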