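import Mathlib
import Pool.Agent.Work.MP_59f3ad_nt.Q3.StmtsC
import Pool.Agent.Work.MP_59f3ad_nt.Bd.B01
import Pool.Agent.Work.MP_59f3ad_nt.Bdx.B01

/-!
Block Q3, item Cyl: the cyclotomic character of a field with a primitive cube root of unity.
-/

open NumberField IsDedekindDomain

namespace Pool.Agent.Work.MP_59f3ad_nt.Q3

universe u

namespace ICyl

/-- the cyclotomic character is `1` modulo `3` -/
theorem cyc_mod (L : Type u) [Field L] [NumberField L] (w : L) (hw : w ^ 2 + w + 1 = 0)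
    (h : GK L) : PadicInt.toZModPow (p := 3) 1 ((cyc L 3 h : ℤ_[3]ˣ) : ℤ_[3]) = 1 := by
  set t : AlgebraicClosure L := algebraMap L (AlgebraicClosure L) w with ht
  have ht1 : t ^ 2 + t + 1 = 0 := by
    rw [ht, ← map_pow, ← map_add, ← map_one (algebraMap L (AlgebraicClosure L)), ← map_add, hw,
      map_zero]
  have ht3 : t ^ 3 = 1 := by linear_combination (t - 1) * ht1
  have hne : t ≠ 1 := by
    intro h1
    rw [h1] at ht1
    norm_num at ht1
  have hp : IsPrimitiveRoot t 3 := by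
    have h0 := IsPrimitiveRoot.orderOf t
    rwa [orderOf_eq_prime ht3 hne] at h0
  have hs := cyclotomicCharacter.spec (L := AlgebraicClosure L) 3 (n := 1)
    (MulSemiringAction.toRingAut (GK L) (AlgebraicClosure L) h) t (by rw [pow_one]; exact ht3)
  have h1 : (MulSemiringAction.toRingAut (GK L) (AlgebraicClosure L) h) t = t := h.commutes w
  rw [h1] at hs
  have h2 : (cyclotomicCharacter (AlgebraicClosure L) 3
      (MulSemiringAction.toRingAut (GK L) (AlgebraicClosure L) h)) = cyc L 3 h := rfl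
  rw [h2] at hs
  set k : ZMod (3 ^ 1) := PadicInt.toZModPow (p := 3) 1 ((cyc L 3 h : ℤ_[3]ˣ) : ℤ_[3]) with hk
  have hlt : k.val < 3 := by
    have := ZMod.val_lt k
    simpa using this
  have h3 : k.val = 1 := (hp.pow_inj (by norm_num) hlt (by rw [pow_one]; exact hs)).symm
  have h4 : ((k.val : ℕ) : ZMod (3 ^ 1)) = k := ZMod.natCast_zmod_val k
  rw [← h4, h3, Nat.cast_one]

/-- so are its powers -/
theorem twist_mod (L : Type u) [Field L] [NumberField L] (w : L) (hw : w ^ 2 + w + 1 = 0) (r : ℤ)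
    (h : GK L) : D3 (twist L 3 r h - 1) := by
  set f := PadicInt.toZModPow (p := 3) 1 with hf
  have h1 : Units.map (f : ℤ_[3] →* ZMod (3 ^ 1)) (cyc L 3 h) = 1 := by
    apply Units.ext
    exact cyc_mod L w hw h
  have h2 : Units.map (f : ℤ_[3] →* ZMod (3 ^ 1)) (cyc L 3 h ^ r) = 1 := by
    rw [map_zpow, h1, one_zpow]
  have h3 : f (twist L 3 r h) = 1 := congrArg Units.val h2
  have h4 : twist L 3 r h - 1 ∈ RingHom.ker f := by
    rw [RingHom.mem_ker, map_sub, h3, map_one, sub_self]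
  rw [hf, PadicInt.ker_toZModPow, Ideal.mem_span_singleton, pow_one] at h4
  exact_mod_cast h4

/-- no torsion -/
theorem pow_ne {b : ℤ_[3]} (h3 : D3 (b - 1)) (hne : b ≠ 1) {s : ℕ} (hs : s ≠ 0) : b ^ s ≠ 1 := by
  have hfin : FiniteMultiplicity (3 : ℤ_[3]) (b - 1) := by
    refine FiniteMultiplicity.of_not_isUnit ?_ (sub_ne_zero.2 hne)
    have := (PadicInt.prime_p (p := 3)).not_isUnit
    exact_mod_cast this
  have h1 : (3 : ℤ_[3]) ^ multiplicity (3 : ℤ_[3]) (b - 1) ∣ b - 1 := pow_multiplicity_dvd _ _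
  have h2 : ¬ (3 : ℤ_[3]) ^ (multiplicity (3 : ℤ_[3]) (b - 1) + 1) ∣ b - 1 :=
    hfin.not_pow_dvd_of_multiplicity_lt (Nat.lt_succ_self _)
  have h4 : 1 ≤ multiplicity (3 : ℤ_[3]) (b - 1) := by
    by_contra hc
    have h5 : multiplicity (3 : ℤ_[3]) (b - 1) = 0 := by omega
    rw [h5, zero_add, pow_one] at h2
    exact h2 h3
  refine Tw.pr_Tf 3 (by norm_num) _ h4 b ?_ ?_ s hs
  · exact_mod_cast h1
  · intro h6
    apply h2
    exact_mod_cast h6

end ICyl

open ICyl in
theorem pr_Cyl : StCyl.{u} := by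
  intro L _ _ w hw r
  refine ⟨fun h => twist_mod L w hw r h, fun hr v hv ι => ?_⟩
  obtain ⟨g, h, hgh, hne⟩ := exists_cyc_ne_one L 3 v (by exact_mod_cast hv) ι
  refine ⟨g, h, hgh, fun hc => ?_⟩
  have h1 : cyc L 3 h ^ r = 1 := Units.ext hc
  have h2 : cyc L 3 h ^ r.natAbs = 1 := by
    rcases Int.natAbs_eq r with h3 | h3
    · rw [h3, zpow_natCast] at h1
      exact h1
    · rw [h3, zpow_neg, inv_eq_one, zpow_natCast] at h1
      exact h1
  have h4 : D3 (((cyc L 3 h : ℤ_[3]ˣ) : ℤ_[3]) - 1) := by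
    have := twist_mod L w hw 1 h
    unfold twist at this
    rwa [zpow_one] at this
  refine pow_ne h4 (fun h5 => hne (Units.ext h5)) (s := r.natAbs) (by omega) ?_
  have h6 := congrArg Units.val h2
  rwa [Units.val_pow_eq_pow_val, Units.val_one] at h6

end Pool.Agent.Work.MP_59f3ad_nt.Q3
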