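import Mathlib
import Pool.Agent.Work.MP_59f3ad_nt.Q3.StmtsR

/-!
# Block Q3, item Kap: residues modulo 9 of primary elements
-/

open NumberField IsDedekindDomain

namespace Pool.Agent.Work.MP_59f3ad_nt.Q3

namespace IKap

/-- congruent to `1` modulo `3` -/
def Q (z : E) : Prop := (3 : ℤ) ∣ z.re - 1 ∧ (3 : ℤ) ∣ z.im

theorem kap_of {z : E} {u v : ℤ} (h1 : z.re = 1 + 3 * u) (h2 : z.im = 3 * v) :
    kap z = ((u : ZMod 3), (v : ZMod 3)) := by
  have e1 : (z.re - 1) / 3 = u := by omega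
  have e2 : z.im / 3 = v := by omega
  unfold kap
  rw [e1, e2]

theorem Q_of {z : E} (h : Q z) : ∃ u v : ℤ, z.re = 1 + 3 * u ∧ z.im = 3 * v := by
  obtain ⟨⟨u, hu⟩, ⟨v, hv⟩⟩ := h
  exact ⟨u, v, by omega, hv⟩

theorem of_Q {z : E} {u v : ℤ} (h1 : z.re = 1 + 3 * u) (h2 : z.im = 3 * v) : Q z :=
  ⟨⟨u, by omega⟩, ⟨v, h2⟩⟩

theorem three : (3 : ZMod 3) = 0 := by decide

theorem mul {z z' : E} (h : Q z) (h' : Q z') :
    Q (z * z') ∧ kap (z * z') = kap z + kap z' := by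
  obtain ⟨u, v, h1, h2⟩ := Q_of h
  obtain ⟨u', v', h1', h2'⟩ := Q_of h'
  have e1 : (z * z').re = 1 + 3 * (u + u' + 3 * (u * u' - v * v')) := by
    rw [QuadraticAlgebra.re_mul, h1, h2, h1', h2']
    ring
  have e2 : (z * z').im = 3 * (v + v' + 3 * (u * v' + v * u' - v * v')) := by
    rw [QuadraticAlgebra.im_mul, h1, h2, h1', h2']
    ring
  refine ⟨of_Q e1 e2, ?_⟩
  rw [kap_of e1 e2, kap_of h1 h2, kap_of h1' h2', Prod.mk_add_mk]
  push_cast
  rw [three]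
  simp

theorem one : Q 1 ∧ kap 1 = 0 := by
  have e1 : (1 : E).re = 1 + 3 * 0 := by rw [QuadraticAlgebra.re_one]; norm_num
  have e2 : (1 : E).im = 3 * 0 := by rw [QuadraticAlgebra.im_one]; norm_num
  refine ⟨of_Q e1 e2, ?_⟩
  rw [kap_of e1 e2]
  simp

theorem pow {z : E} (h : Q z) (n : ℕ) : Q (z ^ n) ∧ kap (z ^ n) = (n : ZMod 3) • kap z := by
  induction n with
  | zero =>
    rw [pow_zero, Nat.cast_zero, zero_smul]
    exact one
  | succ n ih =>
    have h1 := mul ih.1 h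
    rw [pow_succ, Nat.cast_succ, add_smul, one_smul, ← ih.2]
    exact h1

theorem prod {t : ℕ} (z : Fin t → E) (e : Fin t → ℕ) (h : ∀ i, Q (z i)) (s : Finset (Fin t)) :
    Q (∏ i ∈ s, z i ^ e i) ∧
      kap (∏ i ∈ s, z i ^ e i) = ∑ i ∈ s, (e i : ZMod 3) • kap (z i) := by
  classical
  induction s using Finset.induction_on with
  | empty =>
    rw [Finset.prod_empty, Finset.sum_empty]
    exact one
  | insert a s ha ih =>
    have h1 := mul (pow (h a) (e a)).1 ih.1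
    rw [Finset.prod_insert ha, Finset.sum_insert ha, ← ih.2, ← (pow (h a) (e a)).2]
    exact h1

theorem nine (z : E) : (9 : E) ∣ z ↔ (9 : ℤ) ∣ z.re ∧ (9 : ℤ) ∣ z.im := by
  have e : (9 : E) = algebraMap ℤ E 9 := rfl
  rw [e]
  exact QuadraticAlgebra.algebraMap_dvd_iff

theorem nine_kap {z : E} (h : Q z) : (9 : E) ∣ z - 1 ↔ kap z = 0 := by
  obtain ⟨u, v, h1, h2⟩ := Q_of h
  rw [nine, kap_of h1 h2, Prod.mk_eq_zero, ZMod.intCast_zmod_eq_zero_iff_dvd,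
    ZMod.intCast_zmod_eq_zero_iff_dvd, QuadraticAlgebra.re_sub, QuadraticAlgebra.im_sub,
    QuadraticAlgebra.re_one, QuadraticAlgebra.im_one, h1, h2]
  push_cast
  constructor
  · rintro ⟨h3, h4⟩
    omega
  · rintro ⟨h3, h4⟩
    omega

end IKap

open IKap in
/-- item Kap -/
theorem pr_Kap : StKap := by
  refine ⟨?_, ?_⟩
  · intro t z e h
    have h1 := prod z e h Finset.univ
    rw [nine_kap h1.1, h1.2]
  · intro z A h1 h2 h3
    obtain ⟨u, v, h4, h5⟩ := Q_of ⟨h1, h2⟩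
    rw [nine, QuadraticAlgebra.re_sub, QuadraticAlgebra.im_sub] at h3
    obtain ⟨⟨c, hc⟩, ⟨d, hd⟩⟩ := h3
    have e1 : A.re = 1 + 3 * (u - 3 * c) := by omega
    have e2 : A.im = 3 * (v - 3 * d) := by omega
    rw [kap_of h4 h5, kap_of e1 e2]
    push_cast
    rw [three]
    simp

end Pool.Agent.Work.MP_59f3ad_nt.Q3
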