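import Mathlib
import Pool.Agent.Work.MP_59f3ad_nt.Q3.StmtsT
import Pool.Agent.Work.MP_59f3ad_nt.Q3.I_Ncu

/-!
Block Q3, item NcT: the elements `oE^a lE^b M d³` are not cubes.
-/

open NumberField IsDedekindDomain

namespace Pool.Agent.Work.MP_59f3ad_nt.Q3

universe u

namespace INcT

theorem nm_oE : nm oE = 1 := by
  have h1 : (oE : E).re = 0 := rfl
  have h2 : (oE : E).im = 1 := rfl
  unfold nm
  rw [h1, h2]
  norm_num

theorem nm_lE : nm lE = 3 := by
  have h1 : (lE : E).re = 1 := rfl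
  have h2 : (lE : E).im = -1 := rfl
  unfold nm
  rw [h1, h2]
  norm_num

end INcT

open INcu INcT in
theorem pr_NcT : StNcT := by
  intro t π c M hP a b z d hd heq
  have hi0 : 0 < t := hP.ht
  set i0 : Fin t := ⟨0, hi0⟩ with hi0d
  set p := nm (π i0) with hp
  have hpp : p.Prime := (hP.pp i0).pr
  have hp3 : ¬ p ∣ 3 := by
    intro h3
    have h4 : p = 3 := (Nat.prime_dvd_prime_iff_eq hpp Nat.prime_three).1 h3
    obtain ⟨r, hr⟩ := (hP.pp i0).re
    obtain ⟨s, hs⟩ := (hP.pp i0).im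
    have h5 : ((nm (π i0) : ℕ) : ℤ) = |(π i0).re ^ 2 - (π i0).re * (π i0).im + (π i0).im ^ 2| := by
      unfold nm
      rw [Int.natCast_natAbs]
    have h6 : 0 ≤ (π i0).re ^ 2 - (π i0).re * (π i0).im + (π i0).im ^ 2 := by
      nlinarith [sq_nonneg ((π i0).re - (π i0).im), sq_nonneg ((π i0).re), sq_nonneg ((π i0).im)]
    rw [abs_of_nonneg h6, ← hp, h4] at h5
    have h7 : (π i0).re = 3 * r + 1 := by linarith
    rw [h7, hs] at h5
    have h8 : (3 : ℤ) = 3 * (3 * r ^ 2 + 2 * r - (3 * r + 1) * s + 3 * s ^ 2) + 1 := by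
      push_cast at h5
      linear_combination h5
    omega
  have hM : nm M = ∏ i, nm (π i) ^ c i := by
    rw [hP.hM, ← nh_apply, map_prod]
    refine Finset.prod_congr rfl fun i _ => ?_
    rw [map_pow, nh_apply]
  have hMp : nm M = p ^ c i0 * ∏ i ∈ Finset.univ.erase i0, nm (π i) ^ c i := by
    rw [hM, ← Finset.mul_prod_erase Finset.univ _ (Finset.mem_univ i0)]
  set R := ∏ i ∈ Finset.univ.erase i0, nm (π i) ^ c i with hR
  have hRp : ¬ p ∣ R := by
    intro h
    obtain ⟨i, hi, h1⟩ := (hpp.prime.dvd_finsetProd_iff _).1 h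
    have h2 := hpp.dvd_of_dvd_pow h1
    have h3 := (Nat.prime_dvd_prime_iff_eq hpp (hP.pp i).pr).1 h2
    have h4 := hP.inj i0 i h3
    exact (Finset.mem_erase.1 hi).1 h4.symm
  have hR0 : R ≠ 0 := fun h => hRp (by rw [h]; exact dvd_zero p)
  have hd0 : nm d ≠ 0 := fun h => hd (nm_eq_zero h)
  have hE : 3 ^ b * (p ^ c i0 * R * nm d ^ 3) = nm z ^ 3 := by
    have h1 := congrArg nh heq
    rw [map_mul, map_mul, map_mul, map_pow, map_pow, map_pow, map_pow, nh_apply, nh_apply,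
      nh_apply, nh_apply, nh_apply, nm_oE, nm_lE, hMp, one_pow, one_mul] at h1
    rw [← h1]
    ring
  have hpc : p ^ c i0 ≠ 0 := pow_ne_zero _ hpp.ne_zero
  have h3b : (3 : ℕ) ^ b ≠ 0 := pow_ne_zero _ (by norm_num)
  have hp3b : ¬ p ∣ 3 ^ b := fun h => hp3 (hpp.dvd_of_dvd_pow h)
  have hf : (3 ^ b * (p ^ c i0 * R * nm d ^ 3)).factorization p =
      (nm z ^ 3).factorization p := by rw [hE]
  rw [Nat.factorization_mul h3b (mul_ne_zero (mul_ne_zero hpc hR0) (pow_ne_zero 3 hd0)),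
    Nat.factorization_mul (mul_ne_zero hpc hR0) (pow_ne_zero 3 hd0),
    Nat.factorization_mul hpc hR0, Nat.factorization_pow (nm d), Nat.factorization_pow (nm z),
    Nat.factorization_pow p] at hf
  simp only [Finsupp.add_apply, Finsupp.smul_apply, smul_eq_mul, hpp.factorization_self,
    Nat.factorization_eq_zero_of_not_dvd hRp, Nat.factorization_eq_zero_of_not_dvd hp3b] at hf
  have hc := hP.hc i0
  omega

end Pool.Agent.Work.MP_59f3ad_nt.Q3
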