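import Mathlib
import Pool.Agent.Work.MP_59f3ad_nt.Q3.StmtsR

set_option autoImplicit false

/-!
# MP_59f3ad_nt, block Q3, item Per: complete sums of products of cubic characters
-/

open Finset

namespace Pool.Agent.Work.MP_59f3ad_nt.Q3

namespace IPer

theorem e3_eq (j : ZMod 3) : e3 j = (ZMod.toCircle j : ℂ) := by
  rw [ZMod.toCircle_apply]
  unfold e3
  congr 1
  push_cast
  ring

theorem e3_add (i j : ZMod 3) : e3 (i + j) = e3 i * e3 j := by
  rw [e3_eq, e3_eq, e3_eq, AddChar.map_add_eq_mul, Circle.coe_mul]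

theorem e3_ne_one {j : ZMod 3} (h : j ≠ 0) : e3 j ≠ 1 := by
  rw [e3_eq]
  intro h1
  apply h
  apply ZMod.injective_toCircle
  rw [AddChar.map_zero_eq_one]
  exact Circle.ext (by rw [h1]; rfl)

theorem e3_pow_ne_one {j : ZMod 3} (h : j ≠ 0) {e : ℕ} (he : e = 1 ∨ e = 2) : e3 j ^ e ≠ 1 := by
  rcases he with rfl | rfl
  · rw [pow_one]
    exact e3_ne_one h
  · rw [pow_two, ← e3_add]
    apply e3_ne_one
    revert j
    decide

theorem chi_congr (h2 : StInd) {π z z' : E} (hπ : PP π) (h : π ∣ z - z') :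
    chi π z = chi π z' := by
  have h1 : π ∣ z ↔ π ∣ z' := by
    constructor
    · intro h3
      have := dvd_sub h3 h
      rwa [sub_sub_cancel] at this
    · intro h3
      have := dvd_add h h3
      rwa [sub_add_cancel] at this
  unfold chi
  by_cases hz : π ∣ z
  · rw [if_pos hz, if_pos (h1.1 hz)]
  · rw [if_neg hz, if_neg (fun h' => hz (h1.2 h')), (h2 π hπ).2.2.1 z z' h]

theorem chi_mul (h2 : StInd) {π : E} (hπ : PP π) (z z' : E) :
    chi π (z * z') = chi π z * chi π z' := by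
  obtain ⟨-, hm, -, -, -, hp⟩ := h2 π hπ
  unfold chi
  by_cases hz : π ∣ z
  · rw [if_pos hz, if_pos (hz.mul_right z'), zero_mul]
  · by_cases hz' : π ∣ z'
    · rw [if_pos hz', if_pos (hz'.mul_left z), mul_zero]
    · have h3 : ¬ π ∣ z * z' := fun h => (hp.dvd_or_dvd h).elim hz hz'
      rw [if_neg hz, if_neg hz', if_neg h3, hm z z' hz hz', e3_add]

theorem ev_nat {R : Type*} [CommRing R] (w : R) (n : ℕ) : ev w ((n : ℕ) : E) = (n : R) := by
  simp [ev]

theorem dvd_nat (h1 : StRho) {π : E} (hπ : PP π) {n : ℕ} (h : nm π ∣ n) : π ∣ ((n : ℕ) : E) := by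
  rw [← (h1 π hπ).2.1, ev_nat]
  exact (ZMod.natCast_eq_zero_iff n (nm π)).2 h

theorem sum_zmod {q : ℕ} [NeZero q] (F : ZMod q → ℂ) :
    ∑ n ∈ range q, F (n : ZMod q) = ∑ x : ZMod q, F x := by
  refine sum_nbij' (fun n => (n : ZMod q)) (fun x => x.val) ?_ ?_ ?_ ?_ ?_
  · intro a _
    exact mem_univ _
  · intro a _
    exact mem_range.2 (ZMod.val_lt a)
  · intro a ha
    exact ZMod.val_cast_of_lt (mem_range.1 ha)
  · intro a _
    exact ZMod.natCast_zmod_val a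
  · intro a _
    rfl

/-- translations of a periodic function -/
theorem sum_trans {q : ℕ} [NeZero q] (f : E → ℂ) (hf : ∀ z z' : E, f (z + (q : E) * z') = f z)
    (w : E) : ∑ a ∈ range q, ∑ b ∈ range q, f (⟨a, b⟩ + w) =
      ∑ a ∈ range q, ∑ b ∈ range q, f ⟨a, b⟩ := by
  set G : ZMod q → ZMod q → ℂ := fun x y => f ⟨(x.val : ℤ), (y.val : ℤ)⟩ with hG
  have key : ∀ a b : ℤ, f ⟨a, b⟩ = G (a : ZMod q) (b : ZMod q) := by
    intro a b
    rw [hG]
    beta_reduce
    have e1 : (⟨a, b⟩ : E) = ⟨((a : ZMod q).val : ℤ), ((b : ZMod q).val : ℤ)⟩ +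
        (q : E) * ⟨a / q, b / q⟩ := by
      rw [ZMod.val_intCast, ZMod.val_intCast]
      ext
      · simp [Int.emod_add_mul_ediv]
      · simp [Int.emod_add_mul_ediv]
    rw [e1, hf]
  have h1 : ∑ a ∈ range q, ∑ b ∈ range q, f (⟨a, b⟩ + w) =
      ∑ x : ZMod q, ∑ y : ZMod q, G (x + (w.re : ZMod q)) (y + (w.im : ZMod q)) := by
    rw [← sum_zmod]
    refine sum_congr rfl fun a _ => ?_
    rw [← sum_zmod]
    refine sum_congr rfl fun b _ => ?_
    have e2 : ((⟨(a : ℤ), (b : ℤ)⟩ : E) + w) = ⟨(a : ℤ) + w.re, (b : ℤ) + w.im⟩ := by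
      ext <;> simp
    rw [e2, key]
    push_cast
    rfl
  have h2 : ∑ a ∈ range q, ∑ b ∈ range q, f ⟨a, b⟩ = ∑ x : ZMod q, ∑ y : ZMod q, G x y := by
    rw [← sum_zmod]
    refine sum_congr rfl fun a _ => ?_
    rw [← sum_zmod]
    refine sum_congr rfl fun b _ => ?_
    rw [key]
    push_cast
    rfl
  rw [h1, h2]
  refine (Equiv.sum_comp (Equiv.addRight (w.re : ZMod q))
    (fun x => ∑ y : ZMod q, G x (y + (w.im : ZMod q)))).trans ?_
  refine sum_congr rfl fun x _ => ?_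
  exact Equiv.sum_comp (Equiv.addRight (w.im : ZMod q)) (fun y => G x y)

/-- the sum of a non-trivial character -/
theorem sum_char (h1 : StRho) (h2 : StInd) {π : E} (hπ : PP π) {e : ℕ} (he : e = 1 ∨ e = 2)
    [NeZero (nm π)] : ∑ u : ZMod (nm π), chi π ((u.val : ℕ) : E) ^ e = 0 := by
  have : Fact (nm π).Prime := ⟨hπ.pr⟩
  obtain ⟨hr, hdvd, hdiv, h7, -⟩ := h1 π hπ
  set p := nm π with hp
  set k := (p - 1) / 3 with hk
  have hk1 : 1 ≤ k := by omega
  have hk2 : k < p - 1 := by omega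
  have hg : ∃ g : ZMod p, g ≠ 0 ∧ g ^ k ≠ 1 := by
    by_contra hcon
    push Not at hcon
    have h3 := FiniteField.sum_pow_lt_card_sub_one (ZMod p) k (by rw [ZMod.card]; exact hk2)
    have h4 : ∑ x : ZMod p, x ^ k = ∑ x : ZMod p, (1 - if x = 0 then (1 : ZMod p) else 0) := by
      refine sum_congr rfl fun x _ => ?_
      by_cases hx : x = 0
      · rw [if_pos hx, hx, zero_pow (by omega), sub_self]
      · rw [if_neg hx, hcon x hx, sub_zero]
    rw [h4, sum_sub_distrib, sum_ite_eq', if_pos (mem_univ _), sum_const, card_univ, ZMod.card,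
      nsmul_eq_mul, CharP.cast_eq_zero, zero_mul, zero_sub, neg_eq_zero] at h3
    exact one_ne_zero h3
  obtain ⟨g, hg0, hgk⟩ := hg
  have hv : ∀ u : ZMod p, ev (rho π) ((u.val : ℕ) : E) = u := fun u => by
    rw [ev_nat, ZMod.natCast_zmod_val]
  have hng : ¬ π ∣ ((g.val : ℕ) : E) := by
    rw [← hdvd, hv]
    exact hg0
  have hi : ind π ((g.val : ℕ) : E) ≠ 0 := by
    intro h0
    have := (h2 π hπ).1 _ hng
    rw [hv, h0, ZMod.val_zero, pow_zero] at this
    exact hgk this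
  have hc : chi π ((g.val : ℕ) : E) ^ e ≠ 1 := by
    unfold chi
    rw [if_neg hng]
    exact e3_pow_ne_one hi he
  have hm : ∀ u : ZMod p, chi π (((g * u).val : ℕ) : E) =
      chi π ((g.val : ℕ) : E) * chi π ((u.val : ℕ) : E) := by
    intro u
    rw [← chi_mul h2 hπ]
    refine chi_congr h2 hπ ?_
    rw [← Nat.cast_mul, ← hdvd]
    have e1 : ev (rho π) ((((g * u).val : ℕ) : E) - ((g.val * u.val : ℕ) : E)) =
        ev (rho π) (((g * u).val : ℕ) : E) - ev (rho π) ((g.val * u.val : ℕ) : E) := by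
      rw [← evH_apply _ hr, map_sub, evH_apply, evH_apply]
    rw [e1, ev_nat, ev_nat, Nat.cast_mul, ZMod.natCast_zmod_val, ZMod.natCast_zmod_val,
      ZMod.natCast_zmod_val, sub_self]
  set S := ∑ u : ZMod p, chi π ((u.val : ℕ) : E) ^ e with hS
  have h5 : S = chi π ((g.val : ℕ) : E) ^ e * S := by
    rw [hS, mul_sum]
    refine (Equiv.sum_comp (Equiv.mulLeft₀ g hg0)
      (fun u : ZMod p => chi π ((u.val : ℕ) : E) ^ e)).symm.trans ?_
    refine sum_congr rfl fun u _ => ?_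
    change chi π (((g * u).val : ℕ) : E) ^ e = _
    rw [hm, mul_pow]
  have h6 : (chi π ((g.val : ℕ) : E) ^ e - 1) * S = 0 := by
    rw [sub_mul, one_mul, ← h5, sub_self]
  rcases mul_eq_zero.1 h6 with h7 | h7
  · exact absurd (sub_eq_zero.1 h7) hc
  · exact h7

/-- the sum over a progression -/
theorem sum_prog (h1 : StRho) (h2 : StInd) {π : E} (hπ : PP π) {e : ℕ} (he : e = 1 ∨ e = 2)
    (z w : E) (hw : ¬ π ∣ w) : ∑ n ∈ range (nm π), chi π (z + (n : E) * w) ^ e = 0 := by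
  have : Fact (nm π).Prime := ⟨hπ.pr⟩
  have : NeZero (nm π) := ⟨hπ.pr.ne_zero⟩
  obtain ⟨hr, hdvd, -⟩ := h1 π hπ
  have hw0 : ev (rho π) w ≠ 0 := fun h => hw ((hdvd w).1 h)
  have key : ∀ z : E, chi π z = chi π (((ev (rho π) z).val : ℕ) : E) := by
    intro z
    refine chi_congr h2 hπ ?_
    rw [← hdvd, ← evH_apply _ hr, map_sub, evH_apply, evH_apply, ev_nat, ZMod.natCast_zmod_val,
      sub_self]
  have h3 : ∀ n : ℕ, chi π (z + (n : E) * w) =
      chi π ((((n : ZMod (nm π)) * ev (rho π) w + ev (rho π) z).val : ℕ) : E) := by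
    intro n
    rw [key]
    have e1 : ev (rho π) (z + (n : E) * w) = (n : ZMod (nm π)) * ev (rho π) w + ev (rho π) z := by
      rw [← evH_apply _ hr, map_add, map_mul, evH_apply, evH_apply, evH_apply, ev_nat, add_comm]
    rw [e1]
  rw [sum_congr rfl fun n _ => by rw [h3 n],
    sum_zmod (fun x : ZMod (nm π) => chi π (((x * ev (rho π) w + ev (rho π) z).val : ℕ) : E) ^ e)]
  refine (Equiv.sum_comp (Equiv.mulRight₀ (ev (rho π) w) hw0)
    (fun x : ZMod (nm π) => chi π (((x + ev (rho π) z).val : ℕ) : E) ^ e)).trans ?_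
  refine (Equiv.sum_comp (Equiv.addRight (ev (rho π) z))
    (fun x : ZMod (nm π) => chi π (((x).val : ℕ) : E) ^ e)).trans ?_
  exact sum_char h1 h2 hπ he

theorem nm_mul (z z' : E) : nm (z * z') = nm z * nm z' := by
  unfold nm
  rw [← Int.natAbs_mul]
  congr 1
  simp only [QuadraticAlgebra.re_mul, QuadraticAlgebra.im_mul]
  ring

theorem not_dvd {π π1 : E} (hπ : PP π) (hπ1 : PP π1) (hne : π ≠ π1) : ¬ π ∣ π1 := by
  rintro ⟨ε, rfl⟩
  have h1 : nm ε = 1 := by
    have h := hπ1.pr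
    rw [nm_mul] at h
    rcases Nat.prime_mul_iff.1 h with ⟨_, h3⟩ | ⟨_, h3⟩
    · exact h3
    · exact absurd h3 hπ.pr.one_lt.ne'
  apply hne
  obtain ⟨a, b⟩ := π
  obtain ⟨c, d⟩ := ε
  have h2 := hπ.re
  have h3 := hπ.im
  have h4 := hπ1.re
  have h5 := hπ1.im
  unfold nm at h1
  simp only [QuadraticAlgebra.re_mul, QuadraticAlgebra.im_mul] at h1 h2 h3 h4 h5
  have h6 : c ^ 2 - c * d + d ^ 2 = 1 := by
    have h7 : 0 ≤ c ^ 2 - c * d + d ^ 2 := by nlinarith [sq_nonneg (2 * c - d), sq_nonneg d]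
    omega
  obtain ⟨u, hu⟩ := h2
  obtain ⟨v, hv⟩ := h3
  have ha : a = 3 * u + 1 := by linarith
  subst ha hv
  have h8 : (3 : ℤ) ∣ c - 1 := by
    obtain ⟨t, ht⟩ := h4
    refine ⟨t - u * c + v * d, ?_⟩
    linear_combination ht
  have h9 : (3 : ℤ) ∣ d := by
    obtain ⟨t, ht⟩ := h5
    refine ⟨t - u * d - v * c + v * d, ?_⟩
    linear_combination ht
  have hd1 : d ^ 2 < 4 := by nlinarith [sq_nonneg (2 * c - d)]
  have hd2 : -2 < d := by nlinarith
  have hd3 : d < 2 := by nlinarith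
  have hd : d = 0 := by omega
  subst hd
  have hc1 : -2 < c := by nlinarith
  have hc2 : c < 2 := by nlinarith
  have hc : c = 1 := by omega
  subst hc
  ext <;> simp

end IPer

theorem pr_Per (h1 : StRho) (h2 : StInd) : StPer := by
  intro π π1 hπ hπ1 hne e he
  have hq : ∀ z z' : E, chi π (z + ((nm π * nm π1 : ℕ) : E) * z') = chi π z ∧
      chi π1 (z + ((nm π * nm π1 : ℕ) : E) * z') = chi π1 z := by
    intro z z'
    constructor
    · refine IPer.chi_congr h2 hπ ?_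
      rw [add_sub_cancel_left]
      exact (IPer.dvd_nat h1 hπ (dvd_mul_right _ _)).mul_right _
    · refine IPer.chi_congr h2 hπ1 ?_
      rw [add_sub_cancel_left]
      exact (IPer.dvd_nat h1 hπ1 (dvd_mul_left _ _)).mul_right _
  refine ⟨?_, hq⟩
  have : NeZero (nm π * nm π1) := ⟨mul_ne_zero hπ.pr.ne_zero hπ1.pr.ne_zero⟩
  set q := nm π * nm π1 with hqd
  set f : E → ℂ := fun z => chi π z ^ e * (starRingEnd ℂ) (chi π1 z ^ e) with hf
  have hper : ∀ z z' : E, f (z + (q : E) * z') = f z := by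
    intro z z'
    rw [hf]
    beta_reduce
    rw [(hq z z').1, (hq z z').2]
  have h3 : ((nm π : ℕ) : ℂ) * ∑ a ∈ range q, ∑ b ∈ range q, f ⟨a, b⟩ = 0 := by
    have h4 : ((nm π : ℕ) : ℂ) * ∑ a ∈ range q, ∑ b ∈ range q, f ⟨a, b⟩ =
        ∑ n ∈ range (nm π), ∑ a ∈ range q, ∑ b ∈ range q, f (⟨a, b⟩ + (n : E) * π1) := by
      rw [sum_congr rfl fun (n : ℕ) _ => IPer.sum_trans f hper ((n : E) * π1), sum_const,
        card_range, nsmul_eq_mul]
    rw [h4, sum_comm]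
    refine sum_eq_zero fun a _ => ?_
    rw [sum_comm]
    refine sum_eq_zero fun b _ => ?_
    have h5 : ∀ n ∈ range (nm π), f (⟨a, b⟩ + (n : E) * π1) =
        chi π (⟨a, b⟩ + (n : E) * π1) ^ e * (starRingEnd ℂ) (chi π1 ⟨a, b⟩ ^ e) := by
      intro n _
      rw [hf]
      beta_reduce
      have e1 : chi π1 (⟨a, b⟩ + (n : E) * π1) = chi π1 ⟨a, b⟩ := by
        refine IPer.chi_congr h2 hπ1 ?_
        rw [add_sub_cancel_left]
        exact dvd_mul_left _ _
      rw [e1]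
    rw [sum_congr rfl h5, ← sum_mul,
      IPer.sum_prog h1 h2 hπ he ⟨a, b⟩ π1 (IPer.not_dvd hπ hπ1 hne), zero_mul]
  rcases mul_eq_zero.1 h3 with h4 | h4
  · exact absurd (Nat.cast_eq_zero.1 h4) hπ.pr.ne_zero
  · exact h4

end Pool.Agent.Work.MP_59f3ad_nt.Q3
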